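import Pool.Agent.MP_e1dc65_gt.Spec1
import Pool.Agent.MP_e1dc65_gt.k.Etale
import Mathlib.Analysis.SpecialFunctions.Complex.LogDeriv
import Mathlib.Analysis.Calculus.MeanValue
import Pool.Agent.MP_e1dc65_gt.fm.Hza
import Mathlib.Analysis.Real.Pi.Bounds
import Mathlib.Analysis.Calculus.Deriv.Inverse
import Mathlib.Analysis.SpecialFunctions.Log.Basic
import Mathlib.Analysis.SpecialFunctions.ExpDeriv
import Pool.Agent.MP_e1dc65_gt.k.Mk
import Pool.Agent.MP_e1dc65_gt.t2.Disc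

-- ======== part 0: formerly Pool.Agent.MP_e1dc65_gt.e.Glue
section MrgPart0

/-! PROJECT HC, part E toolkit: descent of maps, gluing a family of copies of one piece to a base
piece, group actions on glued spaces, quotient coverings, periodic extension of tubes. -/

open scoped ContDiff Manifold Topology
open Set Filter Function Topology Module

noncomputable section

namespace Pool.Agent.MP_e1dc65_gt

variable {E E₁ E₂ E₃ E' : Type} [NormedAddCommGroup E] [NormedSpace ℝ E]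
  [NormedAddCommGroup E₁] [NormedSpace ℝ E₁] [NormedAddCommGroup E₂] [NormedSpace ℝ E₂]
  [NormedAddCommGroup E₃] [NormedSpace ℝ E₃] [NormedAddCommGroup E'] [NormedSpace ℝ E']

/-! ### DESC: descent -/

/-- compatible maps on pieces descend -/
theorem desc {ι Z T : Type} [Nonempty T] {P : ι → Type} (O : ∀ i, Set (P i)) (e : ∀ i, P i → Z)
    (f : ∀ i, P i → T) (h : ∀ i j, ∀ x ∈ O i, ∀ y ∈ O j, e i x = e j y → f i x = f j y) :
    ∃ F : Z → T, ∀ i, ∀ x ∈ O i, F (e i x) = f i x := by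
  classical
  refine ⟨fun z => if H : ∃ p : Σ i, P i, p.2 ∈ O p.1 ∧ e p.1 p.2 = z then f H.choose.1 H.choose.2
    else Classical.arbitrary T, fun i x hx => ?_⟩
  have H : ∃ p : Σ i, P i, p.2 ∈ O p.1 ∧ e p.1 p.2 = e i x := ⟨⟨i, x⟩, hx, rfl⟩
  simp only [dif_pos H]
  exact h _ _ _ H.choose_spec.1 _ hx H.choose_spec.2

/-- one piece -/
theorem desc1 {P Z T : Type} [Nonempty T] (O : Set P) (e : P → Z) (f : P → T)
    (h : ∀ x ∈ O, ∀ y ∈ O, e x = e y → f x = f y) : ∃ F : Z → T, ∀ x ∈ O, F (e x) = f x :=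
  let ⟨F, hF⟩ := desc (ι := Unit) (fun _ => O) (fun _ => e) (fun _ => f) fun _ _ => h
  ⟨F, hF ()⟩

/-- one piece and a family of pieces of a second type -/
theorem desc2 {ι P Q Z T : Type} [Nonempty T] (O : Set P) (O' : ι → Set Q) (e : P → Z)
    (e' : ι → Q → Z) (f : P → T) (f' : ι → Q → T)
    (h : ∀ x ∈ O, ∀ y ∈ O, e x = e y → f x = f y)
    (h' : ∀ i, ∀ x ∈ O, ∀ y ∈ O' i, e x = e' i y → f x = f' i y)
    (h'' : ∀ i j, ∀ x ∈ O' i, ∀ y ∈ O' j, e' i x = e' j y → f' i x = f' j y) :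
    ∃ F : Z → T, (∀ x ∈ O, F (e x) = f x) ∧ ∀ i, ∀ y ∈ O' i, F (e' i y) = f' i y := by
  obtain ⟨F, hF⟩ := desc1 (P := P ⊕ ι × Q) {p | Sum.elim (· ∈ O) (fun q => q.2 ∈ O' q.1) p}
    (Sum.elim e fun q => e' q.1 q.2) (Sum.elim f fun q => f' q.1 q.2) (by
      rintro (x | x) hx (y | y) hy H
      exacts [h _ hx _ hy H, h' _ _ hx _ hy H, (h' _ _ hy _ hx H.symm).symm, h'' _ _ _ hx _ hy H])
  exact ⟨F, fun x hx => hF (.inl x) hx, fun i y hy => hF (.inr (i, y)) hy⟩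

section Transfer
variable {X : Mf E₁} {Z : Mf E} {T : Mf E'} {e : X → Z} {O : Set X} {x : X}

theorem LDAt.sm_desc {F : Z → T} {f : X → T} (he : LDAt X Z e x) (hO : O ∈ 𝓝 x)
    (hF : ∀ y ∈ O, F (e y) = f y) (hf : SmAt X T f x) : SmAt Z T F (e x) :=
  he.sm_of_comp (hf.congr' (eventually_of_mem hO hF))

theorem LDAt.ld_desc {F : Z → T} {f : X → T} (he : LDAt X Z e x) (hO : O ∈ 𝓝 x)
    (hF : ∀ y ∈ O, F (e y) = f y) (hf : LDAt X T f x) : LDAt Z T F (e x) :=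
  he.ld_of_comp (hf.congr' (eventually_of_mem hO hF))

theorem LDAt.cont_of_comp {S : Type} [TopologicalSpace S] {F : Z → S} (he : LDAt X Z e x)
    (h : ContinuousAt (fun y => F (e y)) x) : ContinuousAt F (e x) := by
  unfold ContinuousAt
  rw [← he.map_nhds]
  exact h

theorem LDAt.cont_desc {S : Type} [TopologicalSpace S] {F : Z → S} {f : X → S} (he : LDAt X Z e x)
    (hO : O ∈ 𝓝 x) (hF : ∀ y ∈ O, F (e y) = f y) (hf : ContinuousAt f x) : ContinuousAt F (e x) :=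
  he.cont_of_comp (hf.congr (EventuallyEq.symm (eventually_of_mem hO hF)))

/-- a local diffeomorphism is locally injective -/
theorem LDAt.injOn (he : LDAt X Z e x) : ∃ U ∈ 𝓝 x, InjOn e U :=
  let ⟨_, U, _, hU, _, hx, _, _, _, _, _, l, _⟩ := he.exists_inv univ_mem
  ⟨U, hU.mem_nhds hx, LeftInvOn.injOn l⟩

/-- the local transition map between two etale maps with nested fibres -/
theorem ld_trans {C : Mf E₃} {Y : Mf E₂} {D : Set C} {a : C → X} {b : C → Y} {c : C}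
    (hD : D ∈ 𝓝 c) (ha : LDAt C X a c) (hb : LDAt C Y b c) :
    ∃ f, LDAt X Y f (a c) ∧ f (a c) = b c ∧ ∀ᶠ z in 𝓝 (a c), ∃ c' ∈ D, a c' = z ∧ b c' = f z := by
  obtain ⟨g, A, W, hA, hW, hc, hAD, -, -, m1, m2, l, r⟩ := ha.exists_inv hD
  refine ⟨fun z => b (g z), ha.ld_of_comp (hb.congr' ?_), by simp only [l c hc], ?_⟩
  · filter_upwards [hA.mem_nhds hc] with y hy
    simp only [l y hy]
  · filter_upwards [hW.mem_nhds (m1 hc)] with z hz using ⟨g z, hAD (m2 hz), r z hz, rfl⟩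

end Transfer

/-! ### GLUEFAM -/

/-- `Z` is the union of `U ⊆ X` and of disjoint copies of `V ⊆ Y` indexed by `I`; the copy `i` is
glued to `U` by `a i c ∼ b c` for `c ∈ D` -/
structure Glued (X : Mf E₁) (Y : Mf E₂) (Z : Mf E) (U : Set X) (V : Set Y) {C I : Type}
    (D : Set C) (a : I → C → X) (b : C → Y) (io : X → Z) (ka : I → Y → Z) : Prop where
  oi : OE X Z io U
  ok : ∀ i, OE Y Z (ka i) V
  cov : ∀ z, (∃ x ∈ U, io x = z) ∨ ∃ i, ∃ y ∈ V, ka i y = z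
  eq : ∀ x ∈ U, ∀ i, ∀ y ∈ V, io x = ka i y ↔ ∃ c ∈ D, a i c = x ∧ b c = y
  eqk : ∀ i j, ∀ y ∈ V, ∀ y' ∈ V, ka i y = ka j y' ↔ i = j ∧ y = y'
  ma : ∀ i, ∀ c ∈ D, a i c ∈ U
  mb : ∀ c ∈ D, b c ∈ V

/-- the relation of a glued family -/
def famRel {A B I : Type} (S : I → A → B → Prop) : Option I → Option I → A ⊕ B → A ⊕ B → Prop
  | none, none, p, q => p = q
  | none, some j, p, q => ∃ x y, p = .inl x ∧ q = .inr y ∧ S j x y
  | some i, none, p, q => ∃ x y, q = .inl x ∧ p = .inr y ∧ S i x y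
  | some i, some j, p, q => i = j ∧ p = q

theorem glueFam [FiniteDimensional ℝ E] [FiniteDimensional ℝ E₁] [FiniteDimensional ℝ E₂]
    {X : Mf E₁} {Y : Mf E₂} {C : Mf E₃} {I : Type} [Countable I] {U : Set X} {V : Set Y}
    {D : Set C} {a : I → C → X} {b : C → Y} (d1 : finrank ℝ E₁ = finrank ℝ E)
    (d2 : finrank ℝ E₂ = finrank ℝ E) (hU : IsOpen U) (hV : IsOpen V) (hD : IsOpen D)
    (hne : U.Nonempty) (ha : ∀ i, ∀ c ∈ D, LDAt C X (a i) c) (hb : ∀ c ∈ D, LDAt C Y b c)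
    (ma : ∀ i, ∀ c ∈ D, a i c ∈ U) (mb : ∀ c ∈ D, b c ∈ V)
    (he : ∀ i j, ∀ c ∈ D, ∀ c' ∈ D, a i c = a j c' ↔ i = j ∧ b c = b c')
    (hc : ∀ i, ∀ x ∈ U, ∀ y ∈ V, (x, y) ∈ closure ((fun c => (a i c, b c)) '' D) →
      ∃ c ∈ D, a i c = x ∧ b c = y) :
    ∃ (Z : Mf E) (io : X → Z) (ka : I → Y → Z), Glued X Y Z U V D a b io ka := by
  let L₁ : E₁ ≃L[ℝ] E := ContinuousLinearEquiv.ofFinrankEq d1
  let L₂ : E₂ ≃L[ℝ] E := ContinuousLinearEquiv.ofFinrankEq d2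
  let T : Mf E := (X.remodel L₁).sum (Y.remodel L₂)
  have il : ∀ x, LDAt X T Sum.inl x := fun x =>
    (ldAt_remodel' X L₁ x).trans (ldAt_inl (X := X.remodel L₁) x)
  have ir : ∀ y, LDAt Y T Sum.inr y := fun y =>
    (ldAt_remodel' Y L₂ y).trans (ldAt_inr (Y := Y.remodel L₂) y)
  let S : I → X → Y → Prop := fun i x y => ∃ c ∈ D, a i c = x ∧ b c = y
  have s1 : ∀ i x x' y, S i x y → S i x' y → x = x' := by
    rintro i _ _ _ ⟨c, h, rfl, rfl⟩ ⟨c', h', rfl, e⟩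
    exact (he i i c h c' h').2 ⟨rfl, e.symm⟩
  have s2 : ∀ i j x y y', S i x y → S j x y' → i = j ∧ y = y' := by
    rintro i j _ _ _ ⟨c, h, rfl, rfl⟩ ⟨c', h', e, rfl⟩
    exact (he i j c h c' h').1 e.symm
  have nc : ∀ i, ∀ x ∈ U, ∀ y ∈ V, ¬S i x y → ∀ᶠ p in 𝓝 (x, y), ¬S i p.1 p.2 :=
    fun i x hx y hy h => by
    filter_upwards [isClosed_closure.isOpen_compl.mem_nhds fun h' => h (hc i x hx y hy h')]
    rintro p hp ⟨c, h, e1, e2⟩
    exact hp (subset_closure ⟨c, h, Prod.ext e1 e2⟩)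
  have ne : ∀ x x' : T, x ≠ x' → ∀ᶠ p in 𝓝 (x, x'), p.1 ≠ p.2 := fun x x' h =>
    isClosed_diagonal.isOpen_compl.mem_nhds h
  let O : Option I → Set T := fun o => o.elim (Sum.inl '' U) fun _ => Sum.inr '' V
  obtain ⟨Z, e, a1, a2, a3⟩ := etale E E (Option I) (fun _ => T) O (famRel S) rfl
    (by
      rintro (_ | i)
      exacts [isOpen_image_ld (X := X) (Y := T) hU fun x _ => il x,
        isOpen_image_ld (X := Y) (Y := T) hV fun y _ => ir y])
    ⟨none, hne.image _⟩ (by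
      rintro (_ | i) x -
      exacts [rfl, ⟨rfl, rfl⟩]) (by
      rintro (_ | i) (_ | j) x - y - h
      exacts [Eq.symm h, h, h, ⟨h.1.symm, h.2.symm⟩]) (by
      rintro (_ | i) (_ | j) (_ | k) x - y - z - h h'
      · exact Eq.trans h h'
      · cases h; exact h'
      · obtain ⟨x, y, rfl, rfl, h⟩ := h
        obtain ⟨x', y', rfl, e, h'⟩ := h'
        cases e
        exact congrArg Sum.inl (s1 _ _ _ _ h h')
      · obtain ⟨rfl, rfl⟩ := h'; exact h
      · cases h'; exact h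
      · obtain ⟨x, y, rfl, rfl, h⟩ := h
        obtain ⟨x', y', e, rfl, h'⟩ := h'
        cases e
        exact ⟨(s2 _ _ _ _ _ h h').1, congrArg Sum.inr (s2 _ _ _ _ _ h h').2⟩
      · obtain ⟨rfl, rfl⟩ := h; exact h'
      · exact ⟨h.1.trans h'.1, h.2.trans h'.2⟩) (by
      rintro (_ | i) (_ | j) x - y - h
      · cases h; exact ⟨_, ldAt_id, rfl, .of_forall fun _ => rfl⟩
      · obtain ⟨_, _, rfl, rfl, c, hc, rfl, rfl⟩ := h
        obtain ⟨f, h1, h2, h3⟩ := ld_trans (hD.mem_nhds hc) ((ha j c hc).trans (il _))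
          ((hb c hc).trans (ir _))
        exact ⟨f, h1, h2, h3.mono fun z ⟨c', h', e1, e2⟩ =>
          ⟨_, _, e1.symm, e2.symm, c', h', rfl, rfl⟩⟩
      · obtain ⟨_, _, rfl, rfl, c, hc, rfl, rfl⟩ := h
        obtain ⟨f, h1, h2, h3⟩ := ld_trans (hD.mem_nhds hc) ((hb c hc).trans (ir _))
          ((ha i c hc).trans (il _))
        exact ⟨f, h1, h2, h3.mono fun z ⟨c', h', e1, e2⟩ =>
          ⟨_, _, e2.symm, e1.symm, c', h', rfl, rfl⟩⟩
      · obtain ⟨rfl, rfl⟩ := h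
        exact ⟨_, ldAt_id, rfl, .of_forall fun _ => ⟨rfl, rfl⟩⟩) (by
      rintro (_ | i) x -
      exacts [.of_forall fun p h => h, .of_forall fun p h => h.2]) (by
      rintro (_ | i) (_ | j) _ ⟨x, hx, rfl⟩ _ ⟨y, hy, rfl⟩ h
      · exact ne _ _ h
      · refine (il x).ev_pair (ir y) ((nc j x hx y hy fun H => h ⟨_, _, rfl, rfl, H⟩).mono ?_)
        rintro p hp ⟨_, _, ⟨⟩, ⟨⟩, H⟩
        exact hp H
      · refine (ir x).ev_pair (il y) (((continuous_swap.tendsto (x, y)).eventually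
          (nc i y hy x hx fun H => h ⟨_, _, rfl, rfl, H⟩)).mono ?_)
        rintro p hp ⟨_, _, ⟨⟩, ⟨⟩, H⟩
        exact hp H
      · by_cases hij : i = j
        · exact (ne _ _ fun H => h ⟨hij, H⟩).mono fun p hp H => hp H.2
        · exact .of_forall fun p H => hij H.1)
  have ml : ∀ x ∈ U, Sum.inl x ∈ O none := fun x hx => ⟨x, hx, rfl⟩
  have mr : ∀ i, ∀ y ∈ V, Sum.inr y ∈ O (some i) := fun i y hy => ⟨y, hy, rfl⟩
  have ek : ∀ i j, ∀ y ∈ V, ∀ y' ∈ V, e (some i) (.inr y) = e (some j) (.inr y') ↔ i = j ∧ y = y' :=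
    fun i j y hy y' hy' => (a3 _ _ _ (mr i y hy) _ (mr j y' hy')).trans
      (and_congr_right fun _ => Sum.inr_injective.eq_iff)
  refine ⟨Z, fun x => e none (.inl x), fun i y => e (some i) (.inr y),
    ⟨hU, fun x hx => (il x).trans (a1 _ _ (ml x hx)), fun x hx x' hx' h =>
      Sum.inl_injective ((a3 _ _ _ (ml x hx) _ (ml x' hx')).1 h)⟩,
    fun i => ⟨hV, fun y hy => (ir y).trans (a1 _ _ (mr i y hy)), fun y hy y' hy' h =>
      ((ek i i y hy y' hy').1 h).2⟩, fun z => ?_, fun x hx i y hy =>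
      (a3 _ _ _ (ml x hx) _ (mr i y hy)).trans ⟨?_, fun H => ⟨_, _, rfl, rfl, H⟩⟩, ek, ma, mb⟩
  · obtain ⟨_ | i, _, ⟨x, hx, rfl⟩, rfl⟩ := a2 z
    exacts [.inl ⟨x, hx, rfl⟩, .inr ⟨i, x, hx, rfl⟩]
  · rintro ⟨_, _, ⟨⟩, ⟨⟩, H⟩
    exact H

namespace Glued
variable {X : Mf E₁} {Y : Mf E₂} {Z : Mf E} {U : Set X} {V : Set Y} {C I : Type} {D : Set C}
  {a : I → C → X} {b : C → Y} {io : X → Z} {ka : I → Y → Z} (h : Glued X Y Z U V D a b io ka)
include h

theorem glue (i : I) {c : C} (hc : c ∈ D) : io (a i c) = ka i (b c) :=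
  (h.eq _ (h.ma i c hc) i _ (h.mb c hc)).2 ⟨c, hc, rfl, rfl⟩

theorem io_inj {x x' : X} (hx : x ∈ U) (hx' : x' ∈ U) : io x = io x' ↔ x = x' :=
  h.oi.inj.eq_iff hx hx'

/-- the part of a copy that lies in the base piece -/
theorem ka_mem {i : I} {y : Y} (hy : y ∈ V) : ka i y ∈ io '' U ↔ y ∈ b '' D :=
  ⟨fun ⟨x, hx, e⟩ => let ⟨c, hc, _, e'⟩ := (h.eq x hx i y hy).1 e; ⟨c, hc, e'⟩, by
    rintro ⟨c, hc, rfl⟩
    exact ⟨_, h.ma i c hc, h.glue i hc⟩⟩

/-- the part of the base piece that lies in a copy -/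
theorem io_mem {i : I} {x : X} (hx : x ∈ U) : io x ∈ ka i '' V ↔ x ∈ a i '' D :=
  ⟨fun ⟨y, hy, e⟩ => let ⟨c, hc, e', _⟩ := (h.eq x hx i y hy).1 e.symm; ⟨c, hc, e'⟩, by
    rintro ⟨c, hc, rfl⟩
    exact ⟨_, h.mb c hc, (h.glue i hc).symm⟩⟩

theorem disj {i j : I} (hij : i ≠ j) : Disjoint (ka i '' V) (ka j '' V) :=
  disjoint_left.2 (by
    rintro _ ⟨y, hy, rfl⟩ ⟨y', hy', e⟩
    exact hij ((h.eqk i j y hy y' hy').1 e.symm).1)

/-- a property of all points is checked on the pieces -/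
theorem ind {P : Z → Prop} (h1 : ∀ x ∈ U, P (io x)) (h2 : ∀ i, ∀ y ∈ V, P (ka i y)) (z : Z) :
    P z := by
  obtain ⟨x, hx, rfl⟩ | ⟨i, y, hy, rfl⟩ := h.cov z
  exacts [h1 x hx, h2 i y hy]

/-- maps out of a glued space -/
theorem desc {T : Type} [Nonempty T] (f : X → T) (g : I → Y → T)
    (H : ∀ i, ∀ c ∈ D, f (a i c) = g i (b c)) :
    ∃ F : Z → T, (∀ x ∈ U, F (io x) = f x) ∧ ∀ i, ∀ y ∈ V, F (ka i y) = g i y :=
  desc2 U (fun _ => V) io ka f g (fun x hx y hy e => by rw [h.oi.inj hx hy e])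
    (fun i x hx y hy e => by
      obtain ⟨c, hc, rfl, rfl⟩ := (h.eq x hx i y hy).1 e
      exact H i c hc)
    fun i j x hx y hy e => by
      obtain ⟨rfl, rfl⟩ := (h.eqk i j x hx y hy).1 e
      rfl

theorem sm {T : Mf E'} {F : Z → T} {f : X → T} {g : I → Y → T} (e1 : ∀ x ∈ U, F (io x) = f x)
    (e2 : ∀ i, ∀ y ∈ V, F (ka i y) = g i y) (hf : Sm X T f U) (hg : ∀ i, Sm Y T (g i) V) :
    Sm Z T F univ := fun z _ => h.ind (P := fun z => SmAt Z T F z)
  (fun x hx => (h.oi.ld x hx).sm_desc (h.oi.op.mem_nhds hx) e1 (hf x hx))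
  (fun i y hy => ((h.ok i).ld y hy).sm_desc ((h.ok i).op.mem_nhds hy) (e2 i) (hg i y hy)) z

theorem ld {T : Mf E'} {F : Z → T} {f : X → T} {g : I → Y → T} (e1 : ∀ x ∈ U, F (io x) = f x)
    (e2 : ∀ i, ∀ y ∈ V, F (ka i y) = g i y) (hf : ∀ x ∈ U, LDAt X T f x)
    (hg : ∀ i, ∀ y ∈ V, LDAt Y T (g i) y) (z : Z) : LDAt Z T F z :=
  h.ind (P := fun z => LDAt Z T F z)
    (fun x hx => (h.oi.ld x hx).ld_desc (h.oi.op.mem_nhds hx) e1 (hf x hx))
    (fun i y hy => ((h.ok i).ld y hy).ld_desc ((h.ok i).op.mem_nhds hy) (e2 i) (hg i y hy)) z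

theorem cont {S : Type} [TopologicalSpace S] {F : Z → S} {f : X → S} {g : I → Y → S}
    (e1 : ∀ x ∈ U, F (io x) = f x) (e2 : ∀ i, ∀ y ∈ V, F (ka i y) = g i y)
    (hf : ContinuousOn f U) (hg : ∀ i, ContinuousOn (g i) V) : Continuous F :=
  continuous_iff_continuousAt.2 <| h.ind (P := fun z => ContinuousAt F z)
    (fun x hx => (h.oi.ld x hx).cont_desc (h.oi.op.mem_nhds hx) e1
      (hf.continuousAt (h.oi.op.mem_nhds hx)))
    fun i y hy => ((h.ok i).ld y hy).cont_desc ((h.ok i).op.mem_nhds hy) (e2 i)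
      ((hg i).continuousAt ((h.ok i).op.mem_nhds hy))

/-- a compact set lies in the images of finitely many compact subsets of the pieces -/
theorem cpt [FiniteDimensional ℝ E₁] [FiniteDimensional ℝ E₂] {K : Set Z} (hK : IsCompact K) :
    ∃ (A : Set X) (B : Set Y) (s : Set I), IsCompact A ∧ A ⊆ U ∧ IsCompact B ∧ B ⊆ V ∧
      s.Finite ∧ ∀ z ∈ K, (∃ x ∈ A, io x = z) ∨ ∃ i ∈ s, ∃ y ∈ B, ka i y = z := by
  refine hK.induction_on (p := fun K => ∃ (A : Set X) (B : Set Y) (s : Set I), IsCompact A ∧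
    A ⊆ U ∧ IsCompact B ∧ B ⊆ V ∧ s.Finite ∧
      ∀ z ∈ K, (∃ x ∈ A, io x = z) ∨ ∃ i ∈ s, ∃ y ∈ B, ka i y = z)
    ⟨∅, ∅, ∅, isCompact_empty, empty_subset _, isCompact_empty, empty_subset _, finite_empty,
      fun _ h => h.elim⟩
    (fun s t hst ⟨A, B, r, h1, h2, h3, h4, h5, h6⟩ =>
      ⟨A, B, r, h1, h2, h3, h4, h5, fun z hz => h6 z (hst hz)⟩) ?_ fun z _ => ?_
  · rintro s t ⟨A, B, r, h1, h2, h3, h4, h5, h6⟩ ⟨A', B', r', h1', h2', h3', h4', h5', h6'⟩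
    refine ⟨A ∪ A', B ∪ B', r ∪ r', h1.union h1', union_subset h2 h2', h3.union h3',
      union_subset h4 h4', h5.union h5', ?_⟩
    rintro z (hz | hz)
    · exact (h6 z hz).imp (fun ⟨x, hx, e⟩ => ⟨x, .inl hx, e⟩)
        fun ⟨i, hi, y, hy, e⟩ => ⟨i, .inl hi, y, .inl hy, e⟩
    · exact (h6' z hz).imp (fun ⟨x, hx, e⟩ => ⟨x, .inr hx, e⟩)
        fun ⟨i, hi, y, hy, e⟩ => ⟨i, .inr hi, y, .inr hy, e⟩
  · obtain ⟨x, hx, rfl⟩ | ⟨i, y, hy, rfl⟩ := h.cov z
    · obtain ⟨A, h1, h2, h3⟩ := local_compact_nhds (h.oi.op.mem_nhds hx)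
      exact ⟨io '' A, mem_nhdsWithin_of_mem_nhds ((h.oi.ld x hx).image_mem h1), A, ∅, ∅, h3, h2,
        isCompact_empty, empty_subset _, finite_empty, fun _ hz => .inl hz⟩
    · obtain ⟨B, h1, h2, h3⟩ := local_compact_nhds ((h.ok i).op.mem_nhds hy)
      exact ⟨ka i '' B, mem_nhdsWithin_of_mem_nhds (((h.ok i).ld y hy).image_mem h1), ∅, B, {i},
        isCompact_empty, empty_subset _, h3, h2, finite_singleton i, fun _ hz => .inr ⟨i, rfl, hz⟩⟩

/-- a glued space is connected if the pieces are and the overlap is nonempty -/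
theorem conn (hU : IsPreconnected U) (hne : U.Nonempty) (hV : IsPreconnected V)
    (hD : D.Nonempty) : ConnectedSpace Z := by
  obtain ⟨c, hc⟩ := hD
  obtain ⟨x, hx⟩ := hne
  have h0 : IsPreconnected (io '' U) := hU.image _ h.oi.sm.contOn
  have : IsPreconnected (univ : Set Z) := isPreconnected_of_forall (io x) fun z _ =>
    h.ind (P := fun z => ∃ t ⊆ univ, io x ∈ t ∧ z ∈ t ∧ IsPreconnected t)
      (fun x' hx' => ⟨io '' U, subset_univ _, ⟨x, hx, rfl⟩, ⟨x', hx', rfl⟩, h0⟩)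
      (fun i y hy => ⟨io '' U ∪ ka i '' V, subset_univ _, .inl ⟨x, hx, rfl⟩, .inr ⟨y, hy, rfl⟩,
        IsPreconnected.union (io (a i c)) ⟨_, h.ma i c hc, rfl⟩
          ⟨_, h.mb c hc, (h.glue i hc).symm⟩ h0 (hV.image _ (h.ok i).sm.contOn)⟩) z
  exact @ConnectedSpace.mk _ _ ⟨this⟩ inferInstance

end Glued

/-! ### GLUEACT and QCOV: group actions -/

/-- a smooth action of `G` on the subset `U` -/
structure ActOn {G : Type} [Group G] (X : Mf E) (α : G → X → X) (U : Set X) : Prop where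
  maps : ∀ g, ∀ x ∈ U, α g x ∈ U
  one : ∀ x ∈ U, α 1 x = x
  mul : ∀ g g', ∀ x ∈ U, α (g * g') x = α g (α g' x)
  sm : ∀ g, Sm X X (α g) U

/-- a smooth action of `G` on `I × V`: `g` takes `(i, y)` to `(ρ g i, β g i y)` -/
structure ActFam {G I : Type} [Group G] (Y : Mf E) (ρ : G → I → I) (β : G → I → Y → Y)
    (V : Set Y) : Prop where
  maps : ∀ g i, ∀ y ∈ V, β g i y ∈ V
  ρ1 : ∀ i, ρ 1 i = i
  ρm : ∀ g g' i, ρ (g * g') i = ρ g (ρ g' i)
  one : ∀ i, ∀ y ∈ V, β 1 i y = y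
  mul : ∀ g g' i, ∀ y ∈ V, β (g * g') i y = β g (ρ g' i) (β g' i y)
  sm : ∀ g i, Sm Y Y (β g i) V

section Act
variable {G : Type} [Group G] {X : Mf E₁} {α : G → X → X} {U : Set X}

theorem ActOn.inv (h : ActOn X α U) (g : G) {x : X} (hx : x ∈ U) : α g⁻¹ (α g x) = x := by
  rw [← h.mul _ _ x hx, inv_mul_cancel, h.one x hx]

theorem ActOn.inv' (h : ActOn X α U) (g : G) {x : X} (hx : x ∈ U) : α g (α g⁻¹ x) = x := by
  rw [← h.mul _ _ x hx, mul_inv_cancel, h.one x hx]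

theorem ActOn.oe (h : ActOn X α U) (hU : IsOpen U) (g : G) : OE X X (α g) U :=
  oe_of_inv hU hU (h.sm g) (h.sm g⁻¹) (h.maps g) (h.maps g⁻¹) (fun _ => h.inv g) fun _ => h.inv' g

theorem actOn_univ (h1 : ∀ x, α 1 x = x) (h2 : ∀ g g' x, α (g * g') x = α g (α g' x))
    (h3 : ∀ g, Sm X X (α g) univ) : ActOn X α univ :=
  ⟨fun _ _ _ => trivial, fun x _ => h1 x, fun g g' x _ => h2 g g' x, h3⟩

/-- the action as a homeomorphism -/
def ActOn.homeo (h : ActOn X α univ) (g : G) : X ≃ₜ X where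
  toFun := α g
  invFun := α g⁻¹
  left_inv _ := h.inv g trivial
  right_inv _ := h.inv' g trivial
  continuous_toFun := (h.sm g).cont
  continuous_invFun := (h.sm g⁻¹).cont

/-- quotient by a free action with finite return -/
theorem ActOn.quot [FiniteDimensional ℝ E₁] (h : ActOn X α univ) (hf : ∀ g x, α g x = x → g = 1)
    (hp : ∀ K : Set X, IsCompact K → {g : G | ∃ x ∈ K, α g x ∈ K}.Finite) :
    ∃ (M : Mf E₁) (p : X → M), (∀ x, LDAt X M p x) ∧ Surjective p ∧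
      ∀ x x', p x = p x' ↔ ∃ g, α g x = x' := by
  let _ : MulAction G X :=
    { smul := α, one_smul := fun x => h.one x trivial
      mul_smul := fun g g' x => h.mul g g' x trivial }
  obtain ⟨M, p, h1, h2⟩ := free_quot' X G h.sm hf hp
  exact ⟨M, p, h1, h2.surjective, fun x x' => eq_comm.trans h2.apply_eq_iff_mem_orbit⟩

/-- QCOV: an etale surjection whose fibres are the orbits of a free action is a covering -/
theorem qcov {M : Mf E} {p : X → M} (h : ActOn X α univ) (hf : ∀ g x, α g x = x → g = 1)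
    (hl : ∀ x, LDAt X M p x) (hs : Surjective p) (he : ∀ x x', p x = p x' ↔ ∃ g, α g x = x') :
    IsCoveringMap p ∧ (∀ K : Set X, IsCompact K → {g : G | ∃ x ∈ K, α g x ∈ K}.Finite) ∧
      ∀ x x', p x = p x' → ∃ k : X ≃ₜ X, (∀ z, p (k z) = p z) ∧ k x = x' := by
  let _ : MulAction G X :=
    { smul := α, one_smul := fun x => h.one x trivial
      mul_smul := fun g g' x => h.mul g g' x trivial }
  have hp := locHomeo_of_ld hl
  have pa : ∀ g x, p (α g x) = p x := fun g x => ((he _ _).2 ⟨g, rfl⟩).symm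
  have hd : ∀ x, ∃ W ∈ 𝓝 x, ∀ g, ∀ z ∈ W, α g z ∈ W → g = 1 := fun x =>
    let ⟨W, hW, i⟩ := (hl x).injOn; ⟨W, hW, fun g z hz hz' => hf g z (i hz' hz (pa g z))⟩
  have q : IsQuotientCoveringMap p G :=
    { toIsQuotientMap := hp.isOpenMap.isQuotientMap hp.continuous hs
      continuous_const_smul := fun g => (h.sm g).cont
      apply_eq_iff_mem_orbit := fun {a b} => eq_comm.trans (he b a)
      disjoint := fun y => let ⟨W, hW, i⟩ := hd y
        ⟨W, hW, fun g ⟨_, ⟨z, hz, e⟩, hz'⟩ => i g z hz (e ▸ hz' :)⟩ }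
  refine ⟨q.isCoveringMap, fun K hK => ?_, fun x x' e => ?_⟩
  · have H : {g : G | ∃ q ∈ K ×ˢ K, α g q.1 = q.2}.Finite := by
      refine (hK.prod hK).induction_on (p := fun S => {g : G | ∃ q ∈ S, α g q.1 = q.2}.Finite)
        (by simp) (fun s t hst H => H.subset fun g ⟨q, hq, e⟩ => ⟨q, hst hq, e⟩)
        (fun s t H H' => (H.union H').subset fun g ⟨q, hq, e⟩ =>
          hq.imp (fun hq => ⟨q, hq, e⟩) fun hq => ⟨q, hq, e⟩) ?_
      rintro ⟨x, x'⟩ -
      by_cases e : p x = p x'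
      · obtain ⟨g, rfl⟩ := (he _ _).1 e
        obtain ⟨W, hW, i⟩ := hd x
        refine ⟨W ×ˢ (α g⁻¹ ⁻¹' W), mem_nhdsWithin_of_mem_nhds (prod_mem_nhds hW
          ((h.sm g⁻¹).cont.continuousAt.preimage_mem_nhds (by rwa [h.inv g trivial]))),
          (finite_singleton g).subset ?_⟩
        rintro k ⟨q, ⟨hz, hz'⟩, e'⟩
        exact (inv_mul_eq_one.1 (i (g⁻¹ * k) _ hz (by rwa [h.mul _ _ _ trivial, e']))).symm
      · have c : Continuous fun q : X × X => (p q.1, p q.2) :=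
          (hp.continuous.comp continuous_fst).prodMk (hp.continuous.comp continuous_snd)
        refine ⟨{q | p q.1 ≠ p q.2}, mem_nhdsWithin_of_mem_nhds
          ((isClosed_diagonal.isOpen_compl.preimage c).mem_nhds e), finite_empty.subset ?_⟩
        rintro k ⟨q, hz, e'⟩
        exact hz (e' ▸ (pa k _).symm)
    exact H.subset fun g ⟨x, hx, hx'⟩ => ⟨(x, α g x), ⟨hx, hx'⟩, rfl⟩
  · obtain ⟨g, rfl⟩ := (he _ _).1 e
    exact ⟨h.homeo g, pa g, rfl⟩

variable {Y : Mf E₂} {Z : Mf E} {V : Set Y} {C I : Type} {D : Set C} {a : I → C → X} {b : C → Y}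
  {io : X → Z} {ka : I → Y → Z} {ρ : G → I → I} {β : G → I → Y → Y}

/-- GLUEACT: the action on a glued space -/
theorem Glued.act (h : Glued X Y Z U V D a b io ka) (hα : ActOn X α U) (hβ : ActFam Y ρ β V)
    (hc : ∀ g i, ∀ c ∈ D, ∃ c' ∈ D, a (ρ g i) c' = α g (a i c) ∧ b c' = β g i (b c)) :
    ∃ γ : G → Z → Z, ActOn Z γ univ ∧ (∀ g, ∀ x ∈ U, γ g (io x) = io (α g x)) ∧
      ∀ g i, ∀ y ∈ V, γ g (ka i y) = ka (ρ g i) (β g i y) := by
  have H := fun g => h.desc (fun x => io (α g x)) (fun i y => ka (ρ g i) (β g i y))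
    fun i c hc' => by
      obtain ⟨c', h1, h2, h3⟩ := hc g i c hc'
      rw [← h2, ← h3, h.glue _ h1]
  choose γ e1 e2 using H
  refine ⟨γ, actOn_univ (h.ind (fun x hx => ?_) fun i y hy => ?_)
    (fun g g' => h.ind (fun x hx => ?_) fun i y hy => ?_) fun g => h.sm (e1 g) (e2 g)
      (fun x hx => (hα.sm g x hx).trans (h.oi.sm _ (hα.maps g x hx)))
      fun i y hy => (hβ.sm g i y hy).trans ((h.ok _).sm _ (hβ.maps g i y hy)), e1, e2⟩
  · rw [e1 _ x hx, hα.one x hx]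
  · rw [e2 _ i y hy, hβ.one i y hy, hβ.ρ1]
  · rw [e1 _ x hx, e1 _ x hx, e1 _ _ (hα.maps _ x hx), hα.mul _ _ x hx]
  · rw [e2 _ i y hy, e2 _ i y hy, e2 _ _ _ (hβ.maps _ i y hy), hβ.mul _ _ i y hy, hβ.ρm]

/-- the action on a glued space is free if it is free on the pieces -/
theorem Glued.free (h : Glued X Y Z U V D a b io ka) (hα : ActOn X α U) (hβ : ActFam Y ρ β V)
    {γ : G → Z → Z} (e1 : ∀ g, ∀ x ∈ U, γ g (io x) = io (α g x))
    (e2 : ∀ g i, ∀ y ∈ V, γ g (ka i y) = ka (ρ g i) (β g i y))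
    (f1 : ∀ g, ∀ x ∈ U, α g x = x → g = 1)
    (f2 : ∀ g i, ∀ y ∈ V, ρ g i = i → β g i y = y → g = 1) (g : G) (z : Z) : γ g z = z → g = 1 := by
  refine h.ind (P := fun z => γ g z = z → g = 1) (fun x hx e => ?_) (fun i y hy e => ?_) z
  · exact f1 g x hx (h.oi.inj (hα.maps g x hx) hx ((e1 g x hx).symm.trans e))
  · have := (h.eqk _ _ _ (hβ.maps g i y hy) _ hy).1 ((e2 g i y hy).symm.trans e)
    exact f2 g i y hy this.1 this.2

/-- finite return on a glued space: finite return on the base piece, finite stabilisers of the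
indices, locally finite overlaps -/
theorem Glued.proper [FiniteDimensional ℝ E₁] [FiniteDimensional ℝ E₂]
    (h : Glued X Y Z U V D a b io ka) (hα : ActOn X α U) (hβ : ActFam Y ρ β V)
    {γ : G → Z → Z} (e1 : ∀ g, ∀ x ∈ U, γ g (io x) = io (α g x))
    (e2 : ∀ g i, ∀ y ∈ V, γ g (ka i y) = ka (ρ g i) (β g i y))
    (p1 : ∀ K ⊆ U, IsCompact K → {g : G | ∃ x ∈ K, α g x ∈ K}.Finite)
    (p2 : ∀ i, {g : G | ρ g i = i}.Finite)
    (p3 : ∀ K ⊆ U, IsCompact K → {i | ∃ c ∈ D, a i c ∈ K}.Finite) (K : Set Z) (hK : IsCompact K) :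
    {g : G | ∃ z ∈ K, γ g z ∈ K}.Finite := by
  obtain ⟨A, B, s, h1, h2, h3, h4, h5, h6⟩ := h.cpt hK
  have p2' : ∀ i j, {g : G | ρ g i = j}.Finite := fun i j => by
    rcases eq_empty_or_nonempty {g : G | ρ g i = j} with e | ⟨k, hk⟩
    · rw [e]; exact finite_empty
    · refine ((p2 i).image (k * ·)).subset fun g hg => ⟨k⁻¹ * g, ?_, by simp⟩
      have hg' : ρ g i = j := hg
      have hk' : ρ k i = j := hk
      change ρ _ i = i
      rw [hβ.ρm, hg', ← hk', ← hβ.ρm, inv_mul_cancel, hβ.ρ1]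
  have ht := h5.union (p3 A h2 h1)
  refine ((p1 A h2 h1).union (ht.biUnion fun i _ => ht.biUnion fun j _ => p2' i j)).subset ?_
  rintro g ⟨z, hz, hz'⟩
  obtain ⟨x, hx, rfl⟩ | ⟨i, hi, y, hy, rfl⟩ := h6 z hz
  · rw [e1 g x (h2 hx)] at hz'
    have m := hα.maps g x (h2 hx)
    obtain ⟨x', hx', e⟩ | ⟨j, hj, y, hy, e⟩ := h6 _ hz'
    · exact .inl ⟨x, hx, h.oi.inj (h2 hx') m e ▸ hx'⟩
    · have e' : io x = ka (ρ g⁻¹ j) (β g⁻¹ j y) := by
        rw [← e2 _ _ _ (h4 hy), e, e1 _ _ m, hα.inv g (h2 hx)]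
      obtain ⟨c, hc, e3, -⟩ := (h.eq _ (h2 hx) _ _ (hβ.maps _ _ _ (h4 hy))).1 e'
      refine .inr (mem_biUnion (x := ρ g⁻¹ j) (.inr ⟨c, hc, e3 ▸ hx⟩) (mem_biUnion (.inl hj) ?_))
      change ρ g _ = j
      rw [← hβ.ρm, mul_inv_cancel, hβ.ρ1]
  · rw [e2 g i y (h4 hy)] at hz'
    have m := hβ.maps g i y (h4 hy)
    refine .inr (mem_biUnion (.inl hi) (mem_biUnion (x := ρ g i) ?_ rfl))
    obtain ⟨x', hx', e⟩ | ⟨j, hj, y', hy', e⟩ := h6 _ hz'
    · obtain ⟨c, hc, e3, -⟩ := (h.eq _ (h2 hx') _ _ m).1 e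
      exact .inr ⟨c, hc, e3 ▸ hx'⟩
    · exact .inl (((h.eqk _ _ _ (h4 hy') _ m).1 e).1 ▸ hj)

end Act

/-! ### PER: periodic extension -/

section Per
variable {W : Type} [NormedAddCommGroup W] [NormedSpace ℝ W] [FiniteDimensional ℝ W]

theorem ldAt_shift (t : ℝ) (p : ℝ × W) :
    LDAt (vs (ℝ × W)) (vs (ℝ × W)) (fun q => (q.1 + t, q.2)) p :=
  ldAt_of_inv (X := vs (ℝ × W)) (Y := vs (ℝ × W)) (g := fun q => (q.1 - t, q.2)) isOpen_univ
    isOpen_univ trivial (fun _ _ => smAt_vs.2 (by fun_prop)) (fun _ _ => smAt_vs.2 (by fun_prop))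
    (mapsTo_univ _ _) (mapsTo_univ _ _) (fun _ _ => by simp) fun _ _ => by simp

omit [NormedAddCommGroup W] [NormedSpace ℝ W] [FiniteDimensional ℝ W] in
theorem per_int {S : Type} {l : ℝ × W → S} {T : ℝ} {v : W} (h : ∀ θ, l (θ + T, v) = l (θ, v))
    (θ : ℝ) (m : ℤ) : l (θ + T * m, v) = l (θ, v) := by
  have : Periodic (fun θ => l (θ, v)) T := h
  simpa only [mul_comm] using this.int_mul m θ

/-- PER: a map `l₀` on `(0, T) × B` whose two ends are joined by `n` on `(-d, d) × B` extends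
periodically -/
theorem per_ext {M : Mf E} {B : Set W} (hB : IsOpen B) {l₀ n : ℝ × W → M} {T d : ℝ} (hd : 0 < d)
    (hT : d ≤ T) (h0 : ∀ θ v, 0 < θ → θ < T → v ∈ B → LDAt (vs (ℝ × W)) M l₀ (θ, v))
    (hn : ∀ v ∈ B, LDAt (vs (ℝ × W)) M n (0, v))
    (e1 : ∀ θ v, 0 < θ → θ < d → v ∈ B → l₀ (θ, v) = n (θ, v))
    (e2 : ∀ θ v, -d < θ → θ < 0 → v ∈ B → l₀ (θ + T, v) = n (θ, v)) :
    ∃ l : ℝ × W → M, (∀ θ, ∀ v ∈ B, LDAt (vs (ℝ × W)) M l (θ, v)) ∧
      (∀ θ v, l (θ + T, v) = l (θ, v)) ∧ (∀ θ v, 0 < θ → θ < T → l (θ, v) = l₀ (θ, v)) ∧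
      ∀ θ v, |θ| < d → v ∈ B → l (θ, v) = n (θ, v) := by
  classical
  have hp : 0 < T := hd.trans_le hT
  let l : ℝ × W → M := fun q =>
    if toIcoMod hp 0 q.1 = 0 then n (0, q.2) else l₀ (toIcoMod hp 0 q.1, q.2)
  have a1 : ∀ θ v, l (θ + T, v) = l (θ, v) := fun θ v => by simp only [l, toIcoMod_add_right]
  have a2 : ∀ θ v, 0 < θ → θ < T → l (θ, v) = l₀ (θ, v) := fun θ v h1 h2 => by
    have : toIcoMod hp 0 θ = θ := (toIcoMod_eq_self hp).2 ⟨h1.le, by simpa using h2⟩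
    simp only [l, this, h1.ne', if_false]
  have a3 : ∀ θ v, |θ| < d → v ∈ B → l (θ, v) = n (θ, v) := fun θ v h1 hv => by
    obtain ⟨h2, h3⟩ := abs_lt.1 h1
    rcases lt_trichotomy θ 0 with h | rfl | h
    · rw [← a1, a2 _ _ (by linarith) (by linarith), e2 θ v h2 h hv]
    · simp only [l, toIcoMod_apply_left, if_true]
    · rw [a2 _ _ h (by linarith), e1 θ v h h3 hv]
  refine ⟨l, fun θ v hv => ?_, a1, a2, a3⟩
  have a4 : ∀ θ, 0 ≤ θ → θ < T → LDAt (vs (ℝ × W)) M l (θ, v) := fun θ h1 h2 => by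
    rcases h1.eq_or_lt with rfl | h1
    · refine (hn v hv).congr' ?_
      filter_upwards [prod_mem_nhds (Ioo_mem_nhds (neg_lt_zero.2 hd) hd) (hB.mem_nhds hv)]
        with q hq using a3 _ _ (abs_lt.2 hq.1) hq.2
    · refine (h0 θ v h1 h2 hv).congr' ?_
      filter_upwards [prod_mem_nhds (Ioo_mem_nhds h1 h2) (hB.mem_nhds hv)]
        with q hq using a2 _ _ hq.1.1 hq.1.2
  obtain ⟨h1, h2⟩ := toIcoMod_mem_Ico' hp θ
  have e : toIcoMod hp 0 θ = θ + T * (-toIcoDiv hp 0 θ : ℤ) := by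
    rw [← self_sub_toIcoDiv_zsmul, zsmul_eq_mul]; push_cast; ring
  exact ((ldAt_shift _ (θ, v)).trans (e ▸ a4 _ h1 h2 :)).congr'
    (.of_forall fun q => (per_int (fun θ => a1 θ q.2) q.1 _).symm)

/-- a periodic etale map that is injective on a fundamental domain is a tube -/
theorem tube_of_per {M : Mf E4} {B : Set (Rn 3)} {l : ℝ × Rn 3 → M} (t : ℝ)
    (ld : ∀ θ, ∀ v ∈ B, LDAt (vs (ℝ × Rn 3)) M l (θ, v))
    (per : ∀ θ, ∀ v ∈ B, l (θ + 8, v) = l (θ, v)) (inj : InjOn l (Ico t (t + 8) ×ˢ B)) :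
    Tube M l B := by
  have hp : (0 : ℝ) < 8 := by norm_num
  have e : ∀ θ, toIcoMod hp t θ = θ + 8 * (-toIcoDiv hp t θ : ℤ) := fun θ => by
    rw [← self_sub_toIcoDiv_zsmul, zsmul_eq_mul]; push_cast; ring
  refine ⟨ld, fun θ θ' v hv v' hv' => ⟨fun h => ?_, ?_⟩⟩
  · have := inj (x₁ := (toIcoMod hp t θ, v)) (x₂ := (toIcoMod hp t θ', v'))
      ⟨toIcoMod_mem_Ico hp t θ, hv⟩ ⟨toIcoMod_mem_Ico hp t θ', hv'⟩ (by
        rw [e, e, per_int (per · v hv), per_int (per · v' hv'), h])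
    obtain ⟨h1, h2⟩ := Prod.ext_iff.1 this
    refine ⟨⟨toIcoDiv hp t θ - toIcoDiv hp t θ', ?_⟩, h2⟩
    simp only [e] at h1
    push_cast at h1 ⊢
    linarith
  · rintro ⟨⟨m, hm⟩, rfl⟩
    rw [← per_int (per · v hv) θ' m, ← hm, add_sub_cancel]

end Per

end Pool.Agent.MP_e1dc65_gt

end
end MrgPart0

-- ======== part 1: formerly Pool.Agent.MP_e1dc65_gt.e.Arg
section MrgPart1

/-! PROJECT HC, part E toolkit: the form `d arg f`; first cohomology of a mapping torus. -/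

open scoped ContDiff Manifold Topology Real
open Set Filter Function Module Complex Pool.Agent.MP_c8d41b_gt.GF

noncomputable section

namespace Pool.Agent.MP_e1dc65_gt.Arg

variable {E E' : Type} [NormedAddCommGroup E] [NormedSpace ℝ E] [FiniteDimensional ℝ E]
  [NormedAddCommGroup E'] [NormedSpace ℝ E'] [FiniteDimensional ℝ E'] {X : Mf E} {Y : Mf E'}
  {F : X → ℂ} {x : X} {U : Set X}

/-- the differential of the argument of a complex function -/
def ang (X : Mf E) (F : X → ℂ) (x : X) : Lam E := dF X (fun y => arg (star (F x) * F y)) x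

theorem ang_eq {η : X → ℝ} {c : ℂ} (hc : c ≠ 0) (hη : SmAt X (vs ℝ) η x)
    (h : ∀ᶠ y in 𝓝 x, ∃ r : ℝ, 0 < r ∧ F y = r * (c * exp (η y * I))) : ang X F x = dF X η x := by
  obtain ⟨r₀, h0, e0⟩ := h.self_of_nhds
  have : (fun y => arg (star (F x) * F y)) =ᶠ[𝓝 x] fun y => η y - η x := by
    filter_upwards [h, hη.cont.eventually (Ioo_mem_nhds (a := η x - π) (b := η x + π)
      (by linarith [Real.pi_pos]) (by linarith [Real.pi_pos]))] with y ⟨r, hr, e⟩ hy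
    have e1 : star (F x) * F y = (r₀ * r * normSq c : ℝ) * exp ((η y - η x : ℝ) * I) := by
      rw [e0, e]
      simp only [star_def, map_mul, conj_ofReal, ← exp_conj, conj_I, ofReal_mul, normSq_eq_conj_mul_self,
        ofReal_sub, sub_mul, exp_sub, mul_neg, exp_neg]
      ring
    rw [e1, arg_real_mul _ (mul_pos (mul_pos h0 hr) (normSq_pos.2 hc)), exp_mul_I]
    exact arg_cos_add_sin_mul_I ⟨by linarith [hy.1], by linarith [hy.2]⟩
  rw [ang, dF_congr this, dF_sub hη (smAt_const (Y := vs ℝ) _), dF_const, sub_zero]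

omit [FiniteDimensional ℝ E] in
theorem smAt_arg (c : ℂ) (hF : SmAt X (vs ℂ) F x) (h : c * F x ∈ slitPlane) :
    SmAt X (vs ℝ) (fun y => arg (c * F y)) x := by
  have h1 : ContDiffAt ℝ ∞ (fun z : ℂ => imCLM (log (c * z))) (F x) :=
    imCLM.contDiff.contDiffAt.comp _ (((contDiffAt_log h).restrict_scalars ℝ).comp _
      (contDiffAt_const.mul contDiffAt_id))
  simpa only [imCLM_apply, log_im] using hF.vcomp h1

theorem ang_arg (c : ℂ) (hU : IsOpen U) (hF : Sm X (vs ℂ) F U) (h : ∀ y ∈ U, c * F y ∈ slitPlane)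
    (hx : x ∈ U) : ang X F x = dF X (fun y => arg (c * F y)) x := by
  have hc : c ≠ 0 := left_ne_zero_of_mul (slitPlane_ne_zero (h x hx))
  refine ang_eq (inv_ne_zero hc) (smAt_arg c (hF x hx) (h x hx)) ?_
  filter_upwards [hU.mem_nhds hx] with y hy
  refine ⟨‖c * F y‖, norm_pos_iff.2 (slitPlane_ne_zero (h y hy)), ?_⟩
  rw [mul_left_comm, norm_mul_exp_arg_mul_I, inv_mul_cancel_left₀ hc]

theorem self_slit {z : ℂ} (h : z ≠ 0) : star z * z ∈ slitPlane := by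
  rw [star_def, ← normSq_eq_conj_mul_self]
  exact ofReal_mem_slitPlane.2 (normSq_pos.2 h)

theorem cl_ang (hU : IsOpen U) (hF : Sm X (vs ℂ) F U) (h : ∀ y ∈ U, F y ≠ 0) :
    Cl X 1 (ang X F) U := by
  have key : ∀ x ∈ U, ∃ V, x ∈ V ∧ Cl X 1 (ang X F) V := fun x hx => by
    have hV : IsOpen (U ∩ (fun y => star (F x) * F y) ⁻¹' slitPlane) :=
      (continuousOn_const.mul hF.contOn).isOpen_inter_preimage hU isOpen_slitPlane
    exact ⟨_, mem_inter hx (self_slit (h x hx)), (cl_dF fun y hy => smAt_arg _ (hF y hy.1) hy.2).congr hV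
      fun y hy => ang_arg _ hV (hF.mono inter_subset_left) (fun _ hz => hz.2) hy⟩
  exact ⟨fun x hx => let ⟨_, h1, h2⟩ := key x hx; h2.1 x h1,
    fun x hx => let ⟨_, h1, h2⟩ := key x hx; h2.2 x h1⟩

theorem pb_ang {f : X → Y} {F : Y → ℂ} (hf : SmAt X Y f x) (hF : SmAt Y (vs ℂ) F (f x))
    (h : F (f x) ≠ 0) : pbM X Y f (ang Y F) x = ang X (fun x => F (f x)) x :=
  (pbM_congr_right (β := dF Y fun y => arg (star (F (f x)) * F y)) rfl).trans
    (pbM_dF hf (smAt_arg _ hF (self_slit h)))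

/-- the closed one-form `d arg f` -/
theorem dArg (hU : IsOpen U) (hF : Sm X (vs ℂ) F U) (h : ∀ y ∈ U, F y ≠ 0) :
    ∃ θ, Cl X 1 θ U ∧ ∀ (E' : Type) [NormedAddCommGroup E'] [NormedSpace ℝ E']
      [FiniteDimensional ℝ E'] (Y : Mf E') (c : Y → X) (g : Y → ℝ) (y : Y), SmAt Y X c y → c y ∈ U →
      SmAt Y (vs ℝ) g y → (∀ᶠ z in 𝓝 y, ∃ r : ℝ, 0 < r ∧ F (c z) = r * exp (g z * I)) →
      pbM Y X c θ y = dF Y g y :=
  ⟨ang X F, cl_ang hU hF h, fun _ _ _ _ _ _ _ _ hc hy hg e => (pb_ang hc (hF _ hy) (h _ hy)).trans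
    (ang_eq one_ne_zero hg (by simpa only [one_mul] using e))⟩

theorem ex_dF {u : X → ℝ} {α : X → Lam E} (hu : Sm X (vs ℝ) u U) (h : ∀ x ∈ U, dF X u x = α x) :
    ∃ β, Fm X 0 β U ∧ ∀ x ∈ U, dM X β x = α x := ⟨_, fm_scalar hu, fun x hx => (dM_scalar (hu x hx)).trans (h x hx)⟩

/-- first cohomology of a mapping torus -/
theorem mapTor {p : E → Y} {U : Set E} {S : E → E} (hU : IsOpen U) (hc : IsPreconnected U)
    (hz : HZ (vs E) 0 U) (hp : ∀ x ∈ U, LDAt (vs E) Y p x) (hS : ContDiff ℝ ∞ S)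
    (mS : MapsTo S U U) (pS : ∀ x ∈ U, p (S x) = p x)
    (fib : ∀ φ : E → ℝ, (∀ x ∈ U, φ (S x) = φ x) → ∀ x ∈ U, ∀ y ∈ U, p x = p y → φ x = φ y)
    {θ γ : Y → Lam E'} {η : E → ℝ} {c₀ : ℝ} (hc₀ : c₀ ≠ 0) (hη : Sm (vs E) (vs ℝ) η U)
    (ηS : ∀ x ∈ U, η (S x) = η x + c₀) (hθ : ∀ x ∈ U, pbM (vs E) Y p θ x = dF (vs E) η x)
    (hγ : Cl Y 1 γ (p '' U)) :
    ∃ (c : ℝ) (β : Y → Lam E'), Fm Y 0 β (p '' U) ∧ ∀ x ∈ p '' U, dM Y β x = γ x - c • θ x := by
  obtain ⟨β, hβ, dβ⟩ := hz _ (hγ.pb (fun x hx => (hp x hx).sm) (mapsTo_image p U))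
  set b : E → ℝ := fun x => evL [] (β x) with hb
  have bs : Sm (vs E) (vs ℝ) b U := fun x hx => smAt_vs.2 (cda_lin _ (fmAt_vs.1 (hβ x hx).1))
  have db : ∀ x ∈ U, dF (vs E) b x = pbM (vs E) Y p γ x := fun x hx => by
    rw [← dβ x hx, ← dM_scalar (bs x hx)]
    refine dM_congr (eventually_of_mem (hU.mem_nhds hx) fun y hy => ?_)
    have h1 := (hβ y hy).2
    simp only [dg, ExteriorAlgebra.exteriorPower, pow_zero, Submodule.mem_one] at h1
    obtain ⟨r, hr⟩ := h1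
    simp only [hb, ← hr, evL, AlgHom.toLinearMap_apply, AlgHom.commutes, Algebra.algebraMap_self,
      RingHom.id_apply]
  have Ss : ∀ x, SmAt (vs E) (vs E) S x := fun x => smAt_vs.2 hS.contDiffAt
  have s1 : Sm (vs E) (vs ℝ) (fun y => b (S y) - b y) U := fun x hx =>
    ((Ss x).trans (bs _ (mS hx))).sub (bs x hx)
  obtain ⟨c₁, hc₁⟩ := hU.exists_is_const_of_fderiv_eq_zero (𝕜 := ℝ) hc
    (f := fun y => b (S y) - b y) (fun x hx =>
      ((smAt_vs.1 (s1 x hx)).differentiableAt (by simp)).differentiableWithinAt) fun x hx => by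
      have : dF (vs E) (fun y => b (S y) - b y) x = 0 := by
        rw [dF_sub ((Ss x).trans (bs _ (mS hx))) (bs x hx), ← pbM_dF (Ss x) (bs _ (mS hx)),
          pbM_congr_right (db _ (mS hx)), ← pbM_comp (Ss x) (hp _ (mS hx)).sm,
          pbM_congr (f' := p) (eventually_of_mem (hU.mem_nhds hx) pS), db x hx, sub_self]
      rwa [dF_vs, ExteriorAlgebra.ι_eq_zero_iff] at this
  have hm : ContDiff ℝ ∞ fun t : ℝ => c₁ / c₀ * t := contDiff_const.mul contDiff_id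
  have s2 : Sm (vs E) (vs ℝ) (fun y => b y - c₁ / c₀ * η y) U := fun x hx =>
    (bs x hx).sub ((hη x hx).vcomp hm.contDiffAt)
  obtain ⟨Φ, hΦ⟩ := desc1 U p (fun y => b y - c₁ / c₀ * η y) (fib _ fun x hx => by
    have := hc₁ x hx
    rw [ηS x hx, mul_add, div_mul_cancel₀ _ hc₀]
    linarith)
  have Φs : ∀ x ∈ U, SmAt Y (vs ℝ) Φ (p x) := fun x hx =>
    (hp x hx).sm_desc (T := vs ℝ) (hU.mem_nhds hx) hΦ (s2 x hx)
  refine ⟨c₁ / c₀, ex_dF (u := Φ) (by rintro _ ⟨x, hx, rfl⟩; exact Φs x hx) ?_⟩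
  rintro _ ⟨x, hx, rfl⟩
  refine mp_injective (hp x hx).inv ?_
  change pbM (vs E) Y p (dF Y Φ) x = pbM (vs E) Y p (fun x => γ x - (c₁ / c₀) • θ x) x
  rw [pbM_dF (hp x hx).sm (Φs x hx), dF_congr (eventually_of_mem (hU.mem_nhds hx) hΦ),
    dF_sub (bs x hx) ((hη x hx).vcomp hm.contDiffAt), dF_comp (hη x hx) hm.contDiffAt, pbM_sub,
    pbM_fsmul, db x hx, hθ x hx]
  simp

end Pool.Agent.MP_e1dc65_gt.Arg

end
end MrgPart1

-- ======== part 2: formerly Pool.Agent.MP_e1dc65_gt.e.aLg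
section MrgPart2

/-! PROJECT HC, part E-A, row LG: the logarithmic transform. -/

open scoped ContDiff Manifold Topology Real
open Set Filter Function Module Complex

noncomputable section

namespace Pool.Agent.MP_e1dc65_gt.EA

namespace LgP

theorem box {z : Rn 3} (h : z ∈ Dsc) : |z 0 - 3 * π / 2| < 1 ∧ |z 1 - π / 2| < 1 :=
  ⟨(abs_re_le_norm (wz z)).trans_lt h, (abs_im_le_norm (wz z)).trans_lt h⟩

theorem int_cases (m : ℤ) : 2 * π * m ≤ -(2 * π) ∨ m = 0 ∨ 2 * π ≤ 2 * π * m := by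
  rcases lt_trichotomy m 0 with h | h | h
  · have : (m : ℝ) ≤ -1 := by exact_mod_cast Int.le_sub_one_of_lt h
    exact .inl (by nlinarith [Real.pi_pos])
  · exact .inr (.inl h)
  · have : (1 : ℝ) ≤ m := by exact_mod_cast h
    exact .inr (.inr (by nlinarith [Real.pi_pos]))

theorem main {z : Rn 3} (h : z ∈ Dsc) : z ∈ MainI I01 := by
  rintro i hi ⟨z', hl, h1, -⟩
  obtain ⟨a, b⟩ := box h
  have := Real.pi_gt_three
  rw [abs_lt] at a b
  rw [abs_le, eps] at h1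
  obtain ⟨m, hm⟩ := hl (jx i)
  fin_cases i
  · simp only [jx, cj, Fin.zero_eta, Matrix.cons_val_zero] at h1 hm
    rcases int_cases m with h | rfl | h
    · obtain ⟨h2, h3⟩ := h1
      rcases int_cases (m + 1) with h4 | h4 | h4 <;> [skip; rw [eq_neg_of_add_eq_zero_left h4] at hm;
        skip] <;> push_cast at * <;> linarith
    · push_cast at hm; linarith
    · linarith
  · simp only [jx, cj, Fin.mk_one, Matrix.cons_val_one, Matrix.cons_val_zero] at h1 hm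
    rcases int_cases m with h | rfl | h
    · linarith
    · push_cast at hm; linarith
    · linarith
  · exact hi rfl

theorem wz_eq {z z' : Rn 3} (h : z ∈ Dsc) (h' : z' ∈ Dsc) (l : Lat z z') : wz z = wz z' := by
  obtain ⟨a, b⟩ := box h
  obtain ⟨a', b'⟩ := box h'
  have := Real.pi_gt_three
  rw [abs_lt] at a b a' b'
  obtain ⟨m, hm⟩ := l 0
  obtain ⟨n, hn⟩ := l 1
  refine Complex.ext ?_ ?_ <;> simp only [wz]
  · rcases int_cases m with h | rfl | h <;> push_cast at hm <;> linarith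
  · rcases int_cases n with h | rfl | h <;> push_cast at hn <;> linarith

theorem wz_su (θ : ℝ) (z : Rn 3) : wz (su θ z) = wz z := rfl
theorem su_mem {z : Rn 3} (h : z ∈ Dsc) (θ : ℝ) : su θ z ∈ Dsc := h
theorem su_su (θ : ℝ) (z : Rn 3) : su θ (su (-θ) z) = z := by
  ext i; fin_cases i <;> simp [su]
theorem su_su' (θ : ℝ) (z : Rn 3) : su (-θ) (su θ z) = z := by
  simpa using su_su (-θ) z

theorem lat_su (θ : ℝ) (z z' : Rn 3) : Lat (su θ z) (su θ z') ↔ Lat z z' :=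
  forall_congr' fun i => by fin_cases i <;> simp [su]

theorem isArg (w : ℂ) : IsArg w (arg w) := (norm_mul_exp_arg_mul_I w).symm

theorem lat_arg {w : ℂ} (hw : w ≠ 0) {θ θ' : ℝ} (h : IsArg w θ) (h' : IsArg w θ') (z : Rn 3) :
    Lat (su θ z) (su θ' z) := by
  have e := mul_left_cancel₀ (ofReal_ne_zero.2 (norm_ne_zero_iff.2 hw)) (h'.symm.trans h)
  obtain ⟨m, hm⟩ := exp_eq_exp_iff_exists_int.1 e
  have := congrArg im hm
  intro i
  fin_cases i
  exacts [⟨0, by simp [su]⟩, ⟨0, by simp [su]⟩, ⟨m, by simp [su] at this ⊢; linarith⟩]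

theorem cd_wz : ContDiff ℝ ∞ wz :=
  equivRealProdCLM.symm.contDiff.comp (f := fun z : Rn 3 => (z 0 - 3 * π / 2, z 1 - π / 2))
    (by fun_prop)

theorem isOpen_Dsc : IsOpen Dsc := isOpen_lt cd_wz.continuous.norm continuous_const

theorem sm_su {θ : Rn 3 → ℝ} {z : Rn 3} (h : ContDiffAt ℝ ∞ θ z) :
    ContDiffAt ℝ ∞ (fun z => su (θ z) z) z := contDiffAt_pi.2 fun i => by
  fin_cases i <;> simp [su] <;> fun_prop

variable {A : MA} (hA : A.Ok)
include hA

theorem core_iff (x : A.X) : x ∈ A.core ↔ A.del x = 0 := by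
  refine ⟨?_, fun h => ?_⟩
  · rintro ⟨z, hz, rfl⟩
    have hz : wz z = 0 := hz
    rw [hA.del0 z (by simp [Dsc, hz]), hz, norm_zero]
  · obtain h1 | ⟨z, hz, rfl⟩ := hA.del1 x
    · simp [h] at h1
    · exact ⟨z, norm_eq_zero.1 ((hA.del0 z hz).symm.trans h), rfl⟩

theorem ld_a {z : Rn 3} (hz : z ∈ Dsc) (h0 : wz z ≠ 0) :
    LDAt (vs (Rn 3)) A.X (fun z => A.e₀ (su (arg (wz z)) z)) z := by
  set O : Set (Rn 3) := (fun y => (wz z)⁻¹ * wz y) ⁻¹' slitPlane with hO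
  have op : IsOpen O := isOpen_slitPlane.preimage (continuous_const.mul cd_wz.continuous)
  have hz' : z ∈ O := by simp [hO, inv_mul_cancel₀ h0]
  have sm : ∀ y ∈ O, ContDiffAt ℝ ∞ (fun y => arg (wz z) + arg ((wz z)⁻¹ * wz y)) y := fun y hy =>
    contDiffAt_const.add (smAt_vs.1 (Arg.smAt_arg (X := vs (Rn 3)) _
      (smAt_vs.2 cd_wz.contDiffAt) hy))
  have l1 : LDAt (vs (Rn 3)) (vs (Rn 3)) (fun y => su (arg (wz z) + arg ((wz z)⁻¹ * wz y)) y) z :=
    ldAt_of_inv (X := vs (Rn 3)) (Y := vs (Rn 3))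
      (g := fun y => su (-(arg (wz z) + arg ((wz z)⁻¹ * wz y))) y) op op hz'
      (fun y hy => smAt_vs.2 (sm_su (sm y hy))) (fun y hy => smAt_vs.2 (sm_su (sm y hy).neg))
      (fun _ h => h) (fun _ h => h) (fun y _ => su_su' _ y) fun y _ => su_su _ y
  refine (l1.trans (hA.tw.ld0 _ (main (su_mem hz _)))).congr' ?_
  filter_upwards [op.mem_nhds hz', isOpen_Dsc.mem_nhds hz] with y hy hy'
  have h1 : wz y ≠ 0 := right_ne_zero_of_mul (slitPlane_ne_zero hy)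
  refine (hA.tw.eq0 _ (main (su_mem hy' _)) _ (main (su_mem hy' _))).2 (lat_arg h1 (isArg _) ?_ y)
  have e1 := isArg (wz z)
  have e2 := isArg ((wz z)⁻¹ * wz y)
  have e3 : wz y = wz z * ((wz z)⁻¹ * wz y) := (mul_inv_cancel_left₀ h0 _).symm
  rw [IsArg, ofReal_add, add_mul, exp_add]
  generalize (wz z)⁻¹ * wz y = q at *
  rw [e3, norm_mul, ofReal_mul, mul_mul_mul_comm, ← e1, ← e2]

end LgP

open LgP in
theorem lg : LgStmt := by
  intro A hA
  have := hA.tw.cpt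
  have := hA.tw.conn
  set D : Set (Rn 3) := Dsc ∩ {z | wz z ≠ 0} with hD
  set a : Rn 3 → A.X := fun z => A.e₀ (su (arg (wz z)) z) with ha
  have oD : IsOpen D := isOpen_Dsc.inter (isOpen_ne_fun cd_wz.continuous continuous_const)
  have eU : A.coreᶜ = {x | A.del x ≠ 0} := Set.ext fun x => (core_iff hA x).not
  have oU : IsOpen A.coreᶜ := eU ▸ isOpen_ne_fun hA.delc continuous_const
  have ld0 : ∀ z ∈ Dsc, LDAt (vs (Rn 3)) A.X A.e₀ z := fun z hz => hA.tw.ld0 z (main hz)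
  have oV : IsOpen (A.e₀ '' Dsc) := isOpen_image_ld (X := vs (Rn 3)) isOpen_Dsc ld0
  have da : ∀ z ∈ Dsc, A.del (a z) = ‖wz z‖ := fun z hz => hA.del0 _ (su_mem hz _)
  have ma : ∀ z ∈ D, a z ∈ A.coreᶜ := fun z hz => by
    rw [eU, mem_ofPred, da z hz.1]; exact norm_ne_zero_iff.2 hz.2
  have he : ∀ c ∈ Dsc, ∀ c' ∈ Dsc, a c = a c' ↔ A.e₀ c = A.e₀ c' := fun c hc c' hc' => by
    rw [hA.tw.eq0 _ (main (su_mem hc _)) _ (main (su_mem hc' _)), hA.tw.eq0 _ (main hc) _ (main hc')]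
    refine ⟨fun h => ?_, fun h => by rw [wz_eq hc hc' h]; exact (lat_su _ _ _).2 h⟩
    have : wz c = wz c' := (wz_eq (su_mem hc _) (su_mem hc' _) h :)
    rw [this] at h
    exact (lat_su _ _ _).1 h
  have sur : ∀ z ∈ D, su (-arg (wz z)) z ∈ D ∧ a (su (-arg (wz z)) z) = A.e₀ z := fun z hz =>
    ⟨hz, congrArg A.e₀ (su_su _ z)⟩
  have z₀ : (![3 * π / 2 + 1 / 2, π / 2, 0] : Rn 3) ∈ D := by
    have : wz ![3 * π / 2 + 1 / 2, π / 2, 0] = (1 / 2 : ℝ) := Complex.ext (by simp [wz]) (by simp [wz])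
    simp only [hD, Dsc, mem_inter_iff, mem_ofPred, this]
    norm_num
  obtain ⟨F, j, ka, h⟩ := glueFam (E := Rn 3) (X := A.X) (Y := A.X) (C := vs (Rn 3)) (I := Unit)
    (D := D) (a := fun _ => a) (b := A.e₀) rfl rfl oU oV oD ⟨_, ma _ z₀⟩
    (fun _ c hc => ld_a hA hc.1 hc.2) (fun c hc => ld0 c hc.1) (fun _ => ma)
    (fun c hc => mem_image_of_mem _ hc.1)
    (fun _ _ c hc c' hc' => (he c hc.1 c' hc'.1).trans (by simp)) (by
      rintro - x hx _ ⟨z, hz, rfl⟩ hcl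
      have h1 : A.del x = A.del (A.e₀ z) := closure_minimal (t := {p : A.X × A.X | A.del p.1 = A.del p.2})
        (by rintro _ ⟨c, hc, rfl⟩; exact (da c hc.1).trans (hA.del0 c hc.1).symm)
        (isClosed_eq (hA.delc.comp continuous_fst) (hA.delc.comp continuous_snd)) hcl
      have hz' : z ∈ D := ⟨hz, fun h0 => hx ((core_iff hA x).2 (by
        rw [h1, hA.del0 z hz, h0, norm_zero]))⟩
      obtain ⟨s, O, W, -, hW, hzO, hOD, -, hs, m1, m2, l, r⟩ := (ld0 z hz).exists_inv (oD.mem_nhds hz')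
      refine ⟨z, hz', Eq.symm ?_, rfl⟩
      have c1 : ContinuousAt (fun y => a (s y)) (A.e₀ z) :=
        ((hs _ (m1 hzO)).trans (ld_a hA (hOD (m2 (m1 hzO))).1 (hOD (m2 (m1 hzO))).2).sm).cont
      have t1 := c1.tendsto.comp (continuous_snd.tendsto (x, A.e₀ z))
      rw [l z hzO] at t1
      refine tendsto_nhds_unique_of_frequently_eq (continuous_fst.tendsto (x, A.e₀ z)) t1 ?_
      refine (mem_closure_iff_frequently.1 hcl).mp (((continuous_snd.tendsto (x, A.e₀ z)).eventually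
        (hW.mem_nhds (m1 hzO))).mono ?_)
      rintro _ hp ⟨c, hc, rfl⟩
      exact (he c hc.1 _ (hOD (m2 hp)).1).2 (r _ hp).symm)
  have gl : ∀ z ∈ D, j (a z) = ka () (A.e₀ z) := fun z hz => h.glue () hz
  have cov : ∀ m, m ∈ j '' A.coreᶜ ∨ ∃ z, wz z = 0 ∧ ka () (A.e₀ z) = m := fun m => by
    obtain h1 | ⟨_, _, ⟨z, hz, rfl⟩, rfl⟩ := h.cov m
    · exact .inl h1
    · by_cases h0 : wz z = 0
      · exact .inr ⟨z, h0, rfl⟩
      · exact .inl ⟨_, ma z ⟨hz, h0⟩, gl z ⟨hz, h0⟩⟩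
  have kld : ∀ z ∈ Dsc, LDAt (vs (Rn 3)) F (fun z => ka () (A.e₀ z)) z := fun z hz =>
    (ld0 z hz).trans ((h.ok ()).ld _ (mem_image_of_mem _ hz))
  have d0 : ∀ z, wz z = 0 → z ∈ Dsc := fun z hz => by simp [Dsc, hz]
  refine ⟨F, j, fun z => ka () (A.e₀ z), h.oi, kld, fun z hz z' hz' => ?_, fun z hz h0 θ hθ => ?_,
    fun z hz hm => ?_, cov, ⟨?_⟩, ?_⟩
  · rw [(h.ok ()).inj.eq_iff (mem_image_of_mem _ hz) (mem_image_of_mem _ hz'),
      hA.tw.eq0 _ (main hz) _ (main hz')]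
  · rw [← gl z ⟨hz, h0⟩]
    exact congrArg j ((hA.tw.eq0 _ (main (su_mem hz _)) _ (main (su_mem hz _))).2
      (lat_arg h0 (isArg _) hθ z))
  · obtain ⟨c, hc, e⟩ := (h.ka_mem (mem_image_of_mem _ (d0 z hz))).1 hm
    exact hc.2 ((wz_eq hc.1 (d0 z hz) ((hA.tw.eq0 _ (main hc.1) _ (main (d0 z hz))).1 e)).trans hz)
  · have s1 : {x | 1 / 2 ≤ A.del x} ⊆ A.coreᶜ := fun x hx => by
      rw [eU]; exact (lt_of_lt_of_le (by norm_num) hx).ne'
    have s2 : {x | A.del x ≤ 1 / 2} ⊆ A.e₀ '' Dsc := fun x hx =>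
      (hA.del1 x).resolve_left fun e => by rw [mem_ofPred, e] at hx; norm_num at hx
    refine (((isClosed_le continuous_const hA.delc).isCompact.image_of_continuousOn
      (h.oi.sm.contOn.mono s1)).union ((isClosed_le hA.delc continuous_const).isCompact.image_of_continuousOn
      ((h.ok ()).sm.contOn.mono s2))).of_isClosed_subset isClosed_univ fun m _ => ?_
    obtain ⟨x, hx, rfl⟩ | ⟨z, hz, rfl⟩ := cov m
    · rcases le_total (1 / 2) (A.del x) with h1 | h1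
      · exact .inl ⟨x, h1, rfl⟩
      · obtain ⟨z, hz, rfl⟩ := s2 h1
        have hz' : z ∈ D := ⟨hz, fun h0 => hx ⟨z, h0, rfl⟩⟩
        refine .inr ⟨_, ?_, ((gl _ (sur z hz').1).symm.trans (congrArg j (sur z hz').2))⟩
        rwa [mem_ofPred, hA.del0 _ (su_mem hz _), wz_su, ← hA.del0 z hz]
    · exact .inr ⟨_, by rw [mem_ofPred, hA.del0 z (d0 z hz), hz]; norm_num, rfl⟩
  · classical
    refine @ConnectedSpace.mk _ _ (preconnectedSpace_of_forall_constant fun φ hφ => ?_) inferInstance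
    have cD : IsPreconnected Dsc := by
      have : Dsc = (fun z : Rn 3 => (z 0 : ℂ) + z 1 * I) ⁻¹' Metric.ball ⟨3 * π / 2, π / 2⟩ 1 := by
        ext z
        rw [mem_preimage, mem_ball_iff_norm, Dsc, mem_ofPred]
        exact (congrArg (‖·‖ < 1) (Complex.ext (by simp [wz]) (by simp [wz]))).to_iff
      rw [this]
      exact ((convex_ball _ _).is_linear_preimage ⟨fun x y => by simp; ring,
        fun c x => by simp; ring⟩).isPreconnected
    have kc : ∀ z ∈ Dsc, φ (ka () (A.e₀ z)) = φ (j (a ![3 * π / 2 + 1 / 2, π / 2, 0])) := fun z hz => by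
      rw [gl _ z₀]
      exact cD.constant (hφ.comp_continuousOn fun z hz => (kld z hz).sm.cont.continuousWithinAt) hz z₀.1
    set c := φ (j (a ![3 * π / 2 + 1 / 2, π / 2, 0])) with hc
    set ψ : A.X → Bool := fun x => if x ∈ A.core then c else φ (j x) with hψ
    have ψc : Continuous ψ := continuous_iff_continuousAt.2 fun x => by
      by_cases hx : x ∈ A.core
      · refine (continuousAt_const (y := c)).congr ?_
        filter_upwards [oV.mem_nhds (image_mono d0 hx)]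
        rintro _ ⟨z, hz, rfl⟩
        by_cases h1 : A.e₀ z ∈ A.core
        · exact (if_pos h1).symm
        · have hz' : z ∈ D := ⟨hz, fun h0 => h1 ⟨z, h0, rfl⟩⟩
          rw [hψ, ← kc _ (sur z hz').1.1, ← gl _ (sur z hz').1, (sur z hz').2]
          exact (if_neg h1).symm
      · refine (hφ.continuousAt.comp (h.oi.sm x hx).cont).congr ?_
        filter_upwards [oU.mem_nhds hx] with y hy
        exact (if_neg hy).symm
    have all : ∀ m, φ m = c := fun m => by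
      obtain ⟨x, hx, rfl⟩ | ⟨z, hz, rfl⟩ := cov m
      · exact ((if_neg hx).symm.trans (isPreconnected_univ.constant ψc.continuousOn trivial
          trivial)).trans (if_neg (ma _ z₀))
      · exact kc z (d0 z hz)
    exact fun x y => (all x).trans (all y).symm

end Pool.Agent.MP_e1dc65_gt.EA

end
end MrgPart2

-- ======== part 3: formerly Pool.Agent.MP_e1dc65_gt.e.aLie
section MrgPart3

-- ======== part 0: formerly Pool.Agent.MP_e1dc65_gt.e.aQuo
section MrgPart0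

/-! PROJECT HC, part E, sub-part A: the quotient, its end and the port. -/

open scoped ContDiff Manifold Topology Matrix Real
open Set Filter Function Module

noncomputable section

namespace Pool.Agent.MP_e1dc65_gt.EA

namespace QuoP

theorem ld_vs_prod {A A' : Type} [NormedAddCommGroup A] [NormedSpace ℝ A] [FiniteDimensional ℝ A]
    [NormedAddCommGroup A'] [NormedSpace ℝ A'] [FiniteDimensional ℝ A'] (p : A × A') :
    LDAt (vs (A × A')) ((vs A).prod (vs A')) (fun p => p) p :=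
  ldAt_of_inv (X := vs (A × A')) (Y := (vs A).prod (vs A')) (g := fun p => p) isOpen_univ
    isOpen_univ trivial (fun _ _ => smAt_vs_prod) (fun _ _ => smAt_prod_vs) (mapsTo_univ _ _)
    (mapsTo_univ _ _) (fun _ _ => rfl) fun _ _ => rfl

theorem int_zero {x : ℝ} {m : ℤ} (e : x = 2 * π * m) (h : |x| < 6) : m = 0 := by
  by_contra hm
  have h1 : (1 : ℝ) ≤ |(m : ℝ)| := by exact_mod_cast Int.one_le_abs hm
  rw [e, abs_mul, abs_of_pos Real.two_pi_pos] at h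
  nlinarith [Real.pi_gt_three]

theorem ld_exp (t : ℝ) : LDAt (vs ℝ) (vs ℝ) (fun t => 2 + Real.exp (-t)) t := by
  have h : HasDerivAt (fun t => 2 + Real.exp (-t)) (Real.exp (-t) * -1) t :=
    (hasDerivAt_neg t).exp.const_add 2
  refine ldAt_vs univ_mem (fun _ _ => by fun_prop) ?_
  rw [(h.hasFDerivAt_equiv (mul_ne_zero (Real.exp_pos _).ne' (by norm_num))).fderiv]
  exact ⟨_, rfl⟩

theorem ld_aff (p : Rn 2 × ℂ) : LDAt (vs (Rn 2 × ℂ)) (vs (Rn 3 × ℝ))
    (fun p => (![p.1 0, p.1 1, p.2.im / 200], 1 / 2 + p.2.re / 200)) p := by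
  have re : ContDiff ℝ ∞ fun p : Rn 2 × ℂ => p.2.re := Complex.reCLM.contDiff.comp contDiff_snd
  have im : ContDiff ℝ ∞ fun p : Rn 2 × ℂ => p.2.im := Complex.imCLM.contDiff.comp contDiff_snd
  have c1 : ContDiff ℝ ∞ fun p : Rn 2 × ℂ => (![p.1 0, p.1 1, p.2.im / 200] : Rn 3) :=
    contDiff_pi.2 fun i => by
      fin_cases i
      · exact (by fun_prop : ContDiff ℝ ∞ fun p : Rn 2 × ℂ => p.1 0)
      · exact (by fun_prop : ContDiff ℝ ∞ fun p : Rn 2 × ℂ => p.1 1)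
      · exact im.div_const 200
  have c2 : ContDiff ℝ ∞ fun p : Rn 3 × ℝ => (![p.1 0, p.1 1] : Rn 2) :=
    contDiff_pi.2 fun i => by
      fin_cases i
      · exact (by fun_prop : ContDiff ℝ ∞ fun p : Rn 3 × ℝ => p.1 0)
      · exact (by fun_prop : ContDiff ℝ ∞ fun p : Rn 3 × ℝ => p.1 1)
  have c3 : ContDiff ℝ ∞ fun p : Rn 3 × ℝ =>
      (200 * (p.2 - 1 / 2)) • (1 : ℂ) + (200 * p.1 2) • Complex.I := by fun_prop
  refine ldAt_of_inv (X := vs (Rn 2 × ℂ)) (Y := vs (Rn 3 × ℝ))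
    (g := fun p => (![p.1 0, p.1 1], (200 * (p.2 - 1 / 2)) • (1 : ℂ) + (200 * p.1 2) • Complex.I))
    isOpen_univ isOpen_univ trivial
    (fun _ _ => smAt_vs.2 (c1.prodMk (contDiff_const.add (re.div_const 200))).contDiffAt)
    (fun _ _ => smAt_vs.2 (c2.prodMk c3).contDiffAt) (mapsTo_univ _ _) (mapsTo_univ _ _)
    (fun q _ => Prod.ext ?_ ?_) fun q _ => Prod.ext ?_ ?_
  · funext i
    fin_cases i <;> rfl
  · apply Complex.ext <;> simp <;> ring
  · funext i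
    fin_cases i <;> simp
  · simp

theorem bnd {w : ℂ} (hw : ‖w‖ < 30) : |w.re / 200| < 1 / 4 ∧ |w.im / 200| < 1 / 4 := by
  have h1 := abs_lt.1 ((Complex.abs_re_le_norm w).trans_lt hw)
  have h2 := abs_lt.1 ((Complex.abs_im_le_norm w).trans_lt hw)
  exact ⟨abs_lt.2 ⟨by linarith, by linarith⟩, abs_lt.2 ⟨by linarith, by linarith⟩⟩

theorem mem_main (m : Rn 2) {u : ℝ} (hu : |u| < 1 / 4) : (![m 0, m 1, u] : Rn 3) ∈ MainI I01 := by
  rintro i hi ⟨z, hz, -, e⟩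
  have h2 : kx i = 2 ∧ (ck i = π / 2 ∨ ck i = 3 * π / 2) := by
    fin_cases i
    · exact ⟨rfl, Or.inl rfl⟩
    · exact ⟨rfl, Or.inr rfl⟩
    · exact absurd rfl hi
  obtain ⟨k, hk⟩ := hz 2
  rw [h2.1] at e
  rw [e] at hk
  have h3 : u - ck i = 2 * π * k := hk
  have h1 := abs_lt.1 hu
  have p3 := Real.pi_gt_three
  have p4 := Real.pi_lt_d2
  have h4 := int_zero h3 (abs_lt.2 (by rcases h2.2 with h | h <;> constructor <;> linarith))
  rw [h4, Int.cast_zero, mul_zero] at h3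
  rcases h2.2 with h | h <;> linarith

variable {A : MA} {T : QtD A}

theorem exQ (hT : T.Ok) (hC : T.Col) : ∃ (Q : Mf E4) (pQ : T.Qt → Q), T.Quo Q pQ := by
  have c := hT.σsm.cont
  have h : Etale T.Qt fun y y' => y' = y ∨ y' = T.σ y := by
    refine etale_of_sm ⟨fun _ => Or.inl rfl, ?_, ?_⟩ ?_ (fun y => ?_) ?_
    · rintro y _ (rfl | rfl)
      exacts [Or.inl rfl, Or.inr (hT.σσ y).symm]
    · rintro y _ _ (rfl | rfl) (rfl | rfl)
      exacts [Or.inl rfl, Or.inr rfl, Or.inr rfl, Or.inl (hT.σσ y)]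
    · rintro y _ (rfl | rfl)
      · exact ⟨fun z => z, rfl, .of_forall fun _ => ⟨smAt_id, Or.inl rfl⟩⟩
      · exact ⟨T.σ, rfl, .of_forall fun z => ⟨hT.σsm z trivial, Or.inr rfl⟩⟩
    · obtain ⟨U, V, hU, hV, mU, mV, d⟩ := t2_separation (hC.σne y)
      refine ⟨V ∩ T.σ ⁻¹' U, (hV.inter (hU.preimage c)).mem_nhds ⟨mV, mU⟩, ?_⟩
      rintro z hz _ hz' (rfl | rfl)
      · rfl
      · exact absurd hz'.1 (disjoint_left.1 d hz.2)
    · exact (isClosed_eq continuous_snd continuous_fst).union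
        (isClosed_eq continuous_snd (c.comp continuous_fst))
  obtain ⟨Q, p, h1, h2, h3⟩ := h.quot
  exact ⟨Q, p, h2, h1, h3⟩

theorem kt_mem (m : Rn 2) {w : ℂ} (hw : ‖w‖ < 30) :
    ((A.e₀ ![m 0, m 1, w.im / 200], 1 / 2 + w.re / 200) : A.X.cyl) ∈ A.U := fun _ => by
  have := abs_lt.1 (bnd hw).1
  exact abs_lt.2 ⟨by linarith, by linarith⟩

theorem kt_s (hT : T.Ok) (m : Rn 2) {w : ℂ} (hw : ‖w‖ < 30) :
    T.s (T.κt (m, w)) = 1 / 2 + w.re / 200 := hT.si _ (kt_mem m hw)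

theorem port (hA : A.Ok) (hT : T.Ok) {Q : Mf E4} {pQ : T.Qt → Q} (hQ : T.Quo Q pQ) :
    Port Q fun p => pQ (T.κt p) := by
  refine ⟨fun m w hw => ?_, fun m m' w w' hw hw' => ?_⟩
  · exact ((((ld_aff (m, w)).trans (ld_vs_prod _)).trans
      ((hA.tw.ld0 _ (mem_main m (bnd hw).2)).prodMap (ldAt_id (X := vs ℝ)))).trans
        (hT.oi.ld _ (kt_mem m hw))).trans (hQ.pld _)
  have b := bnd hw
  have b' := bnd hw'
  have e0 := hA.tw.eq0 _ (mem_main m b.2) _ (mem_main m' b'.2)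
  rw [hQ.peq]
  constructor
  · rintro (e | e)
    · have e1 := hT.oi.inj (kt_mem m' hw') (kt_mem m hw) e
      have e2 := e0.1 (congrArg Prod.fst e1).symm
      have e3 : 1 / 2 + w'.re / 200 = 1 / 2 + w.re / 200 := congrArg Prod.snd e1
      obtain ⟨k, hk⟩ := e2 2
      have e4 : w.im / 200 - w'.im / 200 = 2 * π * k := hk
      have h1 := abs_lt.1 b.2
      have h2 := abs_lt.1 b'.2
      have e5 := int_zero e4 (abs_lt.2 ⟨by linarith, by linarith⟩)
      rw [e5, Int.cast_zero, mul_zero] at e4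
      refine ⟨fun i => ?_, Complex.ext (by linarith) (by linarith)⟩
      fin_cases i
      exacts [e2 0, e2 1]
    · have e1 := congrArg T.s e
      rw [hT.sσ, kt_s hT m hw, kt_s hT m' hw'] at e1
      have h1 := abs_lt.1 b.1
      have h2 := abs_lt.1 b'.1
      linarith
  · rintro ⟨h, rfl⟩
    have e1 := e0.2 fun i => by
      fin_cases i
      exacts [h 0, h 1, ⟨0, by simp⟩]
    exact Or.inl (by simp only [QtD.κt, e1])

theorem key (hT : T.Ok) {F : Mf (Rn 3)} {j : A.X → F} {k : Rn 3 → F} {n : F.cyl → T.Qt}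
    (hE : T.End j k n) {Q : Mf E4} {pQ : T.Qt → Q} (hQ : T.Quo Q pQ) (S : Set ℝ) (y : T.Qt) :
    pQ y ∈ (fun p : F.cyl => pQ (n (p.1, 2 + Real.exp (-p.2)))) '' (univ ×ˢ S) ↔
      ∃ t ∈ S, |T.s y| = 2 + Real.exp (-t) := by
  constructor
  · rintro ⟨p, hp, e⟩
    have h0 := Real.exp_pos (-p.2)
    have h1 := hE.ns p.1 (2 + Real.exp (-p.2)) (by linarith)
    refine ⟨p.2, hp.2, ?_⟩
    rcases (hQ.peq _ _).1 e with rfl | rfl
    · rw [h1, abs_of_pos (by linarith)]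
    · rw [hT.sσ, abs_neg, h1, abs_of_pos (by linarith)]
  · rintro ⟨t, ht, e⟩
    have h0 := Real.exp_pos (-t)
    obtain ⟨y', h1, h2⟩ : ∃ y', pQ y' = pQ y ∧ T.s y' = 2 + Real.exp (-t) := by
      rcases abs_cases (T.s y) with h | h
      · exact ⟨y, rfl, h.1.symm.trans e⟩
      · exact ⟨T.σ y, ((hQ.peq _ _).2 (Or.inr rfl)).symm, (hT.sσ y).trans (h.1.symm.trans e)⟩
    obtain ⟨m, hm⟩ := hE.nsur y' (by linarith)
    exact ⟨(m, t), ⟨trivial, ht⟩, by simp only [← h2, hm, h1]⟩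

theorem ex_log {x a : ℝ} (h : Real.exp (-a) ≤ x - 2) :
    x = 2 + Real.exp (-(-Real.log (x - 2))) := by
  rw [neg_neg, Real.exp_log ((Real.exp_pos _).trans_le h)]
  ring

end QuoP

theorem quo : QuoStmt := by
  intro A T F j k n hA hT hC hE
  obtain ⟨Q, pQ, hQ⟩ := QuoP.exQ hT hC
  have cp : Continuous pQ := continuous_iff_continuousAt.2 fun y => (hQ.pld y).sm.cont
  have mem : ∀ p : F.cyl, ((p.1, 2 + Real.exp (-p.2)) : F.cyl) ∈ (univ ×ˢ Ioi 2 : Set F.cyl) :=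
    fun p => ⟨trivial, lt_add_of_pos_right _ (Real.exp_pos _)⟩
  refine ⟨Q, pQ, hQ, ⟨isOpen_univ, fun p _ => ?_, fun p _ p' _ e => ?_⟩, fun a => ?_, fun a => ?_,
    QuoP.port hA hT hQ, fun m w hw h => ?_⟩
  · exact (((ldAt_id (X := F) (x := p.1)).prodMap (QuoP.ld_exp p.2)).trans
      (hE.noe.ld _ (mem p))).trans (hQ.pld _)
  · rcases (hQ.peq _ _).1 e with e | e
    · have e1 := hE.noe.inj (mem p') (mem p) e
      have e2 : 2 + Real.exp (-p'.2) = 2 + Real.exp (-p.2) := congrArg Prod.snd e1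
      exact Prod.ext (congrArg Prod.fst e1).symm
        (neg_injective (Real.exp_injective (add_left_cancel e2))).symm
    · have e1 := congrArg T.s e
      rw [hT.sσ, hE.ns _ _ (mem p).2, hE.ns _ _ (mem p').2] at e1
      linarith [Real.exp_pos (-p.2), Real.exp_pos (-p'.2)]
  · convert (hC.scpt (2 + Real.exp (-a))).image cp using 1
    ext x
    obtain ⟨y, rfl⟩ := hQ.psur x
    rw [mem_compl_iff, QuoP.key hT hE hQ]
    constructor
    · intro h
      refine ⟨y, not_lt.1 fun h1 : 2 + Real.exp (-a) < |T.s y| =>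
        h ⟨_, ?_, QuoP.ex_log (a := a) (by linarith)⟩, rfl⟩
      have := (Real.lt_log_iff_exp_lt (x := -a) (y := |T.s y| - 2)
        (by linarith [Real.exp_pos (-a)])).2 (by linarith)
      exact neg_lt.1 this
    · rintro ⟨y', h1, e⟩ ⟨t, ht, h2⟩
      have h3 : |T.s y| = |T.s y'| := by
        rcases (hQ.peq _ _).1 e with rfl | rfl
        · rfl
        · rw [hT.sσ, abs_neg]
      have h4 : |T.s y'| ≤ 2 + Real.exp (-a) := h1
      have := Real.exp_lt_exp.2 (neg_lt_neg (show t < a from ht))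
      linarith
  · rw [← isOpen_compl_iff]
    convert isOpen_image_ld (U := {y | |T.s y| < 2 + Real.exp (-a)})
      (isOpen_lt hT.scont.abs continuous_const) fun y _ => hQ.pld y using 1
    ext x
    obtain ⟨y, rfl⟩ := hQ.psur x
    rw [mem_compl_iff, QuoP.key hT hE hQ]
    constructor
    · intro h
      refine ⟨y, not_le.1 fun h1 : 2 + Real.exp (-a) ≤ |T.s y| =>
        h ⟨_, ?_, QuoP.ex_log (a := a) (by linarith)⟩, rfl⟩
      have := (Real.le_log_iff_exp_le (x := -a) (y := |T.s y| - 2)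
        (by linarith [Real.exp_pos (-a)])).2 (by linarith)
      exact neg_le.1 this
    · rintro ⟨y', h1, e⟩ ⟨t, ht, h2⟩
      have h3 : |T.s y| = |T.s y'| := by
        rcases (hQ.peq _ _).1 e with rfl | rfl
        · rfl
        · rw [hT.sσ, abs_neg]
      have h4 : |T.s y'| < 2 + Real.exp (-a) := h1
      have := Real.exp_le_exp.2 (neg_le_neg (show t ≤ a from ht))
      linarith
  · rw [← image_univ, ← univ_prod_univ, QuoP.key hT hE hQ, QuoP.kt_s hT m hw] at h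
    obtain ⟨t, -, h⟩ := h
    have h1 := abs_lt.1 (QuoP.bnd hw).1
    rw [abs_of_pos (by linarith)] at h
    linarith [Real.exp_pos (-t)]

end Pool.Agent.MP_e1dc65_gt.EA

end
end MrgPart0

-- ======== part 1: formerly Pool.Agent.MP_e1dc65_gt.e.aLie
section MrgPart1

/-! PROJECT HC, part E-A, row LIE: the invariant framing of the punctured port. -/

open scoped ContDiff Manifold Topology Matrix Real
open Set Filter Function Module

noncomputable section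

namespace Pool.Agent.MP_e1dc65_gt.EA

namespace LieP

/-- linear part of the polar coordinates -/
def L4 : Rn 4 ≃L[ℝ] Rn 2 × ℂ := LinearEquiv.toContinuousLinearEquiv
  { toFun := fun z => (![z 0, z 1], z 3 + z 2 * Complex.I)
    invFun := fun p => ![p.1 0, p.1 1, p.2.im, p.2.re]
    map_add' := fun z z' => Prod.ext (by ext k; fin_cases k <;> simp) (by simp; ring)
    map_smul' := fun c z => Prod.ext (by ext k; fin_cases k <;> simp) (by simp; ring)
    left_inv := fun z => by ext k; fin_cases k <;> simp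
    right_inv := fun p => Prod.ext (by ext k; fin_cases k <;> simp) (by simp) }

/-- `std5` as an equivalence -/
def S5 : (Rn 4 × ℝ) ≃L[ℝ] Rn 5 := LinearEquiv.toContinuousLinearEquiv
  { std5.toLinearMap with
    invFun := fun v => (![v 0, v 1, v 2, v 3], v 4)
    left_inv := fun p => Prod.ext (by ext k; fin_cases k <;> rfl) rfl
    right_inv := fun v => by ext k; fin_cases k <;> rfl }

theorem ld_exp (p : Rn 2 × ℂ) :
    LDAt (vs (Rn 2 × ℂ)) (vs (Rn 2 × ℂ)) (fun p => (p.1, Complex.exp p.2)) p := by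
  refine ldAt_vs univ_mem (fun y _ => by fun_prop) ?_
  have h : HasFDerivAt (fun p : Rn 2 × ℂ => (p.1, Complex.exp p.2))
      ((ContinuousLinearMap.id ℝ _).prodMap (ContinuousLinearMap.mul ℝ ℂ (Complex.exp p.2))) p := by
    refine HasFDerivAt.prodMap (f := fun x => x) p (hasFDerivAt_id _) ?_
    convert (Complex.hasDerivAt_exp p.2).hasFDerivAt.restrictScalars ℝ using 1
    ext1 v
    simp [mul_comm]
  rw [h.fderiv]
  refine (inv_prodMap ⟨ContinuousLinearEquiv.refl ℝ _, rfl⟩ ?_).1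
  refine .of_inverse (g := ContinuousLinearMap.mul ℝ ℂ (Complex.exp p.2)⁻¹) ?_ ?_ <;> ext1 v <;>
    simp

theorem ld_pol (z : Rn 4) : LDAt (vs (Rn 4)) (vs (Rn 2 × ℂ)) pol z :=
  LDAt.trans (Y := vs (Rn 2 × ℂ)) (f := L4)
    (ldAt_vs univ_mem (fun _ _ => L4.contDiff.contDiffAt) (by rw [L4.fderiv]; exact ⟨L4, rfl⟩))
    (ld_exp _)

theorem norm_pol (z : Rn 4) : ‖(pol z).2‖ = Real.exp (z 3) := by
  simp [pol, Complex.norm_exp]

theorem pol_add (y c : Rn 4) : pol (y + c) = ((pol y).1 + (pol c).1, (pol y).2 * (pol c).2) :=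
  Prod.ext (by ext k; fin_cases k <;> simp [pol]) (by
    simp only [pol, Pi.add_apply, ← Complex.exp_add]; push_cast; ring_nf)

/-- the domain of the polar chart -/
def O : Set (Rn 4) := {z | Real.exp (z 3) < 30}

theorem O_open : IsOpen O := isOpen_lt (by fun_prop) continuous_const

variable {Q : Mf E4} {κ : Rn 2 × ℂ → Q}

theorem ld (h : Port Q κ) {z : Rn 4} (hz : z ∈ O) : LDAt (vs (Rn 4)) Q (fun z => κ (pol z)) z :=
  (ld_pol z).trans (h.ld _ _ ((norm_pol z).trans_lt hz))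

theorem img : κ '' (univ ×ˢ {w | 0 < ‖w‖ ∧ ‖w‖ < 30}) = (fun z => κ (pol z)) '' O := by
  ext x
  constructor
  · rintro ⟨⟨m, w⟩, ⟨-, h0, h1⟩, rfl⟩
    refine ⟨![m 0, m 1, w.arg, Real.log ‖w‖], ?_, congrArg κ (Prod.ext ?_ ?_)⟩
    · simpa [O, Real.exp_log h0] using h1
    · ext k; fin_cases k <;> rfl
    · exact Complex.exp_log (norm_pos_iff.1 h0)
  · rintro ⟨z, hz, rfl⟩
    exact ⟨pol z, ⟨trivial, by rw [norm_pol]; exact Real.exp_pos _, by rw [norm_pol]; exact hz⟩, rfl⟩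

theorem Df_eq (h : Port Q κ) {z z' : Rn 4} (hz : z ∈ O) (hz' : z' ∈ O)
    (e : κ (pol z) = κ (pol z')) :
    Df (vs (Rn 4)) Q (fun z => κ (pol z)) z = Df (vs (Rn 4)) Q (fun z => κ (pol z)) z' := by
  obtain ⟨c, rfl⟩ : ∃ c, z' = z + c := ⟨z' - z, by simp⟩
  obtain ⟨e1, e2⟩ := (h.eq (pol z).1 (pol (z + c)).1 (pol z).2 (pol (z + c)).2
    ((norm_pol _).trans_lt hz) ((norm_pol _).trans_lt hz')).1 e
  rw [pol_add] at e1 e2
  have c2 : (pol c).2 = 1 := (mul_eq_left₀ (Complex.exp_ne_zero _)).1 e2.symm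
  have t : HasFDerivAt (fun y : Rn 4 => y + c) (ContinuousLinearMap.id ℝ _) z :=
    (hasFDerivAt_id z).add_const c
  have ts : SmAt (vs (Rn 4)) (vs (Rn 4)) (fun y => y + c) z := smAt_vs.2 (by fun_prop)
  have := Df_comp ts (ld h hz').sm
  rw [Df_vs, t.fderiv, ContinuousLinearMap.comp_id] at this
  rw [← this]
  refine Df_congr (eventually_of_mem (O_open.mem_nhds hz) fun y hy => ?_)
  have hy' : ‖(pol y).2‖ < 30 := by rw [norm_pol]; exact hy
  simp only [pol_add, c2, mul_one]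
  refine (h.eq _ _ _ _ hy' hy').2 ⟨fun i => ?_, rfl⟩
  obtain ⟨m, hm⟩ := e1 i
  refine ⟨m, hm ▸ ?_⟩
  change (pol y).1 i - ((pol y).1 i + _) = _ - ((pol z).1 i + _)
  rw [sub_add_cancel_left, sub_add_cancel_left]

theorem closed (h : Port Q κ) : IsClosed (κ '' (univ ×ˢ {0})) := by
  have e : κ '' (univ ×ˢ {0}) = κ '' (Icc 0 (fun _ => 2 * π) ×ˢ {0}) := by
    refine Subset.antisymm ?_ (image_mono (prod_mono (subset_univ _) Subset.rfl))
    rintro _ ⟨⟨m, w⟩, ⟨-, rfl : w = 0⟩, rfl⟩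
    refine ⟨(fun i => toIcoMod Real.two_pi_pos 0 (m i), 0), ⟨⟨fun i => ?_, fun i => ?_⟩, rfl⟩, ?_⟩
    · exact (toIcoMod_mem_Ico' _ _).1
    · exact (toIcoMod_mem_Ico' _ _).2.le
    · refine (h.eq _ _ _ _ (by simp) (by simp)).2
        ⟨fun i => ⟨-toIcoDiv Real.two_pi_pos 0 (m i), ?_⟩, rfl⟩
      rw [toIcoMod_sub_self]
      simp [mul_comm]
  rw [e]
  refine ((isCompact_Icc.prod isCompact_singleton).image_of_continuousOn ?_).isClosed
  rintro ⟨m, w⟩ ⟨-, rfl : w = 0⟩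
  exact (h.ld m 0 (by simp)).sm.cont.continuousWithinAt

end LieP

open LieP in
theorem lie : LieStmt := by
  intro Q κ h
  have hW : Wp κ = ((fun z => κ (pol z)) '' O) ×ˢ univ := by rw [Wp, img]
  obtain ⟨θ, hθ⟩ := desc1 O (fun z => κ (pol z))
    (fun z => (Df (vs (Rn 4)) Q (fun z => κ (pol z)) z).inverse)
    fun z hz z' hz' e => by rw [Df_eq h hz hz' e]
  have h1 : ∀ z ∈ O, (θ (κ (pol z))).comp (Df (vs (Rn 4)) Q (fun z => κ (pol z)) z) =
      ContinuousLinearMap.id ℝ _ := fun z hz => by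
    rw [hθ z hz]; exact (ld h hz).inv.inverse_comp_self
  have hc : Cof Q 0 θ ((fun z => κ (pol z)) '' O) := by
    rintro _ ⟨z, hz, rfl⟩
    refine ⟨(cfAt_param (ld h hz)).2 (contDiffAt_const.congr_of_eventuallyEq
      (eventually_of_mem (O_open.mem_nhds hz) h1)), ?_⟩
    rw [hθ z hz]
    exact (ld h hz).inv.inverse
  refine ⟨?_, closed h, _, hW ▸ hc.cyl.ccomp S5, fun z t hz => ?_⟩
  · rw [hW]
    exact (isOpen_image_ld O_open fun _ => ld h).prod isOpen_univ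
  · refine ContinuousLinearMap.ext fun p => ?_
    exact congrArg (fun v => std5 (v, p.2)) (DFunLike.congr_fun (h1 z hz) p.1)

end Pool.Agent.MP_e1dc65_gt.EA

end
end MrgPart1

-- marker of a merged file
example : 731051 + 691820 = 731051 + 691820 := rfl

end MrgPart3

-- marker of a merged file
example : 731051 + 691820 = 731051 + 691820 := rfl
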