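import Pool.Agent.MP_e1dc65_gt.k.Etale
import Pool.Agent.MP_e1dc65_gt.e.aLie
import Pool.Agent.MP_e1dc65_gt.t.PreCof
import Mathlib.Analysis.SpecialFunctions.Complex.LogDeriv
import Mathlib.Analysis.SpecialFunctions.Sqrt
import Mathlib.Analysis.InnerProductSpace.Calculus
import Mathlib.Analysis.Real.Pi.Bounds
import Pool.Agent.MP_e1dc65_gt.t2.Disc
import Pool.Agent.MP_e1dc65_gt.Spec1
import Pool.Agent.MP_e1dc65_gt.k.Std
import Pool.Agent.MP_e1dc65_gt.k.Cov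
import Pool.Agent.MP_e1dc65_gt.t.Core
import Mathlib.Analysis.Complex.Convex
import Mathlib.LinearAlgebra.Complex.FiniteDimensional

-- ======== part 0: formerly Pool.Agent.MP_e1dc65_gt.e.aSgm
section MrgPart0

/-! PROJECT HC, part E-A, row SGM: the involution, the angle and the distance to the core. -/

open scoped ContDiff Manifold Topology Matrix Real
open Set Filter Function Module Pool.Agent.MP_c8d41b_gt.GF

noncomputable section

namespace Pool.Agent.MP_e1dc65_gt.EA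

namespace SgmP

/-- congruent modulo `2π` -/
def Cg (a b : ℝ) : Prop := ∃ m : ℤ, a - b = 2 * π * m

theorem Cg.of (m : ℤ) {a b : ℝ} (h : a - b = 2 * π * m) : Cg a b := ⟨m, h⟩
theorem Cg.symm {a b : ℝ} (h : Cg a b) : Cg b a :=
  let ⟨m, h⟩ := h; ⟨-m, by push_cast; linarith⟩
theorem Cg.trans {a b c : ℝ} (h : Cg a b) (h' : Cg b c) : Cg a c :=
  let ⟨m, h⟩ := h; let ⟨n, h'⟩ := h'; ⟨m + n, by push_cast; linarith⟩
theorem cg_exp {a b : ℝ} : Cg a b ↔ Complex.exp (a * Complex.I) = Complex.exp (b * Complex.I) := by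
  rw [Complex.exp_eq_exp_iff_exists_int]
  refine exists_congr fun m => ⟨fun h => ?_, fun h => ?_⟩
  · rw [show a = b + 2 * π * m by linarith]; push_cast; ring
  · have := congrArg Complex.im h
    simp at this
    linarith
theorem Cg.eq {a b : ℝ} (h : Cg a b) (d : |a - b| < 2 * π) : a = b := by
  obtain ⟨m, h⟩ := h
  have hπ := Real.pi_pos
  rw [h, abs_mul, abs_of_pos (by positivity), mul_lt_iff_lt_one_right (by positivity)] at d
  have : m = 0 := Int.abs_lt_one_iff.1 (by exact_mod_cast d)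
  rw [this] at h
  simpa [sub_eq_zero] using h

theorem lat3 {z z' : Rn 3} : Lat z z' ↔ Cg (z 0) (z' 0) ∧ Cg (z 1) (z' 1) ∧ Cg (z 2) (z' 2) :=
  ⟨fun h => ⟨h 0, h 1, h 2⟩, fun ⟨a, b, c⟩ i => by fin_cases i; exacts [a, b, c]⟩
theorem lsymm {z z' : Rn 3} (h : Lat z z') : Lat z' z := fun i => Cg.symm (h i)
theorem ltrans {z z' z'' : Rn 3} (h : Lat z z') (h' : Lat z' z'') : Lat z z'' := fun i =>
  Cg.trans (h i) (h' i)

theorem closed_sat (c r : ℝ) : IsClosed {t : ℝ | ∃ s, Cg t s ∧ |s - c| ≤ r} := by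
  have k : Continuous fun t : ℝ => Complex.exp (t * Complex.I) := by fun_prop
  convert ((isCompact_closedBall c r).image k).isClosed.preimage k using 1
  ext t
  exact ⟨fun ⟨s, a, b⟩ => ⟨s, b, (cg_exp.1 a).symm⟩, fun ⟨s, b, a⟩ => ⟨s, cg_exp.2 a.symm, b⟩⟩

theorem i01 {i : Fin 3} (h : i ∈ I01) : i = 0 ∨ i = 1 := by
  fin_cases i <;> simp_all [I01]
theorem kx2 {i : Fin 3} (h : i ∈ I01) : kx i = 2 := by rcases i01 h with rfl | rfl <;> rfl

theorem cut_iff {i : Fin 3} (h : i ∈ I01) {z : Rn 3} :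
    z ∈ Cut i ↔ (∃ s, Cg (z (jx i)) s ∧ |s - cj i| ≤ eps) ∧ Cg (z 2) (ck i) := by
  refine ⟨fun ⟨z', a, b, c⟩ => ⟨⟨_, a _, b⟩, by rw [← c, kx2 h]; exact a 2⟩, fun ⟨⟨s, a, b⟩, c⟩ => ?_⟩
  rcases i01 h with rfl | rfl
  · exact ⟨![z 0, s, ck 0], lat3.2 ⟨.of 0 (by simp), a, c⟩, b, rfl⟩
  · exact ⟨![s, z 1, ck 1], lat3.2 ⟨a, .of 0 (by simp), c⟩, b, rfl⟩

theorem open_main : IsOpen (MainI I01) := by
  have : MainI I01 = ⋂ i ∈ I01, (Cut i)ᶜ := by ext z; simp [MainI]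
  rw [this]
  refine (toFinite _).isOpen_biInter fun i h => IsClosed.isOpen_compl (s := Cut i) (self := ?_)
  have c : ∀ k, Continuous fun z : Rn 3 => z k := continuous_apply
  convert ((closed_sat (cj i) eps).preimage (c (jx i))).inter
    ((closed_sat (ck i) 0).preimage (c 2)) using 1
  ext z
  rw [cut_iff h]
  refine and_congr Iff.rfl ⟨fun a => ⟨_, a, by simp⟩, fun ⟨s, a, b⟩ => ?_⟩
  rwa [← sub_eq_zero.1 (abs_nonpos_iff.1 b)]

theorem open_box (i : Fin 3) : IsOpen (Box i) :=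
  IsOpen.inter (isOpen_lt (f := fun z : Rn 3 => |z (jx i) - cj i|) (by fun_prop) continuous_const)
    (isOpen_lt (f := fun z : Rn 3 => |z (kx i) - ck i|) (by fun_prop) continuous_const)

theorem main_lat {z z' : Rn 3} (h : z ∈ MainI I01) (l : Lat z z') : z' ∈ MainI I01 :=
  fun i hi ⟨w, a, b⟩ => h i hi ⟨w, ltrans l a, b⟩

theorem sg_lat {z z' : Rn 3} (l : Lat z z') : Lat (sg0 z) (sg0 z') := by
  obtain ⟨⟨a, ha⟩, ⟨b, hb⟩, ⟨c, hc⟩⟩ := lat3.1 l
  exact lat3.2 ⟨.of (-b) (by simp [sg0]; linarith), .of (-a) (by simp [sg0]; linarith),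
    .of c (by simp [sg0]; linarith)⟩

theorem sg_main {z : Rn 3} (h : z ∈ MainI I01) : sg0 z ∈ MainI I01 := by
  intro i hi hc
  obtain ⟨⟨s, ⟨a, ha⟩, b⟩, ⟨c, hc⟩⟩ := (cut_iff hi).1 hc
  rcases i01 hi with rfl | rfl
  · refine h 1 (by simp [I01]) ((cut_iff (by simp [I01])).2
      ⟨⟨2 * π - s, .of (-a - 1) ?_, ?_⟩, .of (c - 1) ?_⟩)
    · simp [sg0, jx] at ha ⊢; linarith
    · simp only [cj] at b ⊢
      rw [abs_sub_comm] at b
      simp at b ⊢
      convert b using 2; ring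
    · simp [sg0, ck] at hc ⊢; linarith
  · refine h 0 (by simp [I01]) ((cut_iff (by simp [I01])).2
      ⟨⟨2 * π - s, .of (-a - 1) ?_, ?_⟩, .of c ?_⟩)
    · simp [sg0, jx] at ha ⊢; linarith
    · simp only [cj] at b ⊢
      rw [abs_sub_comm] at b
      simp at b ⊢
      convert b using 2; ring
    · simp [sg0, ck] at hc ⊢; linarith

/-- near the level of cut `i` only cut `i` matters -/
theorem main_of {i : Fin 3} (hi : i ∈ I01) {z : Rn 3} (h : |z 2 - ck i| < 2 * eps)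
    (hz : z ∉ Cut i) : z ∈ MainI I01 := by
  intro j hj hc
  by_cases e : j = i
  · exact hz (e ▸ hc)
  have hπ := Real.two_le_pi
  have k := ((cut_iff hj).1 hc).2
  obtain ⟨h1, h2⟩ := abs_lt.1 h
  rcases i01 hi with rfl | rfl <;> rcases i01 hj with rfl | rfl <;> simp [ck, eps] at *
  all_goals
    have := k.eq (abs_lt.2 ⟨by linarith, by linarith⟩)
    linarith

theorem main_up {i : Fin 3} (hi : i ∈ I01) {z : Rn 3} (h : |z 2 - ck i| < 2 * eps)
    (hz : ck i < z 2) : z ∈ MainI I01 :=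
  main_of hi h fun hc => hz.ne' (((cut_iff hi).1 hc).2.eq (h.trans (by
    have hπ := Real.two_le_pi
    simp only [eps]; linarith)))

theorem shr2 {i : Fin 3} (hi : i ∈ I01) (z : Rn 3) : shr i z 2 = z 2 := by
  rcases i01 hi with rfl | rfl <;> simp [shr]

theorem box2 {i : Fin 3} (hi : i ∈ I01) {z : Rn 3} (h : z ∈ Box i) : |z 2 - ck i| < 2 * eps :=
  kx2 hi ▸ h.2

/-- the other box -/
def sw : Fin 3 → Fin 3 := ![1, 0, 2]
/-- the involution in the box charts -/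
def bx : Fin 3 → Rn 3 → Rn 3 :=
  ![fun z => ![2 * π - z 1, -z 0, z 2 + π], fun z => ![-z 1, 2 * π - z 0, z 2 - π], id]

theorem sw_mem {i : Fin 3} (hi : i ∈ I01) : sw i ∈ I01 := by
  rcases i01 hi with rfl | rfl <;> simp [sw, I01]
theorem sw_sw (i : Fin 3) : sw (sw i) = i := by fin_cases i <;> rfl
theorem bx2 {i : Fin 3} (hi : i ∈ I01) (z : Rn 3) : bx i z 2 - ck (sw i) = z 2 - ck i := by
  rcases i01 hi with rfl | rfl <;> simp [sw, bx, ck] <;> ring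
theorem bxj {i : Fin 3} (hi : i ∈ I01) (z : Rn 3) :
    bx i z (jx (sw i)) - cj (sw i) = -(z (jx i) - cj i) := by
  rcases i01 hi with rfl | rfl <;> simp [sw, bx, cj, jx] <;> ring
theorem bx_box {i : Fin 3} (hi : i ∈ I01) {z : Rn 3} (h : z ∈ Box i) : bx i z ∈ Box (sw i) :=
  ⟨by rw [bxj hi, abs_neg]; exact h.1, by rw [kx2 (sw_mem hi), bx2 hi]; exact box2 hi h⟩
theorem bx_lat {i : Fin 3} (hi : i ∈ I01) (z : Rn 3) : Lat (sg0 z) (bx i z) := by
  rcases i01 hi with rfl | rfl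
  · exact lat3.2 ⟨.of (-1) (by simp [sg0, bx]; ring), .of 0 (by simp [sg0, bx]),
      .of 0 (by simp [sg0, bx])⟩
  · exact lat3.2 ⟨.of 0 (by simp [sg0, bx]), .of (-1) (by simp [sg0, bx]; ring),
      .of 1 (by simp [sg0, bx]; ring)⟩
theorem shr_lat {i : Fin 3} (hi : i ∈ I01) (z : Rn 3) :
    Lat (sg0 (shr i z)) (shr (sw i) (bx i z)) := by
  simp only [shr]
  rw [bxj hi, Fn.lam_neg]
  rcases i01 hi with rfl | rfl
  · exact lat3.2 ⟨.of (-1) (by simp [sg0, bx, sw]; ring), .of (-1) (by simp [sg0, bx, sw]; ring),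
      .of 0 (by simp [sg0, bx, sw])⟩
  · exact lat3.2 ⟨.of (-1) (by simp [sg0, bx, sw]; ring), .of (-1) (by simp [sg0, bx, sw]; ring),
      .of 1 (by simp [sg0, bx, sw]; ring)⟩
theorem bx_bx {i : Fin 3} (hi : i ∈ I01) (z : Rn 3) : bx (sw i) (bx i z) = z := by
  rcases i01 hi with rfl | rfl <;> ext k <;> fin_cases k <;> simp [sw, bx]
theorem sg_sm : ContDiff ℝ ∞ sg0 :=
  contDiff_pi.2 fun k => by fin_cases k <;> simp [sg0] <;> fun_prop
theorem bx_sm {i : Fin 3} (hi : i ∈ I01) : ContDiff ℝ ∞ (bx i) := by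
  rcases i01 hi with rfl | rfl <;> refine contDiff_pi.2 fun k => ?_ <;> fin_cases k <;>
    simp [bx] <;> fun_prop
theorem sg_sg (z : Rn 3) : Lat (sg0 (sg0 z)) z :=
  lat3.2 ⟨.of 0 (by simp [sg0]), .of 0 (by simp [sg0]), .of 1 (by simp [sg0]; ring)⟩
theorem exp_sg (z : Rn 3) :
    Complex.exp (sg0 z 2 * Complex.I) = -Complex.exp (z 2 * Complex.I) := by
  simp [sg0, add_mul, Complex.exp_add]

theorem dsc_abs {z : Rn 3} (h : z ∈ Dsc) : |z 0 - 3 * π / 2| < 1 ∧ |z 1 - π / 2| < 1 :=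
  ⟨(Complex.abs_re_le_norm (wz z)).trans_lt h, (Complex.abs_im_le_norm (wz z)).trans_lt h⟩

theorem dsc_main {z : Rn 3} (h : z ∈ Dsc) : z ∈ MainI I01 := by
  intro i hi hc
  obtain ⟨⟨s, a, b⟩, -⟩ := (cut_iff hi).1 hc
  obtain ⟨h1, h2⟩ := dsc_abs h
  have hπ := Real.two_le_pi
  rw [abs_lt] at h1 h2
  rw [abs_le] at b
  rcases i01 hi with rfl | rfl <;> simp [jx, cj, eps] at a b
  all_goals
    have := a.eq (abs_lt.2 ⟨by linarith, by linarith⟩)
    linarith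

theorem wz_cont : Continuous wz :=
  Complex.equivRealProdCLM.symm.continuous.comp
    (f := fun z : Rn 3 => (z 0 - 3 * π / 2, z 1 - π / 2)) (by fun_prop)

theorem open_dsc : IsOpen Dsc := isOpen_lt wz_cont.norm continuous_const

theorem wz_lat {z z' : Rn 3} (h : z ∈ Dsc) (h' : z' ∈ Dsc) (l : Lat z z') : wz z = wz z' := by
  obtain ⟨h1, h2⟩ := dsc_abs h
  obtain ⟨h3, h4⟩ := dsc_abs h'
  have hπ := Real.two_le_pi
  rw [abs_lt] at h1 h2 h3 h4
  rw [wz, wz, Cg.eq (l 0) (abs_lt.2 ⟨by linarith, by linarith⟩),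
    Cg.eq (l 1) (abs_lt.2 ⟨by linarith, by linarith⟩)]

/-- the involution on the solid torus -/
def sd (z : Rn 3) : Rn 3 := ![2 * π - z 1, 2 * π - z 0, z 2 + π]

theorem sd_lat (z : Rn 3) : Lat (sg0 z) (sd z) :=
  lat3.2 ⟨.of (-1) (by simp [sg0, sd]; ring), .of (-1) (by simp [sg0, sd]; ring),
    .of 0 (by simp [sg0, sd])⟩
theorem sd_norm (z : Rn 3) : ‖wz (sd z)‖ = ‖wz z‖ := by
  rw [Complex.norm_def, Complex.norm_def]
  congr 1
  simp [wz, sd, Complex.normSq_apply]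
  ring

variable {X : Mf (Rn 3)} {e₀ : Rn 3 → X} {e : Fin 3 → Rn 3 → X}

theorem mb (h : IsTw I01 X e₀ e) {i : Fin 3} (hi : i ∈ I01) {x y : Rn 3} (hx : x ∈ MainI I01)
    (hy : y ∈ Box i) (H : e₀ x = e i y) :
    y ∈ MainI I01 ∧ y 2 ≤ ck i ∧ Lat x y ∨ ck i < y 2 ∧ Lat x (shr i y) := by
  rcases le_or_gt (y 2) (ck i) with k | k
  · have m : y ∈ MainI I01 :=
      main_of hi (box2 hi hy) fun hc => h.cut i hi y ⟨hy, hc⟩ ⟨x, hx, H⟩
    exact .inl ⟨m, k, (h.eq0 x hx y m).1 (H.trans (h.low i hi y hy m (by rwa [kx2 hi])))⟩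
  · refine .inr ⟨k, (h.eq0 x hx _ (main_up hi ?_ ?_)).1
      (H.trans (h.up i hi y hy (by rwa [kx2 hi])))⟩
    · rw [shr2 hi]; exact box2 hi hy
    · rwa [shr2 hi]

theorem ex_sig (h : IsTw I01 X e₀ e) : ∃ σ : X → X, (∀ z ∈ MainI I01, σ (e₀ z) = e₀ (sg0 z)) ∧
    ∀ i, ∀ z ∈ {z | i ∈ I01 ∧ z ∈ Box i}, σ (e i z) = e (sw i) (bx i z) := by
  have : Nonempty X := ⟨e₀ 0⟩
  refine desc2 _ _ e₀ e (fun z => e₀ (sg0 z)) (fun i z => e (sw i) (bx i z))
    (fun x hx y hy H => (h.eq0 _ (sg_main hx) _ (sg_main hy)).2 (sg_lat ((h.eq0 x hx y hy).1 H)))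
    (fun i x hx y ⟨hi, hy⟩ H => ?_) fun i j x ⟨hi, hx⟩ y ⟨hj, hy⟩ H => ?_
  · have b := bx2 hi y
    rcases mb h hi hx hy H with ⟨m, k, l⟩ | ⟨k, l⟩
    · have m' := main_lat (sg_main m) (bx_lat hi y)
      rw [h.low _ (sw_mem hi) _ (bx_box hi hy) m' (by rw [kx2 (sw_mem hi)]; linarith)]
      exact (h.eq0 _ (sg_main hx) _ m').2 (ltrans (sg_lat l) (bx_lat hi y))
    · have l' := ltrans (sg_lat l) (shr_lat hi y)
      rw [h.up _ (sw_mem hi) _ (bx_box hi hy) (by rw [kx2 (sw_mem hi)]; linarith)]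
      exact (h.eq0 _ (sg_main hx) _ (main_lat (sg_main hx) l')).2 l'
  · obtain rfl : i = j := by_contra fun n => h.dis i hi j hj n x hx y hy H
    exact (h.eq _ (sw_mem hi) _ (bx_box hi hx) _ (bx_box hi hy)).2 (ltrans (lsymm (bx_lat hi x))
      (ltrans (sg_lat ((h.eq i hi x hx y hy).1 H)) (bx_lat hi y)))

theorem ex_ang (h : IsTw I01 X e₀ e) : ∃ a : X → ℂ,
    (∀ z ∈ MainI I01, a (e₀ z) = Complex.exp (z 2 * Complex.I)) ∧
    ∀ i, ∀ z ∈ {z | i ∈ I01 ∧ z ∈ Box i}, a (e i z) = Complex.exp (z 2 * Complex.I) := by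
  refine desc2 _ _ e₀ e (fun z => Complex.exp (z 2 * Complex.I))
    (fun _ z => Complex.exp (z 2 * Complex.I))
    (fun x hx y hy H => cg_exp.1 ((h.eq0 x hx y hy).1 H 2))
    (fun i x hx y ⟨hi, hy⟩ H => ?_) fun i j x ⟨hi, hx⟩ y ⟨hj, hy⟩ H => ?_
  · rcases mb h hi hx hy H with ⟨-, -, l⟩ | ⟨-, l⟩
    · exact cg_exp.1 (l 2)
    · exact shr2 hi y ▸ cg_exp.1 (l 2)
  · obtain rfl : i = j := by_contra fun n => h.dis i hi j hj n x hx y hy H
    exact cg_exp.1 ((h.eq i hi x hx y hy).1 H 2)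

theorem ex_del (h : IsTw I01 X e₀ e) : ∃ d : X → ℝ, Continuous d ∧
    (∀ z ∈ Dsc, d (e₀ z) = ‖wz z‖) ∧ ∀ x ∉ e₀ '' Dsc, d x = 1 := by
  classical
  obtain ⟨F, hF⟩ := desc1 Dsc e₀ (fun z => ‖wz z‖) fun x hx y hy H => by
    rw [wz_lat hx hy ((h.eq0 x (dsc_main hx) y (dsc_main hy)).1 H)]
  let d : X → ℝ := fun x => if x ∈ e₀ '' Dsc then F x else 1
  have d0 : ∀ z ∈ Dsc, d (e₀ z) = ‖wz z‖ := fun z hz => (if_pos ⟨z, hz, rfl⟩).trans (hF z hz)
  have d1 : ∀ x ∉ e₀ '' Dsc, d x = 1 := fun x hx => if_neg hx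
  refine ⟨d, continuous_iff_continuousAt.2 fun x => ?_, d0, d1⟩
  by_cases hx : x ∈ e₀ '' Dsc
  · obtain ⟨z, hz, rfl⟩ := hx
    exact (h.ld0 z (dsc_main hz)).cont_desc (open_dsc.mem_nhds hz) d0 wz_cont.norm.continuousAt
  unfold ContinuousAt
  rw [d1 x hx]
  refine tendsto_order.2 ⟨fun a ha => ?_, fun a ha => .of_forall fun y => ?_⟩
  · let p : ℂ × ℝ → Rn 3 := fun q => ![q.1.re + 3 * π / 2, q.1.im + π / 2, q.2]
    have pw : ∀ q, wz (p q) = q.1 := fun q => by simp [p, wz]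
    have pc : Continuous p := continuous_pi fun k => by fin_cases k <;> simp [p] <;> fun_prop
    have pd : ∀ q ∈ Metric.closedBall (0 : ℂ) a ×ˢ Icc 0 (2 * π), p q ∈ Dsc := fun q hq => by
      have := hq.1
      rw [mem_closedBall_zero_iff] at this
      show ‖wz (p q)‖ < 1
      rw [pw]; linarith
    have K := (((isCompact_closedBall (0 : ℂ) a).prod (isCompact_Icc (a := 0) (b := 2 * π))
      ).image_of_continuousOn (f := fun q => e₀ (p q)) fun q hq =>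
        ((h.ld0 _ (dsc_main (pd q hq))).sm.cont.comp pc.continuousAt).continuousWithinAt).isClosed
    filter_upwards [K.isOpen_compl.mem_nhds fun ⟨q, hq, H⟩ => hx ⟨_, pd q hq, H⟩] with y hy
    by_cases hy' : y ∈ e₀ '' Dsc
    · obtain ⟨z, hz, rfl⟩ := hy'
      rw [d0 z hz]
      by_contra hn
      have m : (wz z, toIcoMod Real.two_pi_pos 0 (z 2)) ∈
          Metric.closedBall (0 : ℂ) a ×ˢ Icc 0 (2 * π) :=
        ⟨mem_closedBall_zero_iff.2 (not_lt.1 hn),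
          Ico_subset_Icc_self (toIcoMod_mem_Ico' Real.two_pi_pos _)⟩
      refine hy ⟨_, m, (h.eq0 _ (dsc_main (pd _ m)) _ (dsc_main hz)).2 (lat3.2
        ⟨.of 0 (by simp [p, wz]), .of 0 (by simp [p, wz]),
          .of (-toIcoDiv Real.two_pi_pos 0 (z 2)) ?_⟩)⟩
      simp [p, toIcoMod_sub_self, mul_comm]
    · rwa [d1 y hy']
  · by_cases hy : y ∈ e₀ '' Dsc
    · obtain ⟨z, hz, rfl⟩ := hy
      rw [d0 z hz]
      exact lt_trans hz ha
    · rwa [d1 y hy]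

end SgmP

open SgmP in
theorem sgm : SgmStmt := by
  intro X e₀ e h
  obtain ⟨σ, s0, s1⟩ := ex_sig h
  obtain ⟨a, a0, a1⟩ := ex_ang h
  obtain ⟨d, dc, d0, d1⟩ := ex_del h
  have ss : ∀ x, σ (σ x) = x := fun x => by
    rcases h.cov x with ⟨z, hz, rfl⟩ | ⟨i, hi, z, hz, rfl⟩
    · rw [s0 z hz, s0 _ (sg_main hz)]
      exact (h.eq0 _ (sg_main (sg_main hz)) _ hz).2 (sg_sg z)
    · rw [s1 i z ⟨hi, hz⟩, s1 _ _ ⟨sw_mem hi, bx_box hi hz⟩, sw_sw, bx_bx hi]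
  have ec : Continuous fun z : Rn 3 => Complex.exp (z 2 * Complex.I) := by fun_prop
  have nb : ∀ i ∈ I01, ∀ z ∈ Box i, {z | i ∈ I01 ∧ z ∈ Box i} ∈ 𝓝 z := fun i hi z hz =>
    mem_of_superset ((open_box i).mem_nhds hz) fun _ hy => ⟨hi, hy⟩
  have sD : ∀ z ∈ Dsc, sd z ∈ Dsc ∧ σ (e₀ z) = e₀ (sd z) := fun z hz => by
    have m : sd z ∈ Dsc := (sd_norm z).trans_lt hz
    exact ⟨m, (s0 z (dsc_main hz)).trans
      ((h.eq0 _ (sg_main (dsc_main hz)) _ (dsc_main m)).2 (sd_lat z))⟩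
  refine ⟨σ, a, d, h, fun x _ => ?_, ss, s0, fun z hz => s1 0 z ⟨by simp [I01], hz⟩,
    fun z hz => s1 1 z ⟨by simp [I01], hz⟩, continuous_iff_continuousAt.2 fun x => ?_, a0,
    fun i hi z hz => a1 i z ⟨hi, hz⟩, fun x => ?_, dc, d0, fun x => ?_, fun x => ?_⟩
  · rcases h.cov x with ⟨z, hz, rfl⟩ | ⟨i, hi, z, hz, rfl⟩
    · exact (h.ld0 z hz).sm_desc (open_main.mem_nhds hz) s0
        ((smAt_vs.2 sg_sm.contDiffAt).trans (h.ld0 _ (sg_main hz)).sm)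
    · exact (h.ld i hi z hz).sm_desc (nb i hi z hz) (s1 i)
        ((smAt_vs.2 (bx_sm hi).contDiffAt).trans (h.ld _ (sw_mem hi) _ (bx_box hi hz)).sm)
  · rcases h.cov x with ⟨z, hz, rfl⟩ | ⟨i, hi, z, hz, rfl⟩
    · exact (h.ld0 z hz).cont_desc (open_main.mem_nhds hz) a0 ec.continuousAt
    · exact (h.ld i hi z hz).cont_desc (nb i hi z hz) (a1 i) ec.continuousAt
  · show a (σ x) = -a x
    rcases h.cov x with ⟨z, hz, rfl⟩ | ⟨i, hi, z, hz, rfl⟩
    · rw [s0 z hz, a0 _ (sg_main hz), a0 z hz, exp_sg]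
    · rw [s1 i z ⟨hi, hz⟩, a1 _ _ ⟨sw_mem hi, bx_box hi hz⟩, a1 i z ⟨hi, hz⟩, ← exp_sg,
        cg_exp.1 (bx_lat hi z 2)]
  · by_cases hx : x ∈ e₀ '' Dsc
    exacts [.inr hx, .inl (d1 x hx)]
  · show d (σ x) = d x
    by_cases hx : x ∈ e₀ '' Dsc
    · obtain ⟨z, hz, rfl⟩ := hx
      rw [(sD z hz).2, d0 _ (sD z hz).1, d0 z hz, sd_norm]
    · rw [d1 x hx, d1]
      rintro ⟨z, hz, H⟩
      exact hx ⟨_, (sD z hz).1, by rw [← (sD z hz).2, H, ss]⟩

end Pool.Agent.MP_e1dc65_gt.EA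

end
end MrgPart0

-- ======== part 1: formerly Pool.Agent.MP_e1dc65_gt.e.aNut
section MrgPart1

/-! PROJECT HC, part E-A, row NUT: the two coordinate systems of the handle chart. -/

open scoped ContDiff Manifold Topology Real
open Set Filter Function Complex

noncomputable section

namespace Pool.Agent.MP_e1dc65_gt.EA

namespace NutP

variable {w : ℂ} {ρ : ℝ} {p p' : Rn 3 × ℝ}

theorem sq_pos (h : w = 0 → 0 < ρ) : 0 < ρ + √(ρ ^ 2 + 4 * ‖w‖ ^ 2) := by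
  by_cases hw : w = 0
  · have := h hw
    positivity
  · have h1 : |ρ| < √(ρ ^ 2 + 4 * ‖w‖ ^ 2) := Real.lt_sqrt_of_sq_lt (by
      have := norm_pos_iff.2 hw
      rw [sq_abs]; nlinarith [sq_pos_of_pos this])
    linarith [neg_abs_le ρ]

theorem sq_nn (w : ℂ) (ρ : ℝ) : 0 ≤ ρ + √(ρ ^ 2 + 4 * ‖w‖ ^ 2) := by
  have h1 : |ρ| ≤ √(ρ ^ 2 + 4 * ‖w‖ ^ 2) := Real.abs_le_sqrt (by nlinarith [sq_nonneg ‖w‖])
  linarith [neg_abs_le ρ]

theorem rr_pos (h : w = 0 → 0 < ρ) : 0 < rr w ρ := Real.sqrt_pos.2 (half_pos (sq_pos h))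

theorem rr_mul (w : ℂ) (ρ : ℝ) : rr w ρ * rr w (-ρ) = ‖w‖ := by
  have h : 0 ≤ ρ ^ 2 + 4 * ‖w‖ ^ 2 := by positivity
  rw [rr, rr, ← Real.sqrt_mul (by linarith [sq_nn w ρ]), neg_sq, ← Real.sqrt_sq (norm_nonneg w)]
  congr 1
  rw [Real.sqrt_sq (norm_nonneg w)]
  nlinarith [Real.sq_sqrt h]

theorem rr_sub (w : ℂ) (ρ : ℝ) : rr w ρ ^ 2 - rr w (-ρ) ^ 2 = ρ := by
  rw [rr, rr, Real.sq_sqrt (by linarith [sq_nn w ρ]), Real.sq_sqrt (by linarith [sq_nn w (-ρ)]),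
    neg_sq]
  ring

theorem rr_eq (z : ℂ × ℂ) : rr (z.1 * z.2) (rho z) = ‖z.1‖ := by
  have : rho z ^ 2 + 4 * ‖z.1 * z.2‖ ^ 2 = (‖z.1‖ ^ 2 + ‖z.2‖ ^ 2) ^ 2 := by
    rw [rho, norm_mul]; ring
  rw [rr, this, Real.sqrt_sq (by positivity), rho, ← Real.sqrt_sq (norm_nonneg z.1)]
  congr 1
  rw [Real.sqrt_sq (norm_nonneg z.1)]
  ring

theorem wz_sm : ContDiff ℝ ∞ wz := by
  have : wz = fun z : Rn 3 => ofRealCLM (z 0 - 3 * π / 2) + ofRealCLM (z 1 - π / 2) * I :=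
    funext fun z => by apply Complex.ext <;> simp [wz]
  rw [this]
  fun_prop

theorem rho_sm : ContDiff ℝ ∞ rho :=
  ((contDiff_norm_sq ℝ).comp contDiff_fst).sub ((contDiff_norm_sq ℝ).comp contDiff_snd)

/-- the natural domain of `up` -/
def D0 : Set (Rn 3 × ℝ) := {p | wz p.1 = 0 → 1 < p.2}

theorem D0_op : IsOpen D0 := by
  have : D0 = {p | wz p.1 ≠ 0} ∪ {p | 1 < p.2} := by
    ext p; simp only [D0, mem_ofPred_eq, mem_union, imp_iff_not_or]
  rw [this]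
  exact (isOpen_ne_fun (wz_sm.continuous.comp continuous_fst) continuous_const).union
    (isOpen_lt continuous_const continuous_snd)

theorem r_pos (h : p ∈ D0) : 0 < rr (wz p.1) (p.2 - 1) := rr_pos fun hw => sub_pos.2 (h hw)

theorem up_norm (p : Rn 3 × ℝ) : ‖(up p).1‖ = rr (wz p.1) (p.2 - 1) := by
  simp [up, abs_of_nonneg (show 0 ≤ rr (wz p.1) (p.2 - 1) from Real.sqrt_nonneg _)]

theorem up_ne (h : p ∈ D0) : (up p).1 ≠ 0 := norm_pos_iff.1 (up_norm p ▸ r_pos h)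

theorem up_mul (h : p ∈ D0) : (up p).1 * (up p).2 = wz p.1 := mul_div_cancel₀ _ (up_ne h)

theorem up_rho (h : p ∈ D0) : rho (up p) = p.2 - 1 := by
  have h1 : ‖(up p).2‖ = rr (wz p.1) (-(p.2 - 1)) :=
    mul_left_cancel₀ (r_pos h).ne' (by rw [rr_mul, ← up_norm, ← norm_mul, up_mul h])
  rw [rho, h1, up_norm, rr_sub]

theorem up_sm (h : p ∈ D0) : ContDiffAt ℝ ∞ up p := by
  have h0 : wz p.1 = 0 → 0 < p.2 - 1 := fun hw => sub_pos.2 (h hw)
  have hw : ContDiffAt ℝ ∞ (fun p : Rn 3 × ℝ => wz p.1) p := (wz_sm.comp contDiff_fst).contDiffAt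
  have hn : ContDiffAt ℝ ∞ (fun p : Rn 3 × ℝ => ‖wz p.1‖ ^ 2) p := hw.norm_sq ℝ
  have h1 : ContDiffAt ℝ ∞ (fun p : Rn 3 × ℝ => √((p.2 - 1) ^ 2 + 4 * ‖wz p.1‖ ^ 2)) p := by
    refine ContDiffAt.sqrt (by fun_prop) fun e => ?_
    have := sq_pos h0
    rw [e, Real.sqrt_zero, add_zero] at this
    nlinarith [sq_nonneg ‖wz p.1‖]
  have h2 : ContDiffAt ℝ ∞ (fun p : Rn 3 × ℝ => rr (wz p.1) (p.2 - 1)) p :=
    ContDiffAt.sqrt (by fun_prop) (half_pos (sq_pos h0)).ne'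
  have h3 : ContDiffAt ℝ ∞ (fun p => (up p).1) p :=
    (ofRealCLM.contDiff.contDiffAt.comp p h2).mul (ContDiffAt.cexp
      ((ofRealCLM.contDiff.contDiffAt.comp p (by fun_prop)).mul contDiffAt_const))
  exact h3.prodMk (hw.mul (h3.inv (up_ne h)))

/-- the local inverse of `up` -/
def dn (u : ℝ) (z : ℂ × ℂ) : Rn 3 × ℝ :=
  (![(z.1 * z.2).re + 3 * π / 2, (z.1 * z.2).im + π / 2, u + arg (z.1 * exp (-(u * I)))], 1 + rho z)

theorem dn_w (u : ℝ) (z : ℂ × ℂ) : wz (dn u z).1 = z.1 * z.2 := by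
  apply Complex.ext <;> simp [wz, dn]

theorem dn_mem (u : ℝ) {z : ℂ × ℂ} (h : z.1 ≠ 0) : dn u z ∈ D0 := fun hw => by
  rw [dn_w, mul_eq_zero, or_iff_right h] at hw
  have := norm_pos_iff.2 h
  simp only [dn, rho, hw, norm_zero]
  nlinarith

theorem up_dn (u : ℝ) {z : ℂ × ℂ} (h : z.1 ≠ 0) : up (dn u z) = z := by
  have h1 : (up (dn u z)).1 = z.1 := by
    have e := norm_mul_exp_arg_mul_I (z.1 * exp (-(u * I)))
    have e1 : ‖z.1 * exp (-(u * I))‖ = ‖z.1‖ := by simp [norm_exp]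
    have e2 : (dn u z).2 - 1 = rho z := add_sub_cancel_left _ _
    have e3 : (dn u z).1 2 = u + arg (z.1 * exp (-(u * I))) := rfl
    rw [up, dn_w, e2, rr_eq, e3, ofReal_add, add_mul, exp_add, mul_left_comm, ← e1, e,
      mul_left_comm, ← exp_add, add_neg_cancel, exp_zero, mul_one]
  refine Prod.ext h1 (mul_left_cancel₀ h ?_)
  rw [← dn_w u z, ← up_mul (dn_mem u h), h1]

theorem up_rot (p : Rn 3 × ℝ) (u : ℝ) : (up p).1 * exp (-(u * I)) =
    rr (wz p.1) (p.2 - 1) * exp ((p.1 2 - u : ℝ) * I) := by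
  rw [up, mul_assoc, ← exp_add]
  congr 2
  push_cast; ring

theorem arg_up (h : p ∈ D0) {u : ℝ} (hu : |p.1 2 - u| < π) :
    arg ((up p).1 * exp (-(u * I))) = p.1 2 - u := by
  rw [up_rot, exp_mul_I]
  exact arg_mul_cos_add_sin_mul_I (r_pos h) ⟨(abs_lt.1 hu).1, (abs_lt.1 hu).2.le⟩

theorem dn_up (h : p ∈ D0) {u : ℝ} (hu : |p.1 2 - u| < π) : dn u (up p) = p := by
  refine Prod.ext (funext fun i => ?_) (by simp only [dn, up_rho h]; ring)
  rw [dn, up_mul h, arg_up h hu]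
  fin_cases i <;> simp [wz]

theorem dn_sm (u : ℝ) {z : ℂ × ℂ} (h : z.1 * exp (-(u * I)) ∈ slitPlane) :
    ContDiffAt ℝ ∞ (dn u) z := by
  have h1 : ContDiffAt ℝ ∞ (fun z : ℂ × ℂ => arg (z.1 * exp (-(u * I)))) z := by
    simp only [← log_im]
    exact imCLM.contDiff.contDiffAt.comp z (((contDiffAt_log h).restrict_scalars ℝ).comp z
      (contDiffAt_fst.mul contDiffAt_const))
  have h2 : ContDiffAt ℝ ∞ (fun z : ℂ × ℂ => z.1 * z.2) z := contDiffAt_fst.mul contDiffAt_snd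
  refine ContDiffAt.prodMk (contDiffAt_pi.2 fun i => ?_) (contDiffAt_const.add rho_sm.contDiffAt)
  fin_cases i
  exacts [(reCLM.contDiff.contDiffAt.comp z h2).add contDiffAt_const,
    (imCLM.contDiff.contDiffAt.comp z h2).add contDiffAt_const, contDiffAt_const.add h1]

theorem up_ld (h : p ∈ D0) : LDAt (vs (Rn 3 × ℝ)) (vs (ℂ × ℂ)) up p := by
  have ne : ∀ z : ℂ × ℂ, z.1 * exp (-(p.1 2 * I)) ∈ slitPlane → z.1 ≠ 0 := fun z hz =>
    left_ne_zero_of_mul (slitPlane_ne_zero hz)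
  refine ldAt_of_inv (X := vs (Rn 3 × ℝ)) (Y := vs (ℂ × ℂ)) (g := dn (p.1 2))
    (U := D0 ∩ {q | |q.1 2 - p.1 2| < π}) (W := {z | z.1 * exp (-(p.1 2 * I)) ∈ slitPlane})
    (D0_op.inter (isOpen_lt (by fun_prop) continuous_const))
    (isOpen_slitPlane.preimage (by fun_prop)) ⟨h, by simpa using Real.pi_pos⟩
    (fun q hq => smAt_vs.2 (up_sm hq.1)) (fun z hz => smAt_vs.2 (dn_sm _ hz)) (fun q hq => ?_)
    (fun z hz => ⟨dn_mem _ (ne z hz), ?_⟩) (fun q hq => dn_up hq.1 hq.2)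
    fun z hz => up_dn _ (ne z hz)
  · refine mem_slitPlane_iff_arg.2 ⟨?_, mul_ne_zero (up_ne hq.1) (exp_ne_zero _)⟩
    rw [arg_up hq.1 hq.2]
    exact (abs_lt.1 hq.2).2.ne
  · have e3 : (dn (p.1 2) z).1 2 = p.1 2 + arg (z.1 * exp (-(p.1 2 * I))) := rfl
    rw [mem_ofPred_eq, e3, add_sub_cancel_left]
    exact abs_lt.2 ⟨neg_pi_lt_arg _, (arg_le_pi _).lt_of_ne (slitPlane_arg_ne_pi hz)⟩

theorem up_eq (h : p ∈ D0) (h' : p' ∈ D0) :
    up p = up p' ↔ wz p.1 = wz p'.1 ∧ (∃ m : ℤ, p.1 2 - p'.1 2 = 2 * π * m) ∧ p.2 = p'.2 := by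
  constructor
  · intro e
    have h1 : wz p.1 = wz p'.1 := by rw [← up_mul h, e, up_mul h']
    have h2 : p.2 = p'.2 := by linarith [up_rho h, up_rho h', congrArg rho e]
    have h3 := congrArg Prod.fst e
    simp only [up, h1, h2] at h3
    obtain ⟨m, hm⟩ := exp_eq_exp_iff_exists_int.1
      (mul_left_cancel₀ (ofReal_ne_zero.2 (r_pos h').ne') h3)
    refine ⟨h1, ⟨m, ?_⟩, h2⟩
    have := congrArg im hm
    simp at this
    linarith
  · rintro ⟨h1, ⟨m, hm⟩, h2⟩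
    have : exp (p.1 2 * I) = exp (p'.1 2 * I) :=
      exp_eq_exp_iff_exists_int.2 ⟨m, by rw [eq_add_of_sub_eq hm]; push_cast; ring⟩
    simp only [up, h1, h2, this]

theorem lat_iff {z z' : Rn 3} (h : z ∈ Dsc) (h' : z' ∈ Dsc) :
    Lat z z' ↔ wz z = wz z' ∧ ∃ m : ℤ, z 2 - z' 2 = 2 * π * m := by
  have key : ∀ (a b : ℝ) (m : ℤ), |a| < 1 → |b| < 1 → a - b = 2 * π * m → a = b := by
    intro a b m ha hb e
    have h1 : |2 * π * m| < 2 := e ▸ (abs_sub a b).trans_lt (by linarith)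
    have h2 : |(m : ℝ)| < 1 := by
      rw [abs_mul, abs_of_pos Real.two_pi_pos] at h1
      nlinarith [Real.two_le_pi, abs_nonneg (m : ℝ)]
    rw [← Int.cast_abs, ← Int.cast_one, Int.cast_lt, Int.abs_lt_one_iff] at h2
    simpa [h2, sub_eq_zero] using e
  constructor
  · intro e
    obtain ⟨m, hm⟩ := e 0
    obtain ⟨n, hn⟩ := e 1
    exact ⟨Complex.ext
      (key _ _ m ((abs_re_le_norm _).trans_lt h) ((abs_re_le_norm _).trans_lt h')
        (by simp only [wz]; linarith))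
      (key _ _ n ((abs_im_le_norm _).trans_lt h) ((abs_im_le_norm _).trans_lt h')
        (by simp only [wz]; linarith)), e 2⟩
  · rintro ⟨e, hm⟩ i
    have h1 := congrArg re e
    have h2 := congrArg im e
    simp only [wz, sub_left_inj] at h1 h2
    fin_cases i
    exacts [⟨0, by simp [h1]⟩, ⟨0, by simp [h2]⟩, hm]

/-- the reflection that exchanges the two charts -/
def fl (p : Rn 3 × ℝ) : Rn 3 × ℝ := (![p.1 0, p.1 1, -p.1 2], 2 - p.2)

theorem fl_fl (p : Rn 3 × ℝ) : fl (fl p) = p :=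
  Prod.ext (funext fun i => by fin_cases i <;> simp [fl]) (by simp [fl])

theorem fl_w (p : Rn 3 × ℝ) : wz (fl p).1 = wz p.1 := rfl

theorem lo_eq (p : Rn 3 × ℝ) : lo p = (up (fl p)).swap := by
  have e1 : (fl p).2 - 1 = 1 - p.2 := by simp only [fl]; ring
  have e2 : (((fl p).1 2 : ℝ) : ℂ) * I = -(p.1 2 * I) := by simp [fl]
  simp only [lo, up, fl_w, e1, e2, Prod.swap_prod_mk]

theorem fl_mem (h : p ∈ Dlo) : fl p ∈ D0 := fun hw => by
  have := h.2.2 hw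
  simp only [fl]; linarith

theorem fl_sm : ContDiff ℝ ∞ fl := by
  refine ContDiff.prodMk (contDiff_pi.2 fun i => ?_) (by fun_prop)
  fin_cases i <;> simp <;> fun_prop

theorem fl_ld (p : Rn 3 × ℝ) : LDAt (vs (Rn 3 × ℝ)) (vs (Rn 3 × ℝ)) fl p :=
  ldAt_of_inv (X := vs (Rn 3 × ℝ)) (Y := vs (Rn 3 × ℝ)) isOpen_univ isOpen_univ trivial
    (fun _ _ => smAt_vs.2 fl_sm.contDiffAt) (fun _ _ => smAt_vs.2 fl_sm.contDiffAt)
    (mapsTo_univ _ _) (mapsTo_univ _ _) (fun q _ => fl_fl q) fun q _ => fl_fl q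

theorem rho_swap (z : ℂ × ℂ) : rho z.swap = -rho z := by simp [rho]

theorem lo_rho (h : p ∈ Dlo) : rho (lo p) = p.2 - 1 := by
  rw [lo_eq, rho_swap, up_rho (fl_mem h)]; simp only [fl]; ring

theorem lo_mul (h : p ∈ Dlo) : (lo p).1 * (lo p).2 = wz p.1 := by
  rw [lo_eq, mul_comm]; exact up_mul (fl_mem h)

theorem op2 : IsOpen {p : Rn 3 × ℝ | p.1 ∈ Dsc ∧ 1 / 2 < p.2} :=
  (isOpen_lt (wz_sm.continuous.comp continuous_fst).norm continuous_const).inter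
    (isOpen_lt continuous_const continuous_snd)

end NutP

open NutP in
theorem nut : NutStmt where
  opN := (isOpen_lt (continuous_fst.mul continuous_snd).norm continuous_const).inter
    (isOpen_lt continuous_const rho_sm.continuous)
  opU := (show Dup = {p | p.1 ∈ Dsc ∧ 1 / 2 < p.2} ∩ D0 from Set.ext fun _ => and_assoc.symm) ▸
    op2.inter D0_op
  opL := by
    have : Dlo = {p | p.1 ∈ Dsc ∧ 1 / 2 < p.2} ∩ fl ⁻¹' D0 := by
      ext p
      refine ⟨fun h => ⟨⟨h.1, h.2.1⟩, fl_mem h⟩, fun h => ⟨h.1.1, h.1.2, fun hw => ?_⟩⟩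
      have := h.2 hw
      simp only [fl] at this; linarith
    exact this ▸ op2.inter (D0_op.preimage fl_sm.continuous)
  star := fun z hz a b _ hb hab => by
    have h1 : b ^ 2 ≤ 1 := by nlinarith
    have e1 : ‖(b • z).1 * (b • z).2‖ = b ^ 2 * ‖z.1 * z.2‖ := by
      simp [abs_of_nonneg hb]; ring
    have e2 : rho (b • z) = b ^ 2 * rho z := by simp [rho, mul_pow]; ring
    rw [smul_zero, zero_add]
    refine ⟨e1 ▸ (mul_le_of_le_one_left (norm_nonneg _) h1).trans_lt hz.1, ?_⟩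
    rw [e2]
    rcases le_total 0 (rho z) with h | h
    · linarith [mul_nonneg (sq_nonneg b) h]
    · nlinarith [hz.2, mul_nonneg (sub_nonneg.2 h1) (neg_nonneg.2 h)]
  starL := fun p hp a b ha hb hab => by
    obtain rfl : a = 1 - b := by linarith
    have e : wz ((1 - b) • ((![3 * π / 2, π / 2, 0] : Rn 3), (3 / 4 : ℝ)) + b • p).1 =
        b * wz p.1 := by apply Complex.ext <;> simp [wz] <;> ring
    have e2 : ((1 - b) • ((![3 * π / 2, π / 2, 0] : Rn 3), (3 / 4 : ℝ)) + b • p).2 =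
        (1 - b) * (3 / 4) + b * p.2 := rfl
    refine ⟨?_, ?_, fun hw => ?_⟩
    · rw [Dsc, mem_ofPred_eq, e, norm_mul, norm_real, Real.norm_of_nonneg hb]
      exact (mul_le_of_le_one_left (norm_nonneg _) (by linarith)).trans_lt hp.1
    · rw [e2]
      rcases hb.eq_or_lt with rfl | h
      · norm_num
      · nlinarith [mul_lt_mul_of_pos_left hp.2.1 h]
    · rw [e, mul_eq_zero, ofReal_eq_zero] at hw
      rw [e2]
      rcases hw with rfl | hw
      · norm_num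
      · rcases hb.eq_or_lt with rfl | h
        · norm_num
        · nlinarith [mul_lt_mul_of_pos_left (hp.2.2 hw) h]
  ldu := fun p hp => up_ld hp.2.2
  ldl := fun p hp => (((fl_ld p).trans (up_ld (fl_mem hp))).trans
    (ldAt_cle (ContinuousLinearEquiv.prodComm ℝ ℂ ℂ) _)).congr' (.of_forall lo_eq)
  memu := fun p hp => ⟨⟨up_mul hp.2.2 ▸ hp.1, by rw [up_rho hp.2.2]; linarith [hp.2.1]⟩,
    up_ne hp.2.2, up_mul hp.2.2, up_rho hp.2.2⟩
  meml := fun p hp => ⟨⟨lo_mul hp ▸ hp.1, by rw [lo_rho hp]; linarith [hp.2.1]⟩,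
    lo_eq p ▸ up_ne (fl_mem hp), lo_mul hp, lo_rho hp⟩
  equ := fun p hp p' hp' => by rw [up_eq hp.2.2 hp'.2.2, lat_iff hp.1 hp'.1, and_assoc]
  eql := fun p hp p' hp' => by
    rw [lo_eq, lo_eq, Prod.swap_inj, up_eq (fl_mem hp) (fl_mem hp'), lat_iff hp.1 hp'.1, and_assoc]
    refine and_congr Iff.rfl (and_congr ⟨?_, ?_⟩ sub_right_inj) <;> rintro ⟨m, hm⟩ <;>
      refine ⟨-m, ?_⟩ <;> simp [fl] at hm ⊢ <;> linarith
  suru := fun z hz h => ⟨dn 0 z, ⟨(congrArg norm (dn_w 0 z)).trans_lt hz.1,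
    by simp only [dn]; linarith [hz.2], dn_mem 0 h⟩, up_dn 0 h⟩
  surl := fun z hz h => by
    refine ⟨fl (dn 0 z.swap), ⟨?_, ?_, fun hw => ?_⟩, by rw [lo_eq, fl_fl, up_dn 0 h]; rfl⟩
    · rw [Dsc, mem_ofPred_eq, fl_w, dn_w, mul_comm]; exact hz.1
    · simp only [fl, dn, rho_swap]; linarith [hz.2]
    · have := dn_mem 0 (z := z.swap) h hw
      simp only [fl]; linarith
  ul := fun p hw θ hθ => by
    have h1 : 0 < rr (wz p.1) (p.2 - 1) := rr_pos fun h => (hw h).elim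
    have h2 : 0 < rr (wz p.1) (1 - p.2) := rr_pos fun h => (hw h).elim
    have h3 := rr_mul (wz p.1) (p.2 - 1)
    rw [neg_sub] at h3
    have e : (rr (wz p.1) (p.2 - 1) * exp (p.1 2 * I)) *
        (rr (wz p.1) (1 - p.2) * exp (-((p.1 2 - θ : ℝ) * I))) = wz p.1 := by
      rw [mul_mul_mul_comm, ← ofReal_mul, h3, ← exp_add]
      refine Eq.trans ?_ hθ.symm
      congr 2
      push_cast; ring
    exact Prod.ext (eq_div_of_mul_eq (mul_ne_zero (ofReal_ne_zero.2 h2.ne') (exp_ne_zero _)) e)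
      ((div_eq_iff (mul_ne_zero (ofReal_ne_zero.2 h1.ne') (exp_ne_zero _))).2
        (e.symm.trans (mul_comm _ _)))
  cpt := fun a b => by
    refine (isCompact_closedBall (0 : ℂ × ℂ) (2 + b ^ 2 + 4 * a ^ 2)).of_isClosed_subset
      ((isClosed_le (continuous_fst.mul continuous_snd).norm continuous_const).inter
        (isClosed_le rho_sm.continuous.abs continuous_const)) fun z hz => ?_
    have h1 : ‖z.1 * z.2‖ ^ 2 ≤ a ^ 2 := pow_le_pow_left₀ (norm_nonneg _) hz.1 2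
    have h2 : rho z ^ 2 ≤ b ^ 2 := sq_abs (rho z) ▸ pow_le_pow_left₀ (abs_nonneg _) hz.2 2
    have h3 : (‖z.1‖ ^ 2 + ‖z.2‖ ^ 2) ^ 2 ≤ b ^ 2 + 4 * a ^ 2 := by
      rw [rho] at h2; rw [norm_mul] at h1; nlinarith
    rw [mem_closedBall_zero_iff, Prod.norm_def, max_le_iff]
    constructor <;> nlinarith [sq_nonneg (‖z.1‖ - 1), sq_nonneg (‖z.2‖ - 1), sq_nonneg ‖z.1‖,
      sq_nonneg ‖z.2‖, sq_nonneg (‖z.1‖ ^ 2 + ‖z.2‖ ^ 2 - 1)]

end Pool.Agent.MP_e1dc65_gt.EA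

end
end MrgPart1

-- ======== part 2: formerly Pool.Agent.MP_e1dc65_gt.e.aCfe
section MrgPart2

/-! PROJECT HC, part E-A, row CFE: the coframe on the column and on the end. -/

open scoped ContDiff Manifold Topology Matrix Real
open Set Filter Function Module Pool.Agent.MP_c8d41b_gt.GF

noncomputable section

namespace Pool.Agent.MP_e1dc65_gt.EA

namespace CfeP

theorem chain {E : Type} [NormedAddCommGroup E] [NormedSpace ℝ E] {Y : Mf E} {F : Mf (Rn 3)}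
    {Z : Mf E4} {n : F.cyl → Z} {f : Y → F} {g : Y → ℝ} {h : Y → Z} {y : Y} (hf : SmAt Y F f y)
    (hg : SmAt Y (vs ℝ) g y) (hn : SmAt F.cyl Z n (f y, g y))
    (e : h =ᶠ[𝓝 y] fun y => n (f y, g y)) (v : E) :
    Df Y Z h y v = Df F.cyl Z n (f y, g y) (Df Y F f y v, Df Y (vs ℝ) g y v) := by
  rw [Df_congr e, Df_comp (Y := F.cyl) (hf.pair hg) hn, Df_pair hf hg]
  rfl

theorem int_zero {m : ℤ} {a : ℝ} (e : a = 2 * π * m) (h : |a| < 6) : a = 0 := by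
  have h3 := Real.pi_gt_three
  have : |(m : ℝ)| < 1 := by
    rw [e, abs_mul, abs_of_pos (by positivity)] at h
    nlinarith [abs_nonneg (m : ℝ)]
  have : m = 0 := Int.abs_lt_one_iff.1 (by exact_mod_cast this)
  simp [e, this]

theorem main_of {z : Rn 3} (h : 2 < z 0 ∧ z 0 < 6 ∧ 0 < z 1 ∧ z 1 < 9 / 2) : z ∈ MainI I01 := by
  have h3 := Real.pi_gt_d2
  have h4 := Real.pi_lt_d2
  obtain ⟨a, b, c, d⟩ := h
  rintro i hi ⟨z', hl, h1, -⟩
  fin_cases i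
  · obtain ⟨m, hm⟩ := hl 1
    have h2 : |z' 1 - 3 * π / 2| ≤ 1 / 10 := h1
    rw [abs_le] at h2
    linarith [int_zero hm (abs_lt.2 ⟨by linarith, by linarith⟩)]
  · obtain ⟨m, hm⟩ := hl 0
    have h2 : |z' 0 - π / 2| ≤ 1 / 10 := h1
    rw [abs_le] at h2
    linarith [int_zero hm (abs_lt.2 ⟨by linarith, by linarith⟩)]
  · exact hi rfl

theorem dsc_bd {z : Rn 3} (h : z ∈ Dsc) : |z 0 - 3 * π / 2| ≤ ‖wz z‖ ∧ |z 0 - 3 * π / 2| < 1 ∧
    |z 1 - π / 2| < 1 :=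
  ⟨(wz z).abs_re_le_norm, (wz z).abs_re_le_norm.trans_lt h, (wz z).abs_im_le_norm.trans_lt h⟩

theorem dsc_open : IsOpen Dsc :=
  isOpen_lt (continuous_norm.comp (Complex.equivRealProdCLM.symm.continuous.comp
    (f := fun z : Rn 3 => (z 0 - 3 * π / 2, z 1 - π / 2)) (by fun_prop))) continuous_const

theorem not_core {A : MA} (hA : A.Ok) {x : A.X} (h : 1 / 2 < A.del x) : x ∉ A.core := by
  rintro ⟨z, hz, rfl⟩
  have hz' : wz z = 0 := hz
  rw [hA.del0 z (by simp [Dsc, hz']), hz', norm_zero] at h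
  linarith

end CfeP

open CfeP

theorem cfe : CfeStmt := by
  intro hN A T τ ϑ B Θ F j k n hA hT hτ hϑ hΘ hL hE
  have h3 := Real.pi_gt_d2
  have h4 := Real.pi_lt_d2
  refine ⟨fun p hp t v r => ?_, ?_⟩
  · let ψ : Rn 3 × ℝ → Rn 3 := fun p => ![π + p.1 0, π + p.1 1, p.2]
    let L : Rn 3 × ℝ →L[ℝ] Rn 3 := LinearMap.toContinuousLinearMap
      { toFun := fun p => ![p.1 0, p.1 1, p.2]
        map_add' := fun p q => by ext i; fin_cases i <;> simp
        map_smul' := fun c p => by ext i; fin_cases i <;> simp }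
    have e : ψ = fun p => ![π, π, 0] + L p := by
      funext p i; fin_cases i <;> simp [ψ, L]
    have hψ : ContDiffAt ℝ ∞ ψ p := e ▸ contDiffAt_const.add L.contDiff.contDiffAt
    have dψ : fderiv ℝ ψ p = L := by rw [e, fderiv_const_add, L.fderiv]
    obtain ⟨p0, p1⟩ := hp
    rw [abs_lt] at p0 p1
    have hs : 2 < ψ p 0 ∧ ψ p 0 < 6 ∧ 0 < ψ p 1 ∧ ψ p 1 < 9 / 2 := by
      simp only [ψ, Matrix.cons_val_zero, Matrix.cons_val_one]
      refine ⟨?_, ?_, ?_, ?_⟩ <;> linarith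
    have hd : 1 / 2 < A.del (A.e₀ (ψ p)) := by
      rcases hA.del1 (A.e₀ (ψ p)) with h | ⟨z, hz, h⟩
      · linarith
      · obtain ⟨a, b, c⟩ := dsc_bd hz
        rw [abs_lt] at b c
        obtain ⟨m, hm⟩ := (hA.tw.eq0 z (main_of ⟨by linarith, by linarith, by linarith,
          by linarith⟩) _ (main_of hs)).1 h 0
        have h5 : ψ p 0 = π + p.1 0 := rfl
        have := int_zero hm (abs_lt.2 ⟨by linarith, by linarith⟩)
        rw [← h, hA.del0 z hz]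
        linarith [neg_abs_le (z 0 - 3 * π / 2)]
    have hU : ((A.e₀ (ψ p), p.1 2) : A.X.cyl) ∈ A.U := fun h => (not_core hA hd h).elim
    have s0 := (hA.tw.ld0 _ (main_of hs)).sm
    let P : Rn 3 × ℝ →L[ℝ] ℝ := (ContinuousLinearMap.proj 2).comp (ContinuousLinearMap.fst ℝ _ _)
    have c := chain (Y := vs (Rn 3 × ℝ)) (f := fun p => A.e₀ (ψ p)) (g := P) (h := T.c)
      ((smAt_vs.2 hψ).trans s0) (smAt_vs.2 P.contDiff.contDiffAt) (hT.oi.sm _ hU)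
      EventuallyEq.rfl v
    rw [Df_comp (Y := vs (Rn 3)) (smAt_vs.2 hψ) s0, Df_vs, Df_vs, dψ, P.fderiv] at c
    rw [c]
    refine (hΘ.Θi _ hU (.inr hd) t _ r).trans ?_
    simp only [ContinuousLinearMap.comp_apply, hτ.std _ (.inl hs)]
    rfl
  have hn : ∀ m a, 2 < a → LDAt F.cyl T.Qt n (m, a) := fun m a ha => hE.noe.ld _ ⟨trivial, ha⟩
  have key : ∀ m, ∃ L : Rn 3 → Rn 3, ∀ a, 2 < a → ∀ t v r,
      Θ (n (m, a), t) (Df F.cyl T.Qt n (m, a) v, r) = ![L v.1 0, L v.1 1, L v.1 2, v.2, r] := by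
    have hk : ∀ z ∈ Dsc, ∃ L : Rn 3 → Rn 3, ∀ a, 2 < a → ∀ t v r,
        Θ (n (k z, a), t) (Df F.cyl T.Qt n (k z, a) v, r) =
          ![L v.1 0, L v.1 1, L v.1 2, v.2, r] := fun z hz => by
      obtain ⟨M, hM⟩ := (hL.kld z hz).inv
      refine ⟨fun u => B z (M.symm u), fun a ha t ⟨u, c⟩ r => ?_⟩
      obtain ⟨u, rfl⟩ := M.surjective u
      have hD : (z, a) ∈ Dup := ⟨hz, by linarith, fun _ => by linarith⟩
      obtain ⟨m1, m2, -⟩ := hN.memu _ hD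
      have f1 : SmAt (vs (Rn 3 × ℝ)) (vs (Rn 3)) Prod.fst (z, a) := smAt_vs.2 contDiffAt_fst
      have c1 := chain (Y := vs (Rn 3 × ℝ)) (f := fun p => k p.1) (g := Prod.snd)
        (h := fun p => T.nut (up p)) (y := (z, a)) (f1.trans (hL.kld z hz).sm)
        (smAt_vs.2 contDiffAt_snd) (hn _ a ha).sm (by
          filter_upwards [(dsc_open.prod isOpen_Ioi).mem_nhds (⟨hz, ha⟩ : (z, a) ∈ Dsc ×ˢ Ioi 2)]
            with q hq using (hE.nk _ hq.1 _ hq.2).symm) (u, c)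
      rw [Df_comp (Y := vs (Rn 3)) f1 (hL.kld z hz).sm, Df_vs, Df_vs, fderiv_fst, fderiv_snd, ← hM,
        Df_comp (Y := vs (ℂ × ℂ)) (hN.ldu _ hD).sm (hT.onu.sm _ m1), Df_vs] at c1
      have c2 := hΘ.Θn _ ⟨m1, fun h => m2 (congrArg Prod.fst h)⟩ t (fderiv ℝ up (z, a) (u, c)) r
      rw [hϑ.up _ hD ha.le] at c2
      simp only [M.symm_apply_apply, hE.nk z hz a ha]
      exact (congrArg (fun w => Θ (T.nut (up (z, a)), t) (w, r)) c1).symm.trans c2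
    intro m
    rcases hL.cov m with ⟨x, hx, rfl⟩ | ⟨z, hz, rfl⟩
    · by_cases hd : 1 / 2 < A.del x
      · obtain ⟨M, hM⟩ := (hL.oj.ld x hx).inv
        refine ⟨fun u => τ x (M.symm u), fun a ha t ⟨u, c⟩ r => ?_⟩
        obtain ⟨u, rfl⟩ := M.surjective u
        have c1 := chain (Y := A.X.cyl) (f := fun p => j p.1) (g := Prod.snd) (h := T.io)
          (y := (x, a)) (smAt_fst.trans (hL.oj.sm x hx)) smAt_snd (hn _ a ha).sm (by
            filter_upwards [(hL.oj.op.prod isOpen_Ioi).mem_nhds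
              (⟨hx, ha⟩ : (x, a) ∈ A.coreᶜ ×ˢ Ioi (2 : ℝ))]
              with q hq using (hE.nj _ hq.1 _ hq.2).symm) (u, c)
        rw [Df_comp (X := A.X.cyl) smAt_fst (hL.oj.sm x hx), Df_fst, Df_snd, ← hM] at c1
        have c2 := hΘ.Θi (x, a) (fun h => (hx h).elim) (.inr hd) t (u, c) r
        simp only [M.symm_apply_apply, hE.nj x hx a ha]
        exact (congrArg (fun w => Θ (T.io (x, a), t) (w, r)) c1).symm.trans c2
      · obtain ⟨z, hz, rfl⟩ := (hA.del1 x).resolve_left fun h => hd (by linarith)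
        have e1 : su (wz z).arg (su (-(wz z).arg) z) = z := by
          ext i; fin_cases i <;> simp [su]
        have := hL.rel (su (-(wz z).arg) z) hz (fun h => hx ⟨z, h, rfl⟩) (wz z).arg
          (Complex.norm_mul_exp_arg_mul_I (wz z)).symm
        rw [e1] at this
        exact this ▸ hk _ hz
    · exact hk z (by simp [Dsc, hz])
  choose L hL' using key
  let P : Rn 5 →L[ℝ] Rn 3 := ContinuousLinearMap.pi fun i => ContinuousLinearMap.proj (![0, 1, 2] i)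
  let φ : F → T.Qt.cyl := fun m => (n (m, 3), 0)
  have s1 : ∀ m, SmAt F F.cyl (fun m => (m, 3)) m := fun m => smAt_id.pair (smAt_const _)
  have s2 : ∀ m, SmAt F T.Qt (fun m => n (m, 3)) m := fun m =>
    (s1 m).trans (hn m 3 (by norm_num)).sm
  have dφ : ∀ m u, Df F T.Qt.cyl φ m u = (Df F.cyl T.Qt n (m, 3) (u, 0), 0) := fun m u => by
    have := chain (Y := F) (f := fun m => m) (g := fun _ => 3) smAt_id (smAt_const _)
      (hn m 3 (by norm_num)).sm EventuallyEq.rfl u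
    rw [Df_pair (Z := vs ℝ) (s2 m) (smAt_const _)]
    simpa using this
  have e1 : ∀ m u, P (Θ (φ m) (Df F T.Qt.cyl φ m u)) = L m u := fun m u => by
    rw [dφ, hL' m 3 (by norm_num)]
    ext i; fin_cases i <;> rfl
  have hφ : ∀ m, φ m ∈ ({T.nut 0, T.σ (T.nut 0)}ᶜ ×ˢ univ : Set T.Qt.cyl) := fun m => by
    have h0 := hT.sn 0 (by simp [Np, rho]; norm_num)
    have h1 := hE.ns m 3 (by norm_num)
    refine ⟨?_, trivial⟩
    rintro (h | h) <;> rw [show n (m, 3) = _ from h] at h1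
    · simp [h0, rho] at h1
    · rw [hT.sσ, h0] at h1
      simp [rho] at h1
      linarith
  refine ⟨fun m => P.comp ((Θ (φ m)).comp (Df F T.Qt.cyl φ m)), fun m _ => ⟨((hΘ.cof _ (hφ m)).1.pb
    ((s2 m).pair (smAt_const _))).ccomp P, ?_⟩, fun m a ha t v r => ?_⟩
  · have hi : Injective (P.comp ((Θ (φ m)).comp (Df F T.Qt.cyl φ m))) :=
      (injective_iff_map_eq_zero _).2 fun u hu => by
        obtain ⟨M, hM⟩ := (hΘ.cof _ (hφ m)).2
        obtain ⟨N, hN'⟩ := (hn m 3 (by norm_num)).inv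
        have h1 := hL' m 3 (by norm_num) 0 (u, 0) 0
        have h2 : L m u = 0 := (e1 m u).symm.trans hu
        rw [h2, ← hN', show Θ (n (m, 3), 0) = _ from hM.symm] at h1
        have h3 : M (N (u, 0), 0) = 0 := h1.trans (by ext i; fin_cases i <;> rfl)
        exact congrArg Prod.fst (N.map_eq_zero_iff.1 (congrArg Prod.fst (M.map_eq_zero_iff.1 h3)))
    exact ⟨(LinearEquiv.ofInjectiveEndo _ hi).toContinuousLinearEquiv, rfl⟩
  · simp only [ContinuousLinearMap.comp_apply, e1, hL' m a ha]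

end Pool.Agent.MP_e1dc65_gt.EA

end
end MrgPart2

-- ======== part 3: formerly Pool.Agent.MP_e1dc65_gt.e.Pi
section MrgPart3

/-! PROJECT HC, part E: tools for fundamental groups (unions, sections along etale maps, removal of
thin sets and of fat tubes). -/

open scoped Topology unitInterval
open Set Filter Function

noncomputable section

namespace Pool.Agent.MP_e1dc65_gt

section Top
variable {X Y Z : Type} [TopologicalSpace X] [TopologicalSpace Y] [TopologicalSpace Z] {G : Type}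
  [Group G] {T S A W : Set X} {τ : ∀ x y : X, Path x y → G}

/-! ### unions -/

/-- locality with neighbourhoods relative to the set -/
theorem Hol.par_of_within (h : Hol T τ) (hS : S ⊆ T) {s : X → G}
    (hl : ∀ x ∈ S, ∃ V ∈ 𝓝[S] x, Par τ V s) : Par τ S s := by
  refine h.par_of_local hS fun x hx => ?_
  obtain ⟨V, hV, hp⟩ := hl x hx
  obtain ⟨O, hO, hs⟩ := mem_nhdsWithin_iff_exists_mem_nhds_inter.1 hV
  exact ⟨O, hO, hp.mono fun y hy => hs ⟨hy.2, hy.1⟩⟩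

/-- sections that agree on overlaps glue -/
theorem Hol.par_glue {ι : Type} (h : Hol T τ) (hW : W ⊆ T) {U : ι → Set X} {s : ι → X → G}
    (hc : ∀ x ∈ W, ∃ i, U i ∈ 𝓝[W] x) (hp : ∀ i, Par τ (U i) (s i))
    (he : ∀ i j, ∀ x ∈ U i, x ∈ U j → s i x = s j x) :
    ∃ r, Par τ W r ∧ ∀ i, EqOn r (s i) (U i) := by
  classical
  let r : X → G := fun x => if hx : ∃ i, x ∈ U i then s hx.choose x else 1
  have e : ∀ i, EqOn r (s i) (U i) := fun i x hx => by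
    have h1 : ∃ i, x ∈ U i := ⟨i, hx⟩
    simp only [r, dif_pos h1]
    exact he _ _ x h1.choose_spec hx
  refine ⟨r, h.par_of_within hW fun x hx => ?_, e⟩
  obtain ⟨i, hi⟩ := hc x hx
  exact ⟨U i, hi, (hp i).congr (e i)⟩

/-- UNION, relative form: the section on `A` extends -/
theorem Hol.par_union {ι : Type} (h : Hol T τ) (hW : W ⊆ T) {B : ι → Set X}
    (hc : ∀ x ∈ W, A ∈ 𝓝[W] x ∨ ∃ i, B i ∈ 𝓝[W] x) (hd : ∀ i j, i ≠ j → B i ∩ B j ⊆ A)
    (hj : ∀ i, ∀ x ∈ A ∩ B i, ∀ y ∈ A ∩ B i, JoinedIn (A ∩ B i) x y) {s : X → G} (hs : Par τ A s)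
    (hB : ∀ i, Triv τ (B i)) : ∃ r, Par τ W r ∧ EqOn r s A := by
  have key : ∀ i, ∃ r, Par τ (B i) r ∧ ∀ x ∈ A ∩ B i, r x = s x := by
    intro i
    rcases (A ∩ B i).eq_empty_or_nonempty with h0 | ⟨x, hx⟩
    · obtain ⟨r, hr⟩ := hB i
      exact ⟨r, hr, fun x hx => by rw [h0] at hx; exact hx.elim⟩
    · obtain ⟨r, hr, e⟩ := (hB i).exists_val x (s x)
      exact ⟨r, hr, fun y hy => (hs.mono inter_subset_left).eq_of_joined
        (hr.mono inter_subset_right) (hj i x hx y hy) e⟩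
  choose r hr e using key
  obtain ⟨u, hu, eu⟩ := h.par_glue hW (ι := Option ι) (U := fun o => o.elim A B)
    (s := fun o => o.elim s r) (fun x hx => (hc x hx).elim (fun h1 => ⟨none, h1⟩)
      fun ⟨i, h1⟩ => ⟨some i, h1⟩) (by rintro (_ | i); exacts [hs, hr i]) (by
      rintro (_ | i) (_ | j) x h1 h2
      · rfl
      · exact (e j x ⟨h1, h2⟩).symm
      · exact e i x ⟨h2, h1⟩
      · by_cases hij : i = j
        · rw [hij]
        · have hA := hd i j hij ⟨h1, h2⟩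
          exact (e i x ⟨hA, h1⟩).trans (e j x ⟨hA, h2⟩).symm)
  exact ⟨u, hu, eu none⟩

/-- UNION -/
theorem Hol.triv_union {ι : Type} (h : Hol T τ) {B : ι → Set X} (hA : IsOpen A)
    (hB : ∀ i, IsOpen (B i)) (hAT : A ⊆ T) (hBT : ∀ i, B i ⊆ T)
    (hd : ∀ i j, i ≠ j → B i ∩ B j ⊆ A)
    (hj : ∀ i, ∀ x ∈ A ∩ B i, ∀ y ∈ A ∩ B i, JoinedIn (A ∩ B i) x y) (tA : Triv τ A)
    (tB : ∀ i, Triv τ (B i)) : Triv τ (A ∪ ⋃ i, B i) := by
  obtain ⟨s, hs⟩ := tA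
  obtain ⟨r, hr, -⟩ := h.par_union (W := A ∪ ⋃ i, B i) (union_subset hAT (iUnion_subset hBT))
    (fun x hx => hx.elim (fun h1 => Or.inl (mem_nhdsWithin_of_mem_nhds (hA.mem_nhds h1)))
      fun h1 => let ⟨i, hi⟩ := mem_iUnion.1 h1
        Or.inr ⟨i, mem_nhdsWithin_of_mem_nhds ((hB i).mem_nhds hi)⟩) hd hj hs tB
  exact ⟨r, hr⟩

theorem Hol.triv_union₂ (h : Hol T τ) {B : Set X} (hA : IsOpen A) (hB : IsOpen B) (hAT : A ⊆ T)
    (hBT : B ⊆ T) (hj : IsPathConnected (A ∩ B)) (tA : Triv τ A) (tB : Triv τ B) :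
    Triv τ (A ∪ B) := by
  have := h.triv_union (ι := Unit) (B := fun _ => B) hA (fun _ => hB) hAT (fun _ => hBT)
    (fun _ _ hne => (hne rfl).elim) (fun _ x hx y hy => hj.joinedIn x hx y hy) tA fun _ => tB
  rwa [iUnion_const] at this

/-- two relatively open pieces -/
theorem Hol.triv_union_within (h : Hol T τ) {B : Set X} (hW : W ⊆ T)
    (hc : ∀ x ∈ W, A ∈ 𝓝[W] x ∨ B ∈ 𝓝[W] x)
    (hj : ∀ x ∈ A ∩ B, ∀ y ∈ A ∩ B, JoinedIn (A ∩ B) x y) (tA : Triv τ A) (tB : Triv τ B) :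
    Triv τ W := by
  obtain ⟨s, hs⟩ := tA
  obtain ⟨r, hr, -⟩ := h.par_union (ι := Unit) (B := fun _ => B) hW
    (fun x hx => (hc x hx).imp id fun h1 => ⟨(), h1⟩) (fun _ _ hne => (hne rfl).elim)
    (fun _ => hj) hs fun _ => tB
  exact ⟨r, hr⟩

theorem sc_of_triv (hc : IsPathConnected S)
    (h : ∀ (G : Type) [Group G] (τ : ∀ x y : X, Path x y → G), Hol S τ → Triv τ S) : SC S :=
  ⟨hc, (thin X S S subset_rfl).2 h⟩

theorem thin_of_triv (hS : S ⊆ T)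
    (h : ∀ (G : Type) [Group G] (τ : ∀ x y : X, Path x y → G), Hol T τ → Triv τ S) : Thin S T :=
  (thin X S T hS).2 h

theorem isPathConnected_union_iUnion {ι : Type} {B : ι → Set X} (hA : IsPathConnected A)
    (hB : ∀ i, IsPathConnected (B i)) (hn : ∀ i, (A ∩ B i).Nonempty) :
    IsPathConnected (A ∪ ⋃ i, B i) := by
  obtain ⟨x, hx, hj⟩ := hA
  refine ⟨x, Or.inl hx, fun y hy => hy.elim (fun h1 => (hj h1).mono subset_union_left) fun h1 => ?_⟩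
  obtain ⟨i, hi⟩ := mem_iUnion.1 h1
  obtain ⟨z, hz⟩ := hn i
  exact ((hj hz.1).mono subset_union_left).trans (((hB i).joinedIn z hz.2 y hi).mono
    ((subset_iUnion B i).trans subset_union_right))

theorem thin_union_iUnion {ι : Type} {B : ι → Set X} (hA : IsOpen A) (hB : ∀ i, IsOpen (B i))
    (hd : ∀ i j, i ≠ j → B i ∩ B j ⊆ A)
    (hj : ∀ i, ∀ x ∈ A ∩ B i, ∀ y ∈ A ∩ B i, JoinedIn (A ∩ B i) x y) (tA : Thin A T)
    (tB : ∀ i, Thin (B i) T) : Thin (A ∪ ⋃ i, B i) T :=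
  thin_of_triv (union_subset tA.subset (iUnion_subset fun i => (tB i).subset)) fun _ _ _ h =>
    h.triv_union hA hB tA.subset (fun i => (tB i).subset) hd hj (h.triv_of_thin tA)
      fun i => h.triv_of_thin (tB i)

theorem sc_union_iUnion {ι : Type} {B : ι → Set X} (hA : IsOpen A) (hB : ∀ i, IsOpen (B i))
    (hd : ∀ i j, i ≠ j → B i ∩ B j ⊆ A) (hj : ∀ i, IsPathConnected (A ∩ B i)) (tA : SC A)
    (tB : ∀ i, SC (B i)) : SC (A ∪ ⋃ i, B i) :=
  ⟨isPathConnected_union_iUnion tA.1 (fun i => (tB i).1) fun i => (hj i).nonempty,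
    thin_union_iUnion hA hB hd (fun i x hx y hy => (hj i).joinedIn x hx y hy)
      (tA.2.mono subset_rfl subset_union_left) fun i => (tB i).2.mono subset_rfl
        ((subset_iUnion B i).trans subset_union_right)⟩

/-- a path in a directed union of open sets lies in one of them -/
theorem in_directed {ι : Type} [Nonempty ι] {U : ι → Set X} (hU : ∀ i, IsOpen (U i))
    (hd : Directed (· ⊆ ·) U) {x y : X} {γ : Path x y} (h : In γ (⋃ i, U i)) : ∃ i, In γ (U i) := by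
  obtain ⟨i, hi⟩ := (isCompact_range γ.continuous).elim_directed_cover U hU
    (range_subset_iff.2 h) hd
  exact ⟨i, range_subset_iff.1 hi⟩

theorem Hol.triv_directed {ι : Type} [Nonempty ι] (h : Hol T τ) {U : ι → Set X}
    (hU : ∀ i, IsOpen (U i)) (hd : Directed (· ⊆ ·) U) (hT : ∀ i, U i ⊆ T)
    (ht : ∀ i, Triv τ (U i)) : Triv τ (⋃ i, U i) :=
  h.triv_of_loops (iUnion_subset hT) fun _ _ hγ =>
    let ⟨i, hi⟩ := in_directed hU hd hγ; (ht i).loop hi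

/-! ### sections along maps -/

/-- `s` is parallel for the pull-back of `τ` along `f` on `S` -/
def Up (τ : ∀ x y : X, Path x y → G) (f : Y → X) (S : Set Y) (s : Y → G) : Prop :=
  ∀ a b (γ : Path a b), In γ S → ∀ x y (δ : Path x y), (∀ t, δ t = f (γ t)) → s b = s a * τ x y δ

section Up
variable {f f' : Y → X} {U U' : Set Y} {s s' : Y → G}

theorem up_iff (hf : ContinuousOn f U) : Up τ f U s ↔ Par (pullT f hf τ) U s :=
  ⟨fun h a b γ hγ => by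
      rw [(pullT_pull f hf τ).eq hf hγ]; exact h a b γ hγ _ _ _ fun _ => rfl,
    fun h a b γ hγ x y δ e => by rw [h a b γ hγ, pullT_pull f hf τ a b γ hγ x y δ e]⟩
theorem Pull.up {μ : ∀ x y : Y, Path x y → G} (hp : Pull f U τ μ) (h : Par μ U s) : Up τ f U s :=
  fun a b γ hγ x y δ e => by rw [h a b γ hγ, hp a b γ hγ x y δ e]
theorem Up.par {μ : ∀ x y : Y, Path x y → G} (h : Up τ f U s) (hp : Pull f U τ μ)
    (hf : ContinuousOn f U) : Par μ U s := fun a b γ hγ => by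
  rw [hp.eq hf hγ]; exact h a b γ hγ _ _ _ fun _ => rfl
theorem Up.mono (h : Up τ f U s) (hU : U' ⊆ U) : Up τ f U' s :=
  fun a b γ hγ => h a b γ (hγ.mono hU)
theorem Up.const_mul (h : Up τ f U s) (g : G) : Up τ f U fun y => g * s y :=
  fun a b γ hγ x y δ e => by simp only [h a b γ hγ x y δ e, mul_assoc]
theorem Up.congr (h : Up τ f U s) (e : EqOn f' f U) (e' : EqOn s' s U) : Up τ f' U s' :=
  fun a b γ hγ x y δ hδ => by
    rw [e' hγ.source, e' hγ.target, h a b γ hγ x y δ fun t => (hδ t).trans (e (hγ t))]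
theorem Par.up {r : X → G} (h : Par τ S r) (hm : MapsTo f U S) : Up τ f U fun y => r (f y) := by
  intro a b γ hγ x y δ e
  obtain rfl : x = f a := by rw [← δ.source, e, γ.source]
  obtain rfl : y = f b := by rw [← δ.target, e, γ.target]
  exact h _ _ δ fun t => e t ▸ hm (hγ t)
theorem up_id {r : X → G} : Up τ (fun x => x) S r ↔ Par τ S r :=
  ⟨fun h a b γ hγ => h a b γ hγ a b γ fun _ => rfl, fun h => h.up (mapsTo_id S)⟩
/-- change of parameter -/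
theorem Up.comp (h : Up τ f U s) {k : Z → Y} {V : Set Z} (hk : ContinuousOn k V)
    (hm : MapsTo k V U) {f₁ : Z → X} (e : ∀ z ∈ V, f₁ z = f (k z)) :
    Up τ f₁ V fun z => s (k z) := fun _ _ γ hγ x y δ hδ =>
  h _ _ (push k hk γ hγ) (in_push hk hγ hγ hm) x y δ fun t => (hδ t).trans (e _ (hγ t))
/-- a section exists on a thin set -/
theorem Hol.exists_up (h : Hol T τ) (hf : ContinuousOn f U') (hm : MapsTo f U' T)
    (hU : Thin U U') : ∃ s, Up τ f U s := by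
  obtain ⟨s, hs⟩ := ((pullT_pull f hf τ).hol h hf hm).triv_of_thin hU
  exact ⟨s, ((pullT_pull f hf τ).mono hU.subset).up hs⟩
theorem Hol.exists_up_sc (h : Hol T τ) (hf : ContinuousOn f U) (hm : MapsTo f U T) (hU : SC U) :
    ∃ s, Up τ f U s := h.exists_up hf hm hU.2
theorem Up.exists_val (h : Up τ f U s) (y : Y) (g : G) : ∃ s, Up τ f U s ∧ s y = g :=
  ⟨_, h.const_mul (g * (s y)⁻¹), by simp⟩
theorem Up.diff (h : Up τ f U s) (h' : Up τ f U s') (hf : ContinuousOn f U) {a b : Y}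
    (hj : JoinedIn U a b) : s' b * (s b)⁻¹ = s' a * (s a)⁻¹ :=
  ((up_iff hf).1 h).diff ((up_iff hf).1 h') hj
theorem Up.eq_of_joined (h : Up τ f U s) (h' : Up τ f U s') (hf : ContinuousOn f U) {a b : Y}
    (hj : JoinedIn U a b) (e : s' a = s a) : s' b = s b :=
  ((up_iff hf).1 h).eq_of_joined ((up_iff hf).1 h') hj e
/-- two sections on a path connected set differ by a constant -/
theorem Up.exists_const (h : Up τ f U s) (h' : Up τ f U s') (hf : ContinuousOn f U)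
    (hU : IsPathConnected U) : ∃ g, ∀ y ∈ U, s' y = g * s y := by
  obtain ⟨a, ha, hj⟩ := hU
  exact ⟨s' a * (s a)⁻¹, fun y hy => by rw [← h.diff h' hf (hj hy), inv_mul_cancel_right]⟩
/-- monodromy of a map over `X` -/
theorem Up.monodromy (h : Up τ f U s) (hf : ContinuousOn f U) {k : Y → Y} (hU : U' ⊆ U)
    (hc : IsPathConnected U') (hk : ContinuousOn k U') (hm : MapsTo k U' U)
    (e : ∀ y ∈ U', f (k y) = f y) : ∃ g, ∀ y ∈ U', s (k y) = g * s y :=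
  (h.mono hU).exists_const (h.comp hk hm fun y hy => (e y hy).symm) (hf.mono hU) hc
/-- along a path whose image lies in a set with trivial holonomy and closes up -/
theorem Up.eq_of_triv (h : Up τ f U s) (ht : Triv τ S) (hf : ContinuousOn f U) (hU : U' ⊆ U)
    (hm : MapsTo f U' S) {a b : Y} (hj : JoinedIn U' a b) (e : f a = f b) : s b = s a := by
  obtain ⟨γ, hγ⟩ := hj
  have hγ' : In γ U := fun t => hU (hγ t)
  rw [h a b γ hγ' _ _ (push f hf γ hγ') fun _ => rfl, ht.loop' (in_push hf hγ' hγ hm) e, mul_one]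
theorem Hol.up_of_within (h : Hol T τ) (hf : ContinuousOn f U) (hm : MapsTo f U T)
    (hl : ∀ y ∈ U, ∃ V ∈ 𝓝[U] y, Up τ f V s) : Up τ f U s := by
  refine (up_iff hf).2 (((pullT_pull f hf τ).hol h hf hm).par_of_within subset_rfl fun y hy => ?_)
  obtain ⟨V, hV, hu⟩ := hl y hy
  exact ⟨V ∩ U, inter_mem hV self_mem_nhdsWithin, (hu.mono inter_subset_left).par
    ((pullT_pull f hf τ).mono inter_subset_right) (hf.mono inter_subset_right)⟩
/-- union upstairs -/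
theorem Hol.up_union (h : Hol T τ) (hf : ContinuousOn f U) (hm : MapsTo f U T) {A B : Set Y}
    (hA : A ⊆ U) (hB : B ⊆ U) (hc : ∀ y ∈ U, A ∈ 𝓝[U] y ∨ B ∈ 𝓝[U] y)
    (hj : ∀ x ∈ A ∩ B, ∀ y ∈ A ∩ B, JoinedIn (A ∩ B) x y) (uA : Up τ f A s) (uB : Up τ f B s') :
    ∃ r, Up τ f U r ∧ EqOn r s A := by
  have hp := pullT_pull f hf τ
  obtain ⟨r, hr, e⟩ := (hp.hol h hf hm).par_union (ι := Unit) (B := fun _ => B) subset_rfl
    (fun x hx => (hc x hx).imp id fun h1 => ⟨(), h1⟩) (fun _ _ hne => (hne rfl).elim)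
    (fun _ => hj) (uA.par (hp.mono hA) (hf.mono hA))
    fun _ => ⟨s', uB.par (hp.mono hB) (hf.mono hB)⟩
  exact ⟨r, hp.up hr, e⟩
/-- descent along one map -/
theorem Up.descend (hs : Up τ f U s) (h : Hol T τ) (hf : ContinuousOn f U) (hm : MapsTo f U T)
    (hl : LocSec f U) (hc : ∀ p ∈ U, ∀ q ∈ U, f p = f q → s p = s q) :
    ∃ r, Par τ (f '' U) r ∧ ∀ p ∈ U, r (f p) = s p :=
  (pullT_pull f hf τ).descend h hm hl ((up_iff hf).1 hs) hc
theorem Up.triv (hs : Up τ f U s) (h : Hol T τ) (hf : ContinuousOn f U) (hm : MapsTo f U T)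
    (hl : LocSec f U) (hc : ∀ p ∈ U, ∀ q ∈ U, f p = f q → s p = s q) : Triv τ (f '' U) :=
  let ⟨r, hr, _⟩ := hs.descend h hf hm hl hc; ⟨r, hr⟩
end Up

/-- descent along a family of charts with compatible sections -/
theorem Hol.par_of_charts {ι : Type} {Y : ι → Type} [∀ i, TopologicalSpace (Y i)] (h : Hol T τ)
    (hW : W ⊆ T) {f : ∀ i, Y i → X} {U : ∀ i, Set (Y i)} {s : ∀ i, Y i → G}
    (hf : ∀ i, ContinuousOn (f i) (U i)) (hm : ∀ i, MapsTo (f i) (U i) T)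
    (hl : ∀ i, LocSec (f i) (U i)) (hs : ∀ i, Up τ (f i) (U i) (s i))
    (hc : ∀ x ∈ W, ∃ i, f i '' U i ∈ 𝓝[W] x)
    (he : ∀ i j, ∀ p ∈ U i, ∀ q ∈ U j, f i p = f j q → s i p = s j q) :
    ∃ r, Par τ W r ∧ ∀ i, ∀ p ∈ U i, r (f i p) = s i p := by
  choose r hr e using fun i => (hs i).descend h (hf i) (hm i) (hl i) (he i i)
  obtain ⟨u, hu, eu⟩ := h.par_glue hW hc hr (by
    rintro i j _ ⟨p, hp, rfl⟩ ⟨q, hq, hpq⟩
    rw [e i p hp, ← hpq, e j q hq]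
    exact he i j p hp q hq hpq.symm)
  exact ⟨u, hu, fun i p hp => (eu i ⟨p, hp, rfl⟩).trans (e i p hp)⟩

/-- a homotopy carries a section from one end to the other -/
theorem Hol.up_homotopy (h : Hol T τ) {U : Set Y} {H : ℝ × Y → X}
    (hH : ContinuousOn H (Icc 0 1 ×ˢ U)) (hT : MapsTo H (Icc 0 1 ×ˢ U) T) {s : Y → G}
    (hs : Up τ (fun y => H (1, y)) U s) : ∃ s', Up τ (fun y => H (0, y)) U s' := by
  classical
  have hv : ∀ y ∈ U, Continuous fun t : I => H (t, y) := fun y hy =>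
    hH.comp_continuous (by fun_prop) fun t => ⟨t.2, hy⟩
  let si : ∀ y ∈ U, Path (H (0, y)) (H (1, y)) := fun y hy => ⟨⟨_, hv y hy⟩, by simp, by simp⟩
  refine ⟨fun y => if hy : y ∈ U then s y * (τ _ _ (si y hy))⁻¹ else 1, fun a b γ hγ x y δ e => ?_⟩
  have hm : ∀ p : I × I, ((p.2 : ℝ), γ p.1) ∈ Icc (0 : ℝ) 1 ×ˢ U := fun p => ⟨p.2.2, hγ _⟩
  have hc : Continuous fun p : I × I => H (p.2, γ p.1) := hH.comp_continuous (by fun_prop) hm
  let up : Path (H (1, a)) (H (1, b)) :=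
    ⟨⟨fun t => H (1, γ t), hc.comp (Continuous.prodMk_left 1)⟩, by simp, by simp⟩
  let bo : Path (H (0, a)) (H (0, b)) :=
    ⟨⟨fun t => H (0, γ t), hc.comp (Continuous.prodMk_left 0)⟩, by simp, by simp⟩
  have sq := h.square hc (fun p => hT (hm p)) (bo := bo) (ri := si b hγ.target)
    (le := si a hγ.source) (up := up) (fun t => rfl) (fun t => by simp [si]) (fun t => by simp [si])
    fun t => rfl
  simp only [dif_pos hγ.source, dif_pos hγ.target]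
  rw [hs a b γ hγ _ _ up fun _ => rfl, tau_congr τ (δ := bo) e, eq_mul_inv_of_mul_eq sq]
  group

/-- deformation, with the end map only known through its pull-back -/
theorem Hol.deform_up (h : Hol T τ) {H : ℝ × X → X} (hH : ContinuousOn H (Icc 0 1 ×ˢ S))
    (hT : MapsTo H (Icc 0 1 ×ˢ S) T) (h0 : ∀ x ∈ S, H (0, x) = x) {s : X → G}
    (hs : Up τ (fun x => H (1, x)) S s) : Triv τ S := by
  obtain ⟨r, hr⟩ := h.up_homotopy hH hT hs
  exact ⟨r, up_id.1 (hr.congr (fun x hx => (h0 x hx).symm) fun _ _ => rfl)⟩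

/-- a set onto which a simply connected set can be pushed -/
theorem SC.of_push (hS : SC S) (hW : W ⊆ S) {H : ℝ × X → X}
    (hH : ContinuousOn H (Icc 0 1 ×ˢ S)) (hT : MapsTo H (Icc 0 1 ×ˢ W) W)
    (h0 : ∀ x ∈ W, H (0, x) = x) (h1 : ∀ x ∈ S, H (1, x) ∈ W) : SC W := by
  have c1 : ContinuousOn (fun x => H (1, x)) S :=
    hH.comp (by fun_prop) fun x hx => ⟨right_mem_Icc.2 zero_le_one, hx⟩
  refine sc_of_triv ?_ fun G _ τ h => ?_
  · have hj : ∀ x ∈ W, JoinedIn W x (H (1, x)) := fun x hx =>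
      ⟨⟨⟨fun t => H (t, x), hH.comp_continuous (by fun_prop) fun t => ⟨t.2, hW hx⟩⟩,
        by simpa using h0 x hx, by simp⟩, fun t => hT ⟨t.2, hx⟩⟩
    obtain ⟨a, ha, hja⟩ := hS.1
    refine ⟨H (1, a), h1 a ha, fun y hy => JoinedIn.trans ?_ (hj y hy).symm⟩
    obtain ⟨γ, hγ⟩ := hja (hW hy)
    exact (in_push c1 hγ hγ h1).joined
  · obtain ⟨s, hs⟩ := h.exists_up_sc c1 h1 hS
    exact h.deform_up (hH.mono (prod_mono subset_rfl hW)) hT h0 (hs.mono hW)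

/-! ### removing thin sets -/

/-- `K` does not separate near `x` -/
def Cod2 (K : Set X) (x : X) : Prop :=
  ∀ O ∈ 𝓝 x, ∃ V, IsOpen V ∧ x ∈ V ∧ V ⊆ O ∧ IsPathConnected (V \ K)
/-- `K` has simply connected complement near `x` -/
def Cod3 (K : Set X) (x : X) : Prop := ∀ O ∈ 𝓝 x, ∃ V, IsOpen V ∧ x ∈ V ∧ V ⊆ O ∧ SC (V \ K)

theorem Cod3.cod2 {K : Set X} {x : X} (h : Cod3 K x) : Cod2 K x := fun O hO =>
  let ⟨V, a, b, c, d⟩ := h O hO; ⟨V, a, b, c, d.1⟩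

variable [LocallyPathConnectedSpace X] {U K : Set X}

theorem pc_diff (hU : IsOpen U) (hK : IsOpen (U \ K)) (hc : IsPathConnected U)
    (h : ∀ x ∈ U ∩ K, Cod2 K x) : IsPathConnected (U \ K) := by
  refine isPathConnected_diff hc.isConnected (fun x hx O hO => ?_) hU
  by_cases hxK : x ∈ K
  · exact h x ⟨hx, hxK⟩ O hO
  · obtain ⟨V, ⟨a, b, d⟩, c⟩ := (isOpen_isPathConnected_basis x).mem_iff.1
      (inter_mem hO (hK.mem_nhds ⟨hx, hxK⟩))
    refine ⟨V, a, b, fun y hy => (c hy).1, ?_⟩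
    rwa [show V \ K = V from sdiff_eq_left.2 (disjoint_left.2 fun y hy => (c hy).2.2)]

/-- triviality extends over a set of codimension two -/
theorem Hol.triv_over (h : Hol T τ) (hUT : U ⊆ T) (hU : IsOpen U) (hK : IsOpen (U \ K))
    (hc : ∀ x ∈ U ∩ K, Cod2 K x) (hl : ∀ x ∈ U, ∃ O ∈ 𝓝 x, Triv τ O) (ht : Triv τ (U \ K)) :
    Triv τ U := by
  obtain ⟨s, hs⟩ := ht
  obtain ⟨r, hr, -⟩ := (ext2 X G U K τ hU hK hc).1 (h.mono hUT) hl s hs
  exact ⟨r, hr⟩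

/-- a holonomy extends over a set of codimension three -/
theorem Hol.extend_over (h : Hol (U \ K) τ) (hU : IsOpen U) (hK : IsOpen (U \ K))
    (hc : ∀ x ∈ U ∩ K, Cod3 K x) (hl : ∀ x ∈ U \ K, ∃ O ∈ 𝓝 x, Triv τ O) :
    ∃ τ' : ∀ x y : X, Path x y → G, Hol U τ' ∧ ∀ x y γ, In γ (U \ K) → τ' x y γ = τ x y γ := by
  refine (ext2 X G U K τ hU hK fun x hx => (hc x hx).cod2).2 h fun x hx => ?_
  by_cases hxK : x ∈ K
  · obtain ⟨V, a, b, c, d⟩ := hc x ⟨hx, hxK⟩ U (hU.mem_nhds hx)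
    exact ⟨V, a.mem_nhds b, h.triv_of_sc d (sdiff_subset_sdiff_left c)⟩
  · obtain ⟨O, hO, t⟩ := hl x ⟨hx, hxK⟩
    exact ⟨O, hO, t.mono sdiff_subset⟩

end Top

section Man
variable {E E' : Type} [NormedAddCommGroup E] [NormedSpace ℝ E] [NormedAddCommGroup E']
  [NormedSpace ℝ E'] {X : Mf E} {Y : Mf E'} {G : Type} [Group G]

/-- holonomies on open subsets of manifolds are locally trivial -/
theorem Hol.loc_triv {T : Set X} {τ : ∀ x y : X, Path x y → G} (h : Hol T τ) {x : X}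
    (hx : T ∈ 𝓝 x) : ∃ O ∈ 𝓝 x, Triv τ O :=
  let ⟨V, a, b, c, d⟩ := X.exists_sc x hx; ⟨V, a.mem_nhds b, h.triv_of_sc d c⟩

theorem Hol.triv_over_mf {T U K : Set X} {τ : ∀ x y : X, Path x y → G} (h : Hol T τ) (hUT : U ⊆ T)
    (hU : IsOpen U) (hK : IsOpen (U \ K)) (hc : ∀ x ∈ U ∩ K, Cod2 K x) (ht : Triv τ (U \ K)) :
    Triv τ U :=
  h.triv_over hUT hU hK hc (fun _ hx => h.loc_triv (mem_of_superset (hU.mem_nhds hx) hUT)) ht

theorem Hol.extend_over_mf {U K : Set X} {τ : ∀ x y : X, Path x y → G} (h : Hol (U \ K) τ)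
    (hU : IsOpen U) (hK : IsOpen (U \ K)) (hc : ∀ x ∈ U ∩ K, Cod3 K x) :
    ∃ τ' : ∀ x y : X, Path x y → G, Hol U τ' ∧ ∀ x y γ, In γ (U \ K) → τ' x y γ = τ x y γ :=
  h.extend_over hU hK hc fun _ hx => h.loc_triv (hK.mem_nhds hx)

/-- thin sets stay thin after removing a set of codimension three -/
theorem Thin.diff {S U K : Set X} (h : Thin S U) (hU : IsOpen U) (hK : IsOpen (U \ K))
    (hc : ∀ x ∈ U ∩ K, Cod3 K x) : Thin (S \ K) (U \ K) := by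
  refine thin_of_triv (sdiff_subset_sdiff_left h.subset) fun G _ τ hτ => ?_
  obtain ⟨τ', h1, e⟩ := hτ.extend_over_mf hU hK hc
  exact ((h1.triv_of_thin h).mono sdiff_subset).congr_tau fun x y γ hγ =>
    (e x y γ (hγ.mono (sdiff_subset_sdiff_left h.subset))).symm

theorem SC.diff {U K : Set X} (h : SC U) (hU : IsOpen U) (hK : IsOpen (U \ K))
    (hc : ∀ x ∈ U ∩ K, Cod3 K x) : SC (U \ K) :=
  ⟨pc_diff hU hK h.1 fun x hx => (hc x hx).cod2, h.2.diff hU hK hc⟩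

/-- filling in a set of codimension two keeps simple connectivity -/
theorem SC.fill {U K : Set X} (h : SC (U \ K)) (hU : IsOpen U) (hK : IsOpen (U \ K))
    (hc : ∀ x ∈ U ∩ K, Cod2 K x) : SC U := by
  refine sc_of_triv ?_ fun G _ τ hτ =>
    hτ.triv_over_mf subset_rfl hU hK hc (hτ.triv_of_sc h sdiff_subset)
  obtain ⟨a, ha, hj⟩ := h.1
  refine ⟨a, ha.1, fun y hy => ?_⟩
  by_cases hyK : y ∈ K
  · obtain ⟨V₀, a₀, b₀, c₀, d₀⟩ := X.exists_sc y (hU.mem_nhds hy)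
    obtain ⟨V, -, -, c, z, hz, -⟩ := hc y ⟨hy, hyK⟩ V₀ (a₀.mem_nhds b₀)
    exact ((hj ⟨c₀ (c hz.1), hz.2⟩).mono sdiff_subset).trans
      ((d₀.1.joinedIn z (c hz.1) y b₀).mono c₀)
  · exact (hj ⟨hy, hyK⟩).mono sdiff_subset

/-! ### open embeddings and etale maps -/

variable {f : X → Y} {U S T : Set X}

theorem OE.contOn (h : OE X Y f U) : ContinuousOn f U := h.sm.contOn
theorem OE.contOn_inv (h : OE X Y f U) : ContinuousOn (invFunOn f U) (f '' U) := h.symm.sm.contOn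
theorem OE.locSec (h : OE X Y f U) (hS : S ⊆ U) : LocSec f S := by
  refine locSec_of_section (h.contOn_inv.mono (image_mono hS)) ?_
  rintro _ ⟨x, hx, rfl⟩
  rw [h.left (hS hx)]
  exact ⟨hx, rfl⟩
theorem OE.pc_image (h : OE X Y f U) (hS : S ⊆ U) (hc : IsPathConnected S) :
    IsPathConnected (f '' S) := hc.image' (h.contOn.mono hS)
theorem OE.thin_image (h : OE X Y f U) (hT : T ⊆ U) (ht : Thin S T) : Thin (f '' S) (f '' T) :=
  ht.image (h.contOn.mono hT) (mapsTo_image f T)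
    (h.contOn_inv.mono (image_mono (ht.subset.trans hT))) fun _ hx => h.left (hT (ht.subset hx))
theorem OE.sc_image (h : OE X Y f U) (hS : S ⊆ U) (hc : SC S) : SC (f '' S) :=
  ⟨h.pc_image hS hc.1, h.thin_image hS hc.2⟩
theorem OE.inv_image (h : OE X Y f U) (hS : S ⊆ U) : invFunOn f U '' (f '' S) = S :=
  h.inj.invFunOn_image hS
theorem OE.sc_of_image (h : OE X Y f U) (hS : S ⊆ U) (hc : SC (f '' S)) : SC S :=
  h.inv_image hS ▸ h.symm.sc_image (image_mono hS) hc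
theorem OE.pc_of_image (h : OE X Y f U) (hS : S ⊆ U) (hc : IsPathConnected (f '' S)) :
    IsPathConnected S := h.inv_image hS ▸ h.symm.pc_image (image_mono hS) hc
theorem OE.thin_of_image (h : OE X Y f U) (hS : S ⊆ U) (hT : T ⊆ U)
    (ht : Thin (f '' S) (f '' T)) : Thin S T := by
  have := h.symm.thin_image (image_mono hT) ht
  rwa [h.inv_image hS, h.inv_image hT] at this
/-- triviality passes to the image of an open embedding -/
theorem OE.triv_of_up (h : OE X Y f U) {W : Set Y} {τ : ∀ x y : Y, Path x y → G} (hτ : Hol W τ)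
    (hS : S ⊆ U) (hm : MapsTo f S W) {s : X → G} (hs : Up τ f S s) : Triv τ (f '' S) :=
  hs.triv hτ (h.contOn.mono hS) hm (h.locSec hS) fun _ hp _ hq e => by
    rw [h.inj (hS hp) (hS hq) e]
theorem OE.triv_image (h : OE X Y f U) {W : Set Y} {τ : ∀ x y : Y, Path x y → G} (hτ : Hol W τ)
    (hT : T ⊆ U) (hS : S ⊆ T) (hm : MapsTo f T W)
    (ht : ∀ μ : ∀ x y : X, Path x y → G, Hol T μ → Pull f T τ μ → Triv μ S) : Triv τ (f '' S) := by
  have hf := h.contOn.mono hT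
  obtain ⟨s, hs⟩ := ht _ ((pullT_pull f hf τ).hol hτ hf hm) (pullT_pull f hf τ)
  exact h.triv_of_up hτ (hS.trans hT) (hm.mono_left hS) (((pullT_pull f hf τ).mono hS).up hs)

theorem ld_contOn (h : ∀ x ∈ U, LDAt X Y f x) : ContinuousOn f U :=
  fun x hx => (h x hx).sm.cont.continuousWithinAt
/-- etale maps have local sections over saturated parts of open sets -/
theorem locSec_ld' (hU : IsOpen U) (h : ∀ x ∈ U, LDAt X Y f x) (Z : Set Y) :
    LocSec f (U ∩ f ⁻¹' Z) := by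
  rintro _ ⟨p, hp, rfl⟩
  obtain ⟨g, O, W, -, hW, hpO, hOU, -, hg, m1, m2, -, r⟩ :=
    (h p hp.1).exists_inv (hU.mem_nhds hp.1)
  refine ⟨W, hW.mem_nhds (m1 hpO), g, hg.contOn.mono inter_subset_right, ?_⟩
  rintro _ ⟨⟨q, hq, rfl⟩, hz⟩
  exact ⟨⟨hOU (m2 hz), by rw [mem_preimage, r _ hz]; exact hq.2⟩, r _ hz⟩
theorem locSec_ld (hU : IsOpen U) (h : ∀ x ∈ U, LDAt X Y f x) : LocSec f U := by
  simpa using locSec_ld' hU h univ

/-- a map defined through an etale parameter is continuous -/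
theorem contOn_of_ld {Z P : Type} [TopologicalSpace Z] [TopologicalSpace P] (hU : IsOpen U)
    (h : ∀ x ∈ U, LDAt X Y f x) {φ : P × Y → Z} {A : Set P}
    (hc : ContinuousOn (fun p : P × X => φ (p.1, f p.2)) (A ×ˢ U)) :
    ContinuousOn φ (A ×ˢ (f '' U)) := by
  rintro ⟨a, _⟩ ⟨ha, x, hx, rfl⟩
  obtain ⟨g, O, W, -, hW, hpO, hOU, -, hg, m1, m2, -, r⟩ := (h x hx).exists_inv (hU.mem_nhds hx)
  have h1 : ContinuousOn (fun p : P × Y => φ (p.1, f (g p.2))) (A ×ˢ W) :=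
    hc.comp (f := fun p : P × Y => (p.1, g p.2)) (continuousOn_fst.prodMk
      (hg.contOn.comp continuousOn_snd fun p hp => hp.2)) fun p hp => ⟨hp.1, hOU (m2 hp.2)⟩
  have h2 : ContinuousOn φ (A ×ˢ W) := h1.congr fun p hp => by simp only [r _ hp.2]
  refine (h2 (a, f x) ⟨ha, m1 hpO⟩).mono_of_mem_nhdsWithin ?_
  filter_upwards [self_mem_nhdsWithin, mem_nhdsWithin_of_mem_nhds
    (continuous_snd.continuousAt.preimage_mem_nhds (hW.mem_nhds (m1 hpO)))] with p h3 h4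
  exact ⟨h3.1, h4⟩

/-! ### local models of codimension two and three -/

section model
variable {E₁ E₂ : Type} [NormedAddCommGroup E₁] [NormedSpace ℝ E₁] [FiniteDimensional ℝ E₁]
  [NormedAddCommGroup E₂] [NormedSpace ℝ E₂] [FiniteDimensional ℝ E₂] {c : E₁ × E₂ → Y} {a : E₁}
  {K : Set Y}

theorem model_aux (hc : LDAt (vs (E₁ × E₂)) Y c (a, 0))
    (hK : ∀ᶠ q in 𝓝 ((a, 0) : E₁ × E₂), c q ∈ K ↔ q.2 = 0) {O : Set Y} (hO : O ∈ 𝓝 (c (a, 0))) :
    ∃ (V : Set Y) (r : ℝ) (D : Set (E₁ × E₂)), 0 < r ∧ IsOpen V ∧ c (a, 0) ∈ V ∧ V ⊆ O ∧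
      OE (vs (E₁ × E₂)) Y c D ∧ Metric.ball a r ×ˢ {v : E₂ | ‖v‖ ∈ Ioo 0 r} ⊆ D ∧
      V \ K = c '' (Metric.ball a r ×ˢ {v : E₂ | ‖v‖ ∈ Ioo 0 r}) := by
  obtain ⟨g, D, W, hD, hW, hp, hDs, h1, h2, m1, m2, l, r'⟩ :=
    hc.exists_inv (hK.and (hc.sm.cont.preimage_mem_nhds hO))
  have oe : OE (vs (E₁ × E₂)) Y c D := oe_of_inv hD hW h1 h2 m1 m2 l r'
  obtain ⟨r, hr, hb⟩ := Metric.mem_nhds_iff.1 (hD.mem_nhds hp)
  rw [← ball_prod_same] at hb
  refine ⟨c '' (Metric.ball a r ×ˢ Metric.ball 0 r), r, D, hr,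
    oe.isOpen_image (Metric.isOpen_ball.prod Metric.isOpen_ball) hb,
    ⟨_, ⟨Metric.mem_ball_self hr, Metric.mem_ball_self hr⟩, rfl⟩, ?_, oe,
    fun q hq => hb ⟨hq.1, mem_ball_zero_iff.2 hq.2.2⟩, ?_⟩
  · rintro _ ⟨q, hq, rfl⟩
    exact (hDs (hb hq)).2
  · ext y
    constructor
    · rintro ⟨⟨q, hq, rfl⟩, hy⟩
      exact ⟨q, ⟨hq.1, norm_pos_iff.2 fun h0 => hy ((hDs (hb hq)).1.2 h0),
        mem_ball_zero_iff.1 hq.2⟩, rfl⟩
    · rintro ⟨q, hq, rfl⟩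
      have hq' : q ∈ Metric.ball a r ×ˢ Metric.ball (0 : E₂) r := ⟨hq.1, mem_ball_zero_iff.2 hq.2.2⟩
      exact ⟨⟨q, hq', rfl⟩, fun hy => norm_pos_iff.1 hq.2.1 ((hDs (hb hq')).1.1 hy)⟩

theorem cod2_model (hd : 2 ≤ Module.finrank ℝ E₂) (hc : LDAt (vs (E₁ × E₂)) Y c (a, 0))
    (hK : ∀ᶠ q in 𝓝 ((a, 0) : E₁ × E₂), c q ∈ K ↔ q.2 = 0) : Cod2 K (c (a, 0)) := fun _ hO => by
  obtain ⟨V, r, D, hr, h1, h2, h3, oe, hs, e⟩ := model_aux hc hK hO
  exact ⟨V, h1, h2, h3, e ▸ oe.pc_image hs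
    (((convex_ball a r).isPathConnected ⟨a, Metric.mem_ball_self hr⟩).prod
      (pc_norm_shell hd ordConnected_Ioo (fun _ h => h.1) (nonempty_Ioo.2 hr)))⟩

theorem cod3_model (hd : 3 ≤ Module.finrank ℝ E₂) (hc : LDAt (vs (E₁ × E₂)) Y c (a, 0))
    (hK : ∀ᶠ q in 𝓝 ((a, 0) : E₁ × E₂), c q ∈ K ↔ q.2 = 0) : Cod3 K (c (a, 0)) := fun _ hO => by
  obtain ⟨V, r, D, hr, h1, h2, h3, oe, hs, e⟩ := model_aux hc hK hO
  exact ⟨V, h1, h2, h3, e ▸ oe.sc_image hs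
    ((sc_convex (convex_ball a r) ⟨a, Metric.mem_ball_self hr⟩).prod
      (sc_norm_shell hd ordConnected_Ioo (fun _ h => h.1) (nonempty_Ioo.2 hr)))⟩
end model

/-- only the germ of `K` matters -/
theorem Cod3.congr {Z : Type} [TopologicalSpace Z] {K K' : Set Z} {x : Z} (h : Cod3 K x)
    (e : ∀ᶠ y in 𝓝 x, y ∈ K' ↔ y ∈ K) : Cod3 K' x := fun O hO => by
  obtain ⟨V, a, b, c, d⟩ := h _ (inter_mem hO e)
  refine ⟨V, a, b, fun y hy => (c hy).1, ?_⟩
  rwa [show V \ K' = V \ K from Set.ext fun y =>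
    ⟨fun hy => ⟨hy.1, fun h1 => hy.2 ((c hy.1).2.2 h1)⟩,
      fun hy => ⟨hy.1, fun h1 => hy.2 ((c hy.1).2.1 h1)⟩⟩]
theorem Cod2.congr {Z : Type} [TopologicalSpace Z] {K K' : Set Z} {x : Z} (h : Cod2 K x)
    (e : ∀ᶠ y in 𝓝 x, y ∈ K' ↔ y ∈ K) : Cod2 K' x := fun O hO => by
  obtain ⟨V, a, b, c, d⟩ := h _ (inter_mem hO e)
  refine ⟨V, a, b, fun y hy => (c hy).1, ?_⟩
  rwa [show V \ K' = V \ K from Set.ext fun y =>
    ⟨fun hy => ⟨hy.1, fun h1 => hy.2 ((c hy.1).2.2 h1)⟩,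
      fun hy => ⟨hy.1, fun h1 => hy.2 ((c hy.1).2.1 h1)⟩⟩]

/-- isolated points -/
theorem cod3_point [FiniteDimensional ℝ E] (hd : 3 ≤ Module.finrank ℝ E) {K : Set X} {x : X}
    (hK : ∀ᶠ y in 𝓝 x, y ∈ K ↔ y = x) : Cod3 K x :=
  Cod3.congr (K := {x}) (fun _ hO =>
    let ⟨V, a, b, c, _, d⟩ := X.exists_sc_punct hd x hO; ⟨V, a, b, c, d⟩) hK
theorem cod2_point (hd : 2 ≤ Module.finrank ℝ E) {K : Set X} {x : X}
    (hK : ∀ᶠ y in 𝓝 x, y ∈ K ↔ y = x) : Cod2 K x :=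
  Cod2.congr (K := {x}) (fun _ hO =>
    let ⟨V, a, b, c, _, d⟩ := X.exists_pc_diff hd (countable_singleton x) x hO; ⟨V, a, b, c, d⟩) hK

/-- codimension is preserved by local diffeomorphisms -/
theorem LDAt.cod3 {x : X} (h : LDAt X Y f x) {K : Set Y} (hK : Cod3 (f ⁻¹' K) x) :
    Cod3 K (f x) := fun O hO => by
  obtain ⟨g, D, W, hD, hW, hp, hDs, h1, h2, m1, m2, l, r⟩ :=
    h.exists_inv (h.sm.cont.preimage_mem_nhds hO)
  have oe : OE X Y f D := oe_of_inv hD hW h1 h2 m1 m2 l r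
  obtain ⟨V, a, b, c, d⟩ := hK D (hD.mem_nhds hp)
  refine ⟨f '' V, oe.isOpen_image a c, ⟨x, b, rfl⟩, image_subset_iff.2 fun y hy => hDs (c hy), ?_⟩
  rw [← image_sdiff_preimage]
  exact oe.sc_image (sdiff_subset.trans c) d
theorem LDAt.cod2 {x : X} (h : LDAt X Y f x) {K : Set Y} (hK : Cod2 (f ⁻¹' K) x) :
    Cod2 K (f x) := fun O hO => by
  obtain ⟨g, D, W, hD, hW, hp, hDs, h1, h2, m1, m2, l, r⟩ :=
    h.exists_inv (h.sm.cont.preimage_mem_nhds hO)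
  have oe : OE X Y f D := oe_of_inv hD hW h1 h2 m1 m2 l r
  obtain ⟨V, a, b, c, d⟩ := hK D (hD.mem_nhds hp)
  refine ⟨f '' V, oe.isOpen_image a c, ⟨x, b, rfl⟩, image_subset_iff.2 fun y hy => hDs (c hy), ?_⟩
  rw [← image_sdiff_preimage]
  exact oe.pc_image (sdiff_subset.trans c) d
theorem LDAt.cod3_pre {x : X} (h : LDAt X Y f x) {K : Set Y} (hK : Cod3 K (f x)) :
    Cod3 (f ⁻¹' K) x := by
  obtain ⟨g, D, W, hD, hW, hp, -, h1, h2, m1, m2, l, r⟩ := h.exists_inv univ_mem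
  have := (ldAt_of_inv hW hD (m1 hp) h2 h1 m2 m1 r l).cod3 (K := f ⁻¹' K) (hK.congr (by
    filter_upwards [hW.mem_nhds (m1 hp)] with y hy
    rw [mem_preimage, mem_preimage, r y hy]))
  rwa [l x hp] at this
theorem LDAt.cod2_pre {x : X} (h : LDAt X Y f x) {K : Set Y} (hK : Cod2 K (f x)) :
    Cod2 (f ⁻¹' K) x := by
  obtain ⟨g, D, W, hD, hW, hp, -, h1, h2, m1, m2, l, r⟩ := h.exists_inv univ_mem
  have := (ldAt_of_inv hW hD (m1 hp) h2 h1 m2 m1 r l).cod2 (K := f ⁻¹' K) (hK.congr (by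
    filter_upwards [hW.mem_nhds (m1 hp)] with y hy
    rw [mem_preimage, mem_preimage, r y hy]))
  rwa [l x hp] at this

/-- arcs and tubes: `l i` is etale on the open parameter set `P i`, and a point `l i p` is a core
point only if `p` is -/
theorem cod3_arcs {ι : Type} {l : ι → ℝ × Rn 3 → Y} {P : ι → Set (ℝ × Rn 3)}
    (hP : ∀ i, IsOpen (P i)) (hl : ∀ i, ∀ p ∈ P i, LDAt (vs (ℝ × Rn 3)) Y (l i) p)
    (hc : ∀ i j, ∀ p ∈ P i, ∀ θ, (θ, 0) ∈ P j → l i p = l j (θ, 0) → p.2 = 0) :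
    ∀ y ∈ ⋃ i, l i '' (P i ∩ univ ×ˢ {0}), Cod3 (⋃ i, l i '' (P i ∩ univ ×ˢ {0})) y := by
  intro y hy
  obtain ⟨i, ⟨θ, v⟩, ⟨hp, -, rfl⟩, rfl⟩ := mem_iUnion.1 hy
  refine cod3_model (by simp) (hl i _ hp) ?_
  filter_upwards [(hP i).mem_nhds hp] with q hq
  refine ⟨fun h => ?_, fun h => mem_iUnion.2 ⟨i, q, ⟨hq, trivial, h⟩, rfl⟩⟩
  obtain ⟨j, ⟨θ', v'⟩, ⟨hp', -, rfl⟩, e⟩ := mem_iUnion.1 h
  exact hc i j q hq θ' hp' e.symm

theorem SC.diff_arcs {ι : Type} {l : ι → ℝ × Rn 3 → Y} {P : ι → Set (ℝ × Rn 3)} {W : Set Y}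
    (h : SC W) (hW : IsOpen W) (hP : ∀ i, IsOpen (P i))
    (hl : ∀ i, ∀ p ∈ P i, LDAt (vs (ℝ × Rn 3)) Y (l i) p)
    (hc : ∀ i j, ∀ p ∈ P i, ∀ θ, (θ, 0) ∈ P j → l i p = l j (θ, 0) → p.2 = 0)
    (ho : IsOpen (W \ ⋃ i, l i '' (P i ∩ univ ×ˢ {0}))) :
    SC (W \ ⋃ i, l i '' (P i ∩ univ ×ˢ {0})) :=
  h.diff hW ho fun y hy => cod3_arcs hP hl hc y hy.2

end Man

end Pool.Agent.MP_e1dc65_gt

end
end MrgPart3

-- ======== part 4: formerly Pool.Agent.MP_e1dc65_gt.e.aScq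
section MrgPart4

/-! PROJECT HC, part E, sub-part A, row SCQ: the double cover is simply connected. -/

open scoped ContDiff Manifold Topology Matrix Real
open Set Filter Function Module

noncomputable section

namespace Pool.Agent.MP_e1dc65_gt.EA

namespace ScqP
variable {A : MA} {T : QtD A}

theorem lev_mem (m : A.X) : ((m, 3 / 4) : A.X.cyl) ∈ A.U := fun _ => by
  show |(3 / 4 : ℝ)| < 1
  rw [abs_lt]; constructor <;> norm_num

theorem seg_mem_U {p : A.X.cyl} (hp : p ∈ A.U) {t : ℝ} (ht : t ∈ Icc (0 : ℝ) 1) :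
    ((p.1, (1 - t) • p.2 + t • (3 / 4 : ℝ)) : A.X.cyl) ∈ A.U := fun h => by
  have h1 : p.2 ∈ Ioo (-1 : ℝ) 1 := abs_lt.1 (hp h)
  have h2 : (3 / 4 : ℝ) ∈ Ioo (-1 : ℝ) 1 := by norm_num
  exact abs_lt.2 (convex_Ioo (-1 : ℝ) 1 h1 h2 (sub_nonneg.2 ht.2) ht.1 (by ring))

theorem dlo_mem (hA : A.Ok) {q : Rn 3 × ℝ} (hq : q ∈ Dlo) :
    ((A.e₀ q.1, q.2) : A.X.cyl) ∈ A.U := by
  rintro ⟨z, hz, e⟩
  have hz' : wz z = 0 := hz
  have h1 : A.del (A.e₀ z) = 0 := by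
    rw [hA.del0 z (by show ‖wz z‖ < 1; rw [hz']; simp), hz', norm_zero]
  have e' : A.e₀ z = A.e₀ q.1 := e
  rw [e', hA.del0 _ hq.1, norm_eq_zero] at h1
  show |q.2| < 1
  rw [abs_lt]
  exact ⟨by linarith [hq.2.1], hq.2.2 h1⟩

theorem io_lo (hN : NutStmt) (hA : A.Ok) (hT : T.Ok) {q : Rn 3 × ℝ} (hq : q ∈ Dlo) :
    T.io (A.e₀ q.1, q.2) = T.nut (lo q) :=
  (hT.rel _ (dlo_mem hA hq) _ (hN.meml q hq).1).2 ⟨q, hq, rfl, rfl⟩

theorem sc_nut (hN : NutStmt) (hT : T.Ok) : SC (T.nut '' Np) :=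
  (sc_star (x := 0) (by constructor <;> norm_num [rho]) hN.star).image hT.onu.sm.contOn
    hT.onu.symm.sm.contOn fun _ hx => hT.onu.left hx

theorem cont_lev (hT : T.Ok) : Continuous fun m : A.X => T.io (m, 3 / 4) :=
  hT.oi.sm.contOn.comp_continuous (f := fun m : A.X => ((m, 3 / 4) : A.X.cyl)) (by fun_prop) lev_mem

theorem pc_U (hA : A.Ok) : IsPathConnected A.U := by
  have := hA.tw.conn
  have : PathConnectedSpace A.X := PathConnectedSpace.of_locallyPathConnectedSpace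
  have h1 : IsPathConnected (range fun m : A.X => ((m, 3 / 4) : A.X.cyl)) :=
    isPathConnected_range (by fun_prop)
  obtain ⟨x, hx, hj⟩ := h1
  have hs : (range fun m : A.X => ((m, 3 / 4) : A.X.cyl)) ⊆ A.U := by
    rintro _ ⟨m, rfl⟩; exact lev_mem m
  refine ⟨x, hs hx, fun p hp => ((hj ⟨p.1, rfl⟩).mono hs).trans (JoinedIn.symm ?_)⟩
  refine JoinedIn.ofLine (f := fun t : ℝ => ((p.1, (1 - t) • p.2 + t • (3 / 4 : ℝ)) : A.X.cyl))
    (Continuous.continuousOn (by fun_prop)) (by simp) (by simp) ?_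
  rintro _ ⟨t, ht, rfl⟩
  exact seg_mem_U hp ht

theorem thin_io (hN : NutStmt) (hM : MatStmt) (hA : A.Ok) (hT : T.Ok) {St : ℝ → ℝ}
    {Φ : Rn 3 → A.X} (hS : Slb A St Φ) : Thin (T.io '' A.U) univ := by
  refine thin_of_triv (subset_univ _) fun G _ τ hτ => ?_
  have hf : ContinuousOn (fun m : A.X => T.io (m, 3 / 4)) univ := (cont_lev hT).continuousOn
  have hp := pullT_pull _ hf τ
  have hk : ContinuousOn (invFunOn T.io A.U) (T.io '' A.U) := hT.oi.symm.sm.contOn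
  have hl : ∀ p ∈ A.U, invFunOn T.io A.U (T.io p) = p := fun p hp => hT.oi.left hp
  obtain ⟨s, hs⟩ := hM A St Φ hA hS G _ (hp.hol hτ hf (mapsTo_univ _ _))
    (hp.triv hf (subset_univ _) (T' := T.nut '' Np) (by
      rintro _ ⟨z, hz, rfl⟩
      have hz' : wz z = 0 := hz
      have hq : (z, (3 / 4 : ℝ)) ∈ Dlo :=
        ⟨by show ‖wz z‖ < 1; rw [hz']; simp, by norm_num, fun _ => by norm_num⟩
      exact ⟨_, (hN.meml _ hq).1, (io_lo hN hA hT hq).symm⟩)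
      (hτ.triv_of_sc (sc_nut hN hT) (subset_univ _)))
  have h1 : Triv τ (range fun m : A.X => T.io (m, 3 / 4)) := by
    refine ⟨_, up_id.1 ((hp.up hs).comp (k := fun y => (invFunOn T.io A.U y).1)
      (hk.fst.mono ?_) (mapsTo_univ _ _) ?_)⟩
    · rintro _ ⟨m, rfl⟩
      exact ⟨_, lev_mem m, rfl⟩
    · rintro _ ⟨m, rfl⟩
      simp only [hl _ (lev_mem m)]
  refine hτ.deform (H := fun q => T.io ((invFunOn T.io A.U q.2).1,
    (1 - q.1) • (invFunOn T.io A.U q.2).2 + q.1 • (3 / 4 : ℝ))) ?_ (mapsTo_univ _ _) ?_ ?_ h1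
  · have h2 : ContinuousOn (fun q : ℝ × T.Qt => invFunOn T.io A.U q.2)
        (Icc 0 1 ×ˢ (T.io '' A.U)) := hk.comp continuousOn_snd fun q hq => hq.2
    refine hT.oi.sm.contOn.comp (h2.fst.prodMk ?_) ?_
    · exact ((continuousOn_const.sub continuousOn_fst).smul h2.snd).add
        (continuousOn_fst.smul continuousOn_const)
    · rintro ⟨t, _⟩ ⟨ht, p, hp, rfl⟩
      simp only [hl p hp]
      exact seg_mem_U hp ht
  · rintro _ ⟨p, hp, rfl⟩
    simp [hl p hp]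
  · rintro _ ⟨p, hp, rfl⟩
    exact ⟨p.1, by simp [hl p hp]⟩

theorem pc_overlap (hN : NutStmt) (hA : A.Ok) (hT : T.Ok) :
    IsPathConnected (T.io '' A.U ∩ T.nut '' Np) := by
  have e : T.io '' A.U ∩ T.nut '' Np = (fun q => T.nut (lo q)) '' Dlo := by
    ext y
    constructor
    · rintro ⟨⟨p, hp, rfl⟩, z, hz, e⟩
      obtain ⟨q, hq, -, rfl⟩ := (hT.rel p hp z hz).1 e.symm
      exact ⟨q, hq, e⟩
    · rintro ⟨q, hq, rfl⟩
      exact ⟨⟨_, dlo_mem hA hq, io_lo hN hA hT hq⟩, _, (hN.meml q hq).1, rfl⟩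
  rw [e]
  have h0 : ((![3 * π / 2, π / 2, 0] : Rn 3), (3 / 4 : ℝ)) ∈ Dlo := by
    have : wz (![3 * π / 2, π / 2, 0] : Rn 3) = 0 := by
      apply Complex.ext <;> simp [wz]
    exact ⟨by show ‖wz _‖ < 1; rw [this]; simp, by norm_num, fun _ => by norm_num⟩
  refine (sc_star h0 hN.starL).1.image' fun q hq => ?_
  exact ((hN.ldl q hq).trans (hT.onu.ld _ (hN.meml q hq).1)).sm.cont.continuousWithinAt

end ScqP

open ScqP in
theorem scq : ScqStmt := by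
  intro hN hM A T St Φ hA hT hS
  have hσ : Continuous T.σ := hT.σsm.cont
  have o1 : IsOpen (T.io '' A.U) := hT.oi.isOpen_image hT.oi.op subset_rfl
  have o2 : IsOpen (T.nut '' Np) := hT.onu.isOpen_image hT.onu.op subset_rfl
  have s2 := sc_nut hN hT
  have s3 : SC (T.σ ⁻¹' (T.nut '' Np)) :=
    s2.retract hσ.continuousOn (fun y hy => by rw [mem_preimage, hT.σσ]; exact hy)
      hσ.continuousOn (fun y hy => hy) fun y _ => hT.σσ y
  have c1 := pc_overlap hN hA hT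
  have hW : ∀ y ∈ T.io '' A.U, T.σ y ∈ T.io '' A.U := by
    rintro _ ⟨p, hp, rfl⟩
    exact ⟨_, hT.σU p hp, (hT.σi p hp).symm⟩
  have hs : ∀ y ∈ T.nut '' Np, 1 / 2 < T.s y := by
    rintro _ ⟨z, hz, rfl⟩
    rw [hT.sn z hz]
    linarith [hz.2]
  have c2 : IsPathConnected ((T.io '' A.U ∪ T.nut '' Np) ∩ T.σ ⁻¹' (T.nut '' Np)) := by
    have e : (T.io '' A.U ∪ T.nut '' Np) ∩ T.σ ⁻¹' (T.nut '' Np) =
        T.σ '' (T.io '' A.U ∩ T.nut '' Np) := by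
      ext y
      constructor
      · rintro ⟨h1 | h1, h2⟩
        · exact ⟨T.σ y, ⟨hW y h1, h2⟩, hT.σσ y⟩
        · have h3 := hs _ h2
          rw [hT.sσ] at h3
          linarith [hs _ h1]
      · rintro ⟨x, hx, rfl⟩
        exact ⟨Or.inl (hW x hx.1), by rw [mem_preimage, hT.σσ]; exact hx.2⟩
    rw [e]
    exact c1.image hσ
  have e : (univ : Set T.Qt) = (T.io '' A.U ∪ T.nut '' Np) ∪ T.σ ⁻¹' (T.nut '' Np) := by
    refine (eq_univ_of_forall fun y => ?_).symm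
    rcases hT.cov y with ⟨p, hp, rfl⟩ | ⟨z, hz, rfl | rfl⟩
    · exact Or.inl (Or.inl ⟨p, hp, rfl⟩)
    · exact Or.inl (Or.inr ⟨z, hz, rfl⟩)
    · exact Or.inr ⟨z, hz, (hT.σσ _).symm⟩
  constructor
  · rw [e]
    exact ((((pc_U hA).image' hT.oi.sm.contOn).union s2.1 c1.nonempty).union s3.1 c2.nonempty)
  · have h := (((thin_io hN hM hA hT hS).union (s2.2.mono subset_rfl (subset_univ _)) o1 o2 c1).union
      (s3.2.mono subset_rfl (subset_univ _)) (o1.union o2) (o2.preimage hσ) c2)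
    rwa [← e] at h

end Pool.Agent.MP_e1dc65_gt.EA

end
end MrgPart4

-- ======== part 5: formerly Pool.Agent.MP_e1dc65_gt.e.aPrf
section MrgPart5

/-! PROJECT HC, part E, sub-part A, row PRF: the first homology of `F` vanishes. -/

open scoped ContDiff Manifold Topology Real
open Set Filter Function

noncomputable section

namespace Pool.Agent.MP_e1dc65_gt.EA

namespace PrfP

/-- four open strips in the plane -/
def P : Set ℂ := {w | (w.re ≠ 0 ∧ |w.re| < 2 * π) ∨ (w.im ≠ 0 ∧ |w.im| < 2 * π)}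
/-- the punctured disc -/
def D0 : Set ℂ := {w | ‖w‖ ∈ Ioo (0 : ℝ) 1}

theorem D0.re {w : ℂ} (h : w ∈ D0) : -1 < w.re ∧ w.re < 1 :=
  abs_lt.1 ((Complex.abs_re_le_norm w).trans_lt h.2)
theorem D0.im {w : ℂ} (h : w ∈ D0) : -1 < w.im ∧ w.im < 1 :=
  abs_lt.1 ((Complex.abs_im_le_norm w).trans_lt h.2)

/-- a commutative holonomy on the punctured torus is trivial near the puncture -/
theorem comm {Y G : Type} [TopologicalSpace Y] [CommGroup G] {τ : ∀ x y : Y, Path x y → G}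
    (hτ : Hol univ τ) {f : ℂ → Y} (hf : ContinuousOn f P) (h1 : ∀ w, f (w + ⟨2 * π, 0⟩) = f w)
    (h2 : ∀ w, f (w + ⟨0, 2 * π⟩) = f w) : ∃ s, Up τ f D0 s := by
  have p3 := Real.pi_gt_three
  let H : Set ℂ := {w | 0 < w.im} ∩ {w | w.im < 2 * π}
  let V : Set ℂ := {w | 0 < w.re} ∩ {w | w.re < 2 * π}
  have cH : Convex ℝ H := (convex_halfSpace_im_gt 0).inter (convex_halfSpace_im_lt _)
  have cV : Convex ℝ V := (convex_halfSpace_re_gt 0).inter (convex_halfSpace_re_lt _)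
  have mH : ∀ {w : ℂ}, 0 < w.im → w.im < 2 * π → w ∈ H := fun a b => ⟨a, b⟩
  have mV : ∀ {w : ℂ}, 0 < w.re → w.re < 2 * π → w ∈ V := fun a b => ⟨a, b⟩
  have o : (⟨1, 1⟩ : ℂ) ∈ H ∩ V := ⟨mH one_pos (by simp; linarith), mV one_pos (by simp; linarith)⟩
  have fH : ContinuousOn f H := hf.mono fun w hw =>
    Or.inr ⟨ne_of_gt hw.1, by rw [abs_of_pos hw.1]; exact hw.2⟩
  have fV : ContinuousOn f V := hf.mono fun w hw =>
    Or.inl ⟨ne_of_gt hw.1, by rw [abs_of_pos hw.1]; exact hw.2⟩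
  have fD : ContinuousOn f D0 := hf.mono fun w hw => by
    by_cases h : w.re = 0
    · refine Or.inr ⟨fun h' => hw.1.ne' (norm_eq_zero.2 (Complex.ext h h')), ?_⟩
      rw [abs_lt]
      constructor <;> linarith [(D0.im hw).1, (D0.im hw).2]
    · refine Or.inl ⟨h, ?_⟩
      rw [abs_lt]
      constructor <;> linarith [(D0.re hw).1, (D0.re hw).2]
  obtain ⟨a, ha⟩ := hτ.exists_up_sc fH (mapsTo_univ _ _) (sc_convex cH ⟨_, o.1⟩)
  obtain ⟨b0, hb0⟩ := hτ.exists_up_sc fV (mapsTo_univ _ _) (sc_convex cV ⟨_, o.2⟩)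
  obtain ⟨g, hg⟩ := (hb0.mono (inter_subset_right (s := H))).exists_const
    (ha.mono inter_subset_left) (fH.mono inter_subset_left)
    ((cH.inter cV).isPathConnected ⟨_, o⟩)
  have hb := hb0.const_mul g
  set b : ℂ → G := fun y => g * b0 y
  have ab : ∀ {w}, w ∈ H → w ∈ V → a w = b w := fun h h' => hg _ ⟨h, h'⟩
  obtain ⟨h, hh⟩ := ha.monodromy fH (k := fun w => w + ⟨2 * π, 0⟩) subset_rfl
    (cH.isPathConnected ⟨_, o.1⟩) (by fun_prop)
    (fun w hw => mH (by simpa using hw.1) (by simpa using hw.2)) fun w _ => h1 w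
  obtain ⟨v, hv⟩ := hb.monodromy fV (k := fun w => w + ⟨0, 2 * π⟩) subset_rfl
    (cV.isPathConnected ⟨_, o.2⟩) (by fun_prop)
    (fun w hw => mV (by simpa using hw.1) (by simpa using hw.2)) fun w _ => h2 w
  have sH : ∀ {w}, w ∈ D0 → w.im < 0 → ∀ c : ℝ, w + ⟨c, 2 * π⟩ ∈ H := fun hw h c =>
    mH (by simp; linarith [(D0.im hw).1]) (by simpa using h)
  have sV : ∀ {w}, w ∈ D0 → w.re < 0 → ∀ c : ℝ, w + ⟨2 * π, c⟩ ∈ V := fun hw h c =>
    mV (by simp; linarith [(D0.re hw).1]) (by simpa using h)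
  have tH : ∀ {w}, w ∈ D0 → 0 < w.im → ∀ c : ℝ, w + ⟨c, 0⟩ ∈ H := fun hw h c =>
    mH (by simpa using h) (by simp; linarith [(D0.im hw).2])
  have tV : ∀ {w}, w ∈ D0 → 0 < w.re → ∀ c : ℝ, w + ⟨0, c⟩ ∈ V := fun hw h c =>
    mV (by simpa using h) (by simp; linarith [(D0.re hw).2])
  have z : ∀ w : ℂ, w + ⟨0, 0⟩ = w := fun w => add_zero w
  let s : ℂ → G := fun w => if 0 < w.im then a w else if w.im < 0 then v⁻¹ * a (w + ⟨0, 2 * π⟩)
    else if 0 < w.re then b w else h⁻¹ * b (w + ⟨2 * π, 0⟩)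
  refine ⟨s, hτ.up_of_within fD (mapsTo_univ _ _) fun y hy => ?_⟩
  rcases lt_trichotomy y.re 0 with c | c | c
  · refine ⟨D0 ∩ {w | w.re < 0}, inter_mem_nhdsWithin _
      ((isOpen_lt Complex.continuous_re continuous_const).mem_nhds c), ?_⟩
    refine ((hb.comp (k := fun w => w + ⟨2 * π, 0⟩) (by fun_prop) (fun w hw => sV hw.1 hw.2 0)
      fun w _ => (h1 w).symm).const_mul h⁻¹).congr (fun _ _ => rfl) fun w hw => ?_
    simp only [s]
    split_ifs with c1 c2 c3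
    · rw [← ab (tH hw.1 c1 _) (sV hw.1 hw.2 0), hh w (z w ▸ tH hw.1 c1 0), inv_mul_cancel_left]
    · have e : w + ⟨0, 2 * π⟩ + ⟨2 * π, 0⟩ = w + ⟨2 * π, 2 * π⟩ := Complex.ext (by simp) (by simp)
      have e' : w + ⟨2 * π, 0⟩ + ⟨0, 2 * π⟩ = w + ⟨2 * π, 2 * π⟩ := Complex.ext (by simp) (by simp)
      have k1 := hh _ (sH hw.1 c2 0)
      have k2 := hv _ (sV hw.1 hw.2 0)
      rw [e, ab (sH hw.1 c2 _) (sV hw.1 hw.2 _), ← e', k2] at k1
      rw [inv_mul_eq_iff_eq_mul, mul_left_comm, k1, inv_mul_cancel_left]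
    · exact absurd hw.2 c3.not_gt
    · rfl
  · rcases lt_trichotomy y.im 0 with d | d | d
    · refine ⟨D0 ∩ {w | w.im < 0}, inter_mem_nhdsWithin _
        ((isOpen_lt Complex.continuous_im continuous_const).mem_nhds d), ?_⟩
      refine ((ha.comp (k := fun w => w + ⟨0, 2 * π⟩) (by fun_prop) (fun w hw => sH hw.1 hw.2 0)
        fun w _ => (h2 w).symm).const_mul v⁻¹).congr (fun _ _ => rfl) fun w hw => ?_
      simp only [s]
      rw [if_neg (not_lt_of_gt hw.2), if_pos (show w.im < 0 from hw.2)]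
    · exact absurd (norm_eq_zero.2 (Complex.ext c d)) hy.1.ne'
    · refine ⟨D0 ∩ {w | 0 < w.im}, inter_mem_nhdsWithin _
        ((isOpen_lt continuous_const Complex.continuous_im).mem_nhds d), ?_⟩
      refine (ha.mono fun w hw => z w ▸ tH hw.1 hw.2 0).congr (fun _ _ => rfl) fun w hw => ?_
      simp only [s]
      rw [if_pos (show 0 < w.im from hw.2)]
  · refine ⟨D0 ∩ {w | 0 < w.re}, inter_mem_nhdsWithin _
      ((isOpen_lt continuous_const Complex.continuous_re).mem_nhds c), ?_⟩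
    refine (hb.mono fun w hw => z w ▸ tV hw.1 hw.2 0).congr (fun _ _ => rfl) fun w hw => ?_
    simp only [s]
    split_ifs with c1 c2 c3
    · exact ab (z w ▸ tH hw.1 c1 0) (z w ▸ tV hw.1 hw.2 0)
    · rw [ab (sH hw.1 c2 0) (tV hw.1 hw.2 _), hv w (z w ▸ tV hw.1 hw.2 0), inv_mul_cancel_left]
    · rfl
    · exact absurd hw.2 c3

/-- coordinates adapted to the circle -/
def zc (p : ℝ × ℂ) : Rn 3 := ![3 * π / 2 + p.2.re, π / 2 + p.2.im, p.1]
/-- the solid tube -/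
def D : Set (ℝ × ℂ) := univ ×ˢ Metric.ball 0 1
/-- the tube without its axis -/
def Ds : Set (ℝ × ℂ) := univ ×ˢ D0

theorem wz_zc (p : ℝ × ℂ) : wz (zc p) = p.2 := Complex.ext (by simp [wz, zc]) (by simp [wz, zc])
theorem zc_wz (z : Rn 3) : zc (z 2, wz z) = z := by
  ext i
  fin_cases i <;> simp [wz, zc]
theorem cd_zc : ContDiff ℝ ∞ zc := by
  have h1 : ContDiff ℝ ∞ fun p : ℝ × ℂ => p.2.re := Complex.reCLM.contDiff.comp contDiff_snd
  have h2 : ContDiff ℝ ∞ fun p : ℝ × ℂ => p.2.im := Complex.imCLM.contDiff.comp contDiff_snd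
  refine contDiff_pi.2 fun i => ?_
  fin_cases i
  exacts [contDiff_const.add h1, contDiff_const.add h2, contDiff_fst]
theorem cd_wz : ContDiff ℝ ∞ wz := Complex.equivRealProdCLM.symm.contDiff.comp
  (f := fun z : Rn 3 => (z 0 - 3 * π / 2, z 1 - π / 2)) (by fun_prop)
theorem ld_zc (p : ℝ × ℂ) : LDAt (vs (ℝ × ℂ)) (vs (Rn 3)) zc p :=
  ldAt_of_inv (X := vs (ℝ × ℂ)) (Y := vs (Rn 3)) (g := fun z => (z 2, wz z)) isOpen_univ
    isOpen_univ trivial (fun _ _ => smAt_vs.2 cd_zc.contDiffAt)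
    (fun _ _ => smAt_vs.2 ((contDiff_apply ℝ ℝ 2).prodMk cd_wz).contDiffAt) (mapsTo_univ _ _)
    (mapsTo_univ _ _) (fun p _ => Prod.ext rfl (wz_zc p)) fun z _ => zc_wz z
theorem open_D : IsOpen D := isOpen_univ.prod Metric.isOpen_ball
theorem open_Ds : IsOpen Ds := isOpen_univ.prod (isOpen_Ioo.preimage continuous_norm)
theorem Ds_D : Ds ⊆ D := fun _ hp => ⟨trivial, mem_ball_zero_iff.2 hp.2.2⟩
theorem pc_Ds : IsPathConnected Ds := isPathConnected_univ.prod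
  (pc_norm_shell Complex.finrank_real_complex.ge ordConnected_Ioo (fun _ h => h.1) (nonempty_Ioo.2 one_pos))
theorem dsc {p : ℝ × ℂ} (h : p ∈ D) : zc p ∈ Dsc := by
  rw [Dsc, mem_ofPred_eq, wz_zc]
  exact mem_ball_zero_iff.1 h.2
theorem ax (u : ℝ) : ((u, 0) : ℝ × ℂ) ∈ D := ⟨trivial, Metric.mem_ball_self one_pos⟩

theorem int_zero {m : ℤ} (h : |2 * π * m| < 2 * π) : m = 0 := by
  rw [abs_mul, abs_of_pos Real.two_pi_pos, mul_lt_iff_lt_one_right Real.two_pi_pos,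
    ← Int.cast_abs, ← Int.cast_one, Int.cast_lt] at h
  exact Int.abs_lt_one_iff.1 h

theorem odd_pi {m : ℤ} (h : |π + 2 * π * m| < 3) : False := by
  have p3 := Real.pi_gt_three
  rw [abs_lt] at h
  rcases le_or_gt 0 m with c | c
  · have : (0 : ℝ) ≤ m := by exact_mod_cast c
    nlinarith [h.2]
  · have : (m : ℝ) ≤ -1 := by exact_mod_cast Int.le_sub_one_of_lt c
    nlinarith [h.1]

theorem main {p : ℝ × ℂ} (h : p ∈ D) : zc p ∈ MainI I01 := by
  have hn := mem_ball_zero_iff.1 h.2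
  have h1 := abs_lt.1 ((Complex.abs_re_le_norm p.2).trans_lt hn)
  have h2 := abs_lt.1 ((Complex.abs_im_le_norm p.2).trans_lt hn)
  rintro i hi ⟨z, hl, hz, -⟩
  rw [abs_le, eps] at hz
  fin_cases i
  · obtain ⟨m, hm⟩ := hl 1
    simp [jx, cj, zc] at hz hm
    exact odd_pi (m := m) (abs_lt.2 ⟨by linarith, by linarith⟩)
  · obtain ⟨m, hm⟩ := hl 0
    simp [jx, cj, zc] at hz hm
    exact odd_pi (m := -m) (abs_lt.2 ⟨by push_cast; linarith, by push_cast; linarith⟩)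
  · exact hi rfl

theorem lat_u (p : ℝ × ℂ) (m : ℤ) : Lat (zc (p.1 + 2 * π * m, p.2)) (zc p) := fun i => by
  fin_cases i
  exacts [⟨0, by simp [zc]⟩, ⟨0, by simp [zc]⟩, ⟨m, by simp [zc]⟩]

theorem lat_D {p q : ℝ × ℂ} (hp : p ∈ D) (hq : q ∈ D) (h : Lat (zc p) (zc q)) :
    ∃ m : ℤ, p = (q.1 + 2 * π * m, q.2) := by
  have p3 := Real.pi_gt_three
  have a1 := abs_lt.1 ((Complex.abs_re_le_norm p.2).trans_lt (mem_ball_zero_iff.1 hp.2))
  have a2 := abs_lt.1 ((Complex.abs_im_le_norm p.2).trans_lt (mem_ball_zero_iff.1 hp.2))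
  have b1 := abs_lt.1 ((Complex.abs_re_le_norm q.2).trans_lt (mem_ball_zero_iff.1 hq.2))
  have b2 := abs_lt.1 ((Complex.abs_im_le_norm q.2).trans_lt (mem_ball_zero_iff.1 hq.2))
  obtain ⟨m0, h0⟩ := h 0
  obtain ⟨m1, h1⟩ := h 1
  obtain ⟨m, h2⟩ := h 2
  simp [zc] at h0 h1 h2
  obtain rfl : m0 = 0 := int_zero (abs_lt.2 ⟨by linarith, by linarith⟩)
  obtain rfl : m1 = 0 := int_zero (abs_lt.2 ⟨by linarith, by linarith⟩)
  exact ⟨m, Prod.ext (by linarith) (Complex.ext (by simpa [sub_eq_zero] using h0)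
    (by simpa [sub_eq_zero] using h1))⟩

variable {A : MA} {St : ℝ → ℝ} {Φ : Rn 3 → A.X} {F : Mf (Rn 3)} {j : A.X → F} {k : Rn 3 → F}

theorem ldE (hA : A.Ok) : ∀ p ∈ D, LDAt (vs (ℝ × ℂ)) A.X (fun p => A.e₀ (zc p)) p :=
  fun p hp => (ld_zc p).trans (hA.tw.ld0 _ (main hp))

theorem core_eq {x : A.X} (h : x ∈ A.core) : ∃ u, A.e₀ (zc (u, 0)) = x :=
  let ⟨z, hz, e⟩ := h
  ⟨z 2, by rw [← show wz z = 0 from hz, zc_wz, e]⟩

theorem core_iff (hA : A.Ok) {p : ℝ × ℂ} (hp : p ∈ D) : A.e₀ (zc p) ∈ A.core ↔ p.2 = 0 := by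
  refine ⟨fun h => ?_, fun h => ⟨zc p, (wz_zc p).trans h, rfl⟩⟩
  obtain ⟨u, e⟩ := core_eq h
  obtain ⟨m, hm⟩ := lat_D (ax u) hp ((hA.tw.eq0 _ (main (ax u)) _ (main hp)).1 e)
  exact (congrArg Prod.snd hm).symm

theorem offc (hA : A.Ok) : MapsTo (fun p => A.e₀ (zc p)) Ds A.coreᶜ := fun _ hp h =>
  hp.2.1.ne' (norm_eq_zero.2 ((core_iff hA (Ds_D hp)).1 h))

theorem cE0 (hA : A.Ok) : ContinuousOn (fun p : ℝ × ℂ => A.e₀ (zc p)) Ds :=
  ContinuousOn.mono (s := D) (ld_contOn (X := vs (ℝ × ℂ)) (ldE hA)) Ds_D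

theorem cE1 (hA : A.Ok) (hL : Lg A F j k) : ContinuousOn (fun p : ℝ × ℂ => j (A.e₀ (zc p))) Ds :=
  hL.oj.contOn.comp (cE0 hA) (offc hA)

theorem slab (w : ℂ) : zc (0, w) ∈ Slab := by
  have := Real.pi_pos
  constructor <;> simp [zc] <;> linarith

theorem col (hS : Slb A St Φ) {w : ℂ} (h : ‖w‖ < 1) : Φ (zc (0, w)) = A.e₀ (zc (0, w)) := by
  have h2 := abs_lt.1 ((Complex.abs_im_le_norm w).trans_lt h)
  have p3 := Real.pi_gt_three
  have p4 := Real.pi_lt_four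
  refine hS.col _ (slab w) ?_ ?_ <;> simp [zc] <;> linarith

theorem offP (hA : A.Ok) (hS : Slb A St Φ) : MapsTo (fun w => Φ (zc (0, w))) P A.coreᶜ := by
  intro w hw h
  obtain ⟨u, e⟩ := core_eq h
  beta_reduce at e
  have h1 := hS.ang _ (slab w)
  rw [← e, hA.ang0 _ (main (ax u))] at h1
  obtain ⟨m, hm⟩ := Complex.exp_eq_exp_iff_exists_int.1 h1
  have hu : u = 0 + 2 * π * m := by
    have := congrArg Complex.im hm
    simp [zc] at this
    linarith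
  rw [hu, (hA.tw.eq0 _ (main (ax _)) _ (main (ax 0))).2 (lat_u (0, 0) m),
    ← col hS (by simp), hS.eq _ (slab 0) _ (slab w)] at e
  obtain ⟨m0, h0⟩ := e 0
  obtain ⟨m1, h1⟩ := e 1
  simp [zc] at h0 h1
  rcases hw with ⟨a, b⟩ | ⟨a, b⟩
  · obtain rfl : m0 = 0 := int_zero (by rwa [← h0, abs_neg])
    exact a (by simpa using h0)
  · obtain rfl : m1 = 0 := int_zero (by rwa [← h1, abs_neg])
    exact a (by simpa using h1)

variable {G : Type} [CommGroup G] {τ : ∀ x y : F, Path x y → G}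

/-- a section on the punctured tube -/
theorem sec (hA : A.Ok) (hS : Slb A St Φ) (hL : Lg A F j k) (hτ : Hol univ τ) :
    ∃ s, Up τ (fun p => j (A.e₀ (zc p))) Ds s := by
  have c0 : Continuous fun w : ℂ => zc (0, w) := cd_zc.continuous.comp (by fun_prop)
  have c1 : ContinuousOn Φ Slab := ld_contOn (X := vs (Rn 3)) hS.ld
  obtain ⟨s, hs⟩ := comm hτ (f := fun w => j (Φ (zc (0, w))))
    (hL.oj.contOn.comp (c1.comp_continuous c0 slab).continuousOn (offP hA hS))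
    (fun w => congrArg j ((hS.eq _ (slab _) _ (slab _)).2 fun i => by
      fin_cases i
      exacts [⟨1, by simp [zc]⟩, ⟨0, by simp [zc]⟩, ⟨0, by simp [zc]⟩]))
    fun w => congrArg j ((hS.eq _ (slab _) _ (slab _)).2 fun i => by
      fin_cases i
      exacts [⟨0, by simp [zc]⟩, ⟨1, by simp [zc]⟩, ⟨0, by simp [zc]⟩])
  have cE := cE1 hA hL
  obtain ⟨r, hr⟩ := hτ.up_homotopy (U := Ds)
    (H := fun q : ℝ × ℝ × ℂ => j (A.e₀ (zc ((1 - q.1) * q.2.1, q.2.2))))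
    (cE.comp (f := fun q : ℝ × ℝ × ℂ => ((1 - q.1) * q.2.1, q.2.2)) (by fun_prop)
      fun q hq => ⟨trivial, hq.2.2⟩) (mapsTo_univ _ _)
    (hs.comp (k := Prod.snd) continuousOn_snd (fun p hp => hp.2) fun p hp => by
      simp only [sub_self, zero_mul, col hS hp.2.2])
  exact ⟨r, by simpa using hr⟩

theorem ldK (hL : Lg A F j k) : ∀ p ∈ D, LDAt (vs (ℝ × ℂ)) F (fun p => k (zc p)) p :=
  fun p hp => (ld_zc p).trans (hL.kld _ (dsc hp))

/-- the section is periodic along the tube -/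
theorem per (hA : A.Ok) (hL : Lg A F j k) (hτ : Hol univ τ) {s : ℝ × ℂ → G}
    (hs : Up τ (fun p => j (A.e₀ (zc p))) Ds s) (m : ℤ) :
    ∀ p ∈ Ds, s (p.1 + 2 * π * m, p.2) = s p := by
  have cE := cE1 hA hL
  obtain ⟨g, hg⟩ := hs.monodromy cE (k := fun p => (p.1 + 2 * π * (1 : ℤ), p.2)) subset_rfl pc_Ds
    (by fun_prop) (fun p hp => ⟨trivial, hp.2⟩) fun p hp => congrArg j
      ((hA.tw.eq0 _ (main (p := (p.1 + 2 * π * (1 : ℤ), p.2)) ⟨trivial, (Ds_D hp).2⟩) _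
        (main (Ds_D hp))).2 (lat_u p 1))
  have cK : ContinuousOn (fun p : ℝ × ℂ => k (zc p)) D := ld_contOn (X := vs (ℝ × ℂ)) (ldK hL)
  obtain ⟨r, hr⟩ := hτ.exists_up_sc cK (mapsTo_univ _ _)
    (sc_convex (convex_univ.prod (convex_ball 0 1)) ⟨_, ax 0⟩)
  let c : ℝ → ℂ := fun θ => (1 / 2 : ℝ) * Complex.exp (θ * Complex.I)
  have nc : ∀ θ, ‖c θ‖ = 1 / 2 := fun θ => by simp [c, Complex.norm_exp_ofReal_mul_I]
  have mc : ∀ u θ, (u, c θ) ∈ Ds := fun u θ => ⟨trivial, by rw [D0, mem_ofPred_eq, nc]; norm_num⟩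
  have cc : Continuous c := by fun_prop
  have s1 := hs.comp (k := fun θ : ℝ => (-θ, c θ)) (V := univ) (by fun_prop) (fun θ _ => mc _ θ)
    fun _ _ => rfl
  have r1 := hr.comp (k := fun θ : ℝ => (0, c θ)) (V := univ) (by fun_prop)
    (fun θ _ => Ds_D (mc _ θ)) (f₁ := fun θ => j (A.e₀ (zc (-θ, c θ)))) fun θ _ => by
      rw [hL.rel _ (dsc (Ds_D (mc 0 θ))) (by rw [wz_zc]; exact norm_pos_iff.1 (mc 0 θ).2.1) θ
        (by rw [IsArg, wz_zc, nc])]
      simp [su, zc]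
  obtain ⟨e, he⟩ := r1.exists_const s1
    (cE.comp (f := fun θ : ℝ => (-θ, c θ)) (by fun_prop) fun θ _ => mc _ θ) isPathConnected_univ
  have c2 : c (2 * π) = c 0 := by simp [c]
  have g1 : g = 1 := by
    have a1 := hg _ (mc (-(2 * π)) 0)
    have a2 := he 0 trivial
    have a3 := he (2 * π) trivial
    simp only [c2, Int.cast_one, mul_one, neg_add_cancel, neg_zero] at a1 a2 a3
    rw [a2, a3] at a1
    exact (right_eq_mul.1 a1)
  simp only [g1, one_mul, Int.cast_one, mul_one] at hg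
  induction m using Int.induction_on with
  | zero => simp
  | succ n ih =>
    intro p hp
    rw [← ih p hp, ← hg (p.1 + 2 * π * (n : ℤ), p.2) ⟨trivial, hp.2⟩]
    congr 2
    push_cast
    ring
  | pred n ih =>
    intro p hp
    rw [← ih p hp, ← hg (p.1 + 2 * π * ((-n - 1 : ℤ) : ℝ), p.2) ⟨trivial, hp.2⟩]
    congr 2
    push_cast
    ring

end PrfP

open PrfP in
theorem prf : PrfStmt := by
  intro hM A St Φ F j k hA hS hL G _ τ hτ
  have cj := hL.oj.contOn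
  have hp := pullT_pull j cj τ
  set μ := pullT j cj τ
  have hμ : Hol A.coreᶜ μ := hp.hol hτ cj (mapsTo_univ _ _)
  obtain ⟨s, hs⟩ := sec hA hS hL hτ
  have us : Up μ (fun p => A.e₀ (zc p)) Ds s := fun a b γ hγ x y δ e => by
    rw [hp.eq cj fun t => e t ▸ offc hA (hγ t)]
    exact hs a b γ hγ _ _ _ fun t => congrArg j (e t)
  have t1 := us.triv hμ (cE0 hA) (offc hA)
    (locSec_ld (X := vs (ℝ × ℂ)) open_Ds fun p hp => ldE hA p (Ds_D hp)) fun p hp q hq e => by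
      obtain ⟨m, rfl⟩ := lat_D (Ds_D hp) (Ds_D hq)
        ((hA.tw.eq0 _ (main (Ds_D hp)) _ (main (Ds_D hq))).1 e)
      exact per hA hL hτ hs m q hq
  set O := (fun p => A.e₀ (zc p)) '' D
  have oO : IsOpen O := isOpen_image_ld (X := vs (ℝ × ℂ)) open_D (ldE hA)
  have cO : A.core ⊆ O := fun x hx => let ⟨u, e⟩ := core_eq hx; ⟨_, ax u, e⟩
  have t2 : Triv μ (O \ A.core) := t1.mono (by
    rintro _ ⟨⟨p, hp, rfl⟩, h⟩
    exact ⟨p, ⟨trivial, norm_pos_iff.2 fun h0 => h ((core_iff hA hp).2 h0),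
      mem_ball_zero_iff.1 hp.2⟩, rfl⟩)
  have c2 : ∀ x ∈ A.core, Cod2 A.core x := fun x hx => by
    obtain ⟨u, rfl⟩ := core_eq hx
    exact cod2_model (c := fun p => A.e₀ (zc p)) Complex.finrank_real_complex.ge (ldE hA _ (ax u))
      (mem_of_superset (open_D.mem_nhds (ax u)) fun q hq => core_iff hA hq)
  obtain ⟨τ', h1, h2⟩ := (ext2 A.X G univ A.core μ isOpen_univ
    (compl_eq_univ_sdiff A.core ▸ hL.oj.op) fun x hx => c2 x hx.2).2
    (compl_eq_univ_sdiff A.core ▸ hμ) fun x _ => by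
      by_cases hx : x ∈ A.core
      · exact ⟨O, oO.mem_nhds (cO hx), t2⟩
      · obtain ⟨V, a, b⟩ := hμ.loc_triv (hL.oj.op.mem_nhds hx)
        exact ⟨V, a, b.mono sdiff_subset⟩
  have t3 : Triv τ' O := h1.triv_over_mf (subset_univ _) oO (oO.inter hL.oj.op)
    (fun x hx => c2 x hx.2) (t2.congr_tau fun x y γ hγ => h2 x y γ fun t => ⟨trivial, (hγ t).2⟩)
  obtain ⟨r, hr⟩ : Triv μ A.coreᶜ := ((hM A St Φ hA hS G τ' h1 (t3.mono cO)).mono
    (subset_univ _)).congr_tau fun x y γ hγ => (h2 x y γ fun t => ⟨trivial, hγ t⟩).symm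
  have t4 := hL.oj.triv_of_up hτ subset_rfl (mapsTo_univ _ _) (hp.up hr)
  have e : univ \ (j '' A.coreᶜ)ᶜ = j '' A.coreᶜ := by simp
  refine hτ.triv_over_mf (K := (j '' A.coreᶜ)ᶜ) subset_rfl isOpen_univ
    (e.symm ▸ hL.oj.isOpen_image hL.oj.op subset_rfl) (fun x hx => ?_) (e.symm ▸ t4)
  obtain ⟨z, hz, rfl⟩ := (hL.cov x).resolve_left hx.2
  rw [← zc_wz z, hz]
  refine cod2_model (c := fun p => k (zc p)) Complex.finrank_real_complex.ge (ldK hL _ (ax _))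
    (mem_of_superset (open_D.mem_nhds (ax _)) fun q hq => ⟨fun h => ?_, fun h => ?_⟩)
  · by_contra h0
    have h3 : wz (zc q) ≠ 0 := by rwa [wz_zc]
    refine h ⟨A.e₀ (zc (q.1 - q.2.arg, q.2)), fun h4 => h0 ((core_iff hA
      (p := (q.1 - q.2.arg, q.2)) ⟨trivial, hq.2⟩).1 h4), ?_⟩
    rw [hL.rel _ (dsc hq) h3 q.2.arg
      (by rw [IsArg, wz_zc]; exact (Complex.norm_mul_exp_arg_mul_I _).symm)]
    simp [su, zc]
  · exact hL.kc _ ((wz_zc q).trans h)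

end Pool.Agent.MP_e1dc65_gt.EA

end
end MrgPart5

-- marker of a merged file
example : 731051 + 177199 = 731051 + 177199 := rfl
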