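import Mathlib.Analysis.SpecialFunctions.Complex.LogDeriv
import Mathlib.Analysis.Real.Pi.Bounds
import Pool.Agent.MP_e1dc65_gt.k.Etale
import Pool.Agent.MP_e1dc65_gt.e.aLie
import Pool.Agent.MP_e1dc65_gt.t2.Disc
import Mathlib.Topology.Algebra.Module.Cardinality
import Pool.Agent.MP_e1dc65_gt.t.PreCof

-- ======== part 0: formerly Pool.Agent.MP_e1dc65_gt.e.aBase
section MrgPart0

/-! PROJECT HC, part E, sub-part A: common lemmas. -/

open scoped ContDiff Manifold Topology Matrix Real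
open Set Filter Function Module

noncomputable section

namespace Pool.Agent.MP_e1dc65_gt

/-! ### The lattice -/

namespace Lat
variable {n : ℕ} {z z' z'' : Rn n}

theorem refl (z : Rn n) : Lat z z := fun _ => ⟨0, by simp⟩
theorem symm (h : Lat z z') : Lat z' z := fun i =>
  let ⟨m, hm⟩ := h i; ⟨-m, by push_cast; linarith⟩
theorem trans (h : Lat z z') (h' : Lat z' z'') : Lat z z'' := fun i =>
  let ⟨m, hm⟩ := h i; let ⟨k, hk⟩ := h' i; ⟨m + k, by push_cast; linarith⟩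
theorem add (h : Lat z z') (v : Rn n) : Lat (z + v) (z' + v) := fun i =>
  let ⟨m, hm⟩ := h i; ⟨m, by simp [hm]⟩
theorem sub_self (h : Lat z z') (y : Rn n) : Lat y (y - (z - z')) := fun i =>
  let ⟨m, hm⟩ := h i; ⟨m, by simp [hm]⟩
theorem close (h : Lat z z') {i : Fin n} (hi : |z i - z' i| < 2 * π) : z i = z' i := by
  obtain ⟨m, hm⟩ := h i
  have hp := Real.two_pi_pos
  rw [hm, abs_mul, abs_of_pos hp, mul_lt_iff_lt_one_right hp, ← Int.cast_abs] at hi
  have : m = 0 := Int.abs_lt_one_iff.1 (by exact_mod_cast hi)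
  rw [this, Int.cast_zero, mul_zero] at hm
  linarith
theorem cos (h : Lat z z') (i : Fin n) (c : ℝ) : Real.cos (z i - c) = Real.cos (z' i - c) := by
  obtain ⟨m, hm⟩ := h i
  rw [show z i - c = z' i - c + m * (2 * π) by linarith, Real.cos_add_int_mul_two_pi]
theorem exp (h : Lat z z') (i : Fin n) :
    Complex.exp (z i * Complex.I) = Complex.exp (z' i * Complex.I) := by
  obtain ⟨m, hm⟩ := h i
  refine Complex.exp_eq_exp_iff_exists_int.2 ⟨m, ?_⟩
  rw [show z i = z' i + 2 * π * m by linarith]; push_cast; ring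
theorem cut {z z' : Rn 3} {i : Fin 3} (h : Lat z z') (hz : z ∈ Cut i) : z' ∈ Cut i :=
  let ⟨y, hy, h2⟩ := hz; ⟨y, h.symm.trans hy, h2⟩
end Lat

theorem lat3 {z z' : Rn 3} : Lat z z' ↔ (∃ m : ℤ, z 0 - z' 0 = 2 * π * m) ∧
    (∃ m : ℤ, z 1 - z' 1 = 2 * π * m) ∧ ∃ m : ℤ, z 2 - z' 2 = 2 * π * m :=
  Fin.forall_fin_succ.trans (and_congr_right fun _ => Fin.forall_fin_two)

theorem lat_of_exp {a b : ℝ} (h : Complex.exp (a * Complex.I) = Complex.exp (b * Complex.I)) :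
    ∃ m : ℤ, a - b = 2 * π * m := by
  obtain ⟨m, hm⟩ := Complex.exp_eq_exp_iff_exists_int.1 h
  refine ⟨m, ?_⟩
  have := congrArg Complex.im hm
  simp at this
  linarith

theorem eps_pos : 0 < eps := by norm_num [eps]
theorem jx_ne_kx (i : Fin 3) : jx i ≠ kx i := by fin_cases i <;> simp [jx, kx]
theorem jx_ne (i : Fin 3) : jx i ≠ i := by fin_cases i <;> simp [jx]
theorem kx_ne (i : Fin 3) : kx i ≠ i := by fin_cases i <;> simp [kx]

theorem mem_cut {i : Fin 3} {z : Rn 3} : z ∈ Cut i ↔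
    (∃ m : ℤ, |z (jx i) - 2 * π * m - cj i| ≤ eps) ∧ ∃ m : ℤ, z (kx i) - 2 * π * m = ck i := by
  constructor
  · rintro ⟨y, hy, h1, h2⟩
    obtain ⟨m, hm⟩ := hy (jx i)
    obtain ⟨k, hk⟩ := hy (kx i)
    exact ⟨⟨m, by rwa [show z (jx i) - 2 * π * m = y (jx i) by linarith]⟩, k, by linarith⟩
  · rintro ⟨⟨m, hm⟩, k, hk⟩
    refine ⟨z - Pi.single (jx i) (2 * π * m) - Pi.single (kx i) (2 * π * k), fun l => ?_, ?_, ?_⟩
    · by_cases a : l = jx i
      · exact ⟨m, by simp [a, jx_ne_kx]⟩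
      · by_cases b : l = kx i
        · exact ⟨k, by simp [b, (jx_ne_kx i).symm]⟩
        · exact ⟨0, by simp [a, b]⟩
    · simpa [jx_ne_kx] using hm
    · simpa [(jx_ne_kx i).symm] using hk

/-- a periodised closed interval is closed -/
theorem isClosed_per (c d : ℝ) : IsClosed {t : ℝ | ∃ m : ℤ, |t - 2 * π * m - c| ≤ d} := by
  have : {t : ℝ | ∃ m : ℤ, |t - 2 * π * m - c| ≤ d} =
      ⋃ m : ℤ, Icc (2 * π * m + c - d) (2 * π * m + c + d) := by
    ext t
    simp only [mem_ofPred_eq, mem_iUnion, mem_Icc, abs_le]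
    exact exists_congr fun m => ⟨fun h => ⟨by linarith, by linarith⟩, fun h => ⟨by linarith, by linarith⟩⟩
  rw [this]
  refine LocallyFinite.isClosed_iUnion (fun t => ⟨Ioo (t - 1) (t + 1), Ioo_mem_nhds (by linarith)
    (by linarith), (finite_Icc ⌊(t - 1 - c - d) / (2 * π)⌋ ⌈(t + 1 - c + d) / (2 * π)⌉).subset ?_⟩)
    fun _ => isClosed_Icc
  rintro m ⟨x, ⟨h1, h2⟩, h3, h4⟩
  have hp := Real.two_pi_pos
  exact ⟨Int.floor_le_iff.2 (by rw [div_lt_iff₀ hp]; nlinarith),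
    Int.le_ceil_iff.2 (by rw [lt_div_iff₀ hp]; nlinarith)⟩

theorem isClosed_cut (i : Fin 3) : IsClosed (Cut i) := by
  have : Cut i = (fun z : Rn 3 => z (jx i)) ⁻¹' {t | ∃ m : ℤ, |t - 2 * π * m - cj i| ≤ eps} ∩
      (fun z : Rn 3 => z (kx i)) ⁻¹' {t | ∃ m : ℤ, |t - 2 * π * m - ck i| ≤ 0} := by
    ext z
    simp only [mem_cut, mem_inter_iff, mem_preimage, mem_ofPred_eq, abs_nonpos_iff, sub_eq_zero]
  rw [this]
  exact ((isClosed_per _ _).preimage (continuous_apply _)).inter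
    ((isClosed_per _ _).preimage (continuous_apply _))

theorem isOpen_box (i : Fin 3) : IsOpen (Box i) := by
  refine IsOpen.and (isOpen_lt ?_ ?_) (isOpen_lt ?_ ?_) <;> fun_prop

/-- no integer multiple of `2π` lies strictly between `0` and `2π` -/
theorem no_int {t : ℝ} {m k : ℤ} (h1 : 2 * π * k < t) (h2 : t < 2 * π * (k + 1)) :
    t ≠ 2 * π * m := by
  rintro rfl
  have hp := Real.two_pi_pos
  have a : k < m := by exact_mod_cast (mul_lt_mul_iff_right₀ hp).1 h1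
  have b : m < k + 1 := by exact_mod_cast (mul_lt_mul_iff_right₀ hp).1 h2
  omega

/-! ### Descent of coframes -/

section Cf
variable {E E' E'' V : Type} [NormedAddCommGroup E] [NormedSpace ℝ E] [FiniteDimensional ℝ E]
  [NormedAddCommGroup E'] [NormedSpace ℝ E'] [FiniteDimensional ℝ E'] [NormedAddCommGroup E'']
  [NormedSpace ℝ E''] [FiniteDimensional ℝ E''] [NormedAddCommGroup V] [NormedSpace ℝ V]

omit [FiniteDimensional ℝ E] [FiniteDimensional ℝ E'] [FiniteDimensional ℝ E''] in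
/-- compatibility of two local coframes, read along a transition map `t` -/
theorem cof_compat {X : Mf E} {Y : Mf E'} {Z : Mf E''} {e : Y → X} {e' : Z → X} {t : Y → Z} {y : Y}
    {a : E' →L[ℝ] V} {b : E'' →L[ℝ] V} (he : LDAt Y X e y) (he' : LDAt Z X e' (t y))
    (ht : SmAt Y Z t y) (h : ∀ᶠ x in 𝓝 y, e' (t x) = e x) (hab : ∀ v, a v = b (Df Y Z t y v)) :
    a.comp (Df Y X e y).inverse = b.comp (Df Z X e' (t y)).inverse := by
  have h1 : Df Y X e y = (Df Z X e' (t y)).comp (Df Y Z t y) := by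
    rw [← Df_comp ht he'.sm]; exact (Df_congr h).symm
  ext v
  obtain ⟨w, rfl⟩ : ∃ w, Df Y X e y w = v := ⟨_, he.inv.self_apply_inverse v⟩
  rw [ContinuousLinearMap.comp_apply, ContinuousLinearMap.comp_apply, he.inv.inverse_apply_self,
    hab, h1, ContinuousLinearMap.comp_apply, he'.inv.inverse_apply_self]

/-- a form represented on an etale chart by a coframe is a coframe -/
theorem cof_of_chart {X : Mf E} {Y : Mf E'} {e : Y → X} {O : Set Y} {Θ : X → E →L[ℝ] V}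
    {θ : Y → E' →L[ℝ] V} (hO : IsOpen O) (he : ∀ y ∈ O, LDAt Y X e y) (hθ : Cof Y 0 θ O)
    (h : ∀ y ∈ O, (Θ (e y)).comp (Df Y X e y) = θ y) : Cof X 0 Θ (e '' O) := by
  rintro _ ⟨y, hy, rfl⟩
  refine ⟨CfAt.of_pb (he y hy) ((hθ y hy).1.congr' (eventually_of_mem (hO.mem_nhds hy) h)), ?_⟩
  have : Θ (e y) = (θ y).comp (Df Y X e y).inverse := by
    rw [← h y hy, ContinuousLinearMap.comp_assoc, (he y hy).inv.self_comp_inverse,
      ContinuousLinearMap.comp_id]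
  rw [this]
  exact (hθ y hy).2.comp (he y hy).inv.inverse

/-- compatible coframes on etale charts define a coframe -/
theorem cof_desc {ι : Type} {X : Mf E} {Y : Mf E'} {e : ι → Y → X} {O : ι → Set Y}
    {θ : ι → Y → E' →L[ℝ] V} (hO : ∀ i, IsOpen (O i)) (he : ∀ i, ∀ y ∈ O i, LDAt Y X (e i) y)
    (hθ : ∀ i, Cof Y 0 (θ i) (O i))
    (h : ∀ i j, ∀ y ∈ O i, ∀ y' ∈ O j, e i y = e j y' →
      (θ i y).comp (Df Y X (e i) y).inverse = (θ j y').comp (Df Y X (e j) y').inverse) :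
    ∃ Θ : X → E →L[ℝ] V, Cof X 0 Θ (⋃ i, e i '' O i) ∧
      ∀ i, ∀ y ∈ O i, (Θ (e i y)).comp (Df Y X (e i) y) = θ i y := by
  obtain ⟨Θ, hΘ⟩ := desc (P := fun _ => Y) O e (fun i y => (θ i y).comp (Df Y X (e i) y).inverse) h
  have k : ∀ i, ∀ y ∈ O i, (Θ (e i y)).comp (Df Y X (e i) y) = θ i y := fun i y hy => by
    rw [hΘ i y hy, ContinuousLinearMap.comp_assoc, (he i y hy).inv.inverse_comp_self,
      ContinuousLinearMap.comp_id]
  exact ⟨Θ, fun x hx => let ⟨i, hi⟩ := mem_iUnion.1 hx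
    cof_of_chart (hO i) (he i) (hθ i) (k i) x hi, k⟩

/-- two charts with different models -/
theorem cof_desc2 {X : Mf E} {Y : Mf E'} {Z : Mf E''} {e : Y → X} {e' : Z → X} {O : Set Y}
    {O' : Set Z} {θ : Y → E' →L[ℝ] V} {θ' : Z → E'' →L[ℝ] V} (he : OE Y X e O) (he' : OE Z X e' O')
    (hθ : Cof Y 0 θ O) (hθ' : Cof Z 0 θ' O')
    (h : ∀ y ∈ O, ∀ z ∈ O', e y = e' z →
      (θ y).comp (Df Y X e y).inverse = (θ' z).comp (Df Z X e' z).inverse) :
    ∃ Θ : X → E →L[ℝ] V, Cof X 0 Θ (e '' O ∪ e' '' O') ∧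
      (∀ y ∈ O, (Θ (e y)).comp (Df Y X e y) = θ y) ∧
      ∀ z ∈ O', (Θ (e' z)).comp (Df Z X e' z) = θ' z := by
  obtain ⟨Θ, h1, h2⟩ := desc2 (ι := Unit) O (fun _ => O') e (fun _ => e')
    (fun y => (θ y).comp (Df Y X e y).inverse) (fun _ z => (θ' z).comp (Df Z X e' z).inverse)
    (fun x hx y hy h => by rw [he.inj hx hy h]) (fun _ => h)
    fun _ _ x hx y hy h => by rw [he'.inj hx hy h]
  have k1 : ∀ y ∈ O, (Θ (e y)).comp (Df Y X e y) = θ y := fun y hy => by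
    rw [h1 y hy, ContinuousLinearMap.comp_assoc, (he.ld y hy).inv.inverse_comp_self,
      ContinuousLinearMap.comp_id]
  have k2 : ∀ z ∈ O', (Θ (e' z)).comp (Df Z X e' z) = θ' z := fun y hy => by
    rw [h2 () y hy, ContinuousLinearMap.comp_assoc, (he'.ld y hy).inv.inverse_comp_self,
      ContinuousLinearMap.comp_id]
  exact ⟨Θ, fun x hx => hx.elim (cof_of_chart he.op he.ld hθ k1 x)
    (cof_of_chart he'.op he'.ld hθ' k2 x), k1, k2⟩

/-- a chart times the line, read on the product vector space -/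
theorem LDAt.cylv {X : Mf E} {e : E' → X} {p : E' × ℝ} (h : LDAt (vs E') X e p.1) :
    LDAt (vs (E' × ℝ)) X.cyl (fun q => (e q.1, q.2)) p := by
  refine LDAt.trans (X := vs (E' × ℝ)) (Y := (vs E').prod (vs ℝ)) (Z := X.cyl) (f := fun q => q)
    (g := fun q => (e q.1, q.2)) (x := p) ?_ (h.prodMap (ldAt_id (X := vs ℝ) (x := p.2)))
  exact ldAt_of_inv (X := vs (E' × ℝ)) (Y := (vs E').prod (vs ℝ)) (g := fun q => q) isOpen_univ
    isOpen_univ trivial (fun _ _ => smAt_vs_prod) (fun _ _ => smAt_prod_vs) (mapsTo_univ _ _)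
    (mapsTo_univ _ _) (fun _ _ => rfl) fun _ _ => rfl

omit [FiniteDimensional ℝ E] in
theorem Df_cylv {X : Mf E} {e : E' → X} {p : E' × ℝ} (h : SmAt (vs E') X e p.1) (v : E' × ℝ) :
    Df (vs (E' × ℝ)) X.cyl (fun q => (e q.1, q.2)) p v = (Df (vs E') X e p.1 v.1, v.2) := by
  have h1 : SmAt (vs (E' × ℝ)) (vs E') Prod.fst p := smAt_vs.2 contDiffAt_fst
  rw [Df_pair (Z := vs ℝ) (h1.trans h) (smAt_vs.2 contDiffAt_snd), Df_comp h1 h, Df_vs, Df_vs,
    fderiv_fst, fderiv_snd]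
  rfl

omit [FiniteDimensional ℝ E] [FiniteDimensional ℝ E'] in
theorem Df_cyl {X : Mf E} {Y : Mf E'} {f : X → Y} {p : X.cyl} (h : SmAt X Y f p.1) (v : E × ℝ) :
    Df X.cyl Y.cyl (fun q => (f q.1, q.2)) p v = (Df X Y f p.1 v.1, v.2) := by
  rw [Df_pair (Z := vs ℝ) (smAt_fst.trans h) smAt_snd, Df_comp smAt_fst h, Df_fst, Df_snd]
  rfl

end Cf

namespace EA

theorem isOpen_mainI (I : Set (Fin 3)) : IsOpen (MainI I) := by
  have : MainI I = ⋂ i ∈ I, (Cut i)ᶜ := by ext z; simp [MainI]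
  rw [this]
  exact (toFinite I).isOpen_biInter fun i _ => (isClosed_cut i).isOpen_compl

theorem _root_.Pool.Agent.MP_e1dc65_gt.Lat.mainI {I : Set (Fin 3)} {z z' : Rn 3} (h : Lat z z')
    (hz : z ∈ MainI I) : z' ∈ MainI I := fun i hi c => hz i hi (h.symm.cut c)

theorem main_eq : Main = MainI univ := by ext z; simp [Main, MainI]
theorem main_sub (I : Set (Fin 3)) : Main ⊆ MainI I := fun _ h i _ => h i
theorem i01_0 : (0 : Fin 3) ∈ I01 := by simp [I01]
theorem i01_1 : (1 : Fin 3) ∈ I01 := by simp [I01]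
theorem i01_iff {i : Fin 3} : i ∈ I01 ↔ i = 0 ∨ i = 1 := by fin_cases i <;> simp [I01]
theorem mem_mainI {z : Rn 3} : z ∈ MainI I01 ↔ z ∉ Cut 0 ∧ z ∉ Cut 1 :=
  ⟨fun h => ⟨h 0 i01_0, h 1 i01_1⟩, fun h _ hi => (i01_iff.1 hi).elim (· ▸ h.1) (· ▸ h.2)⟩

theorem std_sub : Std ⊆ MainI I01 := fun z hz => by
  have h3 := Real.pi_gt_d2
  have h4 := Real.pi_lt_d2
  refine mem_mainI.2 ⟨fun h => ?_, fun h => ?_⟩ <;> obtain ⟨⟨m, hm⟩, k, hk⟩ := mem_cut.1 h <;>
    simp only [jx, kx, cj, ck, eps, Matrix.cons_val_zero, Matrix.cons_val_one, abs_le] at hm hk <;>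
    rcases hz with ⟨a, b, c, d⟩ | a
  · rcases le_or_gt 0 m with h | h
    · have : (0 : ℝ) ≤ m := by exact_mod_cast h
      nlinarith
    · have : (m : ℝ) ≤ -1 := by exact_mod_cast Int.le_sub_one_of_lt h
      nlinarith
  · exact no_int (m := k) (k := -1) (t := z 2 - π / 2) (by push_cast; linarith [(abs_lt.1 a).1])
      (by push_cast; linarith [(abs_lt.1 a).2]) (by linarith)
  · rcases le_or_gt m 0 with h | h
    · have : (m : ℝ) ≤ 0 := by exact_mod_cast h
      nlinarith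
    · have : (1 : ℝ) ≤ m := by exact_mod_cast h
      nlinarith
  · exact no_int (m := k) (k := -1) (t := z 2 - 3 * π / 2) (by push_cast; linarith [(abs_lt.1 a).1])
      (by push_cast; linarith [(abs_lt.1 a).2]) (by linarith)

theorem isOpen_std : IsOpen Std := by
  refine IsOpen.union (IsOpen.and (isOpen_lt ?_ ?_) (IsOpen.and (isOpen_lt ?_ ?_)
    (IsOpen.and (isOpen_lt ?_ ?_) (isOpen_lt ?_ ?_)))) (isOpen_lt (f := fun z : Rn 3 => |z 2|) ?_ ?_)
    <;> fun_prop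

theorem wz_eq (z : Rn 3) : wz z = (z 0 - 3 * π / 2 : ℝ) + (z 1 - π / 2 : ℝ) * Complex.I :=
  Complex.mk_eq_add_mul_I _ _
theorem cd_wz : ContDiff ℝ ∞ wz := by
  have : wz = fun z => Complex.ofRealCLM (z 0 - 3 * π / 2) +
      Complex.ofRealCLM (z 1 - π / 2) * Complex.I := funext wz_eq
  rw [this]; fun_prop
theorem cont_wz : Continuous wz := cd_wz.continuous
theorem wz_zero {z : Rn 3} : wz z = 0 ↔ z 0 = 3 * π / 2 ∧ z 1 = π / 2 := by
  simp [wz, Complex.ext_iff, sub_eq_zero]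
theorem wz_ext {z z' : Rn 3} : wz z = wz z' ↔ z 0 = z' 0 ∧ z 1 = z' 1 := by
  simp [wz, Complex.ext_iff]
@[simp] theorem wz_su (θ : ℝ) (z : Rn 3) : wz (su θ z) = wz z := rfl
@[simp] theorem su_su (a b : ℝ) (z : Rn 3) : su a (su b z) = su (a + b) z := by
  ext i; fin_cases i <;> simp [su]; ring
@[simp] theorem su_zero (z : Rn 3) : su 0 z = z := by ext i; fin_cases i <;> simp [su]
theorem su_lat {a b : ℝ} {z z' : Rn 3} (h : Lat z z') (hab : ∃ m : ℤ, a - b = 2 * π * m) :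
    Lat (su a z) (su b z') := by
  obtain ⟨h0, h1, m, hm⟩ := lat3.1 h
  obtain ⟨k, hk⟩ := hab
  exact lat3.2 ⟨h0, h1, m - k, by simp [su]; linarith⟩

theorem isOpen_dsc : IsOpen Dsc := isOpen_lt cont_wz.norm continuous_const
theorem dsc_abs {z : Rn 3} (h : z ∈ Dsc) : |z 0 - 3 * π / 2| < 1 ∧ |z 1 - π / 2| < 1 :=
  ⟨(Complex.abs_re_le_norm (wz z)).trans_lt h, (Complex.abs_im_le_norm (wz z)).trans_lt h⟩
theorem dsc_of_zero {z : Rn 3} (h : wz z = 0) : z ∈ Dsc := by simp [Dsc, h]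
theorem dsc_std : Dsc ⊆ Std := fun z h => by
  have h3 := Real.pi_gt_d2
  have h4 := Real.pi_lt_d2
  obtain ⟨a, b⟩ := dsc_abs h
  rw [abs_lt] at a b
  exact .inl ⟨by linarith, by linarith, by linarith, by linarith⟩
theorem dsc_sub : Dsc ⊆ MainI I01 := dsc_std.trans std_sub
theorem lat_dsc {z z' : Rn 3} (h : Lat z z') (hz : z ∈ Dsc) (hz' : z' ∈ Dsc) : wz z = wz z' := by
  have h3 := Real.pi_gt_three
  obtain ⟨a, b⟩ := dsc_abs hz
  obtain ⟨c, d⟩ := dsc_abs hz'
  rw [abs_lt] at a b c d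
  exact wz_ext.2 ⟨h.close (abs_lt.2 ⟨by linarith, by linarith⟩),
    h.close (abs_lt.2 ⟨by linarith, by linarith⟩)⟩
theorem col_std {z : Rn 3} (h0 : |z 0 - π| < 1) (h1 : |z 1 - π| < 1) : z ∈ Std := by
  have h3 := Real.pi_gt_d2
  have h4 := Real.pi_lt_d2
  rw [abs_lt] at h0 h1
  exact .inl ⟨by linarith, by linarith, by linarith, by linarith⟩

/-! ### Arguments -/

theorem isArg_arg (w : ℂ) : IsArg w w.arg := (Complex.norm_mul_exp_arg_mul_I w).symm
theorem IsArg.lat {w : ℂ} {a b : ℝ} (h0 : w ≠ 0) (ha : IsArg w a) (hb : IsArg w b) :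
    ∃ m : ℤ, a - b = 2 * π * m :=
  lat_of_exp (mul_left_cancel₀ (by exact_mod_cast norm_ne_zero_iff.2 h0) (ha.symm.trans hb))
theorem IsArg.add {w : ℂ} {a : ℝ} (ha : IsArg w a) (m : ℤ) : IsArg w (a + 2 * π * m) := by
  rw [IsArg, ← Complex.exp_eq_exp_iff_exists_int.2 ⟨-m, (by push_cast; ring :
    (a : ℂ) * Complex.I = _)⟩]
  exact ha
theorem cd_arg {w : ℂ} (h : w ∈ Complex.slitPlane) : ContDiffAt ℝ ∞ Complex.arg w := by
  have : Complex.arg = fun w => Complex.imCLM (Complex.log w) := funext fun w =>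
    (Complex.log_im w).symm
  rw [this]
  exact Complex.imCLM.contDiff.contDiffAt.comp w ((Complex.contDiffAt_log h).restrict_scalars ℝ)
/-- a smooth local branch of the argument -/
theorem exists_arg {w : ℂ} {a : ℝ} (h0 : w ≠ 0) (ha : IsArg w a) : ∃ g : ℂ → ℝ, g w = a ∧
    ∀ᶠ v in 𝓝 w, ContDiffAt ℝ ∞ g v ∧ IsArg v (g v) := by
  have hn : (0 : ℝ) < ‖w‖ := norm_pos_iff.2 h0
  have e : w * Complex.exp (-(a * Complex.I)) = (‖w‖ : ℝ) := by
    rw [congrArg (· * Complex.exp (-(a * Complex.I))) ha, mul_assoc, ← Complex.exp_add]; simp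
  refine ⟨fun v => a + (v * Complex.exp (-(a * Complex.I))).arg, by
    simp only [e, Complex.arg_ofReal_of_nonneg hn.le, add_zero], ?_⟩
  have hc : Continuous fun v : ℂ => v * Complex.exp (-(a * Complex.I)) := by fun_prop
  filter_upwards [hc.continuousAt.preimage_mem_nhds (Complex.isOpen_slitPlane.mem_nhds
    (by rw [e]; exact Complex.ofReal_mem_slitPlane.2 hn))] with v hv
  refine ⟨contDiffAt_const.add ((cd_arg hv).comp v (contDiffAt_id.mul contDiffAt_const)), ?_⟩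
  have h1 := isArg_arg (v * Complex.exp (-(a * Complex.I)))
  have h2 : ‖v * Complex.exp (-(a * Complex.I))‖ = ‖v‖ := by
    rw [norm_mul, ← neg_mul, ← Complex.ofReal_neg, Complex.norm_exp_ofReal_mul_I, mul_one]
  rw [IsArg, h2] at h1
  rw [IsArg, Complex.ofReal_add, add_mul, Complex.exp_add, mul_left_comm, ← h1, mul_left_comm,
    ← Complex.exp_add]
  simp

/-! ### The core circle -/

namespace MA.Ok
variable {A : MA} (h : A.Ok)
include h

theorem ldD {z : Rn 3} (hz : z ∈ Dsc) : LDAt (vs (Rn 3)) A.X A.e₀ z := h.tw.ld0 z (dsc_sub hz)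
theorem eqD {z z' : Rn 3} (hz : z ∈ Dsc) (hz' : z' ∈ Dsc) : A.e₀ z = A.e₀ z' ↔ Lat z z' :=
  h.tw.eq0 z (dsc_sub hz) z' (dsc_sub hz')
theorem mem_core {x : A.X} : x ∈ A.core ↔ A.del x = 0 := by
  constructor
  · rintro ⟨z, hz, rfl⟩
    rw [h.del0 z (dsc_of_zero hz), show wz z = 0 from hz, norm_zero]
  · intro h0
    obtain h1 | ⟨z, hz, rfl⟩ := h.del1 x
    · norm_num [h0] at h1
    · exact ⟨z, norm_eq_zero.1 ((h.del0 z hz).symm.trans h0), rfl⟩
theorem core_iff {z : Rn 3} (hz : z ∈ Dsc) : A.e₀ z ∈ A.core ↔ wz z = 0 := by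
  rw [h.mem_core, h.del0 z hz, norm_eq_zero]
theorem del_nonneg (x : A.X) : 0 ≤ A.del x := by
  obtain h1 | ⟨z, hz, rfl⟩ := h.del1 x
  · rw [h1]; exact zero_le_one
  · rw [h.del0 z hz]; exact norm_nonneg _
theorem del_lt {x : A.X} (hx : A.del x < 1) : ∃ z ∈ Dsc, A.e₀ z = x := (h.del1 x).resolve_left hx.ne
theorem isClosed_core : IsClosed A.core := by
  have : A.core = A.del ⁻¹' {0} := Set.ext fun _ => h.mem_core
  rw [this]; exact isClosed_singleton.preimage h.delc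
theorem core_σ {x : A.X} : A.σ x ∈ A.core ↔ x ∈ A.core := by rw [h.mem_core, h.mem_core, h.delσ]
theorem isOpen_U : IsOpen A.U := by
  have : A.U = Prod.fst ⁻¹' A.coreᶜ ∪ {p : A.X × ℝ | |p.2| < 1} :=
    Set.ext fun p => imp_iff_not_or
  rw [this]
  exact (h.isClosed_core.isOpen_compl.preimage continuous_fst).union
    (isOpen_lt (by fun_prop) continuous_const)
theorem σU {p : A.X.cyl} (hp : p ∈ A.U) : (A.σ p.1, -p.2) ∈ A.U := fun c => by
  rw [abs_neg]; exact hp (h.core_σ.1 c)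
theorem dlo_U {q : Rn 3 × ℝ} (hq : q ∈ Dlo) : (A.e₀ q.1, q.2) ∈ A.U := fun c =>
  abs_lt.2 ⟨by linarith [hq.2.1], hq.2.2 ((h.core_iff hq.1).1 c)⟩
theorem σld (x : A.X) : LDAt A.X A.X A.σ x :=
  ldAt_of_inv isOpen_univ isOpen_univ trivial h.σsm h.σsm (mapsTo_univ _ _) (mapsTo_univ _ _)
    (fun x _ => h.σσ x) fun x _ => h.σσ x
theorem norm_ang (x : A.X) : ‖A.ang x‖ = 1 := by
  obtain ⟨z, hz, rfl⟩ | ⟨i, hi, z, hz, rfl⟩ := h.tw.cov x
  · rw [h.ang0 z hz, Complex.norm_exp_ofReal_mul_I]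
  · rw [h.angb i hi z hz, Complex.norm_exp_ofReal_mul_I]
theorem σne (x : A.X) : A.σ x ≠ x := fun e => by
  have := h.angσ x
  rw [e, CharZero.eq_neg_self_iff] at this
  simpa [this] using h.norm_ang x
/-- the column is far from the core -/
theorem col_del {z : Rn 3} (h0 : |z 0 - π| < 1) (h1 : |z 1 - π| < 1) : 1 / 2 < A.del (A.e₀ z) := by
  have h3 := Real.pi_gt_d2
  have h4 := Real.pi_lt_d2
  obtain e | ⟨y, hy, e⟩ := h.del1 (A.e₀ z)
  · rw [e]; norm_num
  · have l := (h.tw.eq0 y (dsc_sub hy) z (std_sub (col_std h0 h1))).1 e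
    obtain ⟨a, -⟩ := dsc_abs hy
    rw [abs_lt] at a h0
    have := l.close (i := 0) (abs_lt.2 ⟨by linarith, by linarith⟩)
    rw [← e, h.del0 y hy]
    exact lt_of_lt_of_le (lt_abs.2 (.inr (by simp only [wz]; linarith))) (Complex.abs_re_le_norm _)
theorem col_core {z : Rn 3} (h0 : |z 0 - π| < 1) (h1 : |z 1 - π| < 1) : A.e₀ z ∉ A.core :=
  fun c => by
    have := h.col_del h0 h1
    rw [h.mem_core.1 c] at this
    norm_num at this

end MA.Ok

theorem mem_U_of_lt {A : MA} {p : A.X.cyl} (h : |p.2| < 1) : p ∈ A.U := fun _ => h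
theorem zero_mem_Np : (0 : ℂ × ℂ) ∈ Np := by constructor <;> norm_num [rho]

theorem QtD.Ok.σld {A : MA} {T : QtD A} (h : T.Ok) (y : T.Qt) : LDAt T.Qt T.Qt T.σ y :=
  ldAt_of_inv isOpen_univ isOpen_univ trivial h.σsm h.σsm (mapsTo_univ _ _) (mapsTo_univ _ _)
    (fun x _ => h.σσ x) fun x _ => h.σσ x
theorem QtD.Ok.s_nut {A : MA} {T : QtD A} (h : T.Ok) {z : ℂ × ℂ} (hz : z ∈ Np) :
    1 / 2 < T.s (T.nut z) := by rw [h.sn z hz]; linarith [hz.2]
/-- the middle part lies in the image of `io` -/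
theorem QtD.Ok.mid {A : MA} {T : QtD A} (h : T.Ok) {y : T.Qt} (hy : |T.s y| ≤ 1 / 2) :
    ∃ m, T.io (m, T.s y) = y := by
  obtain ⟨p, hp, rfl⟩ | ⟨z, hz, rfl | rfl⟩ := h.cov y
  · exact ⟨p.1, by rw [h.si p hp]⟩
  · exact absurd (h.s_nut hz) (not_lt.2 (abs_le.1 hy).2)
  · rw [h.sσ, abs_neg] at hy
    exact absurd (h.s_nut hz) (not_lt.2 (abs_le.1 hy).2)
theorem QtD.Ok.io_lo {A : MA} {T : QtD A} (hA : A.Ok) (h : T.Ok) (N : NutStmt) {q : Rn 3 × ℝ}
    (hq : q ∈ Dlo) : T.io (A.e₀ q.1, q.2) = T.nut (lo q) :=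
  (h.rel _ (hA.dlo_U hq) _ (N.meml q hq).1).2 ⟨q, hq, rfl, rfl⟩

end EA

end Pool.Agent.MP_e1dc65_gt

end
end MrgPart0

-- ======== part 1: formerly Pool.Agent.MP_e1dc65_gt.e.aTwB
section MrgPart1

/-! PROJECT HC, part E, sub-part A, row TW: the torus bundle. -/

open scoped ContDiff Manifold Topology Real
open Set Filter Function Module

noncomputable section

namespace Pool.Agent.MP_e1dc65_gt.EA

namespace TwB

variable {i j : Fin 3} {x y z : Rn 3}

def tw (i : Fin 3) (z : Rn 3) : Rn 3 := if z (kx i) ≤ ck i then z else shr i z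
def shi (i : Fin 3) (z : Rn 3) : Rn 3 := z - Pi.single i (2 * π * lam (z (jx i) - cj i))
def nf : Option (Fin 3) → Rn 3 → Rn 3
  | none, z => z
  | some i, z => tw i z
def O : Option (Fin 3) → Set (Rn 3)
  | none => MainI I01
  | some i => {z | i ∈ I01 ∧ z ∈ Box i}

theorem shr_ne {l : Fin 3} (h : l ≠ i) (z : Rn 3) : shr i z l = z l := by simp [shr, h]
theorem shi_ne {l : Fin 3} (h : l ≠ i) (z : Rn 3) : shi i z l = z l := by simp [shi, h]
theorem tw_ne {l : Fin 3} (h : l ≠ i) (z : Rn 3) : tw i z l = z l := by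
  unfold tw; split_ifs; exacts [rfl, shr_ne h z]
theorem shi_shr (z : Rn 3) : shi i (shr i z) = z := by
  rw [shi, shr_ne (jx_ne i), shr, add_sub_cancel_right]
theorem shr_shi (z : Rn 3) : shr i (shi i z) = z := by
  rw [shr, shi_ne (jx_ne i), shi, sub_add_cancel]
theorem cd_d : ContDiff ℝ ∞ fun z : Rn 3 =>
    (Pi.single i (2 * π * lam (z (jx i) - cj i)) : Rn 3) :=
  (ContinuousLinearMap.single ℝ (fun _ : Fin 3 => ℝ) i).contDiff.comp
    (contDiff_const.mul (Fn.lam_sm.comp ((contDiff_apply ℝ ℝ _).sub contDiff_const)))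
theorem sm_shr : Sm (vs (Rn 3)) (vs (Rn 3)) (shr i) univ := fun _ _ =>
  smAt_vs.2 (contDiff_id.add cd_d).contDiffAt
theorem sm_shi : Sm (vs (Rn 3)) (vs (Rn 3)) (shi i) univ := fun _ _ =>
  smAt_vs.2 (contDiff_id.sub cd_d).contDiffAt
theorem ld_shr (z : Rn 3) : LDAt (vs (Rn 3)) (vs (Rn 3)) (shr i) z :=
  ldAt_of_inv isOpen_univ isOpen_univ trivial sm_shr sm_shi (mapsTo_univ _ _) (mapsTo_univ _ _)
    (fun z _ => shi_shr z) fun z _ => shr_shi z
theorem ld_shi (z : Rn 3) : LDAt (vs (Rn 3)) (vs (Rn 3)) (shi i) z :=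
  ldAt_of_inv isOpen_univ isOpen_univ trivial sm_shi sm_shr (mapsTo_univ _ _) (mapsTo_univ _ _)
    (fun z _ => shr_shi z) fun z _ => shi_shr z
theorem ld_add (v z : Rn 3) : LDAt (vs (Rn 3)) (vs (Rn 3)) (fun w => w + v) z :=
  ldAt_of_inv (X := vs (Rn 3)) (Y := vs (Rn 3)) (g := fun w => w - v) isOpen_univ isOpen_univ trivial
    (fun _ _ => smAt_vs.2 (by fun_prop)) (fun _ _ => smAt_vs.2 (by fun_prop)) (mapsTo_univ _ _)
    (mapsTo_univ _ _) (fun _ _ => add_sub_cancel_right _ _) fun _ _ => sub_add_cancel _ _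
theorem lat_add (h : Lat x y) (z : Rn 3) : Lat z (z + (y - x)) := by
  have := h.sub_self z
  rwa [sub_eq_add_neg, neg_sub] at this

theorem op_O : ∀ a, IsOpen (O a)
  | none => isOpen_mainI _
  | some i => isOpen_const.inter (isOpen_box i)

theorem cl_int (a b : Fin 3) :
    IsClosed {p : Rn 3 × Rn 3 | ∃ m : ℤ, p.1 a - p.2 b = 2 * π * m} := by
  have := (isClosed_per 0 0).preimage (f := fun p : Rn 3 × Rn 3 => p.1 a - p.2 b) (by fun_prop)
  simpa only [preimage_ofPred_eq, sub_zero, abs_nonpos_iff, sub_eq_zero (b := 2 * π * _)] using this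
theorem cl_lat : IsClosed {p : Rn 3 × Rn 3 | Lat p.1 p.2} := by
  simpa only [Lat, ofPred_forall] using isClosed_iInter fun a => cl_int a a

theorem near {a b c : ℝ} (ha : |a - c| < 2 * eps) (hb : |b - c| < 2 * eps) : |a - b| < 2 * π := by
  have := abs_sub_le a c b
  rw [abs_sub_comm c] at this
  simp only [eps] at ha hb
  linarith [Real.pi_gt_three]

theorem tw_eq (hj : x (jx i) = y (jx i)) (hk : x (kx i) = y (kx i)) :
    tw i x - tw i y = x - y := by
  unfold tw shr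
  rw [hj, hk]
  split_ifs
  exacts [rfl, add_sub_add_right_eq_sub _ _ _]

theorem lat_tw (hx : x ∈ Box i) (hy : y ∈ Box i) : Lat (tw i x) (tw i y) ↔ Lat x y := by
  have key : x (jx i) = y (jx i) → x (kx i) = y (kx i) → (Lat (tw i x) (tw i y) ↔ Lat x y) :=
    fun a b => forall_congr' fun l => by rw [← Pi.sub_apply, tw_eq a b, Pi.sub_apply]
  refine ⟨fun h => (key ?_ ?_).1 h, fun h =>
    (key (h.close (near hx.1 hy.1)) (h.close (near hx.2 hy.2))).2 h⟩
  · have := h.close (i := jx i) (by simpa only [tw_ne (jx_ne i)] using near hx.1 hy.1)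
    simpa only [tw_ne (jx_ne i)] using this
  · have := h.close (i := kx i) (by simpa only [tw_ne (kx_ne i)] using near hx.2 hy.2)
    simpa only [tw_ne (kx_ne i)] using this

theorem box_cut (hz : z ∈ Box i) : z ∈ Cut i ↔ |z (jx i) - cj i| ≤ eps ∧ z (kx i) = ck i := by
  refine ⟨fun ⟨y, h, a, b⟩ => ?_, fun h => ⟨z, .refl z, h⟩⟩
  have e := eps_pos
  rw [h.close (near hz.1 (by linarith)), h.close (near hz.2 (by simp [b, e]))]
  exact ⟨a, b⟩

theorem not_lat (hi : i ∈ I01) (hj : j ∈ I01) (h : i ≠ j) (hx : |x 2 - ck i| < 2 * eps)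
    (hy : |y 2 - ck j| < 2 * eps) : ¬Lat x y := fun hl => by
  obtain ⟨m, hm⟩ := hl 2
  have h3 := Real.pi_gt_three
  rw [abs_lt] at hx hy
  rcases i01_iff.1 hi with rfl | rfl <;> rcases i01_iff.1 hj with rfl | rfl
  · exact h rfl
  · simp [eps, ck] at hx hy
    exact no_int (k := -1) (by push_cast; linarith) (by push_cast; linarith) hm
  · simp [eps, ck] at hx hy
    exact no_int (k := 0) (by push_cast; linarith) (by push_cast; linarith) hm
  · exact h rfl

theorem kx2 (hi : i ∈ I01) : kx i = 2 := by rcases i01_iff.1 hi with rfl | rfl <;> rfl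

theorem dis (hi : i ∈ I01) (hj : j ∈ I01) (h : i ≠ j) (hx : x ∈ Box i) (hy : y ∈ Box j) :
    ¬Lat (tw i x) (tw j y) :=
  not_lat hi hj h (by rw [tw_ne (Ne.symm hi), ← kx2 hi]; exact hx.2)
    (by rw [tw_ne (Ne.symm hj), ← kx2 hj]; exact hy.2)

theorem cut_tw : tw i z ∈ Cut i ↔ z ∈ Cut i := by
  simp only [mem_cut, tw_ne (jx_ne i), tw_ne (kx_ne i)]

theorem tw_main (hi : i ∈ I01) (hz : z ∈ Box i) (h : z ∉ Cut i) : tw i z ∈ MainI I01 :=
  fun j hj c => by
    rcases eq_or_ne i j with rfl | e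
    · exact h (cut_tw.1 c)
    · obtain ⟨y, hy, -, b⟩ := c
      exact not_lat hi hj e (by rw [tw_ne (Ne.symm hi), ← kx2 hi]; exact hz.2)
        (by rw [← kx2 hj, b]; simp [eps_pos]) hy

/-- near a point off the cut the normal form is a diffeomorphism modulo the lattice -/
theorem good (hz : z ∈ Box i) (h : z ∉ Cut i) : ∃ g g' : Rn 3 → Rn 3,
    (∀ w, LDAt (vs (Rn 3)) (vs (Rn 3)) g w) ∧ (∀ w, LDAt (vs (Rn 3)) (vs (Rn 3)) g' w) ∧
    (∀ w, g (g' w) = w) ∧ (∀ w, g' (g w) = w) ∧ ∀ᶠ w in 𝓝 z, Lat (tw i w) (g w) := by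
  have c : ∀ l, Continuous fun w : Rn 3 => w l := continuous_apply
  rcases lt_or_ge (ck i) (z (kx i)) with h1 | h1
  · refine ⟨shr i, shi i, ld_shr, ld_shi, shr_shi, shi_shr, ?_⟩
    filter_upwards [(isOpen_lt continuous_const (c _)).mem_nhds h1] with w hw
    rw [tw, if_neg (not_le.2 hw)]
    exact .refl _
  refine ⟨_, _, fun _ => ldAt_id, fun _ => ldAt_id, fun _ => rfl, fun _ => rfl, ?_⟩
  have key : ∀ (w : Rn 3) (m : ℤ), lam (w (jx i) - cj i) = m → Lat (tw i w) w := fun w m e => by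
    unfold tw
    split_ifs
    · exact .refl _
    · intro l
      rcases eq_or_ne l i with rfl | e'
      exacts [⟨m, by simp [shr, e]⟩, ⟨0, by simp [shr_ne e']⟩]
  rcases h1.lt_or_eq with h1 | h1
  · filter_upwards [(isOpen_lt (c _) continuous_const).mem_nhds h1] with w hw
    rw [tw, if_pos (le_of_lt hw)]
    exact .refl _
  rcases lt_abs.1 (not_le.1 fun a => h ((box_cut hz).2 ⟨a, h1⟩)) with a | a
  · filter_upwards [(isOpen_lt continuous_const ((c _).sub continuous_const)).mem_nhds a] with w hw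
    exact key w 1 ((Fn.lam_one (le_of_lt hw)).trans Int.cast_one.symm)
  · filter_upwards [(isOpen_lt continuous_const ((c _).sub continuous_const).neg).mem_nhds a]
      with w hw
    exact key w 0 ((Fn.lam_zero (le_neg.1 (le_of_lt hw))).trans Int.cast_zero.symm)

theorem same {a : Option (Fin 3)} (hx : x ∈ O a) (hy : y ∈ O a) :
    Lat (nf a x) (nf a y) ↔ Lat x y := by
  cases a
  exacts [Iff.rfl, lat_tw hx.2 hy.2]

theorem off (hi : i ∈ I01) (hx : x ∈ MainI I01) (h : Lat x (tw i y)) : y ∉ Cut i := fun c =>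
  hx i hi (h.symm.cut (cut_tw.2 c))

theorem sep (hi : i ∈ I01) (hx : x ∈ MainI I01) (hy : y ∈ Box i) (h : ¬Lat x (tw i y)) :
    ∀ᶠ p in 𝓝 (x, y), ¬Lat p.1 (tw i p.2) := by
  by_cases c : y ∈ Cut i
  · have : (x, y) ∈ ({p : Rn 3 × Rn 3 | ∃ m : ℤ, p.1 (jx i) - p.2 (jx i) = 2 * π * m} ∩
        {p | ∃ m : ℤ, p.1 (kx i) - p.2 (kx i) = 2 * π * m})ᶜ := by
      rintro ⟨⟨m, hm⟩, n, hn⟩
      obtain ⟨a, b⟩ := (box_cut hy).1 c
      exact hx i hi (mem_cut.2 ⟨⟨m, by rw [← hm, sub_sub_cancel]; exact a⟩, n,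
        by rw [← hn, sub_sub_cancel]; exact b⟩)
    filter_upwards [((cl_int _ _).inter (cl_int _ _)).isOpen_compl.mem_nhds this] with p hp hl
    exact hp ⟨by simpa only [tw_ne (jx_ne i), mem_ofPred_eq] using hl (jx i),
      by simpa only [tw_ne (kx_ne i), mem_ofPred_eq] using hl (kx i)⟩
  · obtain ⟨g, -, g1, -, -, -, g2⟩ := good hy c
    have a : ContinuousAt (fun p : Rn 3 × Rn 3 => (p.1, g p.2)) (x, y) :=
      continuousAt_fst.prodMk ((g1 y).sm.cont.comp continuousAt_snd)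
    filter_upwards [a.eventually (cl_lat.isOpen_compl.mem_nhds fun l : Lat x (g y) =>
      h (l.trans g2.self_of_nhds.symm)), continuousAt_snd.eventually (p := fun w =>
        Lat (tw i w) (g w)) g2] with p h1 h2 l
    exact h1 (l.trans h2)

theorem exX : ∃ (Z : Mf (Rn 3)) (e : Option (Fin 3) → Rn 3 → Z),
    (∀ a, ∀ x ∈ O a, LDAt (vs (Rn 3)) Z (e a) x) ∧ (∀ z, ∃ a, ∃ x ∈ O a, e a x = z) ∧
      ∀ a b, ∀ x ∈ O a, ∀ y ∈ O b, e a x = e b y ↔ Lat (nf a x) (nf b y) := by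
  refine etale (Rn 3) (Rn 3) _ (fun _ => vs (Rn 3)) O (fun a b x y => Lat (nf a x) (nf b y)) rfl op_O
    ⟨none, 0, std_sub (.inr (show |(0 : ℝ)| < 1 by simp))⟩ (fun _ _ _ => .refl _) (fun _ _ _ _ _ _ => .symm)
    (fun _ _ _ _ _ _ _ _ _ => .trans) (fun a b x hx y hy h => ?_) (fun a x hx => ?_)
    fun a b x hx y hy h => ?_
  · rcases eq_or_ne a b with rfl | e
    · refine ⟨_, ld_add (y - x) x, add_sub_cancel _ _, ?_⟩
      filter_upwards [(op_O a).mem_nhds hx, (ld_add (y - x) x).sm.cont.eventually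
        ((op_O a).mem_nhds (by simpa using hy))] with z h1 h2
      exact (same h1 h2).2 (lat_add ((same hx hy).1 h) z)
    rcases a with _ | i <;> rcases b with _ | j
    · exact (e rfl).elim
    · obtain ⟨g, g', -, g1, g2, g3, g4⟩ := good hy.2 (off hy.1 hx h)
      have l := (ld_add (g y - x) x).trans (g1 _)
      have e1 : g' (x + (g y - x)) = y := by rw [add_sub_cancel, g3]
      refine ⟨_, l, e1, ?_⟩
      filter_upwards [l.sm.cont.eventually (p := fun w => Lat (tw j w) (g w)) (by simp only [e1]; exact g4)]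
        with z hz
      rw [g2] at hz
      exact (lat_add (h.trans g4.self_of_nhds) z).trans hz.symm
    · obtain ⟨g, -, g1, -, -, -, g4⟩ := good hx.2 (off hx.1 hy h.symm)
      exact ⟨_, (g1 x).trans (ld_add (y - g x) _), add_sub_cancel _ _, g4.mono fun z hz =>
        hz.trans (lat_add (g4.self_of_nhds.symm.trans h) _)⟩
    · exact (dis hx.1 hy.1 (fun h => e (congrArg _ h)) hx.2 hy.2 h).elim
  · filter_upwards [prod_mem_nhds ((op_O a).mem_nhds hx) ((op_O a).mem_nhds hx),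
      (isOpen_lt (continuous_fst.dist continuous_snd) continuous_const).mem_nhds
        (show dist x x < 2 * π by simpa using Real.pi_pos)] with p h1 h2 h
    exact funext fun l => ((same h1.1 h1.2).1 h).close ((dist_le_pi_dist p.1 p.2 l).trans_lt h2)
  · have m := prod_mem_nhds ((op_O a).mem_nhds hx) ((op_O b).mem_nhds hy)
    rcases eq_or_ne a b with rfl | e
    · filter_upwards [m, cl_lat.isOpen_compl.mem_nhds fun l : Lat x y => h ((same hx hy).2 l)]
        with p h1 h2 l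
      exact h2 ((same h1.1 h1.2).1 l)
    rcases a with _ | i <;> rcases b with _ | j
    · exact (e rfl).elim
    · exact sep hy.1 hx hy.2 h
    · exact (continuous_swap.tendsto (x, y)).eventually (sep hx.1 hy hx.2 fun l => h l.symm)
        |>.mono fun p h1 l => h1 l.symm
    · filter_upwards [m] with p h1
      exact dis hx.1 hy.1 (fun h => e (congrArg _ h)) h1.1.2 h1.2.2

/-! ### Compactness and connectedness -/

def red (c : ℝ) (z : Rn 3) : Rn 3 := fun l => toIcoMod Real.two_pi_pos c (z l)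
theorem lat_red (c : ℝ) (z : Rn 3) : Lat z (red c z) := fun l =>
  ⟨toIcoDiv Real.two_pi_pos c (z l), by rw [red, self_sub_toIcoMod, zsmul_eq_mul, mul_comm]⟩
theorem red_mem (c : ℝ) (z : Rn 3) (l : Fin 3) : red c z l ∈ Ico c (c + 2 * π) :=
  toIcoMod_mem_Ico _ _ _

def Bo (i : Fin 3) : Set (Rn 3) :=
  {z | |z (jx i) - cj i| < 3 / 2 * eps ∧ |z (kx i) - ck i| < 3 / 2 * eps}
def Cube : Set (Rn 3) := Icc 0 fun _ => 2 * π
def K : Option (Fin 3) → Set (Rn 3)
  | none => Cube \ (Bo 0 ∪ Bo 1)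
  | some i => {_z | i ∈ I01} ∩
      (Cube ∩ {z | |z (jx i) - cj i| ≤ 3 / 2 * eps ∧ |z (kx i) - ck i| ≤ 3 / 2 * eps})

theorem op_Bo (i : Fin 3) : IsOpen (Bo i) := by
  refine IsOpen.and (isOpen_lt ?_ ?_) (isOpen_lt ?_ ?_) <;> fun_prop
theorem red_cube (z : Rn 3) : red 0 z ∈ Cube :=
  ⟨fun l => (red_mem 0 z l).1, fun l => ((red_mem 0 z l).2.trans_eq (zero_add _)).le⟩
theorem cpt_K : ∀ a, IsCompact (K a)
  | none => isCompact_Icc.diff ((op_Bo 0).union (op_Bo 1))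
  | some i => (isCompact_Icc.inter_right (by
      refine IsClosed.and (isClosed_le ?_ ?_) (isClosed_le ?_ ?_) <;> fun_prop)).inter_left
      isClosed_const

theorem cen (i : Fin 3) : (1 < cj i ∧ cj i + 1 < 2 * π) ∧ 1 < ck i ∧ ck i + 1 < 2 * π := by
  have := Real.pi_gt_three
  fin_cases i <;> simp [cj, ck] <;> refine ⟨⟨?_, ?_⟩, ?_, ?_⟩ <;> linarith

theorem pin {a b c : ℝ} (hc : 1 < c ∧ c + 1 < 2 * π) (ha : a ∈ Icc 0 (2 * π))
    (hb : |b - c| < 2 * eps) : |a - b| < 2 * π := by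
  simp only [eps, abs_lt] at hb ⊢
  constructor <;> linarith [ha.1, ha.2, hc.1, hc.2]

theorem K_sub : ∀ a, K a ⊆ O a
  | none => fun z hz i hi ⟨y, h, a, b⟩ => by
    have e := eps_pos
    have : z ∈ Bo i := ⟨by rw [h.close (pin (cen i).1 ⟨hz.1.1 _, hz.1.2 _⟩ (by linarith))]; linarith,
      by rw [h.close (pin (cen i).2 ⟨hz.1.1 _, hz.1.2 _⟩ (by simp [b, e]))]; simp [b, e]⟩
    rcases i01_iff.1 hi with rfl | rfl
    exacts [hz.2 (.inl this), hz.2 (.inr this)]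
  | some i => fun z hz => ⟨hz.1, by linarith [hz.2.2.1, eps_pos], by linarith [hz.2.2.2, eps_pos]⟩

theorem bo_box (h : z ∈ Bo i) : z ∈ Box i :=
  ⟨by linarith [h.1, eps_pos], by linarith [h.2, eps_pos]⟩

def G : Set (Rn 3) := {z | Real.cos (z 2) ≠ 0}
def Sl (c : ℝ) : Set (Rn 3) := {z | z 2 ∈ Ioo (c - π / 2) (c + π / 2)}

theorem dense_G : Dense G := by
  have : {t : ℝ | Real.cos t ≠ 0} = (range fun k : ℤ => (2 * k + 1) * π / 2)ᶜ := by
    ext t; simp only [mem_ofPred_eq, Real.cos_ne_zero_iff, mem_compl_iff, mem_range, not_exists,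
      eq_comm (b := t), ne_eq]
  exact Dense.preimage (s := {t : ℝ | Real.cos t ≠ 0}) (this ▸ Set.Countable.dense_compl ℝ (countable_range _))
    (isOpenMap_eval (X := fun _ : Fin 3 => ℝ) 2)

theorem G_main (h : z ∈ G) : z ∈ MainI I01 := fun i hi ⟨y, l, _, b⟩ => h <| by
  have := l.cos 2 0
  rw [sub_zero, sub_zero, ← kx2 hi, b] at this
  rw [← kx2 hi, this]
  rcases i01_iff.1 hi with rfl | rfl
  · exact Real.cos_pi_div_two
  · exact Real.cos_eq_zero_iff.2 ⟨1, by simp [ck]; ring⟩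

theorem Sl_G {c : ℝ} (hc : c = 0 ∨ c = π) : Sl c ⊆ G := fun z hz => by
  have := Real.cos_pos_of_mem_Ioo (x := z 2 - c) ⟨by linarith [hz.1], by linarith [hz.2]⟩
  rcases hc with rfl | rfl
  · exact (by simpa using this : 0 < Real.cos (z 2)).ne'
  · exact (by simpa using this : Real.cos (z 2) < 0).ne

theorem cv_Sl (c : ℝ) : Convex ℝ (Sl c) :=
  (convex_Ioo _ _).linear_preimage (LinearMap.proj (R := ℝ) (φ := fun _ : Fin 3 => ℝ) 2)

end TwB

open TwB in
theorem twB : TwStmt := by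
  obtain ⟨Z, e, h1, h2, h3⟩ := exX
  have e0 : ∀ x ∈ MainI I01, ∀ y, Lat x y → e none x = e none y := fun x hx y l =>
    (h3 none none x hx y (l.mainI hx)).2 l
  have e1 : ∀ i ∈ I01, ∀ z ∈ Box i, z ∉ Cut i → e (some i) z = e none (tw i z) := fun i hi z hz c =>
    (h3 (some i) none z ⟨hi, hz⟩ _ (tw_main hi hz c)).2 (.refl _)
  refine ⟨Z, e none, fun i => e (some i), h1 none, h3 none none, fun i hi z hz => h1 _ z ⟨hi, hz⟩,
    fun i hi z hz m l => ?_, fun i hi z hz l => ?_,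
    fun i hi z hz y hy => (h3 (some i) (some i) z ⟨hi, hz⟩ y ⟨hi, hy⟩).trans (lat_tw hz hy), ?_,
    fun i hi j hj n z hz y hy c =>
      dis hi hj n hz hy ((h3 (some i) (some j) z ⟨hi, hz⟩ y ⟨hj, hy⟩).1 c),
    fun x => ?_, ⟨?_⟩, ?_⟩
  · rw [e1 i hi z hz (m i hi), tw, if_pos l]
  · rw [e1 i hi z hz fun c => l.ne' ((box_cut hz).1 c).2, tw, if_neg l.not_ge]
  · rintro i hi z hz ⟨y, hy, c⟩
    exact off hi hy ((h3 none (some i) y hy z ⟨hi, hz.1⟩).1 c) hz.2
  · obtain ⟨_ | i, z, hz, c⟩ := h2 x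
    exacts [.inl ⟨z, hz, c⟩, .inr ⟨i, hz.1, z, hz.2, c⟩]
  · have A : ∀ i ∈ I01, ∀ z ∈ Bo i, e (some i) z ∈ ⋃ a, e a '' K a := fun i hi z hz => by
      have l := lat_red 0 z
      have b := bo_box hz
      have c := red_cube z
      have a1 := l.symm.close (pin (cen i).1 ⟨c.1 _, c.2 _⟩ b.1)
      have a2 := l.symm.close (pin (cen i).2 ⟨c.1 _, c.2 _⟩ b.2)
      have m : red 0 z ∈ K (some i) := ⟨hi, c, a1 ▸ hz.1.le, a2 ▸ hz.2.le⟩
      exact mem_iUnion.2 ⟨some i, _, m, (h3 _ (some i) _ (K_sub _ m) z ⟨hi, b⟩).2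
        ((lat_tw (K_sub _ m).2 b).2 l.symm)⟩
    have B : ∀ z ∈ MainI I01, e none z ∈ ⋃ a, e a '' K a := fun z hz => by
      have l := lat_red 0 z
      rw [e0 z hz _ l]
      have C : ∀ i ∈ I01, red 0 z ∈ Bo i → e none (red 0 z) ∈ ⋃ a, e a '' K a := fun i hi c => by
        have n := l.mainI hz i hi
        rcases le_or_gt (red 0 z (kx i)) (ck i) with d | d
        · have := A i hi _ c
          rwa [e1 i hi _ (bo_box c) n, tw, if_pos d] at this
        · have c' : shi i (red 0 z) ∈ Bo i := by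
            simpa only [Bo, mem_ofPred_eq, shi_ne (jx_ne i), shi_ne (kx_ne i)] using c
          have d' : ¬shi i (red 0 z) (kx i) ≤ ck i := by rw [shi_ne (kx_ne i)]; exact d.not_ge
          have := A i hi _ c'
          rwa [e1 i hi _ (bo_box c') fun k => d' ((box_cut (bo_box c')).1 k).2.le, tw, if_neg d',
            shr_shi] at this
      by_cases c : red 0 z ∈ Bo 0 ∪ Bo 1
      · exact c.elim (C 0 i01_0) (C 1 i01_1)
      · exact mem_iUnion.2 ⟨none, _, ⟨red_cube z, c⟩, rfl⟩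
    refine (isCompact_iUnion fun a => (cpt_K a).image_of_continuousOn (f := e a) fun z hz =>
      (h1 a z (K_sub a hz)).sm.cont.continuousWithinAt).of_isClosed_subset isClosed_univ fun x _ => ?_
    obtain ⟨_ | i, z, hz, rfl⟩ := h2 x
    · exact B z hz
    · by_cases c : z ∈ Bo i
      · exact A i hz.1 z c
      · have n : z ∉ Cut i := fun k => by
          obtain ⟨a, b⟩ := (box_cut hz.2).1 k
          exact c ⟨by linarith [eps_pos], by simp [b, eps_pos]⟩
        rw [e1 i hz.1 z hz.2 n]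
        exact B _ (tw_main hz.1 hz.2 n)
  · have pc : ∀ S ⊆ MainI I01, Convex ℝ S → IsPreconnected (e none '' S) := fun S hS c =>
      c.isPreconnected.image _ fun z hz => (h1 none z (hS hz)).sm.cont.continuousWithinAt
    have s : ∀ c, c = 0 ∨ c = π → Sl c ⊆ MainI I01 := fun c hc z hz => G_main (Sl_G hc hz)
    have hp := Real.pi_pos
    let L : Set (Rn 3) := {z | z 0 = π ∧ z 1 = π}
    have cL : IsPreconnected (e none '' L) := pc L
      (fun z hz => std_sub (col_std (by simp [hz.1]) (by simp [hz.2])))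
      (fun x hx y hy a b _ _ ab => by simp [L, hx.1, hx.2, hy.1, hy.2, ← add_mul, ab])
    have m : ∀ c, (![π, π, c] : Rn 3) ∈ Sl c := fun c => ⟨by simpa using hp, by simpa using hp⟩
    have D : IsPreconnected (e none '' Sl 0 ∪ e none '' L ∪ e none '' Sl π) :=
      .union _ (.inr ⟨![π, π, π], ⟨rfl, rfl⟩, rfl⟩) ⟨_, m π, rfl⟩
        (.union _ ⟨_, m 0, rfl⟩ ⟨_, ⟨rfl, rfl⟩, rfl⟩ (pc _ (s 0 (.inl rfl)) (cv_Sl 0)) cL)
        (pc _ (s π (.inr rfl)) (cv_Sl π))
    have F : ∀ z ∈ G, e none z ∈ e none '' Sl 0 ∪ e none '' L ∪ e none '' Sl π := fun z hz => by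
      have l := lat_red (-(π / 2)) z
      have r := red_mem (-(π / 2)) z 2
      have g := l.cos 2 0
      rw [sub_zero, sub_zero] at g
      rw [e0 z (G_main hz) _ l]
      rcases lt_trichotomy (red (-(π / 2)) z 2) (π / 2) with d | d | d
      · refine .inl (.inl ⟨_, ⟨r.1.lt_of_ne' (fun k => hz ?_) |>.trans_eq' (zero_sub _).symm,
          by linarith⟩, rfl⟩)
        rw [g, k, Real.cos_neg, Real.cos_pi_div_two]
      · exact (hz (by rw [g, d, Real.cos_pi_div_two])).elim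
      · exact .inr ⟨_, ⟨by linarith, by linarith [r.2]⟩, rfl⟩
    refine @ConnectedSpace.mk _ _ ⟨D.subset_closure (subset_univ _) fun x _ => ?_⟩ inferInstance
    obtain ⟨a, z, hz, rfl⟩ := h2 x
    refine (h1 a z hz).sm.cont.continuousWithinAt.mem_closure
      (dense_G.open_subset_closure_inter (op_O a) hz) fun w hw => ?_
    rcases a with _ | i
    · exact F w hw.2
    · rw [e1 i hw.1.1 w hw.1.2 (G_main hw.2 i hw.1.1)]
      exact F _ (by simpa only [G, mem_ofPred_eq, tw_ne (Ne.symm hw.1.1)] using hw.2)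

end Pool.Agent.MP_e1dc65_gt.EA

end
end MrgPart1

-- marker of a merged file
example : 731051 + 81840 = 731051 + 81840 := rfl
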