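import Mathlib.LinearAlgebra.Dual.Lemmas
import Mathlib.LinearAlgebra.FiniteDimensional.Lemmas
import Pool.Agent.MP_e1dc65_gt.b.Adapt
import Pool.Agent.MP_e1dc65_gt.a.Cent
import Pool.Agent.MP_e1dc65_gt.u.Spec
import Pool.Agent.MP_e1dc65_gt.t2.Disc
import Mathlib.MeasureTheory.Function.LocallyIntegrable
import Mathlib.MeasureTheory.Integral.IntegrableOn
import Pool.Agent.MP_e1dc65_gt.a.ClsW
import Mathlib.Analysis.SpecialFunctions.Complex.Log
import Mathlib.Analysis.Real.Pi.Bounds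
import Pool.Agent.MP_e1dc65_gt.k.Etale
import Pool.Agent.MP_e1dc65_gt.t.PreCof
import Mathlib.Analysis.Calculus.LineDeriv.Basic
import Mathlib.Analysis.InnerProductSpace.Calculus
import Mathlib.LinearAlgebra.Complex.FiniteDimensional
import Pool.Agent.MP_e1dc65_gt.e.aLie
import Pool.Agent.MP_e1dc65_gt.e.aTwB
import Pool.Agent.MP_e1dc65_gt.e.aPrf

-- ======== part 0: formerly Pool.Agent.MP_e1dc65_gt.a.Halg
section MrgPart0

/-! PROJECT HC, part A, row HALG: the linear algebra of the signature theorem. -/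

set_option maxSynthPendingDepth 3

open Module

noncomputable section

namespace Pool.Agent.MP_e1dc65_gt.A

namespace Halg

theorem Pd.eq_zero {A : Type} [AddCommGroup A] [Module ℝ A] {B : A →ₗ[ℝ] A →ₗ[ℝ] ℝ} (h : Pd B)
    {a : A} (ha : B a a = 0) : a = 0 := by
  by_contra hne
  exact (h.2 a hne).ne' ha

/-- orthogonal projection onto a finite dimensional subspace -/
theorem proj {A : Type} [AddCommGroup A] [Module ℝ A] {B : A →ₗ[ℝ] A →ₗ[ℝ] ℝ} (h : Pd B)
    (U : Submodule ℝ A) [FiniteDimensional ℝ U] (u : A) :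
    ∃ a ∈ U, ∀ b ∈ U, B (u - a) b = 0 := by
  let φ : U →ₗ[ℝ] Module.Dual ℝ U := B.compl₁₂ U.subtype U.subtype
  have hi : Function.Injective φ := by
    refine (injective_iff_map_eq_zero φ).2 fun a ha => Subtype.ext ?_
    exact Pd.eq_zero h (DFunLike.congr_fun ha a)
  have hs : Function.Surjective φ :=
    (LinearMap.injective_iff_surjective_of_finrank_eq_finrank
      (Subspace.dual_finrank_eq).symm).1 hi
  obtain ⟨a, ha⟩ := hs ((B u).comp U.subtype)
  refine ⟨a, a.2, fun b hb => ?_⟩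
  have : B a b = B u b := DFunLike.congr_fun ha ⟨b, hb⟩
  rw [map_sub, LinearMap.sub_apply, this, sub_self]

/-- two isotropic sets whose sums cover the space force equal dimensions -/
theorem iso_eq {X Y : Type} [AddCommGroup X] [Module ℝ X] [AddCommGroup Y] [Module ℝ Y]
    [FiniteDimensional ℝ X] [FiniteDimensional ℝ Y] (BX : X →ₗ[ℝ] X →ₗ[ℝ] ℝ)
    (BY : Y →ₗ[ℝ] Y →ₗ[ℝ] ℝ) (hX : ∀ a, BX a a = 0 → a = 0) (hY : ∀ a, BY a a = 0 → a = 0)
    (K L : Set (X × Y)) (hK : ∀ a ∈ K, ∀ b ∈ K, BX a.1 b.1 = BY a.2 b.2)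
    (hL : ∀ a ∈ L, ∀ b ∈ L, BX a.1 b.1 = BY a.2 b.2)
    (hc : ∀ z, ∃ a ∈ K, ∃ b ∈ L, z = a + b) : finrank ℝ X = finrank ℝ Y := by
  have key : ∀ K : Set (X × Y), (∀ a ∈ K, ∀ b ∈ K, BX a.1 b.1 = BY a.2 b.2) →
      finrank ℝ (Submodule.span ℝ K) ≤ finrank ℝ X ∧
        finrank ℝ (Submodule.span ℝ K) ≤ finrank ℝ Y := by
    intro K hK
    have h1 : ∀ a ∈ K, ∀ b ∈ Submodule.span ℝ K, BX a.1 b.1 = BY a.2 b.2 := by
      intro a ha b hb
      induction hb using Submodule.span_induction with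
      | mem b hb => exact hK a ha b hb
      | zero => simp
      | add b c _ _ hb hc => simp [hb, hc]
      | smul r b _ hb => simp [hb]
    have h2 : ∀ b ∈ Submodule.span ℝ K, ∀ a ∈ Submodule.span ℝ K, BX a.1 b.1 = BY a.2 b.2 := by
      intro b hb a ha
      induction ha using Submodule.span_induction with
      | mem a ha => exact h1 a ha b hb
      | zero => simp
      | add a c _ _ ha hc => simp [ha, hc]
      | smul r a _ ha => simp [ha]
    constructor
    · refine LinearMap.finrank_le_finrank_of_injective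
        (f := (LinearMap.fst ℝ X Y).comp (Submodule.span ℝ K).subtype) ?_
      refine (injective_iff_map_eq_zero _).2 fun a ha => Subtype.ext ?_
      have h0 : a.1.1 = 0 := ha
      have := h2 a a.2 a a.2
      rw [h0, map_zero] at this
      exact Prod.ext h0 (hY _ this.symm)
    · refine LinearMap.finrank_le_finrank_of_injective
        (f := (LinearMap.snd ℝ X Y).comp (Submodule.span ℝ K).subtype) ?_
      refine (injective_iff_map_eq_zero _).2 fun a ha => Subtype.ext ?_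
      have h0 : a.1.2 = 0 := ha
      have := h2 a a.2 a a.2
      rw [h0, map_zero] at this
      exact Prod.ext (hX _ this) h0
  have ht : Submodule.span ℝ K ⊔ Submodule.span ℝ L = ⊤ := by
    refine Submodule.eq_top_iff'.2 fun z => ?_
    obtain ⟨a, ha, b, hb, rfl⟩ := hc z
    exact Submodule.add_mem_sup (Submodule.subset_span ha) (Submodule.subset_span hb)
  have h := Submodule.finrank_sup_add_finrank_inf_eq (Submodule.span ℝ K) (Submodule.span ℝ L)
  rw [ht, finrank_top, Module.finrank_prod] at h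
  obtain ⟨k1, k2⟩ := key K hK
  obtain ⟨l1, l2⟩ := key L hL
  omega

theorem rank_of {X S : Type} [AddCommGroup X] [Module ℝ X] [AddCommGroup S] [Module ℝ S]
    (φ : X →ₗ[ℝ] S) (hφ : Function.Injective φ) (U : Submodule ℝ S) [FiniteDimensional ℝ U]
    (h : ∀ s, s ∈ U ↔ ∃ x, φ x = s) : FiniteDimensional ℝ X ∧ finrank ℝ U = finrank ℝ X := by
  have e : U = LinearMap.range φ := Submodule.ext h
  subst e
  exact ⟨(LinearEquiv.ofInjective φ hφ).symm.finiteDimensional, LinearMap.finrank_range_of_inj hφ⟩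

theorem mem_p {S : Type} [AddCommGroup S] [Module ℝ S] {D B : S →ₗ[ℝ] S} {x : S} :
    x ∈ LinearMap.ker D ⊓ LinearMap.ker (B - 1) ↔ D x = 0 ∧ B x = x := by
  simp [sub_eq_zero]

theorem mem_m {S : Type} [AddCommGroup S] [Module ℝ S] {D B : S →ₗ[ℝ] S} {x : S} :
    x ∈ LinearMap.ker D ⊓ LinearMap.ker (B + 1) ↔ D x = 0 ∧ B x = -x := by
  simp [add_eq_zero_iff_eq_neg]

theorem neg_self {S : Type} [AddCommGroup S] [Module ℝ S] {x : S} (h : -x = x) : x = 0 := by
  have : (2 : ℝ) • x = 0 := by rw [two_smul]; nth_rewrite 1 [← h]; rw [neg_add_cancel]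
  simpa using this

end Halg

open Halg in
theorem halg : HalgStmt := by
  intro A₀ A₁ P M Sl Sr _ _ _ _ _ _ _ _ _ _ _ _ B₀ B₁ BP BM gr dv dp dm δp δm el er Dl Γl Dr Γr Kp Km
    _ h1 hP hM hDl hΓl hDr hΓr ap am dg pm fl fr hodge hKp hKm hcov
  have fdl : ∀ U : Submodule ℝ Sl, FiniteDimensional ℝ ↥(LinearMap.ker Dl ⊓ U) := fun U =>
    Submodule.finiteDimensional_of_le inf_le_left
  have fdr : ∀ U : Submodule ℝ Sr, FiniteDimensional ℝ ↥(LinearMap.ker Dr ⊓ U) := fun U =>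
    Submodule.finiteDimensional_of_le inf_le_left
  have zl : ∀ f u v, Dl (el (f, u, v)) = 0 ↔ dv v = 0 ∧ dp v = 0 ∧ gr f = 0 ∧ δp u = 0 := by
    intro f u v
    rw [hDl, el.map_eq_zero_iff, Prod.mk_eq_zero, Prod.mk_eq_zero, sub_eq_zero]
    refine and_congr_right fun _ => and_congr_right fun _ => ⟨fun h => ?_, fun h => ?_⟩
    · have h0 : gr f = 0 := by
        refine Pd.eq_zero h1 ?_
        have := ap (gr f) u
        rw [(dg f).1, h, map_zero, LinearMap.zero_apply] at this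
        exact this.symm
      exact ⟨h0, h.trans h0⟩
    · rw [h.1, h.2]
  have zr : ∀ v f w, Dr (er (v, f, w)) = 0 ↔ dv v = 0 ∧ dm v = 0 ∧ gr f = 0 ∧ δm w = 0 := by
    intro v f w
    rw [hDr, er.map_eq_zero_iff, Prod.mk_eq_zero, Prod.mk_eq_zero, neg_eq_zero, neg_eq_zero]
    constructor
    · rintro ⟨h, h', h''⟩
      have e : δm w = -gr f := eq_neg_of_add_eq_zero_right h
      have h0 : gr f = 0 := by
        refine Pd.eq_zero h1 ?_
        have := am (gr f) w
        rw [(dg f).2, e, map_zero, LinearMap.zero_apply, map_neg, neg_neg] at this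
        exact this.symm
      exact ⟨h', h'', h0, by rw [e, h0, neg_zero]⟩
    · rintro ⟨a, b, c, d⟩
      exact ⟨by rw [c, d, add_zero], a, b⟩
  have pm0 : ∀ v, dp v = 0 ↔ dm v = 0 := fun v =>
    ⟨fun h => Pd.eq_zero hM (by rw [← pm, h, map_zero]),
      fun h => Pd.eq_zero hP (by rw [pm, h, map_zero])⟩
  obtain ⟨f1, r1⟩ := rank_of (X := LinearMap.ker gr × LinearMap.ker δp)
    (el.toLinearMap.comp (((LinearMap.ker gr).subtype.comp (LinearMap.fst ℝ _ _)).prod
      (((LinearMap.ker δp).subtype.comp (LinearMap.snd ℝ _ _)).prod 0)))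
    (fun a b h => by
      have := el.injective h
      simp only [LinearMap.prod_apply, Prod.mk.injEq, Function.prod] at this
      exact Prod.ext (Subtype.ext this.1) (Subtype.ext this.2.1))
    (LinearMap.ker Dl ⊓ LinearMap.ker (Γl - 1)) (fun s => by
      obtain ⟨⟨f, u, v⟩, rfl⟩ := el.surjective s
      rw [mem_p, zl, hΓl]
      constructor
      · rintro ⟨⟨_, _, a, b⟩, h⟩
        have hv : v = 0 := neg_self (congrArg (fun z => z.2.2) (el.injective h))
        exact ⟨(⟨f, a⟩, ⟨u, b⟩), by rw [hv]; rfl⟩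
      · rintro ⟨⟨a, b⟩, h⟩
        have h' : ((a : A₀), (b : P), (0 : A₁)) = (f, u, v) := el.injective h
        obtain ⟨rfl, rfl, rfl⟩ := h'
        exact ⟨⟨map_zero _, map_zero _, a.2, b.2⟩, by rw [neg_zero]⟩)
  obtain ⟨-, r2⟩ := rank_of (X := ↥(LinearMap.ker dv ⊓ LinearMap.ker dp))
    (el.toLinearMap.comp ((0 : _ →ₗ[ℝ] A₀).prod ((0 : _ →ₗ[ℝ] P).prod (Submodule.subtype _))))
    (fun a b h => Subtype.ext (congrArg (fun z => z.2.2) (el.injective h)))
    (LinearMap.ker Dl ⊓ LinearMap.ker (Γl + 1)) (fun s => by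
      obtain ⟨⟨f, u, v⟩, rfl⟩ := el.surjective s
      rw [mem_m, zl, hΓl, ← map_neg]
      constructor
      · rintro ⟨⟨a, b, _, _⟩, h⟩
        have hf : f = 0 := neg_self (congrArg (fun z => z.1) (el.injective h)).symm
        have hu : u = 0 := neg_self (congrArg (fun z => z.2.1) (el.injective h)).symm
        exact ⟨⟨v, a, b⟩, by rw [hf, hu]; rfl⟩
      · rintro ⟨a, h⟩
        have h' : ((0 : A₀), (0 : P), (a : A₁)) = (f, u, v) := el.injective h
        obtain ⟨rfl, rfl, rfl⟩ := h'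
        exact ⟨⟨a.2.1, a.2.2, map_zero _, map_zero _⟩, by simp⟩)
  obtain ⟨-, r3⟩ := rank_of (X := ↥(LinearMap.ker dv ⊓ LinearMap.ker dp))
    (er.toLinearMap.comp ((Submodule.subtype _).prod ((0 : _ →ₗ[ℝ] A₀).prod (0 : _ →ₗ[ℝ] M))))
    (fun a b h => Subtype.ext (congrArg (fun z => z.1) (er.injective h)))
    (LinearMap.ker Dr ⊓ LinearMap.ker (Γr - 1)) (fun s => by
      obtain ⟨⟨v, f, w⟩, rfl⟩ := er.surjective s
      rw [mem_p, zr, hΓr]
      constructor
      · rintro ⟨⟨a, b, _, _⟩, h⟩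
        have hf : f = 0 := neg_self (congrArg (fun z => z.2.1) (er.injective h))
        have hw : w = 0 := neg_self (congrArg (fun z => z.2.2) (er.injective h))
        exact ⟨⟨v, a, (pm0 v).2 b⟩, by rw [hf, hw]; rfl⟩
      · rintro ⟨a, h⟩
        have h' : ((a : A₁), (0 : A₀), (0 : M)) = (v, f, w) := er.injective h
        obtain ⟨rfl, rfl, rfl⟩ := h'
        exact ⟨⟨a.2.1, (pm0 _).1 a.2.2, map_zero _, map_zero _⟩, by simp⟩)
  obtain ⟨f4, r4⟩ := rank_of (X := LinearMap.ker gr × LinearMap.ker δm)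
    (er.toLinearMap.comp ((0 : _ →ₗ[ℝ] A₁).prod
      (((LinearMap.ker gr).subtype.comp (LinearMap.fst ℝ _ _)).prod
        ((LinearMap.ker δm).subtype.comp (LinearMap.snd ℝ _ _)))))
    (fun a b h => by
      have := er.injective h
      simp only [LinearMap.prod_apply, Prod.mk.injEq, Function.prod] at this
      exact Prod.ext (Subtype.ext this.2.1) (Subtype.ext this.2.2))
    (LinearMap.ker Dr ⊓ LinearMap.ker (Γr + 1)) (fun s => by
      obtain ⟨⟨v, f, w⟩, rfl⟩ := er.surjective s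
      rw [mem_m, zr, hΓr, ← map_neg]
      constructor
      · rintro ⟨⟨_, _, a, b⟩, h⟩
        have hv : v = 0 := neg_self (congrArg (fun z => z.1) (er.injective h)).symm
        exact ⟨(⟨f, a⟩, ⟨w, b⟩), by rw [hv]; rfl⟩
      · rintro ⟨⟨a, b⟩, h⟩
        have h' : ((0 : A₁), (a : A₀), (b : M)) = (v, f, w) := er.injective h
        obtain ⟨rfl, rfl, rfl⟩ := h'
        exact ⟨⟨map_zero _, map_zero _, a.2, b.2⟩, by simp⟩)
  have g0 : FiniteDimensional ℝ (LinearMap.ker gr) :=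
    Module.Finite.of_surjective (LinearMap.fst ℝ _ (LinearMap.ker δp)) Prod.fst_surjective
  have gp : FiniteDimensional ℝ (LinearMap.ker δp) :=
    Module.Finite.of_surjective (LinearMap.snd ℝ (LinearMap.ker gr) _) Prod.snd_surjective
  have gm : FiniteDimensional ℝ (LinearMap.ker δm) :=
    Module.Finite.of_surjective (LinearMap.snd ℝ (LinearMap.ker gr) _) Prod.snd_surjective
  have op : ∀ v (u : LinearMap.ker δp), BP (dp v) u = 0 := fun v u => by
    rw [ap, LinearMap.mem_ker.1 u.2, map_zero]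
  have om : ∀ v (w : LinearMap.ker δm), BM (dm v) w = 0 := fun v w => by
    rw [am, LinearMap.mem_ker.1 w.2, map_zero, neg_zero]
  have dec : ∀ z : P × M, (∀ v, BP (dp v) z.1 = BM (dm v) z.2) →
      ∃ (h : LinearMap.ker δp × LinearMap.ker δm) (v : A₁),
        z = ((h.1 : P) + dp v, (h.2 : M) + dm v) := by
    rintro ⟨u, w⟩ hz
    obtain ⟨a, ha, hab⟩ := proj hP (LinearMap.ker δp) u
    obtain ⟨g, hg⟩ := hodge (u - a) fun f' u' v' h => hab u' ((zl f' u' v').1 h).2.2.2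
    obtain ⟨⟨f, u', v⟩, rfl⟩ := el.surjective g
    rw [hDl] at hg
    have hv : dp v = u - a := congrArg (fun z => z.2.1) (el.injective hg)
    have hw : δm (w - dm v) = 0 := by
      refine Pd.eq_zero h1 ?_
      have e1 := am (δm (w - dm v)) (w - dm v)
      have e2 := hz (δm (w - dm v))
      have e3 := pm (δm (w - dm v)) v
      have e4 := op (δm (w - dm v)) ⟨a, ha⟩
      rw [hv, map_sub] at e3
      rw [map_sub (BM _)] at e1
      simp only at e2 e4
      linarith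
    exact ⟨(⟨a, ha⟩, ⟨w - dm v, hw⟩), v, Prod.ext (by simp [hv]) (by simp)⟩
  have iso : ∀ K : Set (P × M),
      (∀ a ∈ K, (∀ v, BP (dp v) a.1 = BM (dm v) a.2) ∧ ∀ b ∈ K, BP a.1 b.1 = BM a.2 b.2) →
      ∀ a ∈ {h : LinearMap.ker δp × LinearMap.ker δm |
          ∃ v, ((h.1 : P) + dp v, (h.2 : M) + dm v) ∈ K},
        ∀ b ∈ {h : LinearMap.ker δp × LinearMap.ker δm |
          ∃ v, ((h.1 : P) + dp v, (h.2 : M) + dm v) ∈ K},
        BP.compl₁₂ (Submodule.subtype _) (Submodule.subtype _) a.1 b.1 =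
          BM.compl₁₂ (Submodule.subtype _) (Submodule.subtype _) a.2 b.2 := by
    rintro K hK a ⟨v, ha⟩ b ⟨v', hb⟩
    have e := (hK _ ha).2 _ hb
    simp only [map_add, LinearMap.add_apply] at e
    rw [op, om, hP.1 _ (dp v'), hM.1 _ (dm v'), op, om, hP.1 (dp v), hM.1 (dm v), pm] at e
    simpa using e
  have key : finrank ℝ (LinearMap.ker δp) = finrank ℝ (LinearMap.ker δm) := by
    refine iso_eq _ _ (fun a h => Subtype.ext (Pd.eq_zero hP h))
      (fun a h => Subtype.ext (Pd.eq_zero hM h)) _ _ (iso Kp hKp) (iso Km hKm) fun z => ?_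
    obtain ⟨a, ha, b, hb, v, e⟩ := hcov ((z.1 : P), (z.2 : M)) fun v => by rw [op, om]
    obtain ⟨h, v', rfl⟩ := dec b (hKm b hb).1
    refine ⟨z - h, ⟨-(v' + v), ?_⟩, h, ⟨v', hb⟩, by abel⟩
    have e1 : (z.1 : P) = a.1 + (h.1 + dp v') + dp v := congrArg Prod.fst e
    have e2 : (z.2 : M) = a.2 + (h.2 + dm v') + dm v := congrArg Prod.snd e
    convert ha using 1
    refine Prod.ext ?_ ?_
    · simp only [Prod.fst_sub, Submodule.coe_sub, e1, map_neg, map_add]; abel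
    · simp only [Prod.snd_sub, Submodule.coe_sub, e2, map_neg, map_add]; abel
  unfold ind
  rw [r1, r2, r3, r4, Module.finrank_prod, Module.finrank_prod, key]
  ring

end Pool.Agent.MP_e1dc65_gt.A

end
end MrgPart0

-- ======== part 1: formerly Pool.Agent.MP_e1dc65_gt.a.Intb
section MrgPart1

/-! PROJECT HC, part A: the integral of a form is the integral of its top component. -/

set_option maxSynthPendingDepth 3

open scoped Quaternion ContDiff Topology RealInnerProductSpace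
open Set Filter MeasureTheory Module Pool.Agent.MP_c8d41b_gt.GF

noncomputable section

namespace Pool.Agent.MP_e1dc65_gt.A

namespace Intb

theorem hb_eq (k : Fin 4) : hb k = ε k := by
  apply qv.injective
  rw [ε, OrthonormalBasis.map_apply, LinearIsometryEquiv.apply_symm_apply]
  ext j
  fin_cases k <;> fin_cases j <;> simp [hb, Quaternion.linearIsometryEquivTuple]

theorem top_eq (e : ℍ →L[ℝ] E4) (a : Lam E4) : top e a = ev (List.ofFn fun k => e (hb k)) a := by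
  simp only [top, hb_eq, List.ofFn_succ, List.ofFn_zero]
  rfl

theorem cf_eq {E : Type} [NormedAddCommGroup E] [NormedSpace ℝ E] [FiniteDimensional ℝ E] {N : ℕ}
    (hN : finrank ℝ E = N) (v : Fin N → E) (o a : Lam E) (h : ev (List.ofFn v) o ≠ 0) :
    cf o a = ev (List.ofFn v) a / ev (List.ofFn v) o := by
  subst hN
  have key : ∀ c : Lam E, ev (List.ofFn v) c =
      (LinearMap.toContinuousLinearMap ((finBasis ℝ E).constr ℝ v)).det *
        ev (List.ofFn (finBasis ℝ E)) c := fun c => by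
    rw [← ev_mp_det, ev_mp, List.map_ofFn]
    congr 2
    ext k
    simp
  rw [key o] at h
  rw [key a, key o, cf, mul_div_mul_left _ _ (left_ne_zero_of_mul h)]

/-- the Borel structure -/
@[reducible] def bor (X : Mf E4) : MeasurableSpace X := borel X

attribute [local instance] bor

theorem borS (X : Mf E4) : BorelSpace X := ⟨rfl⟩

attribute [local instance] borS

variable {X : Mf E4} [CompactSpace X] {o : X → Lam E4} {G : Geo (spc X)}

theorem top_chart (h1 : AlgbStmt) (h : Br o G) {i : Fin G.n} {x : X} (hx : x ∈ G.U i)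
    (a : Lam E4) : top (G.fm x) a = top (G.cf i x).inverse a := by
  have hc := h.ok.mem x
  have i1 := (h.cof _ x hc).2
  have i2 := (h.cof _ x hx).2
  refine ((h1 (G.cf (G.c x) x) (G.fm x) (fun v => i1.self_apply_inverse v)
    fun v => i1.inverse_apply_self v).2.2.2.2.2.2.2 (G.p i (G.c x) x) (G.q i (G.c x) x) _
    (h.ok.p1 _ _ x ⟨hx, hc⟩) (h.ok.q1 _ _ x ⟨hx, hc⟩) fun v => ?_).2.2 a |>.symm
  have := h.rot i (G.c x) x ⟨hx, hc⟩ (G.fm x v)
  rw [show G.cf (G.c x) x (G.fm x v) = v from i1.self_apply_inverse v] at this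
  rw [← this]
  exact i2.inverse_apply_self _

theorem top_cont (h1 : AlgbStmt) (h : Br o G) {α : X → Lam E4} (hα : ∀ x, FmAt X α x) :
    Continuous fun x => top (G.fm x) (α x) := by
  refine continuous_iff_continuousAt.2 fun x => ?_
  have hc := h.ok.mem x
  have := ((h.cof _ x hc).1.ev_cn (h.cof _ x hc).2 (hα x) hb).continuousAt
  refine this.congr ?_
  filter_upwards [(G.ch (G.c x)).open_source.mem_nhds hc] with y hy
  rw [top_chart h1 h hy, top_eq]

theorem top_pos (h : Br o G) (x : X) : 0 < top (G.fm x) (o x) := by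
  rw [top_eq]; exact h.pos _ x (h.ok.mem x)

/-- the standard basis of `E4` -/
abbrev sb : Basis (Fin 4) ℝ E4 := (EuclideanSpace.basisFun (Fin 4) ℝ).toBasis

/-- the density of `o` along a map whose differential is `D` -/
theorem dens (h1 : AlgbStmt) (h : Br o G) {i : Fin G.n} {x : X} (hx : x ∈ G.U i)
    (D : E4 →L[ℝ] E4) :
    |ev (List.ofFn sb) (mp D (o x))| = jac ((G.cf i x).comp D) * top (G.fm x) (o x) := by
  have i2 := (h.cof _ x hx).2
  have e1 : D = ((G.cf i x).inverse.comp (qv.symm.toContinuousLinearEquiv : E4 →L[ℝ] ℍ)).comp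
      ((qv.toContinuousLinearEquiv : ℍ →L[ℝ] E4).comp ((G.cf i x).comp D)) := by
    ext1 v
    simp [i2.inverse_apply_self]
  have e2 : ev (List.ofFn sb) (mp ((G.cf i x).inverse.comp
      (qv.symm.toContinuousLinearEquiv : E4 →L[ℝ] ℍ)) (o x)) = top (G.fm x) (o x) := by
    rw [top_chart h1 h hx, top_eq, ev_mp, List.map_ofFn]
    congr 2
    ext1 k
    rw [hb_eq]
    rfl
  conv_lhs => rw [e1, mp_comp, ev_mp_det, e2, abs_mul, abs_of_pos (top_pos h x)]
  rfl

/-- the identification of `Rn 4` with `E4` -/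
abbrev tl : Rn 4 ≃L[ℝ] E4 := (EuclideanSpace.equiv (Fin 4) ℝ).symm

theorem ev_tl (a : Lam E4) : ev (List.ofFn (Pi.basisFun ℝ (Fin 4))) (mp (tl : Rn 4 →L[ℝ] E4) a) =
    ev (List.ofFn sb) a := by
  rw [ev_mp, List.map_ofFn]
  congr 2

/-- integration over a chart domain -/
theorem lint_chart (h : Br o G) (i : Fin G.n) {f : X → ENNReal} (hf : Measurable f) :
    ∫⁻ x in G.U i, f x ∂G.μ =
      ∫⁻ z in G.T i, ENNReal.ofReal (jac ((G.R i).θ z)) * f ((G.ch i).symm z) := by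
  have hT := (G.ch i).open_target.measurableSet
  have m1 : AEMeasurable (G.ch i).symm (volume.restrict (G.T i)) :=
    (G.ch i).continuousOn_symm.aemeasurable hT
  have m2 : AEMeasurable (fun y => ENNReal.ofReal (jac ((G.R i).θ y))) (volume.restrict (G.T i)) :=
    ((Mu.continuous_jac.comp_continuousOn (h.ok.loc i).frm.θs.continuousOn).aemeasurable
      hT).ennreal_ofReal
  rw [h.ok.chart i, lintegral_map' hf.aemeasurable
    (m1.mono_ac (withDensity_absolutelyContinuous _ _))]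
  exact lintegral_withDensity_eq_lintegral_mul₀ m2 (hf.comp_aemeasurable m1)

/-- the measure of the density `|o|` in terms of the Riemannian measure -/
def mu1 (o : X → Lam E4) (G : Geo (spc X)) : Measure X :=
  G.μ.withDensity fun x => ENNReal.ofReal (top (G.fm x) (o x))

theorem meas_top (h1 : AlgbStmt) (ho : Ori X 4 o univ) (h : Br o G) :
    Measurable fun x : X => ENNReal.ofReal (top (G.fm x) (o x)) :=
  (top_cont h1 h fun x => (ho.fm x trivial).1).measurable.ennreal_ofReal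

theorem piece (h1 : AlgbStmt) (ho : Ori X 4 o univ) (h : Br o G) {φ : E4 → X} {W S : Set E4}
    (hφ : OE (vs E4) X φ W) (hS : MeasurableSet S) (hSW : S ⊆ W) (i : Fin G.n)
    (m : MapsTo φ S (G.U i)) (hm : MeasurableSet (φ '' S)) {f : X → ENNReal} (hf : Measurable f) :
    ∫⁻ x in φ '' S, f x ∂mu1 o G =
      ∫⁻ w in S, f (φ w) * ENNReal.ofReal |ev (List.ofFn sb) (pbM (vs E4) X φ o w)| := by
  have hg := (meas_top h1 ho h).mul hf
  have sm : ∀ w ∈ S, SmAt (vs E4) (vs E4) (fun w => G.ch i (φ w)) w := fun w hw =>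
    (hφ.sm w (hSW hw)).trans ((h.oe i).sm _ (m hw))
  have hd : ∀ w ∈ S, HasFDerivWithinAt (fun w => G.ch i (φ w))
      (fderiv ℝ (fun w => G.ch i (φ w)) w) S w := fun w hw =>
    ((smAt_vs.1 (sm w hw)).differentiableAt (by simp)).hasFDerivAt.hasFDerivWithinAt
  have inj : InjOn (fun w => G.ch i (φ w)) S := (G.ch i).injOn.comp (hφ.inj.mono hSW) m
  have hm' := measurable_image_of_fderivWithin hS hd inj
  have sub : (fun w => G.ch i (φ w)) '' S ⊆ G.T i := by
    rintro _ ⟨w, hw, rfl⟩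
    exact (G.ch i).map_source (m hw)
  rw [mu1, restrict_withDensity hm, lintegral_withDensity_eq_lintegral_mul _ (meas_top h1 ho h) hf,
    ← inter_eq_left.2 m.image_subset, ← Measure.restrict_restrict hm, ← lintegral_indicator hm,
    lint_chart h i (hg.indicator hm)]
  have e : ∀ z ∈ G.T i, ENNReal.ofReal (jac ((G.R i).θ z)) * (φ '' S).indicator
      (fun x => ENNReal.ofReal (top (G.fm x) (o x)) * f x) ((G.ch i).symm z) =
      ((fun w => G.ch i (φ w)) '' S).indicator (fun z => ENNReal.ofReal (jac ((G.R i).θ z)) *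
        (ENNReal.ofReal (top (G.fm ((G.ch i).symm z)) (o ((G.ch i).symm z))) *
          f ((G.ch i).symm z))) z := fun z hz => by
    by_cases hz' : z ∈ (fun w => G.ch i (φ w)) '' S
    · obtain ⟨w, hw, rfl⟩ := hz'
      rw [indicator_of_mem (mem_image_of_mem _ hw), indicator_of_mem]
      rw [(G.ch i).left_inv (m hw)]
      exact mem_image_of_mem _ hw
    · rw [indicator_of_notMem hz', indicator_of_notMem, mul_zero]
      rintro ⟨w, hw, e⟩
      exact hz' ⟨w, hw, (congrArg (G.ch i) e).trans ((G.ch i).right_inv hz)⟩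
  refine (setLIntegral_congr_fun (G.ch i).open_target.measurableSet e).trans ?_
  rw [lintegral_indicator hm', Measure.restrict_restrict hm', inter_eq_left.2 sub,
    lintegral_image_eq_lintegral_abs_det_fderiv_mul volume hS hd inj]
  refine setLIntegral_congr_fun hS fun w hw => ?_
  simp only [pbM]
  rw [(G.ch i).left_inv (m hw), dens h1 h (m hw), Geo.cf, ContinuousLinearMap.comp_assoc,
    ← Df_comp (hφ.sm w (hSW hw)) ((h.oe i).sm _ (m hw)), Df_vs, Mu.jac_comp,
    ENNReal.ofReal_mul (mul_nonneg (show 0 ≤ jac _ from abs_nonneg _) (abs_nonneg _)),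
    ENNReal.ofReal_mul (show 0 ≤ jac _ from abs_nonneg _)]
  ring

theorem whole (h1 : AlgbStmt) (ho : Ori X 4 o univ) (h : Br o G) {φ : E4 → X} {W : Set E4}
    (hφ : OE (vs E4) X φ W) {f : X → ENNReal} (hf : Measurable f) :
    ∫⁻ x in φ '' W, f x ∂mu1 o G =
      ∫⁻ w in W, f (φ w) * ENNReal.ofReal |ev (List.ofFn sb) (pbM (vs E4) X φ o w)| := by
  classical
  have hW := hφ.op.measurableSet
  have hI := (hφ.isOpen_image hφ.op subset_rfl).measurableSet
  have mφ : Measurable (W.piecewise φ fun _ => Classical.arbitrary X) :=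
    hφ.sm.contOn.measurable_piecewise continuousOn_const hW
  have hS : ∀ i, MeasurableSet (W ∩ φ ⁻¹' {x | G.c x = i}) := fun i => by
    have : W ∩ φ ⁻¹' {x | G.c x = i} =
        W ∩ (W.piecewise φ fun _ => Classical.arbitrary X) ⁻¹' {x | G.c x = i} := by
      ext w
      refine and_congr_right fun hw => ?_
      rw [mem_preimage, mem_preimage, piecewise_eq_of_mem _ _ _ hw]
    rw [this]
    exact hW.inter (mφ (h.ok.meas i))
  have e2 : W = ⋃ i, W ∩ φ ⁻¹' {x | G.c x = i} := by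
    ext w
    simp
  have e1 : φ '' W = ⋃ i, φ '' (W ∩ φ ⁻¹' {x | G.c x = i}) := by
    rw [← image_iUnion, ← e2]
  have hm : ∀ i, MeasurableSet (φ '' (W ∩ φ ⁻¹' {x | G.c x = i})) := fun i => by
    rw [image_inter_preimage]
    exact hI.inter (h.ok.meas i)
  rw [e1, lintegral_iUnion hm, e2, lintegral_iUnion hS, ← e2]
  · refine tsum_congr fun i => piece h1 ho h hφ (hS i) inter_subset_left i (fun w hw => ?_) (hm i) hf
    have := h.ok.mem (φ w)
    rwa [show G.c (φ w) = i from hw.2] at this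
  · exact fun i j hij => disjoint_left.2 fun w h1 h2 => hij (h1.2.symm.trans h2.2)
  · intro i j hij
    simp only [Function.onFun, image_inter_preimage]
    exact disjoint_left.2 fun w h1 h2 => hij (h1.2.symm.trans h2.2)

theorem isVol (h1 : AlgbStmt) (ho : Ori X 4 o univ) (h : Br o G) : IsVol X o (mu1 o G) := by
  intro N φ W hφ f hf
  rcases W.eq_empty_or_nonempty with rfl | ⟨y₀, hy₀⟩
  · simp
  obtain rfl : N = 4 := by simpa using (hφ.ld y₀ hy₀).finrank_eq
  have oe : OE (vs E4) X (fun z => φ (tl.symm z)) (tl.symm ⁻¹' W) :=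
    OE.trans (X := vs E4) (Y := vs (Rn 4))
      ⟨hφ.op.preimage tl.symm.continuous, fun y _ => ldAt_cle tl.symm y, tl.symm.injective.injOn⟩
      hφ (mapsTo_preimage _ _)
  have e := whole h1 ho h oe hf
  rw [← image_image φ tl.symm, image_preimage_eq _ tl.symm.surjective] at e
  rw [e, ← (PiLp.volume_preserving_toLp (Fin 4)).setLIntegral_comp_preimage_emb
      (MeasurableEquiv.toLp 2 (Fin 4 → ℝ)).measurableEmbedding]
  refine setLIntegral_congr_fun hφ.op.measurableSet fun y hy => ?_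
  have d := pbM_comp (X := vs (Rn 4)) (Y := vs E4) (ldAt_cle tl y).sm (oe.sm (tl y) hy) o
  rw [pbM.eq_1 (vs (Rn 4)) (vs E4), Df_vs, tl.fderiv] at d
  rw [← ev_tl]
  exact congrArg (fun a => f (φ y) * ENNReal.ofReal |ev _ a|) d.symm

theorem uniq (h : Br o G) {μ ν : Measure X} (hμ : IsVol X o μ) (hν : IsVol X o ν) : μ = ν := by
  have hcov : ⋃ i, G.U i = univ := eq_univ_of_forall fun x => mem_iUnion.2 ⟨_, h.ok.mem x⟩
  refine (Measure.ext_iff_of_iUnion_eq_univ hcov).2 fun i => ?_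
  refine Measure.ext_of_lintegral _ fun f hf => ?_
  have oe : OE (vs (Rn 4)) X (fun y => (G.ch i).symm (tl y)) (tl ⁻¹' G.T i) :=
    OE.trans (X := vs (Rn 4)) (Y := vs E4)
      ⟨(G.ch i).open_target.preimage tl.continuous, fun y _ => ldAt_cle tl y, tl.injective.injOn⟩
      (h.oe' i) (mapsTo_preimage _ _)
  have im : (fun y => (G.ch i).symm (tl y)) '' (tl ⁻¹' G.T i) = G.U i := by
    rw [← image_image (G.ch i).symm tl, image_preimage_eq _ tl.surjective]
    exact (G.ch i).symm.image_source_eq_target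
  have e := (hμ 4 _ _ oe f hf).trans (hν 4 _ _ oe f hf).symm
  rwa [im] at e

theorem vol_eq (h1 : AlgbStmt) (ho : Ori X 4 o univ) (h : Br o G) : vol X o = mu1 o G := by
  have hex : ∃ μ, IsVol X o μ := ⟨_, isVol h1 ho h⟩
  rw [vol, dif_pos hex]
  exact uniq h hex.choose_spec (isVol h1 ho h)

theorem main (h1 : AlgbStmt) (ho : Ori X 4 o univ) (h : Br o G) (α : X → Lam E4) :
    intM X o α = ∫ x, top (G.fm x) (α x) ∂G.μ := by
  have e : intM X o α = ∫ x, cf (o x) (α x) ∂(mu1 o G) := by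
    rw [← vol_eq h1 ho h]; rfl
  rw [e, mu1, integral_withDensity_eq_integral_toReal_smul (meas_top h1 ho h)
    (Eventually.of_forall fun _ => ENNReal.ofReal_lt_top)]
  refine integral_congr_ae (Eventually.of_forall fun x => ?_)
  have hp := top_pos h x
  have := cf_eq ho.dim (fun k => G.fm x (hb k)) (o x) (α x) (by rw [← top_eq]; exact hp.ne')
  simp only [this, ← top_eq, ENNReal.toReal_ofReal hp.le, smul_eq_mul]
  exact mul_div_cancel₀ _ hp.ne'

end Intb

theorem intb (h1 : AlgbStmt) (_h2 : SymStmt) : IntbStmt := fun _ _ _ _ ho h α hα =>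
  ⟨Intb.top_cont h1 h hα, Intb.main h1 ho h α⟩

end Pool.Agent.MP_e1dc65_gt.A

end
end MrgPart1

-- ======== part 2: formerly Pool.Agent.MP_e1dc65_gt.a.Tog
section MrgPart2

/-! PROJECT HC, part A: from a parametrix in a chart to a global one. -/

set_option maxSynthPendingDepth 3

open scoped Quaternion ContDiff Topology RealInnerProductSpace
open Set Filter MeasureTheory Metric

noncomputable section

namespace Pool.Agent.MP_e1dc65_gt.A

namespace Tog

theorem dir_out (R : Loc) (κ : Tw) {K : Set E4} (hK : IsCompact K) {u : E4 → W}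
    (h0 : ∀ y ∉ K, u y = 0) : ∀ y ∉ K, R.dir κ u y = 0 := fun y hy => by
  have e : u =ᶠ[𝓝 y] fun _ => 0 := (hK.isClosed.isOpen_compl.eventually_mem hy).mono h0
  simp [Loc.dir, cov, e.fderiv_eq, h0 y hy]

theorem tsupp {K : Set E4} (hK : IsCompact K) {u : E4 → W} (h0 : ∀ y ∉ K, u y = 0) :
    tsupport u ⊆ K :=
  closure_minimal (fun y hy => by_contra fun h => hy (h0 y h)) hK.isClosed

/-- moving the square of the Dirac operator to the test section -/
theorem twice (h4 : WeitzStmt) (h5 : SymStmt) {R : Loc} {T K : Set E4} (κ : Tw) (hR : R.Ok T)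
    (hK : IsCompact K) (hKT : K ⊆ T) {φ φ₁ φ₂ u : E4 → W} (s0 : ContDiffOn ℝ ∞ φ T)
    (s1 : ContDiffOn ℝ ∞ φ₁ T) (e1 : ∀ y ∈ T, φ₁ y = R.dir κ φ y)
    (e2 : ∀ y ∈ T, φ₂ y = R.dir κ φ₁ y) (su : ContDiff ℝ ∞ u) (h0 : ∀ y ∉ K, u y = 0) :
    ∫ y in T, jac (R.θ y) * ⟪φ₂ y, u y⟫ = ∫ y in T, jac (R.θ y) * ⟪φ y, (R.lap κ).ap u y⟫ := by
  have mT := hR.frm.op.measurableSet
  obtain ⟨-, w1, w2⟩ := h4 R T κ hR
  obtain ⟨-, -, sy⟩ := h5 R T κ hR
  have d0 := dir_out R κ hK h0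
  have sd : ContDiff ℝ ∞ (R.dir κ u) := contDiff_iff_contDiffAt.2 fun y => by
    by_cases hy : y ∈ K
    · exact w1 u y (hKT hy) su.contDiffAt
    · exact (contDiffAt_const (c := (0 : W))).congr_of_eventuallyEq
        ((hK.isClosed.isOpen_compl.eventually_mem hy).mono d0)
  calc ∫ y in T, jac (R.θ y) * ⟪φ₂ y, u y⟫
      = ∫ y in T, jac (R.θ y) * ⟪R.dir κ φ₁ y, u y⟫ :=
        setIntegral_congr_fun mT fun y hy => by simp only [e2 y hy]
    _ = ∫ y in T, jac (R.θ y) * ⟪φ₁ y, R.dir κ u y⟫ :=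
        sy φ₁ u s1 su (HasCompactSupport.intro hK h0) ((tsupp hK h0).trans hKT)
    _ = ∫ y in T, jac (R.θ y) * ⟪R.dir κ φ y, R.dir κ u y⟫ :=
        setIntegral_congr_fun mT fun y hy => by simp only [e1 y hy]
    _ = ∫ y in T, jac (R.θ y) * ⟪φ y, R.dir κ (R.dir κ u) y⟫ :=
        sy φ _ s0 sd (HasCompactSupport.intro hK d0) ((tsupp hK d0).trans hKT)
    _ = _ := setIntegral_congr_fun mT fun y hy => by simp only [w2 u y hy su.contDiffAt]

/-- differentiation under the integral -/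
theorem der (h6 : SmiStmt) {K : Set E4} (hK : IsCompact K) {z : E4 → ℍ} (hz : ContDiff ℝ ∞ z)
    {μ : ℤ} {F : ℝ → E4 → W} (hF : Wt z μ F) {J : E4 → ℝ} {φ : E4 → W} (hJ : ContinuousOn J K)
    (hφ : ContinuousOn φ K) {t : ℝ} (ht : 0 < t) :
    HasDerivAt (fun s => ∫ y in K, J y * ⟪φ y, F s y⟫)
      (∫ y in K, J y * ⟪φ y, deriv (fun s => F s y) t⟫) t := by
  have c1 : ContinuousOn (fun y => J y • innerSL ℝ (φ y)) K :=
    hJ.smul ((innerSL ℝ (E := W)).continuous.comp_continuousOn hφ)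
  have e : ∀ v : E4 → W, ∫ x, K.indicator (fun y => J y • innerSL ℝ (φ y)) x (v x) =
      ∫ y in K, J y * ⟪φ y, v y⟫ := fun v => by
    rw [← integral_indicator hK.measurableSet]
    congr 1
    funext x
    by_cases hx : x ∈ K
    · simp only [indicator_of_mem hx]
      rfl
    · simp only [indicator_of_notMem hx]
      rfl
  have := (h6 ℝ W ℝ (fun p => z p.2) μ (fun t p => F t p.2)
    (K.indicator fun y => J y • innerSL ℝ (φ y)) K (hz.comp contDiff_snd) (hF.comp contDiff_snd)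
    ((c1.integrableOn_compact hK).integrable_indicator hK.measurableSet) hK
    fun x hx => indicator_of_notMem hx _).2.2.1 t ht 0
  simpa only [e] using this

/-- the initial condition -/
theorem lim (h7 : AiStmt) {K : Set E4} (hK : IsCompact K) {y : E4} (hy : K ∈ 𝓝 y)
    {A : E4 →L[ℝ] ℍ} {c : ℝ} (hc : 0 < c) (hA : ∀ v, c * ‖v‖ ≤ ‖A v‖) {F : ℝ → E4 → W} {w : W}
    (hF : Wt (fun x => A (x - y)) 1 fun t x => F t x - hk t (A (x - y)) • w) {J : E4 → ℝ}
    {φ : E4 → W} (hJ : ContinuousOn J K) (hφ : ContinuousOn φ K) :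
    Tendsto (fun s => ∫ x in K, J x * ⟪φ x, F s x⟫) (𝓝[>] 0)
      (𝓝 ((jac A)⁻¹ * (J y * ⟪φ y, w⟫))) := by
  have hz : ContDiff ℝ ∞ fun x => A (x - y) := A.contDiff.comp (contDiff_id.sub contDiff_const)
  have ca : ContinuousOn (fun x => J x * ⟪φ x, w⟫) K := hJ.mul (hφ.inner (𝕜 := ℝ) continuousOn_const)
  have t1 := h7.2 ℝ (fun x => A (x - y)) y A K c (fun x => J x * ⟪φ x, w⟫) hc hK hy
    hz.continuous.continuousOn ca (by simp)
    (by simpa [Function.comp_def] using A.hasFDerivAt.comp y ((hasFDerivAt_id y).sub_const y))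
    fun x _ => hA _
  obtain ⟨M, M0, hM⟩ := hF.bound hz hK
  obtain ⟨N, hN⟩ := hK.exists_bound_of_continuousOn (hJ.smul hφ)
  have N0 : 0 ≤ N := (norm_nonneg _).trans (hN y (mem_of_mem_nhds hy))
  have ev : ∀ᶠ s in 𝓝[>] (0 : ℝ), s ∈ Ioc (0 : ℝ) 1 := Ioc_mem_nhdsGT one_pos
  have t2 : Tendsto (fun s => ∫ x in K, J x * ⟪φ x, F s x - hk s (A (x - y)) • w⟫) (𝓝[>] 0)
      (𝓝 0) := by
    refine squeeze_zero_norm' (a := fun s => N * (M * √s) * (c ^ 4)⁻¹) (ev.mono fun s hs => ?_) ?_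
    · obtain ⟨i1, i2⟩ := h7.1 (fun x => A (x - y)) y K c (2 * s) hc (by linarith [hs.1])
        hK.measurableSet hz.continuous.continuousOn fun x _ => hA _
      refine (norm_integral_le_of_norm_le (i1.const_mul (N * (M * √s)))
        ((ae_restrict_iff' hK.measurableSet).2 (ae_of_all _ fun x hx => ?_))).trans ?_
      · have a1 := hM s hs x hx
        rw [zpow_one] at a1
        rw [← real_inner_smul_left, mul_assoc]
        exact (norm_inner_le_norm _ _).trans (mul_le_mul (hN x hx) a1 (norm_nonneg _) N0)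
      · rw [integral_const_mul]
        exact mul_le_mul_of_nonneg_left i2 (by positivity)
    · have : Continuous fun s : ℝ => N * (M * √s) * (c ^ 4)⁻¹ := by fun_prop
      simpa using (this.tendsto 0).mono_left nhdsWithin_le_nhds
  have t3 := t1.add t2
  rw [add_zero, smul_eq_mul] at t3
  refine t3.congr' (ev.mono fun s hs => ?_)
  have i1 : IntegrableOn (fun x => hk s (A (x - y)) • (J x * ⟪φ x, w⟫)) K :=
    ((((contDiff_hk s).continuous.comp hz.continuous).continuousOn).smul ca).integrableOn_compact hK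
  have i2 : IntegrableOn (fun x => J x * ⟪φ x, F s x - hk s (A (x - y)) • w⟫) K :=
    (hJ.mul (hφ.inner (𝕜 := ℝ) (hF.smooth hz hs.1).continuous.continuousOn)).integrableOn_compact hK
  beta_reduce
  rw [← integral_add i1 i2]
  congr 1
  funext x
  rw [inner_sub_right, real_inner_smul_right, smul_eq_mul]
  ring

end Tog

open Tog in
theorem tog (h1 : CocStmt) (h2 : SecStmt) (h3 : IntStmt) (h4 : WeitzStmt) (h5 : SymStmt)
    (h6 : SmiStmt) (h7 : AiStmt) : TogStmt := by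
  intro X G κ hG i K C hK hKT
  have hR := hG.loc i
  have mT := hR.frm.op.measurableSet
  have := hG.fin
  obtain ⟨-, -, iso, -⟩ := h1 X G κ hG
  obtain ⟨-, s2, -, -, -, s6, s7, s8, -⟩ := h2 X G κ hG
  obtain ⟨-, i2, -, i4, -, i6⟩ := h3 X G κ hG
  obtain ⟨j1, j2, -⟩ := h5 _ _ κ hR
  have cJ : ContinuousOn (fun x => jac ((G.R i).θ x)) K := j1.continuousOn.mono hKT
  obtain ⟨E, hE⟩ := hK.exists_bound_of_continuousOn (hR.frm.es.continuousOn.mono hKT)
  obtain ⟨J, hJ⟩ := hK.exists_bound_of_continuousOn cJ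
  obtain ⟨c, hc, hcE⟩ : ∃ c : ℝ, 0 < c ∧ c * E ≤ 1 := by
    refine ⟨(|E| + 1)⁻¹, by positivity, ?_⟩
    rw [inv_mul_le_iff₀ (by positivity)]
    linarith [le_abs_self E]
  have nrm : ∀ a b, ∀ x ∈ G.U a ∩ G.U b, ∀ v, ‖G.g κ a b x v‖ = ‖v‖ := fun a b x hx v => by
    rw [@norm_eq_sqrt_real_inner W, iso a b x hx, ← @norm_eq_sqrt_real_inner W]
  have next : ∀ (u : E4 → W) (B : ℝ), (∀ x, ‖u x‖ ≤ B) → ∀ x, ‖G.ext κ i u x‖ ≤ B := by
    intro u B hB x
    unfold Geo.ext
    split_ifs with hx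
    · rw [nrm _ _ x ⟨hG.mem x, hx⟩]
      exact hB _
    · exact norm_zero.le.trans ((norm_nonneg _).trans (hB 0))
  refine ⟨C * (1 + J * (c ^ 4)⁻¹), fun y hy hyK k ρ hP w hw => ?_⟩
  have yK := interior_subset hyK
  have C0 : 0 ≤ C := (norm_nonneg _).trans (hP.bρ 1 ⟨one_pos, le_rfl⟩ 0)
  have J0 : 0 ≤ J := (norm_nonneg _).trans (hJ _ yK)
  have CC : C ≤ C * (1 + J * (c ^ 4)⁻¹) :=
    le_mul_of_one_le_right C0 (le_add_of_nonneg_right (by positivity))
  have hA : ∀ v, c * ‖v‖ ≤ ‖(G.R i).θ (G.ch i y) v‖ := fun v => by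
    have a1 := ((G.R i).e (G.ch i y)).le_of_opNorm_le (hE _ yK) ((G.R i).θ (G.ch i y) v)
    rw [hR.frm.eθ _ (hKT yK)] at a1
    nlinarith [mul_le_mul_of_nonneg_left a1 hc.le, norm_nonneg ((G.R i).θ (G.ch i y) v),
      mul_le_mul_of_nonneg_right hcE (norm_nonneg ((G.R i).θ (G.ch i y) v))]
  have hyy : y ∈ G.U i ∩ G.U (G.c y) := ⟨hy, hG.mem y⟩
  have hw' := (nrm _ _ y hyy w).trans_le hw
  have hψ' : ∀ ψ : X → W, ⟪G.lc κ i ψ (G.ch i y), G.g κ i (G.c y) y w⟫ = ⟪ψ y, w⟫ := fun ψ => by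
    rw [s2 ψ i y hy, iso _ _ y hyy]
  generalize G.g κ i (G.c y) y w = w' at hw' hψ' ⊢
  have app : ∀ A : W →L[ℝ] W, ‖A w'‖ ≤ ‖A‖ := fun A => by
    simpa using A.le_opNorm_of_le hw'
  have hz : ContDiff ℝ ∞ fun x => (G.R i).θ (G.ch i y) (x - G.ch i y) :=
    ((G.R i).θ (G.ch i y)).contDiff.comp (contDiff_id.sub contDiff_const)
  have k0 : Wt (fun x => (G.R i).θ (G.ch i y) (x - G.ch i y)) 0 k :=
    ((hP.kW.mono zero_le_one).add (wt_hk_const 1)).congr fun t _ p => (sub_add_cancel _ _).symm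
  have k1 : Wt (fun x => (G.R i).θ (G.ch i y) (x - G.ch i y)) 0 fun t x => k t x w' :=
    k0.clm (ContinuousLinearMap.apply ℝ W w')
  have k2 : Wt (fun x => (G.R i).θ (G.ch i y) (x - G.ch i y)) 1 fun t x =>
      k t x w' - hk t ((G.R i).θ (G.ch i y) (x - G.ch i y)) • w' :=
    hP.kW.clm (ContinuousLinearMap.apply ℝ W w')
  have r1 : Wt (fun x => (G.R i).θ (G.ch i y) (x - G.ch i y)) 4 fun t x => ρ t x w' :=
    hP.ρW.clm (ContinuousLinearMap.apply ℝ W w')
  have z1 : ∀ t, ∀ x ∉ K, k t x w' = 0 := fun t x hx => by rw [(hP.sup t x hx).1]; rfl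
  have z2 : ∀ t, ∀ x ∉ K, ρ t x w' = 0 := fun t x hx => by rw [(hP.sup t x hx).2]; rfl
  have toK : ∀ (φ u : E4 → W), (∀ x ∉ K, u x = 0) →
      ∫ x in G.T i, jac ((G.R i).θ x) * ⟪φ x, u x⟫ = ∫ x in K, jac ((G.R i).θ x) * ⟪φ x, u x⟫ :=
    fun φ u hu => setIntegral_eq_of_subset_of_forall_sdiff_eq_zero mT hKT fun x hx => by
      rw [hu x hx.2, inner_zero_right, mul_zero]
  have ipT : ∀ ψ ∈ G.Sec κ, ∀ u : E4 → W, (∀ x ∉ K, u x = 0) → ContDiff ℝ ∞ u →
      G.ip ψ (G.ext κ i u) = ∫ x in G.T i, jac ((G.R i).θ x) * ⟪G.lc κ i ψ x, u x⟫ :=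
    fun ψ hψ u hu su => i6 ψ ((i4 ψ hψ).2.1.integrable one_le_two) i u K hK hKT hu
      su.continuous.continuousOn
  have cψ : ∀ ψ ∈ G.Sec κ, ContinuousOn (G.lc κ i ψ) K := fun ψ hψ => (hψ i).continuousOn.mono hKT
  have sec : ∀ s, 0 < s → (G.ext κ i fun x => k s x w') ∈ G.Sec κ := fun s hs =>
    (s6 i _ K hK hKT (z1 s) (k1.smooth hz hs).contDiffOn).1
  have bk : ∀ s ∈ Ioo (0 : ℝ) 1, ∀ x,
      ‖k s x w'‖ ≤ C * hk (2 * s) ((G.R i).θ (G.ch i y) (x - G.ch i y)) :=
    fun s hs x => (app _).trans (hP.bk s ⟨hs.1, hs.2.le⟩ x)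
  refine ⟨fun s hs => ⟨sec s hs, (s6 i _ K hK hKT (z2 s) (r1.smooth hz hs).contDiffOn).1⟩,
    fun ψ hψ t ht => ?_, fun ψ hψ => ?_,
    fun s hs => next _ _ fun x => ((app _).trans (hP.bρ s ⟨hs.1, hs.2.le⟩ x)).trans CC,
    fun s hs => next _ _ fun x => (bk s hs x).trans ?_, fun s hs => ?_⟩
  · have eqn : ∀ x, ((G.R i).lap κ).ap (fun x => k t x w') x =
        ρ t x w' - deriv (fun s => k s x w') t := fun x => by
      have d : deriv (fun s => k s x w') t = deriv (fun s => k s x) t w' :=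
        ((ContinuousLinearMap.apply ℝ W w').hasFDerivAt.comp_hasDerivAt t
          (k0.hasDerivAt ht.1 x)).deriv
      rw [d, ← hP.eq t ht.1 x w', add_sub_cancel_left]
    have d1 := der h6 hK hz k1 cJ (cψ ψ hψ) ht.1
    refine (d1.congr_of_eventuallyEq ((lt_mem_nhds ht.1).mono fun s hs => ?_)).congr_deriv ?_
    · beta_reduce
      rw [ipT ψ hψ _ (z1 s) (k1.smooth hz hs), toK _ _ (z1 s)]
    have n1 : IntegrableOn (fun x => jac ((G.R i).θ x) * ⟪G.lc κ i ψ x, ρ t x w'⟫) K :=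
      (cJ.mul ((cψ ψ hψ).inner (𝕜 := ℝ)
        (r1.smooth hz ht.1).continuous.continuousOn)).integrableOn_compact hK
    have n2 : IntegrableOn (fun x => jac ((G.R i).θ x) *
        ⟪G.lc κ i ψ x, deriv (fun s => k s x w') t⟫) K :=
      (cJ.mul ((cψ ψ hψ).inner (𝕜 := ℝ)
        (k1.dt.smooth hz ht.1).continuous.continuousOn)).integrableOn_compact hK
    rw [ipT ψ hψ _ (z2 t) (r1.smooth hz ht.1), toK _ _ (z2 t),
      ipT _ (s8 _ (s8 ψ hψ)) _ (z1 t) (k1.smooth hz ht.1),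
      twice h4 h5 κ hR hK hKT (hψ i) (s8 ψ hψ i) (s7 ψ hψ i) (s7 _ (s8 ψ hψ) i)
        (k1.smooth hz ht.1) (z1 t),
      toK _ _ fun x hx => by simp only [eqn, z1 _ x hx, z2 _ x hx, deriv_const, sub_zero]]
    simp only [eqn, inner_sub_right, mul_sub]
    rw [integral_sub n1 n2, sub_sub_cancel]
  · have l1 := lim h7 hK (mem_interior_iff_mem_nhds.1 hyK) hc hA k2 cJ (cψ ψ hψ)
    rw [← mul_assoc, inv_mul_cancel₀ (j2 _ (hKT yK)).ne', one_mul, hψ'] at l1
    refine l1.congr' (eventually_mem_nhdsWithin.mono fun s hs => ?_)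
    beta_reduce
    rw [ipT ψ hψ _ (z1 s) (k1.smooth hz hs), toK _ _ (z1 s)]
  · have s0 := hs.1
    refine (mul_le_mul CC (hk_le (by linarith) _) (hk_pos (by linarith) _).le
      (C0.trans CC)).trans ?_
    rw [div_eq_mul_inv]
    exact mul_le_mul_of_nonneg_left (inv_anti₀ (by positivity) (by nlinarith)) (C0.trans CC)
  · obtain ⟨a1, a2⟩ := h7.1 _ (G.ch i y) K c (2 * s) hc (by linarith [hs.1]) hK.measurableSet
      hz.continuous.continuousOn fun x _ => hA _
    have a3 : ∀ x ∈ G.T i, ‖G.ext κ i (fun x => k s x w') ((G.ch i).symm x)‖ = ‖k s x w'‖ :=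
      fun x hx => by
        have b1 := (G.ch i).map_target hx
        rw [Geo.ext, if_pos b1, nrm _ _ _ ⟨hG.mem _, b1⟩, (G.ch i).right_inv hx]
    rw [i2 i _ (i4 _ (sec s hs.1)).1.norm.aestronglyMeasurable fun x hx => by
        rw [Geo.ext, if_neg hx, norm_zero],
      setIntegral_eq_of_subset_of_forall_sdiff_eq_zero mT hKT fun x hx => by
        rw [a3 x hx.1, z1 s x hx.2, norm_zero, mul_zero]]
    refine (Real.le_norm_self _).trans ((norm_integral_le_of_norm_le (a1.const_mul (J * C))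
      ((ae_restrict_iff' hK.measurableSet).2 (ae_of_all _ fun x hx => ?_))).trans ?_)
    · rw [a3 x (hKT hx), norm_mul, norm_norm, mul_assoc]
      exact mul_le_mul (hJ x hx) (bk s hs x) (norm_nonneg _) J0
    · rw [integral_const_mul]
      nlinarith [mul_le_mul_of_nonneg_left a2 (mul_nonneg J0 C0)]

end Pool.Agent.MP_e1dc65_gt.A

end
end MrgPart2

-- ======== part 3: formerly Pool.Agent.MP_e1dc65_gt.e.aSlb
section MrgPart3

/-! PROJECT HC, part E, sub-part A, row SLB: mapping torus coordinates. -/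

open scoped ContDiff Manifold Topology Matrix Real
open Set Filter Function Module Pool.Agent.MP_c8d41b_gt.GF

noncomputable section

namespace Pool.Agent.MP_e1dc65_gt.EA

namespace SlbP

variable {z z' z'' : Rn 3}

theorem lat3 : Lat z z' ↔ (∃ m : ℤ, z 0 - z' 0 = 2 * π * m) ∧ (∃ m : ℤ, z 1 - z' 1 = 2 * π * m) ∧
    ∃ m : ℤ, z 2 - z' 2 = 2 * π * m :=
  ⟨fun h => ⟨h 0, h 1, h 2⟩, fun h i => by fin_cases i; exacts [h.1, h.2.1, h.2.2]⟩

theorem lat_symm (h : Lat z z') : Lat z' z := fun i =>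
  let ⟨m, e⟩ := h i
  ⟨-m, by push_cast; linarith⟩

theorem lat_trans (h : Lat z z') (h' : Lat z' z'') : Lat z z'' := fun i =>
  let ⟨m, e⟩ := h i
  let ⟨m', e'⟩ := h' i
  ⟨m + m', by push_cast; linarith⟩

theorem main_lat (h : Lat z z') (hz : z ∈ MainI I01) : z' ∈ MainI I01 :=
  fun i hi ⟨w, h1, h2⟩ => hz i hi ⟨w, lat_trans h h1, h2⟩

theorem int_zero {m : ℤ} (h1 : -(2 * π) < 2 * π * m) (h2 : 2 * π * m < 2 * π) : m = 0 := by
  have a1 : (-1 : ℝ) < m := by nlinarith [Real.pi_pos]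
  have a2 : (m : ℝ) < 1 := by nlinarith [Real.pi_pos]
  have : -1 < m := by exact_mod_cast a1
  have : m < 1 := by exact_mod_cast a2
  omega

theorem exp_eq {s t : ℝ} (h : Complex.exp (s * Complex.I) = Complex.exp (t * Complex.I)) :
    ∃ m : ℤ, s - t = 2 * π * m := by
  obtain ⟨m, e⟩ := Complex.exp_eq_exp_iff_exists_int.1 h
  refine ⟨m, ?_⟩
  have := congrArg Complex.im e
  simp at this
  linarith

/-- translation in the second coordinate -/
def dn (k : ℤ) (z : Rn 3) : Rn 3 := ![z 0, z 1 - 2 * π * k, z 2]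

/-- the shear -/
def sh (c : ℝ) (St : ℝ → ℝ) (z : Rn 3) : Rn 3 := ![z 0 + c * St (z 1), z 1, z 2]

theorem lat_dn (k : ℤ) (z : Rn 3) : Lat z (dn k z) :=
  lat3.2 ⟨⟨0, by simp [dn]⟩, ⟨k, by simp [dn]⟩, ⟨0, by simp [dn]⟩⟩

theorem mem_box {k : ℤ} : dn k z ∈ Box 0 ↔
    |z 1 - 2 * π * k - 3 * π / 2| < 2 * eps ∧ |z 2 - π / 2| < 2 * eps := Iff.rfl

theorem vec_sm {a b c : Rn 3 → ℝ} (ha : ContDiff ℝ ∞ a) (hb : ContDiff ℝ ∞ b)
    (hc : ContDiff ℝ ∞ c) : ContDiff ℝ ∞ (fun y => (![a y, b y, c y] : Rn 3)) :=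
  contDiff_pi.2 fun i => by fin_cases i; exacts [ha, hb, hc]

theorem ld_of {f g : Rn 3 → Rn 3} (hf : ContDiff ℝ ∞ f) (hg : ContDiff ℝ ∞ g)
    (l : ∀ x, g (f x) = x) (r : ∀ x, f (g x) = x) (z : Rn 3) :
    LDAt (vs (Rn 3)) (vs (Rn 3)) f z :=
  ldAt_of_inv (X := vs (Rn 3)) (Y := vs (Rn 3)) (g := g) isOpen_univ isOpen_univ trivial
    (fun _ _ => smAt_vs.2 hf.contDiffAt) (fun _ _ => smAt_vs.2 hg.contDiffAt) (mapsTo_univ _ _)
    (mapsTo_univ _ _) (fun x _ => l x) fun x _ => r x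

theorem dn_ld (k : ℤ) (z : Rn 3) : LDAt (vs (Rn 3)) (vs (Rn 3)) (dn k) z := by
  have h : ∀ k, ContDiff ℝ ∞ (dn k) := fun k => vec_sm (by fun_prop) (by fun_prop) (by fun_prop)
  refine ld_of (h k) (h (-k)) (fun x => ?_) (fun x => ?_) z <;> funext i <;> fin_cases i <;>
    simp [dn]

theorem sh_sh (c : ℝ) (St : ℝ → ℝ) (z : Rn 3) : sh c St (sh (-c) St z) = z := by
  funext i; fin_cases i <;> simp [sh]

theorem sh_ld (c : ℝ) {St : ℝ → ℝ} (hs : ContDiff ℝ ∞ St) (z : Rn 3) :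
    LDAt (vs (Rn 3)) (vs (Rn 3)) (sh c St) z := by
  have h : ∀ c, ContDiff ℝ ∞ (sh c St) := fun c => vec_sm (by fun_prop) (by fun_prop) (by fun_prop)
  exact ld_of (h c) (h (-c)) (fun x => by simpa using sh_sh (-c) St x) (sh_sh c St) z

/-- a point of the slab that lies on a cut -/
theorem cutc (hz : z ∈ Slab) (h : z ∉ MainI I01) : z 2 = π / 2 ∧
    ∃ k : ℤ, |z 1 - 2 * π * k - 3 * π / 2| ≤ eps ∧ dn k z ∈ Box 0 ∩ Cut 0 := by
  simp only [MainI, mem_ofPred_eq, not_forall, not_not] at h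
  obtain ⟨i, hi, w, hw, h1, h2⟩ := h
  obtain ⟨m, em⟩ := hw 2
  have he : 0 < eps := by norm_num [eps]
  fin_cases i
  · obtain ⟨k, ek⟩ := hw 1
    change |w 1 - 3 * π / 2| ≤ eps at h1
    change w 2 = π / 2 at h2
    have hm : m = 0 := int_zero (by linarith [hz.1, Real.pi_pos]) (by linarith [hz.2, Real.pi_pos])
    rw [hm, Int.cast_zero, mul_zero] at em
    have e1 : z 1 - 2 * π * k = w 1 := by linarith
    have e2 : z 2 = π / 2 := by linarith
    refine ⟨e2, k, by rwa [e1], mem_box.2 ⟨by rw [e1]; linarith, by rw [e2]; simpa⟩,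
      w, lat_trans (lat_symm (lat_dn k z)) hw, h1, h2⟩
  · change w 2 = 3 * π / 2 at h2
    have hm : m = 0 := int_zero (by linarith [hz.1]) (by linarith [hz.2, Real.pi_pos])
    rw [hm, Int.cast_zero, mul_zero] at em
    linarith [hz.2]
  · exact absurd rfl hi

theorem main_of_ne (hz : z ∈ Slab) (h : z 2 ≠ π / 2) : z ∈ MainI I01 :=
  by_contra fun h' => h (cutc hz h').1

/-- far from the cut in the second coordinate -/
def Far (y : ℝ) : Prop := ∀ k : ℤ, eps < |y - 2 * π * k - 3 * π / 2|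

theorem main_of_far (hz : z ∈ Slab) (h : Far (z 1)) : z ∈ MainI I01 :=
  by_contra fun h' => let ⟨k, hk, _⟩ := (cutc hz h').2; absurd hk (not_le.2 (h k))

/-- the staircase -/
structure Stair (St : ℝ → ℝ) : Prop where
  sm : ContDiff ℝ ∞ St
  eq : ∀ (y : ℝ) (k : ℤ), |y - 2 * π * k - 3 * π / 2| ≤ 6 →
    St y = lam (y - 2 * π * k - 3 * π / 2) + k
  per : ∀ (y : ℝ) (k : ℤ), St (y + 2 * π * k) = St y + k

theorem exists_stair : ∃ St, Stair St := by
  obtain ⟨S, h1, -, h3, h4⟩ := Fn.exists_St (p := 2 * π) (by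
    unfold eps; linarith [Real.pi_gt_three])
  refine ⟨fun y => S (y - 3 * π / 2), h1.comp (by fun_prop), fun y k h => ?_, fun y k => ?_⟩
  · rw [← h4 _ (h.trans (by unfold eps; linarith [Real.pi_gt_d2])), ← h3]
    congr 1; ring
  · rw [← h3]
    congr 1; ring

variable {St : ℝ → ℝ}

theorem Stair.int (hS : Stair St) {y : ℝ} (h : Far y) : ∃ m : ℤ, St y = m := by
  have hp : 0 < 2 * π := Real.two_pi_pos
  set k := toIcoDiv hp (-π) (y - 3 * π / 2) with hk
  have h1 := sub_toIcoDiv_zsmul_mem_Ico hp (-π) (y - 3 * π / 2)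
  rw [← hk, zsmul_eq_mul] at h1
  rw [hS.eq y k (abs_le.2 ⟨by linarith [h1.1, Real.pi_lt_four], by linarith [h1.2, Real.pi_lt_four]⟩)]
  rcases lt_abs.1 (h k) with h2 | h2
  · exact ⟨k + 1, by rw [Fn.lam_one h2.le]; push_cast; ring⟩
  · exact ⟨k, by rw [Fn.lam_zero (by linarith), zero_add]⟩

theorem Stair.lat (hS : Stair St) : Lat (sh (2 * π) St z) (sh (2 * π) St z') ↔ Lat z z' := by
  rw [lat3, lat3]
  refine and_congr_left fun h => ?_
  obtain ⟨m, e⟩ := h.1
  change z 1 - z' 1 = _ at e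
  have e1 : St (z 1) = St (z' 1) + m := by rw [← hS.per, ← e]; congr 1; ring
  simp only [sh, Matrix.cons_val, e1]
  exact ⟨fun ⟨k, h⟩ => ⟨k - m, by push_cast; linarith⟩, fun ⟨k, h⟩ => ⟨k + m, by push_cast; linarith⟩⟩

theorem far_col {y : ℝ} (h1 : -1 ≤ y) (h2 : y ≤ 4) : Far y := fun k => by
  have := Real.pi_gt_d2
  have := Real.pi_lt_d2
  rcases le_or_gt 0 k with h | h
  · have : (0 : ℝ) ≤ k := by exact_mod_cast h
    exact lt_abs.2 (.inr (by unfold eps; nlinarith))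
  · have : (k : ℝ) ≤ -1 := by exact_mod_cast (show k ≤ -1 by omega)
    exact lt_abs.2 (.inl (by unfold eps; nlinarith))

open Classical in
/-- the coordinates -/
def Ph (A : MA) (St : ℝ → ℝ) (z : Rn 3) : A.X :=
  if h : ∃ k : ℤ, dn k z ∈ Box 0 then A.e 0 (dn h.choose z)
  else if z 2 ≤ π / 2 then A.e₀ z else A.e₀ (sh (2 * π) St z)

variable {A : MA}

theorem i0 : (0 : Fin 3) ∈ I01 := by simp [I01]

theorem ph_box (hA : A.Ok) {k : ℤ} (h : dn k z ∈ Box 0) : Ph A St z = A.e 0 (dn k z) := by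
  have h' : ∃ k : ℤ, dn k z ∈ Box 0 := ⟨k, h⟩
  rw [Ph, dif_pos h']
  exact (hA.tw.eq 0 i0 _ h'.choose_spec _ h).2 (lat_trans (lat_symm (lat_dn _ z)) (lat_dn k z))

theorem ph_low (hA : A.Ok) (hz : z ∈ MainI I01) (h : z 2 ≤ π / 2) : Ph A St z = A.e₀ z := by
  by_cases hb : ∃ k : ℤ, dn k z ∈ Box 0
  · obtain ⟨k, hk⟩ := hb
    have hm := main_lat (lat_dn k z) hz
    rw [ph_box hA hk, hA.tw.low 0 i0 _ hk hm h]
    exact (hA.tw.eq0 _ hm _ hz).2 (lat_symm (lat_dn k z))
  · rw [Ph, dif_neg hb, if_pos h]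

theorem ph_up (hA : A.Ok) (hS : Stair St) (hz : z ∈ Slab) (h : π / 2 < z 2) :
    Ph A St z = A.e₀ (sh (2 * π) St z) := by
  by_cases hb : ∃ k : ℤ, dn k z ∈ Box 0
  · obtain ⟨k, hk⟩ := hb
    have hm : sh (2 * π) St z ∈ MainI I01 := main_of_ne hz h.ne'
    have hl : Lat (sh (2 * π) St z) (shr 0 (dn k z)) := by
      have e := hS.eq (z 1) k ((mem_box.1 hk).1.le.trans (by norm_num [eps]))
      refine lat3.2 ⟨⟨k, ?_⟩, ⟨k, ?_⟩, ⟨0, ?_⟩⟩
      · simp [sh, shr, dn, jx, cj, e]; ring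
      · simp [sh, shr, dn]
      · simp [sh, shr, dn]
    rw [ph_box hA hk, hA.tw.up 0 i0 _ hk h]
    exact (hA.tw.eq0 _ (main_lat hl hm) _ hm).2 (lat_symm hl)
  · rw [Ph, dif_neg hb, if_neg (not_le.2 h)]

theorem ph_far (hA : A.Ok) (hS : Stair St) (hz : z ∈ Slab) (h : Far (z 1)) :
    Ph A St z = A.e₀ z := by
  have hm := main_of_far hz h
  rcases le_or_gt (z 2) (π / 2) with hu | hu
  · exact ph_low hA hm hu
  · obtain ⟨m, e⟩ := hS.int h
    have hl : Lat z (sh (2 * π) St z) :=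
      lat3.2 ⟨⟨-m, by simp [sh, e]⟩, ⟨0, by simp [sh]⟩, ⟨0, by simp [sh]⟩⟩
    rw [ph_up hA hS hz hu]
    exact (hA.tw.eq0 _ (main_lat hl hm) _ hm).2 (lat_symm hl)

theorem ph_ld (hA : A.Ok) (hS : Stair St) (hz : z ∈ Slab) :
    LDAt (vs (Rn 3)) A.X (Ph A St) z := by
  have c1 : Continuous fun w : Rn 3 => w 1 := continuous_apply 1
  have c2 : Continuous fun w : Rn 3 => w 2 := continuous_apply 2
  have e0 : ∀ᶠ w : Rn 3 in 𝓝 z, w ∈ Slab :=
    (c2.continuousAt.eventually_const_lt hz.1).and (c2.continuousAt.eventually_lt_const hz.2)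
  rcases lt_trichotomy (z 2) (π / 2) with h | h | h
  · refine (hA.tw.ld0 z (main_of_ne hz h.ne)).congr' ?_
    filter_upwards [e0, c2.continuousAt.eventually_lt_const h] with w h1 h2
    exact ph_low hA (main_of_ne h1 h2.ne) h2.le
  · by_cases hb : ∃ k : ℤ, dn k z ∈ Box 0
    · obtain ⟨k, hk⟩ := hb
      refine ((dn_ld k z).trans (hA.tw.ld 0 i0 _ hk)).congr' ?_
      have a1 : Continuous fun w : Rn 3 => |w 1 - 2 * π * k - 3 * π / 2| := by fun_prop
      have a2 : Continuous fun w : Rn 3 => |w 2 - π / 2| := by fun_prop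
      filter_upwards [a1.continuousAt.eventually_lt_const (mem_box.1 hk).1,
        a2.continuousAt.eventually_lt_const (mem_box.1 hk).2] with w h1 h2
      exact ph_box hA (mem_box.2 ⟨h1, h2⟩)
    · have he : 0 < eps := by norm_num [eps]
      have far : ∀ y, |y - z 1| < eps → Far y := fun y hy k => by
        by_contra hk
        refine hb ⟨k, mem_box.2 ⟨?_, by rw [h]; simpa⟩⟩
        have h1 := abs_lt.1 hy
        have h2 := abs_le.1 (not_lt.1 hk)
        exact abs_lt.2 ⟨by linarith [h1.2, h2.1], by linarith [h1.1, h2.2]⟩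
      refine (hA.tw.ld0 z (main_of_far hz (far _ (by simpa)))).congr' ?_
      have a1 : Continuous fun w : Rn 3 => |w 1 - z 1| := by fun_prop
      have a2 : |z 1 - z 1| < eps := by simpa
      filter_upwards [e0, a1.continuousAt.eventually_lt_const a2] with w h1 h2
      exact ph_far hA hS h1 (far _ h2)
  · refine ((sh_ld (2 * π) hS.sm z).trans (hA.tw.ld0 _ (main_of_ne hz h.ne'))).congr' ?_
    filter_upwards [e0, c2.continuousAt.eventually_const_lt h] with w h1 h2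
    exact ph_up hA hS h1 h2

theorem ph_ang (hA : A.Ok) (hS : Stair St) (hz : z ∈ Slab) :
    A.ang (Ph A St z) = Complex.exp (z 2 * Complex.I) := by
  by_cases hm : z ∈ MainI I01
  · rcases le_or_gt (z 2) (π / 2) with h | h
    · rw [ph_low hA hm h, hA.ang0 _ hm]
    · rw [ph_up hA hS hz h, hA.ang0 _ (main_of_ne (z := sh (2 * π) St z) hz h.ne')]
      rfl
  · obtain ⟨-, k, -, hk, -⟩ := cutc hz hm
    rw [ph_box hA hk, hA.angb 0 i0 _ hk]
    rfl

theorem ph_eq (hA : A.Ok) (hS : Stair St) (hz : z ∈ Slab) (hz' : z' ∈ Slab) :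
    Ph A St z = Ph A St z' ↔ Lat z z' := by
  have key : z 2 = z' 2 → (Ph A St z = Ph A St z' ↔ Lat z z') := fun e => by
    rcases le_or_gt (z 2) (π / 2) with h | h
    · by_cases hm : z ∈ MainI I01 <;> by_cases hm' : z' ∈ MainI I01
      · rw [ph_low hA hm h, ph_low hA hm' (e ▸ h), hA.tw.eq0 _ hm _ hm']
      · obtain ⟨-, k, -, hk⟩ := cutc hz' hm'
        rw [ph_low hA hm h, ph_box hA hk.1]
        exact ⟨fun e1 => absurd ⟨z, hm, e1⟩ (hA.tw.cut 0 i0 _ hk),
          fun e1 => absurd (main_lat e1 hm) hm'⟩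
      · obtain ⟨-, k, -, hk⟩ := cutc hz hm
        rw [ph_low hA hm' (e ▸ h), ph_box hA hk.1]
        exact ⟨fun e1 => absurd ⟨z', hm', e1.symm⟩ (hA.tw.cut 0 i0 _ hk),
          fun e1 => absurd (main_lat (lat_symm e1) hm') hm⟩
      · obtain ⟨-, k, -, hk, -⟩ := cutc hz hm
        obtain ⟨-, k', -, hk', -⟩ := cutc hz' hm'
        rw [ph_box hA hk, ph_box hA hk', hA.tw.eq 0 i0 _ hk _ hk']
        exact ⟨fun e1 => lat_trans (lat_dn k z) (lat_trans e1 (lat_symm (lat_dn k' z'))),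
          fun e1 => lat_trans (lat_symm (lat_dn k z)) (lat_trans e1 (lat_dn k' z'))⟩
    · have h' : π / 2 < z' 2 := e ▸ h
      rw [ph_up hA hS hz h, ph_up hA hS hz' h',
        hA.tw.eq0 _ (main_of_ne (z := sh (2 * π) St z) hz h.ne') _
        (main_of_ne (z := sh (2 * π) St z') hz' h'.ne'), hS.lat]
  have k2 : (∃ m : ℤ, z 2 - z' 2 = 2 * π * m) → z 2 = z' 2 := fun ⟨m, e⟩ => by
    rw [int_zero (m := m) (by linarith [hz.1, hz'.2]) (by linarith [hz.2, hz'.1]), Int.cast_zero,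
      mul_zero] at e
    linarith
  refine ⟨fun e => (key (k2 (exp_eq ?_))).1 e, fun e => (key (k2 (e 2))).2 e⟩
  rw [← ph_ang hA hS hz, e, ph_ang hA hS hz']

theorem ph_σ (hA : A.Ok) (hS : Stair St) (hz : z ∈ Slab) (h : z 2 < π / 2) :
    A.σ (Ph A St z) = Ph A St (Tm St z) := by
  have hm := main_of_ne hz h.ne
  have h1 : π / 2 < Tm St z 2 := by change _ < z 2 + π; linarith [hz.1]
  rw [ph_low hA hm h.le, hA.σ0 _ hm, ph_up hA hS ⟨by linarith [Real.pi_pos],
    by change z 2 + π < _; linarith⟩ h1]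
  congr 1
  funext i; fin_cases i <;> simp [sg0, sh, Tm]

theorem ph_sur (hA : A.Ok) (hS : Stair St) (x : A.X) {t : ℝ} (h0 : 0 ≤ t) (h1 : t < π)
    (h : A.ang x = Complex.exp (t * Complex.I)) : ∃ z : Rn 3, z 2 = t ∧ Ph A St z = x := by
  have p3 := Real.pi_gt_three
  rcases hA.tw.cov x with ⟨w, hw, rfl⟩ | ⟨i, hi, w, hw, rfl⟩
  · rw [hA.ang0 _ hw] at h
    have hl : Lat w ![w 0, w 1, t] := lat3.2 ⟨⟨0, by simp⟩, ⟨0, by simp⟩, exp_eq h⟩
    have hm := main_lat hl hw
    have e := (hA.tw.eq0 _ hm _ hw).2 (lat_symm hl)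
    rcases le_or_gt t (π / 2) with ht | ht
    · exact ⟨![w 0, w 1, t], rfl, by rw [ph_low hA hm ht, e]⟩
    · refine ⟨sh (-(2 * π)) St ![w 0, w 1, t], rfl, ?_⟩
      rw [ph_up hA hS ⟨by change _ < t; linarith, by change t < _; linarith⟩ ht, sh_sh, e]
  · rw [hA.angb i hi _ hw] at h
    obtain ⟨m, e⟩ := exp_eq h
    fin_cases i
    · have h2 : |w 2 - π / 2| < 2 * eps := hw.2
      rw [abs_lt, eps] at h2
      rw [int_zero (m := m) (by linarith [h2.1]) (by linarith [h2.2]), Int.cast_zero,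
        mul_zero] at e
      have e1 : dn 0 w = w := by funext i; fin_cases i <;> simp [dn]
      exact ⟨w, by linarith, by rw [ph_box hA (k := 0) (by rwa [e1]), e1]; rfl⟩
    · have h2 : |w 2 - 3 * π / 2| < 2 * eps := hw.2
      rw [abs_lt, eps] at h2
      rw [int_zero (m := m) (by linarith [h2.1]) (by linarith [h2.2]), Int.cast_zero,
        mul_zero] at e
      linarith [h2.1]
    · exact absurd rfl hi

theorem ph_cov (hA : A.Ok) (hS : Stair St) (x : A.X) :
    ∃ z : Rn 3, 0 ≤ z 2 ∧ z 2 < π ∧ (Ph A St z = x ∨ A.σ (Ph A St z) = x) := by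
  obtain ⟨s, hs⟩ : ∃ s : ℝ, A.ang x = Complex.exp (s * Complex.I) := by
    rcases hA.tw.cov x with ⟨w, hw, rfl⟩ | ⟨i, hi, w, hw, rfl⟩
    exacts [⟨_, hA.ang0 _ hw⟩, ⟨_, hA.angb i hi _ hw⟩]
  have hp : 0 < 2 * π := Real.two_pi_pos
  have h1 := toIcoMod_mem_Ico' hp s
  have h2 : A.ang x = Complex.exp (toIcoMod hp 0 s * Complex.I) := by
    rw [hs]
    refine Complex.exp_eq_exp_iff_exists_int.2 ⟨toIcoDiv hp 0 s, ?_⟩
    conv_lhs => rw [← toIcoMod_add_toIcoDiv_mul hp 0 s]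
    push_cast; ring
  generalize toIcoMod hp 0 s = t at h1 h2
  rcases lt_or_ge t π with ht | ht
  · obtain ⟨z, e1, e2⟩ := ph_sur hA hS x h1.1 ht h2
    exact ⟨z, e1 ▸ h1.1, e1 ▸ ht, .inl e2⟩
  · obtain ⟨z, e1, e2⟩ := ph_sur hA hS (A.σ x) (t := t - π) (by linarith) (by linarith [h1.2]) (by
      rw [hA.angσ, h2]
      push_cast
      rw [sub_mul, Complex.exp_sub_pi_mul_I])
    exact ⟨z, by linarith, by linarith [h1.2], .inr (by rw [e2, hA.σσ])⟩

end SlbP

open SlbP in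
theorem slb : SlbStmt := fun A hA => by
  obtain ⟨St, hS⟩ := exists_stair
  refine ⟨St, Ph A St, hS.sm, fun t => by simpa using hS.per t 1, fun _ => ph_ld hA hS,
    fun _ hz _ => ph_eq hA hS hz, fun z hz h1 h2 => ph_far hA hS hz (far_col h1 h2),
    fun t h1 h2 => ?_, fun _ => ph_ang hA hS, fun _ => ph_σ hA hS, ph_cov hA hS⟩
  have := Real.pi_gt_d2
  have := Real.pi_lt_d2
  rw [hS.eq t 0 (abs_le.2 ⟨by simp; linarith, by simp; linarith⟩),
    Fn.lam_zero (by simp [eps]; linarith)]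
  simp

end Pool.Agent.MP_e1dc65_gt.EA

end
end MrgPart3

-- ======== part 4: formerly Pool.Agent.MP_e1dc65_gt.e.aCfn
section MrgPart4

/-! PROJECT HC, part E-A, row CFN: a coframe on the punctured handle chart. -/

open scoped ContDiff Manifold Topology Matrix Real
open Set Filter Function Module Pool.Agent.MP_c8d41b_gt.GF

noncomputable section

namespace Pool.Agent.MP_e1dc65_gt.EA

namespace CfnP
open Complex

/-- weight of `d arg z₁` -/
def al (z : ℂ × ℂ) : ℝ :=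
  max 0 (min (normSq z.1 - normSq z.2) 1) * max 0 (1 / 4 - normSq z.1 * normSq z.2)
/-- weight of `d arg z₂` -/
def be (z : ℂ × ℂ) : ℝ := max (normSq z.1) 1 ^ 2
/-- the normalisation -/
def nn (z : ℂ × ℂ) : ℝ := al z * normSq z.1 + be z * normSq z.2

theorem nn_pos {z : ℂ × ℂ} (h : z ≠ 0) : 0 < nn z := by
  have h1 : 0 ≤ al z := mul_nonneg (le_max_left _ _) (le_max_left _ _)
  have h2 : 0 < be z := pow_pos (lt_max_of_lt_right one_pos) 2
  by_cases h3 : z.2 = 0
  · have h4 : 0 < normSq z.1 := normSq_pos.2 fun h4 => h (Prod.ext h4 h3)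
    have h5 : 0 < al z := by
      refine mul_pos (lt_max_of_lt_right ?_) (lt_max_of_lt_right ?_) <;> simp [h3, h4]
    have := mul_pos h5 h4
    simpa [nn, h3] using this
  · exact add_pos_of_nonneg_of_pos (mul_nonneg h1 (normSq_nonneg _)) (mul_pos h2 (normSq_pos.2 h3))

/-- the coframe -/
def th (z : ℂ × ℂ) : ℂ × ℂ →L[ℝ] Rn 3 × ℝ := LinearMap.toContinuousLinearMap
  { toFun := fun v => (![(v.1 * z.2 + z.1 * v.2).re, (v.1 * z.2 + z.1 * v.2).im,
      (al z * (star z.1 * v.1).im - be z * (star z.2 * v.2).im) / nn z],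
      2 * (star z.1 * v.1).re - 2 * (star z.2 * v.2).re)
    map_add' := fun v v' => by
      refine Prod.ext (funext fun i => ?_) ?_
      · fin_cases i <;> simp <;> ring
      · simp; ring
    map_smul' := fun c v => by
      refine Prod.ext (funext fun i => ?_) ?_
      · fin_cases i <;> simp <;> ring
      · simp; ring }

theorem th_apply (z v : ℂ × ℂ) : th z v = (![(v.1 * z.2 + z.1 * v.2).re, (v.1 * z.2 + z.1 * v.2).im,
    (al z * (star z.1 * v.1).im - be z * (star z.2 * v.2).im) / nn z],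
    2 * (star z.1 * v.1).re - 2 * (star z.2 * v.2).re) := rfl

theorem th_cont : ContinuousOn th {0}ᶜ := by
  have h1 : Continuous al := by unfold al; fun_prop
  have h2 : Continuous be := by unfold be; fun_prop
  have h3 : Continuous nn := by unfold nn; fun_prop
  refine continuousOn_clm_apply.2 fun v => ?_
  simp only [th_apply]
  refine ContinuousOn.prodMk (continuousOn_pi.2 fun i => ?_) (by fun_prop)
  fin_cases i
  · exact Continuous.continuousOn (by simp only [Fin.zero_eta, Matrix.cons_val_zero]; fun_prop)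
  · exact Continuous.continuousOn (by
      simp only [Fin.mk_one, Matrix.cons_val_one, Matrix.cons_val_zero]; fun_prop)
  · simp only [Fin.reduceFinMk, Matrix.cons_val]
    exact ContinuousOn.div (by fun_prop) h3.continuousOn fun z hz => (nn_pos hz).ne'

theorem th_inv {z : ℂ × ℂ} (h : z ≠ 0) : (th z).IsInvertible := by
  have hi : Injective (th z).toLinearMap := by
    refine (injective_iff_map_eq_zero _).2 fun v hv => ?_
    have hv' : th z v = 0 := hv
    rw [th_apply] at hv'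
    have e0 := congrFun (congrArg Prod.fst hv') 0
    have e1 := congrFun (congrArg Prod.fst hv') 1
    have e2 := congrFun (congrArg Prod.fst hv') 2
    have e3 := congrArg Prod.snd hv'
    simp only [Matrix.cons_val, Prod.fst_zero, Pi.zero_apply, Prod.snd_zero, div_eq_zero_iff,
      (nn_pos h).ne', or_false] at e0 e1 e2 e3
    have e4 : v.1 * z.2 + z.1 * v.2 = 0 := Complex.ext e0 e1
    obtain ⟨c, c1, c2⟩ : ∃ c : ℂ, v.1 = c * z.1 ∧ v.2 = -c * z.2 := by
      by_cases h1 : z.1 = 0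
      · have h2 : z.2 ≠ 0 := fun h2 => h (Prod.ext h1 h2)
        rw [h1, zero_mul, add_zero, mul_eq_zero, or_iff_left h2] at e4
        exact ⟨-v.2 / z.2, by rw [e4, h1, mul_zero], by field_simp⟩
      · refine ⟨v.1 / z.1, by field_simp, ?_⟩
        field_simp
        linear_combination e4
    have s1 : star z.1 * v.1 = normSq z.1 * c := by
      rw [c1, normSq_eq_conj_mul_self, star_def]; ring
    have s2 : star z.2 * v.2 = normSq z.2 * -c := by
      rw [c2, normSq_eq_conj_mul_self, star_def]; ring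
    rw [s1, s2] at e2 e3
    simp only [re_ofReal_mul, im_ofReal_mul, neg_re, neg_im] at e2 e3
    have p1 : 0 < normSq z.1 + normSq z.2 := by
      by_cases h1 : z.1 = 0
      · simpa [h1] using normSq_pos.2 fun h2 => h (Prod.ext h1 h2)
      · exact add_pos_of_pos_of_nonneg (normSq_pos.2 h1) (normSq_nonneg _)
    have c0 : c = 0 := Complex.ext
      (mul_left_cancel₀ p1.ne' (by simp only [zero_re]; linarith))
      (mul_left_cancel₀ (nn_pos h).ne' (by simp only [zero_im, nn]; linarith))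
    exact Prod.ext (by simp [c1, c0]) (by simp [c2, c0])
  exact ⟨(LinearMap.linearEquivOfInjective _ hi (by simp [finrank_prod])).toContinuousLinearEquiv,
    ContinuousLinearMap.ext fun _ => rfl⟩

/-- the derivative along a line -/
theorem line {f : Rn 3 × ℝ → ℂ × ℂ} {p : Rn 3 × ℝ} (hf : DifferentiableAt ℝ f p) (v : Rn 3 × ℝ) :
    HasDerivAt (fun t : ℝ => (f (p + t • v)).1) (fderiv ℝ f p v).1 0 ∧
      HasDerivAt (fun t : ℝ => (f (p + t • v)).2) (fderiv ℝ f p v).2 0 := by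
  have h := hf.hasFDerivAt.hasLineDerivAt v
  exact ⟨(ContinuousLinearMap.fst ℝ ℂ ℂ).hasFDerivAt.comp_hasDerivAt _ h,
    (ContinuousLinearMap.snd ℝ ℂ ℂ).hasFDerivAt.comp_hasDerivAt _ h⟩

theorem der_nsq {c : ℝ → ℂ} {c' : ℂ} (h : HasDerivAt c c' 0) :
    HasDerivAt (fun t => ‖c t‖ ^ 2) (2 * (star (c 0) * c').re) 0 := by
  have := h.norm_sq
  rwa [Complex.inner, mul_comm c'] at this

theorem rel {f : Rn 3 × ℝ → ℂ × ℂ} {D : Set (Rn 3 × ℝ)} {p : Rn 3 × ℝ} (hD : IsOpen D) (hp : p ∈ D)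
    (hf : DifferentiableAt ℝ f p)
    (h : ∀ q ∈ D, (f q).1 * (f q).2 = wz q.1 ∧ rho (f q) = q.2 - 1) (v : Rn 3 × ℝ) :
    (fderiv ℝ f p v).1 * (f p).2 + (f p).1 * (fderiv ℝ f p v).2 = ⟨v.1 0, v.1 1⟩ ∧
    2 * (star (f p).1 * (fderiv ℝ f p v).1).re - 2 * (star (f p).2 * (fderiv ℝ f p v).2).re =
      v.2 := by
  obtain ⟨h1, h2⟩ := line hf v
  have ev : ∀ᶠ t : ℝ in 𝓝 0, p + t • v ∈ D :=
    (show Continuous fun t : ℝ => p + t • v by fun_prop).continuousAt.eventually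
      (hD.mem_nhds (by simpa using hp))
  have a1 := h1.mul h2
  have a2 := (der_nsq h1).sub (der_nsq h2)
  simp only [zero_smul, add_zero] at a1 a2
  constructor
  · refine a1.unique (HasDerivAt.congr_of_eventuallyEq
      (f := fun t : ℝ => wz p.1 + t * (⟨v.1 0, v.1 1⟩ : ℂ)) ?_ ?_)
    · simpa using ((hasDerivAt_id (0 : ℝ)).ofReal_comp.mul_const (⟨v.1 0, v.1 1⟩ : ℂ)).const_add
        (wz p.1)
    · filter_upwards [ev] with t ht
      refine (h _ ht).1.trans (Complex.ext ?_ ?_) <;> simp [wz] <;> ring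
  · refine a2.unique (HasDerivAt.congr_of_eventuallyEq (f := fun t : ℝ => p.2 - 1 + t * v.2) ?_ ?_)
    · simpa using ((hasDerivAt_id (0 : ℝ)).mul_const v.2).const_add (p.2 - 1)
    · filter_upwards [ev] with t ht
      refine (h _ ht).2.trans ?_
      simp; ring

theorem angle {c : ℝ → ℂ} {c' : ℂ} {r : ℝ → ℝ} {u k : ℝ} (h : HasDerivAt c c' 0)
    (e : ∀ t, c t = r t * exp ((u + t * k : ℝ) * I)) :
    (star (c 0) * c').im = normSq (c 0) * k := by
  have a1 : HasDerivAt (fun t : ℝ => exp (-((u + t * k : ℝ) * I))) (exp (-(u * I)) * -(k * I)) 0 := by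
    have := ((((hasDerivAt_id (0 : ℝ)).mul_const k).const_add u).ofReal_comp.mul_const I).neg.cexp
    simpa using this
  have a2 := imCLM.hasFDerivAt.comp_hasDerivAt _ (h.mul a1)
  have a3 : (⇑imCLM ∘ (c * fun t : ℝ => exp (-((u + t * k : ℝ) * I)))) = fun _ => 0 := funext fun t => by
    simp only [comp_apply, Pi.mul_apply, e t, mul_assoc, ← exp_add, add_neg_cancel, exp_zero,
      mul_one, imCLM_apply, ofReal_im]
  rw [a3] at a2
  have a4 := a2.unique (hasDerivAt_const _ _)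
  have e0 : c 0 = r 0 * exp (u * I) := by simpa using e 0
  have e1 : c 0 * (exp (-(u * I)) * -(k * I)) = -(r 0 * k : ℝ) * I := by
    rw [e0, exp_neg]; push_cast; field_simp
  have e2 : star (c 0) = r 0 * exp (-(u * I)) := by
    rw [e0, star_def, map_mul, conj_ofReal, ← exp_conj]; simp
  have e3 : normSq (c 0) = r 0 * r 0 := by
    rw [e0, map_mul, normSq_ofReal, normSq_eq_norm_sq, norm_exp_ofReal_mul_I]; ring
  simp only [zero_mul, add_zero, e1, imCLM_apply, add_im] at a4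
  rw [e2, e3, mul_assoc, im_ofReal_mul, mul_comm _ c', eq_neg_of_add_eq_zero_left a4]
  simp [mul_assoc]

/-- the coframe near the end -/
def BB (q : Rn 3) : Rn 3 →L[ℝ] Rn 3 := LinearMap.toContinuousLinearMap
  { toFun := fun v => ![v 0, v 1,
      v 2 - ((wz q).re * v 1 - (wz q).im * v 0) / max (normSq (wz q)) (1 / 4)]
    map_add' := fun v v' => funext fun i => by fin_cases i <;> simp <;> ring
    map_smul' := fun c v => funext fun i => by fin_cases i <;> simp <;> ring }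

theorem md {f : Rn 3 × ℝ → ℂ × ℂ} {p : Rn 3 × ℝ} (h : LDAt (vs (Rn 3 × ℝ)) (vs (ℂ × ℂ)) f p) :
    DifferentiableAt ℝ f p := (smAt_vs.1 h.sm).differentiableAt (by simp)

end CfnP

open CfnP Complex in
/-- row CFN -/
theorem cfn : CfnStmt := fun N => by
  refine ⟨th, BB, fun z hz => ⟨cfAt_vs.2 (contDiffAt_zero.2
    ⟨_, isOpen_compl_singleton.mem_nhds hz.2, th_cont⟩), th_inv hz.2⟩, fun p hp ha v => ?_,
    fun p hp ha v => ?_⟩
  · have hf := md (N.ldl p hp)
    obtain ⟨r1, r2⟩ := rel N.opL hp hf (fun q hq => (N.meml q hq).2.2) v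
    obtain ⟨-, m1, m2, m3⟩ := N.meml p hp
    have r3 := angle (r := fun t => rr (wz (p + t • v).1) (1 - (p + t • v).2)) (u := -p.1 2)
      (k := -v.1 2) (line hf v).2 fun t => by
        simp only [lo, Prod.fst_add, Prod.smul_fst, Pi.add_apply, Pi.smul_apply, smul_eq_mul]
        congr 2; push_cast; ring
    simp only [zero_smul, add_zero] at r3
    have a0 : al (lo p) = 0 := by
      rcases ha with ha | ha
      · refine mul_eq_zero_of_left (max_eq_left (min_le_of_left_le ?_)) _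
        rw [normSq_eq_norm_sq, normSq_eq_norm_sq]
        exact m3.le.trans (by linarith)
      · refine mul_eq_zero_of_right _ (max_eq_left ?_)
        rw [← map_mul, m2, normSq_eq_norm_sq]
        nlinarith
    have b0 : be (lo p) ≠ 0 := (pow_pos (lt_max_of_lt_right one_pos) 2).ne'
    have n0 := (normSq_pos.2 m1).ne'
    rw [th_apply, r1, r2, r3, nn, a0]
    refine Prod.ext (funext fun i => ?_) rfl
    fin_cases i <;> simp
    field_simp
  · have hf := md (N.ldu p hp)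
    obtain ⟨r1, r2⟩ := rel N.opU hp hf (fun q hq => (N.memu q hq).2.2) v
    obtain ⟨-, m1, m2, m3⟩ := N.memu p hp
    have r3 := angle (r := fun t => rr (wz (p + t • v).1) ((p + t • v).2 - 1)) (u := p.1 2)
      (k := v.1 2) (line hf v).1 fun t => by
        simp only [up, Prod.fst_add, Prod.smul_fst, Pi.add_apply, Pi.smul_apply, smul_eq_mul]
    simp only [zero_smul, add_zero] at r3
    have r4 : normSq (up p).2 * (normSq (up p).1 * v.1 2) +
        normSq (up p).1 * (star (up p).2 * (fderiv ℝ up p v).2).im =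
        (wz p.1).re * v.1 1 - (wz p.1).im * v.1 0 := by
      have := congrArg (fun x => (star (wz p.1) * x).im) r1
      simp only [mul_im, star_def, conj_re, conj_im] at this
      rw [← r3, sub_eq_add_neg, ← neg_mul, ← this, ← m2]
      simp [normSq_apply]
      ring
    rw [rho, ← normSq_eq_norm_sq, ← normSq_eq_norm_sq] at m3
    have n0 := normSq_pos.2 m1
    have n1 := normSq_nonneg (up p).2
    have w0 : normSq (wz p.1) = normSq (up p).1 * normSq (up p).2 := by rw [← m2, map_mul]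
    have a0 : al (up p) = max (normSq (wz p.1)) (1 / 4) - normSq (wz p.1) := by
      rw [al, min_eq_right (by linarith), max_eq_right zero_le_one, one_mul, ← w0,
        ← max_sub_sub_right, sub_self]
    have b0 : be (up p) = normSq (up p).1 ^ 2 := by rw [be, max_eq_left (by linarith)]
    have M0 : 0 < max (normSq (wz p.1)) (1 / 4) := lt_max_of_lt_right (by norm_num)
    have c0 : nn (up p) = normSq (up p).1 * max (normSq (wz p.1)) (1 / 4) := by
      rw [nn, a0, b0]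
      linear_combination (-normSq (up p).1) * w0
    rw [th_apply, r1, r2, r3, c0, a0, b0]
    refine Prod.ext (funext fun i => ?_) rfl
    fin_cases i
    · rfl
    · rfl
    · change _ / _ = v.1 2 - ((wz p.1).re * v.1 1 - (wz p.1).im * v.1 0) /
        max (normSq (wz p.1)) (1 / 4)
      rw [← r4]
      generalize max (normSq (wz p.1)) (1 / 4) = M at M0
      rw [w0]
      field_simp
      ring

end Pool.Agent.MP_e1dc65_gt.EA

end
end MrgPart4

-- ======== part 5: formerly Pool.Agent.MP_e1dc65_gt.e.aCfq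
section MrgPart5

/-! PROJECT HC, part E, sub-part A, row CFQ: the coframe of the double cover. -/

open scoped ContDiff Manifold Topology Matrix Real
open Set Filter Function Module

noncomputable section

namespace Pool.Agent.MP_e1dc65_gt.EA

namespace CfqP

theorem dsc_bd {z : Rn 3} (h : z ∈ Dsc) : |z 0 - 3 * π / 2| < 1 ∧ |z 1 - π / 2| < 1 :=
  ⟨(Complex.abs_re_le_norm (wz z)).trans_lt h, (Complex.abs_im_le_norm (wz z)).trans_lt h⟩

theorem dsc_std {z : Rn 3} (h : z ∈ Dsc) : z ∈ Std := by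
  obtain ⟨h1, h2⟩ := dsc_bd h
  rw [abs_lt] at h1 h2
  have := Real.pi_gt_three
  have := Real.pi_lt_d2
  exact .inl ⟨by linarith, by linarith, by linarith, by linarith⟩

theorem far {a b : ℝ} {m : ℤ} (e : a - b = π * (2 * m + 1)) (ha : |a| < 1) (hb : |b| ≤ eps) :
    False := by
  rw [abs_lt] at ha
  rw [abs_le, eps] at hb
  have := Real.pi_gt_three
  rcases le_or_gt 0 m with h | h
  · have : (0 : ℝ) ≤ m := by exact_mod_cast h
    nlinarith
  · have : (m : ℝ) ≤ -1 := by exact_mod_cast Int.le_sub_one_of_lt h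
    nlinarith

theorem dsc_main {z : Rn 3} (h : z ∈ Dsc) : z ∈ MainI I01 := by
  rintro i hi ⟨z', l, h1, -⟩
  obtain ⟨h2, h3⟩ := dsc_bd h
  fin_cases i
  · obtain ⟨m, e⟩ := l 1
    exact far (b := z' 1 - 3 * π / 2) (m := m) (by linarith) h3 h1
  · obtain ⟨m, e⟩ := l 0
    exact far (b := z' 0 - π / 2) (m := m - 1) (by push_cast; linarith) h2 h1
  · exact hi rfl

/-- the action of the involution on the four-dimensional coframe -/
def ρ : Rn 3 × ℝ →L[ℝ] Rn 3 × ℝ := LinearMap.toContinuousLinearMap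
  { toFun := fun v => (R3 v.1, -v.2)
    map_add' := fun v w => Prod.ext (by ext i; fin_cases i <;> simp [R3, add_comm]) (neg_add _ _)
    map_smul' := fun c v => Prod.ext (by ext i; fin_cases i <;> simp [R3]) (by simp) }

theorem ρ_apply (v : Rn 3 × ℝ) : ρ v = (R3 v.1, -v.2) := rfl

theorem ρρ (v : Rn 3 × ℝ) : ρ (ρ v) = v :=
  Prod.ext (by ext i; fin_cases i <;> simp [ρ_apply, R3]) (neg_neg _)

theorem ρ_inv : ρ.IsInvertible :=
  .of_inverse (ContinuousLinearMap.ext ρρ) (ContinuousLinearMap.ext ρρ)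

/-- coordinates -/
def L : ((Rn 3 × ℝ) × ℝ) ≃L[ℝ] Rn 5 := LinearEquiv.toContinuousLinearEquiv
  { toFun := fun v => ![v.1.1 0, v.1.1 1, v.1.1 2, v.1.2, v.2]
    invFun := fun w => ((![w 0, w 1, w 2], w 3), w 4)
    map_add' := fun v w => by ext i; fin_cases i <;> simp
    map_smul' := fun c v => by ext i; fin_cases i <;> simp
    left_inv := fun v => Prod.ext (Prod.ext (by ext i; fin_cases i <;> rfl) rfl) rfl
    right_inv := fun w => by ext i; fin_cases i <;> rfl }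

theorem L_apply (v : Rn 3 × ℝ) (r : ℝ) : L (v, r) = ![v.1 0, v.1 1, v.1 2, v.2, r] := rfl

theorem L_ρ (v : Rn 3 × ℝ) (r : ℝ) : L (ρ v, r) = E.R5 *ᵥ L (v, r) := by
  ext i
  fin_cases i <;> simp [L_apply, ρ_apply, R3, E.R5, Matrix.mulVec, dotProduct, Fin.sum_univ_five]

section
variable {E E' V : Type} [NormedAddCommGroup E] [NormedSpace ℝ E] [FiniteDimensional ℝ E]
  [NormedAddCommGroup E'] [NormedSpace ℝ E'] [FiniteDimensional ℝ E'] [NormedAddCommGroup V]
  [NormedSpace ℝ V] {X : Mf E} {Y : Mf E'}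

/-- a form whose pull-back along an etale map is a coframe -/
theorem cof_of {f : X → Y} {O : Set X} {θ : Y → E' →L[ℝ] V} {θ' : X → E →L[ℝ] V} (hO : IsOpen O)
    (hf : ∀ x ∈ O, LDAt X Y f x) (h : Cof X 0 θ' O)
    (e : ∀ x ∈ O, θ (f x) = (θ' x).comp (Df X Y f x).inverse) {x : X} (hx : x ∈ O) :
    CfAt Y 0 θ (f x) ∧ (θ (f x)).IsInvertible := by
  refine ⟨CfAt.of_pb (hf x hx) ((h x hx).1.congr' ?_), e x hx ▸ (h x hx).2.comp (hf x hx).inv.inverse⟩
  filter_upwards [hO.mem_nhds hx] with y hy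
  rw [e y hy, ContinuousLinearMap.comp_assoc, (hf y hy).inv.inverse_comp_self,
    ContinuousLinearMap.comp_id]

end

variable {A : MA} {T : QtD A} (hA : A.Ok)
include hA

theorem lo_mem {q : Rn 3 × ℝ} (hq : q ∈ Dlo) : ((A.e₀ q.1, q.2) : A.X.cyl) ∈ A.U := by
  rintro ⟨z, hz, e⟩
  have hz' : wz z = 0 := hz
  have h1 := hA.del0 z (by simp [Dsc, hz'])
  rw [show A.e₀ z = A.e₀ q.1 from e, hA.del0 _ hq.1, hz', norm_zero, norm_eq_zero] at h1
  exact abs_lt.2 ⟨by linarith [hq.2.1], hq.2.2 h1⟩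

/-- the coframe on the upper part -/
theorem upper (hN : NutStmt) (hT : T.Ok) {τ ϑ B} (hτ : Cfa A τ) (hϑ : Cfn ϑ B) :
    ∃ θ : T.Qt → E4 →L[ℝ] Rn 3 × ℝ, Cof T.Qt 0 θ ({y | -1 / 2 < T.s y} \ {T.nut 0}) ∧
      (∀ p ∈ A.U, -1 / 2 < p.2 → p.2 < 1 ∨ 1 / 2 < A.del p.1 → ∀ v,
        θ (T.io p) (Df A.X.cyl T.Qt T.io p v) = (τ p.1 v.1, v.2)) ∧
      ∀ z ∈ Np \ {0}, ∀ v, θ (T.nut z) (Df (vs (ℂ × ℂ)) T.Qt T.nut z v) = ϑ z v := by
  let P : Set A.X.cyl := A.U ∩ ({p | -1 / 2 < p.2} ∩ ({p | p.2 < 1} ∪ {p | 1 / 2 < A.del p.1}))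
  have hP : IsOpen P := hT.oi.op.inter ((isOpen_lt continuous_const continuous_snd).inter
    ((isOpen_lt continuous_snd continuous_const).union
      (isOpen_lt continuous_const (hA.delc.comp continuous_fst))))
  obtain ⟨θ, e1, e2⟩ := desc2 P (fun _ : Unit => Np \ {0}) T.io (fun _ => T.nut)
    (fun p => ((τ p.1).prodMap (ContinuousLinearMap.id ℝ ℝ)).comp (Df A.X.cyl T.Qt T.io p).inverse)
    (fun _ z => (ϑ z).comp (Df (vs (ℂ × ℂ)) T.Qt T.nut z).inverse)
    (fun x hx y hy e => by rw [hT.oi.inj hx.1 hy.1 e])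
    (fun _ p hp z hz e => by
      obtain ⟨q, hq, rfl, rfl⟩ := (hT.rel p hp.1 z hz.1).1 e
      have l0 := hA.tw.ld0 _ (dsc_main hq.1)
      have s0 : SmAt (vs (Rn 3 × ℝ)) (vs (Rn 3)) Prod.fst q := smAt_vs.2 contDiffAt_fst
      have s1 : SmAt (vs (Rn 3 × ℝ)) (vs ℝ) Prod.snd q := smAt_vs.2 contDiffAt_snd
      have l1 := hT.oi.ld _ hp.1
      have l2 := hT.onu.ld _ hz.1
      have l3 := hN.ldl q hq
      have ev : (fun q : Rn 3 × ℝ => T.io (A.e₀ q.1, q.2)) =ᶠ[𝓝 q] fun q => T.nut (lo q) := by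
        filter_upwards [hN.opL.mem_nhds hq] with q' hq'
        exact (hT.rel _ (lo_mem hA hq') _ (hN.meml q' hq').1).2 ⟨q', hq', rfl, rfl⟩
      have d := Df_congr (X := vs (Rn 3 × ℝ)) (Y := T.Qt) ev
      rw [Df_comp ((s0.trans l0.sm).pair s1) l1.sm, Df_comp l3.sm l2.sm, Df_pair (s0.trans l0.sm) s1,
        Df_comp s0 l0.sm, Df_vs Prod.fst, Df_vs Prod.snd, fderiv_fst, fderiv_snd] at d
      refine ContinuousLinearMap.ext fun w => ?_
      obtain ⟨v, rfl⟩ := (l2.inv.comp l3.inv).surjective w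
      have h1 := hϑ.lo q hq (hp.2.2.imp le_of_lt fun h => (le_of_lt h).trans_eq (hA.del0 _ hq.1)) v
      rw [← Df_vs, ← l2.inv.inverse_apply_self (Df (vs (Rn 3 × ℝ)) (vs (ℂ × ℂ)) lo q v)] at h1
      refine Eq.trans ?_ h1.symm
      rw [← d, ContinuousLinearMap.comp_apply, ContinuousLinearMap.comp_apply,
        l1.inv.inverse_apply_self]
      exact Prod.ext (hτ.std _ (dsc_std hq.1) _) rfl)
    fun _ _ x hx y hy e => by rw [hT.onu.inj hx.1 hy.1 e]
  have c1 := fun p => cof_of hP (fun p hp => hT.oi.ld p hp.1)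
    (hτ.cof.cyl.mono fun _ _ => ⟨trivial, trivial⟩) e1 (x := p)
  have c2 := fun z => cof_of (X := vs (ℂ × ℂ)) (hN.opN.sdiff isClosed_singleton)
    (fun z hz => hT.onu.ld z hz.1) hϑ.cof (e2 ()) (x := z)
  refine ⟨θ, fun y hy => ?_, fun p h1 h2 h3 v => ?_, fun z hz v => ?_⟩
  · have h0 : -1 / 2 < T.s y := hy.1
    obtain ⟨p, hp, rfl⟩ | ⟨z, hz, rfl | rfl⟩ := hT.cov y
    · rw [hT.si p hp] at h0
      by_cases h : p.2 < 1 ∨ 1 / 2 < A.del p.1
      · exact c1 p ⟨hp, h0, h⟩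
      · rw [not_or, not_lt, not_lt] at h
        obtain h1 | ⟨z, hz, e⟩ := hA.del1 p.1
        · linarith [h.2]
        · have hq : (z, p.2) ∈ Dlo := ⟨hz, by linarith [h.1], fun h2 =>
            (abs_lt.1 (hp ⟨z, h2, e⟩)).2⟩
          have m := hN.meml _ hq
          rw [(hT.rel p hp _ m.1).2 ⟨_, hq, Prod.ext e rfl, rfl⟩]
          exact c2 _ ⟨m.1, fun h3 => m.2.1 (congrArg Prod.snd h3)⟩
    · exact c2 z ⟨hz, fun e => hy.2 (congrArg T.nut e)⟩
    · rw [hT.sσ, hT.sn z hz] at h0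
      linarith [hz.2]
  · rw [e1 p ⟨h1, h2, h3⟩, ContinuousLinearMap.comp_apply, (hT.oi.ld p h1).inv.inverse_apply_self]
    rfl
  · rw [e2 () z hz, ContinuousLinearMap.comp_apply, (hT.onu.ld z hz.1).inv.inverse_apply_self]

/-- the differential of the involution in the product chart -/
theorem dσ (hT : T.Ok) {p : A.X.cyl} (hp : p ∈ A.U) (v : Rn 3 × ℝ) :
    Df T.Qt T.Qt T.σ (T.io p) (Df A.X.cyl T.Qt T.io p v) =
      Df A.X.cyl T.Qt T.io (A.σ p.1, -p.2) (Df A.X A.X A.σ p.1 v.1, -v.2) := by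
  have s0 : SmAt A.X.cyl A.X Prod.fst p := smAt_fst
  have s1 : SmAt A.X.cyl (vs ℝ) Prod.snd p := smAt_snd
  have s2 : SmAt (vs ℝ) (vs ℝ) (fun t => -t) p.2 := smAt_vs.2 contDiffAt_id.neg
  have ev : (fun p => T.σ (T.io p)) =ᶠ[𝓝 p] fun p => T.io (A.σ p.1, -p.2) :=
    eventually_of_mem (hT.oi.op.mem_nhds hp) hT.σi
  have d := Df_congr (X := A.X.cyl) (Y := T.Qt) ev
  rw [Df_comp (hT.oi.sm p hp) (hT.σsm _ trivial), Df_comp ((s0.trans (hA.σsm _ trivial)).pair
    (s1.trans s2)) (hT.oi.sm _ (hT.σU p hp)), Df_pair (s0.trans (hA.σsm _ trivial)) (s1.trans s2),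
    Df_comp s0 (hA.σsm _ trivial), Df_comp s1 s2, Df_fst, Df_snd, Df_vs, fderiv_fun_neg,
    fderiv_id'] at d
  exact congrArg (fun M : Rn 3 × ℝ →L[ℝ] E4 => M v) d

end CfqP

open CfqP in
theorem cfq : CfqStmt := by
  intro hN A T τ ϑ B hA hT hτ hϑ
  classical
  obtain ⟨θ, c, e1, e2⟩ := upper hA hN hT hτ hϑ
  have lσ : ∀ y, LDAt T.Qt T.Qt T.σ y := fun y =>
    ldAt_of_inv isOpen_univ isOpen_univ trivial hT.σsm hT.σsm (mapsTo_univ _ _) (mapsTo_univ _ _)
      (fun _ _ => hT.σσ _) fun _ _ => hT.σσ _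
  have k1 : ∀ p ∈ A.U, p.2 < 1 / 2 → -1 < p.2 ∨ 1 / 2 < A.del p.1 → ∀ v,
      ρ (θ (T.σ (T.io p)) (Df T.Qt T.Qt T.σ (T.io p) (Df A.X.cyl T.Qt T.io p v))) =
        (τ p.1 v.1, v.2) := fun p hp h1 h2 v => by
    rw [dσ hA hT hp, hT.σi p hp, e1 _ (hT.σU p hp) (by linarith)
      (h2.imp (fun h => by linarith) fun h => by rwa [hA.delσ]), hτ.σ]
    exact ρρ (τ p.1 v.1, v.2)
  let η : T.Qt → E4 →L[ℝ] Rn 3 × ℝ := fun y =>
    if 0 < T.s y then θ y else ρ.comp ((θ (T.σ y)).comp (Df T.Qt T.Qt T.σ y))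
  have k2 : ∀ y, -1 / 2 < T.s y → T.s y < 1 / 2 →
      θ y = ρ.comp ((θ (T.σ y)).comp (Df T.Qt T.Qt T.σ y)) := fun y h1 h2 => by
    obtain ⟨p, hp, rfl⟩ | ⟨z, hz, rfl | rfl⟩ := hT.cov y
    · rw [hT.si p hp] at h1 h2
      refine ContinuousLinearMap.ext fun w => ?_
      obtain ⟨v, rfl⟩ := (hT.oi.ld p hp).inv.surjective w
      rw [e1 p hp h1 (.inl (by linarith))]
      exact (k1 p hp h2 (.inl (by linarith)) v).symm
    · rw [hT.sn z hz] at h2
      linarith [hz.2]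
    · rw [hT.sσ, hT.sn z hz] at h1
      linarith [hz.2]
  have a1 : ∀ y, -1 / 2 < T.s y → η y = θ y := fun y h => by
    by_cases h' : 0 < T.s y
    exacts [if_pos h', (if_neg h').trans (k2 y h (by linarith)).symm]
  have a2 : ∀ y, T.s y < 1 / 2 → η y = ρ.comp ((θ (T.σ y)).comp (Df T.Qt T.Qt T.σ y)) :=
    fun y h => by
    by_cases h' : 0 < T.s y
    exacts [(if_pos h').trans (k2 y (by linarith) h), if_neg h']
  have cη : Cof T.Qt 0 η {T.nut 0, T.σ (T.nut 0)}ᶜ := fun y hy => by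
    rw [mem_compl_iff, mem_insert_iff, mem_singleton_iff, not_or] at hy
    by_cases h : -1 / 2 < T.s y
    · obtain ⟨h1, h2⟩ := c y ⟨h, hy.1⟩
      exact ⟨h1.congr' (((isOpen_lt continuous_const hT.scont).eventually_mem h).mono a1),
        a1 y h ▸ h2⟩
    · have h' : T.s y < 1 / 2 := by linarith
      obtain ⟨h1, h2⟩ := c (T.σ y) ⟨by rw [mem_ofPred_eq, hT.sσ]; linarith,
        fun e => hy.2 (by rw [← hT.σσ y, show T.σ y = T.nut 0 from e])⟩
      exact ⟨((h1.pb (lσ y).sm).ccomp ρ).congr'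
        (((isOpen_lt hT.scont continuous_const).eventually_mem h').mono a2),
        a2 y h' ▸ ρ_inv.comp (h2.comp (lσ y).inv)⟩
  refine ⟨fun p => (L : (Rn 3 × ℝ) × ℝ →L[ℝ] Rn 5).comp
    ((η p.1).prodMap (ContinuousLinearMap.id ℝ ℝ)), cη.cyl.ccomp L, fun y _ t v r => ?_,
    fun p hp h t v r => ?_, fun z hz t v r => ?_⟩
  · change L (η (T.σ y) (Df T.Qt T.Qt T.σ y v), r) = E.R5 *ᵥ L (η y v, r)
    rw [← L_ρ]
    congr 2
    by_cases h : T.s y < 1 / 2
    · rw [a1 _ (by rw [hT.sσ]; linarith), a2 y h]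
      exact (ρρ _).symm
    · have d := Df_comp (lσ y).sm (lσ (T.σ y)).sm
      simp only [hT.σσ, Df_id] at d
      rw [a2 _ (by rw [hT.sσ]; linarith), a1 y (by linarith), hT.σσ]
      exact congrArg (fun w => ρ (θ y w)) (congrArg (fun M : E4 →L[ℝ] E4 => M v) d).symm
  · change L (η (T.io p) (Df A.X.cyl T.Qt T.io p v), r) = L ((τ p.1 v.1, v.2), r)
    congr 2
    by_cases h' : -1 / 2 < p.2
    · rw [a1 _ (by rwa [hT.si p hp]), e1 p hp h' (h.imp_left fun h => (abs_lt.1 h).2)]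
    · rw [a2 _ (by rw [hT.si p hp]; linarith)]
      exact k1 p hp (by linarith) (h.imp_left fun h => (abs_lt.1 h).1) v
  · change L (η (T.nut z) (Df (vs (ℂ × ℂ)) T.Qt T.nut z v), r) = L (ϑ z v, r)
    rw [a1 _ (by rw [hT.sn z hz.1]; linarith [hz.1.2]), e2 z hz]

end Pool.Agent.MP_e1dc65_gt.EA

end
end MrgPart5

-- ======== part 6: formerly Pool.Agent.MP_e1dc65_gt.e.aMat
section MrgPart6

/-! PROJECT HC, part E, sub-part A, row MAT: killing the circle kills the fundamental group. -/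

open scoped ContDiff Manifold Topology Matrix Real
open Set Filter Function Module Pool.Agent.MP_c8d41b_gt.GF

noncomputable section

namespace Pool.Agent.MP_e1dc65_gt.EA

namespace MatP

/-- lattice translation -/
def tt (m n : ℤ) (z : Rn 3) : Rn 3 := ![z 0 + 2 * π * m, z 1 + 2 * π * n, z 2]

theorem tt_tt (m n m' n' : ℤ) (z : Rn 3) : tt (m + m') (n + n') z = tt m n (tt m' n' z) := by
  funext i
  fin_cases i <;> simp [tt] <;> ring

theorem tt_lat (m n : ℤ) (z : Rn 3) : Lat (tt m n z) z :=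
  lat3.2 ⟨⟨m, by simp [tt]⟩, ⟨n, by simp [tt]⟩, 0, by simp [tt]⟩

theorem cont_tt (m n : ℤ) : Continuous (tt m n) := by
  refine continuous_pi fun i => ?_
  fin_cases i <;> simp only [tt] <;> simp <;> fun_prop

theorem lat_tt {z z' : Rn 3} (hz : z ∈ Slab) (hz' : z' ∈ Slab) (h : Lat z z') :
    ∃ m n, z = tt m n z' := by
  have e : z 2 = z' 2 := h.close (abs_lt.2 ⟨by linarith [hz.1, hz'.2], by linarith [hz.2, hz'.1]⟩)
  obtain ⟨⟨m, hm⟩, ⟨n, hn⟩, -⟩ := lat3.1 h
  refine ⟨m, n, funext fun i => ?_⟩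
  fin_cases i
  · exact eq_add_of_sub_eq' hm
  · exact eq_add_of_sub_eq' hn
  · exact e

theorem conv (a b : ℝ) : Convex ℝ {z : Rn 3 | a < z 2 ∧ z 2 < b} :=
  (convex_Ioo a b).linear_preimage (LinearMap.proj (R := ℝ) (φ := fun _ : Fin 3 => ℝ) 2)

theorem open_slab : IsOpen Slab := by
  refine IsOpen.and (isOpen_lt ?_ ?_) (isOpen_lt ?_ ?_) <;> fun_prop

theorem zero_slab : (0 : Rn 3) ∈ Slab := by
  have := Real.pi_pos
  constructor <;> simp <;> linarith

variable {X G : Type} [TopologicalSpace X] [Group G] {τ : ∀ x y : X, Path x y → G}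

theorem mon {f : Rn 3 → X} {S : Rn 3 → G} (hf : ContinuousOn f Slab) (hS : Up τ f Slab S)
    (e : ∀ z ∈ Slab, ∀ z' ∈ Slab, Lat z z' → f z = f z') : ∃ M : ℤ → ℤ → G,
      (∀ m n, ∀ z ∈ Slab, S (tt m n z) = M m n * S z) ∧
      ∀ m n m' n', M (m + m') (n + n') = M m n * M m' n' := by
  choose M hM using fun m n => hS.monodromy hf (k := tt m n) subset_rfl
    ((conv _ _).isPathConnected ⟨0, zero_slab⟩) (cont_tt m n).continuousOn (fun _ h => h)
    fun z hz => e (tt m n z) hz z hz (tt_lat m n z)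
  refine ⟨M, hM, fun m n m' n' => mul_right_cancel (b := S 0) ?_⟩
  rw [← hM _ _ 0 zero_slab, tt_tt, hM m n (tt m' n' 0) zero_slab, hM _ _ 0 zero_slab, mul_assoc]

theorem hom0 {M : ℤ → ℤ → G} (h : ∀ m n m' n', M (m + m') (n + n') = M m n * M m' n') :
    M 0 0 = 1 := by
  simpa using h 0 0 0 0

theorem hom1 {M : ℤ → ℤ → G} (h : ∀ m n m' n', M (m + m') (n + n') = M m n * M m' n')
    (h1 : M 1 0 = 1) (h2 : M 0 1 = 1) (m n : ℤ) : M m n = 1 := by
  have a : ∀ m n, M (m + 1) n = M m n := fun m n => by simpa [h1] using h m n 1 0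
  have b : ∀ m n, M m (n + 1) = M m n := fun m n => by simpa [h2] using h m n 0 1
  have c : ∀ n, M 0 n = 1 := fun n => Int.induction_on n (hom0 h) (fun n hn => (b 0 n).trans hn)
    fun n hn => by rw [← b, sub_add_cancel, hn]
  exact Int.induction_on m (c n) (fun m hm => (a m n).trans hm)
    fun m hm => by rw [← a, sub_add_cancel, hm]

theorem alg {M N : ℤ → ℤ → G} {g : G} (hM : ∀ m n m' n', M (m + m') (n + n') = M m n * M m' n')
    (hN : ∀ m n m' n', N (m + m') (n + n') = N m n * N m' n') (h1 : N 1 0 = M 1 (-1))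
    (h2 : N 0 1 = M (-1) 0) (h3 : g * M 1 0 = N 1 (-1) * g) (h4 : g * M 0 1 = N (-1) 0 * g)
    (h5 : g = N 0 (-1) * M 0 (-1)) : (∀ m n, M m n = 1) ∧ (∀ m n, N m n = 1) ∧ g = 1 := by
  have a1 : M (-1) 0 = (M 1 0)⁻¹ := eq_inv_of_mul_eq_one_left (by rw [← hM]; exact hom0 hM)
  have a2 : M 0 (-1) = (M 0 1)⁻¹ := eq_inv_of_mul_eq_one_left (by rw [← hM]; exact hom0 hM)
  have a3 : M 1 (-1) = M 1 0 * M 0 (-1) := by rw [← hM]; rfl
  have b1 : N (-1) 0 = (N 1 0)⁻¹ := eq_inv_of_mul_eq_one_left (by rw [← hN]; exact hom0 hN)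
  have b2 : N 0 (-1) = (N 0 1)⁻¹ := eq_inv_of_mul_eq_one_left (by rw [← hN]; exact hom0 hN)
  have b3 : N 1 (-1) = N 1 0 * N 0 (-1) := by rw [← hN]; rfl
  rw [h2, a1, _root_.inv_inv] at b2
  rw [b2, a2] at h5
  rw [a3, a2, ← h5] at h1
  rw [b3, h1, b2] at h3
  rw [b1, h1, inv_mul_cancel, h5, inv_mul_cancel_right] at h4
  rw [h4, mul_one] at h3
  have hg : g = 1 := by simpa using h3.symm
  have hB : M 0 1 = 1 := by simpa [h4, hg] using h5.symm
  exact ⟨hom1 hM h4 hB, hom1 hN (h1.trans hg) (by rw [h2, a1, h4, inv_one]), hg⟩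

end MatP

open MatP in
theorem mat : MatStmt := by
  intro A St Φ hA hS G _ τ h hc
  have hp := Real.pi_pos
  set L : Set (Rn 3) := {z | -(π / 2) < z 2 ∧ z 2 < π / 2} with hL
  have LS : L ⊆ Slab := fun z hz => ⟨hz.1, by linarith [hz.2]⟩
  have L0 : (0 : Rn 3) ∈ L := by constructor <;> simp <;> linarith
  have pL : IsPathConnected L := (conv _ _).isPathConnected ⟨0, L0⟩
  have TS : MapsTo (Tm St) L Slab := fun z hz =>
    ⟨show _ < z 2 + π by linarith [hz.1], show z 2 + π < _ by linarith [hz.2]⟩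
  have cT : Continuous (Tm St) := by
    have := hS.sm.continuous
    refine continuous_pi fun i => ?_
    fin_cases i <;> simp only [Tm] <;> simp <;> fun_prop
  have ld2 : ∀ z ∈ Slab, LDAt (vs (Rn 3)) A.X (fun z => A.σ (Φ z)) z := fun z hz =>
    (hS.ld z hz).trans (hA.σld _)
  have c1 : ContinuousOn Φ Slab := ld_contOn (X := vs (Rn 3)) hS.ld
  have c2 : ContinuousOn (fun z => A.σ (Φ z)) Slab := ld_contOn (X := vs (Rn 3)) ld2
  have th : Thin Slab Slab := thin_convex (conv _ _)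
  have e1 : ∀ z ∈ L, A.σ (Φ z) = Φ (Tm St z) := fun z hz => hS.σΦ z (LS hz) hz.2
  have e2 : ∀ z ∈ L, Φ z = A.σ (Φ (Tm St z)) := fun z hz => by rw [← e1 z hz, hA.σσ]
  obtain ⟨S1, u1⟩ := h.exists_up c1 (mapsTo_univ _ _) th
  obtain ⟨S, u⟩ := h.exists_up c2 (mapsTo_univ _ _) th
  obtain ⟨g0, hg0⟩ := (u.mono LS).exists_const (u1.comp cT.continuousOn TS e1) (c2.mono LS) pL
  obtain ⟨S2, u2, k1⟩ : ∃ S2, Up τ (fun z => A.σ (Φ z)) Slab S2 ∧ ∀ z ∈ L, S1 (Tm St z) = S2 z :=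
    ⟨_, u.const_mul g0, hg0⟩
  obtain ⟨g, k2⟩ := (u1.mono LS).exists_const (u2.comp cT.continuousOn TS e2) (c1.mono LS) pL
  obtain ⟨M, m1, m2⟩ := mon c1 u1 fun z hz z' hz' => (hS.eq z hz z' hz').2
  obtain ⟨N, n1, n2⟩ := mon c2 u2 fun z hz z' hz' hl => congrArg A.σ ((hS.eq z hz z' hz').2 hl)
  have ta : Tm St (tt 1 0 0) = tt 1 (-1) (Tm St 0) := by
    have := hS.per (-(2 * π))
    rw [neg_add_cancel] at this
    funext i
    fin_cases i <;> simp [Tm, tt]
    rw [this]; ring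
  have tb : Tm St (tt 0 1 0) = tt (-1) 0 (Tm St 0) := by
    funext i
    fin_cases i <;> simp [Tm, tt]
    ring
  have La : tt 1 0 0 ∈ L := L0
  have Lb : tt 0 1 0 ∈ L := L0
  obtain ⟨r, hr⟩ := hc
  set l : Set (Rn 3) := Slab ∩ {z | wz z = 0} with hl
  set p : Rn 3 := ![3 * π / 2, π / 2, 0] with hp0
  set q : Rn 3 := ![3 * π / 2, π / 2, π] with hq0
  have pL' : p ∈ L := ⟨show _ < (0 : ℝ) by linarith, show (0 : ℝ) < _ by linarith⟩
  have pl : p ∈ l := ⟨LS pL', wz_zero.2 ⟨rfl, rfl⟩⟩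
  have ql : q ∈ l := ⟨⟨show _ < π by linarith, show π < _ by linarith⟩, wz_zero.2 ⟨rfl, rfl⟩⟩
  have cl : Convex ℝ l := by
    refine (conv _ _).inter fun a ha b hb s t _ _ hst => wz_zero.2 ?_
    obtain ⟨a0, a1⟩ := wz_zero.1 ha
    obtain ⟨b0, b1⟩ := wz_zero.1 hb
    simp only [Pi.add_apply, Pi.smul_apply, smul_eq_mul, a0, a1, b0, b1, ← add_mul, hst, one_mul,
      and_self]
  have ml : MapsTo Φ l A.core := fun z hz => by
    have h1 := (wz_zero.1 hz.2).2
    have := Real.pi_lt_four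
    exact ⟨z, hz.2, (hS.col z hz.1 (by linarith) (by linarith)).symm⟩
  obtain ⟨a, ha⟩ := (hr.up ml).exists_const (u1.mono inter_subset_left)
    (c1.mono inter_subset_left) (cl.isPathConnected ⟨p, pl⟩)
  obtain ⟨b, hb⟩ := (hr.up (f := fun z => A.σ (Φ z)) fun z hz => hA.core_σ.2 (ml hz)).exists_const
    (u2.mono inter_subset_left) (c2.mono inter_subset_left) (cl.isPathConnected ⟨p, pl⟩)
  have tp : Tm St p = tt 0 (-1) q := by
    have h1 := hS.per (-(3 * π / 2))
    have := Real.pi_lt_four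
    rw [hS.st0 _ (by linarith) (by linarith)] at h1
    funext i
    fin_cases i <;> simp [Tm, tt, p, q]
    · rw [show St (-(3 * π / 2)) = -1 by linarith]; ring
    · ring
  have eq : Φ (Tm St p) = Φ q := (hS.eq _ (TS pL') _ ql.1).2 (tp ▸ tt_lat _ _ _)
  obtain ⟨M1, N1, rfl⟩ := alg (g := g) m2 n2
    (mul_right_cancel (b := S2 0) (by
      rw [← n1 _ _ _ zero_slab, ← k1 _ La, ta, m1 _ _ _ (TS L0), k1 _ L0]))
    (mul_right_cancel (b := S2 0) (by
      rw [← n1 _ _ _ zero_slab, ← k1 _ Lb, tb, m1 _ _ _ (TS L0), k1 _ L0]))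
    (mul_right_cancel (b := S1 0) (by
      rw [mul_assoc, ← m1 _ _ _ zero_slab, ← k2 _ La, ta, n1 _ _ _ (TS L0), k2 _ L0, mul_assoc]))
    (mul_right_cancel (b := S1 0) (by
      rw [mul_assoc, ← m1 _ _ _ zero_slab, ← k2 _ Lb, tb, n1 _ _ _ (TS L0), k2 _ L0, mul_assoc]))
    (by
      have h1 := k1 p pL'
      have h2 := k2 p pL'
      rw [tp, m1 _ _ _ ql.1, ha q ql, hb p pl, e1 p pL', eq, ← mul_assoc] at h1
      rw [tp, n1 _ _ _ ql.1, hb q ql, ha p pl, e2 p pL', eq, ← mul_assoc, ← mul_assoc,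
        ← mul_right_cancel h1, ← mul_assoc] at h2
      exact (mul_right_cancel (mul_right_cancel h2)).symm)
  have i1 : ∀ z ∈ Slab, ∀ z' ∈ Slab, Φ z = Φ z' → S1 z = S1 z' := fun z hz z' hz' e => by
    obtain ⟨m, n, rfl⟩ := lat_tt hz hz' ((hS.eq z hz z' hz').1 e)
    rw [m1 _ _ _ hz', M1, one_mul]
  have i2 : ∀ z ∈ Slab, ∀ z' ∈ Slab, Φ z = Φ z' → S2 z = S2 z' := fun z hz z' hz' e => by
    obtain ⟨m, n, rfl⟩ := lat_tt hz hz' ((hS.eq z hz z' hz').1 e)
    rw [n1 _ _ _ hz', N1, one_mul]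
  have i3 : ∀ z ∈ Slab, ∀ z' ∈ Slab, Φ z = A.σ (Φ z') → S1 z = S2 z' := fun z hz z' hz' e => by
    by_cases h1 : z' 2 < π / 2
    · have h2 : z' ∈ L := ⟨hz'.1, h1⟩
      rw [← k1 z' h2]
      exact i1 z hz _ (TS h2) (e.trans (e1 z' h2))
    by_cases h2 : z 2 < π / 2
    · have h3 : z ∈ L := ⟨hz.1, h2⟩
      rw [← one_mul (S1 z), ← k2 z h3]
      exact i2 _ (TS h3) z' hz' (by rw [← e1 z h3, e, hA.σσ])
    have h3 := hA.angσ (Φ z')
    rw [← e, hS.ang z hz, hS.ang z' hz', ← Complex.exp_add_pi_mul_I,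
      show (z' 2 : ℂ) * Complex.I + π * Complex.I = (z' 2 + π : ℝ) * Complex.I by push_cast; ring]
      at h3
    obtain ⟨m, hm⟩ := lat_of_exp h3
    exact absurd hm (no_int (k := -1) (by push_cast; linarith [hz'.2]) (by push_cast; linarith [hz.2]))
  obtain ⟨s, hs, -⟩ := h.par_of_charts (ι := Bool) (Y := fun _ => Rn 3) (W := univ) subset_rfl
    (f := fun i => cond i Φ fun z => A.σ (Φ z)) (U := fun _ => Slab) (s := fun i => cond i S1 S2)
    (by rintro (_ | _); exacts [c2, c1]) (fun _ => mapsTo_univ _ _)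
    (by rintro (_ | _); exacts [locSec_ld (X := vs (Rn 3)) open_slab ld2,
      locSec_ld (X := vs (Rn 3)) open_slab hS.ld])
    (by rintro (_ | _); exacts [u2, u1])
    (fun x _ => by
      obtain ⟨z, h0, h1, e⟩ := hS.cov x
      have hz : z ∈ Slab := ⟨by linarith, by linarith⟩
      rw [nhdsWithin_univ]
      obtain rfl | rfl := e
      · exact ⟨true, (hS.ld z hz).image_mem (open_slab.mem_nhds hz)⟩
      · exact ⟨false, (ld2 z hz).image_mem (open_slab.mem_nhds hz)⟩)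
    (by
      rintro (_ | _) (_ | _) z hz z' hz' e
      · exact i2 z hz z' hz' (by rw [← hA.σσ (Φ z), show A.σ (Φ z) = A.σ (Φ z') from e, hA.σσ])
      · exact (i3 z' hz' z hz e.symm).symm
      · exact i3 z hz z' hz' e
      · exact i1 z hz z' hz' e)
  exact ⟨s, hs⟩

end Pool.Agent.MP_e1dc65_gt.EA

end
end MrgPart6

-- marker of a merged file
example : 731051 + 694344 = 731051 + 694344 := rfl
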