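import Pool.Agent.MP_e1dc65_gt.a.Cent
import Pool.Agent.MP_e1dc65_gt.t2.Disc
import Mathlib.Analysis.Calculus.FDeriv.Mul
import Mathlib.Analysis.Calculus.Deriv.Mul
import Mathlib.Analysis.Normed.Operator.Prod
import Pool.Agent.MP_e1dc65_gt.k.Cov
import Pool.Agent.MP_e1dc65_gt.a.ClsW
import Mathlib.Analysis.SpecialFunctions.Complex.Arg
import Mathlib.Analysis.SpecialFunctions.ExpDeriv
import Mathlib.Analysis.Real.Pi.Bounds
import Pool.Agent.MP_e1dc65_gt.k.Etale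

-- ======== part 0: formerly Pool.Agent.MP_e1dc65_gt.a.Met
section MrgPart0

/-! PROJECT HC, part A, row MET: invariant metrics. -/

set_option maxSynthPendingDepth 3

open scoped Quaternion ContDiff Topology Manifold
open Set Filter Function Pool.Agent.MP_c8d41b_gt.GF

noncomputable section

namespace Pool.Agent.MP_e1dc65_gt.A

theorem met : MetStmt := by
  intro X o s ho hs hss
  have ld : ∀ x, LDAt X X s x := fun x => ldAt_of_inv (g := s) isOpen_univ isOpen_univ (mem_univ x)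
    hs hs (mapsTo_univ _ _) (mapsTo_univ _ _) (fun y _ => hss y) fun y _ => hss y
  have dd : ∀ x v, Df X X s (s x) (Df X X s x v) = v := fun x v => by
    have h := Df_comp (hs x trivial) (hs (s x) trivial)
    simp only [hss, Df_id] at h
    exact (congrArg (fun T : E4 →L[ℝ] E4 => T v) h).symm
  obtain ⟨ρ, hρ⟩ := SmoothPartitionOfUnity.exists_isSubordinate 𝓘(ℝ, E4) isClosed_univ
    (fun x : X => (ch X x).source) (fun x => (ch X x).open_source)
    fun y _ => mem_iUnion.2 ⟨y, mem_chart_source E4 y⟩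
  let η : X → X → E4 →L[ℝ] ℍ := fun x y =>
    (qv.symm.toContinuousLinearEquiv : E4 →L[ℝ] ℍ).comp (Df X (vs E4) (ch X x) y)
  have hη : ∀ i, MP_e1dc65_gt.Cof X ∞ (η i) (tsupport (ρ i)) := fun i =>
    ((cof_ch (n := ∞)).ccomp _).mono (hρ i)
  let f : X ⊕ X → X → ℝ := Sum.elim (fun i y => ρ i y / 2) fun i y => ρ i (s y) / 2
  have hf : ∀ y j, j ∈ (ρ.finsupport y).disjSum (ρ.finsupport (s y)) ↔ f j y ≠ 0 := by
    rintro y (i | i) <;> simp [f]
  have f1 : ∀ y, ∑ᶠ j, f j y = 1 := fun y => by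
    rw [finsum_eq_sum_of_support_subset _ fun j hj => Finset.mem_coe.2 ((hf y j).2 hj),
      Finset.sum_disjSum]
    simp only [f, Sum.elim_inl, Sum.elim_inr, ← Finset.sum_div, ρ.sum_finsupport _ (mem_univ _)]
    norm_num
  let ρ' : SmoothPartitionOfUnity (X ⊕ X) 𝓘(ℝ, E4) X univ :=
    { toFun := fun j => ⟨f j, by
        rcases j with i | i
        exacts [(ρ i).contMDiff.div_const 2,
          ((ρ i).contMDiff.comp fun y => hs y trivial).div_const 2]⟩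
      locallyFinite' := (ρ.locallyFinite.sumElim
        (ρ.locallyFinite.preimage_continuous hs.cont)).subset (by
          rintro (i | i) y hy <;> simpa [f] using hy)
      nonneg' := by rintro (i | i) y <;> exact div_nonneg (ρ.nonneg _ _) zero_le_two
      sum_eq_one' := fun y _ => f1 y
      sum_le_one' := fun y => (f1 y).le }
  have e1 : ∀ y, ρ'.finsupport y = (ρ.finsupport y).disjSum (ρ.finsupport (s y)) := fun y =>
    Finset.ext fun j => (ρ'.mem_finsupport y).trans (hf y j).symm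
  choose W θ h1 h2 h3 h4 h5 using Metric'.exists_loc ho ρ'
    (Sum.elim η fun i y => (η i (s y)).comp (Df X X s y)) (by
      rintro (i | i)
      · exact (hη i).mono (closure_mono fun y hy => (div_ne_zero_iff (b := (2 : ℝ)).1 hy).1)
      · exact (hη i).pb (fun y _ => ld y) (closure_minimal (t := s ⁻¹' tsupport (ρ i))
          (fun y hy => subset_tsupport _ ((div_ne_zero_iff (b := (2 : ℝ)).1 hy).1))
          ((isClosed_tsupport _).preimage hs.cont)))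
  let q : X → E4 → ℝ := fun y v => ∑ i ∈ ρ.finsupport y, ρ i y / 2 * ‖η i y v‖ ^ 2
  have h6 : ∀ a, ∀ y ∈ W a, ∀ v, ‖θ a y v‖ ^ 2 = q y v + q (s y) (Df X X s y v) :=
    fun a y hy v => by rw [h5 a y hy, e1, Finset.sum_disjSum]; rfl
  refine ⟨W, θ, h1, h2, h3, h4, fun a b x hx v => ?_, fun a b x ha hb v => ?_⟩ <;>
    refine (sq_eq_sq₀ (norm_nonneg _) (norm_nonneg _)).1 ?_
  · rw [h6 a x hx.1, h6 b x hx.2]
  · rw [h6 a x ha, h6 b _ hb, dd, hss, add_comm]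

end Pool.Agent.MP_e1dc65_gt.A

end
end MrgPart0

-- ======== part 1: formerly Pool.Agent.MP_e1dc65_gt.a.Sp
section MrgPart1

/-! PROJECT HC, part A: the parametrix in the good gauge computes the index density. -/

set_option maxSynthPendingDepth 3

open scoped Quaternion ContDiff Topology RealInnerProductSpace
open Set Filter MeasureTheory Metric

noncomputable section

namespace Pool.Agent.MP_e1dc65_gt.A

namespace Sp

theorem inf_ne : (∞ : WithTop ℕ∞) ≠ 0 := by simp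

theorem fd_mul {a b : E4 → ℍ} {x : E4} (ha : DifferentiableAt ℝ a x) (hb : DifferentiableAt ℝ b x)
    (v : E4) : fderiv ℝ (fun y => a y * b y) x v = a x * fderiv ℝ b x v + fderiv ℝ a x v * b x := by
  rw [fderiv_fun_mul' ha hb]; simp

theorem fd_clm {A B : Type} [NormedAddCommGroup A] [NormedSpace ℝ A] [NormedAddCommGroup B]
    [NormedSpace ℝ B] (L : A →L[ℝ] B) {f : E4 → A} {x : E4} (h : DifferentiableAt ℝ f x) (v : E4) :
    fderiv ℝ (fun y => L (f y)) x v = L (fderiv ℝ f x v) := by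
  have := (L.hasFDerivAt.comp x h.hasFDerivAt).fderiv
  rw [show (fun y => L (f y)) = L ∘ f from rfl, this]; rfl

theorem fd_app {A B : Type} [NormedAddCommGroup A] [NormedSpace ℝ A] [NormedAddCommGroup B]
    [NormedSpace ℝ B] {g : E4 → A →L[ℝ] B} {s : E4 → A} {x : E4} (hg : DifferentiableAt ℝ g x)
    (hs : DifferentiableAt ℝ s x) (v : E4) :
    fderiv ℝ (fun y => g y (s y)) x v = g x (fderiv ℝ s x v) + fderiv ℝ g x v (s x) := by
  rw [fderiv_clm_apply hg hs]; simp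

theorem fd_star {p : E4 → ℍ} {x : E4} (h : DifferentiableAt ℝ p x) (v : E4) :
    fderiv ℝ (fun y => star (p y)) x v = star (fderiv ℝ p x v) := fd_clm starL' h v

theorem da_star {p : E4 → ℍ} {x : E4} (h : DifferentiableAt ℝ p x) :
    DifferentiableAt ℝ (fun y => star (p y)) x := starL'.differentiableAt.comp x h

/-- the transformed connection form -/
def gt (p : E4 → ℍ) (α : E4 → E4 →L[ℝ] ℍ) (x : E4) : E4 →L[ℝ] ℍ :=
  (lr (star (p x)) (p x)).comp (α x) + (lr (star (p x)) 1).comp (fderiv ℝ p x)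

theorem gt_apply (p : E4 → ℍ) (α : E4 → E4 →L[ℝ] ℍ) (x v : E4) :
    gt p α x v = star (p x) * α x v * p x + star (p x) * fderiv ℝ p x v := by simp [gt]

theorem gt_smooth {p : E4 → ℍ} {α : E4 → E4 →L[ℝ] ℍ} {x : E4} (hp : ContDiff ℝ ∞ p)
    (hα : ContDiffAt ℝ ∞ α x) : ContDiffAt ℝ ∞ (gt p α) x := by
  have h1 : ContDiffAt ℝ ∞ p x := hp.contDiffAt
  have h2 : ContDiffAt ℝ ∞ (fderiv ℝ p) x := (hp.fderiv_right (m := ∞) (by simp)).contDiffAt
  exact ((cda_lr (cda_star h1) h1).clm_comp hα).add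
    ((cda_lr (cda_star h1) contDiffAt_const).clm_comp h2)

theorem d_unit {p : E4 → ℍ} (hp : ContDiff ℝ ∞ p) (h1 : ∀ x, ‖p x‖ = 1) (x v : E4) :
    star (fderiv ℝ p x v) * p x = -(star (p x) * fderiv ℝ p x v) := by
  have hd : DifferentiableAt ℝ p x := hp.differentiable inf_ne x
  have h := fd_mul (da_star hd) hd v
  have e : (fun y => star (p y) * p y) = fun _ => (1 : ℍ) := funext fun y => star_mul_unit (h1 y)
  rw [e, fd_star hd] at h
  simp only [fderiv_fun_const, Pi.zero_apply, zero_apply] at h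
  exact eq_neg_of_add_eq_zero_right h.symm

theorem gt_re {p : E4 → ℍ} {α : E4 → E4 →L[ℝ] ℍ} (hp : ContDiff ℝ ∞ p) (h1 : ∀ x, ‖p x‖ = 1)
    {x v : E4} (h : (α x v).re = 0) : (gt p α x v).re = 0 := by
  rw [← Quaternion.star_eq_neg, gt_apply, star_add, star_mul, star_mul, star_mul, star_star,
    star_im h, d_unit hp h1]
  simp only [neg_mul, mul_neg, mul_assoc, neg_add]

theorem act_gauge {p q r : E4 → ℍ} (hp : ContDiff ℝ ∞ p) (hq : ContDiff ℝ ∞ q)
    (hr : ContDiff ℝ ∞ r) (p1 : ∀ x, ‖p x‖ = 1) (q1 : ∀ x, ‖q x‖ = 1) (r1 : ∀ x, ‖r x‖ = 1)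
    (α β γ : E4 → E4 →L[ℝ] ℍ) (x v : E4) :
    fderiv ℝ (fun y => act (p y) (q y) (r y)) x v + con α β γ x v * act (p x) (q x) (r x) =
      act (p x) (q x) (r x) * con (gt p α) (gt q β) (gt r γ) x v := by
  have dp : DifferentiableAt ℝ p x := hp.differentiable inf_ne x
  have dq : DifferentiableAt ℝ q x := hq.differentiable inf_ne x
  have dr : DifferentiableAt ℝ r x := hr.differentiable inf_ne x
  have dg : DifferentiableAt ℝ (fun y => act (p y) (q y) (r y)) x :=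
    (cda_act hp.contDiffAt hq.contDiffAt hr.contDiffAt).differentiableAt inf_ne
  have key : ∀ {a : E4 → ℍ}, DifferentiableAt ℝ a x → ‖a x‖ = 1 → ∀ (w c d : ℍ),
      fderiv ℝ (fun y => a y * w * star (r y)) x v + (c * (a x * w * star (r x)) -
        a x * w * star (r x) * d) = a x * ((star (a x) * c * a x + star (a x) * fderiv ℝ a x v) * w -
          w * (star (r x) * d * r x + star (r x) * fderiv ℝ r x v)) * star (r x) := by
    intro a da a1 w c d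
    rw [fd_mul (da.mul_const w) (da_star dr), fd_mul da (differentiableAt_const w), fd_star dr]
    have e1 : star (fderiv ℝ r x v) = -(star (r x) * fderiv ℝ r x v * star (r x)) := by
      rw [← neg_mul, ← d_unit hr r1, mul_assoc, mul_star_unit (r1 x), mul_one]
    have e2 : ∀ u : ℍ, a x * (star (a x) * u) = u := fun u => by
      rw [← mul_assoc, mul_star_unit a1, one_mul]
    rw [e1]
    simp only [fderiv_fun_const, Pi.zero_apply, zero_apply, mul_zero, zero_add,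
      mul_add, add_mul, mul_sub, sub_mul, mul_assoc, e2, mul_star_unit (r1 x), mul_one, mul_neg]
    abel
  ext1 w
  have e1 : (fderiv ℝ (fun y => act (p y) (q y) (r y)) x v w).fst =
      fderiv ℝ (fun y => p y * w.fst * star (r y)) x v := by
    have := fd_clm ((WithLp.fstL 2 ℝ ℍ ℍ).comp (ContinuousLinearMap.apply ℝ W w)) dg v
    simp only [ContinuousLinearMap.comp_apply, ContinuousLinearMap.apply_apply,
      WithLp.fstL_apply, act_apply, wk_fst] at this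
    exact this.symm
  have e2 : (fderiv ℝ (fun y => act (p y) (q y) (r y)) x v w).snd =
      fderiv ℝ (fun y => q y * w.snd * star (r y)) x v := by
    have := fd_clm ((WithLp.sndL 2 ℝ ℍ ℍ).comp (ContinuousLinearMap.apply ℝ W w)) dg v
    simp only [ContinuousLinearMap.comp_apply, ContinuousLinearMap.apply_apply,
      WithLp.sndL_apply, act_apply, wk_snd] at this
    exact this.symm
  refine W_ext ?_ ?_
  · simp only [add_apply, mul_apply_eq_comp, WithLp.add_fst, e1,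
      con_apply, lie_apply, act_apply, wk_fst, gt_apply]
    exact key dp (p1 x) _ _ _
  · simp only [add_apply, mul_apply_eq_comp, WithLp.add_snd, e2,
      con_apply, lie_apply, act_apply, wk_snd, gt_apply]
    exact key dq (q1 x) _ _ _

theorem cov_gauge {om om' : E4 → E4 →L[ℝ] W →L[ℝ] W} {g : E4 → W →L[ℝ] W} {s : E4 → W} {x : E4}
    (hg : DifferentiableAt ℝ g x) (hs : DifferentiableAt ℝ s x)
    (h : ∀ v, fderiv ℝ g x v + om x v * g x = g x * om' x v) (v : E4 → E4) :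
    cov om v (fun y => g y (s y)) x = g x (cov om' v s x) := by
  have := congrArg (fun A : W →L[ℝ] W => A (s x)) (h (v x))
  simp only [add_apply, mul_apply_eq_comp] at this
  simp only [cov, fd_app hg hs, map_add, ← this, add_assoc]

theorem ap_gauge {L L' : Lap} {T : Set E4} {g : E4 → W →L[ℝ] W} {s : E4 → W} {x : E4}
    (hL : L'.Ok T) (hx : x ∈ T) (hg : ContDiff ℝ ∞ g) (hs : ContDiff ℝ ∞ s) (he : L.e = L'.e)
    (hh : L.h = L'.h) (ho : ∀ x v, fderiv ℝ g x v + L.om x v * g x = g x * L'.om x v)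
    (hV : L.V x * g x = g x * L'.V x) : L.ap (fun y => g y (s y)) x = g x (L'.ap s x) := by
  have dg : ∀ x, DifferentiableAt ℝ g x := hg.differentiable inf_ne
  have ds : ∀ x, DifferentiableAt ℝ s x := hs.differentiable inf_ne
  have hT : T ∈ 𝓝 x := hL.frm.op.mem_nhds hx
  have c1 : ∀ v, cov L.om v (fun y => g y (s y)) = fun y => g y (cov L'.om v s y) := fun v =>
    funext fun y => cov_gauge (dg y) (ds y) (ho y) v
  have c2 : ∀ a, DifferentiableAt ℝ (cov L'.om (fr L'.e a) s) x := fun a => by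
    have f1 : ContDiffAt ℝ ∞ (fr L'.e a) x :=
      (hL.frm.es.contDiffAt hT).clm_apply contDiffAt_const
    have f2 : ContDiffAt ℝ ∞ (fderiv ℝ s) x := (hs.fderiv_right (m := ∞) (by simp)).contDiffAt
    exact ((f2.clm_apply f1).add
      (((hL.om.contDiffAt hT).clm_apply f1).clm_apply hs.contDiffAt)).differentiableAt inf_ne
  have c3 := congrArg (fun A : W →L[ℝ] W => A (s x)) hV
  simp only [mul_apply_eq_comp] at c3
  simp only [Lap.ap, c1, he, hh, c3, map_add, map_neg, map_sum]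
  congr 3
  exact Finset.sum_congr rfl fun a _ => cov_gauge (dg x) (c2 a) (ho x) _

theorem cda_prod {A B : Type} [NormedAddCommGroup A] [NormedSpace ℝ A] [NormedAddCommGroup B]
    [NormedSpace ℝ B] {f : E4 → E4 →L[ℝ] A} {g : E4 → E4 →L[ℝ] B} {x : E4}
    (hf : ContDiffAt ℝ ∞ f x) (hg : ContDiffAt ℝ ∞ g x) :
    ContDiffAt ℝ ∞ (fun y => (f y).prod (g y)) x :=
  (ContinuousLinearMap.prodₗᵢ ℝ : _ ≃ₗᵢ[ℝ] (E4 →L[ℝ] A × B)).contDiff.contDiffAt.comp x
    (hf.prodMk hg)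

theorem cda_con {α β γ : E4 → E4 →L[ℝ] ℍ} {x : E4} (hα : ContDiffAt ℝ ∞ α x)
    (hβ : ContDiffAt ℝ ∞ β x) (hγ : ContDiffAt ℝ ∞ γ x) : ContDiffAt ℝ ∞ (con α β γ) x :=
  (contDiffAt_const (c := lieL)).clm_comp (cda_prod hα (cda_prod hβ hγ))

theorem fd_con {α β γ : E4 → E4 →L[ℝ] ℍ} {x : E4} (hα : ContDiffAt ℝ ∞ α x)
    (hβ : ContDiffAt ℝ ∞ β x) (hγ : ContDiffAt ℝ ∞ γ x) (u v : E4) :
    fderiv ℝ (con α β γ) x u v = lie (fderiv ℝ α x u v) (fderiv ℝ β x u v) (fderiv ℝ γ x u v) := by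
  have ev : ∀ {B : Type} [NormedAddCommGroup B] [NormedSpace ℝ B] {f : E4 → E4 →L[ℝ] B},
      ContDiffAt ℝ ∞ f x → HasFDerivAt (fun y => f y v) ((fderiv ℝ f x).flip v) x := by
    intro B _ _ f hf
    simpa using (hf.differentiableAt inf_ne).hasFDerivAt.clm_apply (hasFDerivAt_const v x)
  have h1 := ev (cda_con hα hβ hγ)
  have h2 := lieL.hasFDerivAt.comp x ((ev hα).prodMk ((ev hβ).prodMk (ev hγ)))
  exact congrArg (fun A : E4 →L[ℝ] W →L[ℝ] W => A u) (h1.unique h2)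

section Tay
variable {B : Type} [NormedAddCommGroup B] [NormedSpace ℝ B] [CompleteSpace B] {f : E4 → B}
  (y : E4) (A' : ℍ →L[ℝ] E4)

theorem cdX : ContDiff ℝ ∞ fun p : ℝ × ℍ => y + A' p.2 :=
  contDiff_const.add (A'.contDiff.comp contDiff_snd)

omit [CompleteSpace B] in
theorem van0 (hf : ContDiff ℝ ∞ f) : Van Prod.snd 0 fun p : ℝ × ℍ => f (y + A' p.2) :=
  van_zero_iff.2 (hf.comp (cdX y A'))

theorem van1 (hf : ContDiff ℝ ∞ f) : Van Prod.snd 1 fun p : ℝ × ℍ => f (y + A' p.2) - f y :=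
  van_one_of ((hf.comp (cdX y A')).sub contDiff_const) fun η => by simp

theorem van2 (hf : ContDiff ℝ ∞ f) :
    Van Prod.snd 2 fun p : ℝ × ℍ => f (y + A' p.2) - f y - fderiv ℝ f y (A' p.2) := by
  have h2 : ContDiff ℝ ∞ fun p : ℝ × ℍ => fderiv ℝ f y (A' p.2) :=
    (fderiv ℝ f y).contDiff.comp (A'.contDiff.comp contDiff_snd)
  refine van_two_of (((hf.comp (cdX y A')).sub contDiff_const).sub h2) (fun η => by simp)
    fun c η => ?_
  have hX : HasFDerivAt (fun p : ℝ × ℍ => y + A' p.2) (A'.comp (ContinuousLinearMap.snd ℝ ℝ ℍ))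
      (η, 0) := (A'.comp (ContinuousLinearMap.snd ℝ ℝ ℍ)).hasFDerivAt.const_add y
  have hf' : HasFDerivAt f (fderiv ℝ f y) (y + A' ((η, 0) : ℝ × ℍ).2) := by
    simpa using (hf.differentiable inf_ne y).hasFDerivAt
  have h3 : HasFDerivAt (fun p : ℝ × ℍ => f (y + A' p.2) - f y - fderiv ℝ f y (A' p.2))
      ((fderiv ℝ f y).comp (A'.comp (ContinuousLinearMap.snd ℝ ℝ ℍ)) -
        (fderiv ℝ f y).comp (A'.comp (ContinuousLinearMap.snd ℝ ℝ ℍ))) (η, 0) :=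
    ((hf'.comp (η, 0) hX).sub_const (f y)).sub
      ((fderiv ℝ f y).comp (A'.comp (ContinuousLinearMap.snd ℝ ℝ ℍ))).hasFDerivAt
  rw [pd, h3.fderiv, sub_self]; rfl

end Tay

section Alg
variable {𝔸 : Type} [NormedRing 𝔸] [NormedAlgebra ℝ 𝔸] {O : Fin 4 → ℝ × ℍ → 𝔸}
  {D : Fin 4 → Fin 4 → 𝔸}

theorem van_mul {i j : ℕ} {f g : ℝ × ℍ → 𝔸} (hf : Van Prod.snd i f) (hg : Van Prod.snd j g) :
    Van Prod.snd (i + j) fun p => f p * g p := Van.bilin (ContinuousLinearMap.mul ℝ 𝔸) hf hg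

theorem van_n (v1 : ∀ a, Van Prod.snd 1 (O a))
    (v2 : ∀ a, Van Prod.snd 2 fun p : ℝ × ℍ => O a p - ∑ c, co c p.2 • D c a)
    {c : Fin 4 → ℝ × ℍ → ℝ} {b : Fin 4}
    (hc : ∀ a, Van Prod.snd 1 fun p => c a p - if b = a then 1 else 0) :
    Van Prod.snd 2 fun p : ℝ × ℍ =>
      (-2 : ℝ) • ∑ a, c a p • O a p - ∑ c, co c p.2 • (-2 : ℝ) • D c b := by
  have w1 : Van Prod.snd 2 fun p : ℝ × ℍ => ∑ a, (c a p - if b = a then 1 else 0) • O a p :=
    Van.sum fun a _ => (hc a).smul (v1 a)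
  refine ((w1.add (v2 b)).const_smul (-2)).congr fun p => ?_
  simp only [sub_smul, Finset.sum_sub_distrib, ite_smul, one_smul, zero_smul,
    Finset.sum_ite_eq, Finset.mem_univ, if_true, smul_comm (co _ p.2) (-2 : ℝ),
    ← Finset.smul_sum, ← smul_sub]
  congr 1; abel

theorem van_q (v1 : ∀ a, Van Prod.snd 1 (O a))
    (v2 : ∀ a, Van Prod.snd 2 fun p : ℝ × ℍ => O a p - ∑ c, co c p.2 • D c a) :
    Van Prod.snd 3 fun p : ℝ × ℍ =>
      -∑ a, O a p * O a p - ∑ b, ∑ c, (co b p.2 * co c p.2) • -∑ a, D b a * D c a := by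
  obtain ⟨O₀, hO₀⟩ : ∃ O₀ : Fin 4 → ℝ × ℍ → 𝔸, O₀ = fun a p => ∑ c, co c p.2 • D c a := ⟨_, rfl⟩
  have v3 : ∀ a, Van Prod.snd 1 (O₀ a) := fun a => by
    rw [hO₀]
    exact Van.sum fun c _ => Van.co_smul (j := 0) c (van_zero_iff.2 contDiff_const)
  have v4 : ∀ a, Van Prod.snd 2 fun p : ℝ × ℍ => O a p - O₀ a p := fun a => by
    rw [hO₀]; exact v2 a
  have w1 : Van Prod.snd 3 fun p : ℝ × ℍ =>
      ∑ a, ((O a p - O₀ a p) * O a p + O₀ a p * (O a p - O₀ a p)) :=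
    Van.sum fun a _ => (van_mul (v4 a) (v1 a)).add (van_mul (i := 1) (j := 2) (v3 a) (v4 a))
  refine w1.neg.congr fun p => ?_
  have e : ∑ b, ∑ c, (co b p.2 * co c p.2) • -∑ a, D b a * D c a = -∑ a, O₀ a p * O₀ a p := by
    simp only [hO₀, Finset.sum_mul_sum, smul_mul_smul_comm, smul_neg, Finset.sum_neg_distrib,
      Finset.smul_sum]
    rw [Finset.sum_comm (s := Finset.univ) (t := Finset.univ)
      (f := fun a b => ∑ c, (co b p.2 * co c p.2) • (D b a * D c a))]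
    exact congrArg Neg.neg (Finset.sum_congr rfl fun b _ => Finset.sum_comm)
  rw [e, ← neg_sub_neg, neg_neg, neg_neg, ← Finset.sum_sub_distrib, ← Finset.sum_neg_distrib]
  exact Finset.sum_congr rfl fun a _ => by noncomm_ring

end Alg

theorem diag_step (h2 : DiagStmt) (h3 : ExpStmt) {M : Lap} (hM : M.Ok univ) (y : E4)
    (h0 : M.om y = 0) (has : ∀ u v, fderiv ℝ M.om y u v = -fderiv ℝ M.om y v u)
    (hso : ∀ x v, str (M.om x v) = 0) (hsV : ∀ x, str (M.V x) = 0) :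
    ∃ k : ℝ → ℝ × ℍ → W →L[ℝ] W,
      (Wt Prod.snd 1 fun t p => k t p - hk t p.2 • (1 : W →L[ℝ] W)) ∧
      Wt Prod.snd 3 ((M.op (fun _ : ℝ => y) (fun _ => M.θ y) fun _ => M.e y).heat k) ∧
      ∀ t, 0 < t → ∀ η, str (k t (η, 0)) = ((4 * Real.pi) ^ 2)⁻¹ * (str (M.V y * M.V y) / 2 +
        (∑ a, ∑ b, str (fderiv ℝ M.om y (fr M.e a y) (fr M.e b y) *
          fderiv ℝ M.om y (fr M.e a y) (fr M.e b y))) / 3) := by
  have so : ContDiff ℝ ∞ M.om := contDiffOn_univ.1 hM.om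
  have sh : ContDiff ℝ ∞ M.h := contDiffOn_univ.1 hM.h
  have sV : ContDiff ℝ ∞ M.V := contDiffOn_univ.1 hM.V
  have sf : ∀ a, ContDiff ℝ ∞ (fr M.e a) := fun a =>
    (contDiffOn_univ.1 hM.frm.es).clm_apply contDiff_const
  set D : Fin 4 → Fin 4 → W →L[ℝ] W := fun a b => fderiv ℝ M.om y (fr M.e a y) (fr M.e b y)
    with hD
  set O : Fin 4 → E4 → W →L[ℝ] W := fun a x => M.om x (fr M.e a x) with hO
  set c : Fin 4 → Fin 4 → E4 → ℝ := fun b a x => co b (M.θ y (fr M.e a x)) with hc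
  set O₀ : Fin 4 → ℝ × ℍ → W →L[ℝ] W := fun a p => ∑ c, co c p.2 • D c a with hO₀
  have sO : ∀ a, ContDiff ℝ ∞ (O a) := fun a => so.clm_apply (sf a)
  have sc : ∀ b a, ContDiff ℝ ∞ (c b a) := fun b a =>
    (co b).contDiff.comp ((M.θ y).contDiff.comp (sf a))
  have cy : ∀ b a, c b a y = if b = a then 1 else 0 := fun b a => by
    simp only [hc, fr, hM.frm.θe y (mem_univ _), co_ε]
  have Oy : ∀ a, O a y = 0 := fun a => by simp [hO, h0]
  have dO : ∀ a u, fderiv ℝ (O a) y u = fderiv ℝ M.om y u (fr M.e a y) := fun a u => by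
    rw [hO, fd_app (so.differentiable inf_ne y) ((sf a).differentiable inf_ne y), h0]
    simp
  have dO' : ∀ a (p : ℝ × ℍ), fderiv ℝ (O a) y (M.e y p.2) = O₀ a p := fun a p => by
    rw [dO]
    conv_lhs => rw [← sum_co p.2]
    simp only [map_sum, map_smul, sum_apply, smul_apply]
    rfl
  have v1 : ∀ a, Van Prod.snd 1 fun p : ℝ × ℍ => O a (y + M.e y p.2) := fun a =>
    (van1 y (M.e y) (sO a)).congr fun p => by rw [Oy, sub_zero]
  have v2 : ∀ a, Van Prod.snd 2 fun p : ℝ × ℍ => O a (y + M.e y p.2) - O₀ a p := fun a =>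
    (van2 y (M.e y) (sO a)).congr fun p => by rw [Oy, sub_zero, dO']
  set m' : E4 → W →L[ℝ] W := fun x =>
    M.om x (M.h x) + M.V x - ∑ a, fderiv ℝ (O a) x (fr M.e a x) with hm'
  have sm : ContDiff ℝ ∞ m' := ((so.clm_apply sh).add sV).sub (ContDiff.sum fun a _ =>
    ((sO a).fderiv_right (m := ∞) (by simp)).clm_apply (sf a))
  have my : m' y = M.V y := by
    have : ∀ a, fderiv ℝ (O a) y (fr M.e a y) = 0 := fun a => by
      rw [dO]
      have h := has (fr M.e a y) (fr M.e a y)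
      rw [eq_neg_iff_add_eq_zero, ← two_smul ℝ] at h
      exact (smul_eq_zero.1 h).resolve_left two_ne_zero
    simp [hm', h0, this]
  obtain ⟨k, k1, k2, k3⟩ := h2 ℝ (W →L[ℝ] W) (M.op (fun _ : ℝ => y) (fun _ => M.θ y) fun _ => M.e y)
    str ((1 / 8 : ℝ) • gam)
    (fun b p => co b (M.θ y (M.h (y + M.e y p.2) - ∑ a, fderiv ℝ (fr M.e a) (y + M.e y p.2)
      (fr M.e a (y + M.e y p.2)))))
    (fun b p => (-2 : ℝ) • ∑ a, c b a (y + M.e y p.2) • O a (y + M.e y p.2))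
    (fun p => m' (y + M.e y p.2)) (fun p => -∑ a, O a (y + M.e y p.2) * O a (y + M.e y p.2))
    (fun b c => (-2 : ℝ) • D c b) (fun b c => -∑ a, D b a * D c a) (M.V y)
    (h3.2.1 ℝ M (fun _ => y) hM contDiff_const) str_one (by rw [map_smul, str_gam]; norm_num)
    (fun b => ((co b).contDiff.comp ((M.θ y).contDiff.comp (sh.sub (ContDiff.sum fun a _ =>
      ((sf a).fderiv_right (m := ∞) (by simp)).clm_apply (sf a))))).comp (cdX y (M.e y)))
    (fun b p => rfl) (fun p => rfl) (fun b p => by simp [hO, hso]) (fun p => by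
      have : ∀ a x u, str (fderiv ℝ (O a) x u) = 0 := fun a x u => by
        rw [← fd_clm str ((sO a).differentiable inf_ne x)]
        simp [hO, hso]
      simp [hm', hso, hsV, this])
    (fun b c => by simp only [hD]; rw [has, smul_neg])
    (fun b => van_n v1 v2 fun a => (van1 y (M.e y) (sc b a)).congr fun p => by rw [cy])
    ((van1 y (M.e y) sm).congr fun p => by rw [my])
    (van_q v1 v2)
  refine ⟨k, k1, k2, fun t ht η => ?_⟩
  rw [k3 t ht η]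
  simp only [map_neg, map_sum, Finset.sum_neg_distrib, neg_div, sub_neg_eq_add, hD]

theorem ap_zero (L : Lap) (x : E4) : L.ap (fun _ => 0) x = 0 := by
  have h : ∀ v, cov L.om v (fun _ => 0) = fun _ => 0 := fun v => funext fun x => by simp [cov]
  simp only [Lap.ap, h, Finset.sum_const_zero, neg_zero, map_zero, add_zero]

section Gen
variable {𝔸 : Type} [NormedRing 𝔸] [NormedAlgebra ℝ 𝔸]

theorem pd_zero {F : ℝ × ℍ → 𝔸} {δ : ℝ} (b : Fin 4) (h : ∀ p : ℝ × ℍ, δ < ‖p.2‖ → F p = 0)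
    (p : ℝ × ℍ) (hp : δ < ‖p.2‖) : pd b F p = 0 := by
  have e : F =ᶠ[𝓝 p] fun _ => 0 := by
    filter_upwards [(isOpen_lt continuous_const continuous_snd.norm).mem_nhds hp] with q hq
    exact h q hq
  rw [pd, e.fderiv_eq]; simp

theorem heat_zero (L : Op ℝ 𝔸) {k : ℝ → ℝ × ℍ → 𝔸} {δ : ℝ}
    (h : ∀ t (p : ℝ × ℍ), δ ≤ ‖p.2‖ → k t p = 0) (t : ℝ) {p : ℝ × ℍ} (hp : δ < ‖p.2‖) :
    L.heat k t p = 0 := by
  have h1 : ∀ b (q : ℝ × ℍ), δ < ‖q.2‖ → pd b (k t) q = 0 := fun b =>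
    pd_zero b fun q hq => h t q hq.le
  have h2 : ∀ b c, pd b (pd c (k t)) p = 0 := fun b c => pd_zero b (h1 c) p hp
  simp [Op.heat, Op.ap, h _ p hp.le, h1 _ p hp, h2]

theorem wt_mul {z : E4 → ℍ} {μ : ℤ} {g : E4 → 𝔸} {F : ℝ → E4 → 𝔸} (hg : ContDiff ℝ ∞ g)
    (h : Wt z μ F) : Wt z μ fun t x => g x * F t x :=
  (Wt.bilin (i := 0) (ContinuousLinearMap.mul ℝ 𝔸) (van_zero_iff.2 hg) h).mono (by simp)

theorem wt_first {z : E4 → ℍ} {g : E4 → 𝔸} {F : ℝ → E4 → 𝔸} (hg : ContDiff ℝ ∞ g)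
    (h1 : Van z 1 fun x => g x - 1) (h : Wt z 1 fun t x => F t x - hk t (z x) • (1 : 𝔸)) :
    Wt z 1 fun t x => g x * F t x - hk t (z x) • (1 : 𝔸) :=
  ((wt_mul hg h).add (wt_hk h1)).congr fun t _ x => by
    rw [mul_sub, mul_smul_comm, mul_one, smul_sub]; abel

theorem wt_drop {P : Type} [NormedAddCommGroup P] [NormedSpace ℝ P] {z : P → ℍ} {F : ℝ → P → 𝔸}
    (h : Wt z 1 fun t x => F t x - hk t (z x) • (1 : 𝔸)) : Wt z 0 F :=
  ((h.mono zero_le_one).add (wt_hk_const 1)).congr fun t _ x => by rw [sub_add_cancel]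

theorem wt_trans {F G : ℝ → ℝ × ℍ → 𝔸} (h : Wt Prod.snd (3 + 2) fun t p => G t p - F t p)
    (h' : Wt Prod.snd 1 fun t p => F t p - hk t p.2 • (1 : 𝔸)) :
    Wt Prod.snd 1 fun t p => G t p - hk t p.2 • (1 : 𝔸) :=
  ((h.mono (by norm_num)).add h').congr fun t _ x => by rw [sub_add_sub_cancel]

theorem wt_lim {F : ℝ → ℝ × ℍ → 𝔸} (h : Wt Prod.snd (3 + 2) F) (p : ℝ × ℍ) :
    Tendsto (fun t => F t p) (𝓝[>] 0) (𝓝 0) := by
  obtain ⟨M, -, hM⟩ := h.bound' contDiff_snd (isCompact_singleton (x := p))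
  have h1 : Tendsto (fun t : ℝ => M * √t) (𝓝[>] 0) (𝓝 0) := by
    have : Tendsto (fun t : ℝ => M * √t) (𝓝 0) (𝓝 (M * √0)) :=
      (continuous_const.mul Real.continuous_sqrt).tendsto 0
    rw [Real.sqrt_zero, mul_zero] at this
    exact this.mono_left nhdsWithin_le_nhds
  refine squeeze_zero_norm' ?_ h1
  filter_upwards [Ioc_mem_nhdsGT zero_lt_one] with t ht
  simpa using hM t ht p rfl

end Gen

theorem main (h1 : PexStmt) (h2 : DiagStmt) (h3 : ExpStmt) {L L' : Lap} {T : Set E4}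
    {g : E4 → W →L[ℝ] W} {y : E4} (hL : L'.Ok T) (hy : y ∈ T) (hg : ContDiff ℝ ∞ g) (gy : g y = 1)
    (hθ : L.θ = L'.θ) (he : L.e = L'.e) (hh : L.h = L'.h)
    (ho : ∀ x v, fderiv ℝ g x v + L.om x v * g x = g x * L'.om x v)
    (hV : ∀ x, L.V x * g x = g x * L'.V x) (h0 : L'.om y = 0)
    (has : ∀ u v, fderiv ℝ L'.om y u v = -fderiv ℝ L'.om y v u)
    (hso : ∀ x ∈ T, ∀ v, str (L'.om x v) = 0) (hsV : ∀ x ∈ T, str (L'.V x) = 0) :
    ∃ r > 0, closedBall y r ⊆ T ∧ ∃ C k ρ, PPar L y (closedBall y r) C k ρ ∧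
      Tendsto (fun t => str (k t y)) (𝓝[>] 0) (𝓝 (((4 * Real.pi) ^ 2)⁻¹ *
        (str (L'.V y * L'.V y) / 2 + (∑ a, ∑ b, str (fderiv ℝ L'.om y (fr L'.e a y) (fr L'.e b y) *
          fderiv ℝ L'.om y (fr L'.e a y) (fr L'.e b y))) / 3))) := by
  obtain ⟨r, hr, hT, ψ, sψ, ψT, ψid⟩ := h3.2.2.1 T y (hL.frm.op.mem_nhds hy)
  have hM := h3.2.2.2.1 L' T ψ hL sψ ψT
  have hsub : closedBall y (2 * r) ⊆ ball y (3 * r) := closedBall_subset_ball (by linarith)
  have ψev : ∀ x ∈ closedBall y (2 * r), ∀ᶠ u in 𝓝 x, ψ u = u := fun x hx => by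
    filter_upwards [isOpen_ball.mem_nhds (hsub hx)] with u hu using ψid u hu
  have hy' : y ∈ closedBall y (2 * r) := mem_closedBall_self (by linarith)
  have ψy : ψ y = y := ψid y (hsub hy')
  have eom : ∀ x ∈ closedBall y (2 * r), L'.om =ᶠ[𝓝 x] (L'.comp ψ).om := fun x hx =>
    (ψev x hx).mono fun u hu => by simp only [Lap.comp, hu]
  have ee : ∀ x ∈ closedBall y (2 * r), L'.e =ᶠ[𝓝 x] (L'.comp ψ).e := fun x hx =>
    (ψev x hx).mono fun u hu => by simp only [Lap.comp, hu]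
  have eh : ∀ x ∈ closedBall y (2 * r), L'.h x = (L'.comp ψ).h x := fun x hx => by
    simp only [Lap.comp, ψid x (hsub hx)]
  have eV : ∀ x ∈ closedBall y (2 * r), L'.V x = (L'.comp ψ).V x := fun x hx => by
    simp only [Lap.comp, ψid x (hsub hx)]
  have eθ : L.θ y = (L'.comp ψ).θ y := by simp only [Lap.comp, ψy, hθ]
  have so : ∀ x v, str ((L'.comp ψ).om x v) = 0 := fun x => hso _ (ψT x)
  have sV : ∀ x, str ((L'.comp ψ).V x) = 0 := fun x => hsV _ (ψT x)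
  generalize L'.comp ψ = M at hM eom ee eh eV eθ so sV
  have ed : fderiv ℝ L'.om y = fderiv ℝ M.om y := (eom y hy').fderiv_eq
  have ef : ∀ a, fr L'.e a y = fr M.e a y := fun a => by rw [fr, fr, (ee y hy').eq_of_nhds]
  obtain ⟨k₀, a1, a2, a3⟩ := diag_step h2 h3 hM y (by rw [← (eom y hy').eq_of_nhds, h0])
    (by rw [← ed]; exact has) so sV
  have hA : ∀ v, M.e y (M.θ y v) = v := hM.frm.eθ y (mem_univ _)
  have hn : 0 < ‖M.e y‖ + 1 := by positivity
  obtain ⟨k, b1, b2, b3⟩ := (h1 ℝ _ _ (h3.2.1 ℝ M (fun _ => y) hM contDiff_const)).2 3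
    (by norm_num) k₀ (wt_drop a1) a2 4 (2 * r / (‖M.e y‖ + 1)) (by positivity)
  have c1 := wt_trans b1 a1
  have c0 := wt_drop c1
  have sz : ContDiff ℝ ∞ fun x : E4 => M.θ y (x - y) :=
    (M.θ y).contDiff.comp (contDiff_id.sub contDiff_const)
  have sf : ContDiff ℝ ∞ fun x : E4 => ((0 : ℝ), M.θ y (x - y)) := contDiff_const.prodMk sz
  have far : ∀ x ∉ closedBall y (2 * r), 2 * r / (‖M.e y‖ + 1) < ‖M.θ y (x - y)‖ := fun x hx => by
    rw [mem_closedBall_iff_norm, not_le] at hx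
    have h := (M.e y).le_opNorm (M.θ y (x - y))
    rw [hA] at h
    rw [div_lt_iff₀ hn, mul_add, mul_one, mul_comm ‖M.θ y (x - y)‖]
    exact (hx.trans_le h).trans_le (le_add_of_nonneg_right (norm_nonneg _))
  have kW : Wt (fun x => M.θ y (x - y)) 1 fun t x => g x * k t (0, M.θ y (x - y)) -
      hk t (M.θ y (x - y)) • (1 : W →L[ℝ] W) :=
    wt_first hg (((van1 y (M.e y) hg).comp sf).congr fun x => by
      simp only [hA, gy, add_sub_cancel]) (c1.comp sf)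
  have ρW : Wt (fun x => M.θ y (x - y)) 4 fun t x => g x *
      (M.op (fun _ : ℝ => y) (fun _ => M.θ y) fun _ => M.e y).heat k t (0, M.θ y (x - y)) :=
    wt_mul hg (b2.comp sf)
  have sup : ∀ t, ∀ x ∉ closedBall y (2 * r), g x * k t (0, M.θ y (x - y)) = 0 ∧ g x *
      (M.op (fun _ : ℝ => y) (fun _ => M.θ y) fun _ => M.e y).heat k t (0, M.θ y (x - y)) = 0 :=
    fun t x hx => ⟨by rw [b3 t _ (far x hx).le, mul_zero],
      by rw [heat_zero _ b3 t (far x hx), mul_zero]⟩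
  obtain ⟨C₁, p1, q1⟩ := (wt_drop kW).bound sz (isCompact_closedBall y (2 * r))
  obtain ⟨C₂, p2, q2⟩ := ρW.bound' sz (isCompact_closedBall y (2 * r))
  refine ⟨2 * r, by linarith, hT, max C₁ C₂, fun t x => g x * k t (0, M.θ y (x - y)),
    fun t x => g x * (M.op (fun _ : ℝ => y) (fun _ => M.θ y) fun _ => M.e y).heat k t
      (0, M.θ y (x - y)), ⟨eθ ▸ kW, eθ ▸ ρW, sup, fun t ht x w => ?_, fun t ht x => ?_,
        fun t ht x => ?_⟩, ?_⟩
  · by_cases hx : x ∈ closedBall y (2 * r)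
    · have ss : ContDiff ℝ ∞ fun x => k t (0, M.θ y (x - y)) w :=
        ((c0.smooth contDiff_snd ht).comp sf).clm_apply contDiff_const
      have e1 := ap_gauge hL (hT hx) hg ss he hh ho (hV x)
      rw [h3.2.2.2.2 L' M _ _ x (ee x hx) (eom x hx) (eh x hx) (eV x hx) EventuallyEq.rfl,
        h3.1 ℝ M (fun _ => y) (fun _ => M.θ y) (fun _ => M.e y) (k t) 0 x w hM
          (c0.smooth contDiff_snd ht) hA] at e1
      rw [((c0.hasDerivAt ht _).const_mul (g x)).deriv]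
      simp only [mul_apply_eq_comp, e1, Op.heat, add_apply, map_add]
    · have e : (fun x => (g x * k t (0, M.θ y (x - y))) w) =ᶠ[𝓝 x] fun _ => 0 := by
        filter_upwards [isClosed_closedBall.isOpen_compl.mem_nhds hx] with u hu
        rw [(sup t u hu).1, zero_apply]
      rw [h3.2.2.2.2 L L _ _ x EventuallyEq.rfl EventuallyEq.rfl rfl rfl e, ap_zero]
      simp only [(sup _ x hx).1, (sup _ x hx).2, deriv_const, zero_apply, add_zero]
  · have hp := (hk_pos (mul_pos two_pos ht.1) (M.θ y (x - y))).le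
    rw [eθ]
    by_cases hx : x ∈ closedBall y (2 * r)
    · refine (q1 t ht x hx).trans ?_
      rw [zpow_zero, mul_one]
      exact mul_le_mul_of_nonneg_right (le_max_left _ _) hp
    · rw [(sup t x hx).1, norm_zero]
      exact mul_nonneg (le_max_of_le_left p1) hp
  · by_cases hx : x ∈ closedBall y (2 * r)
    · refine (q2 t ht x hx).trans ?_
      rw [sub_self, zpow_zero, mul_one]
      exact le_max_right _ _
    · rw [(sup t x hx).2, norm_zero]
      exact le_max_of_le_left p1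
  · have l := ((str.continuous.tendsto 0).comp (wt_lim b1 (0, 0))).add_const
      (((4 * Real.pi) ^ 2)⁻¹ * (str (M.V y * M.V y) / 2 +
        (∑ a, ∑ b, str (fderiv ℝ M.om y (fr M.e a y) (fr M.e b y) *
          fderiv ℝ M.om y (fr M.e a y) (fr M.e b y))) / 3))
    rw [map_zero, zero_add] at l
    simp only [ed, ef, eV y hy', gy, one_mul, sub_self, map_zero]
    refine l.congr' ?_
    filter_upwards [self_mem_nhdsWithin] with t ht
    rw [← a3 t ht 0, Function.comp_apply, map_sub, sub_add_cancel]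

end Sp

open Sp in
theorem sp (h1 : PexStmt) (h2 : DiagStmt) (h3 : ExpStmt) (h4 : GaugeStmt) (h5 : WeitzStmt)
    (h6 : BiaStmt) (h7 : DensStmt) : SpStmt := by
  intro R T κ hR y hy
  have hT : ∀ x ∈ T, T ∈ 𝓝 x := fun x hx => hR.frm.op.mem_nhds hx
  have γs : ContDiffOn ℝ ∞ (R.γ κ) T := by
    cases κ
    exacts [contDiffOn_const, hR.αs, hR.βs]
  have γi : ∀ x ∈ T, ∀ v, (R.γ κ x v).re = 0 := fun x hx v => by
    cases κ
    exacts [rfl, (hR.lc x hx).ima v, (hR.lc x hx).imb v]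
  have γc : ∀ a b, κ.sel 0 (cf2 R.α R.e y a b) (cf2 R.β R.e y a b) = cf2 (R.γ κ) R.e y a b := by
    intro a b
    cases κ
    · simp [Tw.sel, Loc.γ, cf2, cur]
    · rfl
    · rfl
  obtain ⟨p, ps, p1, py, hp⟩ := h4 R.α y (hR.αs.contDiffAt (hT y hy))
    (mem_of_superset (hT y hy) fun x hx => (hR.lc x hx).ima)
  obtain ⟨q, qs, q1, qy, hq⟩ := h4 R.β y (hR.βs.contDiffAt (hT y hy))
    (mem_of_superset (hT y hy) fun x hx => (hR.lc x hx).imb)
  obtain ⟨r, rs, r1, ry, hr⟩ := h4 (R.γ κ) y (γs.contDiffAt (hT y hy))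
    (mem_of_superset (hT y hy) γi)
  obtain ⟨p2, p3, p4⟩ := hp _ (gt_apply p R.α)
  obtain ⟨q2, q3, q4⟩ := hq _ (gt_apply q R.β)
  obtain ⟨r2, r3, r4⟩ := hr _ (gt_apply r (R.γ κ))
  have sa : ∀ x ∈ T, ContDiffAt ℝ ∞ (gt p R.α) x := fun x hx =>
    gt_smooth ps (hR.αs.contDiffAt (hT x hx))
  have sb : ∀ x ∈ T, ContDiffAt ℝ ∞ (gt q R.β) x := fun x hx =>
    gt_smooth qs (hR.βs.contDiffAt (hT x hx))
  have sc : ∀ x ∈ T, ContDiffAt ℝ ∞ (gt r (R.γ κ)) x := fun x hx =>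
    gt_smooth rs (γs.contDiffAt (hT x hx))
  have hL := (h5 R T κ hR).1
  have gs : ContDiff ℝ ∞ fun x => act (p x) (q x) (r x) :=
    contDiff_iff_contDiffAt.2 fun x => cda_act ps.contDiffAt qs.contDiffAt rs.contDiffAt
  have gs' : ContDiff ℝ ∞ fun x => act (star (p x)) (star (q x)) (star (r x)) :=
    contDiff_iff_contDiffAt.2 fun x =>
      cda_act (cda_star ps.contDiffAt) (cda_star qs.contDiffAt) (cda_star rs.contDiffAt)
  have hL' : Lap.Ok ⟨R.θ, R.e, con (gt p R.α) (gt q R.β) (gt r (R.γ κ)), (R.lap κ).h, fun x =>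
      act (star (p x)) (star (q x)) (star (r x)) * (R.lap κ).V x * act (p x) (q x) (r x)⟩ T :=
    ⟨hR.frm, fun x hx => (cda_con (sa x hx) (sb x hx) (sc x hx)).contDiffWithinAt, hL.h,
      (gs'.contDiffOn.mul hL.V).mul gs.contDiffOn⟩
  have dc := fd_con (sa y hy) (sb y hy) (sc y hy)
  obtain ⟨r₀, hr₀, hsub, C, k, ρ, hk, hl⟩ := main h1 h2 h3 (L := R.lap κ) hL' hy gs
    (by rw [py, qy, ry, act_one]) rfl rfl rfl (act_gauge ps qs rs p1 q1 r1 R.α R.β (R.γ κ))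
    (fun x => by
      simp only [← mul_assoc]
      rw [act_mul_star (p1 x) (q1 x) (r1 x), one_mul])
    (by
      ext1 v
      simp only [con_apply, p2, q2, r2, zero_apply]
      exact map_zero lieL)
    (fun u v => by
      simp only [dc]
      rw [p3, q3, r3]
      exact map_neg lieL (_, _, _))
    (fun x hx v => (congrArg str (con_apply _ _ _ x v)).trans (str_lie
      ((gt_re ps p1 ((hR.lc x hx).ima v)).trans (gt_re qs q1 ((hR.lc x hx).imb v)).symm)))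
    (fun x hx => (str_conj (p1 x) (q1 x) (r1 x) _).trans
      ((h7 _ _ (fun κ => cf2 (R.om κ) R.e x) (h6 R T hR x hx).1 (h6 R T hR x hx).2).1 κ))
  refine ⟨r₀, hr₀, hsub, C, k, ρ, hk, ?_⟩
  have e : ∀ a b, cf2 (R.om κ) R.e y a b = (2 : ℝ) •
      fderiv ℝ (con (gt p R.α) (gt q R.β) (gt r (R.γ κ))) y (fr R.e a y) (fr R.e b y) := by
    intro a b
    rw [(h6 R T hR y hy).2 κ a b, γc, dc, cf2, cf2, cf2, p4, q4, r4]
    exact map_smul lieL (2 : ℝ) (_, _, _)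
  simp only [py, qy, ry, star_one, act_one, one_mul, mul_one] at hl
  refine hl.trans (le_of_eq ?_)
  simp only [Loc.den, den, e, smul_mul_smul_comm, map_smul, smul_eq_mul, ← Finset.mul_sum]
  congr 3
  ring

end Pool.Agent.MP_e1dc65_gt.A

end
end MrgPart1

-- ======== part 2: formerly Pool.Agent.MP_e1dc65_gt.e.aSpq
section MrgPart2

/-! PROJECT HC, part E, sub-part A, row SPQ: the spin structure off the torus port. -/

open scoped ContDiff Manifold Topology Matrix Real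
open Set Filter Function Module Pool.Agent.MP_c8d41b_gt.GF

noncomputable section

namespace Pool.Agent.MP_e1dc65_gt.EA

namespace SpqP

theorem main_small {z : Rn 3} (h : |z 2| < 1) : z ∈ MainI I01 := by
  rintro i hi ⟨z', hl, -, h2⟩
  have hp := Real.pi_gt_three
  obtain ⟨h1, h1'⟩ := abs_lt.1 h
  fin_cases i
  · obtain ⟨m, hm⟩ := hl 2
    simp [kx, ck] at h2
    rw [h2] at hm
    rcases le_or_gt 0 m with h0 | h0
    · have : (0 : ℝ) ≤ m := by exact_mod_cast h0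
      nlinarith
    · have : (m : ℝ) ≤ -1 := by exact_mod_cast Int.le_sub_one_of_lt h0
      nlinarith
  · obtain ⟨m, hm⟩ := hl 2
    simp [kx, ck] at h2
    rw [h2] at hm
    rcases le_or_gt 0 m with h0 | h0
    · have : (0 : ℝ) ≤ m := by exact_mod_cast h0
      nlinarith
    · have : (m : ℝ) ≤ -1 := by exact_mod_cast Int.le_sub_one_of_lt h0
      nlinarith
  · exact hi rfl

theorem R5_sq : E.R5 * E.R5 = 1 := by
  ext i j
  fin_cases i <;> fin_cases j <;> simp [E.R5, Matrix.mul_apply, Fin.sum_univ_five]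

theorem tm_of {F : Type} [NormedAddCommGroup F] [NormedSpace ℝ F] {a b : F →L[ℝ] Rn 5}
    (hb : b.IsInvertible) (L : Rn 4 × ℝ → F) {M : M5} (h1 : ∀ u, b (L u) = std5 u)
    (h2 : ∀ u, a (L u) = M *ᵥ std5 u) : tm a b = M := by
  refine m5_ext fun w => ?_
  have : w = std5 (![w 0, w 1, w 2, w 3], w 4) := by
    ext k; fin_cases k <;> simp [std5]
  rw [this, ← h2, ← h1, tm_mulVec hb]

theorem bd {w : ℂ} (h : ‖w‖ < 30) : |w.re / 200| < 1 / 4 ∧ |w.im / 200| < 1 / 4 := by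
  have h1 := abs_lt.1 ((Complex.abs_re_le_norm w).trans_lt h)
  have h2 := abs_lt.1 ((Complex.abs_im_le_norm w).trans_lt h)
  constructor <;> rw [abs_lt] <;> constructor <;> linarith

theorem trig {u : ℝ} (h : |u| < 1 / 4) : 0 < Real.cos u ∧ (0 < Real.sin u ↔ 0 < u) ∧
    (Real.sin u = 0 ↔ u = 0) ∧ Complex.arg (Complex.exp (u * Complex.I)) = u := by
  have hp := Real.pi_gt_three
  obtain ⟨h1, h2⟩ := abs_lt.1 h
  refine ⟨Real.cos_pos_of_mem_Ioo ⟨by linarith, by linarith⟩, ⟨fun hs => ?_, fun hu => ?_⟩,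
    Real.sin_eq_zero_iff_of_lt_of_lt (by linarith) (by linarith), ?_⟩
  · by_contra hn
    exact absurd hs (not_lt.2 (Real.sin_nonpos_of_nonpos_of_neg_pi_le (not_lt.1 hn) (by linarith)))
  · exact Real.sin_pos_of_pos_of_lt_pi hu (by linarith)
  · rw [Complex.exp_mul_I]
    exact Complex.arg_cos_add_sin_mul_I ⟨by linarith, by linarith⟩

variable {A : MA} {T : QtD A}

/-- a point with real nonnegative angle lies on the fibre `u = 0` -/
theorem ang_one (hA : A.Ok) {x : A.X} (h1 : (A.ang x).im = 0) (h2 : 0 ≤ (A.ang x).re) :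
    ∃ m : Rn 2, x = A.e₀ ![m 0, m 1, 0] ∧ A.ang x = 1 := by
  have hp := Real.pi_gt_three
  rcases hA.tw.cov x with ⟨z, hz, rfl⟩ | ⟨i, hi, z, hz, rfl⟩
  · rw [hA.ang0 z hz] at h1 h2 ⊢
    rw [Complex.exp_ofReal_mul_I_im] at h1
    rw [Complex.exp_ofReal_mul_I_re] at h2
    have h3 : Real.cos (z 2) = 1 := by
      have := Real.sin_sq_add_cos_sq (z 2)
      rw [h1] at this
      nlinarith
    obtain ⟨n, hn⟩ := (Real.cos_eq_one_iff _).1 h3
    refine ⟨![z 0, z 1], (hA.tw.eq0 z hz _ (main_small (by simp))).2 fun k => ?_, ?_⟩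
    · fin_cases k
      · exact ⟨0, by simp⟩
      · exact ⟨0, by simp⟩
      · exact ⟨n, by simp [← hn]; ring⟩
    · apply Complex.ext
      · rw [Complex.exp_ofReal_mul_I_re, h3]; rfl
      · rw [Complex.exp_ofReal_mul_I_im, h1]; rfl
  · rw [hA.angb i hi z hz, Complex.exp_ofReal_mul_I_im] at h1
    obtain ⟨a1, a2⟩ := abs_lt.1 hz.2
    exfalso
    fin_cases i
    · simp [kx, ck, eps] at a1 a2
      exact (Real.sin_pos_of_pos_of_lt_pi (x := z 2) (by linarith) (by linarith)).ne' h1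
    · simp [kx, ck, eps] at a1 a2
      have := Real.sin_pos_of_pos_of_lt_pi (x := z 2 - π) (by linarith) (by linarith)
      rw [Real.sin_sub_pi, h1] at this
      simp at this
    · exact hi rfl

/-- the angle as a function on the double cover -/
def an (T : QtD A) (y : T.Qt) : ℂ := A.ang (invFunOn T.io A.U y).1

theorem an_io (hT : T.Ok) {p : A.X.cyl} (hp : p ∈ A.U) : an T (T.io p) = A.ang p.1 := by
  rw [an, hT.oi.left hp]

theorem an_cont (hA : A.Ok) (hT : T.Ok) {p : A.X.cyl} (hp : p ∈ A.U) :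
    ContinuousAt (an T) (T.io p) :=
  hA.angc.continuousAt.comp (continuousAt_fst.comp (hT.oi.symm.sm _ ⟨p, hp, rfl⟩).cont)

def V2 (A : MA) : Set A.X.cyl :=
  {p | |p.2| < 3 / 4 ∧ ((A.ang p.1).im ≠ 0 ∨ ((A.ang p.1).re < 0 ∧ -1 / 2 < p.2))}

theorem V2_sub : V2 A ⊆ A.U := fun p hp _ => by linarith [hp.1]

theorem V2_open (hA : A.Ok) : IsOpen (V2 A) := by
  have h : Continuous fun p : A.X.cyl => A.ang p.1 := hA.angc.comp continuous_fst
  exact (isOpen_lt (continuous_abs.comp continuous_snd) continuous_const).inter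
    ((isOpen_ne_fun (Complex.continuous_im.comp h) continuous_const).union
      ((isOpen_lt (Complex.continuous_re.comp h) continuous_const).inter
        (isOpen_lt continuous_const continuous_snd)))

/-- the domain over which the quotient is cut open -/
def V (T : QtD A) : Set T.Qt := {y | 1 / 2 < T.s y} ∪ T.io '' V2 A

theorem V_open (hA : A.Ok) (hT : T.Ok) : IsOpen (V T) :=
  (isOpen_lt continuous_const hT.scont).union (hT.oi.isOpen_image (V2_open hA) V2_sub)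

theorem mem_V (hT : T.Ok) {p : A.X.cyl} (hp : p ∈ A.U) : T.io p ∈ V T ↔ 1 / 2 < p.2 ∨ p ∈ V2 A := by
  refine or_congr (by rw [mem_ofPred_eq, hT.si p hp]) ⟨?_, fun h => ⟨p, h, rfl⟩⟩
  rintro ⟨q, hq, e⟩
  rwa [← hT.oi.inj (V2_sub hq) hp e]

theorem mem_V' (hA : A.Ok) (hT : T.Ok) {p : A.X.cyl} (hp : p ∈ A.U) : T.σ (T.io p) ∈ V T ↔
    p.2 < -1 / 2 ∨ (|p.2| < 3 / 4 ∧ ((A.ang p.1).im ≠ 0 ∨ (0 < (A.ang p.1).re ∧ p.2 < 1 / 2))) := by
  rw [hT.σi p hp, mem_V hT (hT.σU p hp)]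
  simp only [V2, mem_ofPred_eq, hA.angσ, abs_neg, Complex.neg_im, Complex.neg_re, ne_eq,
    neg_eq_zero, neg_lt_zero]
  refine or_congr ⟨fun h => by linarith, fun h => by linarith⟩
    (and_congr_right fun _ => or_congr_right (and_congr_right fun _ =>
      ⟨fun h => by linarith, fun h => by linarith⟩))

theorem io_of_s (hT : T.Ok) {y : T.Qt} (h1 : -1 / 2 ≤ T.s y) (h2 : T.s y ≤ 1 / 2) :
    ∃ p ∈ A.U, T.io p = y := by
  rcases hT.cov y with h | ⟨z, hz, rfl | rfl⟩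
  · exact h
  · rw [hT.sn z hz] at h2
    linarith [hz.2]
  · rw [hT.sσ, hT.sn z hz] at h1
    linarith [hz.2]

theorem both (hA : A.Ok) (hT : T.Ok) {y : T.Qt} (hy : y ∈ V T) (hy' : T.σ y ∈ V T) :
    ∃ p ∈ A.U, T.io p = y ∧ (A.ang p.1).im ≠ 0 := by
  rcases hy with hy | ⟨p, hp, rfl⟩
  · have hs := hT.sσ y
    rcases hy' with hy' | ⟨p, hp, e⟩
    · simp only [mem_ofPred_eq] at hy hy'
      linarith
    · have hU := V2_sub hp
      have h1 := hT.si p hU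
      rw [e] at h1
      simp only [mem_ofPred_eq] at hy
      refine ⟨_, hT.σU p hU, by rw [← hT.σi p hU, e, hT.σσ], ?_⟩
      rw [hA.angσ, Complex.neg_im, neg_ne_zero]
      exact hp.2.resolve_right fun h => by linarith [h.2]
  · refine ⟨p, V2_sub hp, rfl, fun h0 => ?_⟩
    have h1 := hp.2.resolve_left (not_not.2 h0)
    rcases (mem_V' hA hT (V2_sub hp)).1 hy' with h | ⟨-, h | h⟩
    · linarith [h1.2]
    · exact h h0
    · linarith [h1.1, h.1]

/-! ### The port -/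

/-- the port in the cylinder -/
def pt (A : MA) (m : Rn 2) (w : ℂ) : A.X.cyl := (A.e₀ ![m 0, m 1, w.im / 200], 1 / 2 + w.re / 200)

theorem κt_eq (m : Rn 2) (w : ℂ) : T.κt (m, w) = T.io (pt A m w) := rfl

theorem pt_abs {m : Rn 2} {w : ℂ} (h : ‖w‖ < 30) : 1 / 4 < (pt A m w).2 ∧ (pt A m w).2 < 3 / 4 := by
  have := abs_lt.1 (bd h).1
  constructor <;> simp only [pt] <;> linarith

theorem pt_abs' {m : Rn 2} {w : ℂ} (h : ‖w‖ < 30) : |(pt A m w).2| < 3 / 4 :=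
  abs_lt.2 ⟨by linarith [(pt_abs (A := A) (m := m) h).1], (pt_abs h).2⟩

theorem pt_U {m : Rn 2} {w : ℂ} (h : ‖w‖ < 30) : pt A m w ∈ A.U := fun _ => by
  linarith [pt_abs' (A := A) (m := m) h]

theorem pt_ang (hA : A.Ok) {m : Rn 2} {w : ℂ} (h : ‖w‖ < 30) :
    A.ang (pt A m w).1 = Complex.exp ((w.im / 200 : ℝ) * Complex.I) :=
  hA.ang0 _ (main_small (by simpa using (bd h).2.trans (by norm_num)))

theorem pt_re (hA : A.Ok) {m : Rn 2} {w : ℂ} (h : ‖w‖ < 30) : 0 < (A.ang (pt A m w).1).re := by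
  rw [pt_ang hA h, Complex.exp_ofReal_mul_I_re]
  exact (trig (bd h).2).1

theorem pt_im (hA : A.Ok) {m : Rn 2} {w : ℂ} (h : ‖w‖ < 30) :
    (0 < (A.ang (pt A m w).1).im ↔ 0 < w.im) ∧ ((A.ang (pt A m w).1).im = 0 ↔ w.im = 0) := by
  rw [pt_ang hA h, Complex.exp_ofReal_mul_I_im, (trig (bd h).2).2.1, (trig (bd h).2).2.2.1]
  constructor <;> constructor <;> intro h <;> linarith

theorem memP (hA : A.Ok) (hT : T.Ok) {m : Rn 2} {w : ℂ} (h : ‖w‖ < 30) :
    T.κt (m, w) ∈ V T ↔ w ∈ Complex.slitPlane := by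
  rw [κt_eq, mem_V hT (pt_U h), Complex.mem_slitPlane_iff]
  refine or_congr ⟨fun h => by simp only [pt] at h; linarith, fun h => by simp only [pt]; linarith⟩
    ⟨fun h1 h0 => ?_, fun h1 => ⟨pt_abs' h, Or.inl fun h0 => h1 ((pt_im hA h).2.1 h0)⟩⟩
  rcases h1.2 with h2 | h2
  · exact h2 ((pt_im hA h).2.2 h0)
  · linarith [h2.1, pt_re hA (m := m) h]

theorem memM (hA : A.Ok) (hT : T.Ok) {m : Rn 2} {w : ℂ} (h : ‖w‖ < 30) :
    T.σ (T.κt (m, w)) ∈ V T ↔ -w ∈ Complex.slitPlane := by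
  rw [κt_eq, mem_V' hA hT (pt_U h), Complex.mem_slitPlane_iff, Complex.neg_re, Complex.neg_im,
    neg_ne_zero]
  constructor
  · rintro (h1 | ⟨-, h1 | h1⟩)
    · linarith [(pt_abs (A := A) (m := m) h).1]
    · exact Or.inr fun h0 => h1 ((pt_im hA h).2.2 h0)
    · exact Or.inl (by have := h1.2; simp only [pt] at this; linarith)
  · rintro (h1 | h1)
    · exact Or.inr ⟨pt_abs' h, Or.inr ⟨pt_re hA h, by simp only [pt]; linarith⟩⟩
    · exact Or.inr ⟨pt_abs' h, Or.inl fun h0 => h1 ((pt_im hA h).2.1 h0)⟩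

theorem cover (hA : A.Ok) (hT : T.Ok) (y : T.Qt) :
    y ∈ V T ∨ T.σ y ∈ V T ∨ ∃ m, y = T.κt (m, 0) ∨ T.σ y = T.κt (m, 0) := by
  by_cases h1 : 1 / 2 < T.s y
  · exact Or.inl (Or.inl h1)
  by_cases h2 : T.s y < -1 / 2
  · exact Or.inr (Or.inl (Or.inl (by rw [mem_ofPred_eq, hT.sσ]; linarith)))
  obtain ⟨p, hp, rfl⟩ := io_of_s hT (not_lt.1 h2) (not_lt.1 h1)
  rw [hT.si p hp, not_lt] at h1 h2
  have ha : |p.2| < 3 / 4 := abs_lt.2 ⟨by linarith, by linarith⟩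
  by_cases h3 : (A.ang p.1).im = 0
  swap
  · exact Or.inl (Or.inr ⟨p, ⟨ha, Or.inl h3⟩, rfl⟩)
  rcases lt_or_ge (A.ang p.1).re 0 with h4 | h4
  · rcases h2.lt_or_eq with h5 | h5
    · exact Or.inl (Or.inr ⟨p, ⟨ha, Or.inr ⟨h4, h5⟩⟩, rfl⟩)
    · obtain ⟨m, hm, -⟩ := ang_one hA (x := A.σ p.1) (by rw [hA.angσ]; simpa using h3)
        (by rw [hA.angσ]; simpa using h4.le)
      refine Or.inr (Or.inr ⟨m, Or.inr ?_⟩)
      rw [hT.σi p hp, κt_eq, hm, ← h5]
      congr 1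
      simp [pt]; norm_num
  · obtain ⟨m, hm, h6⟩ := ang_one hA h3 h4
    rcases h1.lt_or_eq with h5 | h5
    · exact Or.inr (Or.inl ((mem_V' hA hT hp).2 (Or.inr ⟨ha, Or.inr ⟨by simp [h6], h5⟩⟩)))
    · refine Or.inr (Or.inr ⟨m, Or.inl ?_⟩)
      rw [κt_eq]
      congr 1
      exact Prod.ext (by simpa [pt] using hm) (by simpa [pt] using h5)

/-- the normal coordinate of the port -/
def wf (T : QtD A) (y : T.Qt) : ℂ :=
  ((200 * (T.s y - 1 / 2) : ℝ) : ℂ) + ((200 * Complex.arg (an T y) : ℝ) : ℂ) * Complex.I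

theorem wf_κt (hA : A.Ok) (hT : T.Ok) {m : Rn 2} {w : ℂ} (h : ‖w‖ < 30) :
    wf T (T.κt (m, w)) = w := by
  rw [wf, κt_eq, an_io hT (pt_U h), pt_ang hA h, (trig (bd h).2).2.2.2, hT.si _ (pt_U h)]
  apply Complex.ext <;> simp [pt] <;> ring

theorem wf_cont (hA : A.Ok) (hT : T.Ok) {m : Rn 2} {w : ℂ} (h : ‖w‖ < 30) :
    ContinuousAt (wf T) (T.κt (m, w)) := by
  have h1 : ContinuousAt (fun y => Complex.arg (an T y)) (T.κt (m, w)) :=
    ContinuousAt.comp (f := an T) (Complex.continuousAt_arg (by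
      rw [κt_eq, an_io hT (pt_U h)]
      exact Or.inl (pt_re hA h))) (an_cont hA hT (pt_U h))
  exact (Complex.continuous_ofReal.continuousAt.comp
    (continuousAt_const.mul (hT.scont.continuousAt.sub continuousAt_const))).add
    ((Complex.continuous_ofReal.continuousAt.comp (continuousAt_const.mul h1)).mul
      continuousAt_const)

theorem s_κt (hT : T.Ok) {m : Rn 2} {w : ℂ} (h : ‖w‖ < 30) :
    0 < T.s (T.κt (m, w)) ∧ T.s (T.κt (m, w)) < 1 := by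
  rw [κt_eq, hT.si _ (pt_U h)]
  constructor <;> linarith [(pt_abs (A := A) (m := m) h).1, (pt_abs (A := A) (m := m) h).2]

theorem κt_ne (hT : T.Ok) (hC : T.Col) {m : Rn 2} {w : ℂ} (h : ‖w‖ < 30) :
    T.κt (m, w) ∉ ({T.nut 0, T.σ (T.nut 0)} : Set T.Qt) := by
  have h1 := s_κt hT (m := m) h
  rintro (e | e) <;> rw [e] at h1
  · linarith [hC.spt, h1.2]
  · rw [hT.sσ, hC.spt] at h1
    linarith [h1.1]

theorem σ_ne (hT : T.Ok) {y : T.Qt} (h : y ∉ ({T.nut 0, T.σ (T.nut 0)} : Set T.Qt)) :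
    T.σ y ∉ ({T.nut 0, T.σ (T.nut 0)} : Set T.Qt) := by
  rintro (e | e)
  · exact h (Or.inr (by rw [← e, hT.σσ]; rfl))
  · exact h (Or.inl (by rw [← hT.σσ y, e, hT.σσ]))

/-! ### The coframe in polar coordinates -/

/-- the coordinates of the port -/
def Lc : Rn 4 × ℂ →L[ℝ] Rn 3 := LinearMap.toContinuousLinearMap
  { toFun := fun p => ![p.1 0, p.1 1, p.2.im / 200]
    map_add' := fun p q => by ext k; fin_cases k <;> simp [add_div]
    map_smul' := fun c p => by ext k; fin_cases k <;> simp [mul_div_assoc] }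

def Ld : ℂ →L[ℝ] ℝ := LinearMap.toContinuousLinearMap
  { toFun := fun w => w.re / 200
    map_add' := fun p q => by simp [add_div]
    map_smul' := fun c p => by simp [mul_div_assoc] }

def Le : Rn 4 →L[ℝ] ℂ := LinearMap.toContinuousLinearMap
  { toFun := fun z => z 3 + z 2 * Complex.I
    map_add' := fun p q => by simp; ring
    map_smul' := fun c p => by simp; ring }

def ex (z : Rn 4) : ℂ := Complex.exp (Le z)

theorem ex_sm (z : Rn 4) : ContDiffAt ℝ ∞ ex z := Le.contDiff.contDiffAt.cexp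

theorem ex_fd (z : Rn 4) : HasFDerivAt ex (ex z • Le) z := Le.hasFDerivAt.cexp

theorem ex_norm (z : Rn 4) : ‖ex z‖ = Real.exp (z 3) := by
  rw [ex, Complex.norm_exp]
  congr 1
  change ((z 3 : ℂ) + z 2 * Complex.I).re = z 3
  simp

theorem ex_d (z v : Rn 4) : (ex z * Le v).re =
      Real.exp (z 3) * (Real.cos (z 2) * v 3 - Real.sin (z 2) * v 2) ∧
    (ex z * Le v).im = Real.exp (z 3) * (Real.cos (z 2) * v 2 + Real.sin (z 2) * v 3) := by
  have h1 : (Le z).re = z 3 := by change ((z 3 : ℂ) + z 2 * Complex.I).re = z 3; simp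
  have h2 : (Le z).im = z 2 := by change ((z 3 : ℂ) + z 2 * Complex.I).im = z 2; simp
  have h3 : (Le v).re = v 3 := by change ((v 3 : ℂ) + v 2 * Complex.I).re = v 3; simp
  have h4 : (Le v).im = v 2 := by change ((v 3 : ℂ) + v 2 * Complex.I).im = v 2; simp
  rw [Complex.mul_re, Complex.mul_im, ex, Complex.exp_re, Complex.exp_im, h1, h2, h3, h4]
  constructor <;> ring

/-- the port in logarithmic polar coordinates -/
def ph (A : MA) (z : Rn 4) : A.X.cyl := (A.e₀ (Lc (z, ex z)), 1 / 2 + Ld (ex z))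

theorem ph_eq (z : Rn 4) : ph A z = pt A ![z 0, z 1] (ex z) := rfl

theorem κt_pol (z : Rn 4) : T.κt (pol z) = T.io (ph A z) := rfl

theorem ph_d (hA : A.Ok) {z : Rn 4} (hz : Real.exp (z 3) < 30) :
    SmAt (vs (Rn 4)) A.X.cyl (ph A) z ∧ ∀ v, Df (vs (Rn 4)) A.X.cyl (ph A) z v =
      (Df (vs (Rn 3)) A.X A.e₀ (Lc (z, ex z)) (Lc (v, ex z * Le v)), Ld (ex z * Le v)) := by
  have hw : ‖ex z‖ < 30 := by rwa [ex_norm]
  have h1 : SmAt (vs (Rn 4)) (vs (Rn 3)) (fun z => Lc (z, ex z)) z :=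
    smAt_vs.2 (Lc.contDiff.contDiffAt.comp z (contDiffAt_id.prodMk (ex_sm z)))
  have h2 : SmAt (vs (Rn 3)) A.X A.e₀ (Lc (z, ex z)) :=
    (hA.tw.ld0 _ (main_small ((bd hw).2.trans (by norm_num)))).sm
  have h3 : SmAt (vs (Rn 4)) (vs ℝ) (fun z => 1 / 2 + Ld (ex z)) z :=
    smAt_vs.2 (contDiffAt_const.add (Ld.contDiff.contDiffAt.comp z (ex_sm z)))
  have d1 : HasFDerivAt (fun z => Lc (z, ex z)) _ z :=
    Lc.hasFDerivAt.comp z ((hasFDerivAt_id z).prodMk (ex_fd z))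
  have d3 : HasFDerivAt (fun z => 1 / 2 + Ld (ex z)) _ z :=
    (Ld.hasFDerivAt.comp z (ex_fd z)).const_add (1 / 2)
  refine ⟨(h1.trans h2).pair h3, fun v => ?_⟩
  have e := Df_pair (h1.trans h2) h3
  rw [Df_comp h1 h2, Df_vs, Df_vs, d1.fderiv, d3.fderiv] at e
  exact congrArg (fun L => L v) e

variable {τ : A.X → Rn 3 →L[ℝ] Rn 3} {ϑ : ℂ × ℂ → ℂ × ℂ →L[ℝ] Rn 3 × ℝ}
  {Θ : T.Qt.cyl → E4 × ℝ →L[ℝ] Rn 5} {Q : Mf E4} {pQ : T.Qt → Q}

theorem frame (hA : A.Ok) (hT : T.Ok) (hτ : Cfa A τ) (hΘ : T.Cf τ ϑ Θ) {z : Rn 4}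
    (hz : Real.exp (z 3) < 30) : SmAt (vs (Rn 4)) T.Qt (fun z => T.κt (pol z)) z ∧
    ∀ t (u : Rn 4 × ℝ), Θ (T.κt (pol z), t)
      (Df (vs (Rn 4)) T.Qt (fun z => T.κt (pol z)) z u.1, u.2) =
        Mr (z 2) (Real.exp (z 3) / 200) *ᵥ std5 u := by
  have hw : ‖ex z‖ < 30 := by rwa [ex_norm]
  have hU : ph A z ∈ A.U := pt_U (A := A) (m := ![z 0, z 1]) hw
  obtain ⟨h1, h2⟩ := ph_d hA hz
  have h3 := hT.oi.sm _ hU
  refine ⟨h1.trans h3, fun t u => ?_⟩
  have e := congrArg (fun L => L u.1) (Df_comp h1 h3)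
  simp only [ContinuousLinearMap.comp_apply] at e
  have hs : Lc (z, ex z) ∈ Std := Or.inr ((bd hw).2.trans (by norm_num))
  have e2 := hΘ.Θi _ hU (Or.inl ((pt_abs' (A := A) (m := ![z 0, z 1]) hw).trans (by norm_num))) t
    (Df (vs (Rn 4)) A.X.cyl (ph A) z u.1) u.2
  rw [← e] at e2
  refine e2.trans ?_
  rw [h2]
  have e3 := hτ.std _ hs (Lc (u.1, ex z * Le u.1))
  change ![τ (A.e₀ (Lc (z, ex z))) _ 0, τ (A.e₀ (Lc (z, ex z))) _ 1, τ (A.e₀ (Lc (z, ex z))) _ 2,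
    _, _] = _
  simp only [e3]
  change ![u.1 0, u.1 1, (ex z * Le u.1).im / 200, (ex z * Le u.1).re / 200, u.2] = _
  rw [(ex_d z u.1).1, (ex_d z u.1).2]
  ext k
  fin_cases k <;> simp [Mr, std5, Matrix.mulVec, dotProduct, Fin.sum_univ_five] <;> ring

/-- the projection of the cylinders -/
def fq (pQ : T.Qt → Q) (y : T.Qt.cyl) : Q.cyl := (pQ y.1, y.2)

theorem fq_ld (hQ : T.Quo Q pQ) (y : T.Qt.cyl) : LDAt T.Qt.cyl Q.cyl (fq pQ) y :=
  (hQ.pld y.1).prodMap (ldAt_id (X := vs ℝ) (x := y.2))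

theorem fq_d (hQ : T.Quo Q pQ) (y : T.Qt.cyl) (v : E4) (r : ℝ) :
    Df T.Qt.cyl Q.cyl (fq pQ) y (v, r) = (Df T.Qt Q pQ y.1 v, r) := by
  have e := Df_pair (X := T.Qt.cyl) (x := y) (smAt_fst.trans (hQ.pld y.1).sm)
    (smAt_snd (X := T.Qt) (Y := vs ℝ))
  rw [Df_comp smAt_fst (hQ.pld y.1).sm, Df_fst, Df_snd] at e
  exact congrArg (fun L => L (v, r)) e

theorem pq_σ (hQ : T.Quo Q pQ) (y : T.Qt) : pQ (T.σ y) = pQ y :=
  ((hQ.peq y _).2 (Or.inr rfl)).symm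

theorem pq_dσ (hT : T.Ok) (hQ : T.Quo Q pQ) (y : T.Qt) (v : E4) :
    Df T.Qt Q pQ (T.σ y) (Df T.Qt T.Qt T.σ y v) = Df T.Qt Q pQ y v := by
  have e := Df_comp (hT.σsm y trivial) (hQ.pld (T.σ y)).sm
  simp only [pq_σ hQ] at e
  exact (congrArg (fun L => L v) e).symm

theorem tm_σ (hT : T.Ok) (hΘ : T.Cf τ ϑ Θ) (hQ : T.Quo Q pQ) {y : T.Qt}
    (hy : y ∉ ({T.nut 0, T.σ (T.nut 0)} : Set T.Qt)) (t : ℝ) :
    tm ((Θ (y, t)).comp (Df T.Qt.cyl Q.cyl (fq pQ) (y, t)).inverse)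
      ((Θ (T.σ y, t)).comp (Df T.Qt.cyl Q.cyl (fq pQ) (T.σ y, t)).inverse) = E.R5 := by
  have i1 := (fq_ld hQ (y, t)).inv
  have i2 := (fq_ld hQ (T.σ y, t)).inv
  refine tm_eq ((hΘ.cof (T.σ y, t) ⟨σ_ne hT hy, trivial⟩).2.comp i2.inverse) fun v => ?_
  obtain ⟨⟨v, r⟩, rfl⟩ := i1.bijective.2 v
  have e : Df T.Qt.cyl Q.cyl (fq pQ) (y, t) (v, r) =
      Df T.Qt.cyl Q.cyl (fq pQ) (T.σ y, t) (Df T.Qt T.Qt T.σ y v, r) := by
    rw [fq_d hQ, fq_d hQ, pq_dσ hT hQ]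
  rw [ContinuousLinearMap.comp_apply, ContinuousLinearMap.comp_apply, i1.inverse_apply_self, e,
    i2.inverse_apply_self, hΘ.Θσ y hy, Matrix.mulVec_mulVec, R5_sq, Matrix.one_mulVec]

theorem tm_port (hA : A.Ok) (hT : T.Ok) (hC : T.Col) (hτ : Cfa A τ) (hΘ : T.Cf τ ϑ Θ)
    (hQ : T.Quo Q pQ) {Λ : Q.cyl → E4 × ℝ →L[ℝ] Rn 5}
    (hΛ : Cof Q.cyl 0 Λ (Wp fun p => pQ (T.κt p))) (hL : Lie Q (fun p => pQ (T.κt p)) Λ)
    {m : Rn 2} {w : ℂ} (h0 : 0 < ‖w‖) (h : ‖w‖ < 30) {θ : ℝ} (hθ : IsArg w θ) (t : ℝ) :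
    tm (Θ (T.κt (m, w), t)) ((Λ (fq pQ (T.κt (m, w), t))).comp
      (Df T.Qt.cyl Q.cyl (fq pQ) (T.κt (m, w), t))) = Mr θ (‖w‖ / 200) ∧
    tm (Θ (T.σ (T.κt (m, w)), t)) ((Λ (fq pQ (T.σ (T.κt (m, w)), t))).comp
      (Df T.Qt.cyl Q.cyl (fq pQ) (T.σ (T.κt (m, w)), t))) = E.R5 * Mr θ (‖w‖ / 200) := by
  have hi : (Λ (pQ (T.κt (m, w)), t)).IsInvertible :=
    (hΛ _ ⟨⟨(m, w), ⟨trivial, h0, h⟩, rfl⟩, trivial⟩).2
  have hne := κt_ne hT hC (m := m) h
  obtain ⟨z, hz, h2, h3⟩ : ∃ z : Rn 4, pol z = (m, w) ∧ z 2 = θ ∧ Real.exp (z 3) = ‖w‖ := by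
    refine ⟨![m 0, m 1, θ, Real.log ‖w‖], Prod.ext ?_ ?_, rfl, Real.exp_log h0⟩
    · ext k; fin_cases k <;> rfl
    · change Complex.exp ((Real.log ‖w‖ : ℝ) + (θ : ℝ) * Complex.I) = w
      rw [Complex.exp_add, ← Complex.ofReal_exp, Real.exp_log h0]
      exact hθ.symm
  rw [← hz] at hi hne ⊢
  rw [← h3] at h ⊢
  rw [← h2]
  obtain ⟨f1, f2⟩ := frame hA hT hτ hΘ h
  have l1 : ∀ u : Rn 4 × ℝ, Λ (pQ (T.κt (pol z)), t) (Df T.Qt Q pQ (T.κt (pol z))
      (Df (vs (Rn 4)) T.Qt (fun z => T.κt (pol z)) z u.1), u.2) = std5 u := fun u => by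
    have e := hL z t h
    rw [Df_comp f1 (hQ.pld _).sm] at e
    exact congrArg (fun L => L u) e
  constructor
  · refine tm_of (hi.comp (fq_ld hQ _).inv)
      (fun u => (Df (vs (Rn 4)) T.Qt (fun z => T.κt (pol z)) z u.1, u.2)) (fun u => ?_) (f2 t)
    rw [ContinuousLinearMap.comp_apply, fq_d hQ]
    exact l1 u
  · have e : fq pQ (T.σ (T.κt (pol z)), t) = (pQ (T.κt (pol z)), t) := Prod.ext (pq_σ hQ _) rfl
    rw [e]
    refine tm_of (hi.comp (fq_ld hQ _).inv)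
      (fun u => (Df T.Qt T.Qt T.σ (T.κt (pol z))
        (Df (vs (Rn 4)) T.Qt (fun z => T.κt (pol z)) z u.1), u.2)) (fun u => ?_) fun u => ?_
    · rw [ContinuousLinearMap.comp_apply, fq_d hQ, pq_dσ hT hQ]
      exact l1 u
    · rw [hΘ.Θσ _ hne, f2, Matrix.mulVec_mulVec]

theorem isArg_neg (w : ℂ) : IsArg w (Complex.arg (-w) + π) := by
  have := Complex.norm_mul_exp_arg_mul_I (-w)
  rw [norm_neg] at this
  rw [IsArg, Complex.ofReal_add, add_mul, Complex.exp_add, Complex.exp_pi_mul_I, mul_neg_one,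
    mul_neg, this, neg_neg]

/-! ### The lifts -/

/-- the domain in the cylinder -/
def O (T : QtD A) : Set T.Qt.cyl := (V T ∩ {T.nut 0, T.σ (T.nut 0)}ᶜ) ×ˢ univ

theorem O_open (hA : A.Ok) (hT : T.Ok) : IsOpen (O T) :=
  ((V_open hA hT).inter (toFinite _).isClosed.isOpen_compl).prod isOpen_univ

theorem fib (hQ : T.Quo Q pQ) {y y' : T.Qt.cyl} (h : fq pQ y = fq pQ y') :
    y' = y ∨ y' = (T.σ y.1, y.2) :=
  ((hQ.peq _ _).1 (congrArg Prod.fst h)).imp (fun e => Prod.ext e (congrArg Prod.snd h).symm)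
    fun e => Prod.ext e (congrArg Prod.snd h).symm

theorem σ_ne' (hC : T.Col) (y : T.Qt.cyl) : y ≠ (T.σ y.1, y.2) := fun e =>
  hC.σne y.1 (congrArg Prod.fst e).symm

theorem port (hQ : T.Quo Q pQ) {y : T.Qt.cyl} (h : fq pQ y ∈ Wp fun p => pQ (T.κt p)) :
    ∃ m w, 0 < ‖w‖ ∧ ‖w‖ < 30 ∧ (y.1 = T.κt (m, w) ∨ y.1 = T.σ (T.κt (m, w))) := by
  obtain ⟨⟨⟨m, w⟩, ⟨-, h1, h2⟩, e⟩, -⟩ := h
  exact ⟨m, w, h1, h2, (hQ.peq _ _).1 e⟩

theorem image_O (hA : A.Ok) (hT : T.Ok) (hQ : T.Quo Q pQ) : fq pQ '' O T =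
    (((fun p => pQ (T.κt p)) '' (univ ×ˢ {0}))ᶜ \ {pQ (T.nut 0)}) ×ˢ univ := by
  have h30 : ‖(0 : ℂ)‖ < 30 := by simp
  apply Subset.antisymm
  · rintro _ ⟨y, ⟨⟨h1, h2⟩, -⟩, rfl⟩
    refine ⟨⟨?_, fun e => h2 ((hQ.peq _ _).1 (Eq.symm e))⟩, trivial⟩
    rintro ⟨⟨m, w⟩, ⟨-, rfl : w = 0⟩, e⟩
    rcases (hQ.peq _ _).1 e with e | e <;> rw [show y.1 = _ from e] at h1
    · exact Complex.zero_notMem_slitPlane ((memP hA hT h30).1 h1)
    · exact Complex.zero_notMem_slitPlane (by simpa using (memM hA hT h30).1 h1)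
  · rintro ⟨x, t⟩ ⟨⟨h1, h2⟩, -⟩
    obtain ⟨y, rfl⟩ := hQ.psur x
    have h3 : y ∉ ({T.nut 0, T.σ (T.nut 0)} : Set T.Qt) := fun e => h2 ((hQ.peq _ _).2 e).symm
    rcases cover hA hT y with h | h | ⟨m, h | h⟩
    · exact ⟨(y, t), ⟨⟨h, h3⟩, trivial⟩, rfl⟩
    · exact ⟨(T.σ y, t), ⟨⟨h, σ_ne hT h3⟩, trivial⟩, Prod.ext (pq_σ hQ y) rfl⟩
    · exact (h1 ⟨(m, 0), ⟨trivial, rfl⟩, by rw [h]⟩).elim
    · exact (h1 ⟨(m, 0), ⟨trivial, rfl⟩, by rw [← pq_σ hQ y, h]⟩).elim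

theorem Wp_sub (hA : A.Ok) (hT : T.Ok) (hC : T.Col) (hQ : T.Quo Q pQ) :
    (Wp fun p => pQ (T.κt p)) ⊆ fq pQ '' O T := by
  rintro ⟨_, t⟩ ⟨⟨⟨m, w⟩, ⟨-, h1, h2⟩, rfl⟩, -⟩
  rcases Complex.mem_slitPlane_or_neg_mem_slitPlane (norm_pos_iff.1 h1) with h | h
  · exact ⟨(T.κt (m, w), t), ⟨⟨(memP hA hT h2).2 h, κt_ne hT hC h2⟩, trivial⟩, rfl⟩
  · exact ⟨(T.σ (T.κt (m, w)), t), ⟨⟨(memM hA hT h2).2 h, σ_ne hT (κt_ne hT hC h2)⟩, trivial⟩,
      Prod.ext (pq_σ hQ _) rfl⟩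

variable {C : SpinCover}

/-- the lift of the deck transformation -/
def ga (T : QtD A) (R : C.G) (y : T.Qt) : C.G := if 0 < (an T y).im then R else R⁻¹

open Classical in
def gg (T : QtD A) (R : C.G) (y y' : T.Qt.cyl) : C.G := if y = y' then 1 else ga T R y.1

theorem gg_self (R : C.G) (y : T.Qt.cyl) : gg T R y y = 1 := if_pos rfl

theorem gg_σ (hC : T.Col) (R : C.G) (y : T.Qt.cyl) : gg T R y (T.σ y.1, y.2) = ga T R y.1 :=
  if_neg (σ_ne' hC y)

theorem ga_mul (hA : A.Ok) (hT : T.Ok) (R : C.G) {y : T.Qt} (hy : y ∈ V T) (hy' : T.σ y ∈ V T) :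
    ga T R y * ga T R (T.σ y) = 1 := by
  obtain ⟨p, hp, rfl, h⟩ := both hA hT hy hy'
  rw [ga, ga, hT.σi p hp, an_io hT hp, an_io hT (hT.σU p hp), hA.angσ, Complex.neg_im]
  rcases lt_or_gt_of_ne h with h | h
  · rw [if_neg h.not_gt, if_pos (neg_pos.2 h), inv_mul_cancel]
  · rw [if_pos h, if_neg (neg_lt_zero.2 h).not_gt, mul_inv_cancel]

theorem ga_ev (hA : A.Ok) (hT : T.Ok) (R : C.G) {y : T.Qt} (hy : y ∈ V T) (hy' : T.σ y ∈ V T) :
    ∀ᶠ y' in 𝓝 y, ga T R y' = ga T R y := by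
  obtain ⟨p, hp, rfl, h⟩ := both hA hT hy hy'
  have hc : ContinuousAt (fun y => (an T y).im) (T.io p) :=
    Complex.continuous_im.continuousAt.comp (an_cont hA hT hp)
  rw [← an_io hT hp] at h
  rcases lt_or_gt_of_ne h with h | h
  · filter_upwards [hc.eventually (gt_mem_nhds h)] with y' h'
    rw [ga, ga, if_neg h.not_gt, if_neg (not_lt.2 (le_of_lt h'))]
  · filter_upwards [hc.eventually (lt_mem_nhds h)] with y' h'
    rw [ga, ga, if_pos h, if_pos h']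

theorem gg_cont (hA : A.Ok) (hT : T.Ok) (hC : T.Col) (hQ : T.Quo Q pQ) (R : C.G) :
    ContinuousOn (fun p : T.Qt.cyl × T.Qt.cyl => gg T R p.1 p.2)
      {p | p.1 ∈ O T ∧ p.2 ∈ O T ∧ fq pQ p.1 = fq pQ p.2} := by
  rintro ⟨y, y'⟩ ⟨h1, h2, h3⟩
  refine (continuousWithinAt_const (b := gg T R y y')).congr_of_eventuallyEq ?_ rfl
  rcases fib hQ h3 with (rfl : y' = y) | (rfl : y' = (T.σ y.1, y.2))
  · have ho : IsOpen {p : T.Qt.cyl × T.Qt.cyl | p.2 ≠ (T.σ p.1.1, p.1.2)} :=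
      isOpen_ne_fun continuous_snd ((hT.σsm.cont.comp continuous_fst.fst).prodMk continuous_fst.snd)
    filter_upwards [nhdsWithin_le_nhds (ho.mem_nhds (σ_ne' hC y')), self_mem_nhdsWithin] with p a b
    rw [gg_self, (fib hQ b.2.2).resolve_right a, gg_self]
  · have ho : IsOpen {p : T.Qt.cyl × T.Qt.cyl | p.1 ≠ p.2} :=
      isOpen_ne_fun continuous_fst continuous_snd
    have hc : ContinuousAt (fun p : T.Qt.cyl × T.Qt.cyl => p.1.1) (y, (T.σ y.1, y.2)) :=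
      continuous_fst.fst.continuousAt
    filter_upwards [nhdsWithin_le_nhds (ho.mem_nhds (σ_ne' hC y)),
      nhdsWithin_le_nhds (hc.eventually (ga_ev hA hT R h1.1.1 h2.1.1))] with p a b
    rw [gg_σ hC, gg, if_neg a]
    exact b

/-- the lift of the framing of the port -/
def kk (T : QtD A) (R : C.G) (K : ℝ × ℝ → C.G) (y : T.Qt) : C.G :=
  if 0 < T.s y then K (Complex.arg (wf T y), ‖wf T y‖ / 200)
  else R⁻¹ * K (Complex.arg (-wf T (T.σ y)) + π, ‖wf T (T.σ y)‖ / 200)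

theorem kk_P (hA : A.Ok) (hT : T.Ok) (R : C.G) (K : ℝ × ℝ → C.G) {m : Rn 2} {w : ℂ}
    (h : ‖w‖ < 30) : kk T R K (T.κt (m, w)) = K (Complex.arg w, ‖w‖ / 200) := by
  rw [kk, if_pos (s_κt hT h).1, wf_κt hA hT h]

theorem kk_M (hA : A.Ok) (hT : T.Ok) (R : C.G) (K : ℝ × ℝ → C.G) {m : Rn 2} {w : ℂ}
    (h : ‖w‖ < 30) :
    kk T R K (T.σ (T.κt (m, w))) = R⁻¹ * K (Complex.arg (-w) + π, ‖w‖ / 200) := by
  rw [kk, if_neg (by rw [hT.sσ]; linarith [(s_κt hT (m := m) h).1]), hT.σσ, wf_κt hA hT h]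

theorem kk_cont (hA : A.Ok) (hT : T.Ok) (R : C.G) {K : ℝ × ℝ → C.G}
    (hK : ContinuousOn K (univ ×ˢ Ioi 0)) {m : Rn 2} {w : ℂ} (h0 : 0 < ‖w‖) (h : ‖w‖ < 30) :
    (w ∈ Complex.slitPlane → ContinuousAt (kk T R K) (T.κt (m, w))) ∧
    (-w ∈ Complex.slitPlane → ContinuousAt (kk T R K) (T.σ (T.κt (m, w)))) := by
  have hw := wf_cont hA hT (m := m) h
  have ew := wf_κt hA hT (m := m) h
  have hK' : ∀ θ, ContinuousAt K (θ, ‖w‖ / 200) := fun θ =>
    hK.continuousAt ((isOpen_univ.prod isOpen_Ioi).mem_nhds ⟨trivial, div_pos h0 (by norm_num)⟩)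
  have hs := (s_κt hT (m := m) h).1
  refine ⟨fun h1 => ?_, fun h1 => ?_⟩
  · have c1 : ContinuousAt (fun y => K (Complex.arg (wf T y), ‖wf T y‖ / 200)) (T.κt (m, w)) :=
      ContinuousAt.comp (g := K) (by rw [ew]; exact hK' _)
        ((ContinuousAt.comp (g := Complex.arg) (Complex.continuousAt_arg (by rwa [ew])) hw).prodMk
          (hw.norm.div_const _))
    refine c1.congr ?_
    filter_upwards [hT.scont.continuousAt.eventually (lt_mem_nhds hs)] with y hy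
    rw [kk, if_pos hy]
  · have c0 : ContinuousAt (fun y => K (Complex.arg (-wf T y) + π, ‖wf T y‖ / 200))
        (T.σ (T.σ (T.κt (m, w)))) := by
      rw [hT.σσ]
      exact ContinuousAt.comp (g := K) (by rw [ew]; exact hK' _)
        (((ContinuousAt.comp (g := Complex.arg) (f := fun y => -wf T y)
          (Complex.continuousAt_arg (by rwa [ew])) hw.neg).add continuousAt_const).prodMk
          (hw.norm.div_const _))
    have c1 := (continuousAt_const (y := R⁻¹)).mul (c0.comp hT.σsm.cont.continuousAt)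
    refine c1.congr ?_
    have hs' : T.s (T.σ (T.κt (m, w))) < 0 := by rw [hT.sσ]; linarith
    filter_upwards [hT.scont.continuousAt.eventually (gt_mem_nhds hs')] with y hy
    rw [kk, if_neg (not_lt.2 (le_of_lt hy))]
    rfl

theorem kk_rel (hA : A.Ok) (hT : T.Ok) {R : C.G} (hR : R * R = C.ε) {K : ℝ × ℝ → C.G}
    (hK : ∀ θ r, 0 < r → K (θ + 2 * π, r) = C.ε * K (θ, r)) {m : Rn 2} {w : ℂ} (h0 : 0 < ‖w‖)
    (h : ‖w‖ < 30) (h1 : T.κt (m, w) ∈ V T) (h2 : T.σ (T.κt (m, w)) ∈ V T) :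
    ga T R (T.κt (m, w)) * kk T R K (T.σ (T.κt (m, w))) = kk T R K (T.κt (m, w)) := by
  have a1 := (memP hA hT h).1 h1
  have a2 := (memM hA hT h).1 h2
  rw [Complex.mem_slitPlane_iff] at a1 a2
  rw [Complex.neg_re, Complex.neg_im, neg_ne_zero] at a2
  have a3 : w.im ≠ 0 := fun e => by
    linarith [a1.resolve_right (not_not.2 e), a2.resolve_right (not_not.2 e)]
  rw [kk_P hA hT R K h, kk_M hA hT R K h, ga, κt_eq, an_io hT (pt_U h)]
  rcases lt_or_gt_of_ne a3 with a | a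
  · rw [if_neg fun b => a.not_gt ((pt_im hA h).1.1 b), Complex.arg_neg_eq_arg_add_pi_of_im_neg a,
      add_assoc, ← two_mul, hK _ _ (div_pos h0 (by norm_num)), ← hR]
    group
  · rw [if_pos ((pt_im hA h).1.2 a), Complex.arg_neg_eq_arg_sub_pi_of_im_pos a, sub_add_cancel,
      mul_inv_cancel_left]

end SpqP

open SpqP in
theorem spq : SpqStmt := by
  intro hE hS hR hL C A T τ ϑ Θ Q pQ hA hT hC hτ hΘ hQ hP
  obtain ⟨hW, hcl, Λ, hΛ, hLie⟩ := hL Q _ hP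
  obtain ⟨⟨R, hR1, hR2⟩, K, hK1, hK2⟩ := hR C
  have hRi : C.π R⁻¹ = E.R5 := by
    have e : C.π R⁻¹ * E.R5 = 1 := by rw [← hR1, ← map_mul, inv_mul_cancel, map_one]
    rw [← Matrix.mul_one (C.π R⁻¹), ← R5_sq, ← Matrix.mul_assoc, e, Matrix.one_mul]
  have hga : ∀ y, C.π (ga T R y) = E.R5 := fun y => by
    unfold ga
    split_ifs
    exacts [hR1, hRi]
  have hcof : Cof T.Qt.cyl 0 Θ (O T) := hΘ.cof.mono fun y hy => ⟨hy.1.2, trivial⟩
  have key := hE C _ _ Q.cyl T.Qt.cyl (fq pQ) (O T) Θ (gg T R) (Wp fun p => pQ (T.κt p)) Λ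
    (fun y => kk T R K y.1) (O_open hA hT) (fun y _ => fq_ld hQ y) hcof (gg_cont hA hT hC hQ R)
    (fun y hy y' hy' e => ?_) (fun y hy y' hy' y'' hy'' e e' => ?_) hW (Wp_sub hA hT hC hQ) hΛ
    (fun y hy => ?_) (fun y hy hw => ?_) fun y hy y' hy' e hw => ?_
  · rw [image_O hA hT hQ] at key
    obtain ⟨sp, i, h1, h2⟩ := key
    obtain ⟨sp', i', h3, h4⟩ := hS C Q _ _ sp i hcl.isOpen_compl
    exact ⟨sp', i', h3.trans h1, by rw [h4, h2]; exact hLie⟩
  · rcases fib hQ e with rfl | rfl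
    · rw [gg_self, map_one, tm_self ((hcof _ hy).2.comp (fq_ld hQ _).inv.inverse)]
    · rw [gg_σ hC, hga]
      exact (tm_σ hT hΘ hQ hy.1.2 y.2).symm
  · rcases fib hQ e with rfl | rfl
    · rw [gg_self, one_mul]
    · rcases fib hQ e' with rfl | rfl
      · rw [gg_self, mul_one]
      · rw [gg_σ hC, gg_σ hC, ga_mul hA hT R hy.1.1 hy'.1.1]
        simp only [hT.σσ]
        exact (gg_self R y).symm
  · obtain ⟨m, w, h0, h, e⟩ := port hQ hy.2
    have h1 := hy.1.1.1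
    refine (ContinuousAt.comp (g := kk T R K) ?_ continuousAt_fst).continuousWithinAt
    rcases e with e | e <;> rw [e] at h1 ⊢
    · exact (kk_cont hA hT R hK1 h0 h).1 ((memP hA hT h).1 h1)
    · exact (kk_cont hA hT R hK1 h0 h).2 ((memM hA hT h).1 h1)
  · obtain ⟨m, w, h0, h, e⟩ := port hQ hw
    obtain ⟨y, t⟩ := y
    have hr : 0 < ‖w‖ / 200 := div_pos h0 (by norm_num)
    rcases e with (rfl : y = _) | (rfl : y = _)
    · rw [(tm_port hA hT hC hτ hΘ hQ hΛ hLie h0 h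
        (Complex.norm_mul_exp_arg_mul_I w).symm t).1, kk_P hA hT R K h, (hK2 _ _ hr).1]
    · rw [(tm_port hA hT hC hτ hΘ hQ hΛ hLie h0 h (isArg_neg w) t).2, kk_M hA hT R K h, map_mul,
        hRi, (hK2 _ _ hr).1]
  · rcases fib hQ e with rfl | rfl
    · rw [gg_self, one_mul]
    · obtain ⟨m, w, h0, h, e⟩ := port hQ hw
      obtain ⟨y, t⟩ := y
      have a1 : y ∈ V T := hy.1.1
      have a2 : T.σ y ∈ V T := hy'.1.1
      rw [gg_σ hC]
      change ga T R y * kk T R K (T.σ y) = kk T R K y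
      rcases e with (rfl : y = _) | (rfl : y = _)
      · exact kk_rel hA hT hR2 (fun θ r hr => (hK2 θ r hr).2) h0 h a1 a2
      · rw [hT.σσ] at a2 ⊢
        rw [← kk_rel hA hT hR2 (fun θ r hr => (hK2 θ r hr).2) h0 h a2 a1, ← mul_assoc]
        have := ga_mul hA hT R a1 (by rwa [hT.σσ])
        rw [hT.σσ] at this
        rw [this, one_mul]

end Pool.Agent.MP_e1dc65_gt.EA

end
end MrgPart2

-- marker of a merged file
example : 731051 + 722262 = 731051 + 722262 := rfl
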