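import Pool.Agent.MP_e1dc65_gt.fm.Pd3
import Mathlib.Analysis.Real.Pi.Bounds
import Pool.Agent.MP_e1dc65_gt.k.Etale

-- ======== part 0: formerly Pool.Agent.MP_e1dc65_gt.e.Ex
section MrgPart0

/-! PROJECT HC, part E: calculus of exact forms (transfer, descent, patching, first cohomology
of a union of two acyclic sets). -/

open scoped ContDiff Manifold Topology
open Set Filter Function Module ExteriorAlgebra Pool.Agent.MP_c8d41b_gt.GF

set_option linter.unusedSectionVars false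

noncomputable section

namespace Pool.Agent.MP_e1dc65_gt.E

variable {E E' : Type} [NormedAddCommGroup E] [NormedSpace ℝ E] [FiniteDimensional ℝ E]
  [NormedAddCommGroup E'] [NormedSpace ℝ E'] [FiniteDimensional ℝ E'] {X : Mf E} {Y : Mf E'}
  {k : ℕ} {α β β' θ : X → Lam E} {U V : Set X} {f : X → Y} {a : Y → Lam E'} {W : Set Y}

theorem hz_iff : HZ X k U ↔ ∀ α, Cl X (k + 1) α U → Ex X k α U := Iff.rfl

theorem Ex.mono (h : Ex X k α U) (hV : V ⊆ U) : Ex X k α V :=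
  let ⟨β, h1, h2⟩ := h; ⟨β, h1.mono hV, fun x hx => h2 x (hV hx)⟩
theorem Ex.congr (h : Ex X k α U) (e : ∀ x ∈ U, β x = α x) : Ex X k β U :=
  let ⟨γ, h1, h2⟩ := h; ⟨γ, h1, fun x hx => (h2 x hx).trans (e x hx).symm⟩
theorem ex_zero : Ex X k (fun _ => 0) U := ⟨_, fm_zero, fun _ _ => dM_zero⟩
theorem ex_dM (h : Fm X k β U) : Ex X k (dM X β) U := ⟨β, h, fun _ _ => rfl⟩
theorem ex_dF {u : X → ℝ} (h : Sm X (vs ℝ) u U) : Ex X 0 (dF X u) U :=
  ⟨_, fm_scalar h, fun x hx => dM_scalar (h x hx)⟩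
theorem Ex.add (h : Ex X k α U) (h' : Ex X k β U) : Ex X k (fun y => α y + β y) U :=
  let ⟨_, h1, h2⟩ := h; let ⟨_, h3, h4⟩ := h'
  ⟨_, h1.add h3, fun x hx => by rw [dM_add (h1 x hx).1 (h3 x hx).1, h2 x hx, h4 x hx]⟩
theorem Ex.sub (h : Ex X k α U) (h' : Ex X k β U) : Ex X k (fun y => α y - β y) U :=
  let ⟨_, h1, h2⟩ := h; let ⟨_, h3, h4⟩ := h'
  ⟨_, h1.sub h3, fun x hx => by rw [dM_sub (h1 x hx).1 (h3 x hx).1, h2 x hx, h4 x hx]⟩
theorem Ex.neg (h : Ex X k α U) : Ex X k (fun y => -α y) U :=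
  let ⟨_, h1, h2⟩ := h; ⟨_, h1.neg, fun x hx => by rw [dM_neg, h2 x hx]⟩
theorem Ex.smul (h : Ex X k α U) (c : ℝ) : Ex X k (fun y => c • α y) U :=
  let ⟨_, h1, h2⟩ := h; ⟨_, h1.smul c, fun x hx => by rw [dM_smul c (h1 x hx).1, h2 x hx]⟩
theorem Ex.cl (h : Ex X k α U) (hU : IsOpen U) : Cl X (k + 1) α U :=
  let ⟨_, h1, h2⟩ := h; (h1.dM hU).congr hU fun x hx => (h2 x hx).symm
theorem cl_smul (h : Cl X k α U) (c : ℝ) : Cl X k (fun y => c • α y) U :=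
  ⟨h.1.smul c, fun x hx => by rw [dM_smul c (h.1 x hx).1, h.2 x hx, smul_zero]⟩
theorem cl_neg (h : Cl X k α U) : Cl X k (fun y => -α y) U :=
  ⟨h.1.neg, fun x hx => by rw [dM_neg, h.2 x hx, neg_zero]⟩

/-! ### Transfer -/

theorem Ex.pb (h : Ex Y k a W) (hf : Sm X Y f U) (m : MapsTo f U W) : Ex X k (pbM X Y f a) U :=
  let ⟨_, h1, h2⟩ := h
  ⟨_, h1.pb hf m, fun x hx => by
    rw [dM_pb (hf x hx) (h1 _ (m hx)).1, pbM_congr_right (h2 _ (m hx))]⟩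

theorem pbM_inj {b : Y → Lam E'} {x : X} (hf : LDAt X Y f x)
    (e : pbM X Y f a x = pbM X Y f b x) : a (f x) = b (f x) := mp_injective hf.inv e

theorem fm_of_pb (hf : ∀ x ∈ U, LDAt X Y f x) (h : Fm X k (pbM X Y f a) U) :
    Fm Y k a (f '' U) := by
  rintro _ ⟨x, hx, rfl⟩
  refine ⟨(hf x hx).fmAt_of_pb (h x hx).1, ?_⟩
  have := dg_mp (Df X Y f x).inverse (h x hx).2
  rwa [pbM, ← mp_comp, (hf x hx).inv.self_comp_inverse, mp_id] at this

theorem cl_of_pb (hf : ∀ x ∈ U, LDAt X Y f x) (h : Cl X k (pbM X Y f a) U) :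
    Cl Y k a (f '' U) := by
  refine ⟨fm_of_pb hf h.1, ?_⟩
  rintro _ ⟨x, hx, rfl⟩
  refine pbM_inj (b := fun _ => 0) (hf x hx) ?_
  rw [← dM_pb (hf x hx).sm ((hf x hx).fmAt_of_pb (h.1 x hx).1), h.2 x hx, pbM_zero rfl]

/-- a primitive upstairs which is itself a pull-back gives a primitive downstairs -/
theorem ex_of_pb {b : Y → Lam E'} (hU : IsOpen U) (hf : ∀ x ∈ U, LDAt X Y f x) (h1 : Fm X k β U)
    (h2 : ∀ x ∈ U, dM X β x = pbM X Y f a x) (h3 : ∀ x ∈ U, pbM X Y f b x = β x) :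
    Ex Y k a (f '' U) := by
  have h4 := fm_of_pb hf (h1.congr hU h3)
  refine ⟨b, h4, ?_⟩
  rintro _ ⟨x, hx, rfl⟩
  refine pbM_inj (hf x hx) ?_
  rw [← dM_pb (hf x hx).sm (h4 _ (mem_image_of_mem f hx)).1, ← h2 x hx]
  exact dM_congr (mem_of_superset (hU.mem_nhds hx) h3)

theorem oe_ex (h : OE X Y f U) (hV : IsOpen V) (hs : V ⊆ U) (ha : Ex X k (pbM X Y f a) V) :
    Ex Y k a (f '' V) :=
  let ⟨β, h1, h2⟩ := ha
  ex_of_pb (b := psh X Y f U β) hV (fun x hx => h.ld x (hs hx)) h1 h2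
    fun _ hx => h.pbM_psh (hs hx)

theorem oe_ex_iff (h : OE X Y f U) : Ex Y k a (f '' U) ↔ Ex X k (pbM X Y f a) U :=
  ⟨fun e => e.pb h.sm (mapsTo_image f U), oe_ex h h.op subset_rfl⟩

theorem oe_cl_iff (h : OE X Y f U) : Cl Y k a (f '' U) ↔ Cl X k (pbM X Y f a) U :=
  ⟨fun e => e.pb h.sm (mapsTo_image f U), cl_of_pb h.ld⟩

theorem oe_hz_iff (h : OE X Y f U) : HZ Y k (f '' U) ↔ HZ X k U := ⟨h.hz_of_image, h.hz_image⟩

theorem oe_cl_psh (h : OE X Y f U) (hα : Cl X k α U) : Cl Y k (psh X Y f U α) (f '' U) :=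
  cl_of_pb h.ld (hα.congr h.op fun _ hx => h.pbM_psh hx)

/-! ### Descent -/

/-- `θ` is invariant under local deck transformations of `f` on `U` -/
def DInv (X : Mf E) (f : X → Y) (θ : X → Lam E) (U : Set X) : Prop :=
  ∀ x ∈ U, ∀ x' ∈ U, f x = f x' → ∃ g : X → X, SmAt X X g x ∧ g x = x' ∧
    (∀ᶠ y in 𝓝 x, f (g y) = f y) ∧ pbM X X g θ x = θ x

theorem descend (hf : ∀ x ∈ U, LDAt X Y f x) (h : DInv X f θ U) :
    ∃ a : Y → Lam E', ∀ x ∈ U, pbM X Y f a x = θ x := by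
  classical
  refine ⟨fun y => if c : ∃ x ∈ U, f x = y then mp (Df X Y f c.choose).inverse (θ c.choose) else 0,
    fun x hx => ?_⟩
  have c : ∃ x' ∈ U, f x' = f x := ⟨x, hx, rfl⟩
  obtain ⟨g, g1, g2, g3, g4⟩ := h x hx _ c.choose_spec.1 c.choose_spec.2.symm
  have l := hf _ c.choose_spec.1
  rw [← pbM_congr (f := fun y => f (g y)) g3, pbM_comp g1 (g2.symm ▸ l.sm), ← g4]
  refine pbM_congr_right ?_
  rw [g2, pbM]
  simp only [c.choose_spec.2, dif_pos c]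
  rw [← mp_comp, l.inv.inverse_comp_self, mp_id]

theorem descend_fm (hU : IsOpen U) (hf : ∀ x ∈ U, LDAt X Y f x) (h : DInv X f θ U)
    (hθ : Fm X k θ U) : ∃ a, Fm Y k a (f '' U) ∧ ∀ x ∈ U, pbM X Y f a x = θ x :=
  let ⟨a, ha⟩ := descend hf h; ⟨a, fm_of_pb hf (hθ.congr hU ha), ha⟩

theorem descend_cl (hU : IsOpen U) (hf : ∀ x ∈ U, LDAt X Y f x) (h : DInv X f θ U)
    (hθ : Cl X k θ U) : ∃ a, Cl Y k a (f '' U) ∧ ∀ x ∈ U, pbM X Y f a x = θ x :=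
  let ⟨a, ha⟩ := descend hf h; ⟨a, cl_of_pb hf (hθ.congr hU ha), ha⟩

/-- an invariant primitive descends -/
theorem descend_ex (hU : IsOpen U) (hf : ∀ x ∈ U, LDAt X Y f x) (h : DInv X f β U)
    (h1 : Fm X k β U) (h2 : ∀ x ∈ U, dM X β x = pbM X Y f a x) : Ex Y k a (f '' U) :=
  let ⟨_, hb⟩ := descend hf h; ex_of_pb hU hf h1 h2 hb

/-- a primitive function that is constant on the fibres descends -/
theorem descend_fun {u : X → ℝ} (hU : IsOpen U) (hf : ∀ x ∈ U, LDAt X Y f x)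
    (hu : Sm X (vs ℝ) u U) (h : ∀ x ∈ U, ∀ x' ∈ U, f x = f x' → u x = u x')
    (h2 : ∀ x ∈ U, dF X u x = pbM X Y f a x) : Ex Y 0 a (f '' U) :=
  ex_of_pb (b := fun y => algebraMap ℝ _ (u (invFunOn f U y))) hU hf (fm_scalar hu)
    (fun x hx => (dM_scalar (hu x hx)).trans (h2 x hx)) fun x hx => by
      rw [pbM_scalar, h _ (invFunOn_mem ⟨x, hx, rfl⟩) x hx (invFunOn_eq ⟨x, hx, rfl⟩)]

/-! ### Patching -/

theorem patch (hU : IsOpen U) (hV : IsOpen V) (b1 : Fm X (k + 1) β U) (b1' : Fm X (k + 1) β' V)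
    (b2 : ∀ x ∈ U, dM X β x = α x) (b2' : ∀ x ∈ V, dM X β' x = α x)
    (h : Ex X k (fun y => β y - β' y) (U ∩ V)) : Ex X (k + 1) α (U ∪ V) := by
  obtain ⟨γ, g1, g2⟩ := h
  obtain ⟨ρ, r1, -, r3, -, r5⟩ := (bumpM E X).2 Bool (fun b => cond b U V) (U ∪ V) (hU.union hV)
    (by rintro (_ | _) <;> assumption)
    (by rintro x (h | h); exacts [⟨true, h⟩, ⟨false, h⟩])
  have c1 : Fm X k (fun y => ρ false y • γ y) U :=
    Hzb.cut ((r1 false).mono subset_union_left) g1 fun x hx hv => r3 false x (Or.inl hx) hv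
  have c2 : Fm X k (fun y => ρ true y • γ y) V :=
    Hzb.cut ((r1 true).mono subset_union_right) (inter_comm U V ▸ g1)
      fun x hx hv => r3 true x (Or.inr hx) hv
  refine Hzb.glue2 (β := fun y => β y - dM X (fun y => ρ false y • γ y) y)
    (β' := fun y => β' y + dM X (fun y => ρ true y • γ y) y) hU hV (b1.sub (c1.dM hU).1)
    (b1'.add (c2.dM hV).1) (fun x hx => ?_) (fun x hx => ?_) fun x hx hx' => ?_
  · rw [dM_sub (b1 x hx).1 (c1 x hx).1.dM, dM_dM (c1 x hx).1, sub_zero, b2 x hx]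
  · rw [dM_add (b1' x hx).1 (c2 x hx).1.dM, dM_dM (c2 x hx).1, add_zero, b2' x hx]
  · have e : γ =ᶠ[𝓝 x] fun y => ρ true y • γ y + ρ false y • γ y := by
      filter_upwards [hU.mem_nhds hx] with y hy
      have := r5 y (Or.inl hy)
      rw [finsum_eq_sum_of_fintype, Fintype.sum_bool] at this
      rw [← add_smul, this, one_smul]
    have := g2 x ⟨hx, hx'⟩
    rw [dM_congr e, dM_add (c2 x hx').1 (c1 x hx).1] at this
    rw [sub_eq_iff_eq_add, add_assoc, this, add_sub_cancel]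

/-- patching when the overlap is acyclic -/
theorem patch_hz (hU : IsOpen U) (hV : IsOpen V) (h1 : Ex X (k + 1) α U) (h2 : Ex X (k + 1) α V)
    (h : HZ X k (U ∩ V)) : Ex X (k + 1) α (U ∪ V) :=
  let ⟨_, b1, b2⟩ := h1; let ⟨_, b1', b2'⟩ := h2
  patch hU hV b1 b1' b2 b2' (h _ (Hzb.cl_sub b1 b1' b2 b2'))

theorem ex_iUnion {I : Type} {U : I → Set X} (hU : ∀ i, IsOpen (U i))
    (hd : Pairwise fun i j => Disjoint (U i) (U j)) (h : ∀ i, Ex X k α (U i)) :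
    Ex X k α (⋃ i, U i) := by
  choose β b1 b2 using h
  refine Hzb.glue hU b1 b2 fun i j x hi hj => ?_
  by_cases e : i = j
  · rw [e]
  · exact (disjoint_left.1 (hd e) hi hj).elim

theorem ex_union (hU : IsOpen U) (hV : IsOpen V) (hd : Disjoint U V) (h1 : Ex X k α U)
    (h2 : Ex X k α V) : Ex X k α (U ∪ V) :=
  let ⟨_, b1, b2⟩ := h1; let ⟨_, b1', b2'⟩ := h2
  Hzb.glue2 hU hV b1 b1' b2 b2' fun _ hx hx' => (disjoint_left.1 hd hx hx').elim

/-- a closed form of degree zero is constant on preconnected sets -/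
theorem cl0_const {A : Set X} (hU : IsOpen U) (h : Cl X 0 β U) (hA : IsPreconnected A)
    (hs : A ⊆ U) : ∃ c : ℝ, ∀ x ∈ A, β x = algebraMap ℝ _ c := by
  rcases A.eq_empty_or_nonempty with rfl | ⟨x, hx⟩
  · exact ⟨0, by simp⟩
  refine ⟨algebraMapInv (β x), fun y hy => (Hzb.scal (h.1 y (hs hy)).2).trans (congrArg _ ?_)⟩
  refine hA.induction₂ (fun y x => algebraMapInv (β y) = algebraMapInv (β x))
    (fun z hz => ?_) (fun a b c _ _ _ h h' => h.trans h') (fun a b _ _ h => h.symm) hy hx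
  exact mem_nhdsWithin_of_mem_nhds ((Hzb.lc hU h (hs hz)).mono fun w hw => hw.symm)

/-- primitives of degree zero whose difference is constant on the overlap -/
theorem patch_const {c : ℝ} (hU : IsOpen U) (hV : IsOpen V) (b1 : Fm X 0 β U) (b1' : Fm X 0 β' V)
    (b2 : ∀ x ∈ U, dM X β x = α x) (b2' : ∀ x ∈ V, dM X β' x = α x)
    (h : ∀ x ∈ U ∩ V, β x - β' x = algebraMap ℝ _ c) : Ex X 0 α (U ∪ V) := by
  obtain ⟨a1, a2⟩ := Hzb.add_lc (c := fun _ => c) b1' b2'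
    fun _ _ => Eventually.of_forall fun _ => rfl
  refine Hzb.glue2 hU hV b1 a1 b2 a2 fun x hx hx' => ?_
  rw [← h x ⟨hx, hx'⟩, add_sub_cancel]

theorem patch0 (hU : IsOpen U) (hV : IsOpen V) (h1 : Ex X 0 α U) (h2 : Ex X 0 α V)
    (h : IsPreconnected (U ∩ V)) : Ex X 0 α (U ∪ V) :=
  let ⟨_, b1, b2⟩ := h1; let ⟨_, b1', b2'⟩ := h2
  let ⟨_, hc⟩ := cl0_const (hU.inter hV) (Hzb.cl_sub b1 b1' b2 b2') h subset_rfl
  patch_const hU hV b1 b1' b2 b2' hc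

/-- the first cohomology of a union of two acyclic sets whose overlap has two pieces -/
theorem h1line {A B : Set X} (hU : IsOpen U) (hV : IsOpen V) (h1 : HZ X 0 U) (h2 : HZ X 0 V)
    (hA : IsPreconnected A) (hB : IsPreconnected B) (e : U ∩ V = A ∪ B)
    (hθ : Cl X 1 θ (U ∪ V)) (hn : ¬ Ex X 0 θ (U ∪ V)) (hα : Cl X 1 α (U ∪ V)) :
    ∃ c : ℝ, Ex X 0 (fun x => α x - c • θ x) (U ∪ V) := by
  have key : ∀ γ, Cl X 1 γ (U ∪ V) → ∃ (β β' : X → Lam E) (a b : ℝ), Fm X 0 β U ∧ Fm X 0 β' V ∧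
      (∀ x ∈ U, dM X β x = γ x) ∧ (∀ x ∈ V, dM X β' x = γ x) ∧
      (∀ x ∈ A, β x - β' x = algebraMap ℝ _ a) ∧ ∀ x ∈ B, β x - β' x = algebraMap ℝ _ b := by
    intro γ hγ
    obtain ⟨β, b1, b2⟩ := h1 γ (hγ.mono subset_union_left)
    obtain ⟨β', b1', b2'⟩ := h2 γ (hγ.mono subset_union_right)
    have hc := Hzb.cl_sub b1 b1' b2 b2'
    obtain ⟨a, ha⟩ := cl0_const (hU.inter hV) hc hA (e ▸ subset_union_left)
    obtain ⟨b, hb⟩ := cl0_const (hU.inter hV) hc hB (e ▸ subset_union_right)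
    exact ⟨β, β', a, b, b1, b1', b2, b2', ha, hb⟩
  obtain ⟨β, β', a, b, b1, b1', b2, b2', ha, hb⟩ := key α hα
  obtain ⟨η, η', p, q, c1, c1', c2, c2', hp, hq⟩ := key θ hθ
  have hpq : p - q ≠ 0 := fun h0 => hn (patch_const (c := p) hU hV c1 c1' c2 c2' fun x hx =>
    (e ▸ hx : x ∈ A ∪ B).elim (hp x) fun h => sub_eq_zero.1 h0 ▸ hq x h)
  obtain ⟨c, hc⟩ : ∃ c, a - c * p = b - c * q := ⟨(a - b) / (p - q), by field_simp; ring⟩
  refine ⟨c, patch_const (c := a - c * p) hU hV (b1.sub (c1.smul c)) (b1'.sub (c1'.smul c))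
    (fun x hx => ?_) (fun x hx => ?_) fun x hx => ?_⟩
  · rw [dM_sub (b1 x hx).1 ((c1 x hx).1.smul c), dM_smul c (c1 x hx).1, b2 x hx, c2 x hx]
  · rw [dM_sub (b1' x hx).1 ((c1' x hx).1.smul c), dM_smul c (c1' x hx).1, b2' x hx, c2' x hx]
  · rw [sub_sub_sub_comm, ← smul_sub]
    rcases (e ▸ hx : x ∈ A ∪ B) with h | h
    · rw [ha x h, hp x h, map_sub, map_mul, Algebra.smul_def]
    · rw [hc, hb x h, hq x h, map_sub, map_mul, Algebra.smul_def]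

/-- a form whose pull-back has a primitive that is not constant on a fibre is not exact -/
theorem nonex {u : X → ℝ} {x x' : X} (hU : IsOpen U) (hc : IsPreconnected U) (hf : Sm X Y f U)
    (m : MapsTo f U W) (hu : Sm X (vs ℝ) u U) (h : ∀ y ∈ U, pbM X Y f a y = dF X u y)
    (hx : x ∈ U) (hx' : x' ∈ U) (e : f x = f x') (hne : u x ≠ u x') : ¬ Ex Y 0 a W := by
  rintro ⟨b, b1, b2⟩
  have h1 := b1.pb hf m
  obtain ⟨c, hc⟩ := cl0_const (β := fun y => pbM X Y f b y - algebraMap ℝ _ (u y)) hU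
    ⟨h1.sub (fm_scalar hu), fun y hy => by
      rw [dM_sub (h1 y hy).1 (fmAt_scalar (hu y hy)), dM_scalar (hu y hy),
        dM_pb (hf y hy) (b1 _ (m hy)).1, pbM_congr_right (b2 _ (m hy)), h y hy, sub_self]⟩
    hc subset_rfl
  have h2 := congrArg algebraMapInv ((hc x hx).trans (hc x' hx').symm)
  simp only [map_sub, pbM, algebraMapInv_mp, AlgHom.commutes, Algebra.algebraMap_self,
    RingHom.id_apply, e] at h2
  exact hne (sub_right_injective h2)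

end Pool.Agent.MP_e1dc65_gt.E

end
end MrgPart0

-- ======== part 1: formerly Pool.Agent.MP_e1dc65_gt.e.aH2l
section MrgPart1

/-! PROJECT HC, part E-A, row H2L: the second cohomology of the middle slab of `Q` vanishes. -/

open scoped ContDiff Manifold Topology Matrix Real
open Set Filter Function Module Pool.Agent.MP_c8d41b_gt.GF

set_option linter.unusedSectionVars false

noncomputable section

namespace Pool.Agent.MP_e1dc65_gt.EA

namespace H2lP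

section
variable {E E' : Type} [NormedAddCommGroup E] [NormedSpace ℝ E] [FiniteDimensional ℝ E]
  [NormedAddCommGroup E'] [NormedSpace ℝ E'] [FiniteDimensional ℝ E'] {X : Mf E} {Y : Mf E'}
  {f : X → Y} {g : X → X} {θ : X → Lam E} {x x' : X} {U : Set X}

/-- a local deck transformation from `x` to `x'` that preserves `θ` -/
def Dk (X : Mf E) (f : X → Y) (θ : X → Lam E) (x x' : X) : Prop :=
  ∃ g : X → X, SmAt X X g x ∧ g x = x' ∧ (∀ᶠ y in 𝓝 x, f (g y) = f y) ∧ pbM X X g θ x = θ x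

theorem pb_deck (hg : SmAt X X g x) (hf : SmAt X Y f (g x)) (e : ∀ᶠ y in 𝓝 x, f (g y) = f y)
    (a : Y → Lam E') : pbM X X g (pbM X Y f a) x = pbM X Y f a x := by
  rw [← pbM_comp hg hf]; exact pbM_congr e a

theorem Dk.eq (h : Dk X f θ x x') (l : LDAt X Y f x) (l' : LDAt X Y f x') :
    mp (Df X Y f x).inverse (θ x) = mp (Df X Y f x').inverse (θ x') := by
  obtain ⟨g, g1, rfl, g3, g4⟩ := h
  refine mp_injective l.inv ?_
  have e : Df X Y f x = (Df X Y f (g x)).comp (Df X X g x) := by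
    rw [← Df_comp g1 l'.sm]; exact (Df_congr g3).symm
  rw [← mp_comp, ← mp_comp, l.inv.inverse_comp_self, mp_id, e, ← ContinuousLinearMap.comp_assoc,
    l'.inv.inverse_comp_self, ContinuousLinearMap.id_comp]
  exact g4.symm

theorem desc (hf : ∀ x ∈ U, LDAt X Y f x)
    (h : ∀ x ∈ U, ∀ x' ∈ U, f x = f x' → Dk X f θ x x' ∨ Dk X f θ x' x) :
    ∃ a : Y → Lam E', ∀ x ∈ U, pbM X Y f a x = θ x := by
  refine ⟨fun y => mp (Df X Y f (invFunOn f U y)).inverse (θ (invFunOn f U y)), fun x hx => ?_⟩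
  have h1 : invFunOn f U (f x) ∈ U := invFunOn_mem ⟨x, hx, rfl⟩
  have h2 : f (invFunOn f U (f x)) = f x := invFunOn_eq ⟨x, hx, rfl⟩
  have e := (h _ h1 x hx h2).elim (fun d => d.eq (hf _ h1) (hf x hx))
    fun d => (d.eq (hf x hx) (hf _ h1)).symm
  rw [pbM, e, ← mp_comp, (hf x hx).inv.inverse_comp_self, mp_id]

end

theorem op4 (a b : ℝ) : IsOpen (W4 a b) :=
  have h : Continuous fun p : Rn 3 × ℝ => p.1 2 := by fun_prop
  (isOpen_lt continuous_const h).inter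
    ((isOpen_lt h continuous_const).inter (isOpen_lt continuous_snd.abs continuous_const))

theorem tr_eq (m n : ℤ) : tr m n = fun p => p + (![2 * π * m, 2 * π * n, 0], 0) :=
  funext fun _ => Prod.ext rfl (add_zero _).symm

theorem tr_sm (m n : ℤ) (p : Rn 3 × ℝ) : SmAt (vs (Rn 3 × ℝ)) (vs (Rn 3 × ℝ)) (tr m n) p := by
  rw [tr_eq]; exact smAt_vs.2 (contDiffAt_id.add contDiffAt_const)

theorem pb_tr (m n : ℤ) (β : Rn 3 × ℝ → Lam (Rn 3 × ℝ)) (p : Rn 3 × ℝ) :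
    pbM (vs (Rn 3 × ℝ)) (vs (Rn 3 × ℝ)) (tr m n) β p = β (tr m n p) := by
  have h : fderiv ℝ (tr m n) p = ContinuousLinearMap.id ℝ _ := by
    rw [tr_eq]; exact ((hasFDerivAt_id p).add_const _).fderiv
  rw [pbM, Df_vs, h, mp_id]

theorem tr_two (m n : ℤ) (p : Rn 3 × ℝ) : (tr m n p).1 2 = p.1 2 := add_zero _

theorem tr_mem {a b : ℝ} {p : Rn 3 × ℝ} (m n : ℤ) (h : p ∈ W4 a b) : tr m n p ∈ W4 a b := by
  refine ⟨?_, ?_, h.2.2⟩ <;> rw [tr_two]
  exacts [h.1, h.2.1]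

theorem tr_lat (m n : ℤ) (p : Rn 3 × ℝ) : Lat (tr m n p).1 p.1 := fun i => by
  fin_cases i
  · exact ⟨m, add_sub_cancel_left _ _⟩
  · exact ⟨n, add_sub_cancel_left _ _⟩
  · exact ⟨0, (add_sub_cancel_left _ _).trans (by simp)⟩

theorem lat_tr {p p' : Rn 3 × ℝ} (h : Lat p'.1 p.1) (h2 : |p'.1 2 - p.1 2| < 2 * π)
    (hs : p'.2 = p.2) : ∃ m n, tr m n p = p' := by
  obtain ⟨m, hm⟩ := h 0
  obtain ⟨n, hn⟩ := h 1
  obtain ⟨k, hk⟩ := h 2
  have hπ : 0 < 2 * π := by positivity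
  rw [hk, abs_mul, abs_of_pos hπ, mul_lt_iff_lt_one_right hπ] at h2
  have h0 : k = 0 := Int.abs_lt_one_iff.1 (by exact_mod_cast h2)
  rw [h0] at hk
  refine ⟨m, n, Prod.ext (funext fun i => ?_) hs.symm⟩
  fin_cases i
  · exact (eq_add_of_sub_eq' hm).symm
  · exact (eq_add_of_sub_eq' hn).symm
  · exact (eq_add_of_sub_eq' (hk.trans (by simp))).symm

theorem t4_sm {St : ℝ → ℝ} (h : ContDiff ℝ ∞ St) (p : Rn 3 × ℝ) :
    SmAt (vs (Rn 3 × ℝ)) (vs (Rn 3 × ℝ)) (T4 St) p := by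
  refine smAt_vs.2 (ContDiff.contDiffAt (ContDiff.prodMk (contDiff_pi.2 fun i => ?_)
    contDiff_snd.neg))
  fin_cases i <;> simp [Tm] <;> fun_prop

theorem t4_two (St : ℝ → ℝ) (p : Rn 3 × ℝ) : (T4 St p).1 2 = p.1 2 + π := rfl

theorem ld_vp (p : Rn 3 × ℝ) : LDAt (vs (Rn 3 × ℝ)) (vs (Rn 3)).cyl (fun p => p) p :=
  ldAt_of_inv (g := fun p => p) isOpen_univ isOpen_univ trivial (fun _ _ => smAt_vs_prod)
    (fun _ _ => smAt_prod_vs) (mapsTo_univ _ _) (mapsTo_univ _ _) (fun _ _ => rfl) fun _ _ => rfl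

end H2lP

open H2lP in
theorem h2l : H2lStmt := by
  intro hW A T St Φ Q pQ hA hT hS hQ a ha
  have hπ := Real.pi_gt_three
  have hU : ∀ (x : A.X) (s : ℝ), |s| < 1 / 2 → ((x, s) : A.X.cyl) ∈ A.U :=
    fun x s hs _ => hs.trans (by norm_num)
  have hσ : ∀ (x : A.X) (s : ℝ), |s| < 1 / 2 → pQ (T.io (A.σ x, -s)) = pQ (T.io (x, s)) :=
    fun x s hs => ((hQ.peq _ _).2 (Or.inr (hT.σi _ (hU x s hs)).symm)).symm
  set f : Rn 3 × ℝ → Q := fun p => pQ (T.io (Φ p.1, p.2)) with hf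
  have hsl : ∀ p ∈ W4 (-(π / 2)) (3 * π / 2), p.1 ∈ Slab := fun p hp => ⟨hp.1, hp.2.1⟩
  have hld : ∀ p ∈ W4 (-(π / 2)) (3 * π / 2), LDAt (vs (Rn 3 × ℝ)) Q f p := fun p hp =>
    (((ld_vp p).trans ((hS.ld _ (hsl p hp)).prodMap (ldAt_id (X := vs ℝ) (x := p.2)))).trans
      (hT.oi.ld _ (hU _ _ hp.2.2))).trans (hQ.pld _)
  have hmem : ∀ p : Rn 3 × ℝ, |p.2| < 1 / 2 →
      f p ∈ (fun p => pQ (T.io p)) '' (univ ×ˢ Ioo (-(1 / 2)) (1 / 2)) :=
    fun p hp => ⟨(Φ p.1, p.2), ⟨trivial, abs_lt.1 hp⟩, rfl⟩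
  have htr : ∀ m n, ∀ p ∈ W4 (-(π / 2)) (3 * π / 2), f (tr m n p) = f p := fun m n p hp => by
    simp only [hf]
    rw [(hS.eq _ (hsl _ (tr_mem m n hp)) _ (hsl p hp)).2 (tr_lat m n p)]
    rfl
  have hT4 : ∀ p ∈ W4 (-(π / 2)) (π / 2), T4 St p ∈ W4 (-(π / 2)) (3 * π / 2) := fun p hp => by
    refine ⟨?_, ?_, by simpa [T4] using hp.2.2⟩ <;> rw [t4_two] <;> linarith [hp.1, hp.2.1]
  have hsub : W4 (-(π / 2)) (π / 2) ⊆ W4 (-(π / 2)) (3 * π / 2) := fun p hp =>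
    ⟨hp.1, by linarith [hp.2.1], hp.2.2⟩
  have hfT : ∀ p ∈ W4 (-(π / 2)) (π / 2), f (T4 St p) = f p := fun p hp => by
    show pQ (T.io (Φ (Tm St p.1), -p.2)) = pQ (T.io (Φ p.1, p.2))
    rw [← hS.σΦ _ (hsl p (hsub hp)) hp.2.1]
    exact hσ _ _ hp.2.2
  obtain ⟨β, b1, b2, b3⟩ := hW St (pbM (vs (Rn 3 × ℝ)) Q f a) hS.sm hS.per
    (ha.pb (fun p hp => (hld p hp).sm) fun p hp => hmem p hp.2.2)
    (fun m n p hp => (pb_tr m n _ p).symm.trans (pb_deck (tr_sm m n p) (hld _ (tr_mem m n hp)).sm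
      (mem_of_superset ((op4 _ _).mem_nhds hp) (htr m n)) a))
    (fun p hp => by
      rw [← pbM_vs]
      exact pb_deck (t4_sm hS.sm p) (hld _ (hT4 p hp)).sm
        (mem_of_superset ((op4 _ _).mem_nhds hp) hfT) a)
  have hW' : W4 (-(1 / 2)) (π + 1 / 2) ⊆ W4 (-(π / 2)) (3 * π / 2) := fun p hp =>
    ⟨by linarith [hp.1], by linarith [hp.2.1], hp.2.2⟩
  have key : ∀ p ∈ W4 (-(1 / 2)) (π + 1 / 2), ∀ p' ∈ W4 (-(1 / 2)) (π + 1 / 2),
      Φ p'.1 = A.σ (Φ p.1) → p'.2 = -p.2 → p'.1 2 = p.1 2 + π →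
      Dk (vs (Rn 3 × ℝ)) f β p p' := fun p hp p' hp' e1 e2 e3 => by
    have h1 : p ∈ W4 (-(1 / 2)) (1 / 2) := ⟨hp.1, by linarith [hp'.2.1], hp.2.2⟩
    have h2 : p ∈ W4 (-(π / 2)) (π / 2) := ⟨(hW' hp).1, by linarith [h1.2.1], hp.2.2⟩
    have h3 : T4 St p ∈ W4 (-(1 / 2)) (π + 1 / 2) :=
      ⟨by rw [t4_two, ← e3]; exact hp'.1, by rw [t4_two, ← e3]; exact hp'.2.1, (hT4 p h2).2.2⟩
    rw [hS.σΦ _ (hsl p (hW' hp)) h2.2.1] at e1
    obtain ⟨m, n, e⟩ := lat_tr (p := T4 St p) (p' := p')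
      ((hS.eq _ (hsl _ (hW' hp')) _ (hsl _ (hW' h3))).1 e1)
      (by rw [t4_two, e3, sub_self, abs_zero]; positivity) e2
    refine ⟨fun y => tr m n (T4 St y), (t4_sm hS.sm p).trans (tr_sm m n _), e,
      mem_of_superset ((op4 _ _).mem_nhds h2) fun y hy => (htr m n _ (hT4 y hy)).trans (hfT y hy),
      ?_⟩
    rw [pbM_comp (t4_sm hS.sm p) (tr_sm m n _), ← b3 p h1, ← pbM_vs]
    exact pbM_congr_right ((pb_tr m n β _).trans ((b2 _ h3).2 m n))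
  obtain ⟨b, hb⟩ := desc (X := vs (Rn 3 × ℝ)) (f := f) (θ := β) (fun p hp => hld p (hW' hp))
    fun p hp p' hp' e => by
      have hd : |p'.1 2 - p.1 2| < π + 1 := by
        rw [abs_lt]; constructor <;> linarith [hp.1, hp.2.1, hp'.1, hp'.2.1]
      rcases (hQ.peq _ _).1 e with e | e
      · have e' := hT.oi.inj (hU _ _ hp'.2.2) (hU _ _ hp.2.2) e
        obtain ⟨m, n, rfl⟩ := lat_tr (p := p) (p' := p')
          ((hS.eq _ (hsl _ (hW' hp')) _ (hsl _ (hW' hp))).1 (congrArg Prod.fst e'))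
          (by linarith) (Prod.mk.inj e').2
        exact Or.inl ⟨tr m n, tr_sm m n p, rfl,
          mem_of_superset ((op4 _ _).mem_nhds (hW' hp)) (htr m n),
          (pb_tr m n β p).trans ((b2 p hp).2 m n)⟩
      · rw [hT.σi _ (hU _ _ hp.2.2)] at e
        have e' := hT.oi.inj (hU _ _ hp'.2.2) (hT.σU _ (hU _ _ hp.2.2)) e
        have e1 : Φ p'.1 = A.σ (Φ p.1) := congrArg Prod.fst e'
        have e2 : p'.2 = -p.2 := congrArg Prod.snd e'
        have e3 := congrArg A.ang e1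
        rw [hA.angσ, hS.ang _ (hsl _ (hW' hp')), hS.ang _ (hsl _ (hW' hp)),
          ← Complex.exp_add_pi_mul_I, Complex.exp_eq_exp_iff_exists_int] at e3
        obtain ⟨k, hk⟩ := e3
        have e4 := congrArg Complex.im hk
        simp at e4
        rw [abs_lt] at hd
        have k1 : (-2 : ℝ) < k := by nlinarith [hd.1]
        have k2 : (k : ℝ) < 1 := by nlinarith [hd.2]
        have k3 : (-2 : ℤ) < k := by exact_mod_cast k1
        have k4 : k < 1 := by exact_mod_cast k2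
        interval_cases k
        · refine Or.inr (key p' hp' p hp (by rw [e1, hA.σσ]) (by rw [e2, neg_neg]) ?_)
          push_cast at e4; linarith
        · refine Or.inl (key p hp p' hp' e1 e2 ?_)
          push_cast at e4; linarith
  have hex := E.ex_of_pb (op4 _ _) (fun p hp => hld p (hW' hp)) b1
    (fun p hp => by rw [dM_vs]; exact (b2 p hp).1) hb
  refine hex.mono ?_
  rintro _ ⟨⟨x, s⟩, ⟨-, hs⟩, rfl⟩
  have hs' : |s| < 1 / 2 := abs_lt.2 hs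
  obtain ⟨z, z1, z2, rfl | rfl⟩ := hS.cov x
  · exact ⟨(z, s), ⟨by linarith, by linarith, hs'⟩, rfl⟩
  · refine ⟨(z, -s), ⟨by linarith, by linarith, by rwa [abs_neg]⟩, ?_⟩
    have := hσ (Φ z) (-s) (by rwa [abs_neg])
    rw [neg_neg] at this
    exact this.symm

end Pool.Agent.MP_e1dc65_gt.EA

end
end MrgPart1

-- marker of a merged file
example : 731051 + 894793 = 731051 + 894793 := rfl
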