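import Mathlib.Analysis.SpecialFunctions.Log.Deriv
import Pool.Agent.MP_e1dc65_gt.fm.Pd3
import Pool.Agent.MP_e1dc65_gt.k.Std
import Pool.Agent.MP_e1dc65_gt.k.Bump
import Pool.Agent.MP_e1dc65_gt.e.aLie
import Mathlib.LinearAlgebra.Complex.FiniteDimensional
import Pool.Agent.MP_e1dc65_gt.s.Lift
import Pool.Agent.MP_e1dc65_gt.t.Core
import Pool.Agent.MP_e1dc65_gt.o.Flat
import Pool.Agent.MP_e1dc65_gt.t4.MidA

-- ======== part 0: formerly Pool.Agent.MP_e1dc65_gt.e.Ori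
section MrgPart0

-- ======== part 0: formerly Pool.Agent.MP_e1dc65_gt.e.bBase
section MrgPart0

/-! PROJECT HC, part E, sub-part B: the sphere and the group actions. -/

open scoped ContDiff Manifold Topology Matrix Real
open Set Filter Function Module

set_option linter.unusedSimpArgs false

noncomputable section

namespace Pool.Agent.MP_e1dc65_gt.E

/-! ### Signs and the actions on the plane -/

@[simp] theorem sg_one : sg 1 = 1 := by simp [sg]
@[simp] theorem sg_neg (u : ℤˣ) : sg (-u) = -sg u := by simp [sg]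
theorem sg_mul (u v : ℤˣ) : sg (u * v) = sg u * sg v := by simp [sg]
theorem sg_or (u : ℤˣ) : sg u = 1 ∨ sg u = -1 := by
  rcases Int.units_eq_one_or u with rfl | rfl <;> simp
@[simp] theorem sg_sq (u : ℤˣ) : sg u * sg u = 1 := by rcases sg_or u with h | h <;> simp [h]
@[simp] theorem abs_sg (u : ℤˣ) : |sg u| = 1 := by rcases sg_or u with h | h <;> simp [h]
theorem sg_ne (u : ℤˣ) : sg u ≠ 0 := by rcases sg_or u with h | h <;> simp [h]
theorem sg_cast (u : ℤˣ) : (((u : ℤ)) : ℝ) = sg u := rfl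

@[simp] theorem gZ_one (k : ℤ × ℤ) : gZ 1 k = k := by simp [gZ]
theorem gZ_mul (g h : PG) (k : ℤ × ℤ) : gZ (g * h) k = gZ g (gZ h k) := by
  simp [gZ, mul_add, mul_assoc, add_assoc]
@[simp] theorem gC_one (z : ℂ) : gC 1 z = z := by simp [gC]
theorem gC_mul (g h : PG) (z : ℂ) : gC (g * h) z = gC g (gC h z) := by
  simp only [gC, mul_a, mul_b, mul_m, mul_n, sg_mul, Int.cast_add, Int.cast_mul, sg_cast]
  congr 1 <;> ring
theorem gC_lat (g : PG) (k : ℤ × ℤ) : gC g (lat k) = lat (gZ g k) := by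
  simp [gC, lat, gZ, sg_cast]
theorem gC_inv (g : PG) (z : ℂ) : gC g⁻¹ (gC g z) = z := by rw [← gC_mul, inv_mul_cancel, gC_one]
theorem gZ_inv (g : PG) (k : ℤ × ℤ) : gZ g⁻¹ (gZ g k) = k := by
  rw [← gZ_mul, inv_mul_cancel, gZ_one]
theorem gC_inj (g : PG) : Injective (gC g) := LeftInverse.injective (gC_inv g)
theorem gZ_inj (g : PG) : Injective (gZ g) := LeftInverse.injective (gZ_inv g)
theorem lat_inj : Injective lat := fun k k' e => by
  simp only [lat, Complex.mk.injEq, Int.cast_inj] at e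
  exact Prod.ext e.1 e.2
theorem gC_sub (g : PG) (z w : ℂ) :
    gC g z - gC g w = ⟨sg g.a * (z - w).re, sg g.b * (z - w).im⟩ := by
  apply Complex.ext <;> simp [gC] <;> ring
theorem norm_gC_sub (g : PG) (z w : ℂ) : ‖gC g z - gC g w‖ = ‖z - w‖ := by
  rw [gC_sub, Complex.norm_eq_sqrt_sq_add_sq, Complex.norm_eq_sqrt_sq_add_sq]
  simp only [mul_pow, sq (sg _), sg_sq, one_mul]
theorem cd_mk {X : Type} [NormedAddCommGroup X] [NormedSpace ℝ X] {f g : X → ℝ} {x : X}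
    (hf : ContDiffAt ℝ ∞ f x) (hg : ContDiffAt ℝ ∞ g x) :
    ContDiffAt ℝ ∞ (fun y => (⟨f y, g y⟩ : ℂ)) x :=
  Complex.equivRealProdCLM.symm.contDiff.contDiffAt.comp x (hf.prodMk hg)
theorem cd_gC (g : PG) : ContDiff ℝ ∞ (gC g) := contDiff_iff_contDiffAt.2 fun _ =>
  cd_mk ((contDiffAt_const.mul Complex.reCLM.contDiff.contDiffAt).add contDiffAt_const)
    ((contDiffAt_const.mul Complex.imCLM.contDiff.contDiffAt).add contDiffAt_const)

/-- an element is determined by its first sign and the image of one lattice point -/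
theorem pg_ext {g h : PG} {k : ℤ × ℤ} (ha : g.a = h.a) (e : gZ g k = gZ h k) : g = h := by
  simp only [gZ, Prod.mk.injEq, ha, add_right_inj] at e
  have hb : g.b = h.b := by
    have := g.hm; rw [e.1, h.hm, ha] at this; exact (mul_left_cancel this).symm
  rw [hb, add_right_inj] at e
  exact PG.ext ha hb e.1 e.2
theorem finite_gZ (k k' : ℤ × ℤ) : {g : PG | gZ g k = k'}.Finite :=
  Finite.of_finite_image (f := fun g => g.a) (toFinite _) fun _ hg _ hh e =>
    pg_ext e (hg.trans hh.symm)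
/-- every lattice point is the image of `(0,0)` or of `(1,0)`, with either first sign -/
theorem exists_gZ (k : ℤ × ℤ) (a : ℤˣ) :
    (∃ g : PG, g.a = a ∧ gZ g (0, 0) = k) ∨ ∃ g : PG, g.a = a ∧ gZ g (1, 0) = k := by
  have ha : (a : ℤ).negOnePow = -1 := by
    rcases Int.units_eq_one_or a with rfl | rfl <;> simp
  have hb : k.2.negOnePow = a * (a * k.2.negOnePow) := by
    rw [← mul_assoc, Int.units_mul_self, one_mul]
  by_cases h : k.1.negOnePow = k.2.negOnePow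
  · exact .inl ⟨⟨a, a * k.2.negOnePow, k.1, k.2, h.trans hb, hb⟩, rfl, by simp [gZ]⟩
  · refine .inr ⟨⟨a, a * k.2.negOnePow, k.1 - a, k.2, ?_, hb⟩, rfl, by simp [gZ]⟩
    rw [← hb, Int.negOnePow_sub, ha, mul_neg_one, ← Int.units_ne_iff_eq_neg.1 (Ne.symm h)]
theorem gZ_ne (g : PG) : gZ g (0, 0) ≠ (1, 0) := fun e => by
  simp only [gZ, mul_zero, zero_add, Prod.mk.injEq] at e
  have := g.hm.trans g.hn.symm
  rw [e.1, e.2] at this
  simp at this
theorem zG_add (m n : ℤ × ℤ) : zG (m + n) = zG m * zG n := by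
  ext <;> simp [zG] <;> ring
theorem zG_inj : Injective zG := fun m n e =>
  Prod.ext (by simpa [zG] using congrArg PG.m e) (by simpa [zG] using congrArg PG.n e)
theorem zG_fin : ∃ s : Finset PG, ∀ g, ∃ n, ∃ h ∈ s, g = zG n * h := by
  have hf := (finite_gZ (0, 0) (0, 0)).union (finite_gZ (0, 0) (1, 1))
  refine ⟨hf.toFinset, fun g => ⟨(g.m / 2, g.n / 2), (zG (g.m / 2, g.n / 2))⁻¹ * g, ?_, by simp⟩⟩
  have := (Int.negOnePow_eq_iff _ _).1 (g.hm.trans g.hn.symm)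
  simp only [Finite.mem_toFinset, mem_union, mem_ofPred_eq, gZ, zG, mul_zero, zero_add, mul_m, mul_n,
    inv_a, inv_b, inv_m, inv_n, Units.val_one, one_mul, Prod.mk.injEq]
  obtain ⟨r, hr⟩ := this
  omega

/-! ### Linear algebra in `ℝ³` -/

theorem nsq3 (v : Rn 3) : nsq v = v 0 ^ 2 + v 1 ^ 2 + v 2 ^ 2 := Fin.sum_univ_three _
theorem nsq_smul {n : ℕ} (t : ℝ) (v : Rn n) : nsq (t • v) = t ^ 2 * nsq v := by
  simp [nsq, mul_pow, Finset.mul_sum]
theorem nsq_pos {n : ℕ} {v : Rn n} (h : v ≠ 0) : 0 < nsq v := by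
  obtain ⟨i, hi⟩ := Function.ne_iff.1 h
  exact Finset.sum_pos' (fun _ _ => sq_nonneg _)
    ⟨i, Finset.mem_univ _, (pow_pos (abs_pos.2 hi) 2).trans_eq (sq_abs _)⟩
theorem cd_nsq {n : ℕ} : ContDiff ℝ ∞ (nsq : Rn n → ℝ) := by unfold nsq; fun_prop
@[simp] theorem Rp_Rp (v : Rn 3) : Rp (Rp v) = v := by ext i; fin_cases i <;> simp [Rp]
theorem Rp_smul (t : ℝ) (v : Rn 3) : Rp (t • v) = t • Rp v := by ext i; fin_cases i <;> simp [Rp]
@[simp] theorem Rp_zero : Rp 0 = 0 := by ext i; fin_cases i <;> simp [Rp]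
theorem nsq_Rp (v : Rn 3) : nsq (Rp v) = nsq v := by simp [nsq3, Rp]; ring
theorem cd_Rp : ContDiff ℝ ∞ Rp := contDiff_pi.2 fun i => by
  fin_cases i <;> simp [Rp] <;> fun_prop
theorem nsq_psi (g : PG) (v : Rn 3) : nsq (psi g v) = nsq v := by
  rw [psi, nsq_smul, sq, sg_sq, one_mul]; split_ifs; exacts [rfl, nsq_Rp v]
@[simp] theorem psi_one (v : Rn 3) : psi 1 v = v := by simp [psi]
theorem psi_smul (g : PG) (t : ℝ) (v : Rn 3) : psi g (t • v) = t • psi g v := by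
  unfold psi; split_ifs <;> simp only [Rp_smul, smul_comm t]
theorem psi_mul (g h : PG) (v : Rn 3) : psi (g * h) v = psi g (psi h v) := by
  rw [psi, psi, psi, mul_a, mul_b]
  rcases Int.units_eq_one_or g.a with e | e <;> rcases Int.units_eq_one_or h.a with e' | e' <;>
    simp [e, e', Rp_smul, smul_smul, sg_mul, ← neg_smul]
theorem cd_psi (g : PG) : ContDiff ℝ ∞ (psi g) := by
  unfold psi; split_ifs
  exacts [contDiff_id.const_smul _, cd_Rp.const_smul _]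

/-! ### The sphere -/

theorem levS : Level (vs (Rn 3)) nsq (univ ∩ nsq ⁻¹' {1}) S2 io := exS2.choose_spec.choose_spec
@[simp] theorem nsq_io (w : S2) : nsq (io w) = 1 := (levS.mem w).2
theorem io_ne (w : S2) : io w ≠ 0 := fun h => by simpa [h, nsq] using nsq_io w
theorem io_inj : Injective io := levS.emb.injective
theorem smAt_io (w : S2) : SmAt S2 (vs (Rn 3)) io w := levS.sm w trivial
theorem cont_io : Continuous io := levS.emb.continuous
theorem nsq_unit {v : Rn 3} (h : v ≠ 0) : nsq ((√(nsq v))⁻¹ • v) = 1 := by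
  rw [nsq_smul, inv_pow, Real.sq_sqrt (nsq_pos h).le, inv_mul_cancel₀ (nsq_pos h).ne']
theorem io_nr {v : Rn 3} (h : v ≠ 0) : io (nr v) = (√(nsq v))⁻¹ • v :=
  levS.inv_eq ⟨trivial, nsq_unit h⟩
theorem io_nr_unit {v : Rn 3} (h : nsq v = 1) : io (nr v) = v := by
  rw [io_nr (by rintro rfl; simp [nsq] at h), h]; simp
@[simp] theorem nr_io (w : S2) : nr (io w) = w := io_inj (io_nr_unit (nsq_io w))
theorem nr_smul {t : ℝ} (ht : 0 < t) (v : Rn 3) : nr (t • v) = nr v := by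
  rw [nr, nr, nsq_smul, Real.sqrt_mul (sq_nonneg t), Real.sqrt_sq ht.le, smul_smul, mul_inv,
    mul_right_comm, inv_mul_cancel₀ ht.ne', one_mul]
theorem smul_io_nr {v : Rn 3} (h : v ≠ 0) : √(nsq v) • io (nr v) = v := by
  rw [io_nr h, smul_smul, mul_inv_cancel₀ (Real.sqrt_pos.2 (nsq_pos h)).ne', one_smul]
theorem cd_rt {v : Rn 3} (h : v ≠ 0) : ContDiffAt ℝ ∞ (fun v : Rn 3 => √(nsq v)) v :=
  cd_nsq.contDiffAt.sqrt (nsq_pos h).ne'
theorem smAt_nr {v : Rn 3} (h : v ≠ 0) : SmAt (vs (Rn 3)) S2 nr v :=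
  levS.sm_inv (Y := vs (Rn 3)) (a := fun v => (√(nsq v))⁻¹ • v)
    (smAt_vs.2 (((cd_rt h).inv (Real.sqrt_pos.2 (nsq_pos h)).ne').smul contDiffAt_id))
    ((eventually_ne_nhds h).mono fun _ hy => ⟨trivial, nsq_unit hy⟩)
instance : CompactSpace S2 := levS.compact (Metric.isCompact_of_isClosed_isBounded
  (isClosed_univ.inter (isClosed_singleton.preimage cd_nsq.continuous))
  ((Metric.isBounded_closedBall (x := (0 : Rn 3)) (r := 1)).subset fun v hv => by
    rw [mem_closedBall_zero_iff, pi_norm_le_iff_of_nonneg zero_le_one]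
    intro i
    have h1 : v i ^ 2 ≤ nsq v := Finset.single_le_sum (f := fun i => v i ^ 2)
      (fun _ _ => sq_nonneg _) (Finset.mem_univ i)
    exact (sq_le_one_iff_abs_le_one _).1 (h1.trans_eq hv.2)))
theorem sc_S2 : SC (univ : Set S2) := by
  rw [← sc_image_emb levS.emb, image_univ, levS.range, univ_inter]
  exact sc_nsq_sphere le_rfl one_pos
/-- polar coordinates -/
theorem oe_polar : OE S2.cyl (vs (Rn 3)) (fun p => Real.exp p.2 • io p.1) univ :=
  oe_of_inv (g := fun v => (nr v, Real.log (√(nsq v)))) (W := {v | v ≠ 0}) isOpen_univ isOpen_ne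
    (fun _ _ => (smAt_snd.vcomp Real.contDiff_exp.contDiffAt).vsmul (smAt_fst.trans (smAt_io _)))
    (fun _ hv => (smAt_nr hv).pair (Z := vs ℝ)
      (smAt_vs.2 ((cd_rt hv).log (Real.sqrt_pos.2 (nsq_pos hv)).ne')))
    (fun p _ => smul_ne_zero (Real.exp_pos _).ne' (io_ne _)) (mapsTo_univ _ _)
    (fun p _ => Prod.ext (by simp [nr_smul (Real.exp_pos _)])
      (by simp [nsq_smul, Real.sqrt_sq (Real.exp_pos _).le]))
    fun v hv => by
      simp only [Real.exp_log (Real.sqrt_pos.2 (nsq_pos hv))]; exact smul_io_nr hv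
theorem ld_polar (p : S2.cyl) : LDAt S2.cyl (vs (Rn 3)) (fun p => Real.exp p.2 • io p.1) p :=
  oe_polar.ld p trivial

/-! ### The action on `J` -/

theorem io_act (g : PG) (w : S2) : io (nr (psi g (io w))) = psi g (io w) :=
  io_nr_unit (by rw [nsq_psi, nsq_io])
theorem nr_psi (g : PG) {v : Rn 3} (h : v ≠ 0) : nr (psi g (io (nr v))) = nr (psi g v) := by
  rw [io_nr h, psi_smul, nr_smul (inv_pos.2 (Real.sqrt_pos.2 (nsq_pos h)))]
@[simp] theorem actJ_one (p : J) : actJ 1 p = p := by simp [actJ]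
theorem actJ_mul (g h : PG) (p : J) : actJ (g * h) p = actJ g (actJ h p) := by
  simp only [actJ, gC_mul, io_act, psi_mul]
theorem smAt_actJ (g : PG) (p : J) : SmAt J J (actJ g) p :=
  (smAt_fst.vcomp (cd_gC g).contDiffAt).pair
    (((smAt_snd.trans (smAt_io _)).vcomp (cd_psi g).contDiffAt).trans
      (smAt_nr (io_act g p.2 ▸ io_ne _)))
theorem ldAt_actJ (g : PG) (p : J) : LDAt J J (actJ g) p :=
  ldAt_of_inv (g := actJ g⁻¹) isOpen_univ isOpen_univ trivial (fun _ _ => smAt_actJ _ _)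
    (fun _ _ => smAt_actJ _ _) (mapsTo_univ _ _) (mapsTo_univ _ _)
    (fun _ _ => by rw [← actJ_mul, inv_mul_cancel, actJ_one])
    fun _ _ => by rw [← actJ_mul, mul_inv_cancel, actJ_one]
theorem actJ_mem (g : PG) {p : J} (h : p ∈ JU) : actJ g p ∈ JU := fun k e =>
  h (gZ g⁻¹ k) (by rw [← gC_lat, ← e]; exact (gC_inv g _).symm)
theorem isClosed_lat : IsClosed (range lat) := by
  have : range lat = Complex.re ⁻¹' range ((↑) : ℤ → ℝ) ∩ Complex.im ⁻¹' range ((↑) : ℤ → ℝ) := by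
    ext z
    exact ⟨by rintro ⟨k, rfl⟩; exact ⟨⟨k.1, rfl⟩, k.2, rfl⟩,
      fun ⟨⟨m, hm⟩, n, hn⟩ => ⟨(m, n), Complex.ext hm hn⟩⟩
  rw [this]
  exact (Int.isClosedEmbedding_coe_real.isClosed_range.preimage Complex.continuous_re).inter
    (Int.isClosedEmbedding_coe_real.isClosed_range.preimage Complex.continuous_im)
theorem JU_eq : JU = (range lat)ᶜ ×ˢ (univ : Set S2) := by
  ext p; simp [JU, eq_comm]
theorem isOpen_JU : IsOpen JU := JU_eq ▸ isClosed_lat.isOpen_compl.prod isOpen_univ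
/-- the action is free off the lattice -/
theorem free_gC {g : PG} {z : ℂ} (hz : ∀ k, z ≠ lat k) (e : gC g z = z) : g = 1 := by
  simp only [gC, Complex.ext_iff] at e
  obtain ⟨e1, e2⟩ := e
  have hm := g.hm
  have hn := g.hn
  rcases Int.units_eq_one_or g.a with a | a <;> rcases Int.units_eq_one_or g.b with b | b <;>
    simp only [a, b, sg_one, sg_neg, one_mul, add_eq_left, Int.cast_eq_zero] at e1 e2 hm hn
  · exact PG.ext a b e1 e2
  · rw [e1] at hm; simp at hm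
  · rw [e2] at hn; simp at hn
  · obtain ⟨m, hm⟩ := (Int.negOnePow_eq_one_iff _).1 (hm.trans (by simp))
    obtain ⟨n, hn⟩ := (Int.negOnePow_eq_one_iff _).1 (hn.trans (by simp))
    rw [hm, Int.cast_add] at e1
    rw [hn, Int.cast_add] at e2
    exact (hz (m, n) (Complex.ext (by simp only [lat]; linarith) (by simp only [lat]; linarith))).elim
/-- only finitely many elements move a bounded set to meet itself -/
theorem finite_gC (R : ℝ) : {g : PG | ∃ z, ‖z‖ ≤ R ∧ ‖gC g z‖ ≤ R}.Finite := by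
  have hf : ((Icc (-⌈2 * R⌉) ⌈2 * R⌉) ×ˢ (Icc (-⌈2 * R⌉) ⌈2 * R⌉) : Set (ℤ × ℤ)).Finite :=
    (finite_Icc _ _).prod (finite_Icc _ _)
  refine (hf.biUnion fun k _ => finite_gZ (0, 0) k).subset ?_
  rintro g ⟨z, h1, h2⟩
  have h3 : ‖lat (gZ g (0, 0))‖ ≤ 2 * R := by
    have := norm_gC_sub g z (lat (0, 0))
    rw [gC_lat, show lat (0, 0) = 0 by simp [lat, Complex.ext_iff], sub_zero] at this
    have h4 := norm_sub_le (gC g z) (gC g z - lat (gZ g (0, 0)))
    rw [sub_sub_cancel] at h4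
    linarith
  have key : ∀ m : ℤ, |(m : ℝ)| ≤ 2 * R → m ∈ Icc (-⌈2 * R⌉) ⌈2 * R⌉ := fun m hm =>
    abs_le.1 (by exact_mod_cast (hm.trans (Int.le_ceil _) : |(m : ℝ)| ≤ ((⌈2 * R⌉ : ℤ) : ℝ)))
  exact mem_biUnion (x := gZ g (0, 0)) ⟨key _ ((Complex.abs_re_le_norm _).trans h3),
    key _ ((Complex.abs_im_le_norm _).trans h3)⟩ rfl

/-! ### The involution on `Qt` -/

@[simp] theorem sq_one (D : QDat) (y : D.Qt) : D.sq 1 y = y := if_pos rfl
theorem zero_col (u : ℝ) : ((0 : Rn 3), u) ∈ Col := by simp [Col]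

section
variable {D : QDat} (h : D.Ok)
include h

theorem sq_mul (g g' : PG) (y : D.Qt) : D.sq (g * g') y = D.sq g (D.sq g' y) := by
  unfold QDat.sq
  rcases Int.units_eq_one_or g.a with e | e <;> rcases Int.units_eq_one_or g'.a with e' | e' <;>
    simp [e, e', h.σσ]
theorem smAt_sq (g : PG) (y : D.Qt) : SmAt D.Qt D.Qt (D.sq g) y := by
  unfold QDat.sq; split_ifs; exacts [smAt_id, h.σsm y trivial]
theorem ldAt_σ (y : D.Qt) : LDAt D.Qt D.Qt D.σ y :=
  ldAt_of_inv isOpen_univ isOpen_univ trivial h.σsm h.σsm (mapsTo_univ _ _) (mapsTo_univ _ _)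
    (fun _ _ => h.σσ _) fun _ _ => h.σσ _
theorem abs_s_sq (g : PG) (y : D.Qt) : |D.s (D.sq g y)| = |D.s y| := by
  unfold QDat.sq; split_ifs; exacts [rfl, by rw [h.sσ, abs_neg]]
theorem sq_c (g : PG) {p : Rn 3 × ℝ} (hp : p ∈ Col) : D.sq g (D.c p) = D.c (sC g p) := by
  unfold QDat.sq sC; split_ifs; exacts [rfl, h.cσ p hp]
theorem σ_mem {y : D.Qt} (hy : y ∈ D.U) : D.σ y ∈ D.U := by
  rintro ⟨⟨_, u⟩, ⟨rfl, -⟩, e⟩
  exact hy ⟨(0, u + π), ⟨rfl, trivial⟩, by rw [← h.σσ y, ← e, h.cσ _ (zero_col u), Rp_zero]⟩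
theorem sq_mem (g : PG) {y : D.Qt} (hy : y ∈ D.U) : D.sq g y ∈ D.U := by
  unfold QDat.sq; split_ifs; exacts [hy, σ_mem h hy]
theorem c_mem {p : Rn 3 × ℝ} (hp : p ∈ Col) : D.c p ∈ D.U ↔ p.1 ≠ 0 :=
  ⟨fun hU e => hU ⟨p, ⟨e, trivial⟩, rfl⟩, by
    rintro hne ⟨⟨_, u⟩, ⟨rfl, -⟩, e⟩
    exact hne ((h.ceq _ (zero_col u) _ hp).1 e).1.symm⟩
theorem mem_U_of_s {y : D.Qt} (hy : D.s y ≠ 0) : y ∈ D.U := by
  rintro ⟨⟨_, u⟩, ⟨rfl, -⟩, rfl⟩
  exact hy (h.cs _ (zero_col u))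
/-- images of compact sets of fibre coordinates are compact -/
theorem isCompact_c {K : Set (Rn 3)} (hK : IsCompact K) (hc : ∀ v ∈ K, |v 0| < 1 ∧ |v 1| < 1) :
    IsCompact (D.c '' (K ×ˢ univ)) := by
  have : D.c '' (K ×ˢ univ) = D.c '' (K ×ˢ Icc 0 (2 * π)) := by
    refine Subset.antisymm ?_ (image_mono (prod_mono_right (subset_univ _)))
    rintro _ ⟨⟨v, u⟩, ⟨hv, -⟩, rfl⟩
    refine ⟨(v, toIcoMod Real.two_pi_pos 0 u), ⟨hv, Ico_subset_Icc_self
      (toIcoMod_mem_Ico' Real.two_pi_pos u)⟩, (h.ceq _ (hc v hv) _ (hc v hv)).2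
        ⟨rfl, -toIcoDiv Real.two_pi_pos 0 u, ?_⟩⟩
    rw [toIcoMod_sub_self, neg_smul, zsmul_eq_mul, Int.cast_neg, mul_neg, mul_comm]
  rw [this]
  exact (hK.prod isCompact_Icc).image_of_continuousOn fun p hp =>
    (h.cld p (hc _ hp.1)).sm.cont.continuousWithinAt
theorem isOpen_U : IsOpen D.U :=
  (isCompact_c h isCompact_singleton (by rintro _ rfl; simp)).isClosed.isOpen_compl

end

end Pool.Agent.MP_e1dc65_gt.E

end
end MrgPart0

-- ======== part 1: formerly Pool.Agent.MP_e1dc65_gt.e.bMg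
section MrgPart1

/-! PROJECT HC, part E, sub-part B, row MG: the cover `MG` and the quotient `M`. -/

open scoped ContDiff Manifold Topology Matrix Real
open Set Filter Function Module

noncomputable section

namespace Pool.Agent.MP_e1dc65_gt.E

namespace Mg

/-- the lattice point of the end -/
def kk (t : ℝ) : ℤ × ℤ := if t < 0 then (0, 0) else (1, 0)

theorem two_lt {t : ℝ} (h : t ≠ 0) : 2 < 2 + |t|⁻¹ := lt_add_of_pos_right _ (inv_pos.2 (abs_pos.2 h))

theorem kk_or (t : ℝ) : kk t = (0, 0) ∨ kk t = (1, 0) := by unfold kk; split_ifs <;> simp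

theorem kk_eq {g g' : PG} {t t' : ℝ} (e : gZ g (kk t) = gZ g' (kk t')) : kk t = kk t' := by
  have key : ∀ g g' : PG, gZ g (0, 0) ≠ gZ g' (1, 0) := fun g g' e =>
    gZ_ne (g'⁻¹ * g) (by rw [gZ_mul, e, gZ_inv])
  rcases kk_or t with a | a <;> rcases kk_or t' with b | b <;> rw [a, b] at e ⊢
  exacts [(key _ _ e).elim, (key _ _ e.symm).elim]

theorem eq_of_kk {t t' : ℝ} (e : kk t = kk t') (h : |t| = |t'|) : t = t' := by
  unfold kk at e
  split_ifs at e with a b b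
  · rwa [abs_of_neg a, abs_of_neg b, neg_inj] at h
  · simp at e
  · simp at e
  · rwa [abs_of_nonneg (not_lt.1 a), abs_of_nonneg (not_lt.1 b)] at h

theorem ld_tau (u : ℤˣ) {t : ℝ} (h : t ≠ 0) : LDAt (vs ℝ) (vs ℝ) (fun t => 2 + (sg u * t)⁻¹) t :=
  ldAt_of_inv (X := vs ℝ) (Y := vs ℝ) (g := fun r => sg u * (r - 2)⁻¹) (U := {t | t ≠ 0})
    (W := {r | r ≠ 2}) isOpen_ne isOpen_ne h
    (fun _ hx => smAt_vs.2 (contDiffAt_const.add
      ((contDiffAt_const.mul contDiffAt_id).inv (mul_ne_zero (sg_ne u) hx))))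
    (fun _ hx => smAt_vs.2 (contDiffAt_const.mul
      ((contDiffAt_id.sub contDiffAt_const).inv (sub_ne_zero.2 hx))))
    (fun _ hx e => inv_ne_zero (mul_ne_zero (sg_ne u) hx) (add_eq_left.1 e))
    (fun _ hx => mul_ne_zero (sg_ne u) (inv_ne_zero (sub_ne_zero.2 hx)))
    (fun _ _ => by simp [← mul_assoc]) fun _ _ => by simp [← mul_assoc]

theorem actJ_on : ActOn J actJ JU :=
  ⟨fun g _ => actJ_mem g, fun _ _ => actJ_one _, fun _ _ _ _ => actJ_mul _ _ _,
    fun _ _ _ => smAt_actJ _ _⟩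

theorem bdd {K : Set J} (hK : IsCompact K) : ∃ R : ℝ, ∀ p ∈ K, ‖p.1‖ ≤ R :=
  let ⟨R, hR⟩ := (hK.image continuous_fst).isBounded.exists_norm_le
  ⟨R, fun p hp => hR _ ⟨p, hp, rfl⟩⟩

theorem fin_lat (R : ℝ) : {k | ‖lat k‖ ≤ R}.Finite := by
  have key : ∀ m : ℤ, |(m : ℝ)| ≤ R → m ∈ Icc (-⌈R⌉) ⌈R⌉ := fun m hm =>
    abs_le.1 (by exact_mod_cast (hm.trans (Int.le_ceil _) : |(m : ℝ)| ≤ ((⌈R⌉ : ℤ) : ℝ)))
  exact ((finite_Icc (-⌈R⌉) ⌈R⌉).prod (finite_Icc (-⌈R⌉) ⌈R⌉)).subset fun k hk =>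
    ⟨key _ ((Complex.abs_re_le_norm _).trans hk), key _ ((Complex.abs_im_le_norm _).trans hk)⟩

variable {D : QDat} {T : GtDat D}

theorem en_eq (p : D.F.cyl) : T.en p = T.κ (kk p.2) (D.n (p.1, 2 + |p.2|⁻¹)) := by
  unfold GtDat.en kk
  split_ifs with h
  · rw [abs_of_neg h, inv_neg, sub_eq_add_neg]
  · rw [abs_of_nonneg (not_lt.1 h)]

variable (hD : D.Ok)
include hD

theorem s_sq (g : PG) (y : D.Qt) : D.s (D.sq g y) = sg g.a * D.s y := by
  unfold QDat.sq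
  rcases Int.units_eq_one_or g.a with e | e <;> simp [e, hD.sσ]

theorem n_mem (m : D.F) {r : ℝ} (h : 2 < r) : D.n (m, r) ∈ D.U :=
  mem_U_of_s hD (by rw [hD.ns m r h]; linarith)

theorem sq_fam : ActFam D.Qt gZ (fun g _ => D.sq g) D.U :=
  ⟨fun g _ _ => sq_mem hD g, gZ_one, gZ_mul, fun _ _ _ => sq_one _ _,
    fun _ _ _ _ _ => sq_mul hD _ _ _, fun _ _ _ _ => smAt_sq hD _ _⟩

variable (hT : T.Ok)
include hT

theorem act_en (g : PG) {p : D.F.cyl} (h : p.2 ≠ 0) :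
    T.act g (T.en p) = T.κ (gZ g (kk p.2)) (D.sq g (D.n (p.1, 2 + |p.2|⁻¹))) := by
  rw [en_eq, hT.aκ _ _ _ (n_mem hD _ (two_lt h))]

theorem ld_en {p : D.F.cyl} (h : p.2 ≠ 0) : LDAt D.F.cyl T.Gt T.en p := by
  have key : ∀ (u : ℤˣ) (k : ℤ × ℤ), 0 < sg u * p.2 →
      LDAt D.F.cyl T.Gt (fun q => T.κ k (D.n (q.1, 2 + (sg u * q.2)⁻¹))) p := fun u k hu => by
    have h2 : 2 < 2 + (sg u * p.2)⁻¹ := lt_add_of_pos_right _ (inv_pos.2 hu)
    exact (((ldAt_id (X := D.F) (x := p.1)).prodMap (ld_tau u h)).trans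
      (hD.noe.ld _ ⟨trivial, h2⟩)).trans ((hT.oκ k).ld _ (n_mem hD _ h2))
  rcases h.lt_or_gt with h' | h'
  · refine (key (-1) (0, 0) (by simpa using h')).congr' ?_
    filter_upwards [continuous_snd.continuousAt.eventually (gt_mem_nhds h')] with q hq
    simp [GtDat.en, hq, sub_eq_add_neg, inv_neg]
  · refine (key 1 (1, 0) (by simpa using h')).congr' ?_
    filter_upwards [continuous_snd.continuousAt.eventually (lt_mem_nhds h')] with q hq
    simp [GtDat.en, hq.not_gt]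

/-- the ends are permuted simply transitively -/
theorem en_inj {g g' : PG} {p p' : D.F.cyl} (h : p.2 ≠ 0) (h' : p'.2 ≠ 0)
    (e : T.act g (T.en p) = T.act g' (T.en p')) : g = g' ∧ p = p' := by
  rw [act_en hD hT g h, act_en hD hT g' h'] at e
  have m := sq_mem hD g (n_mem hD p.1 (two_lt h))
  have m' := sq_mem hD g' (n_mem hD p'.1 (two_lt h'))
  have e1 := hT.dis _ _ _ m _ m' e
  rw [e1] at e
  have e2 := (hT.oκ _).inj m m' e
  have e3 := congrArg D.s e2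
  rw [s_sq hD, s_sq hD, hD.ns _ _ (two_lt h), hD.ns _ _ (two_lt h')] at e3
  have ha : g.a = g'.a := by
    have := two_lt h
    have := two_lt h'
    rcases Int.units_eq_one_or g.a with a | a <;> rcases Int.units_eq_one_or g'.a with b | b <;>
      simp only [a, b, sg_one, sg_neg] at e3 ⊢ <;> linarith
  have hk := kk_eq e1
  rw [hk] at e1
  obtain rfl := pg_ext ha e1
  have e4 := congrArg (D.sq g⁻¹) e2
  rw [← sq_mul hD, ← sq_mul hD, inv_mul_cancel, sq_one, sq_one] at e4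
  obtain ⟨e5, e6⟩ := Prod.ext_iff.1
    (hD.noe.inj (mk_mem_prod trivial (two_lt h)) (mk_mem_prod trivial (two_lt h')) e4)
  exact ⟨rfl, Prod.ext e5 (eq_of_kk hk (inv_injective (add_left_cancel e6)))⟩

variable (hP : PhiStmt)
include hP

theorem glued : Glued J D.Qt T.Gt JU D.U Dg phi D.c T.ι T.κ :=
  ⟨hT.oι, hT.oκ, hT.cov, fun p hp k x hx => hT.rel p hp k x hx, fun k k' x hx x' hx' =>
    ⟨fun e => by
      obtain rfl := hT.dis _ _ _ hx _ hx' e
      exact ⟨rfl, (hT.oκ _).inj hx hx' e⟩, by rintro ⟨rfl, rfl⟩; rfl⟩,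
    hP.mem, fun q hq => (c_mem hD (hP.sub hq)).2 hq.1⟩

/-- the height function -/
theorem height : ∃ H : T.Gt → ℝ, Continuous H ∧ (∀ p ∈ JU, H (T.ι p) = 1) ∧
    ∀ k, ∀ x ∈ D.U, H (T.κ k x) = max |D.s x| 1 := by
  obtain ⟨H, e1, e2⟩ := (glued hD hT hP).desc (fun _ => (1 : ℝ)) (fun _ x => max |D.s x| 1)
    fun k q hq => by
      refine (max_eq_right ?_).symm
      rw [hD.cs q (hP.sub hq)]
      have h1 : |q.1 2| ≤ √(nsq q.1) := Real.abs_le_sqrt (by rw [nsq3]; nlinarith)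
      have h2 := (hP.nub q.1).1
      have h3 := hq.2
      linarith
  exact ⟨H, (glued hD hT hP).cont e1 e2 continuousOn_const
    fun _ => (hD.scont.abs.max continuous_const).continuousOn, e1, e2⟩

theorem free (g : PG) (y : T.Gt) : T.act g y = y → g = 1 :=
  (glued hD hT hP).free actJ_on (sq_fam hD) hT.aι hT.aκ
    (fun _ _ hp e => free_gC hp (congrArg Prod.fst e))
    (fun g k x _ e e' => pg_ext (by
      by_contra h
      exact hD.σne x ((if_neg h).symm.trans e')) (e.trans (gZ_one k).symm)) g y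

theorem proper (K : Set T.Gt) (hK : IsCompact K) : {g : PG | ∃ z ∈ K, T.act g z ∈ K}.Finite :=
  (glued hD hT hP).proper actJ_on (sq_fam hD) hT.aι hT.aκ
    (fun _ _ hA => let ⟨R, hR⟩ := bdd hA
      (finite_gC R).subset fun _ ⟨p, hp, hp'⟩ => ⟨p.1, hR p hp, hR _ hp'⟩)
    (fun k => finite_gZ k k)
    (fun _ _ hA => let ⟨R, hR⟩ := bdd hA
      (fin_lat (R + 1)).subset fun k ⟨q, hq, hq'⟩ => by
        have h1 := hR _ hq'
        have h2 := hP.mu k q hq
        have h3 := (hP.mub ((phi k q).1 - lat k)).1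
        have h4 := (hP.nub q.1).1
        have h5 := Real.sqrt_nonneg (nsq q.1)
        have h6 := norm_sub_le (phi k q).1 ((phi k q).1 - lat k)
        rw [sub_sub_cancel] at h6
        change ‖lat k‖ ≤ R + 1
        linarith) K hK

end Mg

open Mg in
theorem mg (hP : PhiStmt) : MgStmt := by
  intro D T hD hT
  obtain ⟨H, cH, H1, H2⟩ := height hD hT hP
  have hA : ActOn T.Gt T.act univ := actOn_univ hT.act1 hT.actm hT.actsm
  have He : ∀ g (p : D.F.cyl), p.2 ≠ 0 → H (T.act g (T.en p)) = 2 + |p.2|⁻¹ := fun g p h => by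
    have := two_lt h
    rw [act_en hD hT g h, H2 _ _ (sq_mem hD g (n_mem hD _ this)), abs_s_sq hD, hD.ns _ _ this,
      abs_of_pos (by linarith), max_eq_left (by linarith)]
  have ha : ∀ g, ∀ p ∈ {p : D.F.cyl | p.2 ≠ 0}, LDAt D.F.cyl T.Gt (fun p => T.act g (T.en p)) p :=
    fun g p h => (ld_en hD hT h).trans ((hA.oe isOpen_univ g).ld _ trivial)
  obtain ⟨Z, i, nk, G⟩ := glueFam (E := E4) (X := T.Gt) (Y := D.F.cyl) (C := D.F.cyl) (U := univ)
    (V := univ) (D := {p | p.2 ≠ 0}) (a := fun g p => T.act g (T.en p)) (b := fun p => p) rfl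
    (by simp) isOpen_univ isOpen_univ (isOpen_ne.preimage continuous_snd) univ_nonempty ha
    (fun _ _ => ldAt_id) (fun _ _ _ => trivial) (fun _ _ => trivial)
    (fun g g' p h p' h' => ⟨en_inj hD hT h h', by rintro ⟨rfl, rfl⟩; rfl⟩)
    (fun g x _ y _ hc => by
      have c1 : IsClosed {q : T.Gt × D.F.cyl | (H q.1 - 2) * |q.2.2| = 1} :=
        isClosed_eq (((cH.comp continuous_fst).sub continuous_const).mul
          (continuous_snd.snd.abs)) continuous_const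
      have ne : ∀ q ∈ {q : T.Gt × D.F.cyl | (H q.1 - 2) * |q.2.2| = 1}, q.2.2 ≠ 0 := fun q hq e => by
        simp [e] at hq
      have c2 := ContinuousOn.preimage_isClosed_of_isClosed
        (f := fun q : T.Gt × D.F.cyl => (T.act g (T.en q.2), q.1))
        (fun q hq => (((ha g q.2 (ne q hq)).sm.cont.comp continuous_snd.continuousAt).prodMk
          continuous_fst.continuousAt).continuousWithinAt) c1 isClosed_diagonal
      have := closure_minimal (by
        rintro _ ⟨p, hp, rfl⟩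
        refine ⟨?_, rfl⟩
        change (H (T.act g (T.en p)) - 2) * |p.2| = 1
        rw [He g p hp, add_sub_cancel_left, inv_mul_cancel₀ (abs_pos.2 hp).ne']) c2 hc
      exact ⟨y, ne _ this.1, this.2, rfl⟩)
  have hB : ActFam D.F.cyl (fun g h : PG => g * h) (fun _ _ p => p) univ :=
    ⟨fun _ _ _ _ => trivial, one_mul, mul_assoc, fun _ _ _ => rfl, fun _ _ _ _ _ => rfl,
      fun _ _ _ _ => smAt_id⟩
  obtain ⟨γ, hγ, e1, e2⟩ := G.act hA hB fun g h p hp => ⟨p, hp, hT.actm _ _ _, rfl⟩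
  have hf := G.free hA hB e1 e2 (fun g x _ => free hD hT hP g x) fun g h _ _ e _ =>
    mul_eq_right.1 e
  obtain ⟨M, pM, l, s, f⟩ := hγ.quot hf (G.proper hA hB e1 e2 (fun K _ => proper hD hT hP K)
    (fun h => (finite_singleton 1).subset fun g e => mul_eq_right.1 e) fun K _ hK => by
      obtain ⟨A, B, r, -, h2, -, h4, h5, h6⟩ := (glued hD hT hP).cpt hK
      refine ((h5.biUnion fun k _ => finite_gZ (0, 0) k).union
        (h5.biUnion fun k _ => finite_gZ (1, 0) k)).subset ?_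
      rintro g ⟨p, hp, hK⟩
      obtain ⟨x, hx, e⟩ | ⟨k, hk, y, hy, e⟩ := h6 _ hK
      · have h1 := two_lt hp
        rw [← He g p hp, ← e, H1 x (h2 hx)] at h1
        norm_num at h1
      · rw [act_en hD hT g hp] at e
        have e' := hT.dis _ _ _ (h4 hy) _ (sq_mem hD g (n_mem hD _ (two_lt hp))) e
        rcases kk_or p.2 with a | a <;> rw [a] at e'
        exacts [.inl (mem_biUnion hk e'.symm), .inr (mem_biUnion hk e'.symm)])
  refine ⟨⟨Z, M, i, nk, γ, pM⟩, G.oi, G.ok, fun y => ?_, fun x g p => ?_,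
    fun g g' p p' e => ((G.eqk _ _ _ trivial _ trivial).1 e).1, fun y => hγ.one y trivial,
    fun g h y => hγ.mul g h y trivial, hγ.sm, fun g x => e1 g x trivial,
    fun g h p => e2 g h p trivial, hf, l, s, f⟩
  · obtain ⟨x, -, e⟩ | ⟨g, p, -, e⟩ := G.cov y
    · exact .inl ⟨x, e⟩
    · by_cases h : p.2 = 0
      · exact .inr ⟨g, p.1, by rw [← h]; exact e⟩
      · exact .inl ⟨_, (G.glue g h).trans e⟩
  · refine (G.eq x trivial g p trivial).trans ⟨?_, fun h => ⟨p, h.1, h.2.symm, rfl⟩⟩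
    rintro ⟨_, h, rfl, rfl⟩
    exact ⟨h, rfl⟩

end Pool.Agent.MP_e1dc65_gt.E

end
end MrgPart1

-- ======== part 2: formerly Pool.Agent.MP_e1dc65_gt.e.bCpt
section MrgPart2

/-! PROJECT HC, part E, sub-part B, row CPT: compactness, connectedness and the neck. -/

open scoped ContDiff Manifold Topology Matrix Real
open Set Filter Function Module

noncomputable section

namespace Pool.Agent.MP_e1dc65_gt.E

namespace Cpt

/-! ### Two lemmas on connected sets -/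

theorem pre_of_union {X : Type} [TopologicalSpace X] {U V : Set X}
    (hX : IsPreconnected (univ : Set X)) (hU : IsOpen U) (hV : IsOpen V)
    (huv : ∀ x, x ∈ U ∨ x ∈ V) (h : IsPreconnected (U ∩ V)) : IsPreconnected U := by
  have key : ∀ u v : Set X, IsOpen u → IsOpen v → U ⊆ u ∪ v → U ∩ (u ∩ v) = ∅ → U ∩ V ⊆ u →
      U ⊆ u ∨ U ⊆ v := fun u v hu hv hs hd hsub => by
    have no : ∀ x ∈ U, x ∈ u → x ∈ v → False := fun x a b c =>
      (hd ▸ (⟨a, b, c⟩ : x ∈ U ∩ (u ∩ v)) : x ∈ (∅ : Set X))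
    rcases isPreconnected_iff_subset_of_disjoint.1 hX (U ∩ u ∪ V) (U ∩ v) ((hU.inter hu).union hV)
      (hU.inter hv) (fun x _ => (huv x).elim
        (fun a => (hs a).elim (fun b => .inl (.inl ⟨a, b⟩)) fun b => .inr ⟨a, b⟩)
        fun b => .inl (.inr b)) (eq_empty_of_forall_notMem fun x ⟨_, a, b⟩ => a.elim
          (fun a => no x b.1 a.2 b.2) fun a => no x b.1 (hsub ⟨b.1, a⟩) b.2) with e | e
    · exact .inl fun x hx => (e (mem_univ x)).elim (·.2) fun a => hsub ⟨hx, a⟩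
    · exact .inr fun x _ => (e (mem_univ x)).2
  refine isPreconnected_iff_subset_of_disjoint.2 fun u v hu hv hs hd => ?_
  rcases isPreconnected_iff_subset_of_disjoint.1 h u v hu hv (inter_subset_left.trans hs)
    (eq_empty_of_subset_empty (hd ▸ inter_subset_inter_left _ inter_subset_left)) with e | e
  · exact key u v hu hv hs hd e
  · exact (key v u hv hu (union_comm u v ▸ hs) (inter_comm u v ▸ hd) e).symm

theorem conn_of {X I : Type} [TopologicalSpace X] [Nonempty I] {A : Set X} {S : I → Set X}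
    (hA : IsConnected A) (hS : ∀ i, IsPreconnected (S i)) (hi : ∀ i, (A ∩ S i).Nonempty)
    (cov : ∀ x, x ∈ A ∨ ∃ i, x ∈ S i) : ConnectedSpace X := by
  obtain ⟨a, ha⟩ := hA.1
  have h := isPreconnected_iUnion (s := fun i => A ∪ S i) ⟨a, mem_iInter.2 fun _ => .inl ha⟩
    fun i => hA.2.union' (hi i) (hS i)
  rw [eq_univ_of_forall (s := ⋃ i, A ∪ S i) fun x => (cov x).elim
    (fun b => mem_iUnion.2 ⟨Classical.arbitrary I, .inl b⟩)
    fun ⟨i, b⟩ => mem_iUnion.2 ⟨i, .inr b⟩] at h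
  exact connectedSpace_iff_univ.2 ⟨⟨a, trivial⟩, h⟩

/-! ### The pieces are connected -/

theorem conn_JU : IsConnected JU := by
  rw [JU_eq]
  exact (((countable_range lat).isPathConnected_compl_of_one_lt_rank
    (one_lt_rank Complex.finrank_real_complex.ge)).prod sc_S2.1).isConnected

theorem ball_col {p : Rn 3 × ℝ} (hp : p.1 ∈ Metric.ball (0 : Rn 3) 1) : p ∈ Col :=
  ⟨(norm_le_pi_norm p.1 0).trans_lt (mem_ball_zero_iff.1 hp),
    (norm_le_pi_norm p.1 1).trans_lt (mem_ball_zero_iff.1 hp)⟩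

theorem pre_U {D : QDat} (h : D.Ok) : IsPreconnected D.U := by
  refine pre_of_union (V := D.c '' (Metric.ball 0 1 ×ˢ univ)) h.sc.1.isConnected.2 (isOpen_U h)
    (isOpen_image_ld (X := vs (Rn 3 × ℝ)) (Metric.isOpen_ball.prod isOpen_univ)
      fun p hp => h.cld p (ball_col hp.1)) (fun x => ?_) ?_
  · refine (em _).symm.imp_right fun hx => image_mono (prod_mono_left ?_) hx
    exact singleton_subset_iff.2 (Metric.mem_ball_self one_pos)
  · have e : D.U ∩ D.c '' (Metric.ball 0 1 ×ˢ univ) = D.c '' ((Metric.ball 0 1 \ {0}) ×ˢ univ) := by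
      ext x
      constructor
      · rintro ⟨hx, p, hp, rfl⟩
        exact ⟨p, ⟨⟨hp.1, (c_mem h (ball_col hp.1)).1 hx⟩, trivial⟩, rfl⟩
      · rintro ⟨p, hp, rfl⟩
        exact ⟨(c_mem h (ball_col hp.1.1)).2 hp.1.2, p, ⟨hp.1.1, trivial⟩, rfl⟩
    rw [e]
    exact (((vs (Rn 3)).pc_diff (by simp) Metric.isOpen_ball
      (Metric.isConnected_ball one_pos) (countable_singleton _)).isConnected.2.prod
        isPreconnected_univ).image _ fun p hp =>
          (h.cld p (ball_col hp.1.1)).sm.cont.continuousWithinAt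

theorem ex_Dg (hP : PhiStmt) : Dg.Nonempty := by
  refine ⟨(![0, 0, 1 / 4], 0), fun e => ?_, ?_⟩
  · simpa using congrFun e 2
  · rw [hP.nucone _ (by simp)]
    simp only [Matrix.cons_val]
    rw [abs_of_pos] <;> norm_num

variable {D : QDat} {T : GtDat D} {B : MgDat T}

theorem rel_c (hP : PhiStmt) (hD : D.Ok) (hT : T.Ok) (k : ℤ × ℤ) {q : Rn 3 × ℝ} (hq : q ∈ Dg) :
    T.ι (phi k q) = T.κ k (D.c q) :=
  (hT.rel _ (hP.mem k q hq) k _ ((c_mem hD (hP.sub hq)).2 hq.1)).2 ⟨q, hq, rfl, rfl⟩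

theorem conn_Gt (hP : PhiStmt) (hD : D.Ok) (hT : T.Ok) : ConnectedSpace T.Gt := by
  obtain ⟨q, hq⟩ := ex_Dg hP
  exact conn_of (A := T.ι '' JU) (S := fun k => T.κ k '' D.U) (conn_JU.image _ hT.oι.sm.contOn)
    (fun k => (pre_U hD).image _ (hT.oκ k).sm.contOn)
    (fun k => ⟨_, ⟨_, hP.mem k q hq, rfl⟩, _, (c_mem hD (hP.sub hq)).2 hq.1,
      (rel_c hP hD hT k hq).symm⟩) hT.cov

theorem conn_MG (hD : D.Ok) (hB : B.Ok) [ConnectedSpace T.Gt] : ConnectedSpace B.MG := by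
  have := hD.isF.conn
  obtain ⟨m⟩ := D.F.ne
  exact conn_of (A := range B.i) (S := fun g => range (B.nk g)) (isConnected_range hB.oi.sm.cont)
    (fun g => isPreconnected_range (hB.onk g).sm.cont)
    (fun g => ⟨_, ⟨_, rfl⟩, (m, 1), ((hB.rel _ g (m, 1)).2 ⟨one_ne_zero, rfl⟩).symm⟩)
    fun y => (hB.cov y).imp_right fun ⟨g, m, e⟩ => ⟨g, _, e⟩

/-! ### The neck -/

theorem cont_pM (hB : B.Ok) : Continuous B.pM := Sm.cont fun y _ => (hB.ld y).sm

theorem pM_act (hB : B.Ok) (g : PG) (y : B.MG) : B.pM (B.act g y) = B.pM y :=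
  ((hB.fib _ _).2 ⟨g, rfl⟩).symm

theorem pM_nk (hB : B.Ok) (g : PG) (p : D.F.cyl) : B.pM (B.nk g p) = B.ν p := by
  rw [MgDat.ν, ← pM_act hB g (B.nk 1 p), hB.ank, mul_one]

theorem oe_nu (hB : B.Ok) : OE D.F.cyl B.M B.ν univ :=
  ⟨isOpen_univ, fun p _ => ((hB.onk 1).ld p trivial).trans (hB.ld _), fun p _ p' _ e => by
    obtain ⟨g, e⟩ := (hB.fib _ _).1 e
    rw [hB.ank] at e
    rw [hB.dis _ _ _ _ e] at e
    exact (hB.onk 1).inj trivial trivial e⟩

theorem pre_nu (hB : B.Ok) : B.pM ⁻¹' (B.ν '' (univ ×ˢ {0}))ᶜ = range B.i := by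
  ext y
  constructor
  · intro hy
    rcases hB.cov y with h | ⟨g, m, rfl⟩
    · exact h
    · exact (hy ⟨(m, 0), ⟨trivial, rfl⟩, (pM_nk hB g _).symm⟩).elim
  · rintro ⟨x, rfl⟩ ⟨p, hp, e⟩
    obtain ⟨g, e⟩ := (hB.fib _ _).1 e
    rw [hB.ank] at e
    exact ((hB.rel _ _ _).1 e.symm).1 hp.2

/-! ### Compactness -/

/-- a compact part of the plane minus the lattice -/
def KA : Set ℂ :=
  {z | z.re ∈ Icc (0 : ℝ) 2 ∧ z.im ∈ Icc (0 : ℝ) 2 ∧ ∀ k, 1 / 8 ≤ muz (z - lat k)}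

/-- a compact part of `Qt` minus the circle -/
def KC (D : QDat) : Set D.Qt := {y | |D.s y| ≤ 3} \ D.c '' {q | nuv q.1 < 1 / 8}

/-- the compact set that fills `M` -/
def KM (B : MgDat T) : Set B.M :=
  (fun p => B.pM (B.i (T.ι p))) '' (KA ×ˢ univ) ∪ (fun x => B.pM (B.i (T.κ (0, 0) x))) '' KC D ∪
    (fun x => B.pM (B.i (T.κ (1, 0) x))) '' KC D ∪ B.ν '' (univ ×ˢ Icc (-1) 1)

theorem cpt_KA (hP : PhiStmt) : IsCompact KA := by
  refine Metric.isCompact_of_isClosed_isBounded ((isClosed_Icc.preimage Complex.continuous_re).inter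
    ((isClosed_Icc.preimage Complex.continuous_im).inter ?_))
    ((Metric.isBounded_closedBall (x := (0 : ℂ)) (r := 4)).subset fun z hz => ?_)
  · have : IsClosed (⋂ k, {z : ℂ | 1 / 8 ≤ muz (z - lat k)}) := isClosed_iInter fun k =>
      isClosed_le continuous_const (hP.muc.comp (continuous_id.sub continuous_const))
    rwa [← ofPred_forall] at this
  · rw [mem_closedBall_zero_iff]
    have := Complex.norm_le_abs_re_add_abs_im z
    rw [abs_of_nonneg hz.1.1, abs_of_nonneg hz.2.1.1] at this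
    linarith [hz.1.2, hz.2.1.2]

theorem far_JU (hP : PhiStmt) {p : J} (hp : ∀ k, 1 / 8 ≤ muz (p.1 - lat k)) : p ∈ JU :=
  fun k e => by
    have h1 := hp k
    have h2 := (hP.mub (p.1 - lat k)).2
    rw [e, sub_self] at h1 h2
    rw [norm_zero] at h2
    linarith

theorem small_col (hP : PhiStmt) {q : Rn 3 × ℝ} (hq : nuv q.1 < 1 / 8) : q ∈ Col := by
  have h1 : ∀ i, |q.1 i| < 1 := fun i => by
    have h2 : q.1 i ^ 2 ≤ nsq q.1 := Finset.single_le_sum (f := fun i => q.1 i ^ 2)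
      (fun _ _ => sq_nonneg _) (Finset.mem_univ i)
    have h3 := Real.abs_le_sqrt h2
    linarith [(hP.nub q.1).1]
  exact ⟨h1 0, h1 1⟩

theorem cpt_KC (hP : PhiStmt) (hD : D.Ok) : IsCompact (KC D) :=
  (hD.scpt 3).diff (isOpen_image_ld (X := vs (Rn 3 × ℝ))
    (isOpen_lt (hP.nuc.comp continuous_fst) continuous_const)
    fun p hp => hD.cld p (small_col hP hp))

theorem KC_sub (hP : PhiStmt) : KC D ⊆ D.U := fun y hy hc => hy.2 (image_mono (by
  rintro ⟨_, u⟩ ⟨rfl, -⟩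
  have := (hP.nub 0).2
  simp only [nsq, Pi.zero_apply, ne_eq, OfNat.ofNat_ne_zero, not_false_eq_true, zero_pow,
    Finset.sum_const_zero, Real.sqrt_zero] at this
  exact this.trans_lt (by norm_num)) hc)

theorem cpt_KM (hP : PhiStmt) (hD : D.Ok) (hT : T.Ok) (hB : B.Ok) : IsCompact (KM B) := by
  have := hD.isF.cpt
  have c : Continuous fun x => B.pM (B.i x) := (cont_pM hB).comp hB.oi.sm.cont
  have c2 : ∀ k, IsCompact ((fun x => B.pM (B.i (T.κ k x))) '' KC D) := fun k =>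
    (cpt_KC hP hD).image_of_continuousOn
      (c.comp_continuousOn ((hT.oκ k).sm.contOn.mono (KC_sub hP)))
  exact (((((cpt_KA hP).prod isCompact_univ).image_of_continuousOn (c.comp_continuousOn
    (hT.oι.sm.contOn.mono fun p hp => far_JU hP hp.1.2.2))).union (c2 _)).union (c2 _)).union
      ((isCompact_univ.prod isCompact_Icc).image (oe_nu hB).sm.cont)

theorem pM_i (hB : B.Ok) (g : PG) (x : T.Gt) : B.pM (B.i (T.act g x)) = B.pM (B.i x) := by
  rw [← hB.ai, pM_act hB]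

/-- points of `J` far from the lattice -/
theorem mem_far (hP : PhiStmt) (hT : T.Ok) (hB : B.Ok) {p : J}
    (hp : ∀ k, 1 / 8 ≤ muz (p.1 - lat k)) : B.pM (B.i (T.ι p)) ∈ KM B := by
  have key : ∀ x : ℝ, sg 1 * x + ((2 * -⌊x / 2⌋ : ℤ) : ℝ) ∈ Icc (0 : ℝ) 2 := fun x => by
    have h1 := Int.floor_le (x / 2)
    have h2 := Int.lt_floor_add_one (x / 2)
    rw [sg_one]
    push_cast
    constructor <;> linarith
  let g := zG (-⌊p.1.re / 2⌋, -⌊p.1.im / 2⌋)
  refine .inl (.inl (.inl ⟨actJ g p, ⟨⟨key _, key _, fun k => ?_⟩, trivial⟩, ?_⟩))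
  · have e : lat k = gC g (lat (gZ g⁻¹ k)) := by
      rw [gC_lat, ← gZ_mul, mul_inv_cancel, gZ_one]
    change 1 / 8 ≤ muz (gC g p.1 - lat k)
    rw [e, gC_sub, hP.mus]
    exact hp _
  · simp only [← hT.aι g p (far_JU hP hp), pM_i hB]

/-- points far out in the two ends -/
theorem mem_end (hD : D.Ok) (hT : T.Ok) (hB : B.Ok) {k : ℤ × ℤ} (hk : k = (0, 0) ∨ k = (1, 0))
    {w : D.Qt} (hw : 3 ≤ D.s w) : B.pM (B.i (T.κ k w)) ∈ KM B := by
  obtain ⟨m, e⟩ := hD.nsur w (by linarith)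
  have h0 : 0 < (D.s w - 2)⁻¹ := inv_pos.2 (by linarith)
  have h1 : (D.s w - 2)⁻¹ ≤ 1 := inv_le_one_of_one_le₀ (by linarith)
  rcases hk with rfl | rfl
  · refine .inr ⟨(m, -(D.s w - 2)⁻¹), ⟨trivial, by constructor <;> simp only <;> linarith⟩,
      congrArg B.pM ((hB.rel _ _ _).2 ⟨(neg_lt_zero.2 h0).ne, ?_⟩).symm⟩
    rw [hT.act1, GtDat.en, if_pos (neg_lt_zero.2 h0)]
    simp only [inv_neg, inv_inv, sub_neg_eq_add, add_sub_cancel, e]
  · refine .inr ⟨(m, (D.s w - 2)⁻¹), ⟨trivial, by constructor <;> simp only <;> linarith⟩,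
      congrArg B.pM ((hB.rel _ _ _).2 ⟨h0.ne', ?_⟩).symm⟩
    rw [hT.act1, GtDat.en, if_neg h0.not_gt]
    simp only [inv_inv, add_sub_cancel, e]

theorem red (hD : D.Ok) (hT : T.Ok) (hB : B.Ok) (k : ℤ × ℤ) (a : ℤˣ) {w : D.Qt} (hw : w ∈ D.U) :
    ∃ k₀, (k₀ = (0, 0) ∨ k₀ = (1, 0)) ∧
      B.pM (B.i (T.κ k w)) = B.pM (B.i (T.κ k₀ (if a = 1 then w else D.σ w))) := by
  have key : ∀ (g : PG) k₀, g.a = a → B.pM (B.i (T.κ (gZ g k₀) w)) =
      B.pM (B.i (T.κ k₀ (if a = 1 then w else D.σ w))) := fun g k₀ e => by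
    have e1 : (if a = 1 then w else D.σ w) = D.sq g w := by rw [← e]; rfl
    have e2 : D.sq g (D.sq g w) = w := by
      unfold QDat.sq; split_ifs; exacts [rfl, hD.σσ w]
    rw [e1, ← pM_i hB g (T.κ k₀ _), hT.aκ g k₀ _ (sq_mem hD g hw), e2]
  rcases exists_gZ k a with ⟨g, e, rfl⟩ | ⟨g, e, rfl⟩
  exacts [⟨_, .inl rfl, key g _ e⟩, ⟨_, .inr rfl, key g _ e⟩]

/-- points of a copy of `Qt` far from the circle -/
theorem mem_Q (hD : D.Ok) (hT : T.Ok) (hB : B.Ok) (k : ℤ × ℤ) {w : D.Qt} (hw : w ∈ D.U)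
    (hc : w ∉ D.c '' {q | nuv q.1 < 1 / 8}) : B.pM (B.i (T.κ k w)) ∈ KM B := by
  by_cases h : D.s w ≤ -3
  · obtain ⟨k₀, h0, e⟩ := red hD hT hB k (-1) hw
    rw [e, if_neg (by decide)]
    exact mem_end hD hT hB h0 (by rw [hD.sσ]; linarith)
  obtain ⟨k₀, h0, e⟩ := red hD hT hB k 1 hw
  rw [e, if_pos rfl]
  by_cases h' : 3 ≤ D.s w
  · exact mem_end hD hT hB h0 h'
  have hk : w ∈ KC D := ⟨abs_le.2 ⟨(not_le.1 h).le, (not_le.1 h').le⟩, hc⟩
  rcases h0 with rfl | rfl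
  exacts [.inl (.inl (.inr ⟨w, hk, rfl⟩)), .inl (.inr ⟨w, hk, rfl⟩)]

theorem mem_all (hP : PhiStmt) (hD : D.Ok) (hT : T.Ok) (hB : B.Ok) (x : T.Gt) :
    B.pM (B.i x) ∈ KM B := by
  rcases hT.cov x with ⟨p, hp, rfl⟩ | ⟨k, w, hw, rfl⟩
  · by_cases h : ∀ k, 1 / 8 ≤ muz (p.1 - lat k)
    · exact mem_far hP hT hB h
    obtain ⟨k, hk⟩ := not_forall.1 h
    obtain ⟨q, hq, rfl⟩ := hP.img k p (hp k) (by linarith)
    rw [rel_c hP hD hT k hq]
    refine mem_Q hD hT hB k ((c_mem hD (hP.sub hq)).2 hq.1) fun ⟨q', hq', e⟩ => ?_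
    have h1 := hP.mu k q hq
    have h2 : nuv q'.1 < 1 / 8 := hq'
    rw [((hD.ceq _ (small_col hP hq') _ (hP.sub hq)).1 e).1] at h2
    linarith
  · by_cases h : w ∈ D.c '' {q | nuv q.1 < 1 / 8}
    swap
    · exact mem_Q hD hT hB k hw h
    obtain ⟨q, hq, rfl⟩ := h
    have h2 : nuv q.1 < 1 / 8 := hq
    have hq' : q ∈ Dg := ⟨(c_mem hD (small_col hP hq)).1 hw, by linarith⟩
    rw [← rel_c hP hD hT k hq']
    refine mem_far hP hT hB fun k' => not_lt.1 fun h3 => ?_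
    obtain ⟨q', h4, e⟩ := hP.img k' _ (hP.mem k q hq' k') (by linarith)
    have h1 := hP.mu k q hq'
    rw [((hP.eq _ _ _ h4 _ hq').1 e).1] at h3
    linarith

theorem cpt_M (hP : PhiStmt) (hD : D.Ok) (hT : T.Ok) (hB : B.Ok) : CompactSpace B.M := by
  refine ⟨eq_univ_of_forall (s := KM B) (fun y => ?_) ▸ cpt_KM hP hD hT hB⟩
  obtain ⟨y, rfl⟩ := hB.sur y
  rcases hB.cov y with ⟨x, rfl⟩ | ⟨g, m, rfl⟩
  · exact mem_all hP hD hT hB x
  · exact .inr ⟨(m, 0), ⟨trivial, by simp⟩, (pM_nk hB g _).symm⟩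

end Cpt

open Cpt in
/-- row CPT -/
theorem cpt (hP : PhiStmt) : CptStmt := fun _ _ _ hD hT hB =>
  haveI := conn_Gt hP hD hT
  haveI := conn_MG hD hB
  ⟨cpt_M hP hD hT hB, inferInstance, inferInstance, hB.sur.connectedSpace (cont_pM hB), oe_nu hB,
    pre_nu hB⟩

end Pool.Agent.MP_e1dc65_gt.E

end
end MrgPart2

-- ======== part 3: formerly Pool.Agent.MP_e1dc65_gt.e.Lift
section MrgPart3

/-! PROJECT HC, part E: calculus of lifts to the spin cover; spin structures with two families of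
charts. -/

open scoped ContDiff Manifold Topology Quaternion Matrix
open Set Filter Function Module

noncomputable section

namespace Pool.Agent.MP_e1dc65_gt

/-- the matrix function `A` has a continuous lift on `S` -/
def SpinCover.Lifts (C : SpinCover) {Z : Type} [TopologicalSpace Z] (S : Set Z) (A : Z → M5) :
    Prop := ∃ a : Z → C.G, ContinuousOn a S ∧ ∀ x ∈ S, C.π (a x) = A x

namespace SpinCover
variable {C : SpinCover} {Z Z' : Type} [TopologicalSpace Z] [TopologicalSpace Z'] {S S' : Set Z}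
  {A A' B : Z → M5}

theorem sq_eq {a b : C.G} (h : C.π a = C.π b) : a * a = b * b := by
  rcases C.eq_or h with rfl | rfl
  · rfl
  · rw [mul_assoc, ← mul_assoc b, C.eps_comm b, mul_assoc, ← mul_assoc, C.eps_sq, one_mul]

/-- squares lift -/
theorem exists_sq (C : SpinCover) : ∃ q : M5 → C.G, ContinuousOn q {A | 0 < A.det} ∧
    ∀ g, q (C.π g) = g * g := by
  refine ⟨fun A => invFun C.π A * invFun C.π A, fun A hA => ?_, fun g =>
    sq_eq (invFun_eq ⟨g, rfl⟩)⟩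
  obtain ⟨O, hO, s, s1, s2⟩ := C.sec A hA
  have h := (s1.mul s1).continuousAt hO
  refine (h.congr ?_).continuousWithinAt
  filter_upwards [hO] with B hB
  exact sq_eq ((s2 B hB).trans (invFun_eq ⟨_, s2 B hB⟩).symm)

theorem Lifts.cont (h : C.Lifts S A) : ContinuousOn A S :=
  let ⟨_, a1, a2⟩ := h; (C.cont.comp_continuousOn a1).congr fun x hx => (a2 x hx).symm
theorem Lifts.pos (h : C.Lifts S A) {x : Z} (hx : x ∈ S) : 0 < (A x).det :=
  let ⟨_, _, a2⟩ := h; a2 x hx ▸ C.pos _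
theorem Lifts.mono (h : C.Lifts S A) (hs : S' ⊆ S) : C.Lifts S' A :=
  let ⟨a, a1, a2⟩ := h; ⟨a, a1.mono hs, fun x hx => a2 x (hs hx)⟩
theorem Lifts.congr (h : C.Lifts S A) (e : ∀ x ∈ S, A x = A' x) : C.Lifts S A' :=
  let ⟨a, a1, a2⟩ := h; ⟨a, a1, fun x hx => (a2 x hx).trans (e x hx)⟩
theorem Lifts.mul (h : C.Lifts S A) (h' : C.Lifts S B) : C.Lifts S fun x => A x * B x :=
  let ⟨a, a1, a2⟩ := h; let ⟨b, b1, b2⟩ := h'
  ⟨fun x => a x * b x, a1.mul b1, fun x hx => by rw [map_mul, a2 x hx, b2 x hx]⟩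
theorem Lifts.inv (h : C.Lifts S A) : C.Lifts S fun x => (A x)⁻¹ :=
  let ⟨a, a1, a2⟩ := h; ⟨fun x => (a x)⁻¹, a1.inv, fun x hx => by rw [C.π_inv, a2 x hx]⟩
theorem Lifts.comp {T : Set Z'} {f : Z' → Z} (h : C.Lifts S A) (hf : ContinuousOn f T)
    (m : MapsTo f T S) : C.Lifts T fun y => A (f y) :=
  let ⟨a, a1, a2⟩ := h; ⟨fun y => a (f y), a1.comp hf m, fun _ hy => a2 _ (m hy)⟩
theorem lifts_empty : C.Lifts ∅ A := ⟨fun _ => 1, continuousOn_empty _, fun _ h => h.elim⟩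
theorem lifts_const {M : M5} (h : 0 < M.det) : C.Lifts S fun _ => M :=
  let ⟨g, hg⟩ := C.surj h; ⟨fun _ => g, continuousOn_const, fun _ _ => hg⟩
theorem lifts_sq (h : ContinuousOn A S) (hd : ∀ x ∈ S, 0 < (A x).det) :
    C.Lifts S fun x => A x * A x := by
  obtain ⟨q, q1, q2⟩ := C.exists_sq
  refine ⟨fun x => q (A x), q1.comp h hd, fun x hx => ?_⟩
  obtain ⟨g, hg⟩ := C.surj (hd x hx)
  beta_reduce
  rw [← hg, q2, map_mul]
/-- maps into a convex set of matrices of positive determinant lift -/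
theorem lifts_convex {K : Set M5} (hK : Convex ℝ K) (hd : ∀ M ∈ K, 0 < M.det)
    (h : ContinuousOn A S) (m : MapsTo A S K) : C.Lifts S A := by
  rcases S.eq_empty_or_nonempty with rfl | ⟨x, hx⟩
  · exact lifts_empty
  obtain ⟨g, hg⟩ := C.surj (hd _ (m hx))
  obtain ⟨s, s1, s2, -⟩ := C.lift_star (m hx) (hK.starConvex (m hx)) hd hg
  exact ⟨fun x => s (A x), s1.comp h m, fun x hx => s2 _ (m hx)⟩
theorem lifts_perf [LocallyPathConnectedSpace Z] (hS : IsOpen S) (hP : Perf S)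
    (h : ContinuousOn A S) (hd : ∀ x ∈ S, 0 < (A x).det) : C.Lifts S A := C.lift hS hP h hd
/-- a continuous `M` that is pointwise `A * T * B` with `T` in a convex set lifts -/
theorem Lifts.sandwich {K : Set M5} {M : Z → M5} (hA : C.Lifts S A) (hB : C.Lifts S B)
    (hK : Convex ℝ K) (hd : ∀ M ∈ K, 0 < M.det) (h : ContinuousOn M S)
    (e : ∀ x ∈ S, ∃ T ∈ K, M x = A x * T * B x) : C.Lifts S M := by
  have u : ∀ {D : Z → M5}, C.Lifts S D → ∀ x ∈ S, IsUnit (D x).det := fun h x hx =>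
    (h.pos hx).ne'.isUnit
  refine ((hA.mul (lifts_convex hK hd ((hA.inv.cont.mul h).mul hB.inv.cont) fun x hx => ?_)).mul
    hB).congr fun x hx => ?_
  · obtain ⟨T, hT, e⟩ := e x hx
    simp only [Pi.mul_apply, e, ← mul_assoc, Matrix.nonsing_inv_mul _ (u hA x hx), one_mul]
    rwa [mul_assoc, Matrix.mul_nonsing_inv _ (u hB x hx), mul_one]
  · simp only [Pi.mul_apply, ← mul_assoc, Matrix.mul_nonsing_inv _ (u hA x hx), one_mul]
    rw [mul_assoc, Matrix.nonsing_inv_mul _ (u hB x hx), mul_one]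
/-- disjoint unions -/
theorem lifts_of_pieces {I : Type} {V : I → Set Z} (ho : ∀ a, IsOpen (V a))
    (hd : ∀ a b, ∀ x ∈ S, x ∈ V a → x ∈ V b → a = b) (hc : ∀ x ∈ S, ∃ a, x ∈ V a)
    (h : ∀ a, C.Lifts (S ∩ V a) A) : C.Lifts S A := by
  classical
  choose s s1 s2 using h
  have e : ∀ a, ∀ y ∈ S ∩ V a, (if h : y ∈ S then s (hc y h).choose y else 1) = s a y :=
    fun a y hy => by rw [dif_pos hy.1, hd _ _ y hy.1 (hc y hy.1).choose_spec hy.2]
  refine ⟨fun y => if h : y ∈ S then s (hc y h).choose y else 1, fun x hx => ?_, fun x hx => ?_⟩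
  · obtain ⟨a, ha⟩ := hc x hx
    exact (continuousWithinAt_inter ((ho a).mem_nhds ha)).1 ((s1 a).congr (e a) x ⟨hx, ha⟩)
  · obtain ⟨a, ha⟩ := hc x hx
    exact (congrArg C.π (e a x ⟨hx, ha⟩)).trans (s2 a x ⟨hx, ha⟩)
theorem Lifts.union (h : C.Lifts S A) (h' : C.Lifts S' A) (ho : IsOpen S) (ho' : IsOpen S')
    (hd : Disjoint S S') : C.Lifts (S ∪ S') A :=
  lifts_of_pieces (V := fun b : Bool => cond b S S') (Bool.forall_bool.2 ⟨ho', ho⟩)
    (by
      rintro (_ | _) (_ | _) x - a b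
      exacts [rfl, (disjoint_left.1 hd b a).elim, (disjoint_left.1 hd a b).elim, rfl])
    (fun x hx => hx.elim (fun h => ⟨true, h⟩) fun h => ⟨false, h⟩)
    (Bool.forall_bool.2 ⟨h'.mono inter_subset_right, h.mono inter_subset_right⟩)

end SpinCover

/-- descent of continuous maps along a map that is open at the points of `S` -/
theorem contOn_descend {Z Z' T : Type} [TopologicalSpace Z] [TopologicalSpace Z']
    [TopologicalSpace T] [Nonempty Z] {S : Set Z} {p : Z → Z'} {a : Z → T} (hS : IsOpen S)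
    (hp : ∀ x ∈ S, map p (𝓝 x) = 𝓝 (p x)) (ha : ContinuousOn a S)
    (e : ∀ x ∈ S, ∀ y ∈ S, p x = p y → a x = a y) :
    ∃ b : Z' → T, ContinuousOn b (p '' S) ∧ ∀ x ∈ S, b (p x) = a x := by
  have h : ∀ x ∈ S, a (invFunOn p S (p x)) = a x := fun x hx =>
    e _ (invFunOn_mem ⟨x, hx, rfl⟩) _ hx (invFunOn_eq ⟨x, hx, rfl⟩)
  refine ⟨fun y => a (invFunOn p S y), ?_, h⟩
  rintro _ ⟨x, hx, rfl⟩
  refine ContinuousAt.continuousWithinAt ?_
  rw [ContinuousAt, ← hp x hx, h x hx, tendsto_map'_iff]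
  exact (ha.continuousAt (hS.mem_nhds hx)).tendsto.congr'
    (mem_of_superset (hS.mem_nhds hx) fun y hy => (h y hy).symm)

variable {E E' : Type} [NormedAddCommGroup E] [NormedSpace ℝ E] [FiniteDimensional ℝ E]
  [NormedAddCommGroup E'] [NormedSpace ℝ E'] [FiniteDimensional ℝ E']
  {C : SpinCover} {X : Mf E} {Y : Mf E'} {U U' V : Set X} {x : X}

omit [FiniteDimensional ℝ E] [FiniteDimensional ℝ E'] in
/-- one-loop criterion: a lift upstairs that is invariant at one point under a deck map is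
invariant everywhere -/
theorem SpinCover.deck {Z : Type} [TopologicalSpace Z] {S : Set Z} {a : Z → C.G} {k : Z → Z}
    (hS : IsPreconnected S) (ha : ContinuousOn a S) (hk : ContinuousOn k S) (m : MapsTo k S S)
    (e : ∀ x ∈ S, C.π (a (k x)) = C.π (a x)) {x : Z} (hx : x ∈ S) (e0 : a (k x) = a x) :
    ∀ y ∈ S, a (k y) = a y := SpinCover.uniq hS (ha.comp hk m) ha e hx e0

omit [FiniteDimensional ℝ E] [FiniteDimensional ℝ E'] in
/-- lifts are carried along open embeddings -/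
theorem OE.lifts {f : X → Y} (h : OE X Y f U) (hV : V ⊆ U) {A : Y → M5}
    (hA : C.Lifts V fun x => A (f x)) : C.Lifts (f '' V) A :=
  (hA.comp (h.symm.sm.contOn.mono (image_mono hV))
    (by rintro _ ⟨x, hx, rfl⟩; rwa [h.left (hV hx)])).congr
    (by rintro _ ⟨x, hx, rfl⟩; rw [h.left (hV hx)])

/-- pairwise disjoint charts -/
abbrev Spin.disj {I : Type} {W : I → Set X} {Θ : I → X → E →L[ℝ] Rn 5} (ho : ∀ i, IsOpen (W i))
    (hc : ∀ i, Cof X 0 (Θ i) (W i)) (hd : ∀ i j x, x ∈ W i → x ∈ W j → i = j) :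
    Spin C X (⋃ i, W i) where
  ι := I
  W := W
  Θ := Θ
  op := ho
  sub := subset_iUnion W
  cov _ := mem_iUnion.1
  cof := hc
  g _ _ _ := 1
  cont _ _ := continuousOn_const
  proj i j x hx := by rw [← hd i j x hx.1 hx.2, map_one, tm_self (hc i x hx.1).2]
  coc _ _ _ _ _ := mul_one _

/-- two families of pairwise disjoint charts whose transition matrices lift -/
theorem spin_two {I K : Type} {W : I → Set X} {W' : K → Set X} {Θ : I → X → E →L[ℝ] Rn 5}
    {Θ' : K → X → E →L[ℝ] Rn 5} (ho : ∀ i, IsOpen (W i)) (ho' : ∀ k, IsOpen (W' k))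
    (hc : ∀ i, Cof X 0 (Θ i) (W i)) (hc' : ∀ k, Cof X 0 (Θ' k) (W' k))
    (hd : ∀ i j x, x ∈ W i → x ∈ W j → i = j) (hd' : ∀ i j x, x ∈ W' i → x ∈ W' j → i = j)
    (hl : ∀ k i, C.Lifts (W' k ∩ W i) fun x => tm (Θ' k x) (Θ i x))
    (hU : ∀ x, x ∈ U ↔ (∃ i, x ∈ W i) ∨ ∃ k, x ∈ W' k) :
    ∃ (sp : Spin C X U) (e : I → sp.ι) (e' : K → sp.ι), (∀ i, sp.W (e i) = W i ∧ sp.Θ (e i) = Θ i) ∧
      ∀ k, sp.W (e' k) = W' k ∧ sp.Θ (e' k) = Θ' k := by
  choose c c1 c2 using hl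
  have h : Cmp (Spin.disj (C := C) ho hc hd) (Spin.disj ho' hc' hd') c :=
    cmp_mk c1 (fun k i x a b => c2 k i x ⟨a, b⟩)
      (fun k i i' x _ b b' => by rw [hd i i' x b b']; exact mul_one _)
      fun k k' i x a a' _ => by rw [hd' k k' x a a']; exact one_mul _
  exact ⟨h.glue.cast (by ext x; simp only [hU, mem_union, mem_iUnion]), .inl, .inr,
    fun _ => ⟨rfl, rfl⟩, fun _ => ⟨rfl, rfl⟩⟩

end Pool.Agent.MP_e1dc65_gt

end
end MrgPart3

-- ======== part 4: formerly Pool.Agent.MP_e1dc65_gt.e.bOvS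
section MrgPart4

/-! PROJECT HC, part E, sub-part B: the statement of the overlap computation. -/

open scoped ContDiff Manifold Topology Matrix Real
open Set Filter Function Module

noncomputable section

namespace Pool.Agent.MP_e1dc65_gt.E

/-- row OV: a coframe on `J × ℝ` whose comparison with the coframes of the columns lifts -/
def OvStmt : Prop := ∀ C : SpinCover, ∃ Θ : J.cyl → (ℂ × Rn 2) × ℝ →L[ℝ] Rn 5,
  Cof J.cyl 0 Θ (JU ×ˢ univ) ∧ ∀ k : ℤ × ℤ, ∃ A : J.cyl → M5, C.Lifts ((phi k '' Dg) ×ˢ univ) A ∧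
    ∀ p ∈ Dg, ∀ t v r, Θ (phi k p, t) (Df (vs (Rn 3 × ℝ)) J (phi k) p v, r) =
      A (phi k p, t) *ᵥ (sg (k.1 + k.2).negOnePow • ![v.1 0, v.1 1, v.2, v.1 2, r])

end Pool.Agent.MP_e1dc65_gt.E

end
end MrgPart4

-- ======== part 5: formerly Pool.Agent.MP_e1dc65_gt.e.Ori
section MrgPart5

/-! PROJECT HC, part E: orientations from spin atlases, and orientations of quotients. -/

open scoped ContDiff Manifold Topology Matrix
open Set Filter Function Module Pool.Agent.MP_c8d41b_gt.GF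

noncomputable section

namespace Pool.Agent.MP_e1dc65_gt

variable {E E' : Type} [NormedAddCommGroup E] [NormedSpace ℝ E] [FiniteDimensional ℝ E]
  [NormedAddCommGroup E'] [NormedSpace ℝ E'] [FiniteDimensional ℝ E'] {X : Mf E} {Y : Mf E'}
  {N : ℕ} {U : Set X} {V : Set Y} {x : X}

theorem top_smul (hd : finrank ℝ E = N) {a b : Lam E} (ha : a ∈ dg E N) (h0 : a ≠ 0)
    (hb : b ∈ dg E N) : b = cf a b • a := by
  subst hd
  by_contra h
  refine ev_basis_ne (finBasis ℝ E) (sub_mem hb (Submodule.smul_mem _ _ ha)) (sub_ne_zero.2 h) ?_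
  rw [ev_sub, ev_smul, cf, div_mul_cancel₀ _ (ev_basis_ne _ ha h0), sub_self]

/-- charts are orientable -/
theorem ori_ch (hd : finrank ℝ E = N) (x : X) : ∃ o, Ori X N o (ch X x).source :=
  let ⟨a, ha, h0⟩ := exists_top hd
  ⟨_, Ori.pb (Y := vs E) (o := fun _ => a) (W := univ)
    ⟨hd, fun _ _ => ⟨fmAt_vs.2 contDiffAt_const, ha⟩, fun _ _ => h0⟩ hd (fun _ => ldAt_ch)
    (mapsTo_univ _ _)⟩

/-- a continuous field of rays of forms of top degree -/
structure Ray (X : Mf E) (N : ℕ) (Q : X → Lam E → Prop) (U : Set X) : Prop where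
  dim : finrank ℝ E = N
  op : IsOpen U
  or : ∀ x ∈ U, ∀ a ∈ dg E N, a ≠ 0 → Q x a ∨ Q x (-a)
  smul : ∀ x ∈ U, ∀ a ∈ dg E N, ∀ r : ℝ, Q x a → (Q x (r • a) ↔ 0 < r)
  ev : ∀ x ∈ U, ∀ α, FmAt X α x → Q x (α x) → ∀ᶠ y in 𝓝 x, Q y (α y)

variable {Q : X → Lam E → Prop} {Q' : Y → Lam E' → Prop}

theorem Ray.ne (h : Ray X N Q U) (hx : x ∈ U) {a : Lam E} (ha : a ∈ dg E N) (q : Q x a) : a ≠ 0 := by
  rintro rfl
  exact lt_irrefl _ ((h.smul x hx 0 ha 0 q).1 (by rwa [smul_zero]))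

theorem Ray.cf_pos (h : Ray X N Q U) (hx : x ∈ U) {a b : Lam E} (ha : a ∈ dg E N)
    (hb : b ∈ dg E N) (q : Q x a) (q' : Q x b) : 0 < cf a b :=
  (h.smul x hx a ha _ q).1 (top_smul h.dim ha (h.ne hx ha q) hb ▸ q')

/-- a field of rays contains an orientation form -/
theorem Ray.ori (h : Ray X N Q U) : ∃ o, Ori X N o U ∧ ∀ x ∈ U, Q x (o x) := by
  classical
  have l : ∀ i : U, ∃ (W : Set X) (o : X → Lam E), IsOpen W ∧ i.1 ∈ W ∧ Ori X N o W ∧
      ∀ y ∈ W, Q y (o y) := fun i => by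
    have k : ∀ o, Ori X N o (ch X i.1).source → Q i.1 (o i.1) → ∃ (W : Set X) (o : X → Lam E),
        IsOpen W ∧ i.1 ∈ W ∧ Ori X N o W ∧ ∀ y ∈ W, Q y (o y) := fun o ho q => by
      obtain ⟨W, w1, w2, w3⟩ := mem_nhds_iff.1 (inter_mem (ch_src_nhds (X := X) (x := i.1))
        (h.ev i i.2 o (ho.fm _ (mem_chart_source E i.1)).1 q))
      exact ⟨W, o, w2, w3, ho.mono fun y hy => (w1 hy).1, fun y hy => (w1 hy).2⟩
    obtain ⟨o, ho⟩ := ori_ch h.dim i.1
    have m := mem_chart_source E i.1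
    exact (h.or i i.2 _ (ho.fm _ m).2 (ho.ne _ m)).elim (k o ho) (k _ ho.neg)
  choose W o w1 w2 w3 w4 using l
  obtain ⟨ρ, r1, r2, r3, r4, r5⟩ := (bumpM E X).2 U W U h.op w1 fun x hx => ⟨⟨x, hx⟩, w2 _⟩
  have key : ∀ x (hx : x ∈ U), FmAt X (fun y => ∑ᶠ i, ρ i y • o i y) x ∧
      ∃ r : ℝ, 0 < r ∧ ∑ᶠ i, ρ i x • o i x = r • o ⟨x, hx⟩ x := fun x hx => by
    obtain ⟨O, s, hO, hs⟩ := r4 x hx
    have e : ∀ y ∈ O, ∑ᶠ i, ρ i y • o i y = ∑ i ∈ s, ρ i y • o i y := fun y hy =>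
      finsum_eq_sum_of_support_subset _ fun i hi => by_contra fun k => hi (by simp [hs i k y hy])
    have m := mem_of_mem_nhds hO
    have a1 := ((w3 ⟨x, hx⟩).fm x (w2 _)).2
    refine ⟨(fmAt_sum fun i _ => ?_).congr' (mem_of_superset hO e),
      ∑ i ∈ s, ρ i x * if x ∈ W i then cf (o ⟨x, hx⟩ x) (o i x) else 1, ?_, ?_⟩
    · by_cases k : x ∈ W i
      · exact ((w3 i).fm x k).1.fsmul (r1 i x hx)
      · exact fmAt_of_ev ((r3 i x hx k).mono fun y hy => by simp [hy])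
    · have c : ∀ i, 0 < if x ∈ W i then cf (o ⟨x, hx⟩ x) (o i x) else 1 := fun i => by
        split_ifs with k
        exacts [h.cf_pos hx a1 ((w3 i).fm x k).2 (w4 _ x (w2 _)) (w4 i x k), one_pos]
      refine Finset.sum_pos' (fun i _ => mul_nonneg (r2 i x) (c i).le) (by_contra fun k => ?_)
      have := r5 x hx
      rw [finsum_eq_zero_of_forall_eq_zero fun i => by_contra fun k' =>
        k ⟨i, by_contra fun k'' => k' (hs i k'' x m), mul_pos ((r2 i x).lt_of_ne' k') (c i)⟩] at this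
      exact zero_ne_one this
    · rw [e x m, Finset.sum_smul]
      refine Finset.sum_congr rfl fun i _ => ?_
      split_ifs with k
      · rw [mul_smul, ← top_smul h.dim a1 ((w3 _).ne x (w2 _)) ((w3 i).fm x k).2]
      · simp [(r3 i x hx k).eq_of_nhds]
  refine ⟨fun y => ∑ᶠ i, ρ i y • o i y, ⟨h.dim, fun x hx => ⟨(key x hx).1, ?_⟩, fun x hx => ?_⟩,
    fun x hx => ?_⟩ <;> obtain ⟨-, r, hr, e⟩ := key x hx <;> simp only [e]
  · exact Submodule.smul_mem _ _ ((w3 _).fm x (w2 _)).2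
  · exact smul_ne_zero hr.ne' ((w3 _).ne x (w2 _))
  · exact (h.smul x hx _ ((w3 _).fm x (w2 _)).2 r (w4 _ x (w2 _))).2 hr

theorem Ray.conn (h : Ray X N Q U) {S : Set X} {o : X → Lam E} (ho : Ori X N o U) (hS : S ⊆ U)
    (hc : IsPreconnected S) (hx : x ∈ S) (q : Q x (o x)) : ∀ y ∈ S, Q y (o y) := by
  have op : ∀ {o}, Ori X N o U → IsOpen {y | y ∈ U ∧ Q y (o y)} := fun ho =>
    isOpen_iff_mem_nhds.2 fun y hy => inter_mem (h.op.mem_nhds hy.1) (h.ev y hy.1 _ (ho.fm y hy.1).1 hy.2)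
  exact fun y hy => (hc.subset_left_of_subset_union (op ho) (op ho.neg)
    (disjoint_left.2 fun z a b => by
      have := (h.smul z a.1 _ (ho.fm z a.1).2 (-1) a.2).1 (by rw [neg_one_smul]; exact b.2)
      norm_num at this)
    (fun z hz => (h.or z (hS hz) _ (ho.fm z (hS hz)).2 (ho.ne z (hS hz))).imp (fun k => ⟨hS hz, k⟩)
      fun k => ⟨hS hz, k⟩) ⟨x, hx, hS hx, q⟩ hy).2

/-- a local diffeomorphism of a connected set that is positive at one point is positive -/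
theorem Ray.pos (h : Ray X N Q U) (h' : Ray Y N Q' V) (hc : IsPreconnected V) {g : Y → X}
    (hg : ∀ y ∈ V, LDAt Y X g y) (m : MapsTo g V U) {y : Y} (hy : y ∈ V)
    (q : ∀ a ∈ dg E N, Q (g y) a → Q' y (mp (Df Y X g y) a)) :
    ∀ y ∈ V, ∀ a ∈ dg E N, Q (g y) a → Q' y (mp (Df Y X g y) a) := by
  obtain ⟨o, o1, o2⟩ := h.ori
  intro z hz a ha k
  have d := (o1.fm _ (m hz)).2
  rw [top_smul h.dim d (o1.ne _ (m hz)) ha, map_smul]
  exact (h'.smul z hz _ (dg_mp _ d) _ (h'.conn (o1.pb h'.dim hg m) subset_rfl hc hy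
    (q _ (o1.fm _ (m hy)).2 (o2 _ (m hy))) z hz)).2 (h.cf_pos (m hz) d ha (o2 _ (m hz)) k)

/-- push-forward of an invariant field -/
theorem Ray.push (h : Ray Y N Q' V) (hd : finrank ℝ E = N) {p : Y → X} (hp : ∀ y ∈ V, LDAt Y X p y)
    (inv : ∀ y ∈ V, ∀ y' ∈ V, p y = p y' → ∀ a ∈ dg E N, Q' y (mp (Df Y X p y) a) →
      Q' y' (mp (Df Y X p y') a)) :
    Ray X N (fun x a => ∃ y ∈ V, p y = x ∧ Q' y (mp (Df Y X p y) a)) (p '' V) := by
  refine ⟨hd, isOpen_image_ld h.op hp, ?_, ?_, ?_⟩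
  · rintro _ ⟨y, hy, rfl⟩ a ha h0
    exact (h.or y hy _ (dg_mp _ ha) fun e => h0 (mp_injective (hp y hy).inv
      (e.trans (map_zero _).symm))).imp (fun k => ⟨y, hy, rfl, k⟩)
        fun k => ⟨y, hy, rfl, by rwa [map_neg]⟩
  · rintro x - a ha r ⟨y, hy, rfl, k⟩
    refine ⟨fun ⟨y', hy', e, k'⟩ => (h.smul y hy _ (dg_mp _ ha) r k).1 ?_,
      fun hr => ⟨y, hy, rfl, ?_⟩⟩
    · rw [← map_smul]; exact inv y' hy' y hy e _ (Submodule.smul_mem _ _ ha) k'
    · rw [map_smul]; exact (h.smul y hy _ (dg_mp _ ha) r k).2 hr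
  · rintro x - α hα ⟨y, hy, rfl, k⟩
    rw [← (hp y hy).map_nhds, eventually_map]
    filter_upwards [h.ev y hy _ (hα.pb (hp y hy).sm) k, h.op.mem_nhds hy] with z k hz
    exact ⟨z, hz, rfl, k⟩

theorem fmAt_oc {α : X → Lam E} {p : X.cyl} (h : FmAt X α p.1) :
    FmAt X.cyl (fun q => oc (α q.1)) p := by
  refine ((h.pb (X := X.cyl) smAt_fst).mul (fmAt_dF (X := X.cyl) smAt_snd)).congr'
    (.of_forall fun q => ?_)
  beta_reduce
  rw [oc, pbM, dF, Df_fst]
  congr 2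
  exact (Df_snd (X := X) (Y := vs ℝ) q).symm

/-- restriction from the cylinder -/
theorem Ray.cyl {O : Set X.cyl} {Q : X.cyl → Lam (E × ℝ) → Prop} (h : Ray X.cyl (N + 1) Q O) :
    Ray X N (fun x a => Q (x, 0) (oc a)) {x | (x, 0) ∈ O} := by
  have hd : finrank ℝ E = N := by simpa using h.dim
  have d : ∀ a ∈ dg E N, oc a ∈ dg (E × ℝ) (N + 1) := fun a ha => dg_mul (dg_mp _ ha) (dg_ι _)
  have s : ∀ (r : ℝ) (a : Lam E), oc (r • a) = r • oc a := fun r a => by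
    rw [oc, oc, map_smul, smul_mul_assoc]
  have c : Continuous fun x : X => ((x, 0) : X.cyl) := by fun_prop
  refine ⟨hd, h.op.preimage c, fun x hx a ha h0 => ?_,
    fun x hx a ha r k => by rw [s]; exact h.smul _ hx _ (d a ha) r k,
    fun x hx α hα k => c.continuousAt.eventually (h.ev _ hx _ (fmAt_oc hα) k)⟩
  rw [← neg_one_smul ℝ a, s, neg_one_smul]
  refine h.or _ hx _ (d a ha) fun e => ?_
  subst hd
  exact ev_basis_ne (finBasis ℝ E) ha h0 (by rw [← ev_oc, e, ev_zero])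

/-- the orientation of a spin structure -/
theorem Spin.ray {C : SpinCover} (sp : Spin C X U) (hd : finrank ℝ E = 5) :
    Ray X 5 (fun x a => ∃ i, x ∈ sp.W i ∧ PosB (Pi.basisFun ℝ (Fin 5)) a (sp.Θ i x)) U := by
  refine ⟨hd, sp.isOpen, fun x hx a ha h0 => ?_, fun x _ a _ r ⟨i, hi, k⟩ =>
    ⟨fun ⟨j, hj, k'⟩ => ?_, fun hr => ⟨i, hi, (posB_smul hr).2 k⟩⟩, fun x _ α hα ⟨i, hi, k⟩ => ?_⟩
  · obtain ⟨i, hi⟩ := sp.cov x hx
    exact (posB_or _ ha h0 (sp.inv hi)).imp (fun k => ⟨i, hi, k⟩) fun k => ⟨i, hi, k⟩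
  · have := (k'.iff_tm (sp.inv hj)).2 (sp.det_pos hj hi)
    rw [PosB, ev_smul] at this
    exact (mul_pos_iff_of_pos_right k).1 this
  · filter_upwards [(sp.cof i x hi).1.ev_pos (sp.inv hi) hα k, (sp.op i).mem_nhds hi] with y a b
    exact ⟨i, b, a⟩

/-- orientation from a spin atlas -/
theorem Spin.ori {C : SpinCover} (sp : Spin C X U) (hd : finrank ℝ E = 5) :
    ∃ o, Ori X 5 o U ∧ ∀ i, ∀ x ∈ sp.W i, PosB (Pi.basisFun ℝ (Fin 5)) (o x) (sp.Θ i x) :=
  let ⟨o, o1, o2⟩ := (sp.ray hd).ori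
  ⟨o, o1, fun i x hi => let ⟨_, hj, k⟩ := o2 x (sp.sub i hi)
    (k.iff_tm (sp.inv hj)).2 (sp.det_pos hj hi)⟩

/-- orientation of a 4-manifold from a spin atlas of the cylinder -/
theorem Spin.ori_cyl {C : SpinCover} {O : Set X.cyl} (sp : Spin C X.cyl O) (hd : finrank ℝ E = 4) :
    ∃ o, Ori X 4 o {x | (x, 0) ∈ O} ∧ ∀ i x, (x, 0) ∈ sp.W i →
      PosB (Pi.basisFun ℝ (Fin 5)) (oc (o x)) (sp.Θ i (x, 0)) :=
  let ⟨o, o1, o2⟩ := (Ray.cyl (N := 4) (sp.ray (by simp [hd]))).ori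
  ⟨o, o1, fun i x hi => let ⟨_, hj, k⟩ := o2 x (sp.sub i hi)
    (k.iff_tm (sp.inv hj)).2 (sp.det_pos hj hi)⟩

/-- orientation of the quotient of a connected spin 4-manifold by maps that preserve the
orientation at one point -/
theorem ori_quot {C : SpinCover} [PreconnectedSpace Y] (sp : Spin C Y.cyl univ)
    (hd : finrank ℝ E' = 4) {G : Type} {act : G → Y → Y} (ha : ∀ g y, LDAt Y Y (act g) y)
    {p : Y → X} (hp : ∀ y, LDAt Y X p y) (hs : Surjective p)
    (fib : ∀ y y', p y = p y' ↔ ∃ g, act g y = y')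
    (h : ∀ g, ∃ y i j, (y, 0) ∈ sp.W i ∧ (act g y, 0) ∈ sp.W j ∧ 0 < (tm ((sp.Θ j (act g y, 0)).comp
      ((Df Y Y (act g) y).prodMap (ContinuousLinearMap.id ℝ ℝ))) (sp.Θ i (y, 0))).det) :
    ∃ o, Ori X 4 o univ := by
  have r := Ray.cyl (N := 4) (sp.ray (by simp [hd]))
  simp only [mem_univ, ofPred_true] at r
  obtain ⟨y₀⟩ := Y.ne
  refine (r.push ((hp y₀).finrank_eq ▸ hd) (fun y _ => hp y) fun y' _ y _ e a d k => ?_).ori.imp
    fun o ho => by simpa only [image_univ, hs.range_eq] using ho.1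
  obtain ⟨g, rfl⟩ := (fib y y').1 e.symm
  obtain ⟨z, i, j, hi, hj, hz⟩ := h g
  have l := (inv_prodMap (ha g z).inv (id_inv (V := ℝ))).1
  have := r.pos r isPreconnected_univ (fun y _ => ha g y) (mapsTo_univ _ _) (mem_univ z)
    (fun a _ ⟨j', hj', k⟩ => ⟨i, hi, by
      rw [← mp_oc]
      exact (((posB_pull l).2 ((k.iff_tm (sp.inv hj')).2 (sp.det_pos hj' hj))).iff_tm
        ((sp.inv hj).comp l)).2 hz⟩) y trivial _ (dg_mp _ d) k
  rwa [← mp_comp, ← Df_comp (ha g y).sm (hp _).sm, show (fun y => p (act g y)) = p from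
    funext fun y => ((fib _ _).2 ⟨g, rfl⟩).symm] at this

end Pool.Agent.MP_e1dc65_gt

end
end MrgPart5

-- marker of a merged file
example : 731051 + 160291 = 731051 + 160291 := rfl

end MrgPart0

-- ======== part 1: formerly Pool.Agent.MP_e1dc65_gt.e.bSpin
section MrgPart1

/-! PROJECT HC, part E, sub-part B, row SPIN: the spin structure of `MG` and the orientation
of `M`. -/

open scoped ContDiff Manifold Topology Matrix Real
open Set Filter Function Module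

noncomputable section

namespace Pool.Agent.MP_e1dc65_gt.E

namespace Spn

section
variable {E E' E'' : Type} [NormedAddCommGroup E] [NormedSpace ℝ E] [FiniteDimensional ℝ E]
  [NormedAddCommGroup E'] [NormedSpace ℝ E'] [FiniteDimensional ℝ E'] [NormedAddCommGroup E'']
  [NormedSpace ℝ E''] [FiniteDimensional ℝ E''] {X : Mf E} {Y : Mf E'} {Z : Mf E''} {f : X → Y}
  {U V : Set X}

omit [FiniteDimensional ℝ E] [FiniteDimensional ℝ E'] in
theorem Df_cyl {h : ℝ → ℝ} {p : X.cyl} (hf : SmAt X Y f p.1) (hh : ContDiffAt ℝ ∞ h p.2) (v : E)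
    (r : ℝ) :
    Df X.cyl Y.cyl (fun p => (f p.1, h p.2)) p (v, r) = (Df X Y f p.1 v, deriv h p.2 * r) := by
  rw [Df_pair (Z := vs ℝ) (smAt_fst.trans hf) (smAt_snd.vcomp hh), Df_comp smAt_fst hf, Df_fst,
    Df_vcomp smAt_snd hh, Df_snd (Y := vs ℝ)]
  simp [mul_comm]

/-- coframes of cylinders are carried along open embeddings -/
theorem push_cyl (h : OE X Y f U) (hV : V ⊆ U) {Θ : X.cyl → E × ℝ →L[ℝ] Rn 5}
    (hΘ : Cof X.cyl 0 Θ (V ×ˢ univ)) : ∃ Θ' : Y.cyl → E' × ℝ →L[ℝ] Rn 5,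
      Cof Y.cyl 0 Θ' ((f '' V) ×ˢ univ) ∧
        ∀ x ∈ U, ∀ t v r, Θ' (f x, t) (Df X Y f x v, r) = Θ (x, t) (v, r) := by
  refine ⟨_, hΘ.pb (X := Y.cyl) (f := fun q => (invFunOn f U q.1, q.2))
    (fun q hq => (h.symm.ld _ (image_mono hV hq.1)).prodMap (ldAt_id (X := vs ℝ) (x := q.2)))
    (by rintro ⟨_, t⟩ ⟨⟨x, hx, rfl⟩, -⟩; exact ⟨by simpa only [h.left (hV hx)], trivial⟩),
    fun x hx t v r => ?_⟩
  have s := h.symm.sm _ ⟨x, hx, rfl⟩
  have e : Df X X (fun y => invFunOn f U (f y)) x = ContinuousLinearMap.id ℝ E := by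
    rw [← Df_id (X := X) (x := x)]
    exact Df_congr (by filter_upwards [h.op.mem_nhds hx] with z hz using h.left hz)
  rw [Df_comp (h.sm x hx) s] at e
  rw [ContinuousLinearMap.comp_apply, Df_cyl (h := fun t => t) (p := (f x, t)) s contDiffAt_id,
    h.left hx, deriv_id'', one_mul]
  exact congrArg (fun w => Θ (x, t) (w, r)) (DFunLike.congr_fun e v)

omit [FiniteDimensional ℝ E] [FiniteDimensional ℝ E'] in
theorem tm_cyl {a b : E × ℝ →L[ℝ] Rn 5} (hb : b.IsInvertible) {L : E' →L[ℝ] E}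
    (hL : L.IsInvertible) {A : M5} (h : ∀ v r, a (L v, r) = A *ᵥ b (L v, r)) : tm a b = A :=
  tm_eq hb fun w => by simpa only [hL.self_apply_inverse] using h (L.inverse w.1) w.2

theorem cof_sg {Θ : X → E →L[ℝ] Rn 5} (h : Cof X 0 Θ U) (u : ℤˣ) :
    Cof X 0 (fun x => sg u • Θ x) U := fun x hx =>
  ⟨(h x hx).1.smul contMDiffAt_const, by
    simpa using (h x hx).2.comp ((bm_smul (X := X) (σ := fun _ => sg u) isOpen_univ
      continuousOn_const fun _ _ => sg_ne u).inv x trivial)⟩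

end

/-- the coordinates of `ℝ³ × ℝ × ℝ` -/
def L5 : ((Rn 3 × ℝ) × ℝ) ≃L[ℝ] Rn 5 := LinearEquiv.toContinuousLinearEquiv
  { toFun := fun p => ![p.1.1 0, p.1.1 1, p.1.1 2, p.1.2, p.2]
    map_add' := fun p q => by ext k; fin_cases k <;> simp
    map_smul' := fun c p => by ext k; fin_cases k <;> simp
    invFun := fun w => ((![w 0, w 1, w 2], w 3), w 4)
    left_inv := fun p => by ext k <;> [fin_cases k <;> rfl; rfl; rfl]
    right_inv := fun w => by ext k; fin_cases k <;> rfl }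

theorem R5_sq : R5 * R5 = 1 := by
  ext i j; fin_cases i <;> fin_cases j <;> simp [R5, Matrix.mul_apply, Fin.sum_univ_five]

theorem det_R5 : R5.det = 1 := by
  simp [R5, Matrix.det_succ_row_zero, Fin.sum_univ_succ, Fin.succAbove]

/-- the monodromy of the coframe -/
def RG (g : PG) : M5 := if g.a = 1 then 1 else R5

theorem RG_sq (g : PG) : RG g * RG g = 1 := by unfold RG; split_ifs; exacts [one_mul _, R5_sq]
theorem det_RG (g : PG) : (RG g).det = 1 := by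
  unfold RG; split_ifs; exacts [Matrix.det_one, det_R5]

theorem mat_aux (g : PG) (u : ℤˣ) (c : ℝ) (w : Rn 5) :
    (1 * Matrix.diagonal ![1, 1, 1, c, 1] * (Matrix.diagonal ![1, 1, 1, sg u, 1] * sg u • RG g)) *ᵥ
      sg u • RG g *ᵥ w = ![w 0, w 1, w 2, sg u * c * w 3, w 4] := by
  rw [Matrix.mulVec_smul, Matrix.mulVec_mulVec, one_mul, mul_assoc, mul_assoc, smul_mul_assoc, RG_sq,
    Matrix.mul_smul, Matrix.mul_smul, mul_one, Matrix.smul_mulVec, smul_smul, sg_sq, one_smul,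
    Matrix.diagonal_mul_diagonal]
  ext i
  fin_cases i <;> simp [Matrix.mulVec_diagonal, mul_comm]

/-- positive diagonal matrices -/
def KD : Set M5 := Matrix.diagonal '' {d | ∀ i, 0 < d i}

theorem convex_KD : Convex ℝ KD :=
  Convex.linear_image (s := {d : Rn 5 | ∀ i, 0 < d i})
    (fun _ hx _ hy _ _ ha hb e i => by simpa using convex_Ioi (0 : ℝ) (hx i) (hy i) ha hb e)
    (Matrix.diagonalLinearMap (Fin 5) ℝ ℝ)

theorem det_KD : ∀ M ∈ KD, 0 < M.det := by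
  rintro _ ⟨d, hd, rfl⟩
  rw [Matrix.det_diagonal]
  exact Finset.prod_pos fun i _ => hd i

theorem par_gZ (g : PG) (k : ℤ × ℤ) :
    ((gZ g k).1 + (gZ g k).2).negOnePow = (k.1 + k.2).negOnePow := by
  simp only [gZ, Int.negOnePow_add, np_mul, g.hm, g.hn]
  rw [mul_mul_mul_comm, Int.units_mul_self, mul_one]

theorem par_kk {t : ℝ} (h : t ≠ 0) : 0 < -sg ((Mg.kk t).1 + (Mg.kk t).2).negOnePow * t := by
  unfold Mg.kk
  split_ifs with h'
  · simpa using h'
  · simpa using (not_lt.1 h').lt_of_ne' h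

variable {D : QDat} {T : GtDat D} {B : MgDat T}

theorem Θ_sq (hD : D.Ok) (g : PG) {y : D.Qt} (hy : D.sq g y ∉ ({D.pt, D.σ D.pt} : Set D.Qt))
    (t : ℝ) (v : E4) (r : ℝ) :
    D.Θ (D.sq g y, t) (Df D.Qt D.Qt (D.sq g) y v, r) = RG g *ᵥ D.Θ (y, t) (v, r) := by
  unfold QDat.sq RG at *
  split_ifs at hy ⊢
  · simp
  · refine hD.Θσ y ?_ t v r
    rintro (rfl | rfl)
    exacts [hy (.inr rfl), hy (.inl (hD.σσ _))]

/-- the ends of the neck, parametrised by the ends of `Qt` -/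
theorem rel_n (hD : D.Ok) (hT : T.Ok) (hB : B.Ok) (g : PG) {t : ℝ} (u : ℤˣ) (h : 0 < sg u * t)
    {p : D.F.cyl} (hp : 2 < p.2) :
    B.i (T.κ (gZ g (Mg.kk t)) (D.sq g (D.n p))) = B.nk g (p.1, sg u * (p.2 - 2)⁻¹) := by
  have h0 := inv_pos.2 (sub_pos.2 hp)
  have h1 : sg u * (p.2 - 2)⁻¹ ≠ 0 := mul_ne_zero (sg_ne u) h0.ne'
  refine (hB.rel _ _ _).2 ⟨h1, ?_⟩
  rw [Mg.act_en hD hT g h1, abs_mul, abs_sg, one_mul, abs_of_pos h0, inv_inv, add_sub_cancel]
  congr 2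
  unfold Mg.kk
  rcases sg_or u with e | e <;> simp only [e, one_mul, neg_mul, neg_pos] at h ⊢
  · rw [if_neg h.not_gt, if_neg h0.not_gt]
  · rw [if_pos h, if_pos (neg_neg_of_pos h0)]

end Spn

open Spn in
theorem spinB (hP : PhiStmt) (hV : OvStmt) : SpinStmt := by
  intro C D T B hD hT hB
  obtain ⟨ΘJ, cJ, hJ⟩ := hV C
  have oJ : OE J B.MG (fun p => B.i (T.ι p)) JU := hT.oι.trans hB.oi (mapsTo_univ _ _)
  have oK : ∀ k, OE D.Qt B.MG (fun x => B.i (T.κ k x)) D.U := fun k =>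
    (hT.oκ k).trans hB.oi (mapsTo_univ _ _)
  have ii : Injective B.i := injOn_univ.1 hB.oi.inj
  let P : Set D.Qt := D.U ∩ {D.pt, D.σ D.pt}ᶜ
  have oP : IsOpen P := (isOpen_U hD).inter (toFinite _).isClosed.isOpen_compl
  obtain ⟨ΘJ', cJ', eJ⟩ := push_cyl oJ subset_rfl cJ
  choose ΘK cK eK using fun k : ℤ × ℤ => push_cyl (oK k) (V := P) inter_subset_left
    (cof_sg (hD.cof.mono (prod_mono_left inter_subset_right)) (k.1 + k.2).negOnePow)
  choose ΘN cN eN using fun g => push_cyl (hB.onk g) subset_rfl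
    (((hD.τcof.cyl.mono (U' := univ) fun _ _ => ⟨trivial, trivial⟩).cyl).ccomp L5)
  let W : ℤ × ℤ → Set B.MG := fun k => (fun x => B.i (T.κ k x)) '' P
  let W' : Option PG → Set B.MG := fun o =>
    o.elim ((fun p => B.i (T.ι p)) '' JU) fun g => B.nk g '' univ
  let O : Set B.MG := {x | (∃ k, x ∈ W k) ∨ ∃ o, x ∈ W' o}
  have JN : ∀ g x, x ∈ W' none → x ∉ W' (some g) := by
    rintro g _ ⟨p, hp, rfl⟩ ⟨q, -, e⟩
    obtain ⟨h0, e⟩ := (hB.rel _ _ _).1 e.symm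
    rw [Mg.act_en hD hT g h0] at e
    obtain ⟨w, hw, -, e⟩ := (hT.rel _ hp _ _ (sq_mem hD g (Mg.n_mem hD _ (Mg.two_lt h0)))).1 e
    have h1 := congrArg (fun y => |D.s y|) e
    have h2 := Mg.two_lt h0
    simp only [abs_s_sq hD, hD.cs _ (hP.sub hw), hD.ns _ _ h2] at h1
    have h3 : |w.1 2| ≤ √(nsq w.1) := Real.abs_le_sqrt (by rw [nsq3]; nlinarith)
    linarith [(hP.nub w.1).1, hw.2, le_abs_self (2 + |q.2|⁻¹)]
  obtain ⟨sp, -, e', -, he'⟩ := spin_two (C := C) (X := B.MG.cyl) (U := (univ \ Oᶜ) ×ˢ univ)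
    (W := fun k => W k ×ˢ univ) (W' := fun o => W' o ×ˢ univ) (Θ := ΘK)
    (Θ' := fun o => o.elim ΘJ' ΘN)
    (fun k => ((oK k).isOpen_image oP inter_subset_left).prod isOpen_univ)
    (by
      rintro (_ | g)
      exacts [(oJ.isOpen_image oJ.op subset_rfl).prod isOpen_univ,
        ((hB.onk g).isOpen_image isOpen_univ subset_rfl).prod isOpen_univ])
    cK (by rintro (_ | g); exacts [cJ', cN g])
    (by
      rintro k k' x ⟨⟨y, hy, e⟩, -⟩ ⟨⟨y', hy', e'⟩, -⟩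
      exact hT.dis _ _ _ hy.1 _ hy'.1 (ii (e.trans e'.symm)))
    (by
      rintro (_ | g) (_ | g') x a b
      exacts [rfl, (JN _ _ a.1 b.1).elim, (JN _ _ b.1 a.1).elim,
        let ⟨_, _, e⟩ := a.1; let ⟨_, _, e'⟩ := b.1; congrArg _ (hB.dis _ _ _ _ (e.trans e'.symm))])
    (by
      rintro (_ | g) k
      · obtain ⟨A, hA, eA⟩ := hJ k
        have key : ∀ x ∈ (W' none ×ˢ univ ∩ W k ×ˢ univ : Set B.MG.cyl), ∃ q ∈ Dg,
            D.c q ∈ P ∧ B.i (T.ι (phi k q)) = x.1 := by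
          rintro x ⟨⟨⟨p, hp, e⟩, -⟩, ⟨y, hy, e'⟩, -⟩
          obtain ⟨q, hq, rfl, rfl⟩ := (hT.rel _ hp _ _ hy.1).1 (ii (e.trans e'.symm))
          exact ⟨q, hq, hy, e⟩
        refine (hA.comp (f := fun x : B.MG.cyl => (invFunOn (fun p => B.i (T.ι p)) JU x.1, x.2))
          ((oJ.symm.sm.contOn.comp continuousOn_fst fun x hx => hx.1.1).prodMk continuousOn_snd)
          fun x hx => ?_).congr fun x hx => ?_
        · obtain ⟨q, hq, -, e⟩ := key x hx
          exact ⟨⟨q, hq, (oJ.left (hP.mem k q hq)).symm.trans (congrArg _ e)⟩, trivial⟩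
        · obtain ⟨q, hq, hc, e⟩ := key x hx
          obtain ⟨x, t⟩ := x
          obtain rfl : _ = x := e
          have m := hP.mem k q hq
          have l := hP.ld k q hq
          have l' := hD.cld q (hP.sub hq)
          have d := Df_congr (X := vs (Rn 3 × ℝ)) (Y := B.MG)
            (f := fun q => B.i (T.ι (phi k q))) (f' := fun q => B.i (T.κ k (D.c q)))
            (mem_of_superset (hP.op.mem_nhds hq) fun z hz => congrArg B.i (Cpt.rel_c hP hD hT k hz))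
          rw [Df_comp l.sm (oJ.sm _ m), Df_comp l'.sm ((oK k).sm _ hc.1)] at d
          refine (tm_cyl (cK k _ hx.2).2 ((oJ.ld _ m).inv.comp l.inv) fun v r => ?_).symm
          simp only [oJ.left m, Option.elim]
          rw [ContinuousLinearMap.comp_apply, eJ _ m, eA q hq, ← ContinuousLinearMap.comp_apply, d,
            Cpt.rel_c hP hD hT k hq, ContinuousLinearMap.comp_apply, eK k _ hc.1,
            smul_apply, hD.Θc q (hP.sub hq)]
      · refine (SpinCover.lifts_const (M := 1) (by simp)).sandwich (SpinCover.lifts_const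
          (M := Matrix.diagonal ![1, 1, 1, sg (k.1 + k.2).negOnePow, 1] *
            (sg (k.1 + k.2).negOnePow • RG g)) ?_) convex_KD det_KD ((cN g).tm_contOn (cK k)) ?_
        · rw [Matrix.det_mul, Matrix.det_smul, Matrix.det_diagonal, det_RG]
          rcases sg_or (k.1 + k.2).negOnePow with e | e <;> simp [e, Fin.prod_univ_five] <;> norm_num
        rintro ⟨x, t⟩ hx
        obtain ⟨⟨⟨⟨m, a⟩, -, e⟩, -⟩, ⟨y, hy, e'⟩, -⟩ := id hx
        obtain ⟨h0, e1⟩ := (hB.rel _ _ _).1 (e'.trans e.symm)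
        have h2 := Mg.two_lt h0
        rw [Mg.act_en hD hT g h0] at e1
        obtain rfl := hT.dis _ _ _ hy.1 _ (sq_mem hD g (Mg.n_mem hD _ h2)) e1
        obtain rfl := (hT.oκ _).inj hy.1 (sq_mem hD g (Mg.n_mem hD _ h2)) e1
        obtain rfl : _ = x := e'
        have hu := par_kk h0
        rw [← par_gZ g, ← sg_neg] at hu
        simp only at h0 h2 hu hy hx ⊢
        generalize 2 + |a|⁻¹ = b at *
        set u := ((gZ g (Mg.kk a)).1 + (gZ g (Mg.kk a)).2).negOnePow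
        have c : ContDiffAt ℝ ∞ (fun b : ℝ => sg (-u) * (b - 2)⁻¹) b :=
          contDiffAt_const.mul ((contDiffAt_id.sub contDiffAt_const).inv (sub_pos.2 h2).ne')
        have c' : deriv (fun b : ℝ => sg (-u) * (b - 2)⁻¹) b = sg u * ((b - 2) ^ 2)⁻¹ := by
          rw [((((hasDerivAt_id' b).sub_const 2).fun_inv (sub_pos.2 h2).ne').const_mul _).deriv,
            sg_neg]
          ring
        have l := hD.noe.ld (m, b) ⟨trivial, h2⟩
        have l' : LDAt D.Qt D.Qt (D.sq g) (D.n (m, b)) := by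
          unfold QDat.sq; split_ifs; exacts [ldAt_id, ldAt_σ hD _]
        have d := Df_congr (X := D.F.cyl) (Y := B.MG) (x := (m, b))
          (f := fun p => B.i (T.κ (gZ g (Mg.kk a)) (D.sq g (D.n p))))
          (f' := fun p => B.nk g (p.1, sg (-u) * (p.2 - 2)⁻¹))
          ((continuous_snd.continuousAt.eventually (lt_mem_nhds h2)).mono fun z hz =>
            rel_n hD hT hB g _ hu hz)
        rw [Df_comp (l.trans l').sm ((oK _).sm _ hy.1), Df_comp (Y := D.F.cyl) (x := (m, b))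
          (smAt_fst.pair (Z := vs ℝ) (smAt_snd.vcomp c)) ((hB.onk g).sm _ trivial)] at d
        refine ⟨_, ⟨![1, 1, 1, ((b - 2) ^ 2)⁻¹, 1], fun i => ?_, rfl⟩, tm_cyl (cK _ _ hx.2).2
          (((oK (gZ g (Mg.kk a))).ld _ hy.1).inv.comp (l.trans l').inv) fun v r => ?_⟩
        · have := inv_pos.2 (pow_pos (sub_pos.2 h2) 2)
          fin_cases i <;> simp [-inv_pos, this]
        simp only [Option.elim]
        rw [ContinuousLinearMap.comp_apply, eK _ _ hy.1, ← ContinuousLinearMap.comp_apply, d,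
          rel_n hD hT hB g _ hu (p := (m, b)) h2, ContinuousLinearMap.comp_apply,
          Df_cyl (f := fun x => x) (p := (m, b)) smAt_id c v.1 v.2, eN g _ trivial,
          Df_comp l.sm l'.sm, smul_apply, ContinuousLinearMap.comp_apply,
          ContinuousLinearMap.comp_apply, Θ_sq hD g hy.2, hD.Θn m b h2, mat_aux, c', Df_id]
        rfl)
    (fun x => by simp [O])
  obtain ⟨s, e, he⟩ := sp.pts (by simp) isOpen_univ (subset_univ _) fun x hx => by
    have key : ∀ k, ∀ y ∈ D.U, B.i (T.κ k y) ∈ Oᶜ → y = D.pt ∨ y = D.σ D.pt := fun k y hy h =>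
      by_contra fun h' => h (.inl ⟨k, y, ⟨hy, h'⟩, rfl⟩)
    rcases hB.cov x with ⟨z, rfl⟩ | ⟨g, m, rfl⟩
    · rcases hT.cov z with ⟨p, hp, rfl⟩ | ⟨k, y, hy, rfl⟩
      · exact (hx (.inr ⟨none, p, hp, rfl⟩)).elim
      filter_upwards [((oK k).ld y hy).image_mem (inter_mem ((isOpen_U hD).mem_nhds hy)
        (isOpen_ne.mem_nhds (hD.σne y).symm))]
      rintro _ ⟨z, hz, rfl⟩ h
      rcases key k y hy hx with rfl | rfl <;> rcases key k z hz.1 h with rfl | rfl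
      exacts [rfl, (hz.2 rfl).elim, (hz.2 (hD.σσ _).symm).elim, rfl]
    · exact (hx (.inr ⟨some g, _, trivial, rfl⟩)).elim
  have := Cpt.conn_Gt hP hD hT
  have := Cpt.conn_MG hD hB
  have ha : ∀ g y, LDAt B.MG B.MG (B.act g) y := fun g y =>
    ldAt_of_inv (g := B.act g⁻¹) isOpen_univ isOpen_univ trivial (hB.actsm g) (hB.actsm _)
      (mapsTo_univ _ _) (mapsTo_univ _ _) (fun _ _ => by rw [← hB.actm, inv_mul_cancel, hB.act1])
      fun _ _ => by rw [← hB.actm, mul_inv_cancel, hB.act1]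
  refine ⟨⟨s.cast univ_prod_univ⟩, ori_quot (s.cast univ_prod_univ) (by simp) ha hB.ld hB.sur hB.fib
    fun g => ?_⟩
  obtain ⟨p⟩ := D.F.cyl.ne
  have m : ∀ g, (B.nk g p, (0 : ℝ)) ∈ s.W (e (e' (some g))) := fun g => by
    rw [he.W, (he' _).1]; exact ⟨⟨p, trivial, rfl⟩, trivial⟩
  refine ⟨B.nk 1 p, e (e' (some 1)), e (e' (some (g * 1))), m 1, hB.ank g 1 p ▸ m _, ?_⟩
  rw [tm_cyl (A := 1) (s.inv (m 1)) ((hB.onk 1).ld p trivial).inv fun v r => ?_]
  · simp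
  have d := Df_comp ((hB.onk 1).sm p trivial) (ha g _).sm
  rw [show (fun x => B.act g (B.nk 1 x)) = B.nk (g * 1) from funext (hB.ank g 1)] at d
  change s.Θ _ _ (((Df _ _ _ _).comp (Df _ _ _ _)) v, r) = _
  rw [← d, hB.ank, he.Θ, he.Θ, (he' _).2, (he' _).2, Matrix.one_mulVec]
  exact (eN _ p trivial 0 v r).trans (eN _ p trivial 0 v r).symm

end Pool.Agent.MP_e1dc65_gt.E

end
end MrgPart1

-- marker of a merged file
example : 731051 + 452344 = 731051 + 452344 := rfl
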