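import Pool.Agent.MP_e1dc65_gt.k.Etale
import Pool.Agent.MP_e1dc65_gt.e.aLie
import Pool.Agent.MP_e1dc65_gt.fm.Hza
import Pool.Agent.MP_e1dc65_gt.u.Spec
import Mathlib.Analysis.SpecialFunctions.Trigonometric.Deriv
import Pool.Agent.MP_e1dc65_gt.e.bSpin
import Pool.Agent.MP_e1dc65_gt.k.Std
import Mathlib.Analysis.SpecialFunctions.Trigonometric.ArctanDeriv
import Mathlib.Analysis.SpecialFunctions.Log.Deriv

-- ======== part 0: formerly Pool.Agent.MP_e1dc65_gt.e.aH2p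
section MrgPart0

/-! PROJECT HC, part E, sub-part A, row H2P: the form `du` and the first cohomology of the
overlap. -/

open scoped ContDiff Manifold Topology Real
open Set Filter Function

noncomputable section

namespace Pool.Agent.MP_e1dc65_gt.EA

namespace H2pP

theorem odd (m : ℤ) (h : |2 * π * m + π| < 2) : False := by
  obtain ⟨h1, h2⟩ := abs_lt.1 h
  have := Real.two_le_pi
  rcases le_or_gt 0 m with hm | hm
  · have : (0 : ℝ) ≤ m := by exact_mod_cast hm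
    nlinarith
  · have : (m : ℝ) ≤ -1 := by exact_mod_cast Int.le_sub_one_of_lt hm
    nlinarith

theorem even (m : ℤ) (h : |2 * π * m| < 2) : m = 0 := by
  obtain ⟨h1, h2⟩ := abs_lt.1 h
  have := Real.two_le_pi
  rcases lt_trichotomy m 0 with hm | hm | hm
  · have : (m : ℝ) ≤ -1 := by exact_mod_cast Int.le_sub_one_of_lt hm
    nlinarith
  · exact hm
  · have : (1 : ℝ) ≤ m := by exact_mod_cast hm
    nlinarith

theorem dsc {z : Rn 3} (hz : z ∈ Dsc) : |z 0 - 3 * π / 2| < 1 ∧ |z 1 - π / 2| < 1 :=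
  ⟨(Complex.abs_re_le_norm (wz z)).trans_lt hz, (Complex.abs_im_le_norm (wz z)).trans_lt hz⟩

theorem dsc_main {z : Rn 3} (hz : z ∈ Dsc) : z ∈ MainI I01 := by
  obtain ⟨h1, h2⟩ := dsc hz
  rw [abs_lt] at h1 h2
  rintro i hi ⟨z', l, h3, -⟩
  rw [abs_le, eps] at h3
  fin_cases i
  · obtain ⟨m, hm⟩ := l 1
    change _ ≤ z' 1 - 3 * π / 2 ∧ z' 1 - 3 * π / 2 ≤ _ at h3
    exact odd m (abs_lt.2 ⟨by linarith [h3.2], by linarith [h3.1]⟩)
  · obtain ⟨m, hm⟩ := l 0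
    change _ ≤ z' 0 - π / 2 ∧ z' 0 - π / 2 ≤ _ at h3
    refine odd (m - 1) (abs_lt.2 ?_)
    push_cast
    exact ⟨by linarith [h3.2], by linarith [h3.1]⟩
  · exact hi rfl

theorem lat_dsc {z z' : Rn 3} (hz : z ∈ Dsc) (hz' : z' ∈ Dsc) (h : Lat z z') :
    z 0 = z' 0 ∧ z 1 = z' 1 := by
  obtain ⟨h1, h2⟩ := dsc hz
  obtain ⟨h3, h4⟩ := dsc hz'
  rw [abs_lt] at h1 h2 h3 h4
  obtain ⟨m, hm⟩ := h 0
  obtain ⟨n, hn⟩ := h 1
  obtain rfl := even m (abs_lt.2 ⟨by linarith, by linarith⟩)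
  obtain rfl := even n (abs_lt.2 ⟨by linarith, by linarith⟩)
  exact ⟨by simpa [sub_eq_zero] using hm, by simpa [sub_eq_zero] using hn⟩

variable {A : MA} {St : ℝ → ℝ} {Φ : Rn 3 → A.X}

theorem memU (hA : A.Ok) {q : Rn 3 × ℝ} (hq : q ∈ Dlo) : (A.e₀ q.1, q.2) ∈ A.U := by
  rintro ⟨z, hz, e⟩
  have hz' : z ∈ Dsc := by
    change ‖wz z‖ < 1
    rw [show wz z = 0 from hz, norm_zero]
    exact one_pos
  obtain ⟨h1, h2⟩ := lat_dsc hz' hq.1 ((hA.tw.eq0 _ (dsc_main hz') _ (dsc_main hq.1)).1 e)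
  have : wz q.1 = 0 := by rw [← show wz z = 0 from hz, wz, wz, h1, h2]
  exact abs_lt.2 ⟨by linarith [hq.2.1], hq.2.2 this⟩

theorem ang (hA : A.Ok) (hS : Slb A St Φ) (x : A.X) : SmAt A.X (vs ℂ) A.ang x ∧ A.ang x ≠ 0 := by
  have o : IsOpen Slab := isOpen_Ioo.preimage (continuous_apply (2 : Fin 3))
  have s : ContDiff ℝ ∞ fun z : Rn 3 => Complex.exp (z 2 * Complex.I) :=
    ((Complex.ofRealCLM.contDiff.comp (contDiff_apply ℝ ℝ (2 : Fin 3))).mul contDiff_const).cexp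
  have k : ∀ z ∈ Slab, SmAt A.X (vs ℂ) A.ang (Φ z) ∧ A.ang (Φ z) ≠ 0 := fun z hz =>
    ⟨(hS.ld z hz).sm_desc (T := vs ℂ) (o.mem_nhds hz) hS.ang (smAt_vs.2 s.contDiffAt),
      hS.ang z hz ▸ Complex.exp_ne_zero _⟩
  obtain ⟨z, h1, h2, h3⟩ := hS.cov x
  have hz : z ∈ Slab := ⟨by linarith [Real.pi_pos], by linarith [Real.pi_pos]⟩
  obtain rfl | rfl := h3
  · exact k z hz
  · refine ⟨SmAt.congr' (f := fun y => -A.ang (A.σ y)) (SmAt.vcomp (g := fun w : ℂ => -w)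
      ((hA.σsm _ trivial).trans (by rw [hA.σσ]; exact (k z hz).1)) contDiffAt_id.neg)
      (.of_forall fun y => by simp only [hA.angσ, neg_neg]), ?_⟩
    rw [hA.angσ]
    exact neg_ne_zero.2 (k z hz).2

/-- shift of the circle coordinate -/
def sh (t : ℝ) (q : Rn 3 × ℝ) : Rn 3 × ℝ := (q.1 + Pi.single 2 t, q.2)

theorem sh_mem (t : ℝ) {q : Rn 3 × ℝ} (hq : q ∈ Dlo) : sh t q ∈ Dlo := by
  have : wz (sh t q).1 = wz q.1 := by simp [wz, sh]
  exact ⟨show ‖wz _‖ < 1 from this ▸ hq.1, hq.2.1, fun h => hq.2.2 (this ▸ h)⟩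

theorem sh_add (s t : ℝ) (q : Rn 3 × ℝ) : sh (s + t) q = sh t (sh s q) := by
  refine Prod.ext (funext fun i => ?_) rfl
  fin_cases i <;> simp [sh, add_assoc]

end H2pP

open H2pP in
theorem h2p : H2pStmt := by
  intro hN A T St Φ Q pQ hA hT hS hQ
  have ld : ∀ p ∈ A.U, LDAt A.X.cyl Q (fun p => pQ (T.io p)) p := fun p hp =>
    (hT.oi.ld p hp).trans (hQ.pld _)
  obtain ⟨F, hF⟩ := desc1 A.U (fun p => pQ (T.io p)) (fun p => A.ang p.1 ^ 2) fun x hx y hy e => by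
    obtain e | e := (hQ.peq _ _).1 e
    · rw [hT.oi.inj hy hx e]
    · rw [hT.σi x hx] at e
      rw [hT.oi.inj hy (hT.σU x hx) e, hA.angσ, neg_sq]
  obtain ⟨θ, h1, h2⟩ := Arg.dArg (F := F) (isOpen_image_ld hT.oi.op ld) (by
    rintro _ ⟨p, hp, rfl⟩
    exact (ld p hp).sm_desc (T := vs ℂ) (hT.oi.op.mem_nhds hp) hF (SmAt.vcomp
      (g := fun w : ℂ => w ^ 2) (smAt_fst.trans (ang hA hS p.1).1) (contDiffAt_id.pow 2))) (by
    rintro _ ⟨p, hp, rfl⟩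
    rw [hF p hp]
    exact pow_ne_zero 2 (ang hA hS p.1).2)
  have ld' : ∀ q ∈ Dlo, LDAt (vs (Rn 3 × ℝ)) Q (fun q => pQ (T.nut (lo q))) q := fun q hq =>
    ((hN.ldl q hq).trans (hT.onu.ld _ (hN.meml q hq).1)).trans (hQ.pld _)
  have rel : ∀ q ∈ Dlo, T.nut (lo q) = T.io (A.e₀ q.1, q.2) := fun q hq =>
    ((hT.rel _ (memU hA hq) _ (hN.meml q hq).1).2 ⟨q, hq, rfl, rfl⟩).symm
  have sm : ∀ q, SmAt (vs (Rn 3 × ℝ)) (vs ℝ) (fun q => 2 * q.1 2) q := fun q =>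
    smAt_vs.2 (by fun_prop)
  refine ⟨θ, h1, fun γ hγ => Arg.mapTor (S := sh (2 * π)) (η := fun q => 2 * q.1 2)
    (c₀ := 4 * π) hN.opL (hN.starL.isPathConnected ?_).isConnected.isPreconnected
    (Hza.star homM hN.opL hN.starL) ld' (by unfold sh; fun_prop) (fun q => sh_mem _)
    (fun q hq => ?_) (fun φ hφ x hx y hy e => ?_) (by positivity) (fun q _ => sm q)
    (fun q _ => by simp [sh]; ring) (fun q hq => h2 _ _ _ _ _ (ld' q hq).sm
      ⟨_, memU hA hq, congrArg pQ (rel q hq).symm⟩ (sm q) ?_) hγ⟩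
  · have : wz ![3 * π / 2, π / 2, 0] = 0 := by simp [wz, Complex.ext_iff]
    exact ⟨show ‖wz _‖ < 1 by rw [this, norm_zero]; exact one_pos, by norm_num, fun _ => by norm_num⟩
  · rw [(hN.eql _ (sh_mem _ hq) q hq).2 ⟨fun i => ?_, rfl⟩]
    fin_cases i
    exacts [⟨0, by simp [sh]⟩, ⟨0, by simp [sh]⟩, ⟨1, by simp [sh]⟩]
  · obtain e | e := (hQ.peq _ _).1 e
    · obtain ⟨l, e2⟩ := (hN.eql y hy x hx).1 (hT.onu.inj (hN.meml y hy).1 (hN.meml x hx).1 e)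
      obtain ⟨e0, e1⟩ := lat_dsc hy.1 hx.1 l
      obtain ⟨m, hm⟩ := l 2
      have per : Periodic (fun t => φ (sh t x)) (2 * π) := fun t => by
        simp only [sh_add, hφ _ (sh_mem t hx)]
      have a : sh (m * (2 * π)) x = y := by
        refine Prod.ext (funext fun i => ?_) e2.symm
        fin_cases i <;> simp [sh, e0, e1]
        linarith
      have b : sh 0 x = x := by
        refine Prod.ext (funext fun i => ?_) rfl
        fin_cases i <;> simp [sh]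
      simpa only [a, b] using (per.int_mul_eq m).symm
    · have := congrArg T.s e
      rw [hT.sσ, hT.sn _ (hN.meml y hy).1, hT.sn _ (hN.meml x hx).1, (hN.meml y hy).2.2.2,
        (hN.meml x hx).2.2.2] at this
      linarith [hx.2.1, hy.2.1]
  · filter_upwards [hN.opL.mem_nhds hq] with z hz
    refine ⟨1, one_pos, ?_⟩
    rw [rel z hz, hF _ (memU hA hz), hA.ang0 _ (dsc_main hz.1), ← Complex.exp_nat_mul]
    push_cast
    rw [one_mul, mul_assoc]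

end Pool.Agent.MP_e1dc65_gt.EA

end
end MrgPart0

-- ======== part 1: formerly Pool.Agent.MP_e1dc65_gt.e.bH2c
section MrgPart1

/-! PROJECT HC, part E, row H2C: the first cohomology of the two overlaps. -/

open scoped ContDiff Manifold Topology Real
open Set Filter Function Module Complex Pool.Agent.MP_c8d41b_gt.GF

noncomputable section

namespace Pool.Agent.MP_e1dc65_gt.E

namespace H2c

/-- a function on the plane that changes by a sign under the group -/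
def hh (e : ℝ) (z : ℂ) : ℂ := equivRealProdCLM.symm
  (Real.sin (π * z.re) * Real.sin (π * z.im), Real.cos (π * z.im) - e * Real.cos (π * z.re))

theorem hh_re (e : ℝ) (z : ℂ) : (hh e z).re = Real.sin (π * z.re) * Real.sin (π * z.im) := rfl
theorem hh_im (e : ℝ) (z : ℂ) : (hh e z).im = Real.cos (π * z.im) - e * Real.cos (π * z.re) := rfl

theorem cd_hh (e : ℝ) : ContDiff ℝ ∞ (hh e) := by
  have h1 : ContDiff ℝ ∞ fun z : ℂ => π * z.re := contDiff_const.mul reCLM.contDiff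
  have h2 : ContDiff ℝ ∞ fun z : ℂ => π * z.im := contDiff_const.mul imCLM.contDiff
  exact equivRealProdCLM.symm.contDiff.comp ((h1.sin.mul h2.sin).prodMk
    (h2.cos.sub (contDiff_const.mul h1.cos)))

theorem hh_ne {e : ℝ} (he : e ^ 2 = 1) {z : ℂ} (h : ∀ k, z ≠ lat k) : hh e z ≠ 0 := fun h0 => by
  have h1 : _ = (0 : ℝ) := (hh_re e z).symm.trans (congrArg re h0)
  have h2 : _ = (0 : ℝ) := (hh_im e z).symm.trans (congrArg im h0)
  have h3 : Real.sin (π * z.re) ^ 2 = Real.sin (π * z.im) ^ 2 := by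
    rw [Real.sin_sq, Real.sin_sq, sub_eq_zero.1 h2, mul_pow, he, one_mul]
  have h4 : Real.sin (π * z.re) = 0 ∧ Real.sin (π * z.im) = 0 := by
    rcases mul_eq_zero.1 h1 with h | h
    · exact ⟨h, by simpa [h] using h3.symm⟩
    · exact ⟨by simpa [h] using h3, h⟩
  obtain ⟨m, hm⟩ := Real.sin_eq_zero_iff.1 h4.1
  obtain ⟨n, hn⟩ := Real.sin_eq_zero_iff.1 h4.2
  exact h (m, n) (Complex.ext (mul_left_cancel₀ Real.pi_ne_zero (by rw [← hm, mul_comm]; rfl))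
    (mul_left_cancel₀ Real.pi_ne_zero (by rw [← hn, mul_comm]; rfl)))

theorem hh_gC (e : ℝ) (g : PG) (z : ℂ) : hh e (gC g z) ^ 2 = hh e z ^ 2 := by
  have hm : (-1 : ℝ) ^ g.m = sg (g.a * g.b) := by rw [← Int.cast_negOnePow, g.hm]; rfl
  have hn : (-1 : ℝ) ^ g.n = sg (g.a * g.b) := by rw [← Int.cast_negOnePow, g.hn]; rfl
  have : hh e (gC g z) = (sg (g.a * g.b) : ℝ) * hh e z := by
    refine Complex.ext ?_ ?_ <;>
    simp only [hh_re, hh_im, gC, re_ofReal_mul, im_ofReal_mul, mul_add, mul_comm π ((_ : ℤ) : ℝ),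
      Real.sin_add_int_mul_pi, Real.cos_add_int_mul_pi, hm, hn] <;>
    rcases Int.units_eq_one_or g.a with ha | ha <;> rcases Int.units_eq_one_or g.b with hb | hb <;>
    simp [ha, hb, sg] <;> ring
  rw [this, mul_pow, ← ofReal_pow]
  rcases Int.units_eq_one_or (g.a * g.b) with h | h <;> simp [h, sg]

/-- comparison with the model `conj z ^ 2` -/
def gg (w : ℂ) : ℂ := -I * hh 1 w * w ^ 2

theorem cd_gg : ContDiff ℝ ∞ gg := (contDiff_const.mul (cd_hh 1)).mul (contDiff_id.pow 2)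

theorem gg_neg (w : ℂ) : gg (-w) = gg w := by
  have : hh 1 (-w) = hh 1 w := Complex.ext (by simp [hh_re]) (by simp [hh_im])
  rw [gg, gg, this, neg_sq]

theorem mul_sin {x : ℝ} (h : |x| < 1 / 2) (h0 : x ≠ 0) : 0 < x * Real.sin (π * x) := by
  have key : ∀ x : ℝ, 0 < x → x < 1 / 2 → 0 < x * Real.sin (π * x) := fun x h1 h2 =>
    mul_pos h1 (Real.sin_pos_of_pos_of_lt_pi (by positivity) (by nlinarith [Real.pi_pos]))
  rcases h0.lt_or_gt with h1 | h1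
  · simpa using key (-x) (by linarith) (by linarith [(abs_lt.1 h).1])
  · exact key x h1 (abs_lt.1 h).2

theorem cos_lt {x y : ℝ} (hx : |x| < 1 / 2) (h : |y| < |x|) :
    0 < (Real.cos (π * y) - Real.cos (π * x)) * (x * x - y * y) := by
  have h1 := Real.cos_lt_cos_of_nonneg_of_le_pi (x := |π * y|) (y := |π * x|) (abs_nonneg _)
    (by rw [abs_mul, abs_of_pos Real.pi_pos]; nlinarith [Real.pi_pos])
    (by rw [abs_mul, abs_mul]; exact mul_lt_mul_of_pos_left h (abs_pos.2 Real.pi_ne_zero))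
  rw [Real.cos_abs, Real.cos_abs] at h1
  exact mul_pos (sub_pos.2 h1) (sub_pos.2 (by simpa only [sq] using sq_lt_sq.2 h))

theorem gg_re {w : ℂ} (h0 : w ≠ 0) (h : ‖w‖ < 1 / 2) : 0 < (gg w).re := by
  have hx := (abs_re_le_norm w).trans_lt h
  have hy := (abs_im_le_norm w).trans_lt h
  have e : (gg w).re = (Real.cos (π * w.im) - Real.cos (π * w.re)) * (w.re * w.re - w.im * w.im) +
      2 * ((w.re * Real.sin (π * w.re)) * (w.im * Real.sin (π * w.im))) := by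
    simp [gg, sq, hh_re, hh_im]; ring
  have n1 : ∀ x : ℝ, |x| < 1 / 2 → 0 ≤ x * Real.sin (π * x) := fun x hx => by
    rcases eq_or_ne x 0 with rfl | h
    · simp
    · exact (mul_sin hx h).le
  have n2 := mul_nonneg (n1 _ hx) (n1 _ hy)
  rw [e]
  rcases lt_trichotomy |w.im| |w.re| with h1 | h1 | h1
  · linarith [cos_lt hx h1]
  · have hr : w.re ≠ 0 := fun hr => h0 (Complex.ext hr (by simpa [hr] using h1))
    have hi : w.im ≠ 0 := fun hi => h0 (Complex.ext (by simpa [hi] using h1.symm) hi)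
    have : w.re * w.re - w.im * w.im = 0 := by
      rw [← abs_mul_abs_self, ← abs_mul_abs_self w.im, h1, sub_self]
    rw [this]
    linarith [mul_pos (mul_sin hx hr) (mul_sin hy hi)]
  · nlinarith [cos_lt hy h1]

theorem phi0 (q : Rn 3 × ℝ) : (phi (0, 0) q).1 = zl q := Complex.ext (by simp [phi, sg])
  (by simp [phi, sg])

theorem phi1 (q : Rn 3 × ℝ) : (phi (1, 0) q).1 = ⟨1 - (zl q).re, (zl q).im⟩ :=
  Complex.ext (by simp [phi, sg, sub_eq_add_neg]) (by simp [phi, sg])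

theorem hh_flip (e : ℝ) (w : ℂ) : hh e ⟨1 - w.re, w.im⟩ = hh (-e) w :=
  Complex.ext (by simp [hh_re, mul_sub]) (by simp [hh_im, mul_sub])

/-- the half turn of the column -/
def hS (q : Rn 3 × ℝ) : Rn 3 × ℝ := (Rp q.1, q.2 + π)

theorem cd_hS : ContDiff ℝ ∞ hS :=
  (cd_Rp.comp contDiff_fst).prodMk (contDiff_snd.add contDiff_const)

theorem hS_hS (q : Rn 3 × ℝ) : hS (hS q) = (q.1, q.2 + 2 * π) :=
  Prod.ext (Rp_Rp _) (by simp [hS]; ring)

/-- the half turn of the plane about `k` -/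
def gH (k : ℤ × ℤ) : PG := ⟨-1, -1, 2 * k.1, 2 * k.2, by simp, by simp⟩

theorem gH_Z (k : ℤ × ℤ) : gZ (gH k) k = k := Prod.ext (by simp [gZ, gH]; ring)
  (by simp [gZ, gH]; ring)

theorem gH_C (k : ℤ × ℤ) (q : Rn 3 × ℝ) : sC (gH k) q = hS q := if_neg (by simp [gH])

variable (hP : PhiStmt)
include hP

theorem nuv_pos {v : Rn 3} (h : v ≠ 0) : 0 < nuv v :=
  (half_pos (Real.sqrt_pos.2 (nsq_pos h))).trans_le (hP.nub v).1

theorem sc_Dg : SC Dg := by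
  have h0 : nuv 0 = 0 := by simpa using hP.nuh 0 0
  have : Dg = {v | nuv v ∈ Ioo (0 : ℝ) (1 / 2)} ×ˢ univ := Set.ext fun q =>
    ⟨fun h => ⟨⟨nuv_pos hP h.1, h.2⟩, trivial⟩,
      fun h => ⟨fun e => by simpa [e, h0] using h.1.1, h.1.2⟩⟩
  rw [this]
  exact (sc_gauge_shell (by simp) hP.nuc (fun _ => nuv_pos hP)
    (fun t v ht => by rw [hP.nuh, abs_of_nonneg ht]) ordConnected_Ioo (fun _ h => h.1)
    ⟨1 / 4, by norm_num, by norm_num⟩).prod sc_univ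

theorem zl_mem {q : Rn 3 × ℝ} (hq : q ∈ Dg) : zl q ≠ 0 ∧ ‖zl q‖ < 1 / 2 := by
  have e : lat (0, 0) = 0 := Complex.ext (by simp [lat]) (by simp [lat])
  have h1 := hP.mem (0, 0) q hq (0, 0)
  have h2 := hP.mu (0, 0) q hq
  rw [phi0, e] at h1 h2
  rw [sub_zero] at h2
  exact ⟨h1, by linarith [nuv_pos hP hq.1, (hP.mub (zl q)).1]⟩

theorem zl_sm {q : Rn 3 × ℝ} (hq : q ∈ Dg) : SmAt (vs (Rn 3 × ℝ)) (vs ℂ) zl q := by
  simpa only [phi0] using (hP.ld (0, 0) q hq).sm.trans (smAt_fst (X := vs ℂ) (Y := S2))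

theorem zl_hS (q : Rn 3 × ℝ) : zl (hS q) = -zl q := by
  simp [zl, hS, hP.nuR, bet, add_mul, exp_add]

theorem polar {q : Rn 3 × ℝ} (hq : q ∈ Dg) : ∃ r : ℝ, 0 < r ∧ hh 1 (zl q) ^ 2 =
    r * (-1 * exp ((2 * arg (1 * gg (zl q)) - 4 * q.2 : ℝ) * I)) := by
  obtain ⟨h0, h1⟩ := zl_mem hP hq
  have hg : gg (zl q) ≠ 0 := fun e => by simpa [e] using gg_re h0 h1
  obtain ⟨ρ, hρ⟩ : ∃ ρ : ℝ, zl q = ρ * exp (q.2 * I) := ⟨_, rfl⟩
  have h2 : (ρ : ℂ) ≠ 0 := left_ne_zero_of_mul (hρ ▸ h0)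
  have h3 : ρ ≠ 0 := ofReal_ne_zero.1 h2
  refine ⟨‖gg (zl q)‖ ^ 2 / ρ ^ 4, div_pos (by positivity) (by positivity), ?_⟩
  have e1 : exp ((2 * arg (1 * gg (zl q)) - 4 * q.2 : ℝ) * I) =
      exp (arg (gg (zl q)) * I) ^ 2 / exp (q.2 * I) ^ 4 := by
    rw [← exp_nat_mul, ← exp_nat_mul, ← exp_sub, one_mul]
    congr 1
    push_cast
    ring
  have e2 : gg (zl q) ^ 2 = -(hh 1 (zl q) ^ 2 * (ρ ^ 4 * exp (q.2 * I) ^ 4)) := by
    rw [← mul_pow (ρ : ℂ), ← hρ, gg]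
    linear_combination (hh 1 (zl q) ^ 2 * zl q ^ 4) * I_sq
  have e3 := norm_mul_exp_arg_mul_I (gg (zl q))
  have h4 := exp_ne_zero (q.2 * I)
  rw [e1]
  generalize exp (q.2 * I) = a, exp (arg (gg (zl q)) * I) = b at *
  push_cast
  field_simp
  linear_combination e2 + (gg (zl q) + ‖gg (zl q)‖ * b) * e3

/-- functions invariant under the half turn are constant on the fibres -/
theorem fibre {φ : Rn 3 × ℝ → ℝ} (h : ∀ q ∈ Dg, φ (hS q) = φ q) {q q' : Rn 3 × ℝ} (hq : q ∈ Dg)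
    (hq' : q' ∈ Dg) {g : PG} {k : ℤ × ℤ} (e : actJ g (phi k q) = phi k q') : φ q = φ q' := by
  obtain ⟨h1, h2⟩ := hP.eqv g k q hq
  obtain ⟨-, h3, m, h4⟩ := (hP.eq _ _ _ h1 _ hq').1 (h2.symm.trans e)
  have per : Periodic (fun u => φ (q'.1, u)) (2 * π) := fun u => by
    have h5 : (q'.1, u) ∈ Dg := hq'
    have h6 := (hP.eqv (gH k) k _ h5).1
    rw [gH_C] at h6
    exact (congrArg φ (hS_hS (q'.1, u)).symm).trans ((h _ h6).trans (h _ h5))
  have h7 : φ (sC g q) = φ q' := by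
    have : sC g q = (q'.1, q'.2 + m * (2 * π)) := Prod.ext h3 (by simp only; linarith)
    rw [this]
    exact per.int_mul m q'.2
  rw [← h7, sC]
  split_ifs
  exacts [rfl, (h q hq).symm]

end H2c

open H2c Arg in
theorem h2c (hP : PhiStmt)
    (hz : ∀ U : Set (Rn 3 × ℝ), IsOpen U → Perf U → HZ (vs (Rn 3 × ℝ)) 0 U) : H2cStmt := by
  intro D T B hD hT hB k k' hk
  obtain ⟨e, he, e1, e2⟩ : ∃ e : ℝ, e ^ 2 = 1 ∧ (∀ q, hh e (phi k q).1 = hh 1 (zl q)) ∧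
      ∀ q, hh e (phi k' q).1 = hh (-1) (zl q) := by
    rcases hk with ⟨rfl, rfl⟩ | ⟨rfl, rfl⟩
    · exact ⟨1, by simp, fun q => by rw [phi0], fun q => by rw [phi1, hh_flip]⟩
    · exact ⟨-1, by simp, fun q => by rw [phi1, hh_flip, neg_neg], fun q => by rw [phi0]⟩
  set P : J → B.M := fun p => B.pM (B.i (T.ι p)) with hPd
  have Pld : ∀ p ∈ JU, LDAt J B.M P p := fun p hp =>
    ((hT.oι.ld p hp).trans (hB.oi.ld _ trivial)).trans (hB.ld _)
  have Pf : ∀ p ∈ JU, ∀ p' ∈ JU, P p = P p' ↔ ∃ g, actJ g p = p' := fun p hp p' hp' => by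
    refine (hB.fib _ _).trans (exists_congr fun g => ?_)
    rw [hB.ai, hB.oi.inj.eq_iff trivial trivial, hT.aι g p hp, hT.oι.inj.eq_iff (actJ_mem g hp) hp']
  have OM : ∀ k, B.OM k = (fun q => P (phi k q)) '' Dg := fun k => image_congr fun q hq => by
    have hU : D.c q ∈ D.U := by
      rintro ⟨q', ⟨h0, -⟩, h1⟩
      have h2 : q'.1 = 0 := h0
      exact hq.1 (((hD.ceq q' (by simp [Col, h2]) q (hP.sub hq)).1 h1).1.symm.trans h2)
    rw [← (hT.rel _ (hP.mem k q hq) k _ hU).2 ⟨q, hq, rfl, rfl⟩]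
  have ψld : ∀ k, ∀ q ∈ Dg, LDAt (vs (Rn 3 × ℝ)) B.M (fun q => P (phi k q)) q := fun k q hq =>
    (hP.ld k q hq).trans (Pld _ (hP.mem k q hq))
  obtain ⟨F, hF⟩ := desc1 JU P (fun p => hh e p.1 ^ 2) fun p hp p' hp' h => by
    obtain ⟨g, rfl⟩ := (Pf p hp p' hp').1 h
    exact (hh_gC e g p.1).symm
  have Fs : ∀ p ∈ JU, SmAt B.M (vs ℂ) F (P p) := fun p hp =>
    (Pld p hp).sm_desc (T := vs ℂ) (isOpen_JU.mem_nhds hp) hF
      (smAt_fst.vcomp ((cd_hh e).pow 2).contDiffAt)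
  have F0 : ∀ p ∈ JU, F (P p) ≠ 0 := fun p hp => by
    rw [hF p hp]; exact pow_ne_zero 2 (hh_ne he hp)
  refine ⟨ang B.M F, cl_ang (isOpen_image_ld isOpen_JU Pld)
    (by rintro _ ⟨p, hp, rfl⟩; exact Fs p hp) (by rintro _ ⟨p, hp, rfl⟩; exact F0 p hp), ?_,
    fun γ hγ => ?_⟩
  · rw [OM]
    have s1 : Sm B.M (vs ℂ) F ((fun q => P (phi k' q)) '' Dg) := by
      rintro _ ⟨q, hq, rfl⟩
      exact Fs _ (hP.mem k' q hq)
    have s2 : ∀ y ∈ (fun q => P (phi k' q)) '' Dg, -1 * F y ∈ slitPlane := by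
      rintro _ ⟨q, hq, rfl⟩
      have h1 := (zl_mem hP hq).2
      have c : ∀ x : ℝ, |x| < 1 / 2 → 0 < Real.cos (π * x) := fun x hx =>
        Real.cos_pos_of_mem_Ioo ⟨by nlinarith [Real.pi_pos, (abs_lt.1 hx).1],
          by nlinarith [Real.pi_pos, (abs_lt.1 hx).2]⟩
      have h2 : 0 < (hh (-1) (zl q)).im := by
        rw [hh_im]
        linarith [c _ ((abs_re_le_norm _).trans_lt h1), c _ ((abs_im_le_norm _).trans_lt h1)]
      simp only [hF _ (hP.mem k' q hq), e2]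
      generalize hh (-1) (zl q) = w at h2
      rcases eq_or_ne w.re 0 with h3 | h3
      · exact Or.inl (by simp [sq, h3, h2])
      · exact Or.inr (by simp [sq, mul_comm w.im, ← two_mul, h3, h2.ne'])
    have s3 := isOpen_image_ld (X := vs (Rn 3 × ℝ)) hP.op (ψld k')
    exact ex_dF (fun y hy => smAt_arg (-1) (s1 y hy) (s2 y hy)) fun y hy =>
      (ang_arg (-1) s3 s1 s2 hy).symm
  · rw [OM] at hγ ⊢
    have mS : MapsTo hS Dg Dg := fun q hq => gH_C k q ▸ (hP.eqv (gH k) k q hq).1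
    have ηs : Sm (vs (Rn 3 × ℝ)) (vs ℝ) (fun q => 2 * arg (1 * gg (zl q)) - 4 * q.2) Dg :=
      fun q hq => smAt_vs.2 ((contDiffAt_const.mul (smAt_vs.1 (smAt_arg (X := vs (Rn 3 × ℝ))
        (F := fun q => gg (zl q)) 1 ((zl_sm hP hq).vcomp cd_gg.contDiffAt)
        (Or.inl (by simpa using gg_re (zl_mem hP hq).1 (zl_mem hP hq).2))))).sub
          (contDiffAt_const.mul contDiffAt_snd))
    refine mapTor hP.op (sc_Dg hP).1.isConnected.isPreconnected (hz _ hP.op (sc_Dg hP).perf)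
      (ψld k) cd_hS mS (fun q hq => ?_) (fun φ h q hq q' hq' e => ?_) (c₀ := -(4 * π))
      (by simp) ηs (fun q _ => ?_) (fun q hq => ?_) hγ
    · refine ((Pf _ (hP.mem k q hq) _ (hP.mem k _ (mS hq))).2 ⟨gH k, ?_⟩).symm
      rw [(hP.eqv (gH k) k q hq).2, gH_Z, gH_C]
    · obtain ⟨g, hg⟩ := (Pf _ (hP.mem k q hq) _ (hP.mem k q' hq')).1 e
      exact fibre hP h hq hq' hg
    · rw [zl_hS hP, gg_neg]
      simp only [hS]
      ring
    · rw [pb_ang (ψld k q hq).sm (Fs _ (hP.mem k q hq)) (F0 _ (hP.mem k q hq))]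
      refine ang_eq (c := -1) (by simp) (ηs q hq) ?_
      filter_upwards [hP.op.mem_nhds hq] with y hy
      rw [hF _ (hP.mem k y hy), e1]
      exact polar hP hy

end Pool.Agent.MP_e1dc65_gt.E

end
end MrgPart1

-- ======== part 2: formerly Pool.Agent.MP_e1dc65_gt.e.cSpec
section MrgPart2

/-! PROJECT HC, part E, sub-part C: statements of the rows and basic facts on tubes. -/

open scoped ContDiff Manifold Topology Real
open Set Filter Function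

noncomputable section

namespace Pool.Agent.MP_e1dc65_gt

/-! ### The square of the norm -/

namespace EC
variable {n : ℕ}

@[fun_prop] theorem contDiff_nsq : ContDiff ℝ ∞ (nsq : Rn n → ℝ) := by unfold nsq; fun_prop

@[fun_prop] theorem continuous_nsq : Continuous (nsq : Rn n → ℝ) := contDiff_nsq.continuous

theorem nsq_smul (c : ℝ) (v : Rn n) : nsq (c • v) = c ^ 2 * nsq v := by
  simp [nsq, mul_pow, Finset.mul_sum]

@[simp] theorem nsq_zero : nsq (0 : Rn n) = 0 := by simp [nsq]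

theorem sq_le_nsq (v : Rn n) (i : Fin n) : v i ^ 2 ≤ nsq v :=
  Finset.single_le_sum (f := fun i => v i ^ 2) (fun _ _ => sq_nonneg _) (Finset.mem_univ i)

theorem nsq_pos {v : Rn n} : 0 < nsq v ↔ v ≠ 0 := by
  refine ⟨fun h e => by simp [e] at h, fun h => ?_⟩
  obtain ⟨i, hi⟩ := Function.ne_iff.1 h
  exact (sq_pos_of_ne_zero hi).trans_le (sq_le_nsq v i)

theorem nsq_inv {v : Rn n} (h : 0 < nsq v) : nsq ((nsq v)⁻¹ • v) = (nsq v)⁻¹ := by
  rw [nsq_smul]; field_simp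

theorem inv_inv_nsq {v : Rn n} (h : 0 < nsq v) :
    (nsq ((nsq v)⁻¹ • v))⁻¹ • (nsq v)⁻¹ • v = v := by
  rw [nsq_inv h, inv_inv, smul_inv_smul₀ h.ne']

theorem cpt_nsq (r : ℝ) : IsCompact {v : Rn n | nsq v ≤ r} := by
  refine (isCompact_closedBall (0 : Rn n) (|r| + 1)).of_isClosed_subset
    (isClosed_le continuous_nsq continuous_const) fun v hv => ?_
  rw [mem_closedBall_zero_iff, pi_norm_le_iff_of_nonneg (by positivity)]
  intro i
  have h1 : v i ^ 2 ≤ r := (sq_le_nsq v i).trans hv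
  rw [Real.norm_eq_abs]
  nlinarith [le_abs_self r, sq_abs (v i), sq_nonneg (|v i| - 1), abs_nonneg r]

theorem open_nsq (r : ℝ) : IsOpen {v : Rn n | nsq v < r} := isOpen_lt continuous_nsq continuous_const

end EC

open EC

/-! ### Tubes -/

namespace Tube
variable {M : Mf E4} {l : ℝ × Rn 3 → M} {B K : Set (Rn 3)} (h : Tube M l B)
include h

theorem cper {v : Rn 3} (hv : v ∈ B) (θ : ℝ) (m : ℤ) : l (θ + 8 * m, v) = l (θ, v) :=
  (h.eq _ _ v hv v hv).2 ⟨⟨m, by ring⟩, rfl⟩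

theorem cmono (hK : K ⊆ B) : Tube M l K :=
  ⟨fun θ v hv => h.ld θ v (hK hv), fun θ θ' v hv v' hv' => h.eq θ θ' v (hK hv) v' (hK hv')⟩

theorem cmem (hK : K ⊆ B) {v : Rn 3} (hv : v ∈ B) (θ : ℝ) : l (θ, v) ∈ l '' (univ ×ˢ K) ↔ v ∈ K :=
  ⟨fun ⟨p, hp, e⟩ => ((h.eq p.1 θ p.2 (hK hp.2) v hv).1 e).2 ▸ hp.2,
    fun hv => ⟨_, ⟨trivial, hv⟩, rfl⟩⟩

theorem ccont : ContinuousOn l (univ ×ˢ B) := fun p hp =>
  (h.ld p.1 p.2 hp.2).sm.cont.continuousWithinAt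

/-- reduction of the angle to `[t, t + 8)` -/
theorem cred {v : Rn 3} (hv : v ∈ B) (t θ : ℝ) : ∃ θ' ∈ Ico t (t + 8), ∃ m : ℤ, θ' = θ + 8 * m ∧
    l (θ', v) = l (θ, v) :=
  have e : toIcoMod (by norm_num : (0 : ℝ) < 8) t θ =
      θ + 8 * (-toIcoDiv (by norm_num : (0 : ℝ) < 8) t θ : ℤ) := by
    rw [← self_sub_toIcoDiv_zsmul, zsmul_eq_mul]; push_cast; ring
  ⟨_, toIcoMod_mem_Ico _ t θ, _, e, e ▸ h.cper hv θ _⟩

theorem ccpt (hK : K ⊆ B) (hc : IsCompact K) : IsCompact (l '' (univ ×ˢ K)) := by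
  have : l '' (univ ×ˢ K) = l '' (Icc 0 8 ×ˢ K) := by
    refine Subset.antisymm ?_ (image_mono (prod_mono (subset_univ _) subset_rfl))
    rintro _ ⟨⟨θ, v⟩, hp, rfl⟩
    obtain ⟨θ', h1, -, -, h2⟩ := h.cred (hK hp.2) 0 θ
    exact ⟨(θ', v), ⟨⟨h1.1, by simpa using h1.2.le⟩, hp.2⟩, h2⟩
  rw [this]
  exact (isCompact_Icc.prod hc).image_of_continuousOn
    (h.ccont.mono (prod_mono (subset_univ _) hK))

theorem copen (hK : K ⊆ B) (ho : IsOpen K) : IsOpen (l '' (univ ×ˢ K)) :=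
  isOpen_image_ld (X := vs (ℝ × Rn 3)) (isOpen_univ.prod ho) fun p hp => h.ld p.1 p.2 (hK hp.2)

end Tube

namespace EC
open E

/-- the punctured unit tube -/
def Dp : Set (ℝ × Rn 3) := {c | 0 < nsq c.2 ∧ nsq c.2 < 1}

/-- the inversion -/
def iv (c : ℝ × Rn 3) : ℝ × Rn 3 := (c.1, (nsq c.2)⁻¹ • c.2)

theorem open_Dp : IsOpen Dp :=
  (isOpen_lt continuous_const (continuous_nsq.comp continuous_snd)).inter
    (isOpen_lt (continuous_nsq.comp continuous_snd) continuous_const)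

theorem ld_iv {c : ℝ × Rn 3} (h : 0 < nsq c.2) : LDAt (vs (ℝ × Rn 3)) (vs (ℝ × Rn 3)) iv c := by
  have o : IsOpen {c : ℝ × Rn 3 | 0 < nsq c.2} := isOpen_lt continuous_const (by fun_prop)
  have s : Sm (vs (ℝ × Rn 3)) (vs (ℝ × Rn 3)) iv {c | 0 < nsq c.2} := fun c hc => smAt_vs.2 (by
    have : nsq c.2 ≠ 0 := ne_of_gt hc
    unfold iv; fun_prop (disch := assumption))
  have m : MapsTo iv {c | 0 < nsq c.2} {c | 0 < nsq c.2} := fun c hc => by
    change 0 < nsq ((nsq c.2)⁻¹ • c.2)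
    rw [nsq_inv hc]; exact inv_pos.2 hc
  have i : ∀ c ∈ {c : ℝ × Rn 3 | 0 < nsq c.2}, iv (iv c) = c := fun c hc =>
    Prod.ext rfl (inv_inv_nsq hc)
  exact ldAt_of_inv (X := vs (ℝ × Rn 3)) (Y := vs (ℝ × Rn 3)) o o h s s m m i i

/-- the manifold `S¹ × S³` with the two tubes, the dual tube `k` and the neck -/
structure Om (Ω : Mf E4) (j₀ j₁ k : ℝ × Rn 3 → Ω) (ν : Rn 4 → Ω) (β : Rn 3 → Rn 3) : Prop where
  cpt : CompactSpace Ω
  t0 : Tube Ω j₀ univ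
  t1 : Tube Ω j₁ univ
  same : ∀ θ w, 1 ≤ θ → θ ≤ 7 → j₀ (θ, w) = j₁ (θ, w)
  tk : Tube Ω k {v | nsq v < 1}
  kcov : k '' (univ ×ˢ {v | nsq v < 1}) = (j₁ '' (univ ×ˢ {w | nsq w ≤ 1}))ᶜ
  kj : ∀ θ v, 0 < nsq v → nsq v < 1 → j₁ (θ, (nsq v)⁻¹ • v) = k (θ, β v)
  βoe : OE (vs (Rn 3)) (vs (Rn 3)) β {v | 0 < nsq v ∧ nsq v < 1}
  βlt : ∀ v, 0 < nsq v → nsq v < 1 → nsq (β v) < 1
  βid : ∀ v, 1 / 4 ≤ nsq v → β v = v
  neck : OE (vs (Rn 4)) Ω ν {v | v ≠ 0}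
  dis : ∀ v, v ≠ 0 → ν v ∉ range j₀
  sc : SC (ν '' {v | nsq v = 1})ᶜ
  ori : ∃ o, Ori Ω 4 o univ

/-- the manifold `N` and its cover -/
structure NOk {F : Mf (Rn 3)} (B : MDat F) {Ω N NG : Mf E4} (j : ℝ × Rn 3 → Ω) (a₀ : B.M → N)
    (b₀ : Ω → N) (a : B.MG → NG) (b : B.G → Ω → NG) (p : NG → N) (γ : B.G → NG → NG) : Prop where
  rep : Rep B.M Ω N B.l j a₀ b₀
  gl : Glued B.MG Ω NG (B.pM ⁻¹' (B.l '' (univ ×ˢ {0}))ᶜ) (j '' (univ ×ˢ {w | nsq w ≤ 1}))ᶜ Dp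
    (fun g c => B.act g (B.lt c)) (fun c => j (iv c)) a b
  pa : ∀ x, B.pM x ∉ B.l '' (univ ×ˢ {0}) → p (a x) = a₀ (B.pM x)
  pb : ∀ g, ∀ y ∉ j '' (univ ×ˢ {w | nsq w ≤ 1}), p (b g y) = b₀ y
  act : ActOn NG γ univ
  free : ∀ g z, γ g z = z → g = 1
  ld : ∀ z, LDAt NG N p z
  sur : Surjective p
  fib : ∀ z z', p z = p z' ↔ ∃ g, γ g z = z'

/-- row OM -/
def OmStmt : Prop := ∃ (Ω : Mf E4) (j₀ j₁ k : ℝ × Rn 3 → Ω) (ν : Rn 4 → Ω) (β : Rn 3 → Rn 3),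
  Om Ω j₀ j₁ k ν β

/-- row REP1: the standard tube gives `M` back -/
def Rep1Stmt : Prop :=
  ∀ (M Ω : Mf E4) (l : ℝ × Rn 3 → M) (j₀ j₁ k : ℝ × Rn 3 → Ω) (ν : Rn 4 → Ω) (β : Rn 3 → Rn 3),
    Tube M l {v | nsq v < 1} → Om Ω j₀ j₁ k ν β → ∃ a b, Rep M Ω M l j₁ a b

/-- row NG -/
def NgStmt : Prop :=
  ∀ (C : SpinCover) (F : Mf (Rn 3)) (e₀ : Rn 3 → F) (B : MDat F) (Ω : Mf E4) (j : ℝ × Rn 3 → Ω),
    B.Ok C e₀ → Tube Ω j univ → ∃ (N NG : Mf E4) (a₀ : B.M → N) (b₀ : Ω → N) (a : B.MG → NG)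
      (b : B.G → Ω → NG) (p : NG → N) (γ : B.G → NG → NG), NOk B j a₀ b₀ a b p γ

/-- row THIN -/
def ThnStmt : Prop :=
  ∀ (C : SpinCover) (F : Mf (Rn 3)) (e₀ : Rn 3 → F) (B : MDat F), B.Ok C e₀ →
    Thin (B.ν '' ({e₀ q0}ᶜ ×ˢ Ioo (-3) 3)) (B.l '' (univ ×ˢ {0}))ᶜ ∧ Thin (range B.ν) univ

/-- row SCN -/
def ScnStmt : Prop :=
  ∀ (C : SpinCover) (F : Mf (Rn 3)) (e₀ : Rn 3 → F) (B : MDat F) (Ω N NG : Mf E4)
    (j₀ j₁ k : ℝ × Rn 3 → Ω) (ν : Rn 4 → Ω) (β : Rn 3 → Rn 3) (a₀ : B.M → N) (b₀ : Ω → N)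
    (a : B.MG → NG) (b : B.G → Ω → NG) (p : NG → N) (γ : B.G → NG → NG), ConnectedSpace F →
    B.Ok C e₀ → Om Ω j₀ j₁ k ν β → NOk B j₀ a₀ b₀ a b p γ →
    SC (p ⁻¹' ((fun v => b₀ (ν v)) '' {v | nsq v = 1})ᶜ)

/-- row CPO: a tube replacement of compact (oriented) manifolds is compact (oriented) -/
def CpoStmt : Prop :=
  ∀ (M Ω N : Mf E4) (l : ℝ × Rn 3 → M) (j : ℝ × Rn 3 → Ω) (a : M → N) (b : Ω → N),
    Tube M l {v | nsq v < 1} → Tube Ω j univ → Rep M Ω N l j a b →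
    (CompactSpace M → CompactSpace Ω → CompactSpace N) ∧
    ((∃ o, Ori M 4 o univ) → (∃ o, Ori Ω 4 o univ) → ∃ o, Ori N 4 o univ)

end EC

end Pool.Agent.MP_e1dc65_gt

end
end MrgPart2

-- ======== part 3: formerly Pool.Agent.MP_e1dc65_gt.e.cW
section MrgPart3

/-! PROJECT HC, part E, sub-part C: the quotient of punctured four-space by a dilation. -/

open scoped ContDiff Manifold Topology Real
open Set Filter Function Real Pool.Agent.MP_c8d41b_gt.GF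

noncomputable section

namespace Pool.Agent.MP_e1dc65_gt.EC

/-- the logarithm of the norm -/
def rr (v : Rn 4) : ℝ := log (nsq v) / 2

variable {v v' : Rn 4}

theorem exp_rr (h : v ≠ 0) : exp (rr v) ^ 2 = nsq v := by
  rw [← exp_nat_mul, rr, ← exp_log (nsq_pos.2 h), log_exp]; congr 1; push_cast; ring

theorem rr_of {t : ℝ} (h : nsq v = exp t ^ 2) : rr v = t := by
  rw [rr, h, log_pow, log_exp]; push_cast; ring

theorem esm_ne (s : ℝ) (h : v ≠ 0) : exp s • v ≠ 0 := smul_ne_zero (exp_pos s).ne' h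

theorem rr_smul (s : ℝ) (h : v ≠ 0) : rr (exp s • v) = s + rr v :=
  rr_of (by rw [nsq_smul, exp_add, mul_pow, exp_rr h])

theorem cd_rr (h : v ≠ 0) : ContDiffAt ℝ ∞ rr v :=
  (contDiff_nsq.contDiffAt.log (nsq_pos.2 h).ne').div_const 2

theorem cn_rr : ContinuousOn rr {v | v ≠ 0} := fun _ h => (cd_rr h).continuousAt.continuousWithinAt

theorem ld_smul {c : ℝ} (hc : c ≠ 0) (v : Rn 4) : LDAt (vs (Rn 4)) (vs (Rn 4)) (c • ·) v :=
  ldAt_of_inv (X := vs (Rn 4)) (Y := vs (Rn 4)) (g := (c⁻¹ • ·)) isOpen_univ isOpen_univ trivial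
    (fun _ _ => smAt_vs.2 (by fun_prop)) (fun _ _ => smAt_vs.2 (by fun_prop)) (mapsTo_univ _ _)
    (mapsTo_univ _ _) (fun _ _ => inv_smul_smul₀ hc _) fun _ _ => smul_inv_smul₀ hc _

/-- the quotient map -/
structure IsW (Ω : Mf E4) (w : Rn 4 → Ω) : Prop where
  ld : ∀ v, v ≠ 0 → LDAt (vs (Rn 4)) Ω w v
  sur : ∀ z, ∃ v, v ≠ 0 ∧ w v = z
  eq : ∀ v v', v ≠ 0 → v' ≠ 0 → (w v = w v' ↔ ∃ m : ℤ, v' = exp (m * (2 * π)) • v)

theorem int_zero {m : ℤ} (h : |m * (2 * π)| < 2 * π) : m = 0 := by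
  rw [abs_mul, abs_of_pos two_pi_pos, mul_lt_iff_lt_one_left two_pi_pos] at h
  exact Int.abs_lt_one_iff.1 (by exact_mod_cast h)

theorem exists_W : ∃ (Ω : Mf E4) (w : Rn 4 → Ω), IsW Ω w := by
  have c : ∀ x y : Rn 4, x ≠ 0 → y ≠ 0 →
      ContinuousAt (fun p : Rn 4 × Rn 4 => rr p.2 - rr p.1) (x, y) := fun x y hx hy =>
    ((cd_rr hy).continuousAt.comp_of_eq continuousAt_snd rfl).sub
      ((cd_rr hx).continuousAt.comp_of_eq continuousAt_fst rfl)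
  have n : ∀ x y : Rn 4, x ≠ 0 → ∀ᶠ p in 𝓝 (x, y), p.1 ≠ 0 := fun x y hx =>
    continuousAt_fst.eventually_ne hx
  obtain ⟨Ω, w, h1, h2, h3⟩ := etaleOn (E' := E4) (Y := vs (Rn 4)) (U := {v | v ≠ 0})
    (r := fun v v' => ∃ m : ℤ, v' = exp (m * (2 * π)) • v) (by simp) isOpen_ne ⟨1, one_ne_zero⟩
    (fun x _ => ⟨0, by simp⟩)
    (by
      rintro x - _ - ⟨m, rfl⟩
      exact ⟨-m, by rw [smul_smul, ← exp_add]; simp⟩)
    (by
      rintro x - _ - _ - ⟨m, rfl⟩ ⟨m', rfl⟩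
      exact ⟨m' + m, by rw [smul_smul, ← exp_add, ← add_mul]; simp⟩)
    (by
      rintro x - _ - ⟨m, rfl⟩
      exact ⟨_, ld_smul (exp_pos _).ne' x, rfl, .of_forall fun z => ⟨m, rfl⟩⟩)
    (fun x hx => by
      filter_upwards [n x x hx, (c x x hx hx).abs.eventually
        (gt_mem_nhds (a := 2 * π) (by simpa using pi_pos))]
      rintro p hp h ⟨m, e⟩
      rw [e, rr_smul _ hp, add_sub_cancel_right] at h
      simp [e, int_zero h])
    (fun x hx y hy h => by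
      by_cases e : cos (rr y - rr x) = 1
      · obtain ⟨m, hm⟩ := (cos_eq_one_iff _).1 e
        have : y - exp (rr y - rr x) • x ≠ 0 := fun e' => h ⟨m, hm ▸ sub_eq_zero.1 e'⟩
        filter_upwards [n x y hx, (continuousAt_snd.sub
          ((c x y hx hy).rexp.smul continuousAt_fst)).eventually_ne this]
        rintro p hp h' ⟨m, e⟩
        refine h' (show p.2 - exp (rr p.2 - rr p.1) • p.1 = 0 from ?_)
        rw [e, rr_smul _ hp, add_sub_cancel_right, sub_self]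
      · filter_upwards [n x y hx,
          (continuous_cos.continuousAt.comp (c x y hx hy)).eventually_ne e]
        rintro p hp h' ⟨m, e⟩
        exact h' (by rw [comp_apply, e, rr_smul _ hp, add_sub_cancel_right, cos_int_mul_two_pi]))
  exact ⟨Ω, w, h1, h2, fun v v' h h' => h3 v h v' h'⟩

namespace IsW
variable {Ω : Mf E4} {w : Rn 4 → Ω} (h : IsW Ω w)
include h

theorem per (hv : v ≠ 0) (m : ℤ) : w (exp (m * (2 * π)) • v) = w v :=
  ((h.eq _ _ hv (esm_ne _ hv)).2 ⟨m, rfl⟩).symm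

theorem inj (hv : v ≠ 0) (hv' : v' ≠ 0) (e : w v = w v') (d : |rr v' - rr v| < 2 * π) : v = v' := by
  obtain ⟨m, rfl⟩ := (h.eq _ _ hv hv').1 e
  rw [rr_smul _ hv, add_sub_cancel_right] at d
  simp [int_zero d]

theorem red (t : ℝ) (z : Ω) : ∃ v, v ≠ 0 ∧ rr v ∈ Ico t (t + 2 * π) ∧ w v = z := by
  obtain ⟨v, hv, rfl⟩ := h.sur z
  refine ⟨_, esm_ne _ hv, ?_, h.per hv (-toIcoDiv two_pi_pos t (rr v))⟩
  have := toIcoMod_mem_Ico two_pi_pos t (rr v)
  rw [← self_sub_toIcoDiv_zsmul, zsmul_eq_mul] at this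
  rw [rr_smul _ hv]
  convert this using 1
  push_cast; ring

theorem cont : ContinuousOn w {v | v ≠ 0} := fun v hv => (h.ld v hv).sm.cont.continuousWithinAt

theorem cpt : CompactSpace Ω := by
  refine ⟨(((cpt_nsq (exp (2 * π) ^ 2)).inter_right
    (isClosed_le (continuous_const (y := (1 : ℝ))) continuous_nsq)).image_of_continuousOn
      (h.cont.mono fun v hv => nsq_pos.1 (one_pos.trans_le hv.2))).of_isClosed_subset
    isClosed_univ fun z _ => ?_⟩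
  obtain ⟨v, hv, h1, rfl⟩ := h.red 0 z
  refine ⟨v, ⟨?_, ?_⟩, rfl⟩
  · rw [mem_ofPred, ← exp_rr hv]
    gcongr
    simpa using h1.2.le
  · rw [mem_ofPred, ← exp_rr hv]
    exact one_le_pow₀ (one_le_exp h1.1)

theorem ori : ∃ o, Ori Ω 4 o univ := by
  obtain ⟨a, ha, h0⟩ : ∃ a ∈ dg (Rn 4) 4, a ≠ 0 := by
    refine ⟨_, dg_prod fun i : Fin 4 => ContinuousLinearMap.proj i, fun e => ?_⟩
    have := ev_prod (fun i : Fin 4 => ContinuousLinearMap.proj (R := ℝ) (φ := fun _ => ℝ) i)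
      (fun j => Pi.single j 1) (fun i j => by simp [Pi.single_apply]) (a := 1)
      (fun j => by simp) []
    rw [e] at this
    simp [ev] at this
  have sm : ∀ (c : ℝ) {n : ℕ} {a : Lam (Rn 4)}, a ∈ dg (Rn 4) n →
      mp (c • ContinuousLinearMap.id ℝ (Rn 4)) a = c ^ n • a := fun c n a ha =>
    dg_ind (P := fun n a => mp (c • ContinuousLinearMap.id ℝ (Rn 4)) a = c ^ n • a)
      (fun r => by simp) (fun n a b _ _ h1 h2 => by rw [map_add, h1, h2, smul_add])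
      (fun n l a _ h1 => by
        rw [map_mul, h1, mp_ι, ContinuousLinearMap.comp_smul, ContinuousLinearMap.comp_id,
          map_smul, smul_mul_smul_comm, pow_succ']) ha
  obtain ⟨o, ho⟩ := desc1 {v | v ≠ 0} w
    (fun v => mp (Df (vs (Rn 4)) Ω w v).inverse ((nsq v ^ 2)⁻¹ • a)) (fun v hv v' hv' e => by
      obtain ⟨m, rfl⟩ := (h.eq _ _ hv hv').1 e
      have hc := (exp_pos (m * (2 * π))).ne'
      have e1 : Df (vs (Rn 4)) Ω w v = (Df (vs (Rn 4)) Ω w (exp (m * (2 * π)) • v)).comp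
          (exp (m * (2 * π)) • ContinuousLinearMap.id ℝ (Rn 4)) := by
        rw [← Df_congr (X := vs (Rn 4)) (f := fun u => w (exp (m * (2 * π)) • u)) (f' := w)
          (mem_of_superset (isOpen_ne.mem_nhds hv) fun u hu => h.per hu m),
          Df_comp (ld_smul hc v).sm (h.ld _ hv').sm, Df_vs]
        congr 1
        exact (exp (m * (2 * π)) • ContinuousLinearMap.id ℝ (Rn 4)).fderiv
      refine mp_injective (h.ld v hv).inv ?_
      rw [← mp_comp, ← mp_comp, (h.ld v hv).inv.inverse_comp_self, mp_id, e1,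
        ← ContinuousLinearMap.comp_assoc, (h.ld _ hv').inv.inverse_comp_self,
        ContinuousLinearMap.id_comp, map_smul, sm _ ha, smul_smul, nsq_smul]
      congr 1
      have := (nsq_pos.2 hv).ne'
      field_simp)
  have e : ∀ v, v ≠ 0 → pbM (vs (Rn 4)) Ω w o v = (nsq v ^ 2)⁻¹ • a := fun v hv => by
    rw [pbM, ho v hv, ← mp_comp, (h.ld v hv).inv.inverse_comp_self, mp_id]
  refine ⟨o, by simp, fun z _ => ?_, fun z _ e0 => ?_⟩ <;> obtain ⟨v, hv, rfl⟩ := h.sur z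
  · refine ⟨(h.ld v hv).fmAt_of_pb (FmAt.congr' (fmAt_vs.2 ?_)
      (mem_of_superset (isOpen_ne.mem_nhds hv) e)), ho v hv ▸ dg_mp _ (Submodule.smul_mem _ _ ha)⟩
    exact ((contDiff_nsq.contDiffAt.pow 2).inv (pow_ne_zero 2 (nsq_pos.2 hv).ne')).smul
      contDiffAt_const
  · have := e v hv
    rw [pbM_zero e0] at this
    exact smul_ne_zero (inv_ne_zero (pow_ne_zero 2 (nsq_pos.2 hv).ne')) h0 this.symm

end IsW

/-- the radial map onto the shell round the neck -/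
def rad (v : Rn 4) : Rn 4 := exp (π + arctan (rr v) - rr v) • v

theorem rr_rad (h : v ≠ 0) : rr (rad v) = π + arctan (rr v) := by
  rw [rad, rr_smul _ h, sub_add_cancel]

theorem oe_rad : OE (vs (Rn 4)) (vs (Rn 4)) rad {v | v ≠ 0} := by
  refine oe_of_inv (X := vs (Rn 4)) (Y := vs (Rn 4))
    (g := fun v => exp (tan (rr v - π) - rr v) • v)
    (W := {v | v ≠ 0} ∩ rr ⁻¹' Ioo (π / 2) (π + π / 2)) isOpen_ne
    (cn_rr.isOpen_inter_preimage isOpen_ne isOpen_Ioo) (fun v hv => smAt_vs.2 ?_)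
    (fun v hv => smAt_vs.2 ?_) (fun v hv => ⟨esm_ne _ hv, ?_⟩) (fun v hv => esm_ne _ hv.1)
    (fun v hv => ?_) fun v hv => ?_
  · exact (((contDiffAt_const.add (contDiff_arctan.contDiffAt.comp v (cd_rr hv))).sub
      (cd_rr hv)).exp).smul contDiffAt_id
  · refine ((((contDiffAt_tan.2 (cos_pos_of_mem_Ioo ⟨?_, ?_⟩).ne').comp v
      ((cd_rr hv.1).sub contDiffAt_const)).sub (cd_rr hv.1)).exp).smul contDiffAt_id <;>
      linarith [hv.2.1, hv.2.2]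
  · rw [mem_preimage, rr_rad hv]
    constructor <;> linarith [neg_pi_div_two_lt_arctan (rr v), arctan_lt_pi_div_two (rr v)]
  · rw [rr_rad hv, rad, smul_smul, ← exp_add, add_sub_cancel_left, tan_arctan]; simp
  · rw [rad, rr_smul _ hv.1, sub_add_cancel, smul_smul, ← exp_add,
      arctan_tan (by linarith [hv.2.1]) (by linarith [hv.2.2])]
    simp

/-- the neck -/
theorem IsW.neck {Ω : Mf E4} {w : Rn 4 → Ω} (h : IsW Ω w) :
    OE (vs (Rn 4)) Ω (fun v => w (rad v)) {v | v ≠ 0} ∧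
    (∀ v v', v ≠ 0 → v' ≠ 0 → |rr v'| < π / 2 → w v' ≠ w (rad v)) ∧
    SC ((fun v => w (rad v)) '' {v | nsq v = 1})ᶜ := by
  have a := fun v => neg_pi_div_two_lt_arctan (rr v)
  have b := fun v => arctan_lt_pi_div_two (rr v)
  refine ⟨⟨isOpen_ne, fun v hv => (oe_rad.ld v hv).trans (h.ld _ (esm_ne _ hv)),
    fun v hv v' hv' e => oe_rad.inj hv hv' (h.inj (esm_ne _ hv) (esm_ne _ hv') e ?_)⟩,
    fun v v' hv hv' d e => ?_, ?_⟩
  · rw [rr_rad hv, rr_rad hv', abs_lt]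
    constructor <;> linarith [a v, b v, a v', b v', pi_pos]
  · rw [abs_lt] at d
    have := h.inj hv' (esm_ne _ hv) e (by
      change |rr (rad v) - _| < _
      rw [rr_rad hv, abs_lt]
      constructor <;> linarith [a v, b v])
    have := congrArg rr this
    rw [← rad, rr_rad hv] at this
    linarith [a v]
  have k : ∀ v, exp (-π) ^ 2 < nsq v ∧ nsq v < exp π ^ 2 ↔ v ≠ 0 ∧ -π < rr v ∧ rr v < π :=
    fun v => by
      by_cases hv : v = 0
      · simp [hv, (sq_nonneg _).not_gt]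
      · rw [← exp_rr hv, sq_lt_sq₀ (exp_pos _).le (exp_pos _).le,
          sq_lt_sq₀ (exp_pos _).le (exp_pos _).le, exp_lt_exp, exp_lt_exp]
        simp [hv]
  have o : OE (vs (Rn 4)) Ω w {v | exp (-π) ^ 2 < nsq v ∧ nsq v < exp π ^ 2} :=
    ⟨(isOpen_lt continuous_const continuous_nsq).inter (open_nsq _),
      fun v hv => h.ld v ((k v).1 hv).1, fun v hv v' hv' e => by
        have := (k v).1 hv
        have := (k v').1 hv'
        exact h.inj (by tauto) (by tauto) e (abs_lt.2 ⟨by linarith, by linarith⟩)⟩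
  have r1 : ∀ v, nsq v = 1 → rad v = exp π • v := fun v hv => by simp [rad, rr, hv]
  convert (sc_shell (n := 4) (by norm_num) (sq_nonneg _)
    (pow_lt_pow_left₀ (exp_lt_exp.2 (neg_lt_self pi_pos)) (exp_pos _).le two_ne_zero)).image
    o.sm.contOn o.symm.sm.contOn fun v hv => o.left hv
  ext z
  constructor
  · intro hz
    obtain ⟨v, hv, h1, rfl⟩ := h.red (-π) z
    refine ⟨v, (k v).2 ⟨hv, h1.1.lt_of_ne fun e => ?_, by linarith [h1.2]⟩, rfl⟩
    have h2 : nsq (exp π • v) = 1 := by rw [← exp_rr (esm_ne _ hv), rr_smul _ hv, ← e]; simp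
    have := h.per hv 1
    rw [Int.cast_one, one_mul, two_mul, exp_add, mul_smul, ← r1 _ h2] at this
    exact hz ⟨_, h2, this⟩
  · rintro ⟨v, hv, rfl⟩ ⟨v', hv', e⟩
    have h1 := (k v).1 hv
    have h2 : v' ≠ 0 := nsq_pos.1 (hv' ▸ one_pos)
    have h3 : rr (rad v') = π := by rw [rr_rad h2]; simp [rr, show nsq v' = 1 from hv']
    have := h.inj (esm_ne _ h2) h1.1 e (by
      change |_ - rr (rad v')| < _
      rw [h3, abs_lt]
      constructor <;> linarith [h1.2.1, h1.2.2])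
    rw [← this, ← rad, h3] at h1
    exact h1.2.2.false

end Pool.Agent.MP_e1dc65_gt.EC

end
end MrgPart3

-- ======== part 4: formerly Pool.Agent.MP_e1dc65_gt.e.cThn
section MrgPart4

/-! PROJECT HC, part E, sub-part C, row THIN: the neck is thin. -/

open scoped ContDiff Manifold Topology Real
open Set Filter Function

noncomputable section

namespace Pool.Agent.MP_e1dc65_gt

namespace EC
open E

namespace Thn
variable {C : SpinCover} {F : Mf (Rn 3)} {e₀ : Rn 3 → F} {B : MDat F}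

/-- deform vertically to the level `1`, lift the level to a simply connected set -/
theorem thin_neck (hB : B.Ok C e₀) {A : Set F} {J : Set ℝ} (hJ : Convex ℝ J) (h1 : (1 : ℝ) ∈ J)
    {T : Set B.M} {T' : Set B.MG} (hs : SC T') (hm : MapsTo B.pM T' T)
    (hT : B.ν '' (A ×ˢ J) ⊆ T) (hT' : ∀ m ∈ A, B.νt (m, 1) ∈ T') : Thin (B.ν '' (A ×ˢ J)) T := by
  have hν : Continuous B.ν := hB.neck.sm.cont
  have hνt : Continuous B.νt := continuous_iff_continuousAt.2 fun p => (hB.νld p).sm.cont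
  have hp : Continuous B.pM := continuous_iff_continuousAt.2 fun p => (hB.ld p).sm.cont
  have hk : ContinuousOn (invFunOn B.ν univ) (B.ν '' univ) := hB.neck.symm.sm.contOn
  have hl : ∀ p, invFunOn B.ν univ (B.ν p) = p := fun p => hB.neck.left trivial
  have ha : Thin (B.pM '' (B.νt '' (A ×ˢ {1}))) T := by
    refine Thin.image (g := fun x => B.νt (invFunOn B.ν univ x)) (T := T') (hs.2.mono ?_ subset_rfl)
      hp.continuousOn hm (hνt.comp_continuousOn (hk.mono ?_)) ?_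
    · rintro _ ⟨⟨m, t⟩, ⟨hm, rfl⟩, rfl⟩
      exact hT' m hm
    · rintro _ ⟨_, ⟨p, -, rfl⟩, rfl⟩
      exact ⟨p, trivial, (hB.νp p).symm⟩
    · rintro _ ⟨p, -, rfl⟩
      simp only [hB.νp, hl]
  refine (thin B.M _ _ hT).2 fun G _ τ hτ => ?_
  refine hτ.deform (H := fun q => B.ν ((invFunOn B.ν univ q.2).1,
    (1 - q.1) • (invFunOn B.ν univ q.2).2 + q.1 • (1 : ℝ))) ?_ ?_ ?_ ?_ (hτ.triv_of_thin ha)
  · have h2 : ContinuousOn (fun q : ℝ × B.M => invFunOn B.ν univ q.2)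
        (Icc 0 1 ×ˢ (B.ν '' (A ×ˢ J))) :=
      hk.comp continuousOn_snd fun q hq => image_mono (subset_univ _) hq.2
    refine hν.comp_continuousOn (h2.fst.prodMk ?_)
    exact ((continuousOn_const.sub continuousOn_fst).smul h2.snd).add
      (continuousOn_fst.smul continuousOn_const)
  · rintro ⟨s, _⟩ ⟨hs, p, hp, rfl⟩
    simp only [hl]
    exact hT ⟨(p.1, (1 - s) • p.2 + s • (1 : ℝ)),
      ⟨hp.1, hJ hp.2 h1 (sub_nonneg.2 hs.2) hs.1 (by ring)⟩, rfl⟩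
  · rintro _ ⟨p, -, rfl⟩
    simp [hl]
  · rintro _ ⟨p, hp, rfl⟩
    refine ⟨_, ⟨(p.1, 1), ⟨hp.1, rfl⟩, rfl⟩, ?_⟩
    simp [hl, hB.νp]

theorem off_core (hB : B.Ok C e₀) {m : F} (hm : m ≠ e₀ q0) {t : ℝ} (ht : t ∈ Ioo (-3 : ℝ) 3) :
    B.ν (m, t) ∉ B.l '' (univ ×ˢ {0}) := by
  have h0 : nsq (0 : Rn 3) < 1 := by simp
  rintro ⟨⟨θ, _⟩, ⟨-, rfl⟩, e⟩
  obtain ⟨θ', h1, -, -, h2⟩ := hB.tl.cred (v := 0) h0 3 θ
  rw [← h2] at e
  by_cases h5 : θ' ≤ 5
  · exact hB.off θ' 0 h1.1 h5 h0 ⟨(m, t), ⟨trivial, ht⟩, e.symm⟩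
  · have h3 : |θ' + 8 * ((-1 : ℤ) : ℝ)| < 3 := by
      rw [abs_lt]; push_cast; constructor <;> linarith [h1.2, not_le.1 h5]
    rw [← hB.tl.cper (v := 0) h0 θ' (-1), hB.str _ 0 h3 h0, smul_zero, add_zero] at e
    exact hm (congrArg Prod.fst (hB.neck.inj trivial trivial e)).symm

theorem off_zero (hB : B.Ok C e₀) (m : F) : B.ν (m, 1) ∉ B.ν '' (univ ×ˢ {0}) := by
  rintro ⟨⟨m', _⟩, ⟨-, rfl⟩, e⟩
  exact zero_ne_one (congrArg Prod.snd (hB.neck.inj trivial trivial e))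

end Thn

open Thn in
theorem thn : ThnStmt := by
  intro C F e₀ B hB
  have h1 : (1 : ℝ) ∈ Ioo (-3 : ℝ) 3 := by norm_num
  constructor
  · refine thin_neck hB (convex_Ioo _ _) h1 hB.sc1 (fun y hy h => hy (Or.inr h)) ?_ fun m hm => ?_
    · rintro _ ⟨⟨m, t⟩, hp, rfl⟩
      exact off_core hB hp.1 hp.2
    · show B.pM (B.νt (m, 1)) ∉ _
      rw [hB.νp]
      exact fun h => h.elim (off_zero hB m) (off_core hB hm h1)
  · have h := thin_neck hB (A := univ) convex_univ trivial hB.sc0 (mapsTo_univ _ _)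
      (subset_univ _) fun m _ => by
        show B.pM (B.νt (m, 1)) ∉ _
        rw [hB.νp]
        exact off_zero hB m
    rwa [univ_prod_univ, image_univ] at h

end EC

end Pool.Agent.MP_e1dc65_gt

end
end MrgPart4

-- marker of a merged file
example : 731051 + 875983 = 731051 + 875983 := rfl
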