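import Mathlib.Analysis.InnerProductSpace.Calculus
import Pool.Agent.MP_e1dc65_gt.k.Cov
import Pool.Agent.MP_e1dc65_gt.a.ClsW
import Mathlib.Analysis.Complex.ExponentialBounds
import Pool.Agent.MP_e1dc65_gt.o.Flat
import Pool.Agent.MP_e1dc65_gt.fm.Cw3
import Pool.Agent.MP_e1dc65_gt.o.Iso
import Pool.Agent.MP_e1dc65_gt.fm.Pd1
import Pool.Agent.MP_e1dc65_gt.u.Spec
import Pool.Agent.MP_e1dc65_gt.e.bSpin
import Pool.Agent.MP_e1dc65_gt.e.aLie
import Mathlib.LinearAlgebra.Complex.FiniteDimensional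
import Pool.Agent.MP_e1dc65_gt.fm.Pd3
import Pool.Agent.MP_e1dc65_gt.k.Std
import Pool.Agent.MP_e1dc65_gt.t.Core
import Mathlib.Analysis.Calculus.Deriv.MeanValue
import Mathlib.Analysis.Calculus.Deriv.Inverse
import Mathlib.Analysis.Calculus.Deriv.Slope
import Mathlib.Analysis.Real.Pi.Bounds
import Pool.Agent.MP_e1dc65_gt.k.Bump
import Pool.Agent.MP_e1dc65_gt.fm.Hza
import Pool.Agent.MP_e1dc65_gt.e.aH2l
import Pool.Agent.MP_e1dc65_gt.e.cThn
import Pool.Agent.MP_e1dc65_gt.e.bH2a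

-- ======== part 0: formerly Pool.Agent.MP_e1dc65_gt.o.Dbl2
section MrgPart0

-- ======== part 0: formerly Pool.Agent.MP_e1dc65_gt.a.Lift
section MrgPart0

/-! Smooth local lifts of a smooth family of rotations of the quaternions. -/

set_option maxSynthPendingDepth 3

open scoped Quaternion ContDiff Topology RealInnerProductSpace
open Set Filter MeasureTheory Metric

noncomputable section

namespace Pool.Agent.MP_e1dc65_gt.A

namespace Lift

def qi : ℍ := ⟨0, 1, 0, 0⟩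
def qj : ℍ := ⟨0, 0, 1, 0⟩
def qk : ℍ := ⟨0, 0, 0, 1⟩

theorem avg (z : ℍ) : z - qi * z * qi - qj * z * qj - qk * z * qk = (4 * z.re) • (1 : ℍ) := by
  ext <;> simp [qi, qj, qk] <;> ring

/-- a multiple of the left factor of a rotation -/
def nn (A : ℍ →L[ℝ] ℍ) (c : ℍ) : ℍ := A 1 * c - A qi * c * qi - A qj * c * qj - A qk * c * qk

theorem nn_eq {A : ℍ →L[ℝ] ℍ} {p q : ℍ} (h : ∀ v, A v = p * v * star q) (c : ℍ) :
    nn A c = (4 * (star q * c).re) • p := by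
  have := congrArg (fun z => p * z) (avg (star q * c))
  simp only [mul_sub, mul_smul_comm, mul_one] at this
  rw [← this, nn, h, h, h, h]
  simp only [mul_assoc, one_mul]

theorem sign {t : ℝ} {p : ℍ} (hp : ‖p‖ = 1) (h : t • p ≠ 0) :
    ‖t • p‖⁻¹ • t • p = p ∨ ‖t • p‖⁻¹ • t • p = -p := by
  have ht : t ≠ 0 := left_ne_zero_of_smul h
  rw [norm_smul, hp, mul_one, smul_smul, Real.norm_eq_abs]
  rcases lt_or_gt_of_ne ht with h1 | h1
  · right
    rw [abs_of_neg h1, inv_neg, neg_mul, inv_mul_cancel₀ ht, neg_one_smul]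
  · left
    rw [abs_of_pos h1, inv_mul_cancel₀ ht, one_smul]

end Lift

open Lift in
theorem liftS : LiftStmt := by
  intro P _ _ Q p₀ q₀ x hQ h
  obtain ⟨a1, a2, a3⟩ := h.self_of_nhds
  have hv : ∀ v, ContDiffAt ℝ ∞ (fun y => Q y v) x := fun v => hQ.clm_apply contDiffAt_const
  have hn : ContDiffAt ℝ ∞ (fun y => nn (Q y) (q₀ x)) x :=
    ((((hv 1).mul contDiffAt_const).sub (((hv qi).mul contDiffAt_const).mul contDiffAt_const)).sub
      (((hv qj).mul contDiffAt_const).mul contDiffAt_const)).sub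
      (((hv qk).mul contDiffAt_const).mul contDiffAt_const)
  have e0 : nn (Q x) (q₀ x) = (4 : ℝ) • p₀ x := by
    rw [nn_eq a3, star_mul_unit a2, Quaternion.re_one, mul_one]
  have n0 : ‖nn (Q x) (q₀ x)‖ = 4 := by
    rw [e0, norm_smul, a1]
    norm_num
  have h0 : nn (Q x) (q₀ x) ≠ 0 := norm_ne_zero_iff.1 (by rw [n0]; norm_num)
  have hp : ContDiffAt ℝ ∞ (fun y => ‖nn (Q y) (q₀ x)‖⁻¹ • nn (Q y) (q₀ x)) x :=
    ((hn.norm ℝ h0).inv (norm_ne_zero_iff.2 h0)).smul hn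
  have hs : ContDiffAt ℝ ∞ (fun y => star (Q y 1)) x := cda_star (hv 1)
  have e1 : ‖nn (Q x) (q₀ x)‖⁻¹ • nn (Q x) (q₀ x) = p₀ x := by
    rw [n0, e0, smul_smul, inv_mul_cancel₀ (by norm_num), one_smul]
  have e2 : ∀ {A : ℍ →L[ℝ] ℍ} {p q : ℍ}, ‖p‖ = 1 → (∀ v, A v = p * v * star q) →
      star (A 1) * p = q := fun {A p q} h1 h2 => by
    rw [h2, mul_one, StarMul.star_mul, star_star, mul_assoc, star_mul_unit h1, mul_one]
  have hd : ∀ᶠ y in 𝓝 x, (‖nn (Q y) (q₀ x)‖⁻¹ • nn (Q y) (q₀ x) = p₀ y ∧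
      star (Q y 1) * (‖nn (Q y) (q₀ x)‖⁻¹ • nn (Q y) (q₀ x)) = q₀ y) ∨
      (‖nn (Q y) (q₀ x)‖⁻¹ • nn (Q y) (q₀ x) = -p₀ y ∧
      star (Q y 1) * (‖nn (Q y) (q₀ x)‖⁻¹ • nn (Q y) (q₀ x)) = -q₀ y) := by
    filter_upwards [h, hn.continuousAt.eventually_ne h0] with y ⟨b1, _, b3⟩ hy
    rw [nn_eq b3] at hy ⊢
    rcases sign b1 hy with e | e
    · exact Or.inl ⟨e, by rw [e, e2 b1 b3]⟩
    · exact Or.inr ⟨e, by rw [e, mul_neg, e2 b1 b3]⟩
  refine ⟨_, _, hp, hs.mul hp, e1, by rw [e1, e2 a1 a3], hd, fun hc => ?_⟩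
  have h1 : ContinuousAt (fun y => ‖nn (Q y) (q₀ x)‖⁻¹ • nn (Q y) (q₀ x) + p₀ y) x :=
    hp.continuousAt.add hc
  have h2 : ‖nn (Q x) (q₀ x)‖⁻¹ • nn (Q x) (q₀ x) + p₀ x ≠ 0 := by
    rw [e1, ← two_smul ℝ]
    exact smul_ne_zero two_ne_zero (norm_ne_zero_iff.1 (by rw [a1]; exact one_ne_zero))
  filter_upwards [hd, h1.eventually_ne h2] with y hy hy'
  exact hy.resolve_right fun e => hy' (by rw [e.1, neg_add_cancel])

end Pool.Agent.MP_e1dc65_gt.A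

end
end MrgPart0

-- ======== part 1: formerly Pool.Agent.MP_e1dc65_gt.a.Lp
section MrgPart1

/-! PROJECT HC, part A: existence of the local parametrix. -/

set_option maxSynthPendingDepth 3

open scoped Quaternion ContDiff Topology RealInnerProductSpace
open Set Filter MeasureTheory Metric

noncomputable section

namespace Pool.Agent.MP_e1dc65_gt.A

namespace LpR

variable {Y 𝔸 : Type} [NormedAddCommGroup Y] [NormedSpace ℝ Y] [NormedRing 𝔸] [NormedAlgebra ℝ 𝔸]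

theorem pd_far {δ : ℝ} {F : Y × ℍ → 𝔸} (h : ∀ p : Y × ℍ, δ < ‖p.2‖ → F p = 0) (b : Fin 4)
    (p : Y × ℍ) (hp : δ < ‖p.2‖) : pd b F p = 0 := by
  have e : F =ᶠ[𝓝 p] fun _ => 0 :=
    ((isOpen_lt continuous_const continuous_snd.norm).eventually_mem hp).mono h
  rw [pd, e.fderiv_eq, fderiv_fun_const]
  rfl

theorem heat_far (L : Op Y 𝔸) {δ : ℝ} {k : ℝ → Y × ℍ → 𝔸}
    (h : ∀ t (p : Y × ℍ), δ ≤ ‖p.2‖ → k t p = 0) (t : ℝ) (p : Y × ℍ) (hp : δ < ‖p.2‖) :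
    L.heat k t p = 0 := by
  have h1 : ∀ q : Y × ℍ, δ < ‖q.2‖ → k t q = 0 := fun q hq => h t q hq.le
  simp only [Op.heat, Op.ap, fun s => h s p hp.le, pd_far h1 _ p hp,
    fun b c => pd_far (pd_far h1 c) b p hp, deriv_const, smul_zero, mul_zero,
    Finset.sum_const_zero, neg_zero, add_zero]

theorem ap_zero (L : Lap) (x : E4) : L.ap (fun _ => 0) x = 0 := by
  have e : ∀ v, cov L.om v (fun _ => 0) = fun _ => 0 := fun v => funext fun x => by simp [cov]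
  simp [Lap.ap, e]

end LpR

open LpR in
theorem lp (h1 : PexStmt) (h2 : ExpStmt) : LpStmt := by
  intro L T hL y₀ hy N hN
  obtain ⟨e1, e2, e3, e4, e5⟩ := h2
  obtain ⟨r, hr, hT, ψ, hψ, hψT, hid⟩ := e3 (T ∩ N) y₀ (inter_mem (hL.frm.op.mem_nhds hy) hN)
  have ok := e4 L T ψ hL hψ fun x => (hψT x).1
  set L' := L.comp ψ with hL'
  have hθ : ContDiff ℝ ∞ L'.θ := contDiffOn_univ.1 ok.frm.θs
  have sub : closedBall y₀ (2 * r) ⊆ ball y₀ (3 * r) := closedBall_subset_ball (by linarith)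
  have sub' : closedBall y₀ r ⊆ closedBall y₀ (2 * r) := closedBall_subset_closedBall (by linarith)
  have eθ : ∀ x ∈ closedBall y₀ (2 * r), L'.θ x = L.θ x := fun x hx => congrArg L.θ (hid x (sub hx))
  refine ⟨r, hr, hT, L'.θ, hθ, eθ, fun M => ?_⟩
  obtain ⟨C, hC⟩ := (isCompact_closedBall y₀ r).exists_bound_of_continuousOn
    (ok.frm.es.continuousOn.mono (subset_univ _))
  have C0 : 0 < |C| + 1 := by positivity
  obtain ⟨p1, p2⟩ := h1 E4 (W →L[ℝ] W) _ (e2 E4 L' (fun y => y) ok contDiff_id)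
  obtain ⟨k, k1, k2, k3⟩ := p2 (-1) le_rfl _ (wt_hk_const 1) p1 M (r / (|C| + 1)) (by positivity)
  have k0 : Wt Prod.snd 0 k :=
    ((k1.mono (by norm_num)).add (wt_hk_const 1)).congr fun _ _ _ => (sub_add_cancel _ _).symm
  have hz : ContDiff ℝ ∞ fun p : E4 × E4 => L'.θ p.1 (p.2 - p.1) :=
    (hθ.comp contDiff_fst).clm_apply (contDiff_snd.sub contDiff_fst)
  have hf : ContDiff ℝ ∞ fun p : E4 × E4 => (p.1, L'.θ p.1 (p.2 - p.1)) := contDiff_fst.prodMk hz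
  have far : ∀ y ∈ closedBall y₀ r, ∀ x ∉ closedBall y₀ (2 * r),
      r / (|C| + 1) < ‖L'.θ y (x - y)‖ := fun y hy x hx => by
    have a1 := (L'.e y).le_opNorm (L'.θ y (x - y))
    rw [ok.frm.eθ y (mem_univ _), ← dist_eq_norm] at a1
    have a2 := mul_le_mul_of_nonneg_right (((hC y hy).trans (le_abs_self C)).trans
      (le_add_of_nonneg_right zero_le_one)) (norm_nonneg (L'.θ y (x - y)))
    have a3 := dist_triangle x y y₀
    rw [mem_closedBall, not_le] at hx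
    rw [mem_closedBall] at hy
    rw [div_lt_iff₀' C0]
    linarith
  set ρ := (L'.op (fun y => y) (fun η => L'.θ η) fun η => L'.e η).heat k with hρ
  have sup : ∀ y ∈ closedBall y₀ r, ∀ t, ∀ x ∉ closedBall y₀ (2 * r),
      k t (y, L'.θ y (x - y)) = 0 ∧ ρ t (y, L'.θ y (x - y)) = 0 := fun y hy t x hx =>
    ⟨k3 t _ (far y hy x hx).le, heat_far _ k3 t _ (far y hy x hx)⟩
  have eqn : ∀ y ∈ closedBall y₀ r, ∀ t, 0 < t → ∀ x w,
      deriv (fun s => k s (y, L'.θ y (x - y))) t w +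
        L.ap (fun x => k t (y, L'.θ y (x - y)) w) x = ρ t (y, L'.θ y (x - y)) w := by
    intro y hy t ht x w
    by_cases hx : x ∈ closedBall y₀ (2 * r)
    · have ev : ∀ᶠ x' in 𝓝 x, ψ x' = x' := (isOpen_ball.eventually_mem (sub hx)).mono hid
      rw [e5 L L' _ _ x (ev.mono fun x' h => (congrArg L.e h).symm)
        (ev.mono fun x' h => (congrArg L.om h).symm) (congrArg L.h ev.self_of_nhds).symm
        (congrArg L.V ev.self_of_nhds).symm EventuallyEq.rfl,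
        e1 E4 L' (fun y => y) (fun η => L'.θ η) (fun η => L'.e η) (k t) y x w ok
          (k0.smooth contDiff_snd ht) (ok.frm.eθ y (mem_univ _))]
      rfl
    · rw [e5 L L _ (fun _ => 0) x EventuallyEq.rfl EventuallyEq.rfl rfl rfl
        ((isClosed_closedBall.isOpen_compl.eventually_mem hx).mono fun x' h => by
          simp only [(sup y hy t x' h).1, zero_apply]), ap_zero]
      simp only [fun s => (sup y hy s x hx).1, (sup y hy t x hx).2, deriv_const,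
        zero_apply, add_zero]
  have kW := (k1.mono (ν := 1) (by norm_num)).comp hf
  have ρW := k2.comp hf
  refine ⟨fun t p => k t (p.1, L'.θ p.1 (p.2 - p.1)), fun t p => ρ t (p.1, L'.θ p.1 (p.2 - p.1)),
    kW, ρW, sup, eqn, fun hM => ?_⟩
  have hK := (isCompact_closedBall y₀ r).prod (isCompact_closedBall y₀ (2 * r))
  obtain ⟨M1, m1, b1⟩ := (k0.comp hf).bound hz hK
  obtain ⟨M2, m2, b2⟩ := (ρW.mono hM).bound' hz hK
  refine ⟨M1 + M2, fun y hy => ?_⟩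
  have hi : ContDiff ℝ ∞ fun x : E4 => (y, x) := contDiff_const.prodMk contDiff_id
  have ey := eθ y (sub' hy)
  refine ⟨ey ▸ kW.comp hi, ey ▸ (ρW.mono hM).comp hi, sup y hy, eqn y hy, fun t ht x => ?_,
    fun t ht x => ?_⟩
  · have h0 := (hk_pos (mul_pos two_pos ht.1) (L'.θ y (x - y))).le
    rw [← ey]
    by_cases hx : x ∈ closedBall y₀ (2 * r)
    · have := b1 t ht (y, x) ⟨hy, hx⟩
      rw [zpow_zero, mul_one] at this
      exact this.trans (mul_le_mul_of_nonneg_right (le_add_of_nonneg_right m2) h0)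
    · rw [(sup y hy t x hx).1, norm_zero]
      positivity
  · by_cases hx : x ∈ closedBall y₀ (2 * r)
    · have := b2 t ht (y, x) ⟨hy, hx⟩
      rw [sub_self, zpow_zero, mul_one] at this
      exact this.trans (le_add_of_nonneg_left m1)
    · rw [(sup y hy t x hx).2, norm_zero]
      positivity

end Pool.Agent.MP_e1dc65_gt.A

end
end MrgPart1

-- ======== part 2: formerly Pool.Agent.MP_e1dc65_gt.o.Dbl2
section MrgPart2

/-! PROJECT HC, part O, row DBL2: the Pontryagin number of the double. -/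

open scoped ContDiff Manifold Topology Real
open Set Filter Function Module Pool.Agent.MP_c8d41b_gt.GF

set_option linter.unusedSectionVars false

noncomputable section

namespace Pool.Agent.MP_e1dc65_gt.O

namespace Dbl2

section Gen
variable {E E' E'' : Type} [NormedAddCommGroup E] [NormedSpace ℝ E] [FiniteDimensional ℝ E]
  [NormedAddCommGroup E'] [NormedSpace ℝ E'] [FiniteDimensional ℝ E']
  [NormedAddCommGroup E''] [NormedSpace ℝ E''] [FiniteDimensional ℝ E'']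
  {X : Mf E} {Y : Mf E'} {Z : Mf E''}

theorem sm_cyl {k : Y → X} {p : Y.cyl} (hk : SmAt Y X k p.1) :
    SmAt Y.cyl X.cyl (fun p => (k p.1, p.2)) p := (smAt_fst.trans hk).pair smAt_snd

theorem Df_cyl {k : Y → X} {p : Y.cyl} (hk : SmAt Y X k p.1) :
    Df Y.cyl X.cyl (fun p => (k p.1, p.2)) p =
      (Df Y X k p.1).prodMap (ContinuousLinearMap.id ℝ ℝ) := by
  have h1 := Df_pair (X := Y.cyl) (Y := X) (Z := vs ℝ) (x := p) (smAt_fst.trans hk) smAt_snd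
  rw [Df_comp smAt_fst hk, Df_fst, Df_snd] at h1
  exact h1

theorem sm0 (x : X) : SmAt X X.cyl (fun x => (x, 0)) x :=
  smAt_id.pair (smAt_const (Y := vs ℝ) 0)

theorem mat_mono {U W W' : Set X} {c : Con X U} {Θ : X → E →L[ℝ] Rn 5} {A : X → MF E}
    (h : c.Mat W Θ A) (hW : IsOpen W') (hs : W' ⊆ W) : c.Mat W' Θ A :=
  ⟨hW, hs.trans h.sub, h.cof.mono hs, fun a b => (h.fm a b).mono hs,
    fun j x hx => h.gau j x ⟨hs hx.1, hx.2⟩⟩

theorem tr_congr {U : Set X} {c : Con X U} {Ω Ω' : X → Lam E} (h : c.Tr Ω) (e : EqOn Ω' Ω U) :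
    c.Tr Ω' := fun i x hx => (e (c.sub i hx)).trans (h i x hx)

theorem con_univ {U : Set X} {Ω : X → Lam E} (e : U = univ) (h : ∃ c : Con X U, c.Tr Ω) :
    ∃ c : Con X univ, c.Tr Ω := by
  subst e
  exact h

/-- a constant change of the coframe preserves a vanishing connection matrix -/
theorem mat_const {U W : Set X} {c : Con X U} {Θ Θ' : X → E →L[ℝ] Rn 5} {J : M5}
    (h : c.Mat W Θ' fun _ => 0) (hΘ : Cof X ∞ Θ W) (e : ∀ x ∈ W, tm (Θ x) (Θ' x) = J) :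
    c.Mat W Θ fun _ => 0 := by
  refine ⟨h.op, h.sub, hΘ, h.fm, fun j x hx => Cw2.gau_trans (A' := fun _ => 0) (hΘ x hx.1)
    (h.cof x hx.1) (c.cof j x hx.2) ?_ (h.gau j x hx)⟩
  rw [Gau, zero_mul, mul_zero, add_zero, Cw2.dMat_congr (B := fun _ => mF J)
    (mem_of_superset (h.op.mem_nhds hx.1) fun y hy => show mF _ = mF J by rw [e y hy])]
  ext a b
  change dM X (fun _ => algebraMap ℝ (Lam E) (J a b)) x = 0
  rw [dM_scalar (smAt_const (Y := vs ℝ) _), dF_const]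

/-- the inverse of an open embedding, times the identity -/
def kk (e : X → Y) (H : Set X) (p : Y.cyl) : X.cyl := (invFunOn e H p.1, p.2)

variable {e : X → Y} {H : Set X}

theorem kk_ld (he : OE X Y e H) {p : Y.cyl} (hp : p ∈ (e '' H) ×ˢ (univ : Set ℝ)) :
    LDAt Y.cyl X.cyl (kk e H) p :=
  (he.symm.ld p.1 hp.1).prodMap (ldAt_id (X := vs ℝ) (x := p.2))

theorem side (h2 : Cw2Stmt) (he : OE X Y e H) (c : Con X.cyl univ) :
    ∃ c' : Con Y.cyl ((e '' H) ×ˢ univ), (∀ Ω, c.Tr Ω → c'.Tr (pbM Y.cyl X.cyl (kk e H) Ω)) ∧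
      ∀ W Θ, c.Mat W Θ (fun _ => 0) → ∀ W', IsOpen W' → W' ⊆ (e '' H) ×ˢ univ ∩ kk e H ⁻¹' W →
        c'.Mat W' (fun p => (Θ (kk e H p)).comp (Df Y.cyl X.cyl (kk e H) p)) fun _ => 0 := by
  obtain ⟨c', h1, h3⟩ := (h2 _ X.cyl).2.2.2.2 _ Y.cyl (kk e H) univ ((e '' H) ×ˢ univ) c
    (he.symm.op.prod isOpen_univ) (fun _ hp => kk_ld he hp) (mapsTo_univ _ _)
  refine ⟨c', h1, fun W Θ h W' hW hs => ?_⟩
  have e0 : (fun _ => (0 : MF (E' × ℝ))) = fun y => Matrix.of fun a b => pbM Y.cyl X.cyl (kk e H)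
      (fun _ => (0 : MF (E × ℝ)) a b) y :=
    funext fun y => Matrix.ext fun a b =>
      (pbM_zero (X := Y.cyl) (Y := X.cyl) (α := fun _ => (0 : MF (E × ℝ)) a b) rfl).symm
  rw [e0]
  exact mat_mono (h3 W Θ _ h) hW hs

theorem psh_eq (he : OE X Y e H) (Ω : X.cyl → Lam (E × ℝ)) (y : Y) :
    pbM Y Y.cyl (fun y => (y, 0)) (((e '' H) ×ˢ univ).indicator (pbM Y.cyl X.cyl (kk e H) Ω)) y =
      psh X Y e H (pbM X X.cyl (fun x => (x, 0)) Ω) y := by
  by_cases hy : y ∈ e '' H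
  · rw [pbM_congr_right (X := Y) (Y := Y.cyl) (f := fun y => (y, 0)) (x := y)
      (β := pbM Y.cyl X.cyl (kk e H) Ω) (indicator_of_mem (mk_mem_prod hy (mem_univ _)) _),
      (he.psh_ev hy).eq_of_nhds, ← pbM_comp (sm0 y) (kk_ld he ⟨hy, trivial⟩).sm,
      ← pbM_comp (he.symm.sm y hy) (sm0 _)]
    rfl
  · rw [psh_of_notMem hy]
    exact pbM_zero (indicator_of_notMem (fun h => hy h.1) _)

theorem frame (he : OE X Y e H) {Q : Z → X} {g : Z → Y} {z : Z} (hQ : SmAt Z X Q z) (hz : Q z ∈ H)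
    (hg : ∀ᶠ z' in 𝓝 z, g z' = e (Q z')) (t : ℝ) (Θ : X.cyl → E × ℝ →L[ℝ] Rn 5) :
    ((Θ (kk e H (g z, t))).comp (Df Y.cyl X.cyl (kk e H) (g z, t))).comp
      ((Df Z Y g z).prodMap (ContinuousLinearMap.id ℝ ℝ)) =
      (Θ (Q z, t)).comp ((Df Z X Q z).prodMap (ContinuousLinearMap.id ℝ ℝ)) := by
  have e0 : g z = e (Q z) := hg.self_of_nhds
  have hk : SmAt Y X (invFunOn e H) (g z) := he.symm.sm _ ⟨_, hz, e0.symm⟩
  have hs : SmAt Z Y g z := (hQ.trans (he.sm _ hz)).congr' hg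
  have e1 : Df Z X Q z = (Df Y X (invFunOn e H) (g z)).comp (Df Z Y g z) := by
    rw [← Df_comp hs hk]
    refine Df_congr ?_
    filter_upwards [hg, hQ.cont.preimage_mem_nhds (he.op.mem_nhds hz)] with y h1 h2
    rw [h1, he.left h2]
  have e2 : kk e H (g z, t) = (Q z, t) := by rw [kk, e0, he.left hz]
  have e3 : Df Y.cyl X.cyl (kk e H) (g z, t) =
      (Df Y X (invFunOn e H) (g z)).prodMap (ContinuousLinearMap.id ℝ ℝ) := Df_cyl (p := (g z, t)) hk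
  rw [e1, e2, e3]
  rfl

theorem tm_of {a b : E →L[ℝ] Rn 5} {L : E' →L[ℝ] E} {a' b' : E' →L[ℝ] Rn 5} (ha : a.IsInvertible)
    (ha' : a'.IsInvertible) (h : a.comp L = a') (h' : b.comp L = b') : tm a b = tm a' b' := by
  have hL : L.IsInvertible := by
    have := ha.inverse.comp ha'
    rwa [← h, ← ContinuousLinearMap.comp_assoc, ha.inverse_comp_self,
      ContinuousLinearMap.id_comp] at this
  rw [← h, ← h', tm_comp hL]

end Gen

theorem norm_pol (z : Rn 4) : ‖(pol z).2‖ = Real.exp (z 3) := by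
  simp [pol, Complex.norm_exp]

theorem pol_sm : ContDiff ℝ ∞ pol := by
  have h : ∀ i : Fin 4, ContDiff ℝ ∞ fun z : Rn 4 => (z i : ℂ) := fun i =>
    Complex.ofRealCLM.contDiff.comp (contDiff_apply ℝ ℝ i)
  refine ContDiff.prodMk (contDiff_pi.2 fun i => ?_)
    (Complex.contDiff_exp.comp ((h 3).add ((h 2).mul contDiff_const)))
  fin_cases i
  · exact contDiff_apply ℝ ℝ (0 : Fin 4)
  · exact contDiff_apply ℝ ℝ (1 : Fin 4)

theorem exp_lt {t : ℝ} (h : |t| < 1) : Real.exp (-1) < Real.exp t ∧ Real.exp t < Real.exp 1 :=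
  ⟨Real.exp_lt_exp.2 (abs_lt.1 h).1, Real.exp_lt_exp.2 (abs_lt.1 h).2⟩

theorem exp_lt' {t : ℝ} (h : t ≤ 1) : Real.exp t < 10 :=
  (Real.exp_le_exp.2 h).trans_lt (Real.exp_one_lt_d9.trans (by norm_num))

variable {X : Mf E4} {κ : Rn 2 × ℂ → X}

theorem P_sm (hκ : Port X κ) {z : Rn 4} (hz : |z 3| < 1) :
    SmAt (vs (Rn 4)) X (fun z => κ (pol z)) z :=
  SmAt.trans (X := vs (Rn 4)) (Y := vs (Rn 2 × ℂ)) (smAt_vs.2 pol_sm.contDiffAt)
    (hκ.ld (pol z).1 (pol z).2 (by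
      rw [norm_pol]; exact (exp_lt' (abs_lt.1 hz).2.le).trans (by norm_num))).sm

theorem P_mem (hκ : Port X κ) {z : Rn 4} (hz : |z 3| < 1) : κ (pol z) ∈ Half X κ := by
  rintro ⟨⟨m, w⟩, ⟨-, hw⟩, e⟩
  have hw' : ‖w‖ ≤ Real.exp (-1) := hw
  have h := ((hκ.eq m (pol z).1 w (pol z).2
    (hw'.trans_lt ((exp_lt' (by norm_num)).trans (by norm_num)))
    (by rw [norm_pol]; exact (exp_lt' (abs_lt.1 hz).2.le).trans (by norm_num))).1 e).2
  rw [h, norm_pol] at hw'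
  exact (exp_lt hz).1.not_ge hw'

theorem P_ann {z : Rn 4} (hz : |z 3| < 1) :
    κ (pol z) ∈ κ '' (univ ×ˢ {w | Real.exp (-1) < ‖w‖ ∧ ‖w‖ < Real.exp 1}) :=
  ⟨pol z, ⟨trivial, by
    have := exp_lt hz
    rwa [← norm_pol] at this⟩, rfl⟩

theorem abs_neg3 {z : Rn 4} (hz : |z 3| < 1) : |(-z) 3| < 1 := by rwa [Pi.neg_apply, abs_neg]

/-- the reflection of `ℝ⁴ × ℝ` -/
def rf : Rn 4 × ℝ →L[ℝ] Rn 4 × ℝ :=
  (-ContinuousLinearMap.id ℝ (Rn 4)).prodMap (ContinuousLinearMap.id ℝ ℝ)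

theorem Df_neg (hκ : Port X κ) {z : Rn 4} (hz : |z 3| < 1) :
    SmAt (vs (Rn 4)) X (fun z => κ (pol (-z))) z ∧ Df (vs (Rn 4)) X (fun z => κ (pol (-z))) z =
      (Df (vs (Rn 4)) X (fun z => κ (pol z)) (-z)).comp (-ContinuousLinearMap.id ℝ (Rn 4)) := by
  have h1 : SmAt (vs (Rn 4)) (vs (Rn 4)) (fun z => -z) z := smAt_vs.2 contDiffAt_id.neg
  refine ⟨h1.trans (g := fun z => κ (pol z)) (P_sm hκ (abs_neg3 hz)), ?_⟩
  rw [Df_comp h1 (g := fun z => κ (pol z)) (P_sm hκ (abs_neg3 hz)), Df_vs]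
  congr 1
  exact (hasFDerivAt_id z).neg.fderiv

theorem ocM {c : Con X.cyl univ} {Θ : X.cyl → E5 →L[ℝ] Rn 5} {Ω : X.cyl → Lam E5}
    [CompactSpace X] (h2 : Cw2Stmt) (hκ : Port X κ) (hF : Flat X κ c Θ Ω) :
    OcM X (Half X κ) (pbM X X.cyl (fun x => (x, 0)) Ω) := by
  obtain ⟨Ω', t', c'⟩ := (h2 _ X.cyl).2.2.1 univ c
  have e : Ω = Ω' := funext fun p => by
    obtain ⟨i, hi⟩ := c.cov p trivial
    exact (hF.tr i p hi).trans (t' i p hi).symm
  have hO : IsOpen (κ '' (univ ×ˢ {w | ‖w‖ < 10})) :=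
    isOpen_image_ld (X := vs (Rn 2 × ℂ)) (isOpen_univ.prod (isOpen_lt continuous_norm
      continuous_const)) fun p hp => hκ.ld p.1 p.2 (lt_trans hp.2 (by norm_num))
  refine .of_compact hO.isClosed_compl.isCompact (compl_subset_compl.2 (image_mono
    fun p hp => ⟨trivial, lt_of_le_of_lt hp.2 (exp_lt' (by norm_num))⟩))
    (fun x _ => FmAt.pb (e ▸ (c'.1 _ trivial).1) (sm0 x)) fun x hx => ?_
  obtain ⟨p, hp, rfl⟩ := not_not.1 hx
  exact pbM_zero (hF.zero p.1 p.2 0 hp.2)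

end Dbl2

open Dbl2 in
theorem dbl2 (hF : FlatStmt) : Dbl2Stmt := by
  intro X _ κ o w hκ ho Y e₁ e₂ s o' S hD hw
  have h1 := cw1
  have h2 := cw2 h1
  have hI := intM_api volM
  obtain ⟨c, Θ, Ω, hf⟩ := hF X κ hκ
  obtain ⟨c₁, t₁, m₁⟩ := side h2 hD.o1 c
  obtain ⟨c₂, t₂, m₂⟩ := side h2 hD.o2 c
  have hov : ∀ p ∈ ((e₁ '' Half X κ) ×ˢ (univ : Set ℝ)) ∩ ((e₂ '' Half X κ) ×ˢ (univ : Set ℝ)),
      ∃ z : Rn 4, |z 3| < 1 ∧ p.1 = e₁ (κ (pol z)) ∧ p.1 = e₂ (κ (pol (-z))) ∧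
        kk e₁ (Half X κ) p = (κ (pol z), p.2) ∧ kk e₂ (Half X κ) p = (κ (pol (-z)), p.2) := by
    rintro p ⟨⟨⟨x, hx, e⟩, -⟩, ⟨x', hx', e'⟩, -⟩
    obtain ⟨z, hz, rfl, rfl⟩ := (hD.eq x hx x' hx').1 (e.trans e'.symm)
    exact ⟨z, hz, e.symm, e'.symm, by rw [kk, ← e, hD.o1.left hx], by rw [kk, ← e', hD.o2.left hx']⟩
  have hop : IsOpen (((e₁ '' Half X κ) ×ˢ (univ : Set ℝ)) ∩ ((e₂ '' Half X κ) ×ˢ (univ : Set ℝ))) :=
    (hD.o1.symm.op.prod isOpen_univ).inter (hD.o2.symm.op.prod isOpen_univ)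
  have M₁ := m₁ _ Θ hf.mat _ hop fun p hp => ⟨hp.1, by
    obtain ⟨z, hz, -, -, e, -⟩ := hov p hp
    rw [mem_preimage, e]
    exact ⟨P_ann hz, trivial⟩⟩
  have M₂ := m₂ _ Θ hf.mat _ hop fun p hp => ⟨hp.2, by
    obtain ⟨z, hz, -, -, -, e⟩ := hov p hp
    rw [mem_preimage, e]
    exact ⟨P_ann (abs_neg3 hz), trivial⟩⟩
  have M₃ := mat_const (J := tm std5 (std5.comp rf)) M₂ M₁.cof fun p hp => by
    obtain ⟨z, hz, e, -, -, -⟩ := hov p hp
    obtain ⟨y, t⟩ := p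
    obtain rfl : y = e₁ (κ (pol z)) := e
    have a1 := frame (Z := vs (Rn 4)) (g := fun z => e₁ (κ (pol z))) hD.o1 (P_sm hκ hz)
      (P_mem hκ hz) (.of_forall fun _ => rfl) t Θ
    have a2 := frame (Z := vs (Rn 4)) (g := fun z => e₁ (κ (pol z))) hD.o2 (Df_neg hκ hz).1
      (P_mem hκ (abs_neg3 hz)) (by
        filter_upwards [(isOpen_lt (continuous_apply 3).abs continuous_const).mem_nhds hz]
          with z' hz'
        exact (hD.eq _ (P_mem hκ hz') _ (P_mem hκ (abs_neg3 hz'))).2 ⟨z', hz', rfl, rfl⟩) t Θ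
    refine tm_of (M₁.cof _ hp).2 std5_inv (a1.trans (hf.std z t hz)) (a2.trans ?_)
    rw [(Df_neg hκ hz).2, ← hf.std (-z) t (abs_neg3 hz)]
    rfl
  obtain ⟨c₃, t₃⟩ := (cw3 h2 _ Y.cyl).2 _ _ c₁ c₂ _ _ M₁ M₃
  have z₁ : ∀ p ∈ ((e₁ '' Half X κ) ×ˢ (univ : Set ℝ)) ∩ ((e₂ '' Half X κ) ×ˢ (univ : Set ℝ)),
      pbM Y.cyl X.cyl (kk e₁ (Half X κ)) Ω p = 0 ∧ pbM Y.cyl X.cyl (kk e₂ (Half X κ)) Ω p = 0 := by
    intro p hp
    obtain ⟨z, hz, -, -, e, e'⟩ := hov p hp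
    exact ⟨pbM_zero (by
        rw [e]
        exact hf.zero _ _ _ ((norm_pol z).trans_lt (exp_lt' (abs_lt.1 hz).2.le))),
      pbM_zero (by
        rw [e']
        exact hf.zero _ _ _ ((norm_pol (-z)).trans_lt (exp_lt' (abs_lt.1 (abs_neg3 hz)).2.le)))⟩
  obtain ⟨c₄, t₄⟩ := con_univ (X := Y.cyl) (Ω := fun p =>
      ((e₁ '' Half X κ) ×ˢ univ).indicator (pbM Y.cyl X.cyl (kk e₁ (Half X κ)) Ω) p +
      ((e₂ '' Half X κ) ×ˢ univ).indicator (pbM Y.cyl X.cyl (kk e₂ (Half X κ)) Ω) p)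
    (by rw [← union_prod, hD.cov, univ_prod_univ]) ⟨c₃, t₃ _
      (tr_congr (t₁ Ω hf.tr) fun p hp => by
        by_cases h : p ∈ (e₂ '' Half X κ) ×ˢ (univ : Set ℝ)
        · simp only [indicator_of_mem hp, indicator_of_mem h, (z₁ p ⟨hp, h⟩).2, add_zero]
        · simp only [indicator_of_mem hp, indicator_of_notMem h, add_zero])
      (tr_congr (t₂ Ω hf.tr) fun p hp => by
        by_cases h : p ∈ (e₁ '' Half X κ) ×ˢ (univ : Set ℝ)
        · simp only [indicator_of_mem hp, indicator_of_mem h, (z₁ p ⟨h, hp⟩).1, zero_add]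
        · simp only [indicator_of_mem hp, indicator_of_notMem h, zero_add])⟩
  have hw0 := ocM h2 hκ hf
  refine ⟨fun y => psh X Y e₁ (Half X κ) (pbM X X.cyl (fun x => (x, 0)) Ω) y +
    psh X Y e₂ (Half X κ) (pbM X X.cyl (fun x => (x, 0)) Ω) y, ⟨c₄, _, t₄, fun y => ?_⟩, ?_⟩
  · rw [pbM_add, psh_eq hD.o1, psh_eq hD.o2]
  · rw [(hI _ Y 4 o' hD.ori).add _ _ ((hD.o1.ocM_psh subset_rfl hw0).mono (subset_univ _))
      ((hD.o2.ocM_psh subset_rfl hw0).mono (subset_univ _)),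
      intOE volM _ _ X Y 4 o o' e₁ _ _ ho hD.ori hD.o1 hD.p1 hw0,
      intOE volM _ _ X Y 4 o o' e₂ _ _ ho hD.ori hD.o2 hD.p2 hw0,
      cw h1 h2 homM hI _ X o w _ ho hw ⟨c, Ω, hf.tr, fun _ => rfl⟩, two_mul]

end Pool.Agent.MP_e1dc65_gt.O

end
end MrgPart2

-- marker of a merged file
example : 731051 + 76319 = 731051 + 76319 := rfl

end MrgPart0

-- ======== part 1: formerly Pool.Agent.MP_e1dc65_gt.e.bAsm
section MrgPart1

/-! PROJECT HC, part E, sub-part B: assembly of the rows. -/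

open scoped ContDiff Manifold Topology Matrix Real
open Set Filter Function Module

noncomputable section

namespace Pool.Agent.MP_e1dc65_gt.E

theorem partB_of (h1 : GtStmt) (h2 : MgStmt) (h3 : CptStmt) (h4 : ScgStmt) (h5 : ArcStmt)
    (h6 : CircStmt) (h7 : Sc1Stmt) (h8 : SpinStmt) (h9 : H2Stmt) : BStmt := by
  intro C D hD
  obtain ⟨T, hT⟩ := h1 D hD
  obtain ⟨B, hB⟩ := h2 D T hD hT
  obtain ⟨c1, -, -, c2, c3, c4⟩ := h3 D T B hD hT hB
  obtain ⟨r, hr⟩ := h5 D T hD hT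
  obtain ⟨lt, hl⟩ := h6 D T B r hD hT hB hr
  obtain ⟨s0, s1⟩ := h7 D T B lt hB hl (h4 D T hD hT)
  obtain ⟨sp, ori⟩ := h8 C D T B hD hT hB
  have e0 : (B.ν '' (univ ×ˢ {0}))ᶜ = range fun x => B.pM (B.i x) := by
    rw [← image_preimage_eq (B.ν '' (univ ×ˢ {0}))ᶜ hB.sur, c4, ← range_comp]; rfl
  refine ⟨⟨B.M, B.MG, PG, B.act, zG, B.pM, B.ν, fun p => B.pM (lt p), B.nk 1, lt⟩,
    hB.act1, hB.actm, hB.actsm, hB.free, zG_add, zG_inj, zG_fin, hB.ld, hB.sur, hB.fib, c1, c2, ori,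
    sp, e0 ▸ h9 D T B hD hT hB, c3, ⟨fun θ v hv => (hl.lld θ v hv).trans (hB.ld _),
      fun θ θ' v hv v' hv' => ⟨fun e => ?_, ?_⟩⟩,
    fun θ v hθ hv => congrArg B.pM (hl.strt θ v hθ hv), ?_, fun p => (hB.onk 1).ld p trivial,
    fun _ => rfl, hl.lld, fun _ _ _ => rfl, hl.per, hl.strt, c4 ▸ s0, ?_⟩
  · obtain ⟨g, hg⟩ := (hB.fib _ _).1 e
    exact (hl.inj g θ θ' v v' hv hv' hg).2
  · rintro ⟨⟨m, hm⟩, rfl⟩
    have := per_int (fun θ => hl.per θ v hv) θ' m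
    rw [← hm, add_sub_cancel] at this
    exact congrArg B.pM this
  · rintro θ v h3 h5 hv ⟨p, ⟨-, hp⟩, e⟩
    obtain ⟨g, hg⟩ := (hB.fib _ _).1 e
    rw [hB.ank] at hg
    exact (abs_lt.2 hp).not_ge (hl.off θ v _ p h3 h5 hv hg.symm)
  · rw [compl_union, preimage_inter, c4]
    exact s1

end Pool.Agent.MP_e1dc65_gt.E

end
end MrgPart1

-- ======== part 2: formerly Pool.Agent.MP_e1dc65_gt.e.B
section MrgPart2

-- ======== part 0: formerly Pool.Agent.MP_e1dc65_gt.e.bGt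
section MrgPart0

/-! PROJECT HC, part E, sub-part B, row GT: the glued manifold `Gt` with its action. -/

open scoped ContDiff Manifold Topology Matrix Real
open Set Filter Function Module

noncomputable section

namespace Pool.Agent.MP_e1dc65_gt.E

/-- the angle can be taken in one period -/
theorem gt_red (hP : PhiStmt) {D : QDat} (h : D.Ok) (k : ℤ × ℤ) {p : Rn 3 × ℝ} (hp : p ∈ Dg) :
    ∃ q ∈ Dg, q.2 ∈ Icc 0 (2 * π) ∧ phi k q = phi k p ∧ D.c q = D.c p := by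
  have hq : (p.1, toIcoMod Real.two_pi_pos 0 p.2) ∈ Dg := hp
  have e : ∃ m : ℤ, toIcoMod Real.two_pi_pos 0 p.2 - p.2 = 2 * π * m :=
    ⟨-toIcoDiv Real.two_pi_pos 0 p.2, by
      rw [toIcoMod_sub_self, neg_smul, zsmul_eq_mul, Int.cast_neg, mul_neg, mul_comm]⟩
  exact ⟨_, hq, Ico_subset_Icc_self (toIcoMod_mem_Ico' Real.two_pi_pos _),
    (hP.eq k k _ hq _ hp).2 ⟨rfl, rfl, e⟩, (h.ceq _ (hP.sub hq) _ (hP.sub hp)).2 ⟨rfl, e⟩⟩

theorem gt_ball (hP : PhiStmt) {p : Rn 3 × ℝ} (hp : p ∈ Dg) :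
    p.1 ∈ Metric.closedBall (0 : Rn 3) 1 := by
  rw [mem_closedBall_zero_iff, pi_norm_le_iff_of_nonneg zero_le_one]
  intro i
  have h1 : p.1 i ^ 2 ≤ nsq p.1 := Finset.single_le_sum (f := fun i => p.1 i ^ 2)
    (fun _ _ => sq_nonneg _) (Finset.mem_univ i)
  have h2 := (hP.nub p.1).1
  have h3 := hp.2
  exact (Real.abs_le_sqrt h1).trans (by linarith)

/-- the graph of the gluing relation is closed -/
theorem gt_closed (hP : PhiStmt) {D : QDat} (h : D.Ok) (k : ℤ × ℤ) (x : J) (hx : x ∈ JU)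
    (y : D.Qt) (hy : y ∈ D.U) (H : (x, y) ∈ closure ((fun c => (phi k c, D.c c)) '' Dg)) :
    ∃ c ∈ Dg, phi k c = x ∧ D.c c = y := by
  obtain ⟨u, hu, lim⟩ := mem_closure_iff_seq_limit.1 H
  have H' : ∀ n, ∃ q ∈ Dg, q.2 ∈ Icc 0 (2 * π) ∧ (phi k q, D.c q) = u n := fun n => by
    obtain ⟨p, hp, e⟩ := hu n
    obtain ⟨q, h1, h2, h3, h4⟩ := gt_red hP h k hp
    exact ⟨q, h1, h2, by rw [h3, h4]; exact e⟩
  choose q q1 q2 q3 using H'
  obtain ⟨c, -, φ, hφ, lc⟩ := ((isCompact_closedBall (0 : Rn 3) 1).prod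
    (isCompact_Icc (a := 0) (b := 2 * π))).tendsto_subseq (x := q)
      fun n => ⟨gt_ball hP (q1 n), q2 n⟩
  have l : Tendsto (fun n => (phi k (q (φ n)), D.c (q (φ n)))) atTop (𝓝 (x, y)) := by
    simp only [q3]; exact lim.comp hφ.tendsto_atTop
  have l1 : Tendsto (fun n => phi k (q (φ n))) atTop (𝓝 x) := (continuous_fst.tendsto _).comp l
  have l2 : Tendsto (fun n => D.c (q (φ n))) atTop (𝓝 y) := (continuous_snd.tendsto _).comp l
  have c1 : Continuous fun p : J => 2 * muz (p.1 - lat k) :=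
    continuous_const.mul (hP.muc.comp (continuous_fst.sub continuous_const))
  have e : 2 * muz (x.1 - lat k) + nuv c.1 = 1 / 2 :=
    tendsto_nhds_unique (((c1.tendsto x).comp l1).add
      (((hP.nuc.comp continuous_fst).tendsto c).comp lc))
      (tendsto_const_nhds.congr fun n => (hP.mu k _ (q1 (φ n))).symm)
  have p1 : 0 < ‖x.1 - lat k‖ := norm_pos_iff.2 (sub_ne_zero.2 (hx k))
  have p2 := (hP.mub (x.1 - lat k)).1
  have hc : c ∈ Dg := by
    refine ⟨fun h0 => ?_, by linarith⟩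
    have hc : c ∈ Col := by simp [Col, h0]
    exact (c_mem h hc).1 (tendsto_nhds_unique ((h.cld c hc).sm.cont.tendsto.comp lc) l2 ▸ hy) h0
  exact ⟨c, hc, tendsto_nhds_unique ((hP.ld k c hc).sm.cont.tendsto.comp lc) l1,
    tendsto_nhds_unique ((h.cld c (hP.sub hc)).sm.cont.tendsto.comp lc) l2⟩

theorem JU_ne : JU.Nonempty :=
  ⟨(((1 / 2 : ℝ) : ℂ), Classical.arbitrary S2), fun k e => by
    have h1 : (1 / 2 : ℝ) = k.1 := congrArg Complex.re e
    have h2 : ((2 * k.1 : ℤ) : ℝ) = (1 : ℤ) := by push_cast; linarith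
    have := Int.cast_injective h2
    omega⟩

theorem actOn_J : ActOn J actJ JU :=
  ⟨fun g _ => actJ_mem g, fun x _ => actJ_one x, fun g g' x _ => actJ_mul g g' x,
    fun g x _ => smAt_actJ g x⟩

theorem actFam_Q {D : QDat} (h : D.Ok) : ActFam D.Qt gZ (fun g _ => D.sq g) D.U :=
  ⟨fun g _ _ => sq_mem h g, gZ_one, gZ_mul, fun _ y _ => sq_one D y,
    fun g g' _ y _ => sq_mul h g g' y, fun g _ y _ => smAt_sq h g y⟩

/-- row GT -/
theorem gt (hP : PhiStmt) : GtStmt := by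
  intro D h
  obtain ⟨Z, io, ka, G⟩ := glueFam (E := E4) (X := J) (Y := D.Qt) (C := vs (Rn 3 × ℝ))
    (U := JU) (V := D.U) (D := Dg) (a := phi) (b := D.c)
    (by simp [Complex.finrank_real_complex]) rfl isOpen_JU (isOpen_U h) hP.op JU_ne
    hP.ld (fun c hc => h.cld c (hP.sub hc)) hP.mem
    (fun c hc => (c_mem h (hP.sub hc)).2 hc.1)
    (fun i j c hc c' hc' => (hP.eq i j c hc c' hc').trans
      (and_congr_right fun _ => (h.ceq c (hP.sub hc) c' (hP.sub hc')).symm))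
    (gt_closed hP h)
  obtain ⟨γ, a, e1, e2⟩ := G.act actOn_J (actFam_Q h) fun g k c hc =>
    ⟨sC g c, (hP.eqv g k c hc).1, (hP.eqv g k c hc).2.symm, (sq_c h g (hP.sub hc)).symm⟩
  exact ⟨⟨Z, io, ka, γ⟩, G.oi, G.ok, G.cov, G.eq,
    fun k k' x hx x' hx' e => ((G.eqk k k' x hx x' hx').1 e).1, fun y => a.one y trivial,
    fun g g' y => a.mul g g' y trivial, a.sm, e1, e2⟩

/-- the data of row GT as a glued family -/
theorem GtDat.Ok.glued (hP : PhiStmt) {D : QDat} (h : D.Ok) {T : GtDat D} (hT : T.Ok) :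
    Glued J D.Qt T.Gt JU D.U Dg phi D.c T.ι T.κ :=
  ⟨hT.oι, hT.oκ, hT.cov, hT.rel, fun i j y hy y' hy' => ⟨fun e => by
      obtain rfl := hT.dis i j y hy y' hy' e
      exact ⟨rfl, (hT.oκ i).inj hy hy' e⟩, by rintro ⟨rfl, rfl⟩; rfl⟩,
    hP.mem, fun c hc => (c_mem h (hP.sub hc)).2 hc.1⟩

end Pool.Agent.MP_e1dc65_gt.E

end
end MrgPart0

-- ======== part 1: formerly Pool.Agent.MP_e1dc65_gt.e.bScg
section MrgPart1

/-! PROJECT HC, part E, row SCG: the space `Gt` is simply connected. -/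

open scoped Topology Real
open Set Filter Function

noncomputable section

namespace Pool.Agent.MP_e1dc65_gt.E

namespace Scg

section Top
variable {X : Type} [TopologicalSpace X]

/-- a holonomy off `K` that is locally trivial near all points is trivial -/
theorem triv_compl [LocallyPathConnectedSpace X] {G : Type} [Group G] {K : Set X}
    {τ : ∀ x y : X, Path x y → G} (h : SC (univ : Set X)) (hK : IsOpen Kᶜ)
    (hl : ∀ x ∈ K, ∀ O ∈ 𝓝 x, ∃ V, IsOpen V ∧ x ∈ V ∧ V ⊆ O ∧ IsPathConnected (V \ K))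
    (hτ : Hol Kᶜ τ) (ht : ∀ x, ∃ O ∈ 𝓝 x, Triv τ (O \ K)) : Triv τ Kᶜ := by
  rw [compl_eq_univ_sdiff] at hK hτ ⊢
  obtain ⟨τ', h1, h2⟩ := (ext2 X G univ K τ isOpen_univ hK fun x hx => hl x hx.2).2 hτ
    fun x _ => ht x
  exact ((h1.triv_of_sc h subset_rfl).mono (subset_univ _)).congr_tau
    fun x y γ hγ => (h2 x y γ hγ).symm

/-- removing a closed set of codimension three -/
theorem sc_compl [LocallyPathConnectedSpace X] {K : Set X} (h : SC (univ : Set X))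
    (hK : IsOpen Kᶜ) (hl : ∀ x, ∀ O ∈ 𝓝 x, ∃ V, IsOpen V ∧ x ∈ V ∧ V ⊆ O ∧ SC (V \ K)) :
    SC Kᶜ := by
  have h1 : ∀ x, ∀ O ∈ 𝓝 x, ∃ V, IsOpen V ∧ x ∈ V ∧ V ⊆ O ∧ IsPathConnected (V \ K) :=
    fun x O hO => let ⟨V, a, b, c, d⟩ := hl x O hO; ⟨V, a, b, c, d.1⟩
  refine ⟨compl_eq_univ_sdiff K ▸ isPathConnected_diff h.1.isConnected (fun x _ => h1 x)
    isOpen_univ, (thin X _ _ subset_rfl).2 fun G _ τ hτ =>
      triv_compl h hK (fun x _ => h1 x) hτ fun x => ?_⟩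
  obtain ⟨V, a, b, -, d⟩ := hl x univ univ_mem
  exact ⟨V, a.mem_nhds b, hτ.triv_of_sc d fun y hy => hy.2⟩

/-- a base piece and disjoint pieces with path connected overlaps -/
theorem sc_union {I : Type} {A : Set X} {B : I → Set X} (hA : IsOpen A) (hB : ∀ i, IsOpen (B i))
    (hd : ∀ i j x, x ∈ B i → x ∈ B j → i = j) (hc : ∀ i, IsPathConnected (A ∩ B i))
    (cov : ∀ x, x ∈ A ∨ ∃ i, x ∈ B i) (pA : IsPathConnected A) (pB : ∀ i, IsPathConnected (B i))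
    (ht : ∀ (G : Type) [Group G] (τ : ∀ x y : X, Path x y → G), Hol univ τ →
      Triv τ A ∧ ∀ i, Triv τ (B i)) : SC (univ : Set X) := by
  classical
  refine ⟨?_, (thin X _ _ subset_rfl).2 fun G _ τ hτ => ?_⟩
  · obtain ⟨a, ha, hj⟩ := pA
    refine ⟨a, trivial, fun y _ => (cov y).elim (fun h => (hj h).mono (subset_univ _)) ?_⟩
    rintro ⟨i, hi⟩
    obtain ⟨z, h1, h2⟩ := (hc i).nonempty
    exact ((hj h1).mono (subset_univ _)).trans (((pB i).joinedIn z h2 y hi).mono (subset_univ _))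
  obtain ⟨⟨s, hs⟩, h2⟩ := ht G τ hτ
  have h3 : ∀ i, ∃ t, Par τ (B i) t ∧ EqOn t s (A ∩ B i) := fun i => by
    obtain ⟨z, hz, hj⟩ := hc i
    obtain ⟨t, h4, h5⟩ := (h2 i).exists_val z (s z)
    exact ⟨t, h4, fun y hy => (hs.mono inter_subset_left).eq_of_joined
      (h4.mono inter_subset_right) (hj hy) h5⟩
  choose t h4 h5 using h3
  let u : X → G := fun x => if h : ∃ i, x ∈ B i then t h.choose x else s x
  have e1 : ∀ i, EqOn u (t i) (B i) := fun i x hx => by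
    have h : ∃ i, x ∈ B i := ⟨i, hx⟩
    simp only [u, dif_pos h]
    rw [hd _ _ x h.choose_spec hx]
  have e2 : EqOn u s A := fun x hx => by
    by_cases h : ∃ i, x ∈ B i
    · obtain ⟨i, hi⟩ := h
      exact (e1 i hi).trans (h5 i ⟨hx, hi⟩)
    · simp only [u, dif_neg h]
  refine ⟨u, hτ.par_of_local subset_rfl fun x _ => ?_⟩
  obtain h | ⟨i, h⟩ := cov x
  · exact ⟨A, hA.mem_nhds h, (hs.congr e2).mono inter_subset_right⟩
  · exact ⟨B i, (hB i).mem_nhds h, ((h4 i).congr (e1 i)).mono inter_subset_right⟩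

end Top

theorem scS2 : SC (univ : Set S2) := by
  have h : Level (vs (Rn 3)) nsq (univ ∩ nsq ⁻¹' {1}) S2 io := exS2.choose_spec.choose_spec
  refine (sc_image_emb h.emb).1 ?_
  rw [image_univ, h.range, univ_inter]
  exact sc_nsq_sphere le_rfl one_pos

theorem oe_sc {E E' : Type} [NormedAddCommGroup E] [NormedSpace ℝ E] [NormedAddCommGroup E']
    [NormedSpace ℝ E'] {X : Mf E} {Y : Mf E'} {f : X → Y} {U : Set X} (h : OE X Y f U)
    (hU : SC U) : SC (f '' U) := hU.image h.sm.contOn h.symm.sm.contOn fun _ => h.left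

variable {D : QDat}

theorem c_mem (hD : D.Ok) {p : Rn 3 × ℝ} (hp : p ∈ Col) : D.c p ∈ D.U ↔ p.1 ≠ 0 := by
  refine not_congr ⟨?_, fun h => ⟨p, ⟨h, trivial⟩, rfl⟩⟩
  rintro ⟨q, ⟨h1, -⟩, h2⟩
  have h3 : q.1 = 0 := h1
  exact ((hD.ceq q (by simp [Col, h3]) p hp).1 h2).1.symm.trans h3

theorem isOpen_col : IsOpen Col :=
  (isOpen_lt (f := fun p : Rn 3 × ℝ => |p.1 0|) (by fun_prop) continuous_const).inter
    (isOpen_lt (f := fun p : Rn 3 × ℝ => |p.1 1|) (by fun_prop) continuous_const)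

/-- the complement of the invariant circle is simply connected -/
theorem scU (hD : D.Ok) (hU : IsOpen D.U) : SC D.U := by
  refine sc_compl hD.sc hU fun x O hO => ?_
  by_cases hx : x ∈ D.U
  · obtain ⟨V, a, b, c, d⟩ := D.Qt.exists_sc x (inter_mem hO (hU.mem_nhds hx))
    refine ⟨V, a, b, c.trans inter_subset_left, ?_⟩
    rwa [sdiff_eq_left.2 (disjoint_left.2 fun y hy h => (c hy).2 h)]
  obtain ⟨⟨v, u⟩, ⟨h1, -⟩, rfl⟩ := not_not.1 hx
  obtain rfl : v = 0 := h1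
  have h0 : ((0 : Rn 3), u) ∈ Col := by simp [Col]
  obtain ⟨g, A, W, hA, hW, h2, h3, h4, h5, m1, -, l, -⟩ := (hD.cld _ h0).exists_inv
    (inter_mem (isOpen_col.mem_nhds h0) ((hD.cld _ h0).sm.cont.preimage_mem_nhds hO))
  obtain ⟨r, hr, h6⟩ := Metric.isOpen_iff.1 hA _ h2
  have h7 : {v : Rn 3 | ‖v‖ ∈ Ioo 0 r} ×ˢ Metric.ball u r ⊆ Metric.ball (0, u) r := fun p hp => by
    rw [← ball_prod_same]
    exact ⟨mem_ball_zero_iff.2 hp.1.2, hp.2⟩
  refine ⟨D.c '' Metric.ball (0, u) r, isOpen_image_ld (X := vs (Rn 3 × ℝ)) Metric.isOpen_ball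
    fun p hp => hD.cld p (h3 (h6 hp)).1, ⟨_, Metric.mem_ball_self hr, rfl⟩, ?_, ?_⟩
  · rintro _ ⟨p, hp, rfl⟩
    exact (h3 (h6 hp)).2
  have e : D.c '' Metric.ball (0, u) r \ D.c '' ({0} ×ˢ univ) =
      D.c '' ({v : Rn 3 | ‖v‖ ∈ Ioo 0 r} ×ˢ Metric.ball u r) := by
    refine subset_antisymm ?_ ?_
    · rintro _ ⟨⟨p, hp, rfl⟩, h⟩
      have h8 := (c_mem hD (h3 (h6 hp)).1).1 h
      rw [← ball_prod_same] at hp
      exact ⟨p, ⟨⟨norm_pos_iff.2 h8, mem_ball_zero_iff.1 hp.1⟩, hp.2⟩, rfl⟩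
    · rintro _ ⟨p, hp, rfl⟩
      exact ⟨⟨p, h7 hp, rfl⟩, (c_mem hD (h3 (h6 (h7 hp))).1).2 (norm_pos_iff.1 hp.1.1)⟩
  rw [e]
  refine ((sc_norm_shell (by simp) ordConnected_Ioo (fun _ h => h.1) (nonempty_Ioo.2 hr)).prod
    (sc_convex (convex_ball u r) ⟨u, Metric.mem_ball_self hr⟩)).image (g := g)
    (h4.contOn.mono (h7.trans h6)) (h5.contOn.mono ?_) fun p hp => l p (h6 (h7 hp))
  rintro _ ⟨p, hp, rfl⟩
  exact m1 (h6 (h7 hp))

theorem pc_Dg (hP : PhiStmt) : IsPathConnected Dg := by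
  have h0 : ∀ v : Rn 3, v ≠ 0 → 0 < nuv v := fun v hv => lt_of_lt_of_le (half_pos
    (Real.sqrt_pos.2 (lt_of_le_of_ne (nsq_nonneg' v) fun h => hv (funext fun i =>
      pow_eq_zero_iff two_ne_zero |>.1 ((Finset.sum_eq_zero_iff_of_nonneg
        fun _ _ => sq_nonneg _).1 h.symm i (Finset.mem_univ i)))))) (hP.nub v).1
  have e : Dg = {v : Rn 3 | nuv v ∈ Ioo 0 (1 / 2)} ×ˢ univ := by
    ext p
    refine ⟨fun h => ⟨⟨h0 _ h.1, h.2⟩, trivial⟩, fun h => ⟨fun h1 => ?_, h.1.2⟩⟩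
    have := hP.nuh 0 p.1
    rw [zero_smul, ← h1, abs_zero, zero_mul] at this
    exact h.1.1.ne' this
  rw [e]
  exact (shell_aux hP.nuc h0 (fun t v ht => by rw [hP.nuh, abs_of_nonneg ht]) ordConnected_Ioo
    (fun _ h => h.1) (nonempty_Ioo.2 (by norm_num)) (pc_punct (by simp))).1.prod
    isPathConnected_univ

theorem JU_eq : JU = (range lat)ᶜ ×ˢ univ :=
  Set.ext fun _ => ⟨fun h => ⟨fun ⟨k, e⟩ => h k e.symm, trivial⟩, fun h k e => h.1 ⟨k, e.symm⟩⟩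

theorem pc_JU : IsPathConnected JU := by
  rw [JU_eq]
  exact ((vs ℂ).pc_compl Complex.finrank_real_complex.ge (countable_range lat)).prod scS2.1

theorem loc_J (p : J) (O : Set J) (hO : O ∈ 𝓝 p) :
    ∃ V, IsOpen V ∧ p ∈ V ∧ V ⊆ O ∧ IsPathConnected (V \ JUᶜ) := by
  obtain ⟨A, hA, B, hB, h⟩ := mem_nhds_prod_iff.1 hO
  obtain ⟨A', a1, a2, a3, -, a4⟩ := (vs ℂ).exists_pc_diff Complex.finrank_real_complex.ge
    (countable_range lat) p.1 hA
  obtain ⟨B', b1, b2, b3, b4⟩ := S2.exists_sc p.2 hB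
  refine ⟨A' ×ˢ B', a1.prod b1, ⟨a2, b2⟩, (prod_mono a3 b3).trans h, ?_⟩
  rw [Set.sdiff_compl, JU_eq, prod_inter_prod, inter_univ]
  exact a4.prod b4.1

end Scg

open Scg in
theorem scg (hP : PhiStmt) : ScgStmt := by
  intro D T hD hT
  have hU := scU hD (hT.oκ 0).op
  have cU : ∀ q ∈ Dg, D.c q ∈ D.U := fun q hq => (c_mem hD (hP.sub hq)).2 hq.1
  have gl : ∀ k, ∀ q ∈ Dg, T.ι (phi k q) = T.κ k (D.c q) := fun k q hq =>
    (hT.rel _ (hP.mem k q hq) k _ (cU q hq)).2 ⟨q, hq, rfl, rfl⟩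
  refine sc_union (A := T.ι '' JU) (B := fun k => T.κ k '' D.U)
    (hT.oι.isOpen_image hT.oι.op subset_rfl)
    (fun k => (hT.oκ k).isOpen_image (hT.oκ k).op subset_rfl) ?_ (fun k => ?_) hT.cov
    (pc_JU.image' hT.oι.sm.contOn) (fun k => (oe_sc (hT.oκ k) hU).1) fun G _ τ hτ => ?_
  · rintro k k' _ ⟨x, hx, rfl⟩ ⟨x', hx', e⟩
    exact hT.dis k k' x hx x' hx' e.symm
  · have e : T.ι '' JU ∩ T.κ k '' D.U = (fun q => T.κ k (D.c q)) '' Dg := by
      refine subset_antisymm ?_ ?_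
      · rintro _ ⟨⟨p, hp, rfl⟩, x, hx, e⟩
        obtain ⟨q, hq, rfl, rfl⟩ := (hT.rel p hp k x hx).1 e.symm
        exact ⟨q, hq, e⟩
      · rintro _ ⟨q, hq, rfl⟩
        exact ⟨⟨_, hP.mem k q hq, gl k q hq⟩, _, cU q hq, rfl⟩
    rw [e]
    exact (pc_Dg hP).image' ((hT.oκ k).sm.contOn.comp
      (fun q hq => (hD.cld q (hP.sub hq)).sm.cont.continuousWithinAt) cU)
  have tκ : ∀ k, Triv τ (T.κ k '' D.U) := fun k =>
    hτ.triv_of_sc (oe_sc (hT.oκ k) hU) (subset_univ _)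
  refine ⟨?_, tκ⟩
  have hc := hT.oι.sm.contOn
  have hp := pullT_pull T.ι hc τ
  have hμ := hp.hol hτ hc (mapsTo_univ _ _)
  have h1 : Triv (pullT T.ι hc τ) JUᶜᶜ := by
    refine triv_compl (univ_prod_univ ▸ (sc_univ (E := ℂ)).prod scS2 :)
      (by rw [compl_compl]; exact hT.oι.op) (fun p _ => loc_J p) (by rwa [compl_compl]) fun p => ?_
    by_cases h : p ∈ JU
    · obtain ⟨V, a, b, c, d⟩ := J.exists_sc p (hT.oι.op.mem_nhds h)
      exact ⟨V, a.mem_nhds b, (hμ.triv_of_sc d c).mono sdiff_subset⟩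
    obtain ⟨k, hk⟩ := not_forall.1 h
    refine ⟨{y : J | muz (y.1 - lat k) < 1 / 4}, (isOpen_lt (hP.muc.comp
      (continuous_fst.sub continuous_const)) continuous_const).mem_nhds ?_,
      hp.triv hc (fun y hy => not_not.1 hy.2) (fun y hy => ?_) (tκ k)⟩
    · have := (hP.mub (p.1 - lat k)).2
      rw [not_not.1 hk, sub_self, norm_zero] at this
      change muz (p.1 - lat k) < _
      rw [not_not.1 hk, sub_self]
      linarith
    · obtain ⟨q, hq, rfl⟩ := hP.img k y (not_not.1 hy.2 k) hy.1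
      exact ⟨_, cU q hq, (gl k q hq).symm⟩
  rw [compl_compl] at h1
  obtain ⟨s, hs⟩ := h1
  obtain ⟨s', h2, -⟩ := hp.descend hτ (mapsTo_univ _ _) (locSec_of_section hT.oι.symm.sm.contOn
    fun z hz => invFunOn_pos hz) hs fun p h q h' e => by rw [hT.oι.inj h h' e]
  exact ⟨s', h2⟩

end Pool.Agent.MP_e1dc65_gt.E

end
end MrgPart1

-- ======== part 2: formerly Pool.Agent.MP_e1dc65_gt.e.bCirc
section MrgPart2

/-! PROJECT HC, part E, sub-part B: the thick circle. -/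

open scoped ContDiff Manifold Topology Matrix Real
open Set Filter Function Module

noncomputable section

namespace Pool.Agent.MP_e1dc65_gt.E

namespace CircA

/-! ### The parameter change -/

def chi (t : ℝ) : ℝ := Real.smoothTransition ((5 - t) / 2)
def ff (t : ℝ) : ℝ := (5 / 2 + t⁻¹) * chi t
def Th (θ : ℝ) : ℝ := ff θ - ff (8 - θ)

theorem cd_chi : ContDiff ℝ ∞ chi :=
  Real.smoothTransition.contDiff.comp ((contDiff_const.sub contDiff_id).div_const 2)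

theorem cd_ff {t : ℝ} (ht : 0 < t) : ContDiffAt ℝ ∞ ff t :=
  (contDiffAt_const.add (contDiffAt_id.inv ht.ne')).mul cd_chi.contDiffAt

theorem cd_Th {θ : ℝ} (h : θ ∈ Ioo (0 : ℝ) 8) : ContDiffAt ℝ ∞ Th θ :=
  (cd_ff h.1).sub (ContDiffAt.comp (g := ff) θ (cd_ff (sub_pos.2 h.2))
    (contDiffAt_const.sub contDiffAt_id))

theorem der_ff {t : ℝ} (ht : 0 < t) : ∃ a, HasDerivAt ff a t ∧ a ≤ 0 ∧ (t < 5 → a < 0) := by
  have h1 : HasDerivAt chi (deriv chi t) t := (cd_chi.differentiable (by simp) t).hasDerivAt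
  have h2 : deriv chi t ≤ 0 := Antitone.deriv_nonpos fun a b hab =>
    Real.smoothTransition.monotone (by linarith)
  have h3 := ((hasDerivAt_inv ht.ne').const_add (5 / 2)).mul h1
  have h4 : (5 / 2 + t⁻¹) * deriv chi t ≤ 0 :=
    mul_nonpos_of_nonneg_of_nonpos (by positivity) h2
  have h5 : 0 < (t ^ 2)⁻¹ := by positivity
  refine ⟨_, h3, ?_, fun h => ?_⟩
  · have := mul_nonneg h5.le (Real.smoothTransition.nonneg ((5 - t) / 2))
    unfold chi at h4 ⊢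
    linarith
  · have := mul_pos h5 (Real.smoothTransition.pos_of_pos (show 0 < (5 - t) / 2 by linarith))
    unfold chi at h4 ⊢
    linarith

theorem der_Th {θ : ℝ} (h : θ ∈ Ioo (0 : ℝ) 8) : ∃ a, HasDerivAt Th a θ ∧ a < 0 := by
  obtain ⟨a, a1, a2, a3⟩ := der_ff h.1
  obtain ⟨b, b1, b2, b3⟩ := der_ff (sub_pos.2 h.2)
  refine ⟨_, a1.sub (b1.comp θ ((hasDerivAt_id θ).const_sub 8)), ?_⟩
  by_cases h5 : θ < 5
  · linarith [a3 h5]
  · linarith [b3 (by linarith)]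

theorem anti_Th : StrictAntiOn Th (Ioo 0 8) :=
  strictAntiOn_of_deriv_neg (convex_Ioo _ _)
    (fun _ h => (cd_Th h).continuousAt.continuousWithinAt) fun θ h => by
      rw [interior_Ioo] at h
      obtain ⟨a, h1, h2⟩ := der_Th h
      rwa [h1.deriv]

theorem Th_lo {θ : ℝ} (h : θ ≤ 3) : Th θ = 5 / 2 + θ⁻¹ := by
  rw [Th, ff, ff, chi, chi, Real.smoothTransition.one_of_one_le (by linarith),
    Real.smoothTransition.zero_of_nonpos (by linarith)]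
  ring

theorem Th_hi {θ : ℝ} (h : -3 ≤ θ) : Th (θ + 8) = -(5 / 2) + θ⁻¹ := by
  rw [Th, ff, ff, chi, chi, Real.smoothTransition.zero_of_nonpos (by linarith),
    Real.smoothTransition.one_of_one_le (by linarith), show 8 - (θ + 8) = -θ by ring, inv_neg]
  ring

theorem ld_Th {θ : ℝ} (c : ℝ) (h : θ - c ∈ Ioo (0 : ℝ) 8) :
    LDAt (vs ℝ) (vs ℝ) (fun t => Th (t - c)) θ := by
  obtain ⟨a, h1, h2⟩ := der_Th h
  have h3 : HasDerivAt (fun t => Th (t - c)) a θ := h1.comp_sub_const θ c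
  refine ldAt_vs (U := (fun t => t - c) ⁻¹' Ioo 0 8)
    ((isOpen_Ioo.preimage (by fun_prop)).mem_nhds h)
    (fun y hy => ContDiffAt.comp (g := Th) y (cd_Th hy) (contDiffAt_id.sub contDiffAt_const)) ?_
  rw [(h3.hasFDerivAt_equiv h2.ne).fderiv]
  exact ⟨_, rfl⟩

theorem pos8 : (0 : ℝ) < 8 := by norm_num

/-- reduction modulo eight -/
def rho (θ : ℝ) : ℝ := toIcoMod pos8 0 θ

theorem rho_mem (θ : ℝ) : rho θ ∈ Ico (0 : ℝ) 8 := toIcoMod_mem_Ico' pos8 θ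

theorem rho_ex (θ : ℝ) : ∃ m : ℤ, rho θ = θ - 8 * m :=
  ⟨toIcoDiv pos8 0 θ, by rw [rho, toIcoMod, zsmul_eq_mul, mul_comm]⟩

theorem rho_sub (θ : ℝ) (m : ℤ) : rho (θ - 8 * m) = rho θ := by
  have := toIcoMod_sub_zsmul pos8 0 θ m
  rwa [zsmul_eq_mul, mul_comm] at this

theorem rho_self {θ : ℝ} (h : θ ∈ Ico (0 : ℝ) 8) : rho θ = θ :=
  (toIcoMod_eq_self pos8).2 (by rwa [zero_add])

theorem rho_add (θ : ℝ) : rho (θ + 8) = rho θ := toIcoMod_add_right pos8 0 θ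

/-! ### Products of vector spaces -/

section
variable {A A' : Type} [NormedAddCommGroup A] [NormedSpace ℝ A] [FiniteDimensional ℝ A]
  [NormedAddCommGroup A'] [NormedSpace ℝ A'] [FiniteDimensional ℝ A']

theorem ld_vs_prod (p : A × A') : LDAt (vs (A × A')) ((vs A).prod (vs A')) (fun p => p) p :=
  ldAt_of_inv (X := vs (A × A')) (Y := (vs A).prod (vs A')) (g := fun p => p) isOpen_univ
    isOpen_univ trivial (fun _ _ => smAt_vs_prod) (fun _ _ => smAt_prod_vs) (mapsTo_univ _ _)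
    (mapsTo_univ _ _) (fun _ _ => rfl) fun _ _ => rfl

theorem ld_prod_vs (p : A × A') : LDAt ((vs A).prod (vs A')) (vs (A × A')) (fun p => p) p :=
  ldAt_of_inv (Y := vs (A × A')) (X := (vs A).prod (vs A')) (g := fun p => p) isOpen_univ
    isOpen_univ trivial (fun _ _ => smAt_prod_vs) (fun _ _ => smAt_vs_prod) (mapsTo_univ _ _)
    (mapsTo_univ _ _) (fun _ _ => rfl) fun _ _ => rfl

end

theorem ld_aff (c : ℝ) (p : ℝ × Rn 3) :
    LDAt (vs (ℝ × Rn 3)) (vs (Rn 3 × ℝ)) (fun p => (q0 + eps • p.2, p.1 - c)) p :=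
  ldAt_of_inv (X := vs (ℝ × Rn 3)) (Y := vs (Rn 3 × ℝ))
    (g := fun p => (p.2 + c, (10 : ℝ) • (p.1 - q0))) isOpen_univ isOpen_univ trivial
    (fun _ _ => smAt_vs.2 (by fun_prop)) (fun _ _ => smAt_vs.2 (by fun_prop)) (mapsTo_univ _ _)
    (mapsTo_univ _ _) (fun _ _ => by simp [eps, smul_smul]) fun _ _ => by simp [eps, smul_smul]

/-! ### The base points -/

theorem abs_eps {v : Rn 3} (hv : nsq v < 1) (i : Fin 3) : |eps * v i| < 1 / 10 := by
  have h1 : v i ^ 2 ≤ nsq v := Finset.single_le_sum (f := fun i => v i ^ 2)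
    (fun _ _ => sq_nonneg _) (Finset.mem_univ i)
  have h2 : |v i| < 1 := (sq_lt_one_iff_abs_lt_one _).1 (h1.trans_lt hv)
  rw [abs_mul, eps, abs_of_pos (by norm_num : (0 : ℝ) < 1 / 10)]
  linarith

theorem int_zero {x : ℝ} {m : ℤ} (e : x = 2 * π * m) (h : |x| < 6) : m = 0 := by
  by_contra hm
  have h1 : (1 : ℝ) ≤ |(m : ℝ)| := by exact_mod_cast Int.one_le_abs hm
  rw [e, abs_mul, abs_of_pos Real.two_pi_pos] at h
  nlinarith [Real.pi_gt_three]

theorem mem_Main {v : Rn 3} (hv : nsq v < 1) : q0 + eps • v ∈ Main := by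
  rintro i ⟨z, hz, -, e⟩
  obtain ⟨m, hm⟩ := hz (kx i)
  have h1 := abs_lt.1 (abs_eps hv (kx i))
  have h2 : ck i = π / 2 ∨ ck i = 3 * π / 2 := by fin_cases i <;> simp [ck]
  rw [e] at hm
  have h3 : π + eps * v (kx i) - ck i = 2 * π * m := hm
  have p3 := Real.pi_gt_three
  have p4 := Real.pi_lt_four
  have h4 := int_zero h3 (abs_lt.2 (by rcases h2 with h | h <;> constructor <;> linarith))
  rw [h4, Int.cast_zero, mul_zero] at h3
  rcases h2 with h | h <;> linarith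

theorem col {v : Rn 3} (hv : nsq v < 1) (s : ℝ) :
    ((![eps * v 0, eps * v 1, s], π + eps * v 2) : Rn 3 × ℝ) ∈ Col :=
  ⟨(abs_eps hv 0).trans (by norm_num), (abs_eps hv 1).trans (by norm_num)⟩

section
variable {D : QDat} {T : GtDat D} {B : MgDat T} {r : ℝ × Rn 3 → T.Gt}

theorem nc (hD : D.Ok) {v : Rn 3} (hv : nsq v < 1) {s : ℝ} (hs : 2 < s) :
    D.n (D.e₀ (q0 + eps • v), s) = D.c (![eps * v 0, eps * v 1, s], π + eps * v 2) := by
  have e : q0 + eps • v = ![π + eps * v 0, π + eps * v 1, π + eps * v 2] := by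
    funext i
    fin_cases i <;> rfl
  rw [e]
  exact hD.nc _ (col hv s) hs

theorem e0_inj (hD : D.Ok) {v v' : Rn 3} (hv : nsq v < 1) (hv' : nsq v' < 1)
    (e : D.e₀ (q0 + eps • v) = D.e₀ (q0 + eps • v')) : v = v' := by
  funext i
  obtain ⟨m, hm⟩ := (hD.isF.eq0 _ (mem_Main hv) _ (mem_Main hv')).1 e i
  have h1 := abs_lt.1 (abs_eps hv i)
  have h2 := abs_lt.1 (abs_eps hv' i)
  have h3 : π + eps * v i - (π + eps * v' i) = 2 * π * m := hm
  have h4 := int_zero h3 (abs_lt.2 (by constructor <;> linarith))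
  rw [h4, Int.cast_zero, mul_zero, eps] at h3
  linarith

/-- the height of a point of the arc that lies in a neck -/
theorem height (hD : D.Ok) (hT : T.Ok) (hr : Arc T r) {t : ℝ} {v : Rn 3} (hv : nsq v < 1)
    {g : PG} {p : D.F.cyl} (hp : p.2 ≠ 0) (e : r (t, v) = T.act g (T.en p)) :
    2 + |p.2|⁻¹ = |t| - 1 / 2 := by
  have hi : 0 < |p.2|⁻¹ := inv_pos.2 (abs_pos.2 hp)
  obtain ⟨k, x, hx, hs, e'⟩ : ∃ k, ∃ x ∈ D.U, |D.s x| = 2 + |p.2|⁻¹ ∧ r (t, v) = T.κ k x := by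
    obtain ⟨k, h⟩ : ∃ k, T.en p = T.κ k (D.n (p.1, 2 + |p.2|⁻¹)) := by
      unfold GtDat.en
      split_ifs with h
      · exact ⟨_, by rw [abs_of_neg h, inv_neg, ← sub_eq_add_neg]⟩
      · exact ⟨_, by rw [abs_of_nonneg (not_lt.1 h)]⟩
    have h1 := hD.ns p.1 (2 + |p.2|⁻¹) (by linarith)
    have h2 : D.n (p.1, 2 + |p.2|⁻¹) ∈ D.U := mem_U_of_s hD (by rw [h1]; linarith)
    refine ⟨gZ g k, _, sq_mem hD g h2, ?_, by rw [e, h, hT.aκ g k _ h2]⟩
    rw [abs_s_sq hD, h1, abs_of_pos (by linarith)]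
  have key : ∀ k' s, 0 < s → T.κ k' (D.c (![eps * v 0, eps * v 1, s], π + eps * v 2)) = T.κ k x →
      2 + |p.2|⁻¹ = s := by
    intro k' s hs0 h
    have h1 : D.s (D.c (![eps * v 0, eps * v 1, s], π + eps * v 2)) = s := hD.cs _ (col hv s)
    have h2 := mem_U_of_s hD (h1.trans_ne hs0.ne')
    obtain rfl := hT.dis _ _ _ h2 _ hx h
    rw [← hs, ← (hT.oκ _).inj h2 hx h, h1, abs_of_pos hs0]
  rcases lt_or_ge t (-1) with h | h
  · rw [key _ _ (by linarith) ((hr.lo t v h hv).symm.trans e'), abs_of_neg (by linarith)]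
    ring
  rcases lt_or_ge 1 t with h' | h'
  · rw [key _ _ (by linarith) ((hr.hi t v h' hv).symm.trans e'), abs_of_pos (by linarith)]
  · have := hr.mid t v k x hx (abs_le.2 ⟨h, h'⟩) hv e'
    linarith

open Classical in
/-- the thick circle -/
def lt (B : MgDat T) (r : ℝ × Rn 3 → T.Gt) (p : ℝ × Rn 3) : B.MG :=
  if rho p.1 = 0 then B.nk 1 (D.e₀ (q0 + eps • p.2), 0) else B.i (r (Th (rho p.1), p.2))

theorem lt_mid {θ : ℝ} (h : θ ∈ Ioo (0 : ℝ) 8) (v : Rn 3) :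
    lt B r (θ, v) = B.i (r (Th θ, v)) := by
  have e := rho_self (Ioo_subset_Ico_self h)
  simp only [lt, e, if_neg h.1.ne']

theorem lt_sub (θ : ℝ) (m : ℤ) (v : Rn 3) : lt B r (θ - 8 * m, v) = lt B r (θ, v) := by
  simp only [lt, rho_sub]

theorem lt_add (θ : ℝ) (v : Rn 3) : lt B r (θ + 8, v) = lt B r (θ, v) := by
  simp only [lt, rho_add]

theorem strt (hD : D.Ok) (hT : T.Ok) (hB : B.Ok) (hr : Arc T r) {θ : ℝ} {v : Rn 3}
    (h : |θ| < 3) (hv : nsq v < 1) : lt B r (θ, v) = B.nk 1 (D.e₀ (q0 + eps • v), θ) := by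
  obtain ⟨h1, h2⟩ := abs_lt.1 h
  rcases lt_trichotomy θ 0 with h0 | rfl | h0
  · have a : θ⁻¹ < 0 := inv_lt_zero.2 h0
    rw [← lt_add, lt_mid ⟨by linarith, by linarith⟩, Th_hi h1.le]
    refine (hB.rel _ _ _).2 ⟨h0.ne, ?_⟩
    rw [hT.act1, GtDat.en, if_pos h0, hr.lo _ v (by linarith) hv, nc hD hv (by linarith),
      show -1 / 2 - (-(5 / 2) + θ⁻¹) = 2 - θ⁻¹ by ring]
  · simp only [lt, rho_self (left_mem_Ico.2 pos8), if_true]
  · have a : 0 < θ⁻¹ := inv_pos.2 h0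
    rw [lt_mid ⟨h0, by linarith⟩, Th_lo h2.le]
    refine (hB.rel _ _ _).2 ⟨h0.ne', ?_⟩
    rw [hT.act1, GtDat.en, if_neg h0.not_gt, hr.hi _ v (by linarith) hv, nc hD hv (by linarith),
      show 5 / 2 + θ⁻¹ - 1 / 2 = 2 + θ⁻¹ by ring]

theorem lld (hD : D.Ok) (hT : T.Ok) (hB : B.Ok) (hr : Arc T r) (θ : ℝ) {v : Rn 3}
    (hv : nsq v < 1) : LDAt (vs (ℝ × Rn 3)) B.MG (lt B r) (θ, v) := by
  obtain ⟨m, hm⟩ := rho_ex θ
  have c1 : Continuous fun p : ℝ × Rn 3 => p.1 - 8 * (m : ℝ) := by fun_prop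
  by_cases h0 : rho θ = 0
  · have a1 := ((ld_aff (8 * m) (θ, v)).trans (ld_vs_prod _)).trans
      ((hD.isF.ld0 _ (mem_Main hv)).prodMap (ldAt_id (X := vs ℝ) (x := θ - 8 * m)))
    refine (a1.trans ((hB.onk 1).ld _ trivial)).congr' ?_
    have o1 : IsOpen {p : ℝ × Rn 3 | |p.1 - 8 * (m : ℝ)| < 3 ∧ nsq p.2 < 1} :=
      (isOpen_lt c1.abs continuous_const).inter
        (isOpen_lt (cd_nsq.continuous.comp continuous_snd) continuous_const)
    filter_upwards [o1.mem_nhds ⟨by rw [← hm, h0]; simp, hv⟩] with p hp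
    exact (lt_sub p.1 m p.2).symm.trans (strt hD hT hB hr hp.1 hp.2)
  · have h1 : θ - 8 * m ∈ Ioo (0 : ℝ) 8 :=
      hm ▸ ⟨lt_of_le_of_ne (rho_mem θ).1 (Ne.symm h0), (rho_mem θ).2⟩
    have a1 := ((ld_vs_prod (θ, v)).trans
      ((ld_Th (8 * m) h1).prodMap (ldAt_id (X := vs (Rn 3)) (x := v)))).trans (ld_prod_vs _)
    refine ((a1.trans (hr.ld _ v hv)).trans (hB.oi.ld _ trivial)).congr' ?_
    filter_upwards [(isOpen_Ioo.preimage c1).mem_nhds h1] with p hp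
    exact (lt_sub p.1 m p.2).symm.trans (lt_mid hp p.2)

end

end CircA

theorem circ : CircStmt := by
  intro D T B r hD hT hB hr
  refine ⟨CircA.lt B r, fun θ v hv => CircA.lld hD hT hB hr θ hv,
    fun g θ θ' v v' hv hv' e => ?_, fun θ v _ => CircA.lt_add θ v,
    fun θ v h hv => CircA.strt hD hT hB hr h hv, fun θ v g p h3 h5 hv e => ?_⟩
  · obtain ⟨m, hm⟩ := CircA.rho_ex θ
    obtain ⟨m', hm'⟩ := CircA.rho_ex θ'
    have key : CircA.rho θ = CircA.rho θ' → ∃ m : ℤ, θ - θ' = 8 * m := fun h =>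
      ⟨m - m', by push_cast; linarith⟩
    unfold CircA.lt at e
    dsimp only at e
    split_ifs at e with h h' h'
    · rw [hB.ank, mul_one] at e
      obtain rfl := hB.dis _ _ _ _ e
      exact ⟨rfl, key (h.trans h'.symm),
        CircA.e0_inj hD hv hv' (congrArg Prod.fst ((hB.onk 1).inj trivial trivial e))⟩
    · rw [hB.ank] at e
      exact absurd rfl ((hB.rel _ _ _).1 e.symm).1
    · rw [hB.ai] at e
      exact absurd rfl ((hB.rel _ _ _).1 e).1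
    · rw [hB.ai] at e
      obtain ⟨a, b, c⟩ := hr.inj _ _ _ _ _ hv hv' (hB.oi.inj trivial trivial e)
      exact ⟨a, key (CircA.anti_Th.injOn
        ⟨lt_of_le_of_ne (CircA.rho_mem θ).1 (Ne.symm h), (CircA.rho_mem θ).2⟩
        ⟨lt_of_le_of_ne (CircA.rho_mem θ').1 (Ne.symm h'), (CircA.rho_mem θ').2⟩ b), c⟩
  · have hθ : θ ∈ Ioo (0 : ℝ) 8 := ⟨by linarith, by linarith⟩
    rw [CircA.lt_mid hθ] at e
    obtain ⟨hp, e'⟩ := (hB.rel _ _ _).1 e
    have h1 := CircA.height hD hT hr hv hp e'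
    have h2 := CircA.anti_Th.antitoneOn (show (3 : ℝ) ∈ Ioo (0 : ℝ) 8 by norm_num) hθ h3
    have h4 := CircA.anti_Th.antitoneOn hθ (show (-3 + 8 : ℝ) ∈ Ioo (0 : ℝ) 8 by norm_num)
      (by linarith)
    rw [CircA.Th_lo le_rfl] at h2
    rw [CircA.Th_hi le_rfl] at h4
    have h6 : |CircA.Th θ| ≤ 5 / 2 + 3⁻¹ := abs_le.2 ⟨by norm_num at h4 ⊢; linarith, h2⟩
    exact (inv_le_inv₀ (abs_pos.2 hp) (by norm_num)).1 (by linarith)

end Pool.Agent.MP_e1dc65_gt.E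

end
end MrgPart2

-- ======== part 3: formerly Pool.Agent.MP_e1dc65_gt.e.bSc1
section MrgPart3

/-! PROJECT HC, part E, sub-part B, row SC1: removing the lifted core circles. -/

open scoped ContDiff Manifold Topology Matrix Real
open Set Filter Function Module

noncomputable section

namespace Pool.Agent.MP_e1dc65_gt.E

namespace Sc1

/-- removing a closed set that is locally of codimension three keeps simple connectivity -/
theorem sc_diff {E : Type} [NormedAddCommGroup E] [NormedSpace ℝ E] [FiniteDimensional ℝ E]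
    {X : Mf E} (h3 : 3 ≤ finrank ℝ E) {U K : Set X} (hU : IsOpen U) (hs : SC U) (hK : IsClosed K)
    (h : ∀ x ∈ U ∩ K, ∀ O ∈ 𝓝 x, ∃ V, IsOpen V ∧ x ∈ V ∧ V ⊆ O ∧ SC (V \ K)) : SC (U \ K) := by
  have h1 : ∀ x ∈ U, ∀ O ∈ 𝓝 x, ∃ V, IsOpen V ∧ x ∈ V ∧ V ⊆ O ∧ SC (V \ K) := by
    intro x hx O hO
    by_cases hxK : x ∈ K
    · exact h x ⟨hx, hxK⟩ O hO
    · obtain ⟨V, v1, v2, v3, v4, -⟩ :=
        X.exists_sc_punct h3 x (inter_mem hO (hK.isOpen_compl.mem_nhds hxK))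
      refine ⟨V, v1, v2, fun y hy => (v3 hy).1, ?_⟩
      have e : V \ K = V := Subset.antisymm sdiff_subset fun y hy => ⟨hy, (v3 hy).2⟩
      rwa [e]
  have h2 : ∀ x ∈ U, ∀ O ∈ 𝓝 x, ∃ V, IsOpen V ∧ x ∈ V ∧ V ⊆ O ∧ IsPathConnected (V \ K) :=
    fun x hx O hO => let ⟨V, v1, v2, v3, v4⟩ := h1 x hx O hO; ⟨V, v1, v2, v3, v4.1⟩
  refine ⟨isPathConnected_diff hs.1.isConnected h2 hU, (thin X _ _ subset_rfl).2 fun G _ τ hτ => ?_⟩
  obtain ⟨τ', a1, a2⟩ := (ext2 X G U K τ hU (hU.sdiff hK) fun x hx => h2 x hx.1).2 hτ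
    fun x hx => by
      obtain ⟨V, v1, v2, v3, v4⟩ := h1 x hx U (hU.mem_nhds hx)
      exact ⟨V, v1.mem_nhds v2, hτ.triv_of_sc v4 fun y hy => ⟨v3 hy.1, hy.2⟩⟩
  exact ((a1.triv_of_sc hs subset_rfl).mono sdiff_subset).congr_tau
    fun x y γ hγ => (a2 x y γ hγ).symm

theorem nsq_zero : nsq (0 : Rn 3) = 0 := by simp [nsq]

theorem nsq_pos {v : Rn 3} : 0 < nsq v ↔ v ≠ 0 := by
  refine ⟨fun h e => by rw [e, nsq_zero] at h; exact lt_irrefl _ h, fun h => ?_⟩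
  obtain ⟨i, hi⟩ := Function.ne_iff.1 h
  exact Finset.sum_pos' (fun j _ => sq_nonneg _) ⟨i, Finset.mem_univ i, sq_pos_of_ne_zero hi⟩

/-- small boxes round a point of the axis -/
theorem exists_box (θ : ℝ) {N : Set (ℝ × Rn 3)} (hN : N ∈ 𝓝 (θ, (0 : Rn 3))) :
    ∃ δ : ℝ, 0 < δ ∧ δ ≤ 1 ∧ Ioo (θ - δ) (θ + δ) ×ˢ {v : Rn 3 | nsq v < δ ^ 2} ⊆ N := by
  obtain ⟨ε, hε, h⟩ := Metric.mem_nhds_iff.1 hN
  have h0 : 0 < min ε 1 := lt_min hε one_pos
  refine ⟨min ε 1, h0, min_le_right _ _, fun p hp => h ?_⟩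
  rw [Metric.mem_ball, Prod.dist_eq, max_lt_iff]
  refine ⟨lt_of_lt_of_le ?_ (min_le_left ε 1), lt_of_lt_of_le ?_ (min_le_left ε 1)⟩
  · rw [Real.dist_eq, abs_lt]
    constructor <;> linarith [hp.1.1, hp.1.2]
  · rw [dist_zero_right, pi_norm_lt_iff h0]
    intro i
    have h1 : p.2 i ^ 2 ≤ nsq p.2 :=
      Finset.single_le_sum (f := fun j => p.2 j ^ 2) (fun j _ => sq_nonneg _) (Finset.mem_univ i)
    exact abs_lt_of_sq_lt_sq (h1.trans_lt hp.2) h0.le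

variable {D : QDat} {T : GtDat D} {B : MgDat T} {lt : ℝ × Rn 3 → B.MG}

theorem act_ld (hB : B.Ok) (g : PG) (y : B.MG) : LDAt B.MG B.MG (B.act g) y :=
  ldAt_of_inv (g := B.act g⁻¹) isOpen_univ isOpen_univ trivial (hB.actsm g) (hB.actsm g⁻¹)
    (mapsTo_univ _ _) (mapsTo_univ _ _)
    (fun x _ => by rw [← hB.actm, inv_mul_cancel, hB.act1])
    fun x _ => by rw [← hB.actm, mul_inv_cancel, hB.act1]

theorem core_closed (hB : B.Ok) (hc : Circ B lt) :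
    IsClosed (B.pM ⁻¹' ((fun p => B.pM (lt p)) '' (univ ×ˢ {0}))) := by
  have h0 : nsq (0 : Rn 3) < 1 := by rw [nsq_zero]; exact one_pos
  have hp : Continuous B.pM := continuous_iff_continuousAt.2 fun y => (hB.ld y).sm.cont
  have h1 : Continuous fun θ : ℝ => B.pM (lt (θ, 0)) := by
    refine hp.comp (continuous_iff_continuousAt.2 fun θ => ?_)
    exact ContinuousAt.comp (f := fun θ : ℝ => (θ, (0 : Rn 3))) (hc.lld θ 0 h0).sm.cont (by fun_prop)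
  have h2 : Periodic (fun θ : ℝ => B.pM (lt (θ, 0))) 8 := fun θ => by
    simp only [hc.per θ 0 h0]
  have e : (fun p => B.pM (lt p)) '' (univ ×ˢ {0}) = range fun θ : ℝ => B.pM (lt (θ, 0)) := by
    ext y
    constructor
    · rintro ⟨⟨θ, v⟩, ⟨-, rfl⟩, rfl⟩
      exact ⟨θ, rfl⟩
    · rintro ⟨θ, rfl⟩
      exact ⟨(θ, 0), ⟨trivial, rfl⟩, rfl⟩
  rw [e]
  exact (h2.compact_of_continuous (by norm_num) h1).isClosed.preimage hp

theorem mem_core (hB : B.Ok) (hc : Circ B lt) (g : PG) (θ : ℝ) {v : Rn 3} (hv : nsq v < 1) :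
    B.act g (lt (θ, v)) ∈ B.pM ⁻¹' ((fun p => B.pM (lt p)) '' (univ ×ˢ {0})) ↔ v = 0 := by
  have h0 : nsq (0 : Rn 3) < 1 := by rw [nsq_zero]; exact one_pos
  constructor
  · rintro ⟨⟨θ', w⟩, ⟨-, rfl⟩, e⟩
    obtain ⟨h, e'⟩ := (hB.fib _ _).1 e.symm
    rw [← hB.actm] at e'
    exact (hc.inj _ _ _ _ _ hv h0 e').2.2
  · rintro rfl
    exact ⟨(θ, 0), ⟨trivial, rfl⟩, (hB.fib _ _).2 ⟨g, rfl⟩⟩

theorem core_local (hB : B.Ok) (hc : Circ B lt) (x : B.MG)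
    (hx : x ∈ B.pM ⁻¹' ((fun p => B.pM (lt p)) '' (univ ×ˢ {0}))) (O : Set B.MG) (hO : O ∈ 𝓝 x) :
    ∃ V, IsOpen V ∧ x ∈ V ∧ V ⊆ O ∧
      SC (V \ B.pM ⁻¹' ((fun p => B.pM (lt p)) '' (univ ×ˢ {0}))) := by
  have h0 : nsq (0 : Rn 3) < 1 := by rw [nsq_zero]; exact one_pos
  obtain ⟨⟨θ, w⟩, ⟨-, rfl⟩, e⟩ := hx
  obtain ⟨g, rfl⟩ := (hB.fib _ _).1 e
  have hl : ∀ p : ℝ × Rn 3, nsq p.2 < 1 →
      LDAt (vs (ℝ × Rn 3)) B.MG (fun p => B.act g (lt p)) p := fun p hp =>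
    (hc.lld p.1 p.2 hp).trans (act_ld hB g _)
  obtain ⟨k, U, W, hU, -, hxU, hUV, hf, hk, m1, -, l, -⟩ :=
    (hl (θ, 0) h0).exists_inv ((hl (θ, 0) h0).sm.cont.preimage_mem_nhds hO)
  obtain ⟨δ, d0, d1, hδ⟩ := exists_box θ (hU.mem_nhds hxU)
  have d2 : δ ^ 2 ≤ 1 := by nlinarith
  have hn : Continuous (nsq : Rn 3 → ℝ) := by unfold nsq; fun_prop
  refine ⟨(fun p => B.act g (lt p)) '' (Ioo (θ - δ) (θ + δ) ×ˢ {v : Rn 3 | nsq v < δ ^ 2}),
    isOpen_image_ld (X := vs (ℝ × Rn 3)) (isOpen_Ioo.prod (isOpen_lt hn continuous_const))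
      fun p hp => hl p (lt_of_lt_of_le hp.2 d2),
    ⟨(θ, 0), ⟨⟨by linarith, by linarith⟩, ?_⟩, rfl⟩, ?_, ?_⟩
  · show nsq (0 : Rn 3) < δ ^ 2
    rw [nsq_zero]; positivity
  · rintro _ ⟨p, hp, rfl⟩
    exact hUV (hδ hp)
  · have hs : Ioo (θ - δ) (θ + δ) ×ˢ {v : Rn 3 | 0 < nsq v ∧ nsq v < δ ^ 2} ⊆ U :=
      fun p hp => hδ ⟨hp.1, hp.2.2⟩
    have e : (fun p => B.act g (lt p)) '' (Ioo (θ - δ) (θ + δ) ×ˢ {v : Rn 3 | nsq v < δ ^ 2}) \
        B.pM ⁻¹' ((fun p => B.pM (lt p)) '' (univ ×ˢ {0})) =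
        (fun p => B.act g (lt p)) ''
          (Ioo (θ - δ) (θ + δ) ×ˢ {v : Rn 3 | 0 < nsq v ∧ nsq v < δ ^ 2}) := by
      ext y
      constructor
      · rintro ⟨⟨⟨t, v⟩, hp, rfl⟩, h2⟩
        refine ⟨(t, v), ⟨hp.1, nsq_pos.2 fun h => h2 ?_, hp.2⟩, rfl⟩
        exact (mem_core hB hc g t (lt_of_lt_of_le hp.2 d2)).2 h
      · rintro ⟨⟨t, v⟩, hp, rfl⟩
        exact ⟨⟨(t, v), ⟨hp.1, hp.2.2⟩, rfl⟩, fun h2 => nsq_pos.1 hp.2.1
          ((mem_core hB hc g t (lt_of_lt_of_le hp.2.2 d2)).1 h2)⟩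
    rw [e]
    refine SC.image (g := k) ((sc_convex (convex_Ioo _ _) (nonempty_Ioo.2 (by linarith))).prod
      (sc_shell le_rfl le_rfl (by positivity))) (hf.contOn.mono hs) (hk.contOn.mono ?_)
      fun p hp => l p (hs hp)
    rintro _ ⟨p, hp, rfl⟩
    exact m1 (hs hp)

end Sc1

open Sc1 in
theorem sc1 : Sc1Stmt := by
  intro D T B lt hB hc hs
  have h1 : SC (range B.i) := by
    rw [← image_univ]
    exact hs.image hB.oi.sm.contOn hB.oi.symm.sm.contOn fun x hx => hB.oi.left hx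
  have h2 : IsOpen (range B.i) := by
    rw [← image_univ]
    exact hB.oi.isOpen_image isOpen_univ subset_rfl
  exact ⟨h1, sc_diff (by simp) h2 h1 (core_closed hB hc) fun x hx O hO =>
    core_local hB hc x hx.2 O hO⟩

end Pool.Agent.MP_e1dc65_gt.E

end
end MrgPart3

-- ======== part 4: formerly Pool.Agent.MP_e1dc65_gt.e.bH2b
section MrgPart4

/-! PROJECT HC, part E, sub-part B, row H2B: closed two-forms on a copy of `Q` minus the circle. -/

open scoped ContDiff Manifold Topology Matrix Real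
open Set Filter Function Module Pool.Agent.MP_c8d41b_gt.GF

noncomputable section

namespace Pool.Agent.MP_e1dc65_gt.E

namespace H2b

section General
variable {E E' : Type} [NormedAddCommGroup E] [NormedSpace ℝ E] [FiniteDimensional ℝ E]
  [NormedAddCommGroup E'] [NormedSpace ℝ E'] [FiniteDimensional ℝ E']

/-- a closed form off `K` that is exact near `K` is exact, if the ambient group vanishes -/
theorem ex_punct {X : Mf E} {k : ℕ} {K N : Set X} {α : X → Lam E} (hz : HZ X k univ)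
    (hK : IsClosed K) (hN : IsOpen N) (hKN : K ⊆ N) (hα : Cl X (k + 1) α Kᶜ)
    (he : Ex X k α (N \ K)) : Ex X k α Kᶜ := by
  obtain ⟨β, b1, b2⟩ := he
  obtain ⟨χ, c1, -, c3, c4, -⟩ := (bumpM E X).1 K N hK hN hKN
  have hγ : Fm X k (fun y => χ y • β y) Kᶜ := fun x hx => by
    by_cases h : x ∈ N
    · exact ⟨(b1 x ⟨h, hx⟩).1.fsmul (c1 x trivial), Submodule.smul_mem _ _ (b1 x ⟨h, hx⟩).2⟩
    · have h0 : χ =ᶠ[𝓝 x] 0 := notMem_tsupport_iff_eventuallyEq.1 fun h' => h (c4 h')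
      exact ⟨fmAt_of_ev (h0.mono fun y hy => by simp [hy]), by simp [h0.eq_of_nhds]⟩
  have hη := hα.sub (hγ.dM hK.isOpen_compl)
  have h1 : Cl X (k + 1) (Kᶜ.indicator fun y => α y - dM X (fun y => χ y • β y) y) Kᶜ :=
    hη.congr hK.isOpen_compl fun y hy => indicator_of_mem hy _
  have h0 : ∀ x ∈ K, ∀ᶠ y in 𝓝 x,
      Kᶜ.indicator (fun y => α y - dM X (fun y => χ y • β y) y) y = 0 := fun x hx => by
    filter_upwards [(c3.filter_mono (nhds_le_nhdsSet hx)).eventually_nhds,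
      hN.mem_nhds (hKN hx)] with y y1 y2
    by_cases hy : y ∈ K
    · exact indicator_of_notMem (not_not.2 hy) _
    · rw [indicator_of_mem (show y ∈ Kᶜ from hy),
        dM_congr (β := β) (y1.mono fun z hz => by simp [hz]), b2 y ⟨y2, hy⟩, sub_self]
  obtain ⟨δ, d1, d2⟩ := hz (Kᶜ.indicator fun y => α y - dM X (fun y => χ y • β y) y)
    ⟨fun x _ => by
      by_cases hx : x ∈ K
      · exact ⟨fmAt_of_ev (h0 x hx), by rw [(h0 x hx).self_of_nhds]; exact zero_mem _⟩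
      · exact h1.1 x hx, fun x _ => by
      by_cases hx : x ∈ K
      · exact dM_of_ev (h0 x hx)
      · exact h1.2 x hx⟩
  refine ⟨_, (d1.mono (subset_univ _)).add hγ, fun x hx => ?_⟩
  rw [dM_add (d1 x trivial).1 (hγ x hx).1, d2 x trivial, indicator_of_mem hx, sub_add_cancel]

/-- exactness pulls back -/
theorem ex_pb {X : Mf E} {Y : Mf E'} {f : X → Y} {k : ℕ} {U : Set X} {W : Set Y}
    {α : Y → Lam E'} (h : Ex Y k α W) (hf : Sm X Y f U) (m : MapsTo f U W) :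
    Ex X k (pbM X Y f α) U := by
  obtain ⟨β, b1, b2⟩ := h
  refine ⟨_, b1.pb hf m, fun x hx => ?_⟩
  rw [dM_pb (hf x hx) (b1 _ (m hx)).1]
  exact pbM_congr_right (b2 _ (m hx))

/-- exactness pushes forward under an open embedding -/
theorem ex_image {X : Mf E} {Y : Mf E'} {f : X → Y} {k : ℕ} {U : Set X} {α : Y → Lam E'}
    (h : OE X Y f U) (he : Ex X k (pbM X Y f α) U) : Ex Y k α (f '' U) := by
  obtain ⟨β, h1, h2⟩ := he
  refine ⟨_, h.fm_psh subset_rfl h1, ?_⟩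
  rintro _ ⟨x, hx, rfl⟩
  rw [h.dM_psh hx (h1 x hx).1, ← h.psh_pbM (β := α) (mem_image_of_mem f hx),
    (h.psh_ev (mem_image_of_mem f hx)).eq_of_nhds, (h.psh_ev (mem_image_of_mem f hx)).eq_of_nhds]
  exact pbM_congr_right (by rw [h.left hx]; exact h2 x hx)

end General

/-- the half-turn about a lattice point -/
def hT (k : ℤ × ℤ) : PG := ⟨-1, -1, 2 * k.1, 2 * k.2, by simp, by simp⟩

theorem gZ_hT (k : ℤ × ℤ) : gZ (hT k) k = k := by
  ext <;> simp [gZ, hT] <;> ring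

/-- the fibres of a copy of `Qt` minus the circle over `M` -/
theorem fib_Q {D : QDat} {T : GtDat D} {B : MgDat T} (hD : D.Ok) (hT' : T.Ok) (hB : B.Ok)
    (k : ℤ × ℤ) {x x' : D.Qt} (hx : x ∈ D.U) (hx' : x' ∈ D.U) :
    B.pM (B.i (T.κ k x)) = B.pM (B.i (T.κ k x')) ↔ D.pQ x = D.pQ x' := by
  rw [hB.fib, hD.peq]
  constructor
  · rintro ⟨g, hg⟩
    rw [hB.ai] at hg
    have h1 := hB.oi.inj trivial trivial hg
    rw [hT'.aκ g k x hx] at h1
    have h2 := hT'.dis _ _ _ (sq_mem hD g hx) _ hx' h1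
    rw [h2] at h1
    rw [← (hT'.oκ k).inj (sq_mem hD g hx) hx' h1, QDat.sq]
    split_ifs
    exacts [.inl rfl, .inr rfl]
  · rintro (rfl | rfl)
    · exact ⟨1, hB.act1 _⟩
    · refine ⟨hT k, ?_⟩
      rw [hB.ai, hT'.aκ _ k x hx, gZ_hT, QDat.sq, if_neg (by simp [hT])]

theorem col_of_nuv (hP : PhiStmt) {p : Rn 3 × ℝ} (h : nuv p.1 < 1 / 2) : p ∈ Col := by
  have h1 : √(nsq p.1) < 1 := by linarith [(hP.nub p.1).1]
  rw [Real.sqrt_lt' one_pos, nsq3] at h1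
  constructor <;> rw [← sq_lt_one_iff_abs_lt_one] <;>
    nlinarith [sq_nonneg (p.1 0), sq_nonneg (p.1 1), sq_nonneg (p.1 2)]

end H2b

open H2b in
/-- row H2B -/
theorem h2b (hP : PhiStmt) : H2bStmt := by
  intro D T B hD hT' hB k α hα he
  obtain ⟨f, hf⟩ := desc1 D.U D.pQ (fun x => B.pM (B.i (T.κ k x)))
    fun x hx y hy e => (fib_Q hD hT' hB k hx hy).2 e
  have hU := isOpen_U hD
  set K := D.pQ '' (D.c '' ({0} ×ˢ univ)) with hK
  have hKU : Kᶜ = D.pQ '' D.U := by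
    ext y
    obtain ⟨x, rfl⟩ := hD.psur y
    refine ⟨fun h => ⟨x, fun h' => h ⟨x, h', rfl⟩, rfl⟩, ?_⟩
    rintro ⟨x', hx', e⟩ ⟨x'', hx'', e'⟩
    rcases (hD.peq _ _).1 (e.trans e'.symm) with rfl | rfl
    exacts [hx' hx'', σ_mem hD hx' hx'']
  have hW : IsOpen Kᶜ := hKU ▸ isOpen_image_ld hU fun x _ => hD.pld x
  have ho : OE D.Q B.M f Kᶜ := by
    refine ⟨hW, ?_, ?_⟩ <;> rw [hKU]
    · rintro _ ⟨x, hx, rfl⟩
      exact (hD.pld x).ld_desc (hU.mem_nhds hx) hf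
        ((((hT'.oκ k).ld x hx).trans (hB.oi.ld _ trivial)).trans (hB.ld _))
    · rintro _ ⟨x, hx, rfl⟩ _ ⟨y, hy, rfl⟩ e
      rw [hf x hx, hf y hy] at e
      exact (fib_Q hD hT' hB k hx hy).1 e
  have him : f '' Kᶜ = B.QM k := by
    rw [hKU, image_image]
    exact image_congr hf
  have hN : IsOpen ((fun p => D.pQ (D.c p)) '' {p | nuv p.1 < 1 / 2}) :=
    isOpen_image_ld (X := vs (Rn 3 × ℝ))
      (isOpen_lt (hP.nuc.comp continuous_fst) continuous_const)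
      fun p hp => (hD.cld p (col_of_nuv hP hp)).trans (hD.pld _)
  rw [← him] at hα ⊢
  refine ex_image ho (ex_punct hD.h2Q (isOpen_compl_iff.1 hW) hN ?_
    (hα.pb ho.sm (mapsTo_image f _)) (ex_pb he (ho.sm.mono fun y hy => hy.2) ?_))
  · rintro _ ⟨_, ⟨⟨_, u⟩, ⟨rfl, -⟩, rfl⟩, rfl⟩
    refine ⟨(0, u), ?_, rfl⟩
    have := (hP.nub 0).2
    simp only [nsq3, Pi.zero_apply] at this
    show nuv 0 < 1 / 2
    norm_num at this
    linarith
  · rintro _ ⟨⟨p, hp, rfl⟩, h2⟩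
    have h0 : p.1 ≠ 0 := fun e => h2 ⟨_, ⟨p, ⟨e, trivial⟩, rfl⟩, rfl⟩
    exact ⟨p, ⟨h0, hp⟩, (hf _ ((c_mem hD (col_of_nuv hP hp)).2 h0)).symm⟩

end Pool.Agent.MP_e1dc65_gt.E

end
end MrgPart4

-- ======== part 5: formerly Pool.Agent.MP_e1dc65_gt.e.bH2d
section MrgPart5

/-! PROJECT HC, part E, sub-part B, row H2D: the second cohomology of `M` minus the neck. -/

open scoped ContDiff Manifold Topology
open Set Filter Function Module Pool.Agent.MP_c8d41b_gt.GF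

noncomputable section

namespace Pool.Agent.MP_e1dc65_gt.E

namespace H2d

variable {D : QDat} {T : GtDat D} {B : MgDat T}

theorem fib (hB : B.Ok) {x x' : T.Gt} :
    B.pM (B.i x) = B.pM (B.i x') ↔ ∃ g, T.act g x = x' := by
  rw [hB.fib]
  refine exists_congr fun g => ?_
  rw [hB.ai]
  exact hB.oi.inj.eq_iff trivial trivial

theorem ld (hB : B.Ok) (x : T.Gt) : LDAt T.Gt B.M (fun x => B.pM (B.i x)) x :=
  (hB.oi.ld x trivial).trans (hB.ld _)

theorem op_J (hT : T.Ok) (hB : B.Ok) : IsOpen B.JM :=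
  isOpen_image_ld isOpen_JU fun p hp => (hT.oι.ld p hp).trans (ld hB _)

theorem op_Q (hT : T.Ok) (hB : B.Ok) (k : ℤ × ℤ) : IsOpen (B.QM k) :=
  isOpen_image_ld (hT.oκ k).op fun p hp => ((hT.oκ k).ld p hp).trans (ld hB _)

theorem inter (hP : PhiStmt) (hD : D.Ok) (hT : T.Ok) (hB : B.Ok) (k : ℤ × ℤ) :
    B.JM ∩ B.QM k = B.OM k := by
  ext y
  constructor
  · rintro ⟨⟨p, hp, e⟩, x, hx, rfl⟩
    obtain ⟨g, hg⟩ := (fib hB).1 e
    rw [hT.aι g p hp] at hg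
    obtain ⟨q, hq, -, rfl⟩ := (hT.rel _ (actJ_mem g hp) k x hx).1 hg
    exact ⟨q, hq, rfl⟩
  · rintro ⟨q, hq, rfl⟩
    have m := (c_mem hD (hP.sub hq)).2 hq.1
    exact ⟨⟨_, hP.mem k q hq, congrArg (fun x => B.pM (B.i x))
      ((hT.rel _ (hP.mem k q hq) k _ m).2 ⟨q, hq, rfl, rfl⟩)⟩, _, m, rfl⟩

theorem disj (hD : D.Ok) (hT : T.Ok) (hB : B.Ok) : Disjoint (B.QM (0, 0)) (B.QM (1, 0)) := by
  refine disjoint_left.2 ?_
  rintro _ ⟨x, hx, rfl⟩ ⟨x', hx', e⟩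
  obtain ⟨g, hg⟩ := (fib hB).1 e.symm
  rw [hT.aκ g _ x hx] at hg
  exact gZ_ne g (hT.dis _ _ _ (sq_mem hD g hx) _ hx' hg)

theorem cover (hD : D.Ok) (hT : T.Ok) (hB : B.Ok) :
    (range fun x => B.pM (B.i x)) = B.JM ∪ (B.QM (0, 0) ∪ B.QM (1, 0)) := by
  refine Subset.antisymm ?_ ?_
  · rintro _ ⟨y, rfl⟩
    rcases hT.cov y with ⟨p, hp, rfl⟩ | ⟨k, x, hx, rfl⟩
    · exact Or.inl ⟨p, hp, rfl⟩
    · have key : ∀ k₀, (∃ g : PG, g.a = 1 ∧ gZ g k₀ = k) → B.pM (B.i (T.κ k x)) ∈ B.QM k₀ :=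
        fun k₀ ⟨g, _, e⟩ => ⟨_, sq_mem hD g⁻¹ hx, (fib hB).2 ⟨g, by
          rw [hT.aκ g _ _ (sq_mem hD g⁻¹ hx), e, ← sq_mul hD, mul_inv_cancel, sq_one]⟩⟩
      exact Or.inr ((exists_gZ k 1).imp (key _) (key _))
  · rintro _ (⟨p, -, rfl⟩ | ⟨p, -, rfl⟩ | ⟨p, -, rfl⟩) <;> exact ⟨_, rfl⟩

end H2d

open H2d in
theorem h2d (hP : PhiStmt) : H2dStmt := by
  intro h1 h2 h3 D T B hD hT hB
  rw [cover hD hT hB]
  intro α hα
  have oJ := op_J hT hB
  have oQ := op_Q hT hB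
  have hi := inter hP hD hT hB
  have sJ : ∀ k, B.OM k ⊆ B.JM := fun k => hi k ▸ inter_subset_left
  have sQ : ∀ k, B.OM k ⊆ B.QM k := fun k => hi k ▸ inter_subset_right
  have oO : ∀ k, IsOpen (B.OM k) := fun k => hi k ▸ oJ.inter (oQ k)
  have eJ : Ex B.M 1 α B.JM := h1 D T B hD hT hB α (hα.mono subset_union_left)
  obtain ⟨η, c1, c2⟩ := ex_union (oQ _) (oQ _) (disj hD hT hB)
    (h2 D T B hD hT hB _ α (hα.mono (subset_union_left.trans subset_union_right))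
      (eJ.mono (sJ _)))
    (h2 D T B hD hT hB _ α (hα.mono (subset_union_right.trans subset_union_right))
      (eJ.mono (sJ _)))
  obtain ⟨β, b1, b2⟩ := eJ
  have hc := Hzb.cl_sub b1 c1 b2 c2
  obtain ⟨θ, t1, t2, t3⟩ := h3 D T B hD hT hB _ _ (Or.inl ⟨rfl, rfl⟩)
  obtain ⟨θ', t1', t2', t3'⟩ := h3 D T B hD hT hB _ _ (Or.inr ⟨rfl, rfl⟩)
  obtain ⟨c, e⟩ := t3 _ (hc.mono (subset_inter (sJ _) ((sQ _).trans subset_union_left)))
  obtain ⟨c', e'⟩ := t3' _ (hc.mono (subset_inter (sJ _) ((sQ _).trans subset_union_right)))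
  have k1 := (cl_smul t1 c).add (cl_smul t1' c')
  refine patch oJ ((oQ _).union (oQ _)) (b1.sub k1.1) c1 (fun x hx => ?_) c2 ?_
  · rw [dM_sub (b1 x hx).1 (k1.1 x hx).1, k1.2 x hx, sub_zero, b2 x hx]
  · rw [inter_union_distrib_left, hi, hi]
    exact ex_union (oO _) (oO _) ((disj hD hT hB).mono (sQ _) (sQ _))
      ((e.sub (t2'.smul c')).congr fun x _ => by abel)
      ((e'.sub (t2.smul c)).congr fun x _ => by abel)

end Pool.Agent.MP_e1dc65_gt.E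

end
end MrgPart5

-- ======== part 6: formerly Pool.Agent.MP_e1dc65_gt.e.bOv
section MrgPart6

/-! PROJECT HC, part E, sub-part B: the overlap computation. -/

open scoped ContDiff Manifold Topology Matrix Real Quaternion
open Set Filter Function Module

noncomputable section

namespace Pool.Agent.MP_e1dc65_gt.E

namespace Ov

/-! ### Rotations -/

def Rt (c : ℂ) : M5 :=
  !![1, 0, 0, 0, 0; 0, 1, 0, 0, 0; 0, 0, c.re, -c.im, 0; 0, 0, c.im, c.re, 0; 0, 0, 0, 0, 1]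

theorem cont_Rt : Continuous Rt := continuous_matrix fun i j => by
  fin_cases i <;> fin_cases j <;> simp [Rt] <;> fun_prop

def eh (θ : ℝ) : ℍ := ⟨Real.cos (θ / 2), Real.sin (θ / 2), 0, 0⟩

theorem norm_eh (θ : ℝ) : ‖eh θ‖ = 1 := by
  have : Quaternion.normSq (eh θ) = 1 := by simp [Quaternion.normSq_def', eh]
  rw [Quaternion.normSq_eq_norm_mul_self] at this
  nlinarith [norm_nonneg (eh θ)]

theorem cont_eh : Continuous eh := by
  have : eh = fun θ => Real.cos (θ / 2) • (1 : ℍ) + Real.sin (θ / 2) • hb 1 :=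
    funext fun θ => by ext <;> simp [eh, hb]
  rw [this]; fun_prop

theorem rot (C : SpinCover) : ∃ K : ℝ → C.G, Continuous K ∧
    (∀ θ, C.π (K θ) = Rt (Complex.exp (θ * Complex.I))) ∧ ∀ θ, K (θ + 2 * π) = C.ε * K θ := by
  refine ⟨fun θ => C.j (eh θ, eh θ), C.j_cont.comp_continuous (cont_eh.prodMk cont_eh)
    fun θ => ⟨norm_eh θ, norm_eh θ⟩, fun θ => m5_ext_emb fun v t => ?_, fun θ => ?_⟩
  · rw [C.j_π _ _ (norm_eh θ) (norm_eh θ)]
    have h1 := Real.cos_two_mul' (θ / 2)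
    have h2 := Real.sin_two_mul (θ / 2)
    have h3 := Real.cos_sq_add_sin_sq (θ / 2)
    rw [mul_div_cancel₀ _ two_ne_zero] at h1 h2
    ext i
    fin_cases i <;> simp [emb, Rt, eh, Matrix.mulVec, dotProduct, Fin.sum_univ_succ, h1, h2,
      Complex.exp_ofReal_mul_I_re, Complex.exp_ofReal_mul_I_im]
    · linear_combination v.re * h3
    · linear_combination v.imI * h3
    · ring
    · ring
  · have : eh (θ + 2 * π) = -1 * eh θ := by
      ext <;> simp [eh, add_div, Real.cos_add_pi, Real.sin_add_pi]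
    simp only [this]
    rw [C.j_mul _ _ _ _ (by simp) (by simp) (norm_eh θ) (norm_eh θ), C.j_neg]

/-! ### The flat chart -/

def Lf : (ℂ × Rn 3) ≃L[ℝ] Rn 5 := LinearEquiv.toContinuousLinearEquiv
  { toFun := fun p => ![p.2 0, p.2 1, p.1.re, p.1.im, p.2 2]
    invFun := fun w => (⟨w 2, w 3⟩, ![w 0, w 1, w 4])
    map_add' := fun p q => by ext k; fin_cases k <;> simp
    map_smul' := fun c p => by ext k; fin_cases k <;> simp
    left_inv := fun p => Prod.ext rfl (by ext k; fin_cases k <;> rfl)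
    right_inv := fun w => by ext k; fin_cases k <;> rfl }

abbrev P5 : Type := (Rn 3 × ℝ) × ℝ

def L5 : P5 ≃L[ℝ] Rn 5 := LinearEquiv.toContinuousLinearEquiv
  { toFun := fun p => ![p.1.1 0, p.1.1 1, p.1.2, p.1.1 2, p.2]
    invFun := fun w => ((![w 0, w 1, w 3], w 2), w 4)
    map_add' := fun p q => by ext k; fin_cases k <;> simp
    map_smul' := fun c p => by ext k; fin_cases k <;> simp
    left_inv := fun p => Prod.ext (Prod.ext (by ext k; fin_cases k <;> rfl) rfl) rfl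
    right_inv := fun w => by ext k; fin_cases k <;> rfl }

def flat (y : J.cyl) : Rn 5 := Lf (y.1.1, Real.exp y.2 • io y.1.2)

theorem ld_flat (y : J.cyl) : LDAt J.cyl (vs (Rn 5)) flat y := by
  have a : LDAt J.cyl ((vs ℂ).prod S2.cyl) (fun y => (y.1.1, (y.1.2, y.2))) y :=
    ldAt_of_inv (g := fun q => ((q.1, q.2.1), q.2.2)) isOpen_univ isOpen_univ trivial
      (fun _ _ => (smAt_fst.trans smAt_fst).pair ((smAt_fst.trans smAt_snd).pair smAt_snd))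
      (fun _ _ => (smAt_fst.pair (smAt_snd.trans smAt_fst)).pair (smAt_snd.trans smAt_snd))
      (mapsTo_univ _ _) (mapsTo_univ _ _) (fun _ _ => rfl) fun _ _ => rfl
  have c : ∀ p, LDAt ((vs ℂ).prod (vs (Rn 3))) (vs (ℂ × Rn 3)) (fun p => p) p := fun p =>
    ldAt_of_inv (g := fun q => q) isOpen_univ isOpen_univ trivial (fun _ _ => smAt_prod_vs)
      (fun _ _ => smAt_vs_prod) (mapsTo_univ _ _) (mapsTo_univ _ _) (fun _ _ => rfl) fun _ _ => rfl
  exact ((a.trans ((ldAt_id (X := vs ℂ)).prodMap (ld_polar (y.1.2, y.2)))).trans (c _)).trans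
    (ldAt_cle Lf _)

def Ph (k : ℤ × ℤ) (x : P5) : J.cyl := (phi k x.1, x.2)
def G (k : ℤ × ℤ) (x : P5) : Rn 5 := flat (Ph k x)
def S5 : Set P5 := Dg ×ˢ univ
def sh (x : P5) : P5 := x + ((0, 2 * π), 0)
def Dk (k : ℤ × ℤ) : M5 := Matrix.diagonal ![sg k.2.negOnePow, sg k.2.negOnePow,
  sg (k.1 + k.2).negOnePow, sg k.2.negOnePow, sg k.2.negOnePow]
def N (x : P5) : M5 := tm (fderiv ℝ (G (0, 0)) x) L5

theorem det_Dk (k : ℤ × ℤ) : 0 < (sg (k.1 + k.2).negOnePow • Dk k).det := by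
  rcases sg_or k.2.negOnePow with h | h <;> rcases sg_or (k.1 + k.2).negOnePow with h' | h' <;>
    simp [Dk, h, h', Fin.prod_univ_succ]

theorem io_sg (a : ℤˣ) {v : Rn 3} (h : v ≠ 0) : io (nr (sg a • v)) = sg a • io (nr v) := by
  rw [io_nr h, io_nr (smul_ne_zero (sg_ne a) h), nsq_smul, sq, sg_sq, one_mul, smul_comm]

theorem G_eq (k : ℤ × ℤ) {x : P5} (h : x.1.1 ≠ 0) :
    G k x = ![0, 0, (k.1 : ℝ), k.2, 0] + mL (Dk k) (G (0, 0) x) := by
  ext i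
  simp only [G, flat, Ph, phi, io_sg _ h]
  fin_cases i <;> simp [Lf, Dk, Matrix.mulVec_diagonal] <;> ring

theorem zl_sh (p : Rn 3 × ℝ) : zl (p.1, p.2 + 2 * π) = zl p := by
  simp [zl, add_mul, Complex.exp_add]

theorem Ph_sh (k : ℤ × ℤ) (x : P5) : Ph k (sh x) = Ph k x := by
  have := zl_sh x.1
  simp only [Ph, sh, phi, Prod.fst_add, Prod.snd_add, add_zero]
  rw [show x.1 + (0, 2 * π) = (x.1.1, x.1.2 + 2 * π) from Prod.ext (add_zero _) rfl, this]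

theorem N_sh (x : P5) : N (sh x) = N x := by
  have : G (0, 0) = fun y => G (0, 0) (y + ((0, 2 * π), 0)) :=
    funext fun y => congrArg flat (Ph_sh _ y).symm
  rw [N, N, sh, ← fderiv_comp_add_right, ← this]

theorem sh_mem {x : P5} (h : x ∈ S5) : sh x ∈ S5 := by
  simpa [S5, sh, Dg] using h

/-- the winding function -/
def F (z : ℂ) : ℂ := ⟨Real.sin (π * z.re), Real.sin (π * z.im)⟩

theorem cont_F : Continuous F :=
  Complex.equivRealProdCLM.symm.continuous.comp (f := fun z : ℂ =>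
    (Real.sin (π * z.re), Real.sin (π * z.im))) (by fun_prop)

theorem F_ne {z : ℂ} (h : ∀ k, z ≠ lat k) : F z ≠ 0 := fun e => by
  obtain ⟨m, hm⟩ := Real.sin_eq_zero_iff.1 (congrArg Complex.re e)
  obtain ⟨n, hn⟩ := Real.sin_eq_zero_iff.1 (congrArg Complex.im e)
  exact h (m, n) (Complex.ext (mul_left_cancel₀ Real.pi_ne_zero (by rw [← hm, mul_comm]; rfl))
    (mul_left_cancel₀ Real.pi_ne_zero (by rw [← hn, mul_comm]; rfl)))

theorem sin_sg (m : ℤ) (a : ℤˣ) (x : ℝ) :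
    Real.sin (π * (m + sg a * x)) = sg m.negOnePow * sg a * Real.sin (π * x) := by
  rw [mul_add, add_comm, mul_comm π (m : ℝ), Real.sin_add_int_mul_pi, ← Int.cast_negOnePow,
    sg_cast]
  rcases sg_or a with h | h <;> simp [h]

theorem F_phi (k : ℤ × ℤ) (p : Rn 3 × ℝ) :
    F (phi k p).1 = ⟨sg k.2.negOnePow * (F (zl p)).re, (F (zl p)).im⟩ := by
  simp only [F, phi, sin_sg, sg_sq, one_mul]
  rw [Int.negOnePow_add, sg_mul, ← mul_assoc, sg_sq, one_mul]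

variable (hP : PhiStmt)
include hP

theorem op_S5 : IsOpen S5 := hP.op.prod isOpen_univ
theorem sc_S5 : SC S5 := (H2c.sc_Dg hP).prod sc_univ

theorem ld_Ph (k : ℤ × ℤ) {x : P5} (h : x ∈ S5) : LDAt (vs P5) J.cyl (Ph k) x :=
  (ldAt_of_inv (X := vs P5) (Y := (vs (Rn 3 × ℝ)).cyl) (f := fun p => p) (g := fun q => q)
    isOpen_univ isOpen_univ trivial (fun _ _ => smAt_vs_prod) (fun _ _ => smAt_prod_vs)
    (mapsTo_univ _ _) (mapsTo_univ _ _) (fun _ _ => rfl) fun _ _ => rfl).trans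
    ((hP.ld k x.1 h.1).prodMap (ldAt_id (X := vs ℝ) (x := x.2)))

theorem ld_G (k : ℤ × ℤ) {x : P5} (h : x ∈ S5) : LDAt (vs P5) (vs (Rn 5)) (G k) x :=
  (ld_Ph hP k h).trans (ld_flat _)

theorem Df_Ph (k : ℤ × ℤ) {x : P5} (h : x ∈ S5) (w : P5) :
    Df (vs P5) J.cyl (Ph k) x w = (Df (vs (Rn 3 × ℝ)) J (phi k) x.1 w.1, w.2) := by
  have a : SmAt (vs P5) (vs (Rn 3 × ℝ)) Prod.fst x := smAt_vs.2 contDiffAt_fst
  have b : SmAt (vs P5) (vs ℝ) Prod.snd x := smAt_vs.2 contDiffAt_snd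
  have := Df_pair (a.trans (hP.ld k x.1 h.1).sm) b
  rw [Df_comp a (hP.ld k x.1 h.1).sm, Df_vs Prod.fst, Df_vs Prod.snd, fderiv_fst, fderiv_snd] at this
  exact congrArg (fun L => L w) this

theorem Df_flat (k : ℤ × ℤ) {x : P5} (h : x ∈ S5) (w : P5) :
    Df J.cyl (vs (Rn 5)) flat (Ph k x) (Df (vs P5) J.cyl (Ph k) x w) = Dk k *ᵥ N x *ᵥ L5 w := by
  have e : G k =ᶠ[𝓝 x] fun y => ![0, 0, (k.1 : ℝ), k.2, 0] + mL (Dk k) (G (0, 0) y) :=
    mem_of_superset ((op_S5 hP).mem_nhds h) fun y hy => G_eq k hy.1.1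
  have d := ((smAt_vs.1 (ld_G hP (0, 0) h).sm).differentiableAt (by simp)).hasFDerivAt
  have := (((mL (Dk k)).hasFDerivAt.comp x d).const_add ![0, 0, (k.1 : ℝ), k.2, 0]).fderiv
  rw [N, show L5 w = (L5 : P5 →L[ℝ] Rn 5) w from rfl, tm_mulVec ⟨L5, rfl⟩,
    ← ContinuousLinearMap.comp_apply, ← Df_comp (ld_Ph hP k h).sm (ld_flat _).sm, Df_vs]
  exact congrArg (fun L => L w) (e.fderiv_eq.trans this)

theorem cont_N : ContinuousOn N S5 ∧ ∀ x ∈ S5, (N x).det ≠ 0 := by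
  have h1 : Cof (vs P5) 0 (fderiv ℝ (G (0, 0))) S5 := by
    simpa only [funext (Df_vs (G (0, 0)))] using
      cof_Df (n := 0) (X := vs P5) (U := S5) fun x => ld_G hP (0, 0) (x := x)
  have h2 : Cof (vs P5) 0 (fun _ => (L5 : P5 →L[ℝ] Rn 5)) univ := fun _ _ =>
    ⟨cfAt_vs.2 contDiffAt_const, L5, rfl⟩
  exact ⟨(h1.tm_contOn h2).mono fun x hx => ⟨hx, trivial⟩,
    fun x hx => det_tm_ne (h1 x hx).2 ⟨L5, rfl⟩⟩

theorem sign : ∃ s : ℝ, s ≠ 0 ∧ ∀ x ∈ S5, 0 < (s • N x).det := by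
  obtain ⟨c, d⟩ := cont_N hP
  have c' : ContinuousOn (fun x => (N x).det) S5 :=
    Continuous.comp_continuousOn (g := fun A : M5 => A.det) (Continuous.matrix_det continuous_id) c
  by_cases h : ∀ x ∈ S5, 0 < (N x).det
  · exact ⟨1, one_ne_zero, by simpa using h⟩
  · push Not at h
    obtain ⟨y, hy, h⟩ := h
    refine ⟨-1, by simp, fun x hx => ?_⟩
    rw [Matrix.det_smul, Fintype.card_fin]
    refine not_le.1 fun h' => ?_
    obtain ⟨z, hz, e⟩ := (sc_S5 hP).1.isConnected.isPreconnected.intermediate_value hy hx c'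
      (⟨h, by linarith⟩ : (0 : ℝ) ∈ Icc _ _)
    exact d z hz e

theorem ang0 : ∃ θ : Rn 3 × ℝ → ℝ, ContinuousOn θ Dg ∧
    (∀ p, θ (p.1, p.2 + 2 * π) = θ p + 2 * π) ∧
    ∀ p ∈ Dg, ∃ r : ℝ, 0 < r ∧ F (zl p) = r * Complex.exp (θ p * Complex.I) := by
  have cz : ContinuousOn zl Dg := fun p hp => (H2c.zl_sm hP hp).cont.continuousWithinAt
  have re : ∀ p ∈ Dg, 0 < (F (zl p) * star (zl p)).re := fun p hp => by
    obtain ⟨h0, h1⟩ := H2c.zl_mem hP hp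
    have a := (Complex.abs_re_le_norm _).trans_lt h1
    have b := (Complex.abs_im_le_norm _).trans_lt h1
    have nn : ∀ x : ℝ, |x| < 1 / 2 → 0 ≤ x * Real.sin (π * x) := fun x hx => by
      rcases eq_or_ne x 0 with rfl | h
      exacts [by simp, (H2c.mul_sin hx h).le]
    have : (F (zl p) * star (zl p)).re =
        (zl p).re * Real.sin (π * (zl p).re) + (zl p).im * Real.sin (π * (zl p).im) := by
      simp [F]; ring
    rw [this]
    by_cases h : (zl p).re = 0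
    · exact add_pos_of_nonneg_of_pos (nn _ a) (H2c.mul_sin b fun h' => h0 (Complex.ext h h'))
    · exact add_pos_of_pos_of_nonneg (H2c.mul_sin a h) (nn _ b)
  refine ⟨fun p => Complex.arg (F (zl p) * star (zl p)) + p.2 + π, fun p hp => ?_,
    fun p => by simp only [zl_sh]; ring, fun p hp => ?_⟩
  · exact (((Complex.continuousAt_arg (.inl (re p hp))).comp_continuousWithinAt
      (f := fun p => F (zl p) * star (zl p)) (((cont_F.comp_continuousOn cz).mul cz.star) p hp)).add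
      continuous_snd.continuousWithinAt).add continuousWithinAt_const
  · have h0 := (H2c.zl_mem hP hp).1
    obtain ⟨ρ, h1, h2⟩ : ∃ ρ : ℝ, 0 ≤ ρ ∧ zl p = -ρ * Complex.exp (p.2 * Complex.I) :=
      ⟨_, div_nonneg (sub_pos.2 hp.2).le (mul_nonneg two_pos.le (Real.sqrt_nonneg _)), by
        rw [zl, Complex.ofReal_neg]; rfl⟩
    have h3 : ρ ≠ 0 := by rintro rfl; simp [h2] at h0
    have h4 : F (zl p) * star (zl p) ≠ 0 := fun e => (re p hp).ne' (congrArg Complex.re e)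
    refine ⟨‖F (zl p) * star (zl p)‖ / ρ, div_pos (norm_pos_iff.2 h4) (h1.lt_of_ne' h3), ?_⟩
    have h5 := Complex.norm_mul_exp_arg_mul_I (F (zl p) * star (zl p))
    have h6 : star (zl p) * Complex.exp (p.2 * Complex.I) = -ρ := by
      rw [h2, star_mul', mul_assoc, Complex.star_def, ← Complex.exp_conj, ← Complex.exp_add]; simp
    have h7 : (ρ : ℂ) ≠ 0 := Complex.ofReal_ne_zero.2 h3
    simp only [Complex.ofReal_add, add_mul, Complex.exp_add, Complex.exp_pi_mul_I,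
      Complex.ofReal_div]
    rw [div_mul_eq_mul_div, eq_div_iff h7]
    linear_combination F (zl p) * h6 + Complex.exp (p.2 * Complex.I) * h5

theorem rho (C : SpinCover) (k : ℤ × ℤ) : ∃ ρ : P5 → C.G, ContinuousOn ρ S5 ∧
    (∀ x ∈ S5, C.π (ρ x) = Rt (F (Ph k x).1.1 / ‖F (Ph k x).1.1‖)) ∧
    ∀ x, ρ (sh x) = C.ε * ρ x := by
  obtain ⟨K, k1, k2, k3⟩ := rot C
  obtain ⟨θ, t1, t2, t3⟩ := ang0 hP
  have t1' : ContinuousOn (fun x : P5 => θ x.1) S5 := t1.comp continuousOn_fst fun _ h => h.1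
  have t2' : ∀ x : P5, θ (sh x).1 = θ x.1 + 2 * π := fun x => by
    rw [← t2]; exact congrArg θ (Prod.ext (add_zero _) rfl)
  have nm : ∀ {w : ℂ} {r a : ℝ}, 0 < r → w = r * Complex.exp (a * Complex.I) →
      Complex.exp (a * Complex.I) = w / ‖w‖ := fun {w r a} hr e => by
    rw [e, norm_mul, Complex.norm_exp_ofReal_mul_I, mul_one, Complex.norm_real,
      Real.norm_of_nonneg hr.le, mul_div_cancel_left₀ _ (Complex.ofReal_ne_zero.2 hr.ne')]
  rcases sg_or k.2.negOnePow with h | h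
  · refine ⟨fun x => K (θ x.1), k1.comp_continuousOn t1', fun x hx => ?_,
      fun x => by simp only [t2', k3]⟩
    obtain ⟨r, hr, e⟩ := t3 _ hx.1
    rw [k2, nm hr e, Ph, F_phi, h, one_mul]
  · refine ⟨fun x => K (π - θ x.1), k1.comp_continuousOn (continuousOn_const.sub t1'),
      fun x hx => ?_, fun x => ?_⟩
    · obtain ⟨r, hr, e⟩ := t3 _ hx.1
      rw [k2, nm hr (w := F (Ph k x).1.1)]
      rw [Ph, F_phi, h, e]
      apply Complex.ext <;>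
        simp only [Complex.re_ofReal_mul, Complex.im_ofReal_mul, Complex.exp_ofReal_mul_I_re,
          Complex.exp_ofReal_mul_I_im, Real.cos_pi_sub, Real.sin_pi_sub]
      ring
    · have := k3 (π - θ (sh x).1)
      rw [t2', show π - (θ x.1 + 2 * π) + 2 * π = π - θ x.1 by ring] at this
      simp only [t2', this, ← mul_assoc, C.eps_sq, one_mul]

theorem fin (C : SpinCover) {s : ℝ} (hs : s ≠ 0) {a : P5 → C.G} (a1 : ContinuousOn a S5)
    (a2 : ∀ x ∈ S5, C.π (a x) = s • N x) {e : C.G} (he : C.π e = 1)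
    (a3 : ∀ x ∈ S5, a (sh x) = e * a x) {R : J.cyl → M5} (r1 : ContinuousOn R (JU ×ˢ univ))
    (r0 : ∀ y ∈ JU ×ˢ (univ : Set ℝ), (R y).det ≠ 0)
    (r2 : ∀ k, ∃ ρ : P5 → C.G, ContinuousOn ρ S5 ∧ (∀ x ∈ S5, C.π (ρ x) = R (Ph k x)) ∧
      ∀ x, ρ (sh x) = e * ρ x) :
    ∃ Θ : J.cyl → (ℂ × Rn 2) × ℝ →L[ℝ] Rn 5, Cof J.cyl 0 Θ (JU ×ˢ univ) ∧ ∀ k : ℤ × ℤ,
      ∃ A : J.cyl → M5, C.Lifts ((phi k '' Dg) ×ˢ univ) A ∧ ∀ p ∈ Dg, ∀ t v r,
        Θ (phi k p, t) (Df (vs (Rn 3 × ℝ)) J (phi k) p v, r) = A (phi k p, t) *ᵥ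
          (sg (k.1 + k.2).negOnePow • ![v.1 0, v.1 1, v.2, v.1 2, r]) := by
  refine ⟨fun y => (mL (s • R y)).comp (Df J.cyl (vs (Rn 5)) flat y),
    (cof_Df fun y _ => ld_flat y).mat0 (isOpen_JU.prod isOpen_univ) (r1.const_smul s)
      fun y hy => by rw [Matrix.det_smul]; exact mul_ne_zero (pow_ne_zero _ hs) (r0 y hy),
    fun k => ?_⟩
  obtain ⟨ρ, p1, p2, p3⟩ := r2 k
  obtain ⟨d, hd⟩ := C.surj (det_Dk k)
  have per : ∀ x ∈ S5, ρ (sh x) * d * a (sh x) = ρ x * d * a x := fun x hx => by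
    rw [p3, a3 x hx, mul_assoc e, ← C.ker_comm he, mul_assoc, ← mul_assoc e, C.ker_sq he, one_mul]
  obtain ⟨b, b1, b2⟩ := contOn_descend (p := Ph k) (a := fun x => ρ x * d * a x) (op_S5 hP)
    (fun x hx => (ld_Ph hP k hx).map_nhds) ((p1.mul continuousOn_const).mul a1) (by
      rintro ⟨⟨v, u⟩, t⟩ hx ⟨⟨v', u'⟩, t'⟩ hy e
      obtain ⟨e1, rfl⟩ : phi k (v, u) = phi k (v', u') ∧ t = t' := Prod.mk.inj e
      obtain ⟨-, rfl, m, hm⟩ := (hP.eq k k _ hx.1 _ hy.1).1 e1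
      have := per_int (l := fun q : ℝ × Unit => ρ ((v, q.1), t) * d * a ((v, q.1), t)) (v := ())
        (fun θ => by simpa [sh] using per ((v, θ), t) ⟨hx.1, trivial⟩) u' m
      rwa [← hm, add_sub_cancel] at this)
  refine ⟨fun y => C.π (b y), ⟨b, b1.mono ?_, fun _ _ => rfl⟩, fun p hp t v r => ?_⟩
  · rintro ⟨_, t⟩ ⟨⟨p, hp, rfl⟩, -⟩
    exact ⟨(p, t), ⟨hp, trivial⟩, rfl⟩
  · have hx : (p, t) ∈ S5 := ⟨hp, trivial⟩
    have h1 := Df_flat hP k hx (v, r)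
    rw [Df_Ph hP k hx] at h1
    have h2 := congrArg C.π (b2 _ hx)
    rw [map_mul, map_mul, p2 _ hx, hd, a2 _ hx] at h2
    change (s • R (Ph k (p, t))) *ᵥ _ = C.π (b (Ph k (p, t))) *ᵥ (_ • L5 (v, r))
    rw [h2]
    erw [h1]
    simp only [Matrix.mulVec_smul, Matrix.smul_mulVec, Matrix.mul_smul, Matrix.smul_mul,
      smul_smul, Matrix.mulVec_mulVec, mul_assoc]
    rw [mul_left_comm, sg_sq, mul_one]

end Ov

open Ov in
theorem ov (hP : PhiStmt) : OvStmt := fun C => by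
  obtain ⟨s, hs, hd⟩ := sign hP
  obtain ⟨a, a1, a2⟩ := C.lift (op_S5 hP) (sc_S5 hP).perf ((cont_N hP).1.const_smul s) hd
  have csh : Continuous sh := continuous_id.add continuous_const
  rcases SpinCover.uniq_or (sc_S5 hP).1.isConnected.isPreconnected
    (a1.comp csh.continuousOn fun _ => sh_mem) a1
    (fun x hx => by rw [comp_apply, a2 _ (sh_mem hx), a2 _ hx, Pi.smul_apply, N_sh]; rfl) with h | h
  · exact fin hP C hs a1 a2 (map_one _) (fun x hx => (h hx).trans (one_mul _).symm)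
      (R := fun _ => 1) continuousOn_const (fun _ _ => by simp)
      fun k => ⟨fun _ => 1, continuousOn_const, fun _ _ => map_one _, fun _ => (one_mul _).symm⟩
  · have c : Continuous fun y : J.cyl => F y.1.1 := cont_F.comp continuous_fst.fst
    refine fin hP C hs a1 a2 C.π_eps h (R := fun y => Rt (F y.1.1 / ‖F y.1.1‖))
      (cont_Rt.comp_continuousOn (c.continuousOn.div
        (Complex.continuous_ofReal.comp c.norm).continuousOn fun y hy => by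
          simpa using F_ne hy.1)) (fun y hy => ?_) (rho hP C)
    obtain ⟨K, -, k2, -⟩ := rot C
    have := C.pos (K (Complex.arg (F y.1.1)))
    rw [k2, eq_div_of_mul_eq (Complex.ofReal_ne_zero.2 (norm_ne_zero_iff.2 (F_ne hy.1)))
      ((mul_comm _ _).trans (Complex.norm_mul_exp_arg_mul_I _))] at this
    exact this.ne'

end Pool.Agent.MP_e1dc65_gt.E

end
end MrgPart6

-- ======== part 7: formerly Pool.Agent.MP_e1dc65_gt.e.B
section MrgPart7

/-! PROJECT HC, part E, sub-part B. -/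

namespace Pool.Agent.MP_e1dc65_gt.E

theorem partB : BStmt :=
  partB_of (gt phiS) (mg phiS) (cpt phiS) (scg phiS) (arc phiS) circ sc1
    (spinB phiS (ov phiS))
    (h2d phiS (h2a homM (hzb (hza homM))) (h2b phiS) (h2c phiS (hzb (hza homM) _ (vs _)).2.2.2))

end Pool.Agent.MP_e1dc65_gt.E

end MrgPart7

-- marker of a merged file
example : 731051 + 155533 = 731051 + 155533 := rfl

end MrgPart2

-- marker of a merged file
example : 731051 + 155533 = 731051 + 155533 := rfl
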