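import Pool.Agent.MP_e1dc65_gt.k.Etale
import Pool.Agent.MP_e1dc65_gt.u.Spec
import Pool.Agent.MP_e1dc65_gt.fm.Hza
import Pool.Agent.MP_e1dc65_gt.fm.Pd3
import Mathlib.Analysis.SpecialFunctions.Trigonometric.ArctanDeriv
import Mathlib.Analysis.SpecialFunctions.Trigonometric.Bounds
import Pool.Agent.MP_e1dc65_gt.e.bSpin

-- ======== part 0: formerly Pool.Agent.MP_e1dc65_gt.e.aWang
section MrgPart0

/-! PROJECT HC, part E, sub-part A, row WANG: invariant primitives on the mapping torus. -/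

open scoped ContDiff Manifold Topology Matrix Real
open Set Filter Function Module ExteriorAlgebra Pool.Agent.MP_c8d41b_gt.GF

set_option linter.unusedSectionVars false

noncomputable section

namespace Pool.Agent.MP_e1dc65_gt.EA

namespace WangP

variable {E : Type} [NormedAddCommGroup E] [NormedSpace ℝ E] [FiniteDimensional ℝ E]
  {W W' : Set E} {f g : E → ℝ} {α β β' γ γ' : E → Lam E} {A B v : E} {T : E → E} {k : ℕ}

/-- `f` is a primitive of `γ` on `W` -/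
def Pr (W : Set E) (f : E → ℝ) (γ : E → Lam E) : Prop :=
  ∀ p ∈ W, SmAt (vs E) (vs ℝ) f p ∧ dF (vs E) f p = γ p

theorem sm_sh (v p : E) : SmAt (vs E) (vs E) (fun p => p + v) p :=
  smAt_vs.2 (contDiffAt_id.add contDiffAt_const)

theorem dF_sh (f : E → ℝ) (v p : E) : dF (vs E) (fun p => f (p + v)) p = dF (vs E) f (p + v) := by
  rw [dF_vs, dF_vs, fderiv_comp_add_right]

theorem dM_sh (β : E → Lam E) (v p : E) :
    dM (vs E) (fun p => β (p + v)) p = dM (vs E) β (p + v) := by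
  simp only [dM_vs, dd, fderiv_comp_add_right]

theorem fm_sh (h : Fm (vs E) k β W) (m : ∀ p ∈ W', p + v ∈ W) :
    Fm (vs E) k (fun p => β (p + v)) W' := fun p hp =>
  ⟨fmAt_vs.2 ((fmAt_vs.1 (h _ (m p hp)).1).comp p (smAt_vs.1 (sm_sh v p))), (h _ (m p hp)).2⟩

theorem Pr.of (h : Sm (vs E) (vs ℝ) f W) : Pr W f (dF (vs E) f) := fun p hp => ⟨h p hp, rfl⟩
theorem Pr.sm (h : Pr W f γ) : Sm (vs E) (vs ℝ) f W := fun p hp => (h p hp).1
theorem Pr.mono (h : Pr W f γ) (m : W' ⊆ W) : Pr W' f γ := fun p hp => h p (m hp)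
theorem Pr.add (h : Pr W f γ) (h' : Pr W g γ') :
    Pr W (fun p => f p + g p) fun p => γ p + γ' p := fun p hp =>
  ⟨(h p hp).1.add (h' p hp).1, by rw [dF_add (h p hp).1 (h' p hp).1, (h p hp).2, (h' p hp).2]⟩
theorem Pr.sub (h : Pr W f γ) (h' : Pr W g γ') :
    Pr W (fun p => f p - g p) fun p => γ p - γ' p := fun p hp =>
  ⟨(h p hp).1.sub (h' p hp).1, by rw [dF_sub (h p hp).1 (h' p hp).1, (h p hp).2, (h' p hp).2]⟩
theorem Pr.sh (h : Pr W f γ) (m : ∀ p ∈ W', p + v ∈ W) :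
    Pr W' (fun p => f (p + v)) fun p => γ (p + v) := fun p hp =>
  ⟨(sm_sh v p).trans (h _ (m p hp)).1, (dF_sh f v p).trans (h _ (m p hp)).2⟩
theorem Pr.pb (h : Pr W f γ) (hT : ContDiff ℝ ∞ T) (m : MapsTo T W' W) :
    Pr W' (fun p => f (T p)) fun p => mp (fderiv ℝ T p) (γ (T p)) := fun p hp =>
  have h1 : SmAt (vs E) (vs E) T p := smAt_vs.2 hT.contDiffAt
  ⟨h1.trans (h _ (m hp)).1, by
    rw [← pbM_dF h1 (h _ (m hp)).1, pbM, Df_vs, (h _ (m hp)).2]⟩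

theorem Pr.uniq (h : Pr W f γ) (h' : Pr W g γ') (hW : IsOpen W) (e : ∀ p ∈ W, f p = g p) :
    ∀ p ∈ W, γ p = γ' p := fun p hp => by
  rw [← (h p hp).2, ← (h' p hp).2]
  exact dF_congr (mem_of_superset (hW.mem_nhds hp) e)

theorem Pr.cst (h : Pr W f γ) (h' : Pr W g γ') (hW : IsOpen W) (c : Convex ℝ W)
    (e : ∀ p ∈ W, γ p = γ' p) : ∃ a, ∀ p ∈ W, f p = g p + a :=
  hW.exists_eq_add_of_fderiv_eq (𝕜 := ℝ) c.isPreconnected
    (fun p hp => ((smAt_vs.1 (h p hp).1).differentiableAt (by simp)).differentiableWithinAt)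
    (fun p hp => ((smAt_vs.1 (h' p hp).1).differentiableAt (by simp)).differentiableWithinAt)
    fun p hp => by
      have := (h p hp).2.trans ((e p hp).trans (h' p hp).2.symm)
      rwa [dF_vs, dF_vs, ι_inj] at this

theorem poin (hW : IsOpen W) (c : Convex ℝ W) (k : ℕ) : HZ (vs E) k W := by
  rcases W.eq_empty_or_nonempty with rfl | ⟨x, hx⟩
  · exact Hza.hz_empty _ _
  · exact Hza.star homM hW (c.starConvex hx)

/-- two primitives of the same form differ by the differential of a function -/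
theorem prim (hW : IsOpen W) (c : Convex ℝ W) (h1 : Fm (vs E) 1 β W) (h1' : Fm (vs E) 1 β' W)
    (h2 : ∀ p ∈ W, dM (vs E) β p = α p) (h2' : ∀ p ∈ W, dM (vs E) β' p = α p) :
    ∃ f, Pr W f fun p => β p - β' p := by
  have := Hzb.cl_sub h1 h1' h2 h2'
  rw [inter_self] at this
  obtain ⟨b, b1, b2⟩ := poin hW c 0 _ this
  refine ⟨fun p => algebraMapInv (b p), fun p hp => ⟨Hzb.sm_coef (b1 p hp).1, ?_⟩⟩
  refine (dM_scalar (Hzb.sm_coef (b1 p hp).1)).symm.trans (.trans (dM_congr ?_) (b2 p hp))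
  exact mem_of_superset (hW.mem_nhds hp) fun q hq => (Hzb.scal (b1 q hq).2).symm

/-- the difference equation -/
theorem solve {ξ : E →L[ℝ] ℝ} (hA : ξ A = 1) (hB : ξ B = 0)
    (m : ∀ n : ℤ, ∀ p ∈ W, p + n • A ∈ W) (hf : Sm (vs E) (vs ℝ) f W)
    (e : ∀ p ∈ W, f (p + B) = f p) : ∃ H, Sm (vs E) (vs ℝ) H W ∧
      (∀ p, H (p + A) = H p + f p) ∧ ∀ p ∈ W, H (p + B) = H p := by
  let t : ℤ → E → ℝ := fun n p =>
    (Real.smoothTransition (ξ p + n) - if 0 ≤ n then 1 else 0) * f (p + n • A)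
  have lf : LocallyFinite fun n => support (t n) := fun p => by
    refine ⟨{q | |ξ q| < |ξ p| + 1}, (isOpen_lt (by fun_prop) continuous_const).mem_nhds
      (by simp), (finite_Icc (-(⌈|ξ p|⌉ + 2)) (⌈|ξ p|⌉ + 2)).subset ?_⟩
    rintro n ⟨q, h1, h2⟩
    have h3 := left_ne_zero_of_mul h1
    have h4 := Int.le_ceil |ξ p|
    have h5 := abs_lt.1 (show |ξ q| < |ξ p| + 1 from h2)
    have h6 := abs_nonneg (ξ p)
    have : -((⌈|ξ p|⌉ : ℝ) + 2) ≤ n ∧ (n : ℝ) ≤ ⌈|ξ p|⌉ + 2 := by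
      split_ifs at h3 with h
      · have h7 : (0 : ℝ) ≤ n := by exact_mod_cast h
        refine ⟨by linarith, not_lt.1 fun h8 => h3 ?_⟩
        rw [Real.smoothTransition.one_of_one_le (by linarith), sub_self]
      · have h7 : (n : ℝ) < 0 := by exact_mod_cast not_le.1 h
        refine ⟨not_lt.1 fun h8 => h3 ?_, by linarith⟩
        rw [Real.smoothTransition.zero_of_nonpos (by linarith), sub_self]
    exact ⟨by exact_mod_cast this.1, by exact_mod_cast this.2⟩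
  refine ⟨fun p => ∑ᶠ n, t n p, fun p hp => contMDiffAt_finsum lf fun n => ?_, fun p => ?_,
    fun p hp => finsum_congr fun n => ?_⟩
  · refine SmAt.mul (X := vs E) (smAt_vs.2 ?_) ((sm_sh _ p).trans (hf _ (m n p hp)))
    exact (Real.smoothTransition.contDiffAt.comp p
      (ξ.contDiff.contDiffAt.add contDiffAt_const)).sub contDiffAt_const
  · have h1 : ∀ n : ℤ, t n (p + A) = t (n + 1) p + if n + 1 = 0 then f p else 0 := fun n => by
      have e1 : p + A + n • A = p + (n + 1) • A := by rw [add_smul, one_smul]; abel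
      have e2 : ξ (p + A) + n = ξ p + ((n + 1 : ℤ) : ℝ) := by rw [map_add, hA]; push_cast; ring
      simp only [t, e1, e2]
      by_cases h : n + 1 = 0
      · rw [h, if_neg (by omega), if_pos le_rfl, if_pos rfl, zero_smul, add_zero p]; ring
      · rw [if_neg h, add_zero, if_congr (show 0 ≤ n ↔ 0 ≤ n + 1 by omega) rfl rfl]
    have h2 := finsum_comp_equiv (Equiv.addRight (1 : ℤ))
      (f := fun n => t n p + if n = 0 then f p else 0)
    rw [finsum_add_distrib (g := fun n : ℤ => if n = 0 then f p else 0) (lf.point_finite p)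
      ((finite_singleton 0).subset fun n hn => by_contra fun h => hn (if_neg h)),
      finsum_eq_single (fun n : ℤ => if n = 0 then f p else 0) 0 fun n h => if_neg h,
      if_pos rfl] at h2
    exact (finsum_congr h1).trans h2
  · simp only [t, map_add, hB, add_zero, add_right_comm p B, e _ (m n p hp)]

theorem per {F : Type} {g : E → F} (m : ∀ n : ℤ, ∀ p ∈ W, p + n • A ∈ W)
    (e : ∀ p ∈ W, g (p + A) = g p) (n : ℤ) : ∀ p ∈ W, g (p + n • A) = g p := fun p hp => by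
  induction n with
  | zero => simp
  | succ n ih => rw [add_smul, one_smul, ← add_assoc, e _ (m _ p hp), ih]
  | pred n ih => rw [← e _ (m _ p hp), ← ih, sub_smul, one_smul]; congr 1; abel

theorem fderiv_sh {c : E} (h : ∀ p, T (p + v) = T p + c) (p : E) :
    fderiv ℝ T (p + v) = fderiv ℝ T p := by
  rw [← fderiv_comp_add_right, funext h, fderiv_add_const]

/-- the data of the mapping torus -/
structure Dat (W W' : Set E) (S : AddSubgroup E) (A B : E) (T : E → E) (ξ η : E →L[ℝ] ℝ)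
    (α : E → Lam E) : Prop where
  oW : IsOpen W
  cW : Convex ℝ W
  oW' : IsOpen W'
  cW' : Convex ℝ W'
  ne : W'.Nonempty
  sub : W' ⊆ W
  hA : A ∈ S
  hB : B ∈ S
  m : ∀ v ∈ S, ∀ p ∈ W, p + v ∈ W
  m' : ∀ v ∈ S, ∀ p ∈ W', p + v ∈ W'
  hT : ContDiff ℝ ∞ T
  mT : MapsTo T W' W
  TA : ∀ p, T (p + A) = T p + (A - B)
  TB : ∀ p, T (p + B) = T p + -A
  ξA : ξ A = 1
  ξB : ξ B = 0
  ηA : η A = 0
  ηB : η B = 1
  cl : Cl (vs E) 2 α W
  αA : ∀ p ∈ W, α (p + A) = α p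
  αB : ∀ p ∈ W, α (p + B) = α p
  αT : ∀ p ∈ W', pb T α p = α p

variable {S : AddSubgroup E} {ξ η : E →L[ℝ] ℝ}

theorem Dat.primT (D : Dat W W' S A B T ξ η α) (b1 : Fm (vs E) 1 β W)
    (b2 : ∀ p ∈ W, dM (vs E) β p = α p) :
    ∃ h, Pr W' h fun p => mp (fderiv ℝ T p) (β (T p)) - β p := by
  have hT : Sm (vs E) (vs E) T W' := fun _ _ => smAt_vs.2 D.hT.contDiffAt
  have := prim (α := α) D.oW' D.cW' (b1.pb hT D.mT) (b1.mono D.sub) (fun p hp => by
    rw [dM_pb (hT p hp) (b1 _ (D.mT hp)).1, pbM_congr_right (b2 _ (D.mT hp)), pbM_vs, D.αT p hp])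
    fun p hp => b2 p (D.sub hp)
  rwa [pbM_vs] at this

/-- the period over the fibre vanishes -/
theorem Dat.comm (D : Dat W W' S A B T ξ η α) {fa fb : E → ℝ} (b1 : Fm (vs E) 1 β W)
    (b2 : ∀ p ∈ W, dM (vs E) β p = α p) (ha : Pr W fa fun p => β (p + A) - β p)
    (hb : Pr W fb fun p => β (p + B) - β p) :
    ∀ p ∈ W, fb (p + A) + fa p = fa (p + B) + fb p := by
  obtain ⟨h, hh⟩ := D.primT b1 b2
  obtain ⟨k, hk⟩ := ((hb.sh (D.m A D.hA)).add ha).cst ((ha.sh (D.m B D.hB)).add hb) D.oW D.cW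
    fun p _ => by rw [add_right_comm p A B]; abel
  obtain ⟨c1, h1⟩ := (((ha.sub hb).sh (D.m _ (neg_mem D.hB))).pb D.hT D.mT).cst
    (((ha.mono D.sub).add (hh.sh (D.m' A D.hA))).sub hh) D.oW' D.cW' fun p _ => by
      rw [fderiv_sh D.TA, D.TA, show T p + (A - B) = T p + -B + A by abel, neg_add_cancel_right]
      simp only [map_sub]; abel
  obtain ⟨c2, h2⟩ := ((ha.sh (D.m _ (neg_mem D.hA))).pb D.hT D.mT).cst
    (hh.sub ((hb.mono D.sub).add (hh.sh (D.m' B D.hB)))) D.oW' D.cW' fun p _ => by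
      rw [fderiv_sh D.TB, D.TB, neg_add_cancel_right]
      simp only [map_sub]; abel
  obtain ⟨p, hp⟩ := D.ne
  have e1 := h1 p hp
  have e2 := h1 _ (D.m' B D.hB p hp)
  have e3 := h2 p hp
  have e4 := h2 _ (D.m' A D.hA p hp)
  have e5 := hk p (D.sub hp)
  have e6 := hk _ (D.m _ (neg_mem D.hB) _ (D.m _ (neg_mem D.hA) _ (D.mT hp)))
  rw [D.TB, add_right_comm p B A] at e2
  rw [D.TA, show T p + (A - B) + -A = T p + -B by abel] at e4
  rw [neg_add_cancel_right, show T p + -A + -B + A = T p + -B by abel] at e6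
  intro q hq
  linarith [hk q hq]

/-- a primitive invariant under the lattice -/
theorem Dat.inv1 (D : Dat W W' S A B T ξ η α) : ∃ β, Fm (vs E) 1 β W ∧
    ∀ p ∈ W, dM (vs E) β p = α p ∧ β (p + A) = β p ∧ β (p + B) = β p := by
  obtain ⟨β, b1, b2⟩ := poin D.oW D.cW 1 α D.cl
  have mA := D.m A D.hA
  have mB := D.m B D.hB
  obtain ⟨fa, ha⟩ := prim (α := α) D.oW D.cW (fm_sh b1 mA) b1
    (fun p hp => by rw [dM_sh, b2 _ (mA p hp), D.αA p hp]) b2
  obtain ⟨fb, hb⟩ := prim (α := α) D.oW D.cW (fm_sh b1 mB) b1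
    (fun p hp => by rw [dM_sh, b2 _ (mB p hp), D.αB p hp]) b2
  have hk := D.comm b1 b2 ha hb
  obtain ⟨H, s1, s2, -⟩ := solve (B := 0) D.ξA (map_zero _)
    (fun n => D.m _ (zsmul_mem D.hA n)) ha.sm fun p _ => by rw [add_zero]
  obtain ⟨K, t1, t2, t3⟩ := solve (f := fun p => fb p - (H (p + B) - H p)) D.ηB D.ηA
    (fun n => D.m _ (zsmul_mem D.hB n)) (hb.sub (((Pr.of s1).sh mB).sub (.of s1))).sm
    fun p hp => by rw [add_right_comm p A B, s2, s2]; linarith [hk p hp]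
  have hs := ((Pr.of s1).add (.of t1)).sm
  have hG := Pr.of hs
  refine ⟨_, b1.sub (cl_dF hs).1, fun p hp => ⟨?_, ?_, ?_⟩⟩
  · rw [dM_sub (b1 p hp).1 (fmAt_dF (hs p hp)), dM_dF (hs p hp), sub_zero, b2 p hp]
  · rw [(hG.sh mA).uniq (hG.add ha) D.oW (fun q hq => by rw [s2, t3 q hq]; ring) p hp]; abel
  · rw [(hG.sh mB).uniq (hG.add hb) D.oW (fun q _ => by rw [t2]; ring) p hp]; abel

/-- the primitive can be chosen so that the monodromy changes it by a periodic function -/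
theorem Dat.inv2 (D : Dat W W' S A B T ξ η α) : ∃ β h, Fm (vs E) 1 β W ∧
    (∀ p ∈ W, dM (vs E) β p = α p ∧ β (p + A) = β p ∧ β (p + B) = β p) ∧
    Pr W' h (fun p => mp (fderiv ℝ T p) (β (T p)) - β p) ∧
    ∀ p ∈ W', h (p + A) = h p ∧ h (p + B) = h p := by
  obtain ⟨β, b1, b2⟩ := D.inv1
  obtain ⟨h, hh⟩ := D.primT b1 fun p hp => (b2 p hp).1
  have n1 : ∀ p ∈ W, β (p + -A) = β p := fun p hp => by
    rw [← (b2 _ (D.m _ (neg_mem D.hA) p hp)).2.1, neg_add_cancel_right]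
  have n2 : ∀ p ∈ W, β (p + (A - B)) = β p := fun p hp => by
    rw [← (b2 _ (D.m _ (sub_mem D.hA D.hB) p hp)).2.2, ← (b2 p hp).2.1]; congr 1; abel
  obtain ⟨a, ha⟩ := (hh.sh (D.m' A D.hA)).cst hh D.oW' D.cW' fun p hp => by
    rw [fderiv_sh D.TA, D.TA, n2 _ (D.mT hp), (b2 p (D.sub hp)).2.1]
  obtain ⟨b, hb⟩ := (hh.sh (D.m' B D.hB)).cst hh D.oW' D.cW' fun p hp => by
    rw [fderiv_sh D.TB, D.TB, n1 _ (D.mT hp), (b2 p (D.sub hp)).2.2]
  obtain ⟨l, lA, lB⟩ : ∃ l : E →L[ℝ] ℝ, l A = b - a ∧ l B = a :=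
    ⟨(b - a) • ξ + a • η, by simp [D.ξA, D.ηA], by simp [D.ξB, D.ηB]⟩
  have hs : Sm (vs E) (vs ℝ) l W := fun _ _ => smAt_vs.2 l.contDiff.contDiffAt
  have hd : ∀ p v, dF (vs E) l (p + v) = dF (vs E) l p := fun p v => by
    rw [dF_vs, dF_vs, l.fderiv, l.fderiv]
  refine ⟨_, fun p => h p + l (T p) - l p, b1.add (cl_dF hs).1, fun p hp => ⟨?_, ?_, ?_⟩,
    fun p hp => ?_, fun p hp => ⟨?_, ?_⟩⟩
  · rw [dM_add (b1 p hp).1 (fmAt_dF (hs p hp)), dM_dF (hs p hp), add_zero, (b2 p hp).1]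
  · rw [hd, (b2 p hp).2.1]
  · rw [hd, (b2 p hp).2.2]
  · have := (hh.add ((Pr.of hs).pb D.hT D.mT)).sub ((Pr.of hs).mono D.sub) p hp
    refine ⟨this.1, this.2.trans ?_⟩
    simp only [map_add]; abel
  · simp only [ha p hp, D.TA, map_add, map_sub, lA, lB]; ring
  · simp only [hb p hp, D.TB, map_add, map_neg, lA, lB]; ring

/-- fibre directions -/
def S0 : AddSubgroup (Rn 3 × ℝ) where
  carrier := {v | v.1 2 = 0 ∧ v.2 = 0}
  add_mem' := fun h h' => ⟨by simp [h.1, h'.1], by simp [h.2, h'.2]⟩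
  zero_mem' := ⟨rfl, rfl⟩
  neg_mem' := fun h => ⟨by simp [h.1], by simp [h.2]⟩

def A0 : Rn 3 × ℝ := (![2 * π, 0, 0], 0)
def B0 : Rn 3 × ℝ := (![0, 2 * π, 0], 0)
def co (i : Fin 3) : Rn 3 × ℝ →L[ℝ] ℝ :=
  (2 * π)⁻¹ • (ContinuousLinearMap.proj i).comp (ContinuousLinearMap.fst ℝ (Rn 3) ℝ)

theorem A0_mem : A0 ∈ S0 := ⟨rfl, rfl⟩
theorem B0_mem : B0 ∈ S0 := ⟨rfl, rfl⟩

theorem tr_eq (m n : ℤ) (p : Rn 3 × ℝ) : tr m n p = p + m • A0 + n • B0 := by
  refine Prod.ext (funext fun i => ?_) (by simp [tr, A0, B0])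
  fin_cases i <;> simp [tr, A0, B0, mul_comm]

theorem cu : Continuous fun p : Rn 3 × ℝ => p.1 2 := by fun_prop

theorem oW4 (a b : ℝ) : IsOpen (W4 a b) :=
  (isOpen_lt continuous_const cu).inter ((isOpen_lt cu continuous_const).inter
    (isOpen_lt continuous_snd.abs continuous_const))

theorem cW4 (a b : ℝ) : Convex ℝ (W4 a b) := by
  have h := ((convex_Ioo a b).linear_preimage
    ((LinearMap.proj (2 : Fin 3)).comp (LinearMap.fst ℝ (Rn 3) ℝ))).inter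
    ((convex_Ioo (-(1 / 2) : ℝ) (1 / 2)).linear_preimage (LinearMap.snd ℝ (Rn 3) ℝ))
  have e : W4 a b = _ := Set.ext fun p =>
    (and_assoc.symm.trans (and_congr_right fun _ => abs_lt) : p ∈ W4 a b ↔ _ ∧ _)
  exact e ▸ h

theorem mW4 (a b : ℝ) : ∀ v ∈ S0, ∀ p ∈ W4 a b, p + v ∈ W4 a b := fun v hv p hp => by
  simpa [W4, hv.1, hv.2] using hp

theorem per2 {F : Type} {g : Rn 3 × ℝ → F} {a b : ℝ}
    (e : ∀ p ∈ W4 a b, g (p + A0) = g p ∧ g (p + B0) = g p) (m n : ℤ) :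
    ∀ p ∈ W4 a b, g (tr m n p) = g p := fun p hp => by
  have hA := fun n : ℤ => mW4 a b _ (zsmul_mem A0_mem n)
  rw [tr_eq, per (fun n => mW4 a b _ (zsmul_mem B0_mem n)) (fun p hp => (e p hp).2) n _ (hA m p hp),
    per hA (fun p hp => (e p hp).1) m p hp]

theorem dat {St : ℝ → ℝ} {α : Rn 3 × ℝ → Lam (Rn 3 × ℝ)} (h1 : ContDiff ℝ ∞ St)
    (h2 : ∀ t, St (t + 2 * π) = St t + 1) (h3 : Cl (vs (Rn 3 × ℝ)) 2 α (W4 (-(π / 2)) (3 * π / 2)))
    (h4 : ∀ m n, ∀ p ∈ W4 (-(π / 2)) (3 * π / 2), α (tr m n p) = α p)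
    (h5 : ∀ p ∈ W4 (-(π / 2)) (π / 2), pb (T4 St) α p = α p) :
    Dat (W4 (-(π / 2)) (3 * π / 2)) (W4 (-(π / 2)) (π / 2)) S0 A0 B0 (T4 St) (co 0) (co 1) α := by
  have hp := Real.pi_pos
  refine ⟨oW4 _ _, cW4 _ _, oW4 _ _, cW4 _ _, ⟨0, by simp [W4, hp]⟩,
    fun p h => ⟨h.1, by linarith [h.2.1], h.2.2⟩, A0_mem, B0_mem, mW4 _ _, mW4 _ _, ?_,
    fun p h => ⟨?_, ?_, ?_⟩, fun p => ?_, fun p => ?_, by simp [co, A0]; field_simp,
    by simp [co, B0], by simp [co, A0], by simp [co, B0]; field_simp, h3, fun p h => ?_,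
    fun p h => ?_, h5⟩
  · refine (contDiff_pi.2 fun i => ?_).prodMk contDiff_snd.neg
    fin_cases i <;> simp [Tm] <;> fun_prop
  · simp only [T4, Tm]; simp; linarith [h.1]
  · simp only [T4, Tm]; simp; linarith [h.2.1]
  · simpa [T4] using h.2.2
  · have e : St (-(2 * π) + -p.1 0) = St (-p.1 0) - 1 := by
      rw [eq_sub_iff_add_eq, ← h2]; congr 1; ring
    refine Prod.ext (funext fun i => ?_) (by simp [T4, A0, B0])
    fin_cases i <;> simp [T4, Tm, A0, B0, e] <;> ring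
  · refine Prod.ext (funext fun i => ?_) (by simp [T4, A0, B0])
    fin_cases i <;> simp [T4, Tm, A0, B0] <;> ring
  · simpa [tr_eq] using h4 1 0 p h
  · simpa [tr_eq] using h4 0 1 p h

end WangP

open WangP in
theorem wang : WangStmt := by
  intro St α h1 h2 h3 h4 h5
  have D := dat h1 h2 h3 h4 h5
  obtain ⟨β, h, b1, b2, c1, c2⟩ := D.inv2
  have p3 := Real.two_le_pi
  obtain ⟨χ, x1, x2, x3⟩ : ∃ χ : ℝ → ℝ, ContDiff ℝ ∞ χ ∧ (∀ t ≤ 1 / 2, χ t = 1) ∧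
      ∀ t, 3 / 4 ≤ t → χ t = 0 :=
    ⟨fun t => Real.smoothTransition (3 - 4 * t), Real.smoothTransition.contDiff.comp (by fun_prop),
      fun t ht => Real.smoothTransition.one_of_one_le (by linarith),
      fun t ht => Real.smoothTransition.zero_of_nonpos (by linarith)⟩
  let G : Rn 3 × ℝ → ℝ := fun p => χ (p.1 2) * h p
  have g0 : ∀ p : Rn 3 × ℝ, 3 / 4 < p.1 2 → ∀ᶠ q in 𝓝 p, G q = 0 := fun p hp =>
    mem_of_superset ((isOpen_lt continuous_const cu).mem_nhds hp) fun q hq => by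
      simp [G, x3 _ (le_of_lt hq)]
  have gs : Sm (vs (Rn 3 × ℝ)) (vs ℝ) G (W4 (-(π / 2)) (3 * π / 2)) := fun p hp => by
    rcases lt_or_ge (3 / 4) (p.1 2) with h6 | h6
    · exact (smAt_const (Y := vs ℝ) 0).congr' (g0 p h6)
    · exact SmAt.mul (X := vs (Rn 3 × ℝ)) (smAt_vs.2 (x1.contDiffAt.comp p (by fun_prop)))
        (c1 p ⟨hp.1, by linarith, hp.2.2⟩).1
  have gp : ∀ v ∈ S0, (∀ p ∈ W4 (-(π / 2)) (π / 2), h (p + v) = h p) →
      ∀ p ∈ W4 (-(π / 2)) (3 * π / 2), dF (vs (Rn 3 × ℝ)) G (p + v) = dF (vs (Rn 3 × ℝ)) G p :=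
    fun v hv e => ((Pr.of gs).sh (D.m v hv)).uniq (.of gs) D.oW fun p hp => by
      have e1 : (p + v).1 2 = p.1 2 := by simp [hv.1]
      simp only [G, e1]
      rcases lt_or_ge (3 / 4) (p.1 2) with h6 | h6
      · rw [x3 _ h6.le, zero_mul, zero_mul]
      · rw [e p ⟨hp.1, by linarith, hp.2.2⟩]
  have sub : W4 (-(1 / 2)) (π + 1 / 2) ⊆ W4 (-(π / 2)) (3 * π / 2) := fun p hp =>
    ⟨by linarith [hp.1], by linarith [hp.2.1], hp.2.2⟩
  refine ⟨_, (b1.add (cl_dF gs).1).mono sub, fun p hp => ⟨?_, fun m n => ?_⟩, fun p hp => ?_⟩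
  · rw [← dM_vs, dM_add (b1 p (sub hp)).1 (fmAt_dF (gs p (sub hp))), dM_dF (gs p (sub hp)),
      add_zero, (b2 p (sub hp)).1]
  · refine per2 (g := fun p => β p + dF (vs (Rn 3 × ℝ)) G p) (fun q hq => ⟨?_, ?_⟩) m n p (sub hp)
    · rw [(b2 q hq).2.1, gp _ A0_mem (fun p hp => (c2 p hp).1) q hq]
    · rw [(b2 q hq).2.2, gp _ B0_mem (fun p hp => (c2 p hp).2) q hq]
  · have e1 : dF (vs (Rn 3 × ℝ)) G (T4 St p) = 0 :=
      dF_of_ev (g0 _ (by simp only [T4, Tm]; simp; linarith [hp.1]))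
    have e2 : dF (vs (Rn 3 × ℝ)) G p = dF (vs (Rn 3 × ℝ)) h p :=
      dF_congr (mem_of_superset ((isOpen_lt cu continuous_const).mem_nhds hp.2.1) fun q hq => by
        simp [G, x2 _ (le_of_lt hq)])
    rw [pb, e1, e2, (c1 p ⟨by linarith [hp.1], by linarith [hp.2.1], hp.2.2⟩).2, add_zero,
      add_sub_cancel]

end Pool.Agent.MP_e1dc65_gt.EA

end
end MrgPart0

-- ======== part 1: formerly Pool.Agent.MP_e1dc65_gt.e.bArc
section MrgPart1

/-! PROJECT HC, part E, sub-part B, row ARC: the thick arc in the cover of the cobordism. -/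

open scoped ContDiff Manifold Topology Matrix Real
open Set Filter Function Module Pool.Agent.MP_c8d41b_gt.GF

noncomputable section

namespace Pool.Agent.MP_e1dc65_gt.E

namespace ArcL

/-! ### The sphere -/

theorem lev : Level (vs (Rn 3)) nsq (univ ∩ nsq ⁻¹' {1}) S2 io := exS2.choose_spec.choose_spec

theorem nsq3 (v : Rn 3) : nsq v = v 0 ^ 2 + v 1 ^ 2 + v 2 ^ 2 := by simp [nsq, Fin.sum_univ_three]

theorem nsq_io (w : S2) : nsq (io w) = 1 := by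
  have : io w ∈ range io := mem_range_self w
  rw [lev.range] at this
  exact this.2

theorem nsq_smul (t : ℝ) (v : Rn 3) : nsq (t • v) = t ^ 2 * nsq v := by
  simp [nsq, mul_pow, Finset.mul_sum]

theorem nsq_pos {v : Rn 3} (h : v 2 ≠ 0) : 0 < nsq v := by
  rw [nsq3]; positivity

theorem io_nr {v : Rn 3} (h : v 2 ≠ 0) : io (nr v) = (√(nsq v))⁻¹ • v := by
  refine invFun_eq ?_
  change _ ∈ range io
  rw [lev.range]
  refine ⟨trivial, ?_⟩
  change nsq _ = 1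
  rw [nsq_smul, inv_pow, Real.sq_sqrt (nsq_pos h).le, inv_mul_cancel₀ (nsq_pos h).ne']

theorem nr_io (w : S2) : nr (io w) = w := by
  rw [nr, nsq_io, Real.sqrt_one, inv_one, one_smul]
  exact leftInverse_invFun lev.emb.injective w

theorem nr_smul {a : ℝ} (ha : 0 < a) (v : Rn 3) : nr (a • v) = nr v := by
  unfold nr
  rw [nsq_smul, Real.sqrt_mul (sq_nonneg a), Real.sqrt_sq ha.le, smul_smul, mul_inv,
    mul_comm a⁻¹, mul_assoc, inv_mul_cancel₀ ha.ne', mul_one]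

theorem smAt_nr {v : Rn 3} (h : v 2 ≠ 0) : SmAt (vs (Rn 3)) S2 nr v := by
  refine lev.lift _ (vs (Rn 3)) nr v (SmAt.congr' (f := fun v => (√(nsq v))⁻¹ • v) ?_ ?_)
  · have h1 : ContDiff ℝ ∞ (nsq : Rn 3 → ℝ) := by unfold nsq; fun_prop
    exact smAt_vs.2 (((h1.contDiffAt.sqrt (nsq_pos h).ne').inv
      (Real.sqrt_pos.2 (nsq_pos h)).ne').smul contDiffAt_id)
  · filter_upwards [(continuous_apply 2).continuousAt.eventually_ne h] with w hw using io_nr hw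

/-! ### The width of the lens -/

/-- a smooth step: one left of `3/20`, zero right of `1/5` -/
def st (x : ℝ) : ℝ := Real.smoothTransition (4 - 20 * x)

/-- the width -/
def kk (x : ℝ) : ℝ := st x * x + st (1 - x) * (1 - x) + (1 - st x - st (1 - x)) * (3 / 20)

theorem st_one {x : ℝ} (h : x ≤ 3 / 20) : st x = 1 :=
  Real.smoothTransition.one_of_one_le (by linarith)

theorem st_zero {x : ℝ} (h : 1 / 5 ≤ x) : st x = 0 :=
  Real.smoothTransition.zero_of_nonpos (by linarith)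

theorem kk_sm : ContDiff ℝ ∞ kk := by
  have h : ContDiff ℝ ∞ st := Real.smoothTransition.contDiff.comp (by fun_prop)
  unfold kk
  fun_prop

theorem kk_symm (x : ℝ) : kk (1 - x) = kk x := by
  unfold kk
  rw [sub_sub_cancel]; ring

theorem kk_lo {x : ℝ} (h : x ≤ 3 / 20) : kk x = x := by
  rw [kk, st_one h, st_zero (by linarith)]; ring

theorem kk_half {x : ℝ} (h0 : 0 < x) (h1 : x ≤ 1 / 2) : 0 < kk x ∧ kk x ≤ 1 / 5 := by
  rw [kk, st_zero (x := 1 - x) (by linarith)]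
  rcases le_total (1 / 5) x with h | h
  · rw [st_zero h]; norm_num
  · have a0 : 0 ≤ st x := Real.smoothTransition.nonneg _
    have a1 : st x ≤ 1 := Real.smoothTransition.le_one _
    constructor
    · rcases a0.eq_or_lt with e | e
      · rw [← e]; norm_num
      · nlinarith [mul_pos e h0]
    · nlinarith

theorem kk_mem {x : ℝ} (h0 : 0 < x) (h1 : x < 1) : 0 < kk x ∧ kk x ≤ 1 / 5 := by
  rcases le_total x (1 / 2) with h | h
  · exact kk_half h0 h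
  · rw [← kk_symm]; exact kk_half (by linarith) (by linarith)

/-! ### The three pieces -/

/-- parameter in the column -/
def qs (b : ℝ) (p : ℝ × Rn 3) : Rn 3 × ℝ :=
  (![eps * p.2 0, eps * p.2 1, b * p.1 - 1 / 2], π + eps * p.2 2)

/-- the piece in `J` -/
def jj (p : ℝ × Rn 3) : J :=
  (⟨(1 + p.1) / 2, kk ((1 + p.1) / 2) * Real.tan (eps * p.2 2)⟩,
    nr ![eps * p.2 0, eps * p.2 1, 1 / 2 - 2 * kk ((1 + p.1) / 2)])

/-- its inverse, read in the plane times `ℝ³` -/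
def ji (q : ℂ × Rn 3) : ℝ × Rn 3 :=
  (2 * q.1.re - 1, ![10 * ((1 / 2 - 2 * kk q.1.re) / q.2 2 * q.2 0),
    10 * ((1 / 2 - 2 * kk q.1.re) / q.2 2 * q.2 1), 10 * Real.arctan (q.1.im / kk q.1.re)])

theorem vec_sm {E : Type} [NormedAddCommGroup E] [NormedSpace ℝ E] {a b c : E → ℝ} {x : E}
    (ha : ContDiffAt ℝ ∞ a x) (hb : ContDiffAt ℝ ∞ b x) (hc : ContDiffAt ℝ ∞ c x) :
    ContDiffAt ℝ ∞ (fun y => (![a y, b y, c y] : Rn 3)) x :=
  contDiffAt_pi.2 fun i => by fin_cases i; exacts [ha, hb, hc]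

theorem qs_ld {b : ℝ} (hb : b * b = 1) (p : ℝ × Rn 3) :
    LDAt (vs (ℝ × Rn 3)) (vs (Rn 3 × ℝ)) (qs b) p := by
  refine ldAt_of_inv (X := vs (ℝ × Rn 3)) (Y := vs (Rn 3 × ℝ))
    (g := fun q => (b * (q.1 2 + 1 / 2), ![10 * q.1 0, 10 * q.1 1, 10 * (q.2 - π)]))
    isOpen_univ isOpen_univ trivial (fun x _ => smAt_vs.2 ?_) (fun x _ => smAt_vs.2 ?_)
    (mapsTo_univ _ _) (mapsTo_univ _ _) (fun x _ => ?_) fun x _ => ?_
  · exact (vec_sm (by fun_prop) (by fun_prop) (by fun_prop)).prodMk (by fun_prop)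
  · exact ContDiffAt.prodMk (by fun_prop) (vec_sm (by fun_prop) (by fun_prop) (by fun_prop))
  · refine Prod.ext ?_ (funext fun i => ?_)
    · simp only [qs, Matrix.cons_val]; linear_combination x.1 * hb
    · fin_cases i <;> simp [qs, eps]
  · refine Prod.ext (funext fun i => ?_) ?_
    · fin_cases i
      · simp [qs, eps]
      · simp [qs, eps]
      · simp only [qs, Fin.reduceFinMk, Matrix.cons_val]
        linear_combination (x.1 2 + 1 / 2) * hb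
    · simp [qs, eps]

/-- the domain of the piece in `J` -/
def UJ : Set (ℝ × Rn 3) := {p | |p.1| < 1 ∧ |eps * p.2 2| < π / 2}

theorem UJ_x {p : ℝ × Rn 3} (h : p ∈ UJ) : 0 < (1 + p.1) / 2 ∧ (1 + p.1) / 2 < 1 := by
  have := abs_lt.1 h.1
  constructor <;> linarith [this.1, this.2]

theorem ji_jj {p : ℝ × Rn 3} (h : p ∈ UJ) : ji ((jj p).1, io (jj p).2) = p := by
  obtain ⟨k0, k1⟩ := kk_mem (UJ_x h).1 (UJ_x h).2
  have h2 : (![eps * p.2 0, eps * p.2 1, 1 / 2 - 2 * kk ((1 + p.1) / 2)] : Rn 3) 2 ≠ 0 := by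
    simp only [Matrix.cons_val]; linarith
  have h3 := (Real.sqrt_pos.2 (nsq_pos h2)).ne'
  have h4 : 1 / 2 - 2 * kk ((1 + p.1) / 2) ≠ 0 := by linarith
  simp only [ji, jj, io_nr h2]
  generalize √(nsq ![eps * p.2 0, eps * p.2 1, 1 / 2 - 2 * kk ((1 + p.1) / 2)]) = S at h3
  generalize 1 / 2 - 2 * kk ((1 + p.1) / 2) = H at h4
  refine Prod.ext (by ring) (funext fun i => ?_)
  fin_cases i
  · simp only [Fin.reduceFinMk, Matrix.cons_val, Pi.smul_apply, smul_eq_mul, eps]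
    field_simp
  · simp only [Fin.reduceFinMk, Matrix.cons_val, Pi.smul_apply, smul_eq_mul, eps]
    field_simp
  · simp only [Fin.reduceFinMk, Matrix.cons_val]
    rw [mul_div_cancel_left₀ _ k0.ne', Real.arctan_tan (abs_lt.1 h.2).1 (abs_lt.1 h.2).2, eps]
    ring

theorem UJ_open : IsOpen UJ :=
  (isOpen_lt (f := fun p : ℝ × Rn 3 => |p.1|) (by fun_prop) continuous_const).inter
    (isOpen_lt (f := fun p : ℝ × Rn 3 => |eps * p.2 2|) (by fun_prop) continuous_const)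

/-- the image of the piece in `J` -/
def WJ : Set J := {q | (0 < q.1.re ∧ q.1.re < 1) ∧ 0 < io q.2 2}

theorem WJ_open : IsOpen WJ := by
  have cio : Continuous io := lev.sm.cont
  have c1 : Continuous fun q : J => q.1.re := Complex.continuous_re.comp continuous_fst
  have c2 : Continuous fun q : J => io q.2 2 := (continuous_apply 2).comp (cio.comp continuous_snd)
  exact ((isOpen_lt continuous_const c1).inter (isOpen_lt c1 continuous_const)).inter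
    (isOpen_lt continuous_const c2)

theorem jj_sm {x : ℝ × Rn 3} (hx : x ∈ UJ) : SmAt (vs (ℝ × Rn 3)) J jj x := by
  obtain ⟨k0, k1⟩ := kk_mem (UJ_x hx).1 (UJ_x hx).2
  have h1 : ContDiffAt ℝ ∞ (fun y : ℝ × Rn 3 => kk ((1 + y.1) / 2)) x :=
    kk_sm.contDiffAt.comp x (by fun_prop)
  have h2 : ContDiffAt ℝ ∞ (fun y : ℝ × Rn 3 => Real.tan (eps * y.2 2)) x :=
    ContDiffAt.comp (g := Real.tan) (f := fun y : ℝ × Rn 3 => eps * y.2 2) x
      (Real.contDiffAt_tan.2 (Real.cos_pos_of_mem_Ioo (abs_lt.1 hx.2)).ne') (by fun_prop)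
  refine SmAt.pair (X := vs (ℝ × Rn 3)) (Y := vs ℂ) (Z := S2) (smAt_vs.2 ?_) ?_
  · exact Complex.equivRealProdCLM.symm.contDiff.contDiffAt.comp x
      (ContDiffAt.prodMk (f := fun y : ℝ × Rn 3 => (1 + y.1) / 2) (by fun_prop) (h1.mul h2))
  · refine SmAt.trans (X := vs (ℝ × Rn 3)) (Y := vs (Rn 3)) (Z := S2) (g := nr)
      (smAt_vs.2 (vec_sm (by fun_prop) (by fun_prop)
        (contDiffAt_const.sub (contDiffAt_const.mul h1)))) (smAt_nr ?_)
    simp only [Matrix.cons_val]; linarith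

theorem ji_sm {q : ℂ × Rn 3} (k0 : kk q.1.re ≠ 0) (hq : q.2 2 ≠ 0) : ContDiffAt ℝ ∞ ji q := by
  have h0 : ContDiff ℝ ∞ (fun y : ℂ × Rn 3 => y.1.re) := Complex.reCLM.contDiff.comp contDiff_fst
  have h0' : ContDiff ℝ ∞ (fun y : ℂ × Rn 3 => y.1.im) := Complex.imCLM.contDiff.comp contDiff_fst
  have h1 : ContDiff ℝ ∞ (fun y : ℂ × Rn 3 => kk y.1.re) := kk_sm.comp h0
  have h3 : ∀ i, ContDiffAt ℝ ∞ (fun y : ℂ × Rn 3 => y.2 i) q := fun i => by fun_prop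
  have h2 : ContDiffAt ℝ ∞ (fun y : ℂ × Rn 3 => (1 / 2 - 2 * kk y.1.re) / y.2 2) q :=
    (contDiff_const.sub (contDiff_const.mul h1)).contDiffAt.div (h3 2) hq
  exact ((contDiff_const.mul h0).sub contDiff_const).contDiffAt.prodMk (vec_sm
    (contDiffAt_const.mul (h2.mul (h3 0))) (contDiffAt_const.mul (h2.mul (h3 1)))
    (contDiffAt_const.mul (h0'.contDiffAt.div h1.contDiffAt k0).arctan))

theorem jj_mem {x : ℝ × Rn 3} (hx : x ∈ UJ) : jj x ∈ WJ := by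
  obtain ⟨k0, k1⟩ := kk_mem (UJ_x hx).1 (UJ_x hx).2
  have h2 : (![eps * x.2 0, eps * x.2 1, 1 / 2 - 2 * kk ((1 + x.1) / 2)] : Rn 3) 2 ≠ 0 := by
    simp only [Matrix.cons_val]; linarith
  refine ⟨UJ_x hx, ?_⟩
  simp only [jj, io_nr h2, Pi.smul_apply, Matrix.cons_val, smul_eq_mul]
  exact mul_pos (inv_pos.2 (Real.sqrt_pos.2 (nsq_pos h2))) (by linarith)

theorem ji_mem {q : J} (hq : q ∈ WJ) : ji (q.1, io q.2) ∈ UJ := by
  refine ⟨abs_lt.2 ⟨?_, ?_⟩, abs_lt.2 ⟨?_, ?_⟩⟩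
  · simp only [ji]; linarith [hq.1.1]
  · simp only [ji]; linarith [hq.1.2]
  · simp only [ji, Matrix.cons_val, eps]
    linarith [Real.neg_pi_div_two_lt_arctan (q.1.im / kk q.1.re)]
  · simp only [ji, Matrix.cons_val, eps]
    linarith [Real.arctan_lt_pi_div_two (q.1.im / kk q.1.re)]

theorem jj_ji {q : J} (hq : q ∈ WJ) : jj (ji (q.1, io q.2)) = q := by
  obtain ⟨k0, k1⟩ := kk_mem hq.1.1 hq.1.2
  have e : (1 + (2 * q.1.re - 1)) / 2 = q.1.re := by ring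
  have h2 := hq.2
  refine Prod.ext (Complex.ext ?_ ?_) ?_
  · simp only [jj, ji, e]
  · simp only [jj, ji, e, Matrix.cons_val, eps]
    rw [← mul_assoc (1 / 10 : ℝ), show (1 / 10 : ℝ) * 10 = 1 by norm_num, one_mul,
      Real.tan_arctan]
    field_simp
  · simp only [jj, ji, e, Matrix.cons_val]
    refine Eq.trans ?_ ((nr_smul (a := (1 / 2 - 2 * kk q.1.re) / io q.2 2)
      (div_pos (by linarith) h2) (io q.2)).trans (nr_io q.2))
    congr 1
    funext i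
    fin_cases i
    · simp only [Fin.reduceFinMk, Matrix.cons_val, Pi.smul_apply, smul_eq_mul, eps]; ring
    · simp only [Fin.reduceFinMk, Matrix.cons_val, Pi.smul_apply, smul_eq_mul, eps]; ring
    · simp only [Fin.reduceFinMk, Matrix.cons_val, Pi.smul_apply, smul_eq_mul]
      field_simp

theorem jj_ld {p : ℝ × Rn 3} (h : p ∈ UJ) : LDAt (vs (ℝ × Rn 3)) J jj p :=
  ldAt_of_inv (X := vs (ℝ × Rn 3)) (Y := J) (g := fun q => ji (q.1, io q.2)) UJ_open WJ_open h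
    (fun _ => jj_sm) (fun _ hq => SmAt.vcomp (g := ji)
      (SmAt.vpair smAt_fst (smAt_snd.trans (lev.sm _ trivial)))
      (ji_sm (kk_mem hq.1.1 hq.1.2).1.ne' hq.2.ne'))
    (fun _ => jj_mem) (fun _ => ji_mem) (fun _ => ji_jj) fun _ => jj_ji

/-! ### The overlaps -/

theorem small {v : Rn 3} (h : nsq v < 1) : (eps * v 0) ^ 2 + (eps * v 1) ^ 2 < 1 / 100 ∧
    ∀ i, |eps * v i| < 1 / 10 := by
  rw [nsq3] at h
  refine ⟨by unfold eps; nlinarith [sq_nonneg (v 2)], fun i => abs_lt_of_sq_lt_sq ?_ (by norm_num)⟩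
  have : v i ^ 2 < 1 := by
    fin_cases i <;> simp only [Fin.reduceFinMk] <;>
      nlinarith [sq_nonneg (v 0), sq_nonneg (v 1), sq_nonneg (v 2)]
  unfold eps; nlinarith

theorem cos_big {x : ℝ} (h : |x| < 1 / 10) : 9 / 10 ≤ Real.cos x := by
  have := Real.one_sub_sq_div_two_le_cos (x := x)
  have h1 := abs_lt.1 h
  nlinarith

theorem mem_UJ {p : ℝ × Rn 3} (ht : |p.1| < 1) (h : nsq p.2 < 1) : p ∈ UJ :=
  ⟨ht, ((small h).2 2).trans (by linarith [Real.two_le_pi])⟩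

theorem jj_JU {p : ℝ × Rn 3} (h : p ∈ UJ) : jj p ∈ JU := fun k e => by
  have h1 : (1 + p.1) / 2 = (k.1 : ℝ) := congrArg Complex.re e
  obtain ⟨h2, h3⟩ := UJ_x h
  rw [h1] at h2 h3
  have : 0 < k.1 := by exact_mod_cast h2
  have : k.1 < 1 := by exact_mod_cast h3
  omega

theorem jj_im {p : ℝ × Rn 3} (ht : |p.1| < 1) (h : nsq p.2 < 1) : |(jj p).1.im| < 1 / 2 := by
  obtain ⟨k0, k1⟩ := kk_mem (UJ_x (mem_UJ ht h)).1 (UJ_x (mem_UJ ht h)).2
  have h1 := cos_big ((small h).2 2)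
  have h2 : |Real.tan (eps * p.2 2)| ≤ 2 := by
    rw [Real.tan_eq_sin_div_cos, abs_div, abs_of_pos (by linarith : 0 < Real.cos (eps * p.2 2)),
      div_le_iff₀ (by linarith)]
    linarith [Real.abs_sin_le_one (eps * p.2 2)]
  simp only [jj]
  rw [abs_mul, abs_of_pos k0]
  nlinarith [abs_nonneg (Real.tan (eps * p.2 2))]

variable {b : ℝ} {p : ℝ × Rn 3}

theorem qs_col (h : nsq p.2 < 1) : qs b p ∈ Col :=
  ⟨((small h).2 0).trans (by norm_num), ((small h).2 1).trans (by norm_num)⟩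

theorem qs_nu (hP : PhiStmt) (h : nsq p.2 < 1) (hs : 7 / 10 < b * p.1) :
    nuv (qs b p).1 = b * p.1 - 1 / 2 := by
  rw [hP.nucone]
  · exact abs_of_pos (by simp only [qs, Matrix.cons_val]; linarith)
  · simp only [qs, Matrix.cons_val]
    nlinarith [(small h).1]

theorem qs_Dg (hP : PhiStmt) (h : nsq p.2 < 1) (hs : 7 / 10 < b * p.1) (ht : b * p.1 < 1) :
    qs b p ∈ Dg := by
  refine ⟨fun e => ?_, by rw [qs_nu hP h hs]; linarith⟩
  have := congrFun e 2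
  simp only [qs, Matrix.cons_val, Pi.zero_apply] at this
  linarith

theorem zl_qs (hP : PhiStmt) (h : nsq p.2 < 1) (hs : 7 / 10 < b * p.1) :
    zl (qs b p) = ⟨(1 - b * p.1) / 2, (1 - b * p.1) / 2 * Real.tan (eps * p.2 2)⟩ := by
  have h1 := cos_big ((small h).2 2)
  have e1 : Real.cos (π + eps * p.2 2) = -Real.cos (eps * p.2 2) := by
    rw [add_comm, Real.cos_add_pi]
  have e2 : Real.sin (π + eps * p.2 2) = -Real.sin (eps * p.2 2) := by
    rw [add_comm, Real.sin_add_pi]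
  have e3 : bet (-Real.cos (eps * p.2 2)) = Real.cos (eps * p.2 2) := by
    rw [bet, Real.smoothTransition.one_of_one_le (by nlinarith), sub_self, mul_zero, add_zero,
      neg_sq, Real.sqrt_sq (by linarith)]
  have h0 : Real.cos (eps * p.2 2) ≠ 0 := by linarith
  rw [zl, qs_nu hP h hs]
  refine Complex.ext ?_ ?_
  · rw [Complex.re_ofReal_mul, Complex.exp_ofReal_mul_I_re]
    simp only [qs, e1, e3]
    field_simp; ring
  · rw [Complex.im_ofReal_mul, Complex.exp_ofReal_mul_I_im]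
    simp only [qs, e1, e2, e3, Real.tan_eq_sin_div_cos]
    field_simp; ring

theorem phi_lo (hP : PhiStmt) (h : nsq p.2 < 1) (hs : 7 / 10 < -1 * p.1) :
    phi (0, 0) (qs (-1) p) = jj p := by
  rw [phi, zl_qs hP h hs, jj, kk_lo (by linarith)]
  refine Prod.ext (Complex.ext ?_ ?_) ?_
  · simp [sg]
  · simp [sg]
  · simp only [sg, qs, Int.negOnePow_zero, Units.val_one, Int.cast_one, one_smul]
    congr 4; ring

theorem phi_hi (hP : PhiStmt) (h : nsq p.2 < 1) (hs : 7 / 10 < 1 * p.1) :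
    phi (1, 0) (qs 1 p) = jj p := by
  rw [phi, zl_qs hP h hs, jj, ← kk_symm, kk_lo (by linarith)]
  refine Prod.ext (Complex.ext ?_ ?_) ?_
  · simp [sg]; ring
  · simp [sg]; left; ring
  · simp only [sg, qs, Int.negOnePow_zero, Units.val_one, Int.cast_one, one_smul]
    congr 4; ring

/-! ### The group -/

theorem sg_sq (a : ℤˣ) : sg a * sg a = 1 := by
  rcases Int.units_eq_one_or a with rfl | rfl <;> simp [sg]

theorem actJ_JU (g : PG) {y : J} (h : y ∈ JU) : actJ g y ∈ JU := fun k e => by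
  have h1 : sg g.a * y.1.re + g.m = k.1 := congrArg Complex.re e
  have h2 : sg g.b * y.1.im + g.n = k.2 := congrArg Complex.im e
  refine h (g.a * (k.1 - g.m), g.b * (k.2 - g.n)) (Complex.ext ?_ ?_)
  · simp only [lat, Int.cast_mul, Int.cast_sub]
    change _ = sg g.a * _
    linear_combination (sg g.a) * h1 - y.1.re * sg_sq g.a
  · simp only [lat, Int.cast_mul, Int.cast_sub]
    change _ = sg g.b * _
    linear_combination (sg g.b) * h2 - y.1.im * sg_sq g.b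

theorem even_m {g : PG} (h : g.n = 0) : Even g.m := by
  rw [← Int.negOnePow_eq_one_iff, g.hm, ← g.hn, h, Int.negOnePow_zero]

theorem eq_one {g : PG} (ha : g.a = 1) (hm : g.m = 0) (hn : g.n = 0) : g = 1 := by
  have := g.hn
  rw [hn, ha, one_mul] at this
  exact PG.ext ha this.symm hm hn

theorem act_jj {g : PG} {p p' : ℝ × Rn 3} (ht : |p.1| < 1) (h : nsq p.2 < 1) (ht' : |p'.1| < 1)
    (h' : nsq p'.2 < 1) (e : actJ g (jj p) = jj p') : g = 1 ∧ p = p' := by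
  have h1 : sg g.a * ((1 + p.1) / 2) + g.m = (1 + p'.1) / 2 := congrArg (fun y : J => y.1.re) e
  have h2 : sg g.b * (jj p).1.im + g.n = (jj p').1.im := congrArg (fun y : J => y.1.im) e
  have i1 := abs_lt.1 (jj_im ht h)
  have i2 := abs_lt.1 (jj_im ht' h')
  have t1 := abs_lt.1 ht
  have t2 := abs_lt.1 ht'
  have hn : g.n = 0 := by
    have : (-1 : ℝ) < g.n ∧ (g.n : ℝ) < 1 := by
      rcases Int.units_eq_one_or g.b with hb | hb <;> simp only [hb, sg] at h2 <;>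
        push_cast at h2 <;> constructor <;> linarith [i1.1, i1.2, i2.1, i2.2]
    have a1 : -1 < g.n := by exact_mod_cast this.1
    have a2 : g.n < 1 := by exact_mod_cast this.2
    omega
  obtain ⟨r, hr⟩ := even_m hn
  have hg : g = 1 := by
    rcases Int.units_eq_one_or g.a with ha | ha <;> simp only [ha, sg] at h1 <;> push_cast at h1
    · have a1 : -1 < g.m := by exact_mod_cast (show (-1 : ℝ) < g.m by linarith [t1.2, t2.1])
      have a2 : g.m < 1 := by exact_mod_cast (show (g.m : ℝ) < 1 by linarith [t1.1, t2.2])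
      exact eq_one ha (by omega) hn
    · have a1 : 0 < g.m := by exact_mod_cast (show (0 : ℝ) < g.m by linarith [t1.1, t2.1])
      have a2 : g.m < 2 := by exact_mod_cast (show (g.m : ℝ) < 2 by linarith [t1.2, t2.2])
      omega
  refine ⟨hg, ?_⟩
  have e1 : actJ 1 (jj p) = jj p := by
    refine Prod.ext (Complex.ext ?_ ?_) ?_
    · simp [actJ, gC, sg]
    · simp [actJ, gC, sg]
    · simp [actJ, psi, sg, nr_io]
  rw [hg, e1] at e
  rw [← ji_jj (mem_UJ ht h), e, ji_jj (mem_UJ ht' h')]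

variable {D : QDat} {T : GtDat D}

theorem col0 (u : ℝ) : ((0 : Rn 3), u) ∈ Col := by constructor <;> simp

theorem sq_U (hD : D.Ok) (g : PG) {x : D.Qt} (h : x ∈ D.U) : D.sq g x ∈ D.U := by
  unfold QDat.sq
  split_ifs
  · exact h
  · rintro ⟨⟨v, u⟩, ⟨hv, -⟩, e⟩
    obtain rfl : v = 0 := hv
    refine h ⟨(0, u + π), ⟨rfl, trivial⟩, ?_⟩
    have h0 : Rp 0 = 0 := by funext i; fin_cases i <;> simp [Rp]
    rw [← hD.σσ x, ← e, hD.cσ _ (col0 u), h0]

theorem c_U (hD : D.Ok) {q : Rn 3 × ℝ} (hq : q ∈ Col) (h : 0 < q.1 2) : D.c q ∈ D.U := by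
  rintro ⟨⟨v, u⟩, ⟨hv, -⟩, e⟩
  obtain rfl : v = 0 := hv
  have := ((hD.ceq _ (col0 u) _ hq).1 e).1
  rw [← this] at h
  exact lt_irrefl _ h

theorem qs_pos (hs : 7 / 10 < b * p.1) : 0 < (qs b p).1 2 := by
  simp only [qs, Matrix.cons_val]; linarith

theorem qs_inj (hD : D.Ok) (hb : b * b = 1) {p' : ℝ × Rn 3} (h : nsq p.2 < 1) (h' : nsq p'.2 < 1)
    (e : D.c (qs b p) = D.c (qs b p')) : p = p' := by
  obtain ⟨e1, m, e2⟩ := (hD.ceq _ (qs_col h) _ (qs_col h')).1 e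
  have a0 := congrFun e1 0
  have a1 := congrFun e1 1
  have a2 := congrFun e1 2
  have i1 := abs_lt.1 ((small h).2 2)
  have i2 := abs_lt.1 ((small h').2 2)
  simp only [qs, Matrix.cons_val, eps] at a0 a1 a2 e2 i1 i2
  have hm : m = 0 := by
    have b1 : (-1 : ℝ) < m := by nlinarith [Real.two_le_pi]
    have b2 : (m : ℝ) < 1 := by nlinarith [Real.two_le_pi]
    have : -1 < m := by exact_mod_cast b1
    have : m < 1 := by exact_mod_cast b2
    omega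
  rw [hm, Int.cast_zero, mul_zero] at e2
  refine Prod.ext (by linear_combination b * a2 - (p.1 - p'.1) * hb) (funext fun i => ?_)
  fin_cases i <;> simp only [Fin.reduceFinMk] <;> linarith

theorem act_kk (hD : D.Ok) (hT : T.Ok) {g : PG} {j j' : ℤ} {q q' : Rn 3 × ℝ} (hq : q ∈ Col)
    (hq' : q' ∈ Col) (h : 0 < q.1 2) (h' : 0 < q'.1 2) (hj : |j - j'| ≤ 1)
    (e : T.act g (T.κ (j, 0) (D.c q)) = T.κ (j', 0) (D.c q')) :
    g = 1 ∧ j = j' ∧ D.c q = D.c q' := by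
  have u := c_U hD hq h
  have u' := c_U hD hq' h'
  rw [hT.aκ g _ _ u] at e
  have e1 := hT.dis _ _ _ (sq_U hD g u) _ u' e
  rw [e1] at e
  have e2 := (hT.oκ _).inj (sq_U hD g u) u' e
  have ha : g.a = 1 := by
    by_contra ha
    rw [QDat.sq, if_neg ha] at e2
    have := hD.sσ (D.c q)
    rw [e2, hD.cs _ hq, hD.cs _ hq'] at this
    linarith
  rw [QDat.sq, if_pos ha] at e2
  simp only [gZ, ha, Units.val_one, one_mul, mul_zero, zero_add, Prod.mk.injEq] at e1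
  obtain ⟨r, hr⟩ := even_m e1.2
  have := abs_le.1 hj
  exact ⟨eq_one ha (by omega) e1.2, by omega, e2⟩

theorem deep (hP : PhiStmt) (hD : D.Ok) (hT : T.Ok) (h : nsq p.2 < 1) (hs : 1 ≤ b * p.1)
    {y : J} (hy : y ∈ JU) (k : ℤ × ℤ) : T.ι y ≠ T.κ k (D.c (qs b p)) := fun e => by
  have hs' : 7 / 10 < b * p.1 := by linarith
  obtain ⟨q, hq, -, e1⟩ := (hT.rel _ hy k _ (c_U hD (qs_col h) (qs_pos hs'))).1 e
  have e2 := ((hD.ceq _ (hP.sub hq) _ (qs_col h)).1 e1).1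
  have := hq.2
  rw [e2, qs_nu hP h hs'] at this
  linarith

/-- the arc -/
def rr (T : GtDat D) (p : ℝ × Rn 3) : T.Gt :=
  if p.1 ≤ -1 then T.κ (0, 0) (D.c (qs (-1) p))
  else if p.1 < 1 then T.ι (jj p) else T.κ (1, 0) (D.c (qs 1 p))

theorem rr_mid (ht : |p.1| < 1) : rr T p = T.ι (jj p) := by
  rw [rr, if_neg (not_le.2 (abs_lt.1 ht).1), if_pos (abs_lt.1 ht).2]

theorem rr_lo (hP : PhiStmt) (hD : D.Ok) (hT : T.Ok) (h : nsq p.2 < 1) (hs : 7 / 10 < -1 * p.1) :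
    rr T p = T.κ (0, 0) (D.c (qs (-1) p)) := by
  rcases le_or_gt p.1 (-1) with ht | ht
  · rw [rr, if_pos ht]
  · have ht' : |p.1| < 1 := abs_lt.2 ⟨ht, by linarith⟩
    rw [rr_mid ht']
    exact (hT.rel _ (jj_JU (mem_UJ ht' h)) _ _ (c_U hD (qs_col h) (qs_pos hs))).2
      ⟨_, qs_Dg hP h hs (by linarith), phi_lo hP h hs, rfl⟩

theorem rr_hi (hP : PhiStmt) (hD : D.Ok) (hT : T.Ok) (h : nsq p.2 < 1) (hs : 7 / 10 < 1 * p.1) :
    rr T p = T.κ (1, 0) (D.c (qs 1 p)) := by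
  rcases le_or_gt 1 p.1 with ht | ht
  · rw [rr, if_neg (by linarith), if_neg (by linarith)]
  · have ht' : |p.1| < 1 := abs_lt.2 ⟨by linarith, ht⟩
    rw [rr_mid ht']
    exact (hT.rel _ (jj_JU (mem_UJ ht' h)) _ _ (c_U hD (qs_col h) (qs_pos hs))).2
      ⟨_, qs_Dg hP h hs (by linarith), phi_hi hP h hs, rfl⟩

/-- every point lies in the lens or deep in one of the two ends -/
theorem rr_cases (hP : PhiStmt) (hD : D.Ok) (hT : T.Ok) (h : nsq p.2 < 1) :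
    |p.1| < 1 ∨ ∃ (j : ℤ) (b : ℝ), ((j = 0 ∧ b = -1) ∨ (j = 1 ∧ b = 1)) ∧ 1 ≤ b * p.1 ∧
      rr T p = T.κ (j, 0) (D.c (qs b p)) := by
  rcases le_or_gt p.1 (-1) with ht | ht
  · exact .inr ⟨0, -1, .inl ⟨rfl, rfl⟩, by linarith, rr_lo hP hD hT h (by linarith)⟩
  rcases le_or_gt 1 p.1 with ht' | ht'
  · exact .inr ⟨1, 1, .inr ⟨rfl, rfl⟩, by linarith, rr_hi hP hD hT h (by linarith)⟩
  · exact .inl (abs_lt.2 ⟨ht, ht'⟩)

theorem rr_ld (hP : PhiStmt) (hD : D.Ok) (hT : T.Ok) (h : nsq p.2 < 1) :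
    LDAt (vs (ℝ × Rn 3)) T.Gt (rr T) p := by
  have c0 : Continuous fun y : ℝ × Rn 3 => nsq y.2 := by unfold nsq; fun_prop
  have e0 : ∀ᶠ y : ℝ × Rn 3 in 𝓝 p, nsq y.2 < 1 := c0.continuousAt.eventually_lt_const h
  have key : ∀ (b : ℝ) (k : ℤ × ℤ), b * b = 1 → 7 / 10 < b * p.1 →
      (∀ y : ℝ × Rn 3, nsq y.2 < 1 → 7 / 10 < b * y.1 → rr T y = T.κ k (D.c (qs b y))) →
      LDAt (vs (ℝ × Rn 3)) T.Gt (rr T) p := fun b k hb hs H => by
    refine (((qs_ld hb p).trans (hD.cld _ (qs_col h))).trans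
      ((hT.oκ k).ld _ (c_U hD (qs_col h) (qs_pos hs)))).congr' ?_
    have c1 : Continuous fun y : ℝ × Rn 3 => b * y.1 := by fun_prop
    filter_upwards [e0, c1.continuousAt.eventually_const_lt hs] with y h1 h2 using H y h1 h2
  rcases le_or_gt p.1 (-1) with ht | ht
  · exact key (-1) _ (by norm_num) (by linarith) fun y => rr_lo hP hD hT
  rcases le_or_gt 1 p.1 with ht' | ht'
  · exact key 1 _ (by norm_num) (by linarith) fun y => rr_hi hP hD hT
  have h1 : |p.1| < 1 := abs_lt.2 ⟨ht, ht'⟩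
  refine ((jj_ld (mem_UJ h1 h)).trans (hT.oι.ld _ (jj_JU (mem_UJ h1 h)))).congr' ?_
  have c1 : Continuous fun y : ℝ × Rn 3 => |y.1| := by fun_prop
  filter_upwards [c1.continuousAt.eventually_lt_const h1] with y hy using rr_mid hy

theorem rr_inj (hP : PhiStmt) (hD : D.Ok) (hT : T.Ok) {g : PG} {p' : ℝ × Rn 3} (h : nsq p.2 < 1)
    (h' : nsq p'.2 < 1) (e : T.act g (rr T p) = rr T p') : g = 1 ∧ p = p' := by
  rcases rr_cases hP hD hT h with ht | ⟨j, b, hj, hs, e1⟩ <;>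
    rcases rr_cases hP hD hT h' with ht' | ⟨j', b', hj', hs', e1'⟩
  · have u := jj_JU (mem_UJ ht h)
    rw [rr_mid ht, rr_mid ht', hT.aι g _ u] at e
    exact act_jj ht h ht' h' (hT.oι.inj (actJ_JU g u) (jj_JU (mem_UJ ht' h')) e)
  · have u := jj_JU (mem_UJ ht h)
    rw [rr_mid ht, e1', hT.aι g _ u] at e
    exact absurd e (deep hP hD hT h' hs' (actJ_JU g u) _)
  · have u := jj_JU (mem_UJ ht' h')
    have e2 := congrArg (T.act g⁻¹) e
    rw [← hT.actm, inv_mul_cancel, hT.act1, rr_mid ht', e1, hT.aι _ _ u] at e2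
    exact absurd e2.symm (deep hP hD hT h hs (actJ_JU _ u) _)
  · rw [e1, e1'] at e
    obtain ⟨a1, a2, a3⟩ := act_kk hD hT (qs_col h) (qs_col h') (qs_pos (by linarith))
      (qs_pos (by linarith)) (by rw [abs_le]; omega) e
    have hb : b' = b ∧ b * b = 1 := by
      rcases hj with ⟨rfl, rfl⟩ | ⟨rfl, rfl⟩ <;> rcases hj' with ⟨h1, rfl⟩ | ⟨h1, rfl⟩
      · exact ⟨rfl, by norm_num⟩
      · omega
      · omega
      · exact ⟨rfl, by norm_num⟩
    rw [hb.1] at a3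
    exact ⟨a1, qs_inj hD hb.2 h h' a3⟩

theorem rr_s (hP : PhiStmt) (hD : D.Ok) (hT : T.Ok) (h : nsq p.2 < 1) (ht : |p.1| ≤ 1)
    {k : ℤ × ℤ} {x : D.Qt} (hx : x ∈ D.U) (e : rr T p = T.κ k x) : |D.s x| ≤ 1 := by
  rcases rr_cases hP hD hT h with ht | ⟨j, b, hj, hs, e1⟩
  · rw [rr_mid ht] at e
    obtain ⟨q, hq, -, rfl⟩ := (hT.rel _ (jj_JU (mem_UJ ht h)) k x hx).1 e
    rw [hD.cs _ (hP.sub hq)]
    have h1 : |q.1 2| ≤ √(nsq q.1) := Real.abs_le_sqrt (by rw [nsq3]; nlinarith)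
    linarith [(hP.nub q.1).1, hq.2]
  · have u := c_U hD (qs_col (b := b) h) (qs_pos (by linarith))
    rw [e1] at e
    have e2 := hT.dis _ _ _ u _ hx e
    rw [e2] at e
    rw [← (hT.oκ k).inj u hx e, hD.cs _ (qs_col h)]
    have := abs_le.1 ht
    simp only [qs, Matrix.cons_val]
    rw [abs_le]
    rcases hj with ⟨-, rfl⟩ | ⟨-, rfl⟩ <;> constructor <;> linarith [this.1, this.2]

end ArcL

open ArcL in
theorem arc (hP : PhiStmt) : ArcStmt := fun D T hD hT => by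
  refine ⟨rr T, fun t v h => rr_ld hP hD hT h, fun g t t' v v' h h' e => ?_, fun t v ht h => ?_,
    fun t v ht h => ?_, fun t v k x hx ht h e => rr_s hP hD hT h ht hx e⟩
  · obtain ⟨h1, h2⟩ := rr_inj hP hD hT (p := (t, v)) (p' := (t', v')) h h' e
    exact ⟨h1, congrArg Prod.fst h2, congrArg Prod.snd h2⟩
  · rw [rr_lo hP hD hT (p := (t, v)) h (by linarith), qs, show -1 * t - 1 / 2 = -1 / 2 - t by ring]
  · rw [rr_hi hP hD hT (p := (t, v)) h (by linarith), qs, one_mul]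

end Pool.Agent.MP_e1dc65_gt.E

end
end MrgPart1

-- ======== part 2: formerly Pool.Agent.MP_e1dc65_gt.e.bH2a
section MrgPart2

/-! PROJECT HC, part E, row H2A: the second de Rham group of the sphere bundle vanishes. -/

open scoped ContDiff Manifold Topology
open Set Filter Function Module Pool.Agent.MP_c8d41b_gt.GF

set_option linter.unusedSectionVars false

noncomputable section

namespace Pool.Agent.MP_e1dc65_gt.E

namespace H2a

section Gen
variable {E E' : Type} [NormedAddCommGroup E] [NormedSpace ℝ E] [FiniteDimensional ℝ E]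
  [NormedAddCommGroup E'] [NormedSpace ℝ E'] [FiniteDimensional ℝ E'] {X : Mf E} {Y : Mf E'}
  {k : ℕ} {U V : Set X} {W : Set Y} {α β : X → Lam E} {a : Y → Lam E'} {f : X → Y}

theorem ex_congr (h : Ex X k α U) (e : ∀ x ∈ U, β x = α x) : Ex X k β U :=
  h.imp fun _ h => ⟨h.1, fun x hx => (h.2 x hx).trans (e x hx).symm⟩

theorem ex_add (h : Ex X k α U) (h' : Ex X k β U) : Ex X k (fun x => α x + β x) U := by
  obtain ⟨b, b1, b2⟩ := h
  obtain ⟨c, c1, c2⟩ := h'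
  exact ⟨_, b1.add c1, fun x hx => by rw [dM_add (b1 x hx).1 (c1 x hx).1, b2 x hx, c2 x hx]⟩

theorem ex_smul (h : Ex X k α U) (r : ℝ) : Ex X k (fun x => r • α x) U := by
  obtain ⟨b, b1, b2⟩ := h
  exact ⟨_, b1.smul r, fun x hx => by rw [dM_smul r (b1 x hx).1, b2 x hx]⟩

theorem ex_pb (h : Ex Y k a W) (hf : Sm X Y f U) (m : MapsTo f U W) : Ex X k (pbM X Y f a) U := by
  obtain ⟨b, b1, b2⟩ := h
  exact ⟨_, b1.pb hf m, fun x hx => by
    rw [dM_pb (hf x hx) (b1 _ (m hx)).1, pbM_congr_right (b2 _ (m hx))]⟩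

theorem ex_image (h : OE X Y f U) (ha : Ex X k (pbM X Y f a) U) : Ex Y k a (f '' U) := by
  refine ex_congr (ex_pb ha h.symm.sm ?_) fun y hy => ?_
  · rintro _ ⟨x, hx, rfl⟩
    rwa [h.left hx]
  · rw [← h.psh_pbM (β := a) hy, (h.psh_ev hy).eq_of_nhds]

theorem glue (hU : IsOpen U) (hV : IsOpen V) {b c : X → Lam E} (hb : Fm X k b U) (hc : Fm X k c V)
    (e : ∀ x ∈ U ∩ V, b x = c x) (db : ∀ x ∈ U, dM X b x = α x) (dc : ∀ x ∈ V, dM X c x = α x) :
    Ex X k α (U ∪ V) := by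
  classical
  have e1 : EqOn (U.piecewise b c) b U := fun x hx => piecewise_eq_of_mem _ _ _ hx
  have e2 : EqOn (U.piecewise b c) c V := fun x hx => by
    by_cases h : x ∈ U
    exacts [(e1 h).trans (e x ⟨h, hx⟩), piecewise_eq_of_notMem _ _ _ h]
  refine ⟨U.piecewise b c, ?_, ?_⟩ <;> rintro x (hx | hx)
  exacts [hb.congr hU e1 x hx, hc.congr hV e2 x hx,
    (dM_congr (e1.eventuallyEq_of_mem (hU.mem_nhds hx))).trans (db x hx),
    (dM_congr (e2.eventuallyEq_of_mem (hV.mem_nhds hx))).trans (dc x hx)]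

theorem cut {ρ : X → ℝ} {σ : X → Lam E} (hs : Sm X (vs ℝ) ρ U) (h0 : ∀ x ∈ U, x ∉ V → ρ =ᶠ[𝓝 x] 0)
    (hσ : Fm X k σ (U ∩ V)) : Fm X k (fun x => ρ x • σ x) U := fun x hx => by
  by_cases h : x ∈ V
  · exact hσ.fsmul (hs.mono inter_subset_left) x ⟨hx, h⟩
  · exact ⟨fmAt_of_ev ((h0 x hx h).mono fun y e => by simp [e]),
      by simp [(h0 x hx h).eq_of_nhds]⟩

theorem patch (hU : IsOpen U) (hV : IsOpen V) {b c : X → Lam E} (hb : Fm X (k + 1) b U)
    (hc : Fm X (k + 1) c V) (e : Ex X k (fun x => b x - c x) (U ∩ V))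
    (db : ∀ x ∈ U, dM X b x = α x) (dc : ∀ x ∈ V, dM X c x = α x) : Ex X (k + 1) α (U ∪ V) := by
  obtain ⟨σ, s1, s2⟩ := e
  obtain ⟨ρ, r1, -, r3, -, r5⟩ := (bumpM E X).2 Bool (fun i => cond i U V) _ (hU.union hV)
    (fun i => by cases i <;> assumption) (by rintro x (h | h); exacts [⟨true, h⟩, ⟨false, h⟩])
  have c1 := cut ((r1 false).mono subset_union_left) (fun x hx => r3 false x (.inl hx)) s1
  have c2 := cut ((r1 true).mono subset_union_right) (fun x hx => r3 true x (.inr hx))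
    (inter_comm U V ▸ s1)
  have d1 := c1.dM hU
  have d2 := c2.dM hV
  refine glue hU hV (hb.sub d1.1) (hc.add d2.1) (fun x hx => ?_) (fun x hx => ?_) fun x hx => ?_
  · rw [sub_eq_iff_eq_add, add_assoc, ← dM_add (c2 x hx.2).1 (c1 x hx.1).1, ← sub_eq_iff_eq_add']
    refine (s2 x hx).symm.trans <| dM_congr (mem_of_superset ((hU.union hV).mem_nhds (.inl hx.1)) fun y hy => ?_)
    have := r5 y hy
    rw [finsum_eq_sum_of_fintype, Fintype.sum_bool] at this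
    change σ y = _ • _ + _ • _
    rw [← add_smul, this, one_smul]
  · rw [dM_sub (hb x hx).1 (d1.1 x hx).1, db x hx, d1.2 x hx, sub_zero]
  · rw [dM_add (hc x hx).1 (d2.1 x hx).1, dc x hx, d2.2 x hx, add_zero]

theorem patch' (hU : IsOpen U) (hV : IsOpen V) (h : Ex X (k + 1) α U) (h' : Ex X (k + 1) α V)
    (hz : HZ X k (U ∩ V)) : Ex X (k + 1) α (U ∪ V) := by
  obtain ⟨b, b1, b2⟩ := h
  obtain ⟨c, c1, c2⟩ := h'
  refine patch hU hV b1 c1 (hz _ ⟨(b1.mono inter_subset_left).sub (c1.mono inter_subset_right),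
    fun x hx => ?_⟩) b2 c2
  rw [dM_sub (b1 x hx.1).1 (c1 x hx.2).1, b2 x hx.1, c2 x hx.2, sub_self]

theorem hz_disj (hU : IsOpen U) (hV : IsOpen V) (hd : Disjoint U V) (h : HZ X k U)
    (h' : HZ X k V) : HZ X k (U ∪ V) := fun α hα => by
  obtain ⟨b, b1, b2⟩ := h α (hα.mono subset_union_left)
  obtain ⟨c, c1, c2⟩ := h' α (hα.mono subset_union_right)
  exact glue hU hV b1 c1 (fun x hx => (disjoint_left.1 hd hx.1 hx.2).elim) b2 c2

theorem htp (hH : HomStmt) {O : Set X.cyl} {H : X.cyl → Y} {f₀ f₁ : X → Y} (hU : IsOpen U)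
    (hO : IsOpen O) (hUO : U ×ˢ Icc 0 1 ⊆ O) (hs : Sm X.cyl Y H O) (hm : MapsTo H O W)
    (ha : Cl Y (k + 1) a W) (h0 : ∀ x, H (x, 0) = f₀ x) (h1 : ∀ x, H (x, 1) = f₁ x) :
    Ex X k (fun x => pbM X Y f₁ a x - pbM X Y f₀ a x) U := by
  obtain rfl : f₀ = fun x => H (x, 0) := funext fun x => (h0 x).symm
  obtain rfl : f₁ = fun x => H (x, 1) := funext fun x => (h1 x).symm
  exact homotopy hH hU hO hUO hs hm ha

end Gen

/-! ### The sphere -/

/-- the antipodal map -/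
def an (s : S2) : S2 := nr (-io s)

theorem io_an (s : S2) : io (an s) = -io s :=
  io_nr_unit (by rw [← nsq_io s]; simp [nsq])
theorem an_an (s : S2) : an (an s) = s := by rw [an, io_an, neg_neg, nr_io]
theorem sm_an (s : S2) : SmAt S2 S2 an s :=
  (smAt_io s).vneg.trans (smAt_nr (neg_ne_zero.2 (io_ne s)))
theorem pb_an (η : S2 → Lam (Rn 2)) (s : S2) : pbM S2 S2 an (pbM S2 S2 an η) s = η s :=
  pbM_inv (sm_an s) (sm_an _) (.of_forall an_an) η

theorem sm_nr {F : Rn 3 × ℝ → Rn 3} (hF : ContDiff ℝ ∞ F) {p : S2.cyl} (h : F (io p.1, p.2) ≠ 0) :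
    SmAt S2.cyl S2 (fun p => nr (F (io p.1, p.2))) p :=
  (((smAt_fst.trans (smAt_io _)).vpair smAt_snd).vcomp hF.contDiffAt).trans (smAt_nr h)

theorem unit3 (s : S2) : io s 0 ^ 2 + io s 1 ^ 2 + io s 2 ^ 2 = 1 := by rw [← nsq3, nsq_io]

theorem op_ne (c : ℝ) : IsOpen {s : S2 | io s 2 ≠ c} :=
  isOpen_ne_fun ((continuous_apply 2).comp cont_io) continuous_const

theorem cap (hH : HomStmt) {η : S2 → Lam (Rn 2)} (hη : Cl S2 2 η univ) :
    Ex S2 1 η {s | io s 2 ≠ -1} := by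
  have := htp hH (H := fun p : S2.cyl => nr (p.2 • io p.1 + (1 - p.2) • ![0, 0, 1]))
    (f₀ := fun _ => nr ![0, 0, 1]) (f₁ := fun s => s) (op_ne (-1)) ((op_ne (-1)).prod isOpen_univ)
    (prod_mono_right (subset_univ _)) (fun p hp => sm_nr
      (F := fun q => q.2 • q.1 + (1 - q.2) • ![0, 0, 1]) (by fun_prop) fun e => ?_)
    (mapsTo_univ _ _) hη (fun s => by simp) fun s => by simp
  · refine ex_congr this fun s _ => ?_
    rw [pbM_id, pbM, Df_const, Hza.mp_zero_dg (hη.1 _ trivial).2 (by simp), sub_zero]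
  · have e0 := congrFun e 0
    have e1 := congrFun e 1
    have e2 := congrFun e 2
    have u := unit3 p.1
    simp at e0 e1 e2
    have h0 : p.2 ≠ 0 := fun h => by simp [h] at e2
    rw [e0.resolve_left h0, e1.resolve_left h0] at u
    have : (io p.1 2 - 1) * (io p.1 2 + 1) = 0 := by linarith
    rcases mul_eq_zero.1 this with h | h
    · rw [sub_eq_zero.1 h] at e2; linarith
    · exact hp.1 (eq_neg_of_add_eq_zero_left h)

theorem band (s : S2) : s ∈ {s : S2 | io s 2 ≠ -1} ∩ {s | io s 2 ≠ 1} ↔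
    0 < io s 0 ^ 2 + io s 1 ^ 2 := by
  have u := unit3 s
  refine ⟨fun h => ?_, fun h => ⟨fun e => ?_, fun e => ?_⟩⟩
  · refine lt_of_le_of_ne (by positivity) fun e => ?_
    have : (io s 2 - 1) * (io s 2 + 1) = 0 := by linarith
    exact (mul_eq_zero.1 this).elim (fun k => h.2 (sub_eq_zero.1 k))
      fun k => h.1 (eq_neg_of_add_eq_zero_left k)
  · rw [e] at u; linarith
  · rw [e] at u; linarith

/-- a path from the identity to minus the identity that keeps the axis -/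
def rt (q : Rn 3 × ℝ) : Rn 3 := (1 - 2 * q.2) • q.1 + (q.2 * (1 - q.2)) • ![-q.1 1, q.1 0, 0]

theorem rt_pos {q : Rn 3 × ℝ} (h : 0 < q.1 0 ^ 2 + q.1 1 ^ 2) : 0 < rt q 0 ^ 2 + rt q 1 ^ 2 := by
  have e : rt q 0 ^ 2 + rt q 1 ^ 2 =
      ((1 - 2 * q.2) ^ 2 + (q.2 * (1 - q.2)) ^ 2) * (q.1 0 ^ 2 + q.1 1 ^ 2) := by
    simp [rt]; ring
  rw [e]
  refine mul_pos ?_ h
  by_cases k : 1 - 2 * q.2 = 0
  · rw [show q.2 = 1 / 2 by linarith]; norm_num
  · positivity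

theorem cd_rt' : ContDiff ℝ ∞ rt := by
  refine contDiff_pi.2 fun i => ?_
  fin_cases i <;> simp [rt] <;> fun_prop

/-- a closed two-form cohomologous to its antipodal pull-back is exact -/
theorem sph (hH : HomStmt) {η : S2 → Lam (Rn 2)} (hη : Cl S2 2 η univ)
    (h : Ex S2 1 (fun s => η s - pbM S2 S2 an η s) univ) : Ex S2 1 η univ := by
  have hζ := hη.add (hη.pb (fun s _ => sm_an s) (mapsTo_univ an univ))
  obtain ⟨b, b1, b2⟩ := cap hH hζ
  have m : MapsTo an {s | io s 2 ≠ 1} {s | io s 2 ≠ -1} := fun s hs e =>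
    hs (by rw [io_an] at e; simpa using e)
  have c1 := b1.pb (fun s _ => sm_an s) m
  have c2 : ∀ s ∈ {s : S2 | io s 2 ≠ 1}, dM S2 (pbM S2 S2 an b) s = η s + pbM S2 S2 an η s :=
    fun s hs => by
      rw [dM_pb (sm_an s) (b1 _ (m hs)).1, 
        pbM_congr_right (β := fun y => η y + pbM S2 S2 an η y) (b2 _ (m hs)), pbM_add, pb_an, add_comm]
  have hA := (op_ne (-1)).inter (op_ne 1)
  have nz : ∀ p : S2.cyl, p.1 ∈ {s : S2 | io s 2 ≠ -1} ∩ {s | io s 2 ≠ 1} → rt (io p.1, p.2) ≠ 0 :=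
    fun p hp e => by simpa [e] using rt_pos (q := (io p.1, p.2)) ((band _).1 hp)
  have e := htp hH (H := fun p : S2.cyl => nr (rt (io p.1, p.2))) (f₀ := fun s => s) (f₁ := an)
    (k := 0) (a := fun s => b s - pbM S2 S2 an b s) hA (hA.prod isOpen_univ)
    (prod_mono_right (subset_univ _)) (fun p hp => sm_nr cd_rt' (nz p hp.1)) (fun p hp => ?_)
    ⟨(b1.mono inter_subset_left).sub (c1.mono inter_subset_right), fun s hs => by
      rw [dM_sub (b1 s hs.1).1 (c1 s hs.2).1, b2 s hs.1, c2 s hs.2, sub_self]⟩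
    (fun s => by simp [rt]) fun s => by simp [rt, an]; norm_num
  · have := patch (op_ne (-1)) (op_ne 1) b1 c1 (ex_congr (ex_smul e (-1 / 2)) fun s _ => ?_) b2 c2
    · rw [show {s : S2 | io s 2 ≠ -1} ∪ {s | io s 2 ≠ 1} = univ from eq_univ_of_forall fun s => by
        by_cases k : io s 2 = 1
        exacts [.inl (by rw [mem_ofPred_eq, k]; norm_num), .inr k]] at this
      exact ex_congr (ex_smul (ex_add this h) (1 / 2)) fun s _ => by module
    · rw [pbM_sub, pb_an, pbM_id]; module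
  · rw [band, io_nr (nz p hp.1)]
    have := rt_pos (q := (io p.1, p.2)) ((band _).1 hp.1)
    have h2 := inv_pos.2 (Real.sqrt_pos.2 (nsq_pos (nz p hp.1)))
    simp only [Pi.smul_apply, smul_eq_mul, mul_pow, ← mul_add]
    positivity

/-! ### Plane times sphere -/

theorem sm_sl (z : ℂ) : Sm S2 J (fun s => (z, s)) univ := fun _ _ =>
  (smAt_const (Y := vs ℂ) z).pair smAt_id

/-- restriction to a fibre -/
def rs (z : ℂ) (γ : J → Lam (ℂ × Rn 2)) : S2 → Lam (Rn 2) := pbM S2 J (fun s => (z, s)) γ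

section
variable (hH : HomStmt) {k : ℕ} {W : Set ℂ} {γ : J → Lam (ℂ × Rn 2)} (hW : IsOpen W)
  (hc : Convex ℝ W) {z z' : ℂ} (hz : z ∈ W) (hγ : Cl J (k + 1) γ (W ×ˢ univ))
include hH hW hc hz hγ

theorem shrink : Ex J k (fun p => γ p - pbM J S2 Prod.snd (rs z γ) p) (W ×ˢ univ) := by
  have hs : ∀ p : J.cyl, SmAt J.cyl J (fun p => (z + p.2 • (p.1.1 - z), p.1.2)) p := fun p =>
    SmAt.pair (Y := vs ℂ) ((smAt_const (Y := vs ℂ) z).vadd (smAt_snd.vsmul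
      ((smAt_fst.trans smAt_fst).vsub (smAt_const (Y := vs ℂ) z)))) (smAt_fst.trans smAt_snd)
  have hO := hW.prod (isOpen_univ (X := S2))
  refine ex_congr (htp hH (H := fun p : J.cyl => (z + p.2 • (p.1.1 - z), p.1.2))
    (f₀ := fun p => (z, p.2)) (f₁ := fun p => p) hO
    (hO.preimage (continuous_iff_continuousAt.2 fun p => (hs p).cont))
    (fun p hp => ⟨hc.add_smul_sub_mem hz hp.1.1 hp.2, trivial⟩) (fun p _ => hs p) (fun p hp => hp)
    hγ (fun p => by simp) fun p => by simp) fun p _ => ?_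
  rw [pbM_id, rs, ← pbM_comp smAt_snd (sm_sl z _ trivial)]

theorem ret (h : Ex S2 k (rs z γ) univ) : Ex J k γ (W ×ˢ univ) := by
  have h1 : Ex J k (pbM J S2 Prod.snd (rs z γ)) (W ×ˢ univ) :=
    ex_pb h (fun _ _ => smAt_snd) (mapsTo_univ _ _)
  exact ex_congr (ex_add (shrink hH hW hc hz hγ) h1) fun _ _ => by rw [sub_add_cancel]

theorem mov (hz' : z' ∈ W) : Ex S2 k (fun s => rs z' γ s - rs z γ s) univ := by
  refine ex_congr (ex_pb (shrink hH hW hc hz hγ) (sm_sl z') fun _ _ => ⟨hz', trivial⟩) fun s _ => ?_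
  rw [pbM_sub, pbM_inv (sm_sl z' s trivial) smAt_snd (.of_forall fun _ => rfl)]
  rfl

end

theorem cl_rs {k : ℕ} {O : Set J} {γ : J → Lam (ℂ × Rn 2)} (h : Cl J k γ O) {z : ℂ}
    (hz : ∀ s, (z, s) ∈ O) : Cl S2 k (rs z γ) univ := h.pb (sm_sl z) fun s _ => hz s

/-- open boxes -/
def bx (a b c d : ℝ) : Set ℂ := {z | z.re ∈ Ioo a b ∧ z.im ∈ Ioo c d}

theorem bx_op (a b c d : ℝ) : IsOpen (bx a b c d) :=
  (isOpen_Ioo.preimage Complex.continuous_re).inter (isOpen_Ioo.preimage Complex.continuous_im)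
theorem bx_cv (a b c d : ℝ) : Convex ℝ (bx a b c d) :=
  ((convex_Ioo a b).linear_preimage Complex.reLm).inter
    ((convex_Ioo c d).linear_preimage Complex.imLm)

theorem no_int {x : ℝ} (h : x ∈ Ioo (0 : ℝ) 1) (m : ℤ) : x ≠ m := by
  rintro rfl
  have h1 : 0 < m := by exact_mod_cast h.1
  have h2 : m < 1 := by exact_mod_cast h.2
  omega

theorem int01 {a : ℤˣ} {m : ℤ} {x : ℝ} (h : x ∈ Ioo (0 : ℝ) 1) (h' : sg a * x + m ∈ Ioo (0 : ℝ) 1) :
    (a = 1 ∧ m = 0) ∨ (a = -1 ∧ m = 1) := by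
  obtain ⟨h1, h2⟩ := h
  obtain ⟨h3, h4⟩ := h'
  rcases Int.units_eq_one_or a with rfl | rfl <;> simp only [sg_one, sg_neg] at h3 h4
  · have a1 : -1 < m := by exact_mod_cast (show (-1 : ℝ) < m by linarith)
    have a2 : m < 1 := by exact_mod_cast (show (m : ℝ) < 1 by linarith)
    exact .inl ⟨rfl, by omega⟩
  · have a1 : 0 < m := by exact_mod_cast (show (0 : ℝ) < m by linarith)
    have a2 : m < 2 := by exact_mod_cast (show (m : ℝ) < 2 by linarith)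
    exact .inr ⟨rfl, by omega⟩

theorem inth {a : ℤˣ} {m : ℤ} {x : ℝ} (h : x ∈ Ioo (-1 / 2 : ℝ) (1 / 2))
    (h' : sg a * x + m ∈ Ioo (-1 / 2 : ℝ) (1 / 2)) : m = 0 := by
  obtain ⟨h1, h2⟩ := h
  obtain ⟨h3, h4⟩ := h'
  have : (-1 : ℝ) < m ∧ (m : ℝ) < 1 := by
    rcases sg_or a with e | e <;> rw [e] at h3 h4 <;> constructor <;> linarith
  have a1 : -1 < m := by exact_mod_cast this.1
  have a2 : m < 1 := by exact_mod_cast this.2
  omega

theorem par {a b : ℤˣ} {m n : ℤ} (hm : m.negOnePow = a * b) (hn : n.negOnePow = a * b)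
    (h : (a = 1 ∧ m = 0) ∨ (a = -1 ∧ m = 1)) (h' : n = 0 ∨ (b = -1 ∧ n = 1)) :
    a = 1 ∧ b = 1 ∧ m = 0 ∧ n = 0 := by
  rcases Int.units_eq_one_or b with rfl | rfl <;> rcases h with ⟨rfl, rfl⟩ | ⟨rfl, rfl⟩ <;>
    rcases h' with rfl | ⟨e, rfl⟩ <;>
    first
    | exact ⟨rfl, rfl, rfl, rfl⟩ | exact absurd hm (by decide) | exact absurd hn (by decide)
    | exact absurd e (by decide)

theorem red (a : ℤˣ) (x : ℝ) :
    ∃ m : ℤ, m.negOnePow = a * ⌊x⌋.negOnePow ∧ sg a * x + m ∈ Icc (0 : ℝ) 1 := by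
  have h1 := Int.floor_le x
  have h2 := Int.lt_floor_add_one x
  rcases Int.units_eq_one_or a with rfl | rfl
  · exact ⟨-⌊x⌋, by simp, by simp [h1], by simp; linarith⟩
  · exact ⟨⌊x⌋ + 1, by simp [Int.negOnePow_succ], by simp; linarith, by simp [h1]⟩

section Main
variable {M : Mf E4} {P : J → M} (hH : HomStmt) (h0 : HZ S2 0 univ) (ld : ∀ p ∈ JU, LDAt J M P p)
  (fib : ∀ p ∈ JU, ∀ p' ∈ JU, P p = P p' ↔ ∃ g, actJ g p = p')

include ld fib in
theorem oe {W : Set ℂ} (hW : IsOpen W) (hs : W ×ˢ univ ⊆ JU)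
    (h : ∀ g, ∀ z ∈ W, gC g z ∈ W → g = 1) : OE J M P (W ×ˢ univ) :=
  ⟨hW.prod isOpen_univ, fun p hp => ld p (hs hp), fun p hp p' hp' e => by
    obtain ⟨g, rfl⟩ := (fib p (hs hp) p' (hs hp')).1 e
    rw [h g _ hp.1 hp'.1, actJ_one]⟩

include hH h0 in
theorem step {α : M → Lam E4} {A : Set M} {V V₁ V₂ : Set ℂ} (hA : IsOpen A) (h : Ex M 1 α A)
    (hV : OE J M P (V ×ˢ univ)) (h' : Ex M 1 α (P '' (V ×ˢ univ))) (o1 : IsOpen V₁) (o2 : IsOpen V₂)
    (c1 : Convex ℝ V₁) (c2 : Convex ℝ V₂) (n1 : V₁.Nonempty) (n2 : V₂.Nonempty) (s1 : V₁ ⊆ V)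
    (s2 : V₂ ⊆ V) (hd : Disjoint V₁ V₂) (e : ∀ z ∈ V, ∀ s, P (z, s) ∈ A ↔ z ∈ V₁ ∪ V₂) :
    Ex M 1 α (A ∪ P '' (V ×ˢ univ)) := by
  have hz : ∀ {W : Set ℂ}, IsOpen W → Convex ℝ W → W.Nonempty → HZ J 0 (W ×ˢ univ) :=
    fun o c ⟨z, hz⟩ γ hγ => ret hH o c hz hγ (h0 _ (cl_rs hγ fun _ => ⟨hz, trivial⟩))
  refine patch' hA (hV.isOpen_image hV.op subset_rfl) h h' ?_
  rw [show A ∩ P '' (V ×ˢ univ) = P '' (V₁ ×ˢ univ ∪ V₂ ×ˢ univ) from ?_]
  · exact (hV.mono ((o1.prod isOpen_univ).union (o2.prod isOpen_univ))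
      (union_subset (prod_mono_left s1) (prod_mono_left s2))).hz_image
      (hz_disj (o1.prod isOpen_univ) (o2.prod isOpen_univ) (hd.set_prod_left _ _) (hz o1 c1 n1)
        (hz o2 c2 n2))
  · rw [← union_prod]
    refine Subset.antisymm ?_ ?_
    · rintro _ ⟨hA, p, hp, rfl⟩
      exact ⟨p, ⟨(e _ hp.1 _).1 hA, trivial⟩, rfl⟩
    · rintro _ ⟨p, hp, rfl⟩
      have := union_subset s1 s2 hp.1
      exact ⟨(e _ this _).2 hp.1, p, ⟨this, trivial⟩, rfl⟩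

theorem off {z : ℂ} (h : z.re ∈ Ioo (0 : ℝ) 1 ∨ z.im ∈ Ioo (0 : ℝ) 1) (s : S2) : (z, s) ∈ JU := by
  rintro k (rfl : z = _)
  exact h.elim (fun h => no_int h k.1 rfl) fun h => no_int h k.2 rfl

include hH h0 ld fib in
theorem main : HZ M 1 (P '' JU) := fun α hα => by
  have sm : Sm J M P JU := fun p hp => (ld p hp).sm
  have hγ := hα.pb sm (mapsTo_image P JU)
  have inv : ∀ g, ∀ p ∈ JU, P (actJ g p) = P p := fun g p hp =>
    ((fib p hp _ (actJ_mem g hp)).2 ⟨g, rfl⟩).symm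
  have s0 : bx 0 2 0 1 ×ˢ univ ⊆ JU := fun p hp => off (.inr hp.1.2) p.2
  have m1 : (⟨3 / 2, 1 / 2⟩ : ℂ) ∈ bx 0 2 0 1 := by norm_num [bx]
  have m0 : (⟨1 / 2, 1 / 2⟩ : ℂ) ∈ bx 0 2 0 1 := by norm_num [bx]
  have mv := fun z z' (hz : z ∈ bx 0 2 0 1) hz' =>
    mov hH (bx_op _ _ _ _) (bx_cv _ _ _ _) hz (hγ.mono s0) (z' := z') hz'
  have e1 : Ex S2 1 (rs ⟨3 / 2, 1 / 2⟩ (pbM J M P α)) univ := by
    refine sph hH (cl_rs hγ fun s => s0 ⟨m1, trivial⟩) (ex_congr (mv _ _ m0 m1) fun s _ => ?_)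
    have a0 := fun s => s0 (⟨m0, trivial⟩ : (_, s) ∈ _ ×ˢ univ)
    have a1 := fun s => s0 (⟨m1, trivial⟩ : (_, s) ∈ _ ×ˢ univ)
    rw [rs, rs, ← pbM_comp (sm_an s) (sm_sl _ _ trivial), ← pbM_comp (sm_sl _ s trivial) (sm _ (a0 s)),
      ← pbM_comp ((sm_an s).trans (sm_sl _ _ trivial)) (sm _ (a1 _))]
    congr 2
    funext s
    rw [← inv ⟨1, -1, 1, 1, rfl, rfl⟩ _ (a0 s)]
    norm_num [actJ, gC, psi, an]
  have ex : ∀ {W : Set ℂ}, IsOpen W → Convex ℝ W → W ×ˢ univ ⊆ JU → ⟨1 / 4, 1 / 4⟩ ∈ W →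
      (∀ g, ∀ z ∈ W, gC g z ∈ W → g = 1) → OE J M P (W ×ˢ univ) ∧ Ex M 1 α (P '' (W ×ˢ univ)) :=
    fun o c s m i => ⟨oe ld fib o s i, ex_image (oe ld fib o s i) (ret hH o c m (hγ.mono s)
      (ex_congr (ex_add (mv _ ⟨1 / 4, 1 / 4⟩ m1 (by norm_num [bx])) e1) fun _ _ => by rw [sub_add_cancel]))⟩
  have sU : bx 0 1 0 1 ×ˢ univ ⊆ JU := fun p hp => off (.inl hp.1.1) p.2
  have sH : bx 0 1 (-1 / 2) (1 / 2) ×ˢ univ ⊆ JU := fun p hp => off (.inl hp.1.1) p.2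
  have sV : bx (-1 / 2) (1 / 2) 0 1 ×ˢ univ ⊆ JU := fun p hp => off (.inr hp.1.2) p.2
  obtain ⟨oU, eU⟩ := ex (bx_op _ _ _ _) (bx_cv _ _ _ _) sU (by norm_num [bx]) fun g z h h' => by
    obtain ⟨a, b, c, d⟩ := par g.hm g.hn (int01 h.1 h'.1) ((int01 h.2 h'.2).imp_left And.right)
    exact PG.ext a b c d
  obtain ⟨oH, eH⟩ := ex (bx_op _ _ _ _) (bx_cv _ _ _ _) sH (by norm_num [bx]) fun g z h h' => by
    obtain ⟨a, b, c, d⟩ := par g.hm g.hn (int01 h.1 h'.1) (.inl (inth h.2 h'.2))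
    exact PG.ext a b c d
  obtain ⟨oV, eV⟩ := ex (bx_op _ _ _ _) (bx_cv _ _ _ _) sV (by norm_num [bx]) fun g z h h' => by
    obtain ⟨a, b, c, d⟩ := par (g.hn.trans (mul_comm _ _)) (g.hm.trans (mul_comm _ _))
      (int01 h.2 h'.2) (.inl (inth h.1 h'.1))
    exact PG.ext b a d c
  have via : ∀ {W : Set ℂ} (g : PG) (p : J), p ∈ JU → gC g p.1 ∈ W → P p ∈ P '' (W ×ˢ univ) :=
    fun g p hp h => ⟨actJ g p, ⟨h, trivial⟩, inv g p hp⟩
  have ne : ∀ (a : ℤˣ) (m : ℤ) {x : ℝ}, x ∈ Ioo (0 : ℝ) 1 → sg a * x + m ≠ 0 := fun a m x hx e => by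
    rcases sg_or a with k | k <;> rw [k] at e
    · exact no_int hx (-m) (by push_cast; linarith)
    · exact no_int hx m (by linarith)
  have opU := oU.isOpen_image oU.op subset_rfl
  have e2 := step hH h0 opU eU oH eH (bx_op 0 1 0 (1 / 2)) (bx_op 0 1 (-1 / 2) 0) (bx_cv _ _ _ _)
    (bx_cv _ _ _ _) ⟨⟨1 / 4, 1 / 4⟩, by norm_num [bx]⟩ ⟨⟨1 / 4, -1 / 4⟩, by norm_num [bx]⟩
    (fun z h => ⟨h.1, by linarith [h.2.1], h.2.2⟩) (fun z h => ⟨h.1, h.2.1, by linarith [h.2.2]⟩)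
    (disjoint_left.2 fun z h h' => h.2.1.not_gt h'.2.2) fun z hz s => ⟨?_, ?_⟩
  have e3 := step hH h0 (opU.union (oH.isOpen_image oH.op subset_rfl)) e2 oV eV
    (bx_op 0 (1 / 2) 0 1) (bx_op (-1 / 2) 0 0 1) (bx_cv _ _ _ _)
    (bx_cv _ _ _ _) ⟨⟨1 / 4, 1 / 4⟩, by norm_num [bx]⟩ ⟨⟨-1 / 4, 1 / 4⟩, by norm_num [bx]⟩
    (fun z h => ⟨⟨by linarith [h.1.1], h.1.2⟩, h.2⟩) (fun z h => ⟨⟨h.1.1, by linarith [h.1.2]⟩, h.2⟩)
    (disjoint_left.2 fun z h h' => h.1.1.not_gt h'.1.2) fun z hz s => ⟨?_, ?_⟩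
  · obtain ⟨b, b1, b2⟩ := e3
    suffices h : P '' JU ⊆ _ from ⟨b, b1.mono h, fun x hx => b2 x (h hx)⟩
    rintro _ ⟨p, hp, rfl⟩
    obtain ⟨m, hm, x0, x1⟩ := red ⌊p.1.im⌋.negOnePow p.1.re
    obtain ⟨n, hn, y0, y1⟩ := red ⌊p.1.re⌋.negOnePow p.1.im
    rw [← inv ⟨_, _, m, n, hm, hn.trans (mul_comm _ _)⟩ p hp]
    have hq := actJ_mem ⟨_, _, m, n, hm, hn.trans (mul_comm _ _)⟩ hp
    change 0 ≤ (actJ ⟨_, _, m, n, hm, hn.trans (mul_comm _ _)⟩ p).1.re at x0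
    change (actJ ⟨_, _, m, n, hm, hn.trans (mul_comm _ _)⟩ p).1.re ≤ 1 at x1
    change 0 ≤ (actJ ⟨_, _, m, n, hm, hn.trans (mul_comm _ _)⟩ p).1.im at y0
    change (actJ ⟨_, _, m, n, hm, hn.trans (mul_comm _ _)⟩ p).1.im ≤ 1 at y1
    generalize actJ _ p = q at *
    have c : ∀ i j : ℤ, q.1.re = i → q.1.im ≠ j := fun i j a b => hq (i, j) (Complex.ext a b)
    rcases x0.eq_or_lt with x0 | x0
    · refine .inr (via 1 q hq ?_)
      rw [gC_one]
      exact ⟨by rw [← x0]; norm_num, lt_of_le_of_ne y0 (by simpa using (c 0 0 (by simp [x0])).symm),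
        lt_of_le_of_ne y1 (by simpa using c 0 1 (by simp [x0]))⟩
    rcases x1.eq_or_lt with x1 | x1
    · refine .inr (via ⟨1, -1, -1, 1, rfl, rfl⟩ q hq ?_)
      have a := lt_of_le_of_ne y0 (by simpa using (c 1 0 (by simp [x1])).symm)
      have b := lt_of_le_of_ne y1 (by simpa using c 1 1 (by simp [x1]))
      norm_num [bx, gC, x1, a, b]
    rcases y1.eq_or_lt with y1 | y1
    · refine .inl (.inr (via ⟨-1, 1, 1, -1, rfl, rfl⟩ q hq ?_))
      norm_num [bx, gC, y1, x0, x1]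
    rcases y0.eq_or_lt with y0 | y0
    · refine .inl (.inr (via 1 q hq ?_))
      rw [gC_one]
      exact ⟨⟨x0, x1⟩, by rw [← y0]; norm_num⟩
    · exact .inl (.inl (via 1 q hq (by rw [gC_one]; exact ⟨⟨x0, x1⟩, y0, y1⟩)))
  · intro h
    have : z.re ≠ 0 := by
      have k : ∀ p ∈ JU, p.1.re ∈ Ioo (0 : ℝ) 1 → P p = P (z, s) → z.re ≠ 0 := fun p hp h e => by
        obtain ⟨g, e⟩ := (fib p hp _ (sV ⟨hz, trivial⟩)).1 e
        rw [← show (gC g p.1).re = z.re from congrArg (fun p : J => p.1.re) e]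
        exact ne _ _ h
      rcases h with ⟨p, hp, e⟩ | ⟨p, hp, e⟩
      exacts [k p (sU hp) hp.1.1 e, k p (sH hp) hp.1.1 e]
    exact this.lt_or_gt.symm.imp (fun k => ⟨⟨k, hz.1.2⟩, hz.2⟩) fun k => ⟨⟨hz.1.1, k⟩, hz.2⟩
  · rintro (h | h)
    · exact .inl ⟨_, ⟨⟨⟨h.1.1, by linarith [h.1.2]⟩, h.2⟩, trivial⟩, rfl⟩
    · refine .inl (via ⟨1, -1, 1, 1, rfl, rfl⟩ _ (sV ⟨hz, trivial⟩) ?_)
      obtain ⟨⟨a, b⟩, c, d⟩ := h
      norm_num [bx, gC, b, c, d]
      linarith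
  · rintro ⟨p, hp, e⟩
    obtain ⟨g, e⟩ := (fib p (sU hp) _ (sH ⟨hz, trivial⟩)).1 e
    have : z.im ≠ 0 := by
      rw [← show (gC g p.1).im = z.im from congrArg (fun p : J => p.1.im) e]
      exact ne _ _ hp.1.2
    exact this.lt_or_gt.symm.imp (fun k => ⟨hz.1, k, hz.2.2⟩) fun k => ⟨hz.1, hz.2.1, k⟩
  · rintro (h | h)
    · exact ⟨_, ⟨⟨h.1, h.2.1, by linarith [h.2.2]⟩, trivial⟩, rfl⟩
    · refine via ⟨-1, 1, 1, 1, rfl, rfl⟩ _ (sH ⟨hz, trivial⟩) ?_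
      obtain ⟨⟨a, b⟩, c, d⟩ := h
      norm_num [bx, gC, a, b, d]
      linarith

end Main

end H2a

theorem h2a (hH : HomStmt) (hB : HzbStmt) : H2aStmt := fun _ T B _ hT hM => by
  refine H2a.main hH ((hB _ S2).2.2.2 _ isOpen_univ sc_S2.perf) (fun p hp =>
    ((hT.oι.ld p hp).trans (hM.oi.ld _ trivial)).trans (hM.ld _)) fun p hp p' hp' => ?_
  rw [hM.fib]
  refine exists_congr fun g => ?_
  rw [hM.ai, hT.aι g p hp]
  exact ⟨fun e => hT.oι.inj (actJ_mem g hp) hp' (hM.oi.inj trivial trivial e), fun e => by rw [e]⟩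

end Pool.Agent.MP_e1dc65_gt.E

end
end MrgPart2

-- marker of a merged file
example : 731051 + 463181 = 731051 + 463181 := rfl
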