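import Pool.Agent.MP_e1dc65_gt.fm.Sard
import Pool.Agent.MP_e1dc65_gt.e.aTwB
import Pool.Agent.MP_e1dc65_gt.e.aPrf
import Pool.Agent.MP_e1dc65_gt.e.aMat
import Pool.Agent.MP_e1dc65_gt.t.PreCof
import Pool.Agent.MP_e1dc65_gt.e.aLie
import Pool.Agent.MP_e1dc65_gt.e.aSpq
import Pool.Agent.MP_e1dc65_gt.o.Iso
import Pool.Agent.MP_e1dc65_gt.e.bH2a
import Pool.Agent.MP_e1dc65_gt.e.aH2l
import Pool.Agent.MP_e1dc65_gt.u.Spec
import Pool.Agent.MP_e1dc65_gt.e.cThn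
import Pool.Agent.MP_e1dc65_gt.e.B
import Pool.Agent.MP_e1dc65_gt.t2.Io

/-! PROJECT HC, part E: the pair of manifolds. -/

namespace Pool.Agent.MP_e1dc65_gt

open EA in
theorem partE : EStmt :=
  E.partC (asm twB sgm slb cfa lg isf nut cfn qt col end_ cfq cfe quo mat scq prf ets spt rot lie
    spq orq wang h2l h2m h2p h2q) E.partB

end Pool.Agent.MP_e1dc65_gt
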