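import Pool.Agent.MP_e1dc65_gt.e.Ex
import Pool.Agent.MP_e1dc65_gt.fm.Hza
import Pool.Agent.MP_e1dc65_gt.fm.Pd2

/-! PROJECT HC, part E: slices of products with convex sets; top-degree classes. -/

open scoped ContDiff Manifold Topology
open Set Filter Function Module Pool.Agent.MP_c8d41b_gt.GF

set_option linter.unusedSectionVars false

noncomputable section

namespace Pool.Agent.MP_e1dc65_gt.E

variable {E E' V : Type} [NormedAddCommGroup E] [NormedSpace ℝ E] [FiniteDimensional ℝ E]
  [NormedAddCommGroup E'] [NormedSpace ℝ E'] [FiniteDimensional ℝ E'] [NormedAddCommGroup V]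
  [NormedSpace ℝ V] [FiniteDimensional ℝ V] {k : ℕ}

/-- homotopic maps pull a closed form back to cohomologous forms -/
theorem ex_htp (hH : HomStmt) {X : Mf E} {Y : Mf E'} {U : Set X} {W : Set Y} {a : Y → Lam E'}
    {O : Set X.cyl} {H : X.cyl → Y} {f₀ f₁ : X → Y} (hU : IsOpen U) (hO : IsOpen O)
    (hUO : U ×ˢ Icc 0 1 ⊆ O) (hs : Sm X.cyl Y H O) (hm : MapsTo H O W) (ha : Cl Y (k + 1) a W)
    (h0 : ∀ x ∈ U, H (x, 0) = f₀ x) (h1 : ∀ x ∈ U, H (x, 1) = f₁ x) :
    Ex X k (fun x => pbM X Y f₁ a x - pbM X Y f₀ a x) U :=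
  Ex.congr (homotopy hH hU hO hUO hs hm ha) fun x hx => by
    rw [pbM_congr (f := fun x => H (x, 0)) (mem_of_superset (hU.mem_nhds hx) h0),
      pbM_congr (f := fun x => H (x, 1)) (mem_of_superset (hU.mem_nhds hx) h1)]

/-- `X` is the product of the vector space `V` and the manifold `S` -/
structure Spl (X : Mf E') (S : Mf E) (mk : V → S → X) (c : X → V) (pr : X → S) : Prop where
  smk : ∀ p, SmAt ((vs V).prod S) X (fun p => mk p.1 p.2) p
  sc : ∀ x, SmAt X (vs V) c x
  spr : ∀ x, SmAt X S pr x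
  eta : ∀ x, mk (c x) (pr x) = x
  c_mk : ∀ v s, c (mk v s) = v
  pr_mk : ∀ v s, pr (mk v s) = s

theorem spl_left (S : Mf E) : Spl ((vs V).prod S) S (fun v s => (v, s)) Prod.fst Prod.snd :=
  ⟨fun _ => smAt_id, fun _ => smAt_fst, fun _ => smAt_snd, fun _ => rfl, fun _ _ => rfl,
    fun _ _ => rfl⟩

theorem spl_right (S : Mf E) : Spl (S.prod (vs V)) S (fun v s => (s, v)) Prod.snd Prod.fst :=
  ⟨fun _ => smAt_snd.pair smAt_fst, fun _ => smAt_snd, fun _ => smAt_fst, fun _ => rfl,
    fun _ _ => rfl, fun _ _ => rfl⟩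

namespace Spl
variable {X : Mf E'} {S : Mf E} {mk : V → S → X} {c : X → V} {pr : X → S} (h : Spl X S mk c pr)
include h

theorem sm_sl (z : V) (s : S) : SmAt S X (mk z) s :=
  ((smAt_const (Y := vs V) z).pair smAt_id).trans (h.smk _)

variable (hH : HomStmt) {W : Set V} {U : Set S} {O : Set X} {γ : X → Lam E'} (hW : IsOpen W)
  (hc : Convex ℝ W) (hU : IsOpen U) (hO : ∀ x, x ∈ O ↔ c x ∈ W ∧ pr x ∈ U) {z z' : V} (hz : z ∈ W)
include hO hz

theorem maps : MapsTo (mk z) U O := fun s hs => (hO _).2 (by rw [h.c_mk, h.pr_mk]; exact ⟨hz, hs⟩)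

theorem cl_sl (hγ : Cl X k γ O) : Cl S k (pbM S X (mk z) γ) U :=
  hγ.pb (fun s _ => h.sm_sl z s) (h.maps hO hz)

include hH hW hc hU

/-- a closed form is cohomologous to the pull-back of its slice -/
theorem shrink (hγ : Cl X (k + 1) γ O) :
    Ex X k (fun x => γ x - pbM X S pr (pbM S X (mk z) γ) x) O := by
  have hs : ∀ p : X.cyl, SmAt X.cyl X (fun p => mk (z + p.2 • (c p.1 - z)) (pr p.1)) p := fun p =>
    (SmAt.pair (Y := vs V) ((smAt_const (Y := vs V) z).vadd (smAt_snd.vsmul
      ((smAt_fst.trans (h.sc _)).vsub (smAt_const (Y := vs V) z)))) (smAt_fst.trans (h.spr _))).trans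
      (h.smk _)
  have o : IsOpen O := by
    rw [show O = c ⁻¹' W ∩ pr ⁻¹' U from Set.ext hO]
    exact (hW.preimage (continuous_iff_continuousAt.2 fun x => (h.sc x).cont)).inter
      (hU.preimage (continuous_iff_continuousAt.2 fun x => (h.spr x).cont))
  refine (ex_htp hH (H := fun p : X.cyl => mk (z + p.2 • (c p.1 - z)) (pr p.1))
    (f₀ := fun x => mk z (pr x)) (f₁ := fun x => x) o
    (o.preimage (continuous_iff_continuousAt.2 fun p => (hs p).cont))
    (fun p hp => h.maps hO (hc.add_smul_sub_mem hz ((hO _).1 hp.1).1 hp.2) ((hO _).1 hp.1).2)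
    (fun p _ => hs p) (fun p hp => hp) hγ (fun p _ => by simp)
    fun p _ => by simp [h.eta]).congr fun p _ => ?_
  rw [pbM_id, ← pbM_comp (h.spr p) (h.sm_sl z _)]

/-- one exact slice makes the form exact -/
theorem ret (hγ : Cl X (k + 1) γ O) (e : Ex S k (pbM S X (mk z) γ) U) : Ex X k γ O :=
  ((h.shrink hH hW hc hU hO hz hγ).add (e.pb (f := pr) (fun x _ => h.spr x)
    fun x hx => ((hO x).1 hx).2)).congr fun _ _ => by rw [sub_add_cancel]

/-- two slices are cohomologous -/
theorem mov (hγ : Cl X (k + 1) γ O) (hz' : z' ∈ W) :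
    Ex S k (fun s => pbM S X (mk z') γ s - pbM S X (mk z) γ s) U :=
  ((h.shrink hH hW hc hU hO hz hγ).pb (fun s _ => h.sm_sl z' s) (h.maps hO hz')).congr fun s _ => by
    rw [pbM_sub, pbM_inv (h.sm_sl z' s) (h.spr _) (.of_forall (h.pr_mk z'))]

theorem hzp (e : HZ S k U) : HZ X k O := fun _ hγ =>
  h.ret hH hW hc hU hO hz hγ (e _ (h.cl_sl hO hz hγ))

end Spl

variable {S : Mf E} [CompactSpace S] {o w : S → Lam E}

theorem ocM_cpt (h : ∀ x, FmAt S w x) : OcM S univ w :=
  .of_compact isCompact_univ subset_rfl (fun x _ => h x) fun _ hx => (hx trivial).elim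

/-- on a closed connected manifold a top-degree form with integral zero is exact -/
theorem ex_of_int [ConnectedSpace S] (hI : IntMStmt) (hP : PdStmt) (ho : Ori S (k + 1) o univ)
    (hw : Cl S (k + 1) w univ) (h : intM S o w = 0) : Ex S k w univ := by
  obtain ⟨γ, -, h1, h2⟩ := hP E S k 0 o w univ ho isOpen_univ (ocM_cpt fun x => (hw.1 x trivial).1)
    hw fun A hA => by
      obtain ⟨c, hc⟩ := cl0_const isOpen_univ hA isPreconnected_univ subset_rfl
      rw [show (fun x => w x * A x) = fun x => c • w x from funext fun x => by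
        rw [hc x trivial, ← Algebra.commutes, Algebra.smul_def], (hI E S _ o ho).smul, h, mul_zero]
  exact ⟨γ, h1, fun x _ => h2 x⟩

theorem int_of_ex {N : ℕ} (hI : IntMStmt) (ho : Ori S N o univ) (h : Ex S k w univ) :
    intM S o w = 0 := by
  obtain ⟨β, h1, h2⟩ := h
  rw [show w = dM S β from funext fun x => (h2 x trivial).symm]
  exact (hI E S _ o ho).stokes β (ocM_cpt fun x => (h1 x trivial).1)

/-- an orientation reversing diffeomorphism changes the sign of the integral -/
theorem int_rev {N : ℕ} (hO : IntOEStmt) (ho : Ori S N o univ) {f : S → S} (hf : OE S S f univ)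
    (hs : Surjective f) (hr : ∀ x, 0 < cf (o x) (-pbM S S f o x)) (hw : ∀ x, FmAt S w x) :
    intM S o (pbM S S f w) = -intM S o w := by
  rw [← hO E E S S N o (fun x => -o x) f univ _ ho ho.neg hf (fun x _ => by rw [pbM_neg]; exact hr x)
    (ocM_cpt fun x => (hw _).pb (hf.sm x trivial)), Pd2.intM_neg,
    show psh S S f univ (pbM S S f w) = w from funext fun y => hf.psh_pbM (by simpa using hs y)]

/-- a top-degree class fixed by an orientation reversing diffeomorphism vanishes -/
theorem topclass [ConnectedSpace S] (hI : IntMStmt) (hO : IntOEStmt) (hP : PdStmt)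
    (ho : Ori S (k + 1) o univ) {f : S → S} (hf : OE S S f univ) (hs : Surjective f)
    (hr : ∀ x, 0 < cf (o x) (-pbM S S f o x)) (hw : Cl S (k + 1) w univ)
    (h : Ex S k (fun x => pbM S S f w x - w x) univ) : Ex S k w univ := by
  have w1 := fun x => (hw.1 x trivial).1
  have w2 := fun x => (w1 (f x)).pb (hf.sm x trivial)
  have a := (hI E S _ o ho).add _ _ (ocM_cpt fun x => (w2 x).sub (w1 x)) (ocM_cpt w1)
  simp only [sub_add_cancel] at a
  rw [int_of_ex hI ho h, zero_add] at a
  have b := int_rev hO ho hf hs hr w1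
  exact ex_of_int hI hP ho hw (by linarith)

end Pool.Agent.MP_e1dc65_gt.E
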